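import Pool.Agent.Lib.H18GB.RT
import Pool.Agent.Lib.Sieve.Averages

/-!
# Project GB: MAJO
-/

namespace Pool.Agent.Lib.H18GB

open Finset Pool.Agent.Lib.Sieve

theorem IsW.primeFactors {w W : ℕ} (hW : IsW w W) : W.primeFactors = primesUpTo w := by
  ext p
  rw [Nat.mem_primeFactors, mem_primesUpTo]
  constructor
  · rintro ⟨h1, h2, -⟩
    exact ⟨h1, (hW.2 p h1).mp h2⟩
  · rintro ⟨h1, h2⟩
    exact ⟨h1, (hW.2 p h1).mpr h2, hW.1.ne'⟩

theorem IsW.totient {w W : ℕ} (hW : IsW w W) :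
    (Nat.totient W / W : ℝ) = ∏ p ∈ primesUpTo w, (1 - 1 / (p : ℝ)) := by
  have h1 := Nat.totient_eq_mul_prod_factors W
  have h2 : (Nat.totient W : ℝ) = W * ∏ p ∈ W.primeFactors, (1 - (p : ℝ)⁻¹) := by
    have := congrArg (fun x : ℚ => (x : ℝ)) h1
    push_cast at this
    exact this
  have hW0 : (W : ℝ) ≠ 0 := by exact_mod_cast hW.1.ne'
  rw [h2, hW.primeFactors, mul_div_cancel_left₀ _ hW0]
  simp only [one_div]

theorem IsW.totient_mul_VV {w W z : ℕ} (hW : IsW w W) (hwz : w ≤ z) :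
    (Nat.totient W / W : ℝ) * VV (sprimes w z) = ∏ p ∈ primesUpTo z, (1 - 1 / (p : ℝ)) := by
  rw [hW.totient, VV, ← Finset.prod_union]
  · refine Finset.prod_congr ?_ fun _ _ => rfl
    ext p
    rw [Finset.mem_union, mem_primesUpTo, mem_primesUpTo, mem_sprimes]
    constructor
    · rintro (⟨h1, h2⟩ | ⟨h1, h2, h3⟩)
      · exact ⟨h1, by omega⟩
      · exact ⟨h1, h3⟩
    · rintro ⟨h1, h2⟩
      by_cases h : p ≤ w
      · exact Or.inl ⟨h1, h⟩
      · exact Or.inr ⟨h1, by omega, h2⟩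
  · rw [Finset.disjoint_left]
    intro p h1 h2
    rw [mem_primesUpTo] at h1
    rw [mem_sprimes] at h2
    omega

/-- Chunk MAJO: for primes `v > rt s M`, `log v ≤ log (2 W M + ..) ≤ C s / (φ(W)/W * VV)`:
`φ(W)/W * VV (sprimes w z) = ∏_{p ≤ z} (1 - 1/p) ≤ C / log z` (`prod_one_sub_inv_le`), and
`log (3 W M) ≤ 2 log M ≤ 4 s log z` for large `M`. -/
theorem majo : ∃ C : ℝ, 1 ≤ C ∧ ∀ s : ℕ, 1 ≤ s → ∀ w W : ℕ, IsW w W → ∃ M0 : ℕ, ∀ M : ℕ, M0 ≤ M →
    ∀ v : ℤ, |v| ≤ 5 * W * M → (rt s M : ℤ) < |v| →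
    lamv W v ≤ C * s * rho (sprimes w (rt s M)) v := by
  refine ⟨4, by norm_num, fun s hs w W hW => ?_⟩
  obtain ⟨M1, hM1⟩ := log_le_rt hs
  obtain ⟨M2, hM2⟩ := Filter.eventually_atTop.mp
    ((rt_tendsto hs).eventually (Filter.eventually_ge_atTop (w + 2)))
  refine ⟨M1 + M2 + 5 * W + 1, fun M hM v hv1 hv2 => ?_⟩
  have hlog := hM1 M (by omega)
  have hz := hM2 M (by omega)
  have hpr := (pset_sprimes w (rt s M)).prime
  have hs' : (1 : ℝ) ≤ s := by exact_mod_cast hs
  by_cases hp : v.natAbs.Prime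
  · have hv2' : rt s M < v.natAbs := by
      zify
      exact hv2
    have hrg : Rgh (sprimes w (rt s M)) v := by
      intro p hpS hdv
      rw [mem_sprimes] at hpS
      have h1 : p ∣ v.natAbs := by
        have := Int.natAbs_dvd_natAbs.mpr hdv
        simpa using this
      rcases (Nat.dvd_prime hp).mp h1 with h2 | h2
      · exact hpS.1.one_lt.ne' h2
      · omega
    have hV := VV_pos hpr
    rw [lamv, if_pos hp, rho, if_pos hrg, ← div_eq_mul_inv, le_div_iff₀ hV]
    have hz2 : 2 ≤ rt s M := by omega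
    have hz2' : (2 : ℝ) ≤ rt s M := by exact_mod_cast hz2
    have hlz : 0 < Real.log (rt s M) := Real.log_pos (by linarith)
    have h3 := prod_one_sub_inv_le (rt s M) hz2
    rw [← hW.totient_mul_VV (by omega : w ≤ rt s M)] at h3
    have hMpos : (0 : ℝ) < M := by exact_mod_cast (by omega : 0 < M)
    have hvle : (v.natAbs : ℝ) ≤ (M : ℝ) ^ 2 := by
      have h4 : v.natAbs ≤ 5 * W * M := by
        zify
        exact hv1
      have h5 : 5 * W * M ≤ M * M := Nat.mul_le_mul_right _ (by omega)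
      have h6 : v.natAbs ≤ M ^ 2 := by rw [pow_two]; exact h4.trans h5
      exact_mod_cast h6
    have hvpos : (0 : ℝ) < v.natAbs := by exact_mod_cast hp.pos
    have h7 : Real.log v.natAbs ≤ 2 * Real.log M := by
      have := Real.log_le_log hvpos hvle
      rw [Real.log_pow] at this
      exact_mod_cast this
    have h8 : Real.log v.natAbs ≤ 4 * s * Real.log (rt s M) := by nlinarith
    have hφ : (0 : ℝ) ≤ Nat.totient W / W := by positivity
    calc (Nat.totient W / W : ℝ) * Real.log v.natAbs * VV (sprimes w (rt s M))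
        = ((Nat.totient W / W : ℝ) * VV (sprimes w (rt s M))) * Real.log v.natAbs := by ring
      _ ≤ (1 / Real.log (rt s M)) * (4 * s * Real.log (rt s M)) := by
          apply mul_le_mul h3 h8
          · exact Real.log_nonneg (by exact_mod_cast hp.one_lt.le)
          · positivity
      _ = 4 * s := by field_simp
  · rw [lamv, if_neg hp]
    have := rho_nonneg hpr v
    positivity

end Pool.Agent.Lib.H18GB
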