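import Pool.Agent.Lib.H18GB.RCNC
import Pool.Agent.Lib.H18GB.Majo

/-!
# Project GB: RCN0, RCN1, RCN2
-/

namespace Pool.Agent.Lib.H18GB

open Finset Pool.Agent.Lib.Sieve

/-- Chunk RCN0: bounded `F`. -/
theorem rcn0 (ε : ℝ) (hε : 0 < ε) : ∃ w0 : ℕ, ∀ w W : ℕ, w0 ≤ w → IsW w W → ∃ N0 : ℕ,
    ∀ N : ℕ, N0 ≤ N → ∀ (r1 r2 σ : ℤ), |r1| < 2 * W → IsCoprime r1 (W : ℤ) → |r2| < 2 * W →
    IsCoprime r2 (W : ℤ) → (σ = 1 ∨ σ = -1) → ∀ (F G : ℤ → ℝ), (∀ x, |F x| ≤ 1) →
    (∀ y, |G y| ≤ 1) →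
    |∑ x ∈ Finset.Ico (0 : ℤ) N, ∑ y ∈ Finset.Ico (0 : ℤ) N, F x * G y * ker W r1 r2 σ x y| ≤
      ε * N ^ 2 := by
  obtain ⟨s, hs, w0, h⟩ := rcnc 1 le_rfl ε hε
  refine ⟨w0, fun w W hw hW => ?_⟩
  obtain ⟨N0, hN0⟩ := h w W hw hW
  refine ⟨N0, fun N hN r1 r2 σ h1 h2 h3 h4 h5 F G hF hG => ?_⟩
  refine hN0 N hN r1 r2 σ h1 h2 h3 h4 h5 F G 1 (Or.inl rfl) (fun x => (hF x).trans ?_) hG
  have : (1 : ℝ) ≤ (s : ℝ) := by exact_mod_cast (by omega : 1 ≤ s)
  simp only [Pi.one_apply]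
  nlinarith

/-- Size of the logarithms. -/
noncomputable def LL (W N : ℕ) : ℝ := Real.log (5 * W * N)

theorem lamv_le {W N : ℕ} (hW : 0 < W) (hN : 0 < N) {v : ℤ} (hv : |v| ≤ 5 * W * N) :
    lamv W v ≤ LL W N := by
  unfold lamv LL
  have h0 : (1 : ℝ) ≤ 5 * W * N := by
    have h1 : (1 : ℝ) ≤ W := by exact_mod_cast hW
    have h2 : (1 : ℝ) ≤ N := by exact_mod_cast hN
    nlinarith
  split_ifs with h
  · have h1 : (1 : ℝ) < (v.natAbs : ℝ) := by exact_mod_cast h.one_lt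
    have h2 : (Nat.totient W / W : ℝ) ≤ 1 := by
      rw [div_le_one (by exact_mod_cast hW)]
      exact_mod_cast Nat.totient_le W
    have h3 : (v.natAbs : ℝ) ≤ 5 * W * N := by
      have : ((v.natAbs : ℤ)) ≤ 5 * W * N := by rw [Int.natCast_natAbs]; exact hv
      exact_mod_cast this
    have h4 : Real.log v.natAbs ≤ Real.log (5 * W * N) := Real.log_le_log (by linarith) h3
    have h5 : 0 ≤ Real.log (v.natAbs : ℝ) := Real.log_nonneg h1.le
    have h6 : 0 ≤ (Nat.totient W / W : ℝ) := by positivity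
    nlinarith
  · exact Real.log_nonneg h0

theorem LL_nonneg {W N : ℕ} (hW : 0 < W) (hN : 0 < N) : 0 ≤ LL W N :=
  (lamv_nonneg W 0).trans (lamv_le hW hN (by simp; positivity))

theorem ker_le {W N : ℕ} (hW : 0 < W) (hN : 0 < N) {r1 r2 σ x y : ℤ} (h1 : |r1| < 2 * W)
    (h2 : |r2| < 2 * W) (hσ : σ = 1 ∨ σ = -1) (hx : x ∈ Finset.Ico (0 : ℤ) N)
    (hy : y ∈ Finset.Ico (0 : ℤ) N) : |ker W r1 r2 σ x y| ≤ LL W N ^ 2 + 1 := by
  unfold ker
  rw [Finset.mem_Ico] at hx hy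
  have hWz : (1 : ℤ) ≤ W := by exact_mod_cast hW
  have hNz : (1 : ℤ) ≤ N := by exact_mod_cast hN
  have hl := LL_nonneg hW hN
  split_ifs with h
  · have a1 : |r1 + W * (x + y)| ≤ 5 * W * N := by
      rw [abs_le]
      rw [abs_lt] at h1
      constructor <;> nlinarith
    have hd : 0 ≤ σ * (x - y) ∧ σ * (x - y) ≤ N := by
      refine ⟨h, ?_⟩
      rcases hσ with rfl | rfl <;> linarith
    have a2 : |r2 + W * (σ * (x - y))| ≤ 5 * W * N := by
      rw [abs_le]
      rw [abs_lt] at h2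
      obtain ⟨d1, d2⟩ := hd
      constructor <;> nlinarith
    have b1 := lamv_nonneg W (r1 + W * (x + y))
    have b2 := lamv_nonneg W (r2 + W * (σ * (x - y)))
    have c1 := lamv_le hW hN a1
    have c2 := lamv_le hW hN a2
    unfold lam
    have d1 := mul_le_mul c1 c2 b2 hl
    have d2 := mul_nonneg b1 b2
    rw [abs_le]
    constructor <;> nlinarith
  · rw [abs_zero]; positivity

/-- Removal of a few `x`. -/
theorem removal {W N : ℕ} (hW : 0 < W) (hN : 0 < N) {r1 r2 σ : ℤ} (h1 : |r1| < 2 * W)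
    (h2 : |r2| < 2 * W) (hσ : σ = 1 ∨ σ = -1) (F G : ℤ → ℝ) (hG : ∀ y, |G y| ≤ 1)
    (B : Finset ℤ) (hB : ∀ x ∈ Finset.Ico (0 : ℤ) N, x ∈ B → |F x| ≤ LL W N ^ 2 + 1) :
    |∑ x ∈ Finset.Ico (0 : ℤ) N, ∑ y ∈ Finset.Ico (0 : ℤ) N, F x * G y * ker W r1 r2 σ x y| ≤
      |∑ x ∈ Finset.Ico (0 : ℤ) N, ∑ y ∈ Finset.Ico (0 : ℤ) N,
        (if x ∈ Finset.Ico (0 : ℤ) N ∧ x ∉ B then F x else 0) * G y * ker W r1 r2 σ x y| +
      B.card * (N * (LL W N ^ 2 + 1) ^ 2) := by
  classical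
  have hl := LL_nonneg hW hN
  have key : ∑ x ∈ Finset.Ico (0 : ℤ) N, ∑ y ∈ Finset.Ico (0 : ℤ) N, F x * G y * ker W r1 r2 σ x y =
      ∑ x ∈ Finset.Ico (0 : ℤ) N, ∑ y ∈ Finset.Ico (0 : ℤ) N,
        (if x ∈ Finset.Ico (0 : ℤ) N ∧ x ∉ B then F x else 0) * G y * ker W r1 r2 σ x y +
      ∑ x ∈ (Finset.Ico (0 : ℤ) N).filter (fun x => x ∈ B), ∑ y ∈ Finset.Ico (0 : ℤ) N,
        F x * G y * ker W r1 r2 σ x y := by
    rw [Finset.sum_filter, ← Finset.sum_add_distrib]
    refine Finset.sum_congr rfl fun x hx => ?_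
    by_cases hxB : x ∈ B
    · simp [hxB]
    · rw [if_neg hxB, add_zero]
      refine Finset.sum_congr rfl fun y _ => ?_
      rw [if_pos ⟨hx, hxB⟩]
  have hrem : |∑ x ∈ (Finset.Ico (0 : ℤ) N).filter (fun x => x ∈ B), ∑ y ∈ Finset.Ico (0 : ℤ) N,
        F x * G y * ker W r1 r2 σ x y| ≤ B.card * (N * (LL W N ^ 2 + 1) ^ 2) := by
    refine (Finset.abs_sum_le_sum_abs _ _).trans ?_
    have hx1 : ∀ x ∈ (Finset.Ico (0 : ℤ) N).filter (fun x => x ∈ B),
        |∑ y ∈ Finset.Ico (0 : ℤ) N, F x * G y * ker W r1 r2 σ x y| ≤ N * (LL W N ^ 2 + 1) ^ 2 := by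
      intro x hx
      rw [Finset.mem_filter] at hx
      refine (Finset.abs_sum_le_sum_abs _ _).trans ?_
      have hy1 : ∀ y ∈ Finset.Ico (0 : ℤ) N, |F x * G y * ker W r1 r2 σ x y| ≤ (LL W N ^ 2 + 1) ^ 2 := by
        intro y hy
        rw [abs_mul, abs_mul]
        have a1 := hB x hx.1 hx.2
        have a2 := ker_le hW hN h1 h2 hσ hx.1 hy
        have a3 := hG y
        calc |F x| * |G y| * |ker W r1 r2 σ x y|
            ≤ (LL W N ^ 2 + 1) * 1 * (LL W N ^ 2 + 1) := by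
              apply mul_le_mul (mul_le_mul a1 a3 (abs_nonneg _) (by positivity)) a2 (abs_nonneg _)
                (by positivity)
          _ = _ := by ring
      refine (Finset.sum_le_sum hy1).trans ?_
      rw [Finset.sum_const, Int.card_Ico, nsmul_eq_mul]
      simp
    refine (Finset.sum_le_sum hx1).trans ?_
    rw [Finset.sum_const, nsmul_eq_mul]
    apply mul_le_mul_of_nonneg_right _ (by positivity)
    exact_mod_cast Finset.card_le_card (fun x hx => (Finset.mem_filter.mp hx).2)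
  rw [key]
  exact (abs_add_le _ _).trans (add_le_add le_rfl hrem)

/-- The integers `x` in `[0, N)` with `|b + c x| ≤ R`. -/
noncomputable def bad (N : ℕ) (b c : ℤ) (R : ℕ) : Finset ℤ :=
  (Finset.Ico (0 : ℤ) N).filter (fun x => |b + c * x| ≤ R)

theorem card_bad {N : ℕ} {b c : ℤ} (hc : c ≠ 0) (R : ℕ) : (bad N b c R).card ≤ 2 * R + 1 := by
  have h1 : (bad N b c R).card ≤ (Finset.Icc (-(R : ℤ)) R).card := by
    apply Finset.card_le_card_of_injOn (fun x => b + c * x)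
    · intro x hx
      rw [Finset.mem_coe, bad, Finset.mem_filter] at hx
      rw [Finset.mem_coe, Finset.mem_Icc]
      exact abs_le.mp hx.2
    · intro x _ y _ hxy
      have : c * x = c * y := by linarith
      exact mul_left_cancel₀ hc this
  rw [Int.card_Icc] at h1
  omega

theorem rt_sq_le {s : ℕ} (hs : 2 ≤ s) (N : ℕ) : (rt s N : ℝ) ≤ Real.sqrt N := by
  have h := rt_pow_le (s := s) (by omega) N
  apply Real.le_sqrt_of_sq_le
  rcases Nat.eq_zero_or_pos (rt s N) with h0 | h0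
  · rw [h0]; simp
  · have h1 : rt s N ^ 2 ≤ rt s N ^ s := Nat.pow_le_pow_right h0 hs
    exact_mod_cast h1.trans h

/-- The removed part is small. -/
theorem removed_small (W : ℕ) (hW : 0 < W) (ε : ℝ) (hε : 0 < ε) : ∃ N0 : ℕ, ∀ N : ℕ, N0 ≤ N →
    (4 * Real.sqrt N + 2) * (N * (LL W N ^ 2 + 1) ^ 2) ≤ ε * N ^ 2 := by
  have h1 : ∀ᶠ N : ℕ in Filter.atTop, (Real.log N) ^ (4 : ℝ) ≤ ε / 150 * (N : ℝ) ^ (1 / 2 : ℝ) := by
    have h := (isLittleO_log_rpow_rpow_atTop (s := 1 / 2) 4 (by norm_num)).bound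
      (show 0 < ε / 150 by positivity)
    have h' := tendsto_natCast_atTop_atTop.eventually h
    filter_upwards [h', Filter.eventually_ge_atTop 1] with N hN hN1
    rw [Real.norm_of_nonneg (by positivity), Real.norm_of_nonneg (by positivity)] at hN
    exact hN
  have h2 : ∀ᶠ N : ℕ in Filter.atTop, (1 : ℝ) ≤ Real.log N :=
    (Real.tendsto_log_atTop.comp tendsto_natCast_atTop_atTop).eventually_ge_atTop 1
  have h3 : ∀ᶠ N : ℕ in Filter.atTop, 5 * W ≤ N := Filter.eventually_ge_atTop _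
  have h4 : ∀ᶠ N : ℕ in Filter.atTop, 1 ≤ N := Filter.eventually_ge_atTop _
  obtain ⟨N0, hN0⟩ := Filter.eventually_atTop.mp (h1.and (h2.and (h3.and h4)))
  refine ⟨N0, fun N hN => ?_⟩
  obtain ⟨a1, a2, a3, a4⟩ := hN0 N hN
  have hNr : (1 : ℝ) ≤ N := by exact_mod_cast a4
  have hWr : (1 : ℝ) ≤ W := by exact_mod_cast hW
  have hL : LL W N ≤ 2 * Real.log N := by
    unfold LL
    rw [Real.log_mul (by positivity) (by positivity)]
    have : Real.log (5 * W) ≤ Real.log N := Real.log_le_log (by positivity) (by exact_mod_cast a3)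
    linarith
  have hL0 := LL_nonneg hW a4
  have hsq : 1 ≤ Real.sqrt N := Real.one_le_sqrt.mpr hNr
  have hss : Real.sqrt N * Real.sqrt N = N := Real.mul_self_sqrt (by linarith)
  rw [show (4 : ℝ) = ((4 : ℕ) : ℝ) by norm_num, Real.rpow_natCast, ← Real.sqrt_eq_rpow] at a1
  set l := Real.log (N : ℝ) with hl
  have b1 : LL W N ^ 2 + 1 ≤ 5 * l ^ 2 := by nlinarith
  have b2 : (LL W N ^ 2 + 1) ^ 2 ≤ 25 * l ^ 4 := by
    have : (LL W N ^ 2 + 1) ^ 2 ≤ (5 * l ^ 2) ^ 2 := pow_le_pow_left₀ (by positivity) b1 2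
    nlinarith
  have b3 : 25 * l ^ 4 ≤ ε / 6 * Real.sqrt N := by linarith
  have b4 : (4 * Real.sqrt N + 2) ≤ 6 * Real.sqrt N := by linarith
  calc (4 * Real.sqrt N + 2) * (N * (LL W N ^ 2 + 1) ^ 2)
      ≤ (6 * Real.sqrt N) * (N * (ε / 6 * Real.sqrt N)) := by
        apply mul_le_mul b4 _ (by positivity) (by positivity)
        exact mul_le_mul_of_nonneg_left (b2.trans b3) (by linarith)
    _ = ε * (Real.sqrt N * Real.sqrt N) * N := by ring
    _ = ε * N ^ 2 := by rw [hss]; ring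

theorem SGp_zero {S : Finset ℕ} (hS : ∀ p ∈ S, p.Prime) : SGp S 0 = (VV S)⁻¹ := by
  unfold SGp VV
  rw [← Finset.prod_inv_distrib]
  exact Finset.prod_congr rfl fun p _ => by rw [if_pos (dvd_zero _)]

theorem rho_sq {S : Finset ℕ} (hS : ∀ p ∈ S, p.Prime) (v : ℤ) :
    rho S v * rho S v / SGp S 0 = rho S v := by
  rw [SGp_zero hS]
  have h := (VV_pos hS).ne'
  unfold rho
  split_ifs
  · field_simp
  · simp

/-- Chunk RCN1: `F` dominated by the primes `2 W x + b`. `lamv W v ≤ C s rho v` for `|v| > rt s N`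
(`majo`), and `rho v = rho v * rho v / SGp S 0`: apply `rcnc` with `K0 = C` to `F` restricted to the
`x` with `|2 W x + b| > rt s N` (few `x` are removed). -/
theorem rcn1 (ε : ℝ) (hε : 0 < ε) : ∃ w0 : ℕ, ∀ w W : ℕ, w0 ≤ w → IsW w W → ∃ N0 : ℕ,
    ∀ N : ℕ, N0 ≤ N → ∀ (r1 r2 σ b : ℤ), |r1| < 2 * W → IsCoprime r1 (W : ℤ) → |r2| < 2 * W →
    IsCoprime r2 (W : ℤ) → (σ = 1 ∨ σ = -1) → |b| ≤ 4 * W → ∀ (F G : ℤ → ℝ),
    (∀ x, |F x| ≤ lamv W (2 * W * x + b)) → (∀ y, |G y| ≤ 1) →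
    |∑ x ∈ Finset.Ico (0 : ℤ) N, ∑ y ∈ Finset.Ico (0 : ℤ) N, F x * G y * ker W r1 r2 σ x y| ≤
      ε * N ^ 2 := by
  obtain ⟨C, hC, hmaj⟩ := majo
  obtain ⟨s, hs, w0, h⟩ := rcnc C hC (ε / 2) (by positivity)
  refine ⟨w0, fun w W hw hW => ?_⟩
  obtain ⟨N1, hN1⟩ := h w W hw hW
  obtain ⟨N2, hN2⟩ := hmaj s (by omega) w W hW
  obtain ⟨N3, hN3⟩ := removed_small W hW.1 (ε / 2) (by positivity)
  refine ⟨max (max N1 N2) (max N3 2), fun N hN r1 r2 σ b h1 h2 h3 h4 h5 hb F G hF hG => ?_⟩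
  have hNa : N1 ≤ N := le_trans (le_trans (le_max_left _ _) (le_max_left _ _)) hN
  have hNb : N2 ≤ N := le_trans (le_trans (le_max_right _ _) (le_max_left _ _)) hN
  have hNc : N3 ≤ N := le_trans (le_trans (le_max_left _ _) (le_max_right _ _)) hN
  have hNd : 2 ≤ N := le_trans (le_trans (le_max_right _ _) (le_max_right _ _)) hN
  have hWz : (1 : ℤ) ≤ W := by exact_mod_cast hW.1
  have hNz : (2 : ℤ) ≤ N := by exact_mod_cast hNd
  have hsz : (1 : ℝ) ≤ (s : ℝ) := by exact_mod_cast (by omega : 1 ≤ s)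
  have hP : ∀ p ∈ sprimes w (rt s N), p.Prime := (pset_sprimes w (rt s N)).prime
  have hv : ∀ x ∈ Finset.Ico (0 : ℤ) N, |2 * W * x + b| ≤ 5 * W * N := by
    intro x hx
    rw [Finset.mem_Ico] at hx
    rw [abs_le] at hb ⊢
    constructor <;> nlinarith
  set B := bad N b (2 * W) (rt s N) with hBdef
  have hrem := removal hW.1 (by omega : 0 < N) h1 h3 h5 F G hG B (fun x hx _ => by
    have a1 := hF x
    have a2 := lamv_le hW.1 (by omega : 0 < N) (hv x hx)
    nlinarith [sq_nonneg (LL W N - 1 / 2)])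
  have hmain := hN1 N hNa r1 r2 σ h1 h2 h3 h4 h5
    (fun x => if x ∈ Finset.Ico (0 : ℤ) N ∧ x ∉ B then F x else 0) G
    (fun x => rho (sprimes w (rt s N)) (2 * W * x + b) * rho (sprimes w (rt s N)) (2 * W * x + b) /
        SGp (sprimes w (rt s N)) (2 * W * b - 2 * W * b))
    (Or.inr ⟨2, 2, b, b, by norm_num, by norm_num, by norm_num, by norm_num, rfl⟩)
    (fun x => by
      rw [sub_self, rho_sq hP]
      have hr := rho_nonneg hP (2 * W * x + b)
      split_ifs with hx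
      · have hx2 : (rt s N : ℤ) < |2 * W * x + b| := by
          by_contra hcon
          apply hx.2
          rw [hBdef, bad, Finset.mem_filter]
          refine ⟨hx.1, ?_⟩
          rw [not_lt] at hcon
          rwa [add_comm b]
        have a1 := hN2 N hNb _ (hv x hx.1) hx2
        refine (hF x).trans (a1.trans ?_)
        apply mul_le_mul_of_nonneg_right _ hr
        have hss : (s : ℝ) ≤ (s : ℝ) ^ 2 := by nlinarith
        exact mul_le_mul_of_nonneg_left hss (by linarith)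
      · rw [abs_zero]; positivity)
    hG
  have hcard : (B.card : ℝ) ≤ 4 * Real.sqrt N + 2 := by
    have c1 := card_bad (N := N) (b := b) (c := 2 * W) (by positivity) (rt s N)
    have c2 : (B.card : ℝ) ≤ 2 * rt s N + 1 := by exact_mod_cast c1
    have c3 := rt_sq_le hs N
    have c4 := Real.sqrt_nonneg (N : ℝ)
    linarith
  have hfin := hN3 N hNc
  have hlast : (B.card : ℝ) * (N * (LL W N ^ 2 + 1) ^ 2) ≤
      (4 * Real.sqrt N + 2) * (N * (LL W N ^ 2 + 1) ^ 2) :=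
    mul_le_mul_of_nonneg_right hcard (by positivity)
  linarith

theorem one_le_prod_real (T : Finset ℕ) (f : ℕ → ℝ) (h : ∀ p ∈ T, 1 ≤ f p) : 1 ≤ ∏ p ∈ T, f p := by
  classical
  induction T using Finset.induction_on with
  | empty => simp
  | insert a T ha ih =>
    rw [Finset.prod_insert ha]
    have h1 := h a (Finset.mem_insert_self a T)
    have h2 := ih fun p hp => h p (Finset.mem_insert_of_mem hp)
    nlinarith

theorem SGp_le_SW {w W z : ℕ} (hW : IsW w W) (hw : 2 ≤ w) {d : ℤ} (hd : d ≠ 0) :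
    0 < SGp (sprimes w z) (W * d) ∧ SGp (sprimes w z) (W * d) ≤ SW w d := by
  have hp3 : ∀ p ∈ sprimes w z, (3 : ℝ) ≤ p := by
    intro p hp
    have := (mem_sprimes.mp hp).2.1
    exact_mod_cast (by omega : 3 ≤ p)
  constructor
  · unfold SGp
    apply Finset.prod_pos
    intro p hp
    have h3 := hp3 p hp
    have h4 : 1 / (p : ℝ) ≤ 1 / 3 := one_div_le_one_div_of_le (by norm_num) h3
    have h5 : 2 / (p : ℝ) ≤ 2 / 3 := by
      have : 2 / (p : ℝ) = 2 * (1 / p) := by ring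
      rw [this]; linarith
    split_ifs
    · apply inv_pos.mpr; linarith
    · apply div_pos
      · linarith
      · apply pow_pos; linarith
  · unfold SGp SW
    have hle : ∀ p ∈ sprimes w z, (if (p : ℤ) ∣ (W * d) then (1 - 1 / (p : ℝ))⁻¹ else
        (1 - 2 / (p : ℝ)) / (1 - 1 / (p : ℝ)) ^ 2) ≤
        if p ∈ d.natAbs.primeFactors.filter (fun p => w < p) then (1 - 1 / (p : ℝ))⁻¹ else 1 := by
      intro p hp
      have hpp := mem_sprimes.mp hp
      have h3 := hp3 p hp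
      have h4 : 1 / (p : ℝ) ≤ 1 / 3 := one_div_le_one_div_of_le (by norm_num) h3
      have hW' := hW.not_dvd (pset_sprimes w z) p hp
      by_cases hdv : (p : ℤ) ∣ (W * d)
      · rw [if_pos hdv]
        have hpd : (p : ℤ) ∣ d := by
          have hprime : Prime (p : ℤ) := Nat.prime_iff_prime_int.mp hpp.1
          exact (hprime.dvd_or_dvd hdv).resolve_left hW'
        rw [if_pos]
        rw [Finset.mem_filter, Nat.mem_primeFactors]
        exact ⟨⟨hpp.1, Int.natCast_dvd.mp hpd, by simpa using hd⟩, hpp.2.1⟩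
      · rw [if_neg hdv]
        have hpd : p ∉ d.natAbs.primeFactors.filter (fun p => w < p) := by
          intro hcon
          rw [Finset.mem_filter, Nat.mem_primeFactors] at hcon
          exact hdv (Dvd.dvd.mul_left (Int.natCast_dvd.mpr hcon.1.2.1) _)
        rw [if_neg hpd, div_le_one (by apply pow_pos; linarith)]
        have : (2 : ℝ) / p = 2 * (1 / p) := by ring
        rw [this]
        nlinarith [sq_nonneg (1 / (p : ℝ))]
    have hnn : ∀ p ∈ sprimes w z, 0 ≤ (if (p : ℤ) ∣ (W * d) then (1 - 1 / (p : ℝ))⁻¹ else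
        (1 - 2 / (p : ℝ)) / (1 - 1 / (p : ℝ)) ^ 2) := by
      intro p hp
      have h3 := hp3 p hp
      have h4 : 1 / (p : ℝ) ≤ 1 / 3 := one_div_le_one_div_of_le (by norm_num) h3
      have h5 : 2 / (p : ℝ) ≤ 2 / 3 := by
        have : 2 / (p : ℝ) = 2 * (1 / p) := by ring
        rw [this]; linarith
      split_ifs
      · apply inv_nonneg.mpr; linarith
      · apply div_nonneg
        · linarith
        · apply pow_nonneg; linarith
    refine (Finset.prod_le_prod hnn hle).trans ?_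
    rw [Finset.prod_ite, Finset.prod_const_one, mul_one]
    set T := d.natAbs.primeFactors.filter (fun p => w < p) with hT
    have hsub : (sprimes w z).filter (fun p => p ∈ T) ⊆ T := fun p hp => (Finset.mem_filter.mp hp).2
    rw [← Finset.prod_sdiff hsub]
    have hone : ∀ p ∈ T, (1 : ℝ) ≤ (1 - 1 / (p : ℝ))⁻¹ := by
      intro p hp
      rw [hT, Finset.mem_filter] at hp
      have h3 : (3 : ℝ) ≤ p := by exact_mod_cast (by omega : 3 ≤ p)
      have h4 : 1 / (p : ℝ) ≤ 1 / 3 := one_div_le_one_div_of_le (by norm_num) h3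
      have h5 : 0 ≤ 1 / (p : ℝ) := by positivity
      exact (one_le_inv₀ (by linarith)).mpr (by linarith)
    have h6 : (1 : ℝ) ≤ ∏ p ∈ T \ (sprimes w z).filter (fun p => p ∈ T), (1 - 1 / (p : ℝ))⁻¹ :=
      one_le_prod_real _ _ fun p hp => hone p (Finset.mem_sdiff.mp hp).1
    have h7 : (0 : ℝ) ≤ ∏ p ∈ (sprimes w z).filter (fun p => p ∈ T), (1 - 1 / (p : ℝ))⁻¹ :=
      Finset.prod_nonneg fun p hp => le_trans zero_le_one (hone p (hsub hp))
    exact le_mul_of_one_le_left h7 h6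

theorem rcn_one_le_SW {w : ℕ} (hw : 2 ≤ w) (d : ℤ) : 1 ≤ SW w d := by
  unfold SW
  apply one_le_prod_real
  intro p hp
  rw [Finset.mem_filter] at hp
  have h3 : (3 : ℝ) ≤ p := by exact_mod_cast (by omega : 3 ≤ p)
  have h4 : 1 / (p : ℝ) ≤ 1 / 3 := one_div_le_one_div_of_le (by norm_num) h3
  have h5 : 0 ≤ 1 / (p : ℝ) := by positivity
  exact (one_le_inv₀ (by linarith)).mpr (by linarith)

/-- Chunk RCN2: `F` dominated by the pairs of primes `b + W x`, `b' - W x`: similarly (`majo` twice),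
`K0 = C^2`; here `ε1 * W * b2 - ε2 * W * b1 = W (b + b')`, and
`SGp (sprimes w z) (W (b + b')) ≤ SW w (b + b')`. -/
theorem rcn2 (ε : ℝ) (hε : 0 < ε) : ∃ w0 : ℕ, ∀ w W : ℕ, w0 ≤ w → IsW w W → ∃ N0 : ℕ,
    ∀ N : ℕ, N0 ≤ N → ∀ (r1 r2 σ b b' : ℤ), |r1| < 2 * W → IsCoprime r1 (W : ℤ) → |r2| < 2 * W →
    IsCoprime r2 (W : ℤ) → (σ = 1 ∨ σ = -1) → |b| ≤ 4 * W * N → |b'| ≤ 4 * W * N → b + b' ≠ 0 →
    ∀ (F G : ℤ → ℝ),
    (∀ x, |F x| ≤ lamv W (b + W * x) * lamv W (b' - W * x) / SW w (b + b')) → (∀ y, |G y| ≤ 1) →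
    |∑ x ∈ Finset.Ico (0 : ℤ) N, ∑ y ∈ Finset.Ico (0 : ℤ) N, F x * G y * ker W r1 r2 σ x y| ≤
      ε * N ^ 2 := by
  obtain ⟨C, hC, hmaj⟩ := majo
  obtain ⟨s, hs, w0, h⟩ := rcnc (C ^ 2) (by nlinarith) (ε / 2) (by positivity)
  refine ⟨max w0 2, fun w W hw hW => ?_⟩
  have hw2 : 2 ≤ w := le_trans (le_max_right _ _) hw
  obtain ⟨N1, hN1⟩ := h w W (le_trans (le_max_left _ _) hw) hW
  obtain ⟨N2, hN2⟩ := hmaj s (by omega) w W hW
  obtain ⟨N3, hN3⟩ := removed_small W hW.1 (ε / 2) (by positivity)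
  refine ⟨max (max N1 N2) (max N3 2), fun N hN r1 r2 σ b b' h1 h2 h3 h4 h5 hb hb' hbb F G hF hG => ?_⟩
  have hNa : N1 ≤ N := le_trans (le_trans (le_max_left _ _) (le_max_left _ _)) hN
  have hNb : N2 ≤ N := le_trans (le_trans (le_max_right _ _) (le_max_left _ _)) hN
  have hNc : N3 ≤ N := le_trans (le_trans (le_max_left _ _) (le_max_right _ _)) hN
  have hNd : 2 ≤ N := le_trans (le_trans (le_max_right _ _) (le_max_right _ _)) hN
  have hWz : (1 : ℤ) ≤ W := by exact_mod_cast hW.1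
  have hNz : (2 : ℤ) ≤ N := by exact_mod_cast hNd
  have hsz : (1 : ℝ) ≤ (s : ℝ) := by exact_mod_cast (by omega : 1 ≤ s)
  have hP : ∀ p ∈ sprimes w (rt s N), p.Prime := (pset_sprimes w (rt s N)).prime
  have hSW := rcn_one_le_SW hw2 (b + b')
  have hSG := SGp_le_SW (z := rt s N) hW hw2 hbb
  have hv : ∀ x ∈ Finset.Ico (0 : ℤ) N, |b + W * x| ≤ 5 * W * N := by
    intro x hx
    rw [Finset.mem_Ico] at hx
    rw [abs_le] at hb ⊢
    constructor <;> nlinarith
  have hv' : ∀ x ∈ Finset.Ico (0 : ℤ) N, |b' - W * x| ≤ 5 * W * N := by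
    intro x hx
    rw [Finset.mem_Ico] at hx
    rw [abs_le] at hb' ⊢
    constructor <;> nlinarith
  classical
  set B := bad N b W (rt s N) ∪ bad N b' (-W) (rt s N) with hBdef
  have hl := LL_nonneg hW.1 (by omega : 0 < N)
  have hrem := removal hW.1 (by omega : 0 < N) h1 h3 h5 F G hG B (fun x hx _ => by
    have a1 := hF x
    have a2 := lamv_le hW.1 (by omega : 0 < N) (hv x hx)
    have a3 := lamv_le hW.1 (by omega : 0 < N) (hv' x hx)
    have a4 := lamv_nonneg W (b + W * x)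
    have a5 := lamv_nonneg W (b' - W * x)
    have a6 : lamv W (b + W * x) * lamv W (b' - W * x) / SW w (b + b') ≤
        lamv W (b + W * x) * lamv W (b' - W * x) := div_le_self (mul_nonneg a4 a5) hSW
    have a7 := mul_le_mul a2 a3 a5 hl
    nlinarith)
  have hmain := hN1 N hNa r1 r2 σ h1 h2 h3 h4 h5
    (fun x => if x ∈ Finset.Ico (0 : ℤ) N ∧ x ∉ B then F x else 0) G
    (fun x => rho (sprimes w (rt s N)) (1 * W * x + b) * rho (sprimes w (rt s N)) (-1 * W * x + b') /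
        SGp (sprimes w (rt s N)) (1 * W * b' - -1 * W * b))
    (Or.inr ⟨1, -1, b, b', by norm_num, by norm_num, by norm_num, by norm_num, rfl⟩)
    (fun x => by
      have e1 : (1 * W * b' - -1 * W * b : ℤ) = W * (b + b') := by ring
      have e2 : (1 * W * x + b : ℤ) = b + W * x := by ring
      have e3 : (-1 * W * x + b' : ℤ) = b' - W * x := by ring
      rw [e1, e2, e3]
      have hr := rho_nonneg hP (b + W * x)
      have hr' := rho_nonneg hP (b' - W * x)
      split_ifs with hx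
      · have hx1 : (rt s N : ℤ) < |b + W * x| := by
          by_contra hcon
          apply hx.2
          rw [hBdef, Finset.mem_union]
          left
          rw [bad, Finset.mem_filter]
          exact ⟨hx.1, not_lt.mp hcon⟩
        have hx2 : (rt s N : ℤ) < |b' - W * x| := by
          by_contra hcon
          apply hx.2
          rw [hBdef, Finset.mem_union]
          right
          rw [bad, Finset.mem_filter]
          refine ⟨hx.1, ?_⟩
          rw [not_lt] at hcon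
          rwa [neg_mul, ← sub_eq_add_neg]
        have a1 := hN2 N hNb _ (hv x hx.1) hx1
        have a2 := hN2 N hNb _ (hv' x hx.1) hx2
        have a4 := lamv_nonneg W (b + W * x)
        have a5 := lamv_nonneg W (b' - W * x)
        have a6 : lamv W (b + W * x) * lamv W (b' - W * x) ≤
            (C * s * rho (sprimes w (rt s N)) (b + W * x)) * (C * s * rho (sprimes w (rt s N)) (b' - W * x)) :=
          mul_le_mul a1 a2 a5 (by positivity)
        have a7 : lamv W (b + W * x) * lamv W (b' - W * x) / SW w (b + b') ≤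
            (C * s * rho (sprimes w (rt s N)) (b + W * x)) * (C * s * rho (sprimes w (rt s N)) (b' - W * x)) /
              SGp (sprimes w (rt s N)) (W * (b + b')) :=
          div_le_div₀ (by positivity) a6 hSG.1 hSG.2
        refine (hF x).trans (a7.trans (le_of_eq ?_))
        ring
      · rw [abs_zero]
        have := hSG.1
        positivity)
    hG
  have hcard : (B.card : ℝ) ≤ 4 * Real.sqrt N + 2 := by
    have c1 := card_bad (N := N) (b := b) (c := W) (by positivity) (rt s N)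
    have c1' := card_bad (N := N) (b := b') (c := -W) (by simpa using (by positivity : (W : ℤ) ≠ 0)) (rt s N)
    have c0 : B.card ≤ (2 * rt s N + 1) + (2 * rt s N + 1) :=
      (Finset.card_union_le _ _).trans (add_le_add c1 c1')
    have c2 : (B.card : ℝ) ≤ (2 * rt s N + 1) + (2 * rt s N + 1) := by exact_mod_cast c0
    have c3 := rt_sq_le hs N
    linarith
  have hfin := hN3 N hNc
  have hlast : (B.card : ℝ) * (N * (LL W N ^ 2 + 1) ^ 2) ≤
      (4 * Real.sqrt N + 2) * (N * (LL W N ^ 2 + 1) ^ 2) :=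
    mul_le_mul_of_nonneg_right hcard (by positivity)
  linarith

end Pool.Agent.Lib.H18GB
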