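import Pool.Agent.Lib.H18GB.Defs
import Pool.Agent.Lib.PNT.PNT

/-!
# Project GB: PNTL
-/

namespace Pool.Agent.Lib.H18GB

open Finset Pool.Agent.Lib.Sieve

/-- truncation of `uu W r` to `[0, M1)` -/
noncomputable def uc (W : ℕ) (r M1 n : ℤ) : ℂ := if 0 ≤ n ∧ n < M1 then (uu W r n : ℂ) else 0

theorem lamv_nonneg (W : ℕ) (v : ℤ) : 0 ≤ lamv W v := by
  unfold lamv
  split_ifs
  · exact mul_nonneg (by positivity) (Real.log_natCast_nonneg _)
  · exact le_rfl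

theorem lam_nonneg (W : ℕ) (r n : ℤ) : 0 ≤ lam W r n := lamv_nonneg _ _

open Pool.Agent.Lib.PNT in
private theorem theta_succ (W b k : ℕ) (hW : 0 < W) (hb : 0 < b) :
    thetaP (fun p => (p : ZMod W) = (b : ZMod W)) ((b + W * (k + 1) - 1 : ℕ) : ℝ) =
      thetaP (fun p => (p : ZMod W) = (b : ZMod W)) ((b + W * k - 1 : ℕ) : ℝ) +
        if (b + W * k).Prime then Real.log ((b + W * k : ℕ) : ℝ) else 0 := by
  unfold thetaP
  rw [Nat.floor_natCast, Nat.floor_natCast, Finset.sum_filter, Finset.sum_filter]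
  obtain ⟨N, hN⟩ : ∃ N, N + 1 = b + W * k := ⟨b + W * k - 1, by omega⟩
  have e1 : b + W * (k + 1) - 1 = N + W := by rw [mul_add, mul_one]; omega
  have e2 : b + W * k - 1 = N := by omega
  rw [e1, e2, ← Finset.sum_Ioc_consecutive _ (Nat.zero_le N) (Nat.le_add_right N W)]
  congr 1
  rw [Finset.sum_eq_single (N + 1)]
  · rw [hN]
    by_cases hp : (b + W * k).Prime
    · rw [if_pos hp, if_pos]
      refine ⟨hp, ?_⟩
      push_cast
      simp
    · rw [if_neg hp, if_neg]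
      exact fun h => hp h.1
  · intro p hp hne
    rw [if_neg]
    rintro ⟨-, h2⟩
    apply hne
    rw [Finset.mem_Ioc] at hp
    have h3 : ((p : ℕ) : ZMod W) = ((N + 1 : ℕ) : ZMod W) := by
      rw [h2, hN]; push_cast; simp
    rw [ZMod.natCast_eq_natCast_iff] at h3
    have h4 : (N + 1) ≡ p [MOD W] := h3.symm
    rw [Nat.modEq_iff_dvd' (by omega)] at h4
    obtain ⟨c, hc⟩ := h4
    have : c = 0 := by
      by_contra hc0
      have : W * 1 ≤ W * c := Nat.mul_le_mul_left _ (Nat.pos_of_ne_zero hc0)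
      omega
    rw [this] at hc
    omega
  · intro h
    exact absurd (Finset.mem_Ioc.mpr ⟨by omega, by omega⟩) h

open Pool.Agent.Lib.PNT in
private theorem lam_sum (W : ℕ) (hW : 0 < W) (r : ℤ) (b : ℕ) (hb : 0 < b)
    (hbr : (b : ℤ) = r + 2 * W) (k : ℕ) :
    ∑ n ∈ Finset.Ico (0 : ℤ) (k + 2 : ℕ), lam W r n = lam W r 0 + lam W r 1 +
      (Nat.totient W / W : ℝ) *
        (thetaP (fun p => (p : ZMod W) = (b : ZMod W)) ((b + W * k - 1 : ℕ) : ℝ) -
          thetaP (fun p => (p : ZMod W) = (b : ZMod W)) ((b + W * 0 - 1 : ℕ) : ℝ)) := by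
  induction k with
  | zero =>
    have : Finset.Ico (0 : ℤ) ((0 + 2 : ℕ) : ℤ) = {0, 1} := by
      ext x; simp only [Finset.mem_Ico, Finset.mem_insert, Finset.mem_singleton]
      push_cast; omega
    rw [this, Finset.sum_pair (by norm_num)]
    ring
  | succ k ih =>
    have e1 : Finset.Ico (0 : ℤ) ((k + 1 + 2 : ℕ) : ℤ) =
        insert ((k + 2 : ℕ) : ℤ) (Finset.Ico (0 : ℤ) ((k + 2 : ℕ) : ℤ)) := by
      ext x; simp only [Finset.mem_Ico, Finset.mem_insert]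
      push_cast; omega
    rw [e1, Finset.sum_insert (by simp), ih, theta_succ W b k hW hb]
    have e2 : r + W * ((k + 2 : ℕ) : ℤ) = ((b + W * k : ℕ) : ℤ) := by
      push_cast; rw [hbr]; ring
    have e3 : lam W r ((k + 2 : ℕ) : ℤ) = (Nat.totient W / W : ℝ) *
        (if (b + W * k).Prime then Real.log ((b + W * k : ℕ) : ℝ) else 0) := by
      unfold lam lamv
      rw [e2, Int.natAbs_natCast]
      split_ifs
      · rfl
      · ring
    rw [e3]
    ring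

open Pool.Agent.Lib.PNT Filter Topology in
private theorem lam_tendsto (W : ℕ) (hW : 0 < W) (r : ℤ) (hr : |r| < 2 * W)
    (hc : IsCoprime r (W : ℤ)) :
    Tendsto (fun m : ℕ => (∑ n ∈ Finset.Ico (0 : ℤ) (m : ℕ), lam W r n) / (m : ℝ)) atTop
      (𝓝 1) := by
  haveI : NeZero W := ⟨hW.ne'⟩
  have hr' := abs_lt.mp hr
  obtain ⟨b, hbr⟩ : ∃ b : ℕ, (b : ℤ) = r + 2 * W := ⟨(r + 2 * W).toNat, by
    rw [Int.toNat_of_nonneg (by linarith)]⟩
  have hb : 0 < b := by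
    have : (0 : ℤ) < b := by rw [hbr]; linarith
    exact_mod_cast this
  have hu : IsUnit (b : ZMod W) := by
    rw [ZMod.isUnit_iff_coprime]
    have h1 : IsCoprime (b : ℤ) (W : ℤ) := by
      rw [hbr]
      exact IsCoprime.add_mul_right_left hc 2
    exact Nat.isCoprime_iff_coprime.mp h1
  have h1 := thetaAP_tendsto hu
  have hx : Tendsto (fun k : ℕ => ((b + W * k - 1 : ℕ) : ℝ)) atTop atTop := by
    apply tendsto_natCast_atTop_atTop.comp
    apply tendsto_atTop_mono (f := fun k : ℕ => k) _ tendsto_id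
    intro k
    have : 1 * k ≤ W * k := Nat.mul_le_mul_right _ hW
    show k ≤ b + W * k - 1
    omega
  have h2 := h1.comp hx
  have hx2 : Tendsto (fun k : ℕ => ((b + W * k - 1 : ℕ) : ℝ) / ((k + 2 : ℕ) : ℝ)) atTop
      (𝓝 (W : ℝ)) := by
    have h3 : Tendsto (fun k : ℕ => (W : ℝ) + ((b : ℝ) - 1 - 2 * W) * (1 / ((k + 2 : ℕ) : ℝ)))
        atTop (𝓝 ((W : ℝ) + ((b : ℝ) - 1 - 2 * W) * 0)) := by
      apply Tendsto.add tendsto_const_nhds
      apply Tendsto.mul tendsto_const_nhds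
      exact (tendsto_add_atTop_iff_nat (f := fun k : ℕ => 1 / (k : ℝ)) 2).mpr
        tendsto_one_div_atTop_nhds_zero_nat
    rw [mul_zero, add_zero] at h3
    refine h3.congr fun k => ?_
    have : ((b + W * k - 1 : ℕ) : ℝ) = b + W * k - 1 := by
      rw [Nat.cast_sub (by omega)]; push_cast; ring
    rw [this]
    have hk : ((k + 2 : ℕ) : ℝ) ≠ 0 := by positivity
    field_simp
    push_cast
    ring
  have h4 : Tendsto (fun k : ℕ =>
      thetaP (fun p => (p : ZMod W) = (b : ZMod W)) ((b + W * k - 1 : ℕ) : ℝ) /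
        ((k + 2 : ℕ) : ℝ)) atTop (𝓝 ((W.totient : ℝ)⁻¹ * W)) := by
    refine (h2.mul hx2).congr' ?_
    filter_upwards [eventually_ge_atTop 1] with k hk
    have h5 : ((b + W * k - 1 : ℕ) : ℝ) ≠ 0 := by
      have : 1 * 1 ≤ W * k := Nat.mul_le_mul hW hk
      have : b + W * k - 1 ≠ 0 := by omega
      exact_mod_cast this
    simp only [Function.comp]
    rw [div_mul_div_cancel₀ h5]
  rw [← tendsto_add_atTop_iff_nat 2]
  set c0 : ℝ := lam W r 0 + lam W r 1 - (Nat.totient W / W : ℝ) *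
    thetaP (fun p => (p : ZMod W) = (b : ZMod W)) ((b + W * 0 - 1 : ℕ) : ℝ) with hc0
  have h6 : Tendsto (fun k : ℕ => c0 * (1 / ((k + 2 : ℕ) : ℝ)) + (Nat.totient W / W : ℝ) *
      (thetaP (fun p => (p : ZMod W) = (b : ZMod W)) ((b + W * k - 1 : ℕ) : ℝ) /
        ((k + 2 : ℕ) : ℝ))) atTop
      (𝓝 (c0 * 0 + (Nat.totient W / W : ℝ) * ((W.totient : ℝ)⁻¹ * W))) := by
    apply Tendsto.add
    · apply Tendsto.mul tendsto_const_nhds
      exact (tendsto_add_atTop_iff_nat (f := fun k : ℕ => 1 / (k : ℝ)) 2).mpr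
        tendsto_one_div_atTop_nhds_zero_nat
    · exact Tendsto.mul tendsto_const_nhds h4
  have h7 : c0 * 0 + (Nat.totient W / W : ℝ) * ((W.totient : ℝ)⁻¹ * W) = 1 := by
    have h8 : (W.totient : ℝ) ≠ 0 := by
      have := Nat.totient_pos.mpr hW
      positivity
    have h9 : (W : ℝ) ≠ 0 := by positivity
    field_simp
    ring
  rw [h7] at h6
  refine h6.congr fun k => ?_
  rw [lam_sum W hW r b hb hbr k, hc0]
  ring

private theorem uu_sum (W : ℕ) (r : ℤ) (m : ℕ) :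
    ∑ n ∈ Finset.Ico (0 : ℤ) (m : ℕ), uu W r n =
      (∑ n ∈ Finset.Ico (0 : ℤ) (m : ℕ), lam W r n) - m := by
  unfold uu
  rw [Finset.sum_sub_distrib]
  simp

open Filter Topology in
private theorem pntlam_aux (W : ℕ) (hW : 0 < W) (δ : ℝ) (hδ : 0 < δ) (r : ℤ) (hr : |r| < 2 * W)
    (hc : IsCoprime r (W : ℤ)) : ∀ᶠ M : ℕ in atTop, ∀ m : ℕ, m ≤ M →
    |∑ n ∈ Finset.Ico (0 : ℤ) (m : ℕ), uu W r n| ≤ δ * M := by
  have h1 := lam_tendsto W hW r hr hc
  have h2 : ∀ᶠ m : ℕ in atTop, |∑ n ∈ Finset.Ico (0 : ℤ) (m : ℕ), uu W r n| ≤ δ * m := by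
    rw [Metric.tendsto_atTop] at h1
    obtain ⟨N, hN⟩ := h1 δ hδ
    filter_upwards [eventually_ge_atTop N, eventually_gt_atTop 0] with m hm hm0
    have h3 := hN m hm
    rw [Real.dist_eq] at h3
    have hm' : (0 : ℝ) < m := by exact_mod_cast hm0
    rw [uu_sum]
    have h4 : (∑ n ∈ Finset.Ico (0 : ℤ) (m : ℕ), lam W r n) - m =
        ((∑ n ∈ Finset.Ico (0 : ℤ) (m : ℕ), lam W r n) / m - 1) * m := by
      field_simp
    rw [h4, abs_mul, abs_of_pos hm']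
    exact mul_le_mul_of_nonneg_right h3.le hm'.le
  rw [eventually_atTop] at h2
  obtain ⟨N, hN⟩ := h2
  obtain ⟨C, hC⟩ : ∃ C : ℝ, ∀ m ∈ Finset.range N,
      |∑ n ∈ Finset.Ico (0 : ℤ) (m : ℕ), uu W r n| ≤ C := by
    refine ⟨∑ m ∈ Finset.range N, |∑ n ∈ Finset.Ico (0 : ℤ) (m : ℕ), uu W r n|, ?_⟩
    intro m hm
    exact Finset.single_le_sum (f := fun m : ℕ => |∑ n ∈ Finset.Ico (0 : ℤ) (m : ℕ), uu W r n|)
      (fun _ _ => abs_nonneg _) hm
  have h5 : Tendsto (fun M : ℕ => δ * (M : ℝ)) atTop atTop :=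
    Tendsto.const_mul_atTop hδ tendsto_natCast_atTop_atTop
  filter_upwards [h5.eventually_ge_atTop C] with M hM m hm
  by_cases hmN : m < N
  · exact (hC m (Finset.mem_range.mpr hmN)).trans hM
  · refine (hN m (by omega)).trans ?_
    have : (m : ℝ) ≤ M := by exact_mod_cast hm
    exact mul_le_mul_of_nonneg_left this hδ.le

/-- Chunk PNTL: the prime number theorem in progressions (`Pool.Agent.Lib.PNT.thetaAP_tendsto`).
Finitely many `r`; `∑_{n < M'} lam W r n = φ(W)/W * θ(r + W M'; W, r) + O(log W)`; for `M' ≤ δ' M`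
use monotonicity. -/
theorem pntlam (W : ℕ) (hW : 0 < W) (δ : ℝ) (hδ : 0 < δ) : ∃ M0 : ℕ, ∀ M : ℕ, M0 ≤ M →
    ∀ r : ℤ, |r| < 2 * W → IsCoprime r (W : ℤ) → ∀ M' : ℤ, 0 ≤ M' → M' ≤ M →
    |∑ n ∈ Finset.Ico (0 : ℤ) M', uu W r n| ≤ δ * M := by
  have h : ∀ᶠ M : ℕ in Filter.atTop, ∀ r ∈ Finset.Ioo (-(2 * W : ℤ)) (2 * W),
      IsCoprime r (W : ℤ) → ∀ m : ℕ, m ≤ M →
      |∑ n ∈ Finset.Ico (0 : ℤ) (m : ℕ), uu W r n| ≤ δ * M := by
    rw [Filter.eventually_all_finset]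
    intro r hr
    by_cases hc : IsCoprime r (W : ℤ)
    · have hr' : |r| < 2 * W := by
        rw [Finset.mem_Ioo] at hr
        exact abs_lt.mpr hr
      filter_upwards [pntlam_aux W hW δ hδ r hr' hc] with M hM _ m hm
      exact hM m hm
    · exact Filter.Eventually.of_forall fun M h => absurd h hc
  rw [Filter.eventually_atTop] at h
  obtain ⟨M0, hM0⟩ := h
  refine ⟨M0, fun M hM r hr hc M' h0 h1 => ?_⟩
  obtain ⟨m, rfl⟩ := Int.eq_ofNat_of_zero_le h0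
  exact hM0 M hM r (Finset.mem_Ioo.mpr (abs_lt.mp hr)) hc m (by exact_mod_cast h1)

/-- Chunk PNTL: consequence of `pntlam`. -/
theorem l1lam (W : ℕ) (hW : 0 < W) : ∃ M0 : ℕ, ∀ M : ℕ, M0 ≤ M →
    ∀ r : ℤ, |r| < 2 * W → IsCoprime r (W : ℤ) →
    ∑ n ∈ Finset.Ico (0 : ℤ) M, |uu W r n| ≤ 3 * M := by
  obtain ⟨M0, h0⟩ := pntlam W hW 1 one_pos
  refine ⟨M0, fun M hM r hr hc => ?_⟩
  have h1 := (le_abs_self _).trans (h0 M hM r hr hc M (by positivity) le_rfl)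
  have h2 : ∑ n ∈ Finset.Ico (0 : ℤ) M, |uu W r n| ≤
      ∑ n ∈ Finset.Ico (0 : ℤ) M, (uu W r n + 2) := by
    apply Finset.sum_le_sum
    intro n _
    have := lam_nonneg W r n
    unfold uu
    rw [abs_le]
    constructor <;> linarith
  rw [Finset.sum_add_distrib] at h2
  have h3 : ∑ n ∈ Finset.Ico (0 : ℤ) M, (2 : ℝ) = 2 * M := by simp [mul_comm]
  linarith

end Pool.Agent.Lib.H18GB
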