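import Pool.Agent.Lib.H18GB.GR1
import Pool.Agent.Lib.GoldbachGraph.Proportion

/-!
# Project GB: GR2

Vertices are halved: `X` stands for the vertex `2 X`; `hadj X Y`: `X + Y`, `|X - Y|` odd primes.
-/

namespace Pool.Agent.Lib.H18GB

open Finset Pool.Agent.Lib.Sieve Pool.Agent.Lib.GoldbachGraph

/-- `∏_{p ∣ x, p > 2} (p - 1) / (p - 2)` -/
noncomputable def SH (x : ℕ) : ℝ :=
  ∏ p ∈ x.primeFactors.filter (fun p => 2 < p), (((p : ℝ) - 1) / (p - 2))

/-- normalised weight of the neighbours of `X` in the class `y0` mod `W` -/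
noncomputable def Dw (w W N X y0 : ℕ) : ℝ :=
  ∑ y ∈ Finset.range N, lamv W (X + y0 + W * y) * lamv W (X - y0 - W * y) / SW w (2 * X)

/-! ### Residue classes modulo a squarefree number -/

theorem gr2_card_crt (S : Finset ℕ) (hS : ∀ p ∈ S, p.Prime) (Bad : ℕ → Finset ℕ)
    (hB : ∀ p, Bad p ⊆ range p) :
    ((range (∏ p ∈ S, p)).filter (fun y => ∀ p ∈ S, y % p ∉ Bad p)).card ≤ ∏ p ∈ S, (p - (Bad p).card) := by
  classical
  induction S using Finset.induction_on with
  | empty => simp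
  | @insert q S hq ih =>
    have ih' := ih (fun p hp => hS p (mem_insert_of_mem hp))
    have hqp : q.Prime := hS q (mem_insert_self _ _)
    have hcop : Nat.Coprime q (∏ p ∈ S, p) := by
      apply Nat.Coprime.prod_right
      intro p hp
      exact (Nat.coprime_primes hqp (hS p (mem_insert_of_mem hp))).2 (fun h => hq (h ▸ hp))
    rw [prod_insert hq, prod_insert hq]
    have h1 : ((range (q * ∏ p ∈ S, p)).filter (fun y => ∀ p ∈ insert q S, y % p ∉ Bad p)).card ≤
        (((range q) \ Bad q) ×ˢ ((range (∏ p ∈ S, p)).filter (fun y => ∀ p ∈ S, y % p ∉ Bad p))).card := by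
      apply card_le_card_of_injOn (fun y => (y % q, y % (∏ p ∈ S, p)))
      · intro y hy
        rw [mem_coe, mem_filter, mem_range] at hy
        rw [mem_coe, mem_product, mem_sdiff, mem_filter, mem_range, mem_range]
        have hpos : 0 < ∏ p ∈ S, p := prod_pos (fun p hp => (hS p (mem_insert_of_mem hp)).pos)
        refine ⟨⟨Nat.mod_lt _ hqp.pos, hy.2 q (mem_insert_self _ _)⟩, Nat.mod_lt _ hpos, ?_⟩
        intro p hp
        rw [Nat.mod_mod_of_dvd _ (dvd_prod_of_mem _ hp)]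
        exact hy.2 p (mem_insert_of_mem hp)
      · intro y hy y' hy' h
        rw [mem_coe, mem_filter, mem_range] at hy hy'
        simp only [Prod.mk.injEq] at h
        have h2 : y ≡ y' [MOD q * ∏ p ∈ S, p] := (Nat.modEq_and_modEq_iff_modEq_mul hcop).1 ⟨h.1, h.2⟩
        exact Nat.ModEq.eq_of_lt_of_lt h2 hy.1 hy'.1
    refine le_trans h1 ?_
    rw [card_product, card_sdiff_of_subset (hB q), card_range]
    exact Nat.mul_le_mul_left _ ih'

/-- the residues `y` with `y = ± X` mod `p` -/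
def gr2Bad (X p : ℕ) : Finset ℕ := (range p).filter (fun y => p ∣ X + y ∨ (p : ℤ) ∣ (X : ℤ) - y)

theorem gr2_bad_one (X p : ℕ) (hp : p.Prime) : 1 ≤ (gr2Bad X p).card := by
  rw [Nat.one_le_iff_ne_zero, ← Nat.pos_iff_ne_zero, card_pos]
  refine ⟨X % p, ?_⟩
  unfold gr2Bad
  rw [mem_filter, mem_range]
  refine ⟨Nat.mod_lt _ hp.pos, Or.inr ?_⟩
  rw [Int.natCast_mod]
  exact Int.dvd_self_sub_emod

theorem gr2_bad_two (X p : ℕ) (hp : p.Prime) (h : ¬ p ∣ 2 * X) : 2 ≤ (gr2Bad X p).card := by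
  have hne : X % p ≠ (p - X % p) := by
    intro he
    apply h
    have h1 : X % p < p := Nat.mod_lt _ hp.pos
    have h2 : 2 * (X % p) = p := by omega
    have h3 : X = p * (X / p) + X % p := (Nat.div_add_mod X p).symm
    rw [h3, mul_add, h2]
    exact dvd_add ⟨2 * (X / p), by ring⟩ dvd_rfl
  have hX : X % p ≠ 0 := by
    intro h0
    exact h (dvd_mul_of_dvd_right (Nat.dvd_of_mod_eq_zero h0) 2)
  have hsub : ({X % p, p - X % p} : Finset ℕ) ⊆ gr2Bad X p := by
    intro y hy
    rw [mem_insert, mem_singleton] at hy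
    unfold gr2Bad
    rw [mem_filter, mem_range]
    have h1 : X % p < p := Nat.mod_lt _ hp.pos
    rcases hy with rfl | rfl
    · refine ⟨h1, Or.inr ?_⟩
      rw [Int.natCast_mod]
      exact Int.dvd_self_sub_emod
    · refine ⟨by omega, Or.inl ?_⟩
      refine ⟨X / p + 1, ?_⟩
      have h3 : p * (X / p) + X % p = X := Nat.div_add_mod X p
      rw [mul_add, mul_one]
      omega
  calc 2 = ({X % p, p - X % p} : Finset ℕ).card := (card_pair hne).symm
    _ ≤ _ := card_le_card hsub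

open Classical in
/-- the number of admissible classes -/
theorem gr2_card_comp (w X : ℕ) :
    ((range (primorial w)).filter (fun y : ℕ => Comp (primorial w) X y)).card ≤
      ∏ p ∈ (range (w + 1)).filter Nat.Prime, (p - (if p ∣ 2 * X then 1 else 2)) := by
  classical
  have hpr : ∀ p ∈ (range (w + 1)).filter Nat.Prime, p.Prime := fun p hp => (mem_filter.1 hp).2
  have h1 := gr2_card_crt ((range (w + 1)).filter Nat.Prime) hpr (gr2Bad X) (fun p => filter_subset _ _)
  refine le_trans ?_ (le_trans h1 ?_)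
  · apply card_le_card
    intro y hy
    rw [mem_filter] at hy ⊢
    refine ⟨hy.1, fun p hp hb => ?_⟩
    unfold gr2Bad at hb
    rw [mem_filter] at hb
    have hpW : (p : ℤ) ∣ (primorial w : ℤ) := by
      apply Int.natCast_dvd_natCast.2
      exact dvd_prod_of_mem _ hp
    have hp1 : ¬ IsUnit (p : ℤ) := by
      rw [Int.isUnit_iff_natAbs_eq, Int.natAbs_natCast]
      exact (hpr p hp).one_lt.ne'
    have hmod : (p : ℤ) ∣ (y : ℤ) - ((y % p : ℕ) : ℤ) := by
      rw [Int.natCast_mod]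
      exact Int.dvd_self_sub_emod
    rcases hb.2 with h2 | h2
    · have h3 : (p : ℤ) ∣ (X : ℤ) + y := by
        have h4 : (p : ℤ) ∣ ((X + y % p : ℕ) : ℤ) := Int.natCast_dvd_natCast.2 h2
        have h5 : (X : ℤ) + y = ((X + y % p : ℕ) : ℤ) + ((y : ℤ) - ((y % p : ℕ) : ℤ)) := by push_cast; ring
        rw [h5]
        exact dvd_add h4 hmod
      exact hp1 (hy.2.1.isUnit_of_dvd' h3 hpW)
    · have h3 : (p : ℤ) ∣ (X : ℤ) - y := by
        have h5 : (X : ℤ) - y = ((X : ℤ) - ((y % p : ℕ) : ℤ)) - ((y : ℤ) - ((y % p : ℕ) : ℤ)) := by ring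
        rw [h5]
        exact dvd_sub h2 hmod
      exact hp1 (hy.2.2.isUnit_of_dvd' h3 hpW)
  · apply prod_le_prod'
    intro p hp
    apply Nat.sub_le_sub_left
    split_ifs with h
    · exact gr2_bad_one X p (hpr p hp)
    · exact gr2_bad_two X p (hpr p hp) h

/-! ### Products -/

theorem gr2_phi (w : ℕ) : ((Nat.totient (primorial w) : ℕ) : ℝ) =
    (primorial w : ℝ) * ∏ p ∈ (range (w + 1)).filter Nat.Prime, (1 - 1 / (p : ℝ)) := by
  have h := Nat.totient_eq_mul_prod_factors (primorial w)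
  have h2 : (primorial w).primeFactors = (range (w + 1)).filter Nat.Prime := by
    rw [primeFactors_primorial]; rfl
  rw [h2] at h
  have h3 : ((Nat.totient (primorial w) : ℚ) : ℝ) =
    (((primorial w : ℚ) * ∏ p ∈ (range (w + 1)).filter Nat.Prime, (1 - (p : ℚ)⁻¹) : ℚ) : ℝ) := by rw [h]
  push_cast at h3
  rw [h3]
  simp only [one_div]

theorem gr2_factor {p : ℝ} (hp : 3 ≤ p) : 1 ≤ (p - 1) / (p - 2) ∧ p / (p - 1) ≤ (p - 1) / (p - 2) := by
  constructor
  · rw [le_div_iff₀ (by linarith)]; linarith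
  · rw [div_le_div_iff₀ (by linarith) (by linarith)]
    nlinarith

theorem SH_ge_one (X : ℕ) : 1 ≤ SH X := by
  unfold SH
  have : ∏ p ∈ X.primeFactors.filter (fun p => 2 < p), (1 : ℝ) ≤
      ∏ p ∈ X.primeFactors.filter (fun p => 2 < p), (((p : ℝ) - 1) / (p - 2)) := by
    apply prod_le_prod
    · intro _ _; norm_num
    · intro p hp
      have h3 : 2 < p := (mem_filter.1 hp).2
      exact (gr2_factor (by exact_mod_cast h3)).1
  simpa using this

theorem SW_pos (w : ℕ) (d : ℤ) : 0 < SW w d := by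
  unfold SW
  apply prod_pos
  intro p hp
  have h1 : 1 < p := (Nat.prime_of_mem_primeFactors (mem_filter.1 hp).1).one_lt
  have h2 : (1 : ℝ) < p := by exact_mod_cast h1
  rw [inv_pos, sub_pos, div_lt_one (by linarith)]
  exact h2

open Classical in
/-- the singular factors compared -/
theorem gr2_singular (w : ℕ) (hw : 3 ≤ w) (X : ℕ) (hX : 1 ≤ X) :
    (((range (primorial w)).filter (fun y : ℕ => Comp (primorial w) X y)).card : ℝ) * SW w (2 * X) ≤
      2 * SH X * ((Nat.totient (primorial w) : ℝ) ^ 2 / primorial w) := by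
  classical
  set A := (range (w + 1)).filter Nat.Prime with hA
  have hpr : ∀ p ∈ A, p.Prime := fun p hp => (mem_filter.1 hp).2
  have hX0 : X ≠ 0 := by omega
  -- split `SH`
  have hSH : SH X = (∏ p ∈ A, (if p ∣ X ∧ 2 < p then (((p : ℝ) - 1) / (p - 2)) else 1)) *
      ∏ p ∈ X.primeFactors.filter (fun p => w < p), (((p : ℝ) - 1) / (p - 2)) := by
    unfold SH
    have h1 : X.primeFactors.filter (fun p => 2 < p) =
        (A.filter (fun p => p ∣ X ∧ 2 < p)) ∪ X.primeFactors.filter (fun p => w < p) := by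
      ext p
      simp only [hA, mem_union, mem_filter, mem_range, Nat.mem_primeFactors]
      constructor
      · rintro ⟨⟨h1, h2, h3⟩, h4⟩
        by_cases h5 : w < p
        · exact Or.inr ⟨⟨h1, h2, h3⟩, h5⟩
        · exact Or.inl ⟨⟨by omega, h1⟩, h2, h4⟩
      · rintro (⟨⟨h1, h2⟩, h3, h4⟩ | ⟨⟨h1, h2, h3⟩, h4⟩)
        · exact ⟨⟨h2, h3, hX0⟩, h4⟩
        · exact ⟨⟨h1, h2, h3⟩, by omega⟩
    have h2 : Disjoint (A.filter (fun p => p ∣ X ∧ 2 < p)) (X.primeFactors.filter (fun p => w < p)) := by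
      rw [disjoint_left]
      intro p hp hp'
      simp only [hA, mem_filter, mem_range] at hp hp'
      omega
    rw [h1, prod_union h2, prod_filter]
  have hSW : SW w (2 * X) ≤ ∏ p ∈ X.primeFactors.filter (fun p => w < p), (((p : ℝ) - 1) / (p - 2)) := by
    unfold SW
    have h1 : ((2 * X : ℤ)).natAbs.primeFactors.filter (fun p => w < p) = X.primeFactors.filter (fun p => w < p) := by
      have : ((2 * X : ℤ)).natAbs = 2 * X := by
        have : (2 * X : ℤ) = ((2 * X : ℕ) : ℤ) := by push_cast; ring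
        rw [this, Int.natAbs_natCast]
      rw [this]
      ext p
      simp only [mem_filter, Nat.mem_primeFactors]
      constructor
      · rintro ⟨⟨h1, h2, h3⟩, h4⟩
        refine ⟨⟨h1, ?_, hX0⟩, h4⟩
        rcases (h1.dvd_mul).1 h2 with h5 | h5
        · have := Nat.le_of_dvd (by norm_num) h5
          omega
        · exact h5
      · rintro ⟨⟨h1, h2, h3⟩, h4⟩
        exact ⟨⟨h1, dvd_mul_of_dvd_right h2 2, by omega⟩, h4⟩
    rw [h1]
    apply prod_le_prod
    · intro p hp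
      have h3 : w < p := (mem_filter.1 hp).2
      have h4 : (3 : ℝ) < p := by exact_mod_cast (by omega : 3 < p)
      rw [inv_nonneg, sub_nonneg, div_le_one (by linarith)]
      linarith
    · intro p hp
      have h3 : w < p := (mem_filter.1 hp).2
      have h4 : (3 : ℝ) < p := by exact_mod_cast (by omega : 3 < p)
      have h5 : (1 - 1 / (p : ℝ))⁻¹ = p / (p - 1) := by
        have : (p : ℝ) ≠ 0 := by positivity
        have : (p : ℝ) - 1 ≠ 0 := by linarith
        field_simp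
      rw [h5]
      exact (gr2_factor h4.le).2
  have hphi : (Nat.totient (primorial w) : ℝ) ^ 2 / primorial w = ∏ p ∈ A, (((p : ℝ) - 1) ^ 2 / p) := by
    rw [gr2_phi, ← hA]
    have hW : (primorial w : ℝ) = ∏ p ∈ A, (p : ℝ) := by
      unfold primorial
      rw [← hA]
      push_cast
      rfl
    have hWpos : (0 : ℝ) < ∏ p ∈ A, (p : ℝ) := prod_pos (fun p hp => by exact_mod_cast (hpr p hp).pos)
    rw [hW, mul_pow]
    have e1 : (∏ p ∈ A, (p : ℝ)) ^ 2 * (∏ p ∈ A, (1 - 1 / (p : ℝ))) ^ 2 / ∏ p ∈ A, (p : ℝ) =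
        (∏ p ∈ A, (p : ℝ)) * (∏ p ∈ A, (1 - 1 / (p : ℝ))) ^ 2 := by
      field_simp
    rw [e1, ← prod_pow, ← prod_mul_distrib]
    apply prod_congr rfl
    intro p hp
    have : (p : ℝ) ≠ 0 := by exact_mod_cast (hpr p hp).ne_zero
    field_simp
  have h2A : 2 ∈ A := by
    rw [hA, mem_filter, mem_range]
    exact ⟨by omega, Nat.prime_two⟩
  -- the small primes
  have hsmall : (((range (primorial w)).filter (fun y : ℕ => Comp (primorial w) X y)).card : ℝ) ≤
      2 * (∏ p ∈ A, (((p : ℝ) - 1) ^ 2 / p)) *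
        ∏ p ∈ A, (if p ∣ X ∧ 2 < p then (((p : ℝ) - 1) / (p - 2)) else 1) := by
    have h1 : (((range (primorial w)).filter (fun y : ℕ => Comp (primorial w) X y)).card : ℝ) ≤
        ∏ p ∈ A, ((p : ℝ) - (if p ∣ 2 * X then 1 else 2)) := by
      have h2 := gr2_card_comp w X
      rw [← hA] at h2
      calc (((range (primorial w)).filter (fun y : ℕ => Comp (primorial w) X y)).card : ℝ)
          ≤ ((∏ p ∈ A, (p - (if p ∣ 2 * X then 1 else 2)) : ℕ) : ℝ) := by exact_mod_cast h2
        _ = ∏ p ∈ A, ((p : ℝ) - (if p ∣ 2 * X then 1 else 2)) := by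
            rw [Nat.cast_prod]
            apply prod_congr rfl
            intro p hp
            have hp2 := (hpr p hp).two_le
            rw [Nat.cast_sub (by split_ifs <;> omega)]
            split_ifs <;> push_cast <;> ring
    refine le_trans h1 ?_
    have h3 : (2 : ℝ) = ∏ p ∈ A, (if p = 2 then (2 : ℝ) else 1) := by
      rw [prod_ite_eq_of_mem' A 2 (fun _ => (2 : ℝ)) h2A]
    rw [h3, ← prod_mul_distrib, ← prod_mul_distrib]
    apply prod_le_prod
    · intro p hp
      have hp2 : (2 : ℝ) ≤ p := by exact_mod_cast (hpr p hp).two_le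
      split_ifs <;> linarith
    · intro p hp
      by_cases h2 : p = 2
      · subst h2
        rw [if_pos (dvd_mul_right 2 X), if_pos rfl, if_neg (by omega)]
        norm_num
      · have hp3 : 3 ≤ p := by
          have := (hpr p hp).two_le
          omega
        have hp3' : (3 : ℝ) ≤ p := by exact_mod_cast hp3
        rw [if_neg h2, one_mul]
        by_cases h4 : p ∣ X
        · rw [if_pos (dvd_mul_of_dvd_right h4 2), if_pos ⟨h4, by omega⟩]
          rw [div_mul_div_comm, le_div_iff₀ (by nlinarith)]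
          nlinarith [mul_nonneg (show (0 : ℝ) ≤ p - 1 by linarith) (show (0 : ℝ) ≤ p - 2 by linarith)]
        · have h5 : ¬ p ∣ 2 * X := by
            intro h6
            rcases ((hpr p hp).dvd_mul).1 h6 with h7 | h7
            · have := Nat.le_of_dvd (by norm_num) h7
              omega
            · exact h4 h7
          rw [if_neg h5, if_neg (fun h => h4 h.1), mul_one, le_div_iff₀ (by linarith)]
          nlinarith
  have hSW0 := (SW_pos w (2 * X)).le
  rw [hphi, hSH]
  have hb0 : 0 ≤ 2 * (∏ p ∈ A, (((p : ℝ) - 1) ^ 2 / p)) *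
        ∏ p ∈ A, (if p ∣ X ∧ 2 < p then (((p : ℝ) - 1) / (p - 2)) else 1) := le_trans (by positivity) hsmall
  calc (((range (primorial w)).filter (fun y : ℕ => Comp (primorial w) X y)).card : ℝ) * SW w (2 * X)
      ≤ (2 * (∏ p ∈ A, (((p : ℝ) - 1) ^ 2 / p)) *
        ∏ p ∈ A, (if p ∣ X ∧ 2 < p then (((p : ℝ) - 1) / (p - 2)) else 1)) *
        ∏ p ∈ X.primeFactors.filter (fun p => w < p), (((p : ℝ) - 1) / (p - 2)) :=
        mul_le_mul hsmall hSW hSW0 hb0
    _ = _ := by ring

theorem gr2_lamv_nonneg (W : ℕ) (v : ℤ) : 0 ≤ lamv W v := by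
  unfold lamv
  split_ifs with h
  · have : 0 ≤ Real.log (v.natAbs : ℝ) := Real.log_natCast_nonneg _
    positivity
  · exact le_rfl

/-- asymptotics -/
theorem gr2_asym (W : ℕ) (ε : ℝ) (hε : 0 < ε) : ∃ n0 : ℕ, ∀ n : ℕ, n0 ≤ n →
    ((W : ℝ) + 2 * Real.sqrt n + 1) ≤ ε / 5 * (n / Real.log n ^ 2) ∧ W ≤ Nat.sqrt n ∧ 3 ≤ n := by
  obtain ⟨n1, hn1⟩ := exists_nat_gt ((320 * ((W : ℝ) + 3) / ε) ^ 4)
  refine ⟨n1 + W ^ 2 + 3, fun n hn => ⟨?_, ?_, by omega⟩⟩
  · have hn3 : (3 : ℝ) ≤ n := by exact_mod_cast (by omega : 3 ≤ n)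
    have hn0 : (0 : ℝ) < n := by linarith
    have hlog : 0 < Real.log n := Real.log_pos (by linarith)
    set x : ℝ := (n : ℝ) ^ (1 / 8 : ℝ) with hx
    have hx0 : 0 < x := Real.rpow_pos_of_pos hn0 _
    have hx8 : x ^ 8 = n := by
      rw [hx, ← Real.rpow_natCast, ← Real.rpow_mul hn0.le]; norm_num
    have hl : Real.log n ≤ 8 * x := by
      have := Real.log_le_rpow_div hn0.le (show (0 : ℝ) < 1 / 8 by norm_num)
      rw [← hx] at this
      linarith
    have hsq : Real.sqrt n = x ^ 4 := by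
      rw [← hx8, show x ^ 8 = (x ^ 4) ^ 2 by ring, Real.sqrt_sq (by positivity)]
    have hx1 : 1 ≤ x := by
      by_contra hcon
      push Not at hcon
      have : x ^ 8 < 1 := pow_lt_one₀ hx0.le hcon (by norm_num)
      linarith
    have hbig : 320 * ((W : ℝ) + 3) / ε ≤ x ^ 2 := by
      have h1 : (320 * ((W : ℝ) + 3) / ε) ^ 4 ≤ (x ^ 2) ^ 4 := by
        have h2 : (x ^ 2) ^ 4 = n := by rw [← hx8]; ring
        rw [h2]
        have h3 : (n1 : ℝ) ≤ n := by exact_mod_cast (by nlinarith : n1 ≤ n)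
        linarith
      exact le_of_pow_le_pow_left₀ (by norm_num) (by positivity) h1
    rw [div_le_iff₀ hε] at hbig
    rw [hsq]
    have h5 : ε / 5 * (n / (8 * x) ^ 2) ≤ ε / 5 * (n / Real.log n ^ 2) := by
      gcongr
    refine le_trans ?_ h5
    have h6 : (n : ℝ) / (8 * x) ^ 2 = x ^ 6 / 64 := by
      rw [← hx8]; field_simp; norm_num
    rw [h6]
    have h7 : (1 : ℝ) ≤ x ^ 4 := one_le_pow₀ hx1
    have hW0 : (0 : ℝ) ≤ W := Nat.cast_nonneg W
    have h8 : (W : ℝ) + 2 * x ^ 4 + 1 ≤ ((W : ℝ) + 3) * x ^ 4 := by nlinarith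
    have h9 : ((W : ℝ) + 3) * x ^ 4 ≤ (x ^ 2 * ε / 320) * x ^ 4 := by
      apply mul_le_mul_of_nonneg_right _ (by positivity)
      linarith
    calc (W : ℝ) + 2 * x ^ 4 + 1 ≤ (x ^ 2 * ε / 320) * x ^ 4 := le_trans h8 h9
      _ = ε / 5 * (x ^ 6 / 64) := by ring
  · rw [Nat.le_sqrt]
    nlinarith

/-- Chunk GR2 (from large degree to a class with many neighbours). `W = ∏_{p ≤ w} p`,
`N = n / W`. The `Y ∈ [1,n]` adjacent to `X` with `Y < W N`, `|X - Y| ≥ √n` (all but `W + 2√n` of the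
neighbours) lie in classes `y0` with `Comp W X y0`, and
`lamv lamv ≥ (φ(W)/W)^2 (log n)^2 / 4`. The number of classes `y0` is `∏_{p ≤ w} (p - ν_p)`,
`ν_p = 1` if `p ∣ 2 X`, `2` otherwise. So for some `y0`,
`Dw ≥ (ε/5) N [SH X / SW w (2X)] ∏_{p ≤ w} (1 - 1/p)^2 / (1 - ν_p/p) ≥ (ε/10) N`
(for `p ∣ X` odd, `p ≤ w`: `(p-1)/(p-2) (1 - 1/p) ≥ 1`; for `p ∣ X`, `p > w`:
`(p-1)/(p-2) ≥ (1 - 1/p)^(-1)`; for `p = 2` the factor is `1/2`; the others are `≥ 1`). -/
theorem gr2 (ε : ℝ) (hε : 0 < ε) (w : ℕ) (hw : 3 ≤ w) : ∃ n0 : ℕ, ∀ n : ℕ, n0 ≤ n →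
    ∀ X ∈ Finset.Icc 1 n, ε * SH X * n / Real.log n ^ 2 ≤ hdeg n X →
    ∃ y0 : ℕ, y0 < primorial w ∧ Comp (primorial w) X y0 ∧
      ε / 20 * (n / primorial w : ℕ) ≤ Dw w (primorial w) (n / primorial w) X y0 := by
  classical
  set W := primorial w with hW
  have hWpos : 0 < W := primorial_pos w
  obtain ⟨n0, hn0⟩ := gr2_asym W ε hε
  refine ⟨n0, fun n hn X hX hdeg => ?_⟩
  obtain ⟨hasy, hWs, hn3⟩ := hn0 n hn
  rw [mem_Icc] at hX
  set N := n / W with hN
  have hWr : (0 : ℝ) < W := by exact_mod_cast hWpos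
  have hn3r : (3 : ℝ) ≤ n := by exact_mod_cast hn3
  have hlog : 0 < Real.log n := Real.log_pos (by linarith)
  have hSH1 := SH_ge_one X
  have hWn : W ≤ n := le_trans hWs (Nat.sqrt_le_self n)
  have hNpos : 0 < N := Nat.div_pos hWn hWpos
  have hNr : (0 : ℝ) < N := by exact_mod_cast hNpos
  have hNW : (N : ℝ) * W ≤ n := by exact_mod_cast Nat.div_mul_le_self n W
  by_contra hcon
  push Not at hcon
  -- the neighbours kept
  set U := (Finset.Icc 1 n).filter (fun u => hadj X u) with hU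
  set U' := U.filter (fun u => u < W * N ∧ Nat.sqrt n < Nat.dist X u) with hU'
  have hUc : (U.card : ℝ) ≤ U'.card + (W + 2 * Real.sqrt n + 1) := by
    have h1 : U ⊆ U' ∪ (Finset.Icc (W * N) n ∪ Finset.Icc (X - Nat.sqrt n) (X + Nat.sqrt n)) := by
      intro u hu
      rw [mem_union, mem_union, hU', mem_filter, mem_Icc, mem_Icc]
      by_cases h2 : u < W * N ∧ Nat.sqrt n < Nat.dist X u
      · exact Or.inl ⟨hu, h2⟩
      · right
        rw [hU, mem_filter, mem_Icc] at hu
        rw [not_and_or, not_lt, not_lt] at h2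
        rcases h2 with h2 | h2
        · left; exact ⟨h2, hu.1.2⟩
        · right
          unfold Nat.dist at h2
          omega
    have h2 := (card_le_card h1).trans ((card_union_le _ _).trans (Nat.add_le_add_left (card_union_le _ _) _))
    rw [Nat.card_Icc, Nat.card_Icc] at h2
    have h3 : n + 1 - W * N ≤ W := by
      have h4 := Nat.div_add_mod n W
      have h5 := Nat.mod_lt n hWpos
      rw [← hN] at h4
      omega
    have h4 : X + Nat.sqrt n + 1 - (X - Nat.sqrt n) ≤ 2 * Nat.sqrt n + 1 := by omega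
    have h5 : U.card ≤ U'.card + (W + (2 * Nat.sqrt n + 1)) := by omega
    have h6 : (Nat.sqrt n : ℝ) ≤ Real.sqrt n := Real.nat_sqrt_le_real_sqrt
    have h7 : (U.card : ℝ) ≤ U'.card + (W + (2 * Nat.sqrt n + 1)) := by exact_mod_cast h5
    linarith
  have hU'c : 4 / 5 * ε * SH X * (n / Real.log n ^ 2) ≤ (U'.card : ℝ) := by
    have h1 : ε * SH X * n / Real.log n ^ 2 ≤ (U.card : ℝ) := hdeg
    have h2 : ε * SH X * n / Real.log n ^ 2 = ε * SH X * (n / Real.log n ^ 2) := by ring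
    rw [h2] at h1
    have h3 : 0 ≤ (n : ℝ) / Real.log n ^ 2 := by positivity
    have h4 : ε / 5 * (n / Real.log n ^ 2) ≤ ε / 5 * SH X * (n / Real.log n ^ 2) := by
      have : 0 ≤ ε / 5 * (n / Real.log n ^ 2) := by positivity
      nlinarith
    nlinarith
  -- the weights
  set T : ℕ → ℕ → ℝ := fun y0 y => lamv W (X + y0 + W * y) * lamv W (X - y0 - W * y) with hT
  have hT0 : ∀ y0 y, 0 ≤ T y0 y := fun y0 y => mul_nonneg (gr2_lamv_nonneg _ _) (gr2_lamv_nonneg _ _)
  set Cls := (range W).filter (fun y : ℕ => Comp W X y) with hCls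
  set c : ℝ := ((Nat.totient W : ℝ) / W) ^ 2 * (Real.log n ^ 2 / 4) with hc
  have hU'm : ∀ u ∈ U', u % W ∈ Cls ∧ u / W < N ∧ c ≤ T (u % W) (u / W) := by
    intro u hu
    rw [hU', mem_filter, hU, mem_filter, mem_Icc] at hu
    obtain ⟨⟨⟨hu1, hun⟩, hadj1⟩, huN, hdist⟩ := hu
    obtain ⟨hp1, -, hp2, -⟩ := hadj1
    have hmod : (u : ℤ) = ((u % W : ℕ) : ℤ) + W * ((u / W : ℕ) : ℤ) := by
      have := Nat.mod_add_div u W
      exact_mod_cast this.symm
    have hdle : Nat.dist X u ≤ X + u := by unfold Nat.dist; omega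
    have hcopr : ∀ v : ℕ, v.Prime → Nat.sqrt n < v → IsCoprime (v : ℤ) (W : ℤ) := by
      intro v hv hvn
      rw [Nat.isCoprime_iff_coprime]
      rw [hv.coprime_iff_not_dvd]
      intro h
      have := Nat.le_of_dvd hWpos h
      omega
    have hc1 := hcopr _ hp1 (lt_of_lt_of_le hdist hdle)
    have hc2 := hcopr _ hp2 hdist
    have habs : (((X : ℤ) - u).natAbs) = Nat.dist X u := by
      unfold Nat.dist; omega
    have hc2' : IsCoprime ((X : ℤ) - u) (W : ℤ) := by
      rw [← habs] at hc2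
      rcases Int.natAbs_eq ((X : ℤ) - u) with h | h
      · rw [h]; exact hc2
      · rw [h]; exact hc2.neg_left
    have e1 : (X : ℤ) + ((u % W : ℕ) : ℤ) + W * ((u / W : ℕ) : ℤ) = ((X + u : ℕ) : ℤ) := by
      rw [Nat.cast_add]; linarith [hmod]
    have e2 : (X : ℤ) - ((u % W : ℕ) : ℤ) - W * ((u / W : ℕ) : ℤ) = (X : ℤ) - u := by
      linarith [hmod]
    refine ⟨?_, ?_, ?_⟩
    · rw [hCls, mem_filter, mem_range]
      refine ⟨Nat.mod_lt _ hWpos, ?_, ?_⟩
      · have h3 : (X : ℤ) + ((u % W : ℕ) : ℤ) = ((X + u : ℕ) : ℤ) + (W : ℤ) * (-((u / W : ℕ) : ℤ)) := by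
          rw [← e1]; ring
        rw [h3]
        exact IsCoprime.add_mul_left_left hc1 _
      · have h3 : (X : ℤ) - ((u % W : ℕ) : ℤ) = ((X : ℤ) - u) + (W : ℤ) * (((u / W : ℕ) : ℤ)) := by
          rw [← e2]; ring
        rw [h3]
        exact IsCoprime.add_mul_left_left hc2' _
    · exact Nat.div_lt_of_lt_mul huN
    · rw [hT]
      simp only
      rw [e1, e2]
      unfold lamv
      rw [Int.natAbs_natCast, if_pos hp1, habs, if_pos hp2]
      have hlow : ∀ v : ℕ, Nat.sqrt n < v → Real.log n / 2 ≤ Real.log v := by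
        intro v hv
        have h4 : Real.sqrt n ≤ v := by
          have h5 : n < (Nat.sqrt n + 1) ^ 2 := by
            have := Nat.lt_succ_sqrt n
            rw [pow_two]; exact this
          have h6 : n ≤ v ^ 2 := by
            have : (Nat.sqrt n + 1) ^ 2 ≤ v ^ 2 := Nat.pow_le_pow_left hv 2
            omega
          rw [Real.sqrt_le_left (by positivity)]
          exact_mod_cast h6
        have h5 : 0 < Real.sqrt n := Real.sqrt_pos.2 (by linarith)
        calc Real.log n / 2 = Real.log (Real.sqrt n) := (Real.log_sqrt (by linarith)).symm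
          _ ≤ Real.log v := Real.log_le_log h5 h4
      have hl1 := hlow _ (lt_of_lt_of_le hdist hdle)
      have hl2 := hlow _ hdist
      have hφ : (0 : ℝ) ≤ (Nat.totient W : ℝ) / W := by positivity
      calc c = ((Nat.totient W : ℝ) / W * (Real.log n / 2)) * ((Nat.totient W : ℝ) / W * (Real.log n / 2)) := by
            rw [hc]; ring
        _ ≤ _ := by
            apply mul_le_mul (mul_le_mul_of_nonneg_left hl1 hφ) (mul_le_mul_of_nonneg_left hl2 hφ)
            · positivity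
            · exact mul_nonneg hφ (le_trans (by positivity) hl1)
  -- summation
  have hsum1 : (U'.card : ℝ) * c ≤ ∑ y0 ∈ Cls, ∑ y ∈ range N, T y0 y := by
    rw [← sum_product']
    have hinj : Set.InjOn (fun u : ℕ => (u % W, u / W)) (U' : Set ℕ) := by
      intro u _ v _ h
      simp only [Prod.mk.injEq] at h
      rw [← Nat.mod_add_div u W, ← Nat.mod_add_div v W, h.1, h.2]
    calc (U'.card : ℝ) * c = ∑ _u ∈ U', c := by rw [sum_const, nsmul_eq_mul]
      _ ≤ ∑ u ∈ U', T (u % W) (u / W) := sum_le_sum (fun u hu => (hU'm u hu).2.2)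
      _ = ∑ q ∈ U'.image (fun u : ℕ => (u % W, u / W)), T q.1 q.2 := by
          rw [sum_image hinj]
      _ ≤ ∑ q ∈ Cls ×ˢ range N, T q.1 q.2 := by
          apply sum_le_sum_of_subset_of_nonneg
          · intro q hq
            rw [mem_image] at hq
            obtain ⟨u, hu, rfl⟩ := hq
            rw [mem_product, mem_range]
            exact ⟨(hU'm u hu).1, (hU'm u hu).2.1⟩
          · intro q _ _
            exact hT0 _ _
  have hsum2 : ∑ y0 ∈ Cls, ∑ y ∈ range N, T y0 y ≤ Cls.card * (ε / 20 * N * SW w (2 * X)) := by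
    rw [← nsmul_eq_mul]
    apply sum_le_card_nsmul
    intro y0 hy0
    rw [hCls, mem_filter, mem_range] at hy0
    have h1 := hcon y0 hy0.1 hy0.2
    unfold Dw at h1
    rw [← sum_div, div_lt_iff₀ (SW_pos _ _)] at h1
    exact h1.le
  have hsing := gr2_singular w hw X hX.1
  rw [← hW, ← hCls] at hsing
  set Φ : ℝ := (Nat.totient W : ℝ) ^ 2 / W with hΦ
  have hΦpos : 0 < Φ := by
    have : 0 < (Nat.totient W : ℝ) := by exact_mod_cast Nat.totient_pos.2 hWpos
    positivity
  have hup : (U'.card : ℝ) * c ≤ ε / 10 * N * (SH X * Φ) := by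
    have h1 : (U'.card : ℝ) * c ≤ (ε / 20 * N) * (Cls.card * SW w (2 * X)) := by
      calc (U'.card : ℝ) * c ≤ Cls.card * (ε / 20 * N * SW w (2 * X)) := le_trans hsum1 hsum2
        _ = _ := by ring
    have h2 : (ε / 20 * N) * (Cls.card * SW w (2 * X)) ≤ (ε / 20 * N) * (2 * SH X * Φ) :=
      mul_le_mul_of_nonneg_left hsing (by positivity)
    linarith
  have hlow : ε / 5 * N * (SH X * Φ) ≤ (U'.card : ℝ) * c := by
    have hc0 : 0 ≤ c := by rw [hc]; positivity
    have h1 : 4 / 5 * ε * SH X * (n / Real.log n ^ 2) * c ≤ (U'.card : ℝ) * c :=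
      mul_le_mul_of_nonneg_right hU'c hc0
    refine le_trans ?_ h1
    have h2 : 4 / 5 * ε * SH X * (n / Real.log n ^ 2) * c = ε / 5 * SH X * (Φ / W) * n := by
      rw [hc, hΦ]
      field_simp
    rw [h2]
    have h3 : ε / 5 * SH X * (Φ / W) * (N * W) ≤ ε / 5 * SH X * (Φ / W) * n :=
      mul_le_mul_of_nonneg_left hNW (by positivity)
    refine le_trans (le_of_eq ?_) h3
    field_simp
  have hfin : 0 < ε * N * (SH X * Φ) := by positivity
  nlinarith

end Pool.Agent.Lib.H18GB
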