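import Pool.Agent.Lib.H18GB.RCN
import Pool.Agent.Lib.H18GB.GR2

/-!
# Project GB: auxiliary lemmas for GR3, GR4, GR5
-/

namespace Pool.Agent.Lib.H18GB

open Finset Pool.Agent.Lib.Sieve Pool.Agent.Lib.GoldbachGraph

theorem lamv_neg (W : ℕ) (v : ℤ) : lamv W (-v) = lamv W v := by
  unfold lamv
  rw [Int.natAbs_neg]

theorem lamv_nonneg' (W : ℕ) (v : ℤ) : 0 ≤ lamv W v := by
  unfold lamv
  split_ifs with h
  · have h1 : (1 : ℝ) ≤ v.natAbs := by exact_mod_cast h.one_lt.le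
    have h2 := Real.log_nonneg h1
    positivity
  · exact le_rfl

theorem totient_div_le_one (W : ℕ) : (Nat.totient W / W : ℝ) ≤ 1 := by
  rcases Nat.eq_zero_or_pos W with h | h
  · subst h; simp
  · rw [div_le_one (by exact_mod_cast h)]
    exact_mod_cast Nat.totient_le W

theorem lamv_le_log {W : ℕ} {v : ℤ} {B : ℝ} (hB : 1 ≤ B) (hv : |(v : ℝ)| ≤ B) :
    lamv W v ≤ Real.log B := by
  unfold lamv
  have h0 := Real.log_nonneg hB
  split_ifs with h
  · have h1 : (0 : ℝ) < v.natAbs := by exact_mod_cast h.pos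
    have h2 : (v.natAbs : ℝ) ≤ B := by
      rw [Nat.cast_natAbs]
      push_cast
      exact hv
    have h3 := Real.log_le_log h1 h2
    have h4 := totient_div_le_one W
    have h5 : (1 : ℝ) ≤ v.natAbs := by exact_mod_cast h.one_lt.le
    have h6 := Real.log_nonneg h5
    calc (Nat.totient W / W : ℝ) * Real.log v.natAbs ≤ 1 * Real.log v.natAbs := by
          exact mul_le_mul_of_nonneg_right h4 h6
      _ ≤ Real.log B := by rw [one_mul]; exact h3
  · exact h0

theorem one_le_SW (w : ℕ) (d : ℤ) : 1 ≤ SW w d := by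
  unfold SW
  refine Finset.prod_induction _ (fun x : ℝ => 1 ≤ x)
    (fun a b ha hb => one_le_mul_of_one_le_of_one_le ha hb) le_rfl ?_
  intro p hp
  have hpp : p.Prime := Nat.prime_of_mem_primeFactors (Finset.mem_filter.mp hp).1
  have h1 : (1 : ℝ) < p := by exact_mod_cast hpp.one_lt
  have h2 : 0 < 1 - 1 / (p : ℝ) := by
    rw [sub_pos, div_lt_one (by linarith)]
    exact h1
  have h3 : 1 - 1 / (p : ℝ) ≤ 1 := by
    have : (0 : ℝ) ≤ 1 / p := by positivity
    linarith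
  exact (one_le_inv₀ h2).mpr h3

/-- a number coprime to an even number is odd -/
theorem odd_of_coprime {W : ℕ} (h2 : 2 ∣ W) {v : ℤ} (h : IsCoprime v (W : ℤ)) : v % 2 = 1 := by
  by_contra hc
  have h3 : (2 : ℤ) ∣ v := by omega
  have h4 : (2 : ℤ) ∣ (W : ℤ) := by exact_mod_cast h2
  have h5 := h.isUnit_of_dvd' h3 h4
  exact absurd h5 (by decide)

/-- if both von Mangoldt weights are nonzero then there is an edge -/
theorem hadj_of_lamv {W : ℕ} (h2 : 2 ∣ W) {x0 y0 x y : ℕ} (hc : Comp W x0 y0)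
    (h : lamv W ((x0 + y0) + W * (x + y)) * lamv W ((x0 - y0) + W * (x - y)) ≠ 0) :
    hadj (x0 + W * x) (y0 + W * y) := by
  have h2' : (W : ℤ) % 2 = 0 := by omega
  have hne := mul_ne_zero_iff.mp h
  have e1 : (((x0 : ℤ) + y0) + W * (x + y)).natAbs = (x0 + W * x) + (y0 + W * y) := by
    have : ((x0 : ℤ) + y0) + W * (x + y) = (((x0 + W * x) + (y0 + W * y) : ℕ) : ℤ) := by
      push_cast; ring
    rw [this, Int.natAbs_natCast]
  have e2 : (((x0 : ℤ) - y0) + W * (x - y)).natAbs = Nat.dist (x0 + W * x) (y0 + W * y) := by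
    have : ((x0 : ℤ) - y0) + W * (x - y) =
        ((x0 + W * x : ℕ) : ℤ) - ((y0 + W * y : ℕ) : ℤ) := by
      push_cast; ring
    rw [this, Nat.dist]
    omega
  have p1 : (((x0 : ℤ) + y0) + W * (x + y)).natAbs.Prime := by
    by_contra hp
    exact hne.1 (by unfold lamv; rw [if_neg hp])
  have p2 : (((x0 : ℤ) - y0) + W * (x - y)).natAbs.Prime := by
    by_contra hp
    exact hne.2 (by unfold lamv; rw [if_neg hp])
  have o1 := odd_of_coprime h2 hc.1
  have o2 := odd_of_coprime h2 hc.2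
  have q1 : (((x0 : ℤ) + y0) + W * (x + y)) % 2 = 1 := by
    rw [Int.add_emod, Int.mul_emod, h2', o1]; norm_num
  have q2 : (((x0 : ℤ) - y0) + W * (x - y)) % 2 = 1 := by
    rw [Int.add_emod, Int.mul_emod, h2', o2]; norm_num
  refine ⟨?_, ?_, ?_, ?_⟩
  · rw [← e1]; exact p1
  · rw [← e1, Nat.odd_iff]; omega
  · rw [← e2]; exact p2
  · rw [← e2, Nat.odd_iff]; omega

/-- no edges: the two kernels add up to at most `-1` -/
theorem ker_sum {W : ℕ} {r1 r x y : ℤ}
    (h : lamv W (r1 + W * (x + y)) * lamv W (r + W * (x - y)) = 0) :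
    ker W r1 r 1 x y + ker W r1 (-r) (-1) x y ≤ -1 := by
  have h2 : lam W (-r) (-1 * (x - y)) = lamv W (r + W * (x - y)) := by
    unfold lam
    rw [← lamv_neg W (r + W * (x - y))]
    congr 1
    ring
  have h1 : lam W r1 (x + y) = lamv W (r1 + W * (x + y)) := rfl
  have h3 : lam W r (1 * (x - y)) = lamv W (r + W * (x - y)) := by
    unfold lam
    rw [one_mul]
  unfold ker
  rw [h1, h2, h3, h]
  split_ifs with c1 c2 c2
  · norm_num
  · norm_num
  · norm_num
  · exfalso; omega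

/-- the counting consequence of the two kernel estimates -/
theorem no_edge_bound {W N : ℕ} {r1 r : ℤ} {F G : ℤ → ℝ} {E : ℝ}
    (hF : ∀ x, 0 ≤ F x) (hG : ∀ y, 0 ≤ G y)
    (h : ∀ x ∈ Finset.Ico (0 : ℤ) N, ∀ y ∈ Finset.Ico (0 : ℤ) N, F x * G y ≠ 0 →
      lamv W (r1 + W * (x + y)) * lamv W (r + W * (x - y)) = 0)
    (h1 : |∑ x ∈ Finset.Ico (0 : ℤ) N, ∑ y ∈ Finset.Ico (0 : ℤ) N,
      F x * G y * ker W r1 r 1 x y| ≤ E)
    (h2 : |∑ x ∈ Finset.Ico (0 : ℤ) N, ∑ y ∈ Finset.Ico (0 : ℤ) N,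
      F x * G y * ker W r1 (-r) (-1) x y| ≤ E) :
    (∑ x ∈ Finset.Ico (0 : ℤ) N, F x) * (∑ y ∈ Finset.Ico (0 : ℤ) N, G y) ≤ 2 * E := by
  have e1 := (abs_le.mp h1).1
  have e2 := (abs_le.mp h2).1
  have key : (∑ x ∈ Finset.Ico (0 : ℤ) N, ∑ y ∈ Finset.Ico (0 : ℤ) N,
      F x * G y * ker W r1 r 1 x y) + (∑ x ∈ Finset.Ico (0 : ℤ) N, ∑ y ∈ Finset.Ico (0 : ℤ) N,
      F x * G y * ker W r1 (-r) (-1) x y) ≤
      -((∑ x ∈ Finset.Ico (0 : ℤ) N, F x) * (∑ y ∈ Finset.Ico (0 : ℤ) N, G y)) := by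
    rw [Finset.sum_mul_sum, ← Finset.sum_neg_distrib, ← Finset.sum_add_distrib]
    apply Finset.sum_le_sum
    intro x hx
    rw [← Finset.sum_neg_distrib, ← Finset.sum_add_distrib]
    apply Finset.sum_le_sum
    intro y hy
    by_cases hc : F x * G y = 0
    · rw [hc]; simp
    · have h3 := ker_sum (h x hx y hy hc)
      have h4 : 0 ≤ F x * G y := mul_nonneg (hF x) (hG y)
      nlinarith
  linarith

theorem sum_Ico_int (N : ℕ) (f : ℤ → ℝ) :
    ∑ x ∈ Finset.Ico (0 : ℤ) N, f x = ∑ n ∈ Finset.range N, f n := by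
  have h := Finset.sum_image (s := Finset.range N) (g := fun n : ℕ => (n : ℤ)) (f := f)
    (fun a _ b _ hab => by simpa using hab)
  rw [← h]
  congr 1
  ext x
  simp only [Finset.mem_Ico, Finset.mem_image, Finset.mem_range]
  constructor
  · rintro ⟨h1, h2⟩
    exact ⟨x.toNat, by omega, by omega⟩
  · rintro ⟨n, h1, rfl⟩
    omega

open Classical in
/-- indicator function of a finite set of natural numbers, on the integers -/
noncomputable def indZ (A : Finset ℕ) (x : ℤ) : ℝ := if 0 ≤ x ∧ x.toNat ∈ A then 1 else 0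

theorem indZ_nonneg (A : Finset ℕ) (x : ℤ) : 0 ≤ indZ A x := by
  unfold indZ; split_ifs <;> norm_num

theorem indZ_abs_le (A : Finset ℕ) (x : ℤ) : |indZ A x| ≤ 1 := by
  unfold indZ; split_ifs <;> norm_num

theorem indZ_ne {A : Finset ℕ} {x : ℤ} (h : indZ A x ≠ 0) : ∃ n ∈ A, x = n := by
  unfold indZ at h
  split_ifs at h with h1
  · exact ⟨x.toNat, h1.2, by omega⟩
  · exact absurd rfl h

theorem indZ_cast (A : Finset ℕ) (n : ℕ) [Decidable (n ∈ A)] :
    indZ A n = if n ∈ A then 1 else 0 := by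
  unfold indZ
  by_cases h : n ∈ A <;> simp [h]

theorem sum_indZ {N : ℕ} {A : Finset ℕ} (hA : A ⊆ Finset.Ico 1 N) :
    ∑ x ∈ Finset.Ico (0 : ℤ) N, indZ A x = A.card := by
  classical
  rw [sum_Ico_int]
  have h1 : ∀ n ∈ Finset.range N, indZ A (n : ℤ) = if n ∈ A then 1 else 0 :=
    fun n _ => indZ_cast A n
  rw [Finset.sum_congr rfl h1, Finset.sum_ite_mem, Finset.sum_const, nsmul_eq_mul, mul_one]
  congr 2
  apply Finset.inter_eq_right.mpr
  intro n hn
  have := Finset.mem_Ico.mp (hA hn)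
  exact Finset.mem_range.mpr this.2

/-- `log^2` is eventually smaller than a linear function -/
theorem log_sq_le (W : ℕ) (δ : ℝ) (hδ : 0 < δ) : ∃ N0 : ℕ, ∀ N : ℕ, N0 ≤ N →
    Real.log (4 * W * N + 4 * W + 4) ^ 2 ≤ δ * N := by
  have h1 : Filter.Tendsto (fun x : ℝ => Real.log x ^ 2 / (1 * x + 0)) Filter.atTop (nhds 0) :=
    Real.tendsto_pow_log_div_mul_add_atTop 1 0 2 one_ne_zero
  have h2 : Filter.Tendsto (fun N : ℕ => (4 * (W + 1) * N + 4 * (W + 1) : ℝ)) Filter.atTop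
      Filter.atTop := by
    apply Filter.tendsto_atTop_add_const_right
    apply Filter.Tendsto.const_mul_atTop (by positivity)
    exact tendsto_natCast_atTop_atTop
  have h3 := h1.comp h2
  have hW : (0 : ℝ) < 8 * (W + 1) := by positivity
  have h4 := h3.eventually (gt_mem_nhds (show (0 : ℝ) < δ / (8 * (W + 1)) by positivity))
  obtain ⟨N0, hN0⟩ := Filter.eventually_atTop.mp h4
  refine ⟨max N0 1, fun N hN => ?_⟩
  have hN1 : 1 ≤ N := le_trans (le_max_right _ _) hN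
  have hN1' : (1 : ℝ) ≤ N := by exact_mod_cast hN1
  have h5 := hN0 N (le_trans (le_max_left _ _) hN)
  simp only [Function.comp_apply, one_mul, add_zero] at h5
  have hpos : (0 : ℝ) < 4 * (W + 1) * N + 4 * (W + 1) := by positivity
  rw [div_lt_iff₀ hpos] at h5
  have h6 : (4 * W * N + 4 * W + 4 : ℝ) ≤ 4 * (W + 1) * N + 4 * (W + 1) := by nlinarith
  have h7 : (1 : ℝ) ≤ 4 * W * N + 4 * W + 4 := by
    have : (0 : ℝ) ≤ W := Nat.cast_nonneg W
    nlinarith
  have h8 : Real.log (4 * W * N + 4 * W + 4) ^ 2 ≤ Real.log (4 * (W + 1) * N + 4 * (W + 1)) ^ 2 := by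
    apply pow_le_pow_left₀ (Real.log_nonneg h7)
    exact Real.log_le_log (by linarith) h6
  have h9 : δ / (8 * (W + 1)) * (4 * (W + 1) * N + 4 * (W + 1)) ≤ δ * N := by
    have : δ / (8 * (W + 1)) * (4 * (W + 1) * N + 4 * (W + 1)) = δ * ((N + 1) / 2) := by
      field_simp
      ring
    rw [this]
    apply mul_le_mul_of_nonneg_left _ hδ.le
    linarith
  linarith

end Pool.Agent.Lib.H18GB
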