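import Pool.Agent.Lib.H18GB.RCN
import Pool.Agent.Lib.H18GB.GR2
import Pool.Agent.Lib.H18GB.Pntl
import Pool.Agent.Lib.H18GB.GRAux

/-!
# Project GB: GR5
-/

namespace Pool.Agent.Lib.H18GB

open Finset Pool.Agent.Lib.Sieve Pool.Agent.Lib.GoldbachGraph

/-- one half of GR5: the primes `2 W x + b` for which `v + W x` has no neighbour in the class `z0`
over `B` have small total weight -/
theorem gr5_half {ε1 : ℝ} {W N1 : ℕ} (h2W : 2 ∣ W)
    (hN1 : ∀ N : ℕ, N1 ≤ N → ∀ (r1 r2 σ b : ℤ), |r1| < 2 * W → IsCoprime r1 (W : ℤ) →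
      |r2| < 2 * W → IsCoprime r2 (W : ℤ) → (σ = 1 ∨ σ = -1) → |b| ≤ 4 * W → ∀ (F G : ℤ → ℝ),
      (∀ x, |F x| ≤ lamv W (2 * W * x + b)) → (∀ y, |G y| ≤ 1) →
      |∑ x ∈ Finset.Ico (0 : ℤ) N, ∑ y ∈ Finset.Ico (0 : ℤ) N, F x * G y * ker W r1 r2 σ x y| ≤
        ε1 * N ^ 2) {N : ℕ} (hN : N1 ≤ N) {v z0 b : ℕ} (hv : v < W) (hz : z0 < W)
    (hb : b ≤ 4 * W) (hc : Comp W v z0) {Z B : Finset ℕ} (hZ : Z ⊆ Finset.Ico 1 N)
    (hB : B ⊆ Finset.Ico 1 N) (hno : ∀ x ∈ Z, ∀ y ∈ B, ¬ hadj (v + W * x) (z0 + W * y)) :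
    (∑ x ∈ Z, lamv W (2 * W * (x : ℤ) + b)) * B.card ≤ 2 * (ε1 * N ^ 2) := by
  classical
  set F : ℤ → ℝ := fun x => lamv W (2 * W * x + b) * indZ Z x with hFdef
  have hF0 : ∀ x, 0 ≤ F x := fun x => mul_nonneg (lamv_nonneg' _ _) (indZ_nonneg _ _)
  have hFf : ∀ x, |F x| ≤ lamv W (2 * W * x + (b : ℤ)) := by
    intro x
    rw [abs_of_nonneg (hF0 x)]
    have h1 := indZ_abs_le Z x
    rw [abs_of_nonneg (indZ_nonneg _ _)] at h1
    have h2 := lamv_nonneg' W (2 * W * x + b)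
    simp only [hFdef]
    nlinarith
  have hv' : (v : ℤ) < W := by exact_mod_cast hv
  have hz' : (z0 : ℤ) < W := by exact_mod_cast hz
  have hr1 : |((v : ℤ) + z0)| < 2 * W := by
    rw [abs_lt]; constructor <;> omega
  have hr2 : |((v : ℤ) - z0)| < 2 * W := by
    rw [abs_lt]; constructor <;> omega
  have hr2' : |(-((v : ℤ) - z0))| < 2 * W := by rw [abs_neg]; exact hr2
  have hb' : |(b : ℤ)| ≤ 4 * W := by
    rw [abs_of_nonneg (Int.natCast_nonneg b)]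
    exact_mod_cast hb
  have k1 := hN1 N hN ((v : ℤ) + z0) ((v : ℤ) - z0) 1 b hr1 hc.1 hr2 hc.2 (Or.inl rfl) hb'
    F (indZ B) hFf (indZ_abs_le B)
  have k2 := hN1 N hN ((v : ℤ) + z0) (-((v : ℤ) - z0)) (-1) b hr1 hc.1 hr2' hc.2.neg_left
    (Or.inr rfl) hb' F (indZ B) hFf (indZ_abs_le B)
  have hedge : ∀ x ∈ Finset.Ico (0 : ℤ) N, ∀ y ∈ Finset.Ico (0 : ℤ) N,
      F x * indZ B y ≠ 0 →
      lamv W (((v : ℤ) + z0) + W * (x + y)) * lamv W (((v : ℤ) - z0) + W * (x - y)) = 0 := by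
    intro x _ y _ hne
    by_contra hc'
    obtain ⟨hFx, hGy⟩ := mul_ne_zero_iff.mp hne
    obtain ⟨a, haA, rfl⟩ := indZ_ne (right_ne_zero_of_mul hFx)
    obtain ⟨c, hcB, rfl⟩ := indZ_ne hGy
    exact hno a haA c hcB (hadj_of_lamv h2W hc hc')
  have hbound := no_edge_bound hF0 (indZ_nonneg B) hedge k1 k2
  rw [sum_indZ hB] at hbound
  have hs : ∑ x ∈ Finset.Ico (0 : ℤ) N, F x = ∑ x ∈ Z, lamv W (2 * W * (x : ℤ) + b) := by
    rw [sum_Ico_int]
    have h1 : ∀ n ∈ Finset.range N, F (n : ℤ) =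
        if n ∈ Z then lamv W (2 * W * (n : ℤ) + b) else 0 := by
      intro n _
      simp only [hFdef]
      rw [indZ_cast]
      split_ifs <;> simp
    rw [Finset.sum_congr rfl h1, Finset.sum_ite_mem]
    congr 1
    apply Finset.inter_eq_right.mpr
    intro n hn
    have := Finset.mem_Ico.mp (hZ hn)
    exact Finset.mem_range.mpr this.2
  rw [hs] at hbound
  exact hbound

/-- Chunk GR5. Let `sg(x) = lamv W (2 W x + 2 v + 3) = lam (2W) (2v+3) x` (`φ(2W)/2W = φ(W)/W`), total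
`≥ N / 2` by `pntlam` for `2 W`. Let `Z` be the set of `x` with `sg x > 0` such that `v + W x` has no
neighbour in the class `z0` over `B`: `rcn1` with `F = sg 1_Z`, `G = 1_B`, `σ = ±1` gives
`∑_{x ∈ Z} sg x (|B| - 1) ≤ 2 ε1 N^2`; similarly `Z'` for `v + 3`, `z0'`, `B'`. -/
theorem gr5 : ∃ w0 : ℕ, ∀ w W : ℕ, w0 ≤ w → IsW w W → ∃ N0 : ℕ,
    ∀ N : ℕ, N0 ≤ N → ∀ v z0 z0' : ℕ, v + 3 < W → z0 < W → z0' < W →
    IsCoprime (2 * (v : ℤ) + 3) W → Comp W v z0 → Comp W (v + 3) z0' →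
    ∀ B B' : Finset ℕ, B ⊆ Finset.Ico 1 N → B' ⊆ Finset.Ico 1 N → (N : ℝ) / 2 ≤ B.card →
    (N : ℝ) / 2 ≤ B'.card → ∃ x ∈ Finset.Ico 1 N, ∃ y ∈ B, ∃ y' ∈ B',
      hadj (v + W * x) (v + 3 + W * x) ∧ hadj (v + W * x) (z0 + W * y) ∧
      hadj (v + 3 + W * x) (z0' + W * y') := by
  classical
  obtain ⟨w1, hw1⟩ := rcn1 (1 / 64) (by norm_num)
  refine ⟨max w1 2, fun w W hw hW => ?_⟩
  obtain ⟨N1, hN1⟩ := hw1 w W (le_trans (le_max_left _ _) hw) hW
  have hWpos : 0 < W := hW.1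
  obtain ⟨N2, hN2⟩ := pntlam (2 * W) (by omega) (1 / 4) (by norm_num)
  obtain ⟨N3, hN3⟩ := log_sq_le W (1 / 64) (by norm_num)
  refine ⟨max (max N1 N2) (max N3 1), fun N hN v z0 z0' hv hz0 hz0' hcop hc hc' B B' hB hB' hBc
    hBc' => ?_⟩
  have hNN1 : N1 ≤ N := le_trans (le_trans (le_max_left _ _) (le_max_left _ _)) hN
  have hNN2 : N2 ≤ N := le_trans (le_trans (le_max_right _ _) (le_max_left _ _)) hN
  have hNN3 : N3 ≤ N := le_trans (le_trans (le_max_left _ _) (le_max_right _ _)) hN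
  have hNpos : 1 ≤ N := le_trans (le_trans (le_max_right _ _) (le_max_right _ _)) hN
  have hNR : (1 : ℝ) ≤ N := by exact_mod_cast hNpos
  have h2W : 2 ∣ W := (hW.2 2 Nat.prime_two).mpr (le_trans (le_max_right _ _) hw)
  -- the weight
  set sg : ℕ → ℝ := fun x => lamv W (2 * W * (x : ℤ) + ((2 * v + 3 : ℕ) : ℤ)) with hsg
  have hsg0 : ∀ x, 0 ≤ sg x := fun x => lamv_nonneg' _ _
  -- total weight
  have htot : (Nat.totient (2 * W) / (2 * W : ℕ) : ℝ) = (Nat.totient W / W : ℝ) := by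
    rw [Nat.totient_mul_of_prime_of_dvd Nat.prime_two h2W]
    have : (W : ℝ) ≠ 0 := by exact_mod_cast hWpos.ne'
    push_cast
    field_simp
  have hlam : ∀ x : ℕ, uu (2 * W) (2 * (v : ℤ) + 3) (x : ℤ) = sg x - 1 := by
    intro x
    simp only [hsg]
    unfold uu lam lamv
    rw [htot]
    have : (2 * (v : ℤ) + 3 + ((2 * W : ℕ) : ℤ) * x) =
        2 * W * (x : ℤ) + ((2 * v + 3 : ℕ) : ℤ) := by push_cast; ring
    rw [this]
  have hr : |(2 * (v : ℤ) + 3)| < 2 * ((2 * W : ℕ) : ℤ) := by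
    have : (v : ℤ) + 3 < W := by exact_mod_cast hv
    push_cast
    rw [abs_lt]; constructor <;> omega
  have hcop2 : IsCoprime (2 * (v : ℤ) + 3) ((2 * W : ℕ) : ℤ) := by
    push_cast
    refine IsCoprime.mul_right ?_ hcop
    exact ⟨1, -((v : ℤ) + 1), by ring⟩
  have hsum := hN2 N hNN2 (2 * (v : ℤ) + 3) hr hcop2 N (Int.natCast_nonneg N) le_rfl
  rw [sum_Ico_int, Finset.sum_congr rfl (fun n _ => hlam n), Finset.sum_sub_distrib,
    Finset.sum_const, Finset.card_range, nsmul_eq_mul, mul_one] at hsum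
  have hsum' : 3 / 4 * (N : ℝ) ≤ ∑ x ∈ Finset.range N, sg x := by
    have := (abs_le.mp hsum).1
    linarith
  have hsplit : ∑ x ∈ Finset.range N, sg x = (∑ x ∈ Finset.Ico 1 N, sg x) + sg 0 := by
    rw [Finset.range_eq_Ico, Finset.sum_eq_sum_Ico_succ_bot (by omega : 0 < N), add_comm]
  have hsg00 : sg 0 ≤ 1 / 4 * N := by
    have hWR : (1 : ℝ) ≤ W := by exact_mod_cast hWpos
    have hBig : (1 : ℝ) ≤ 4 * W * N + 4 * W + 4 := by nlinarith
    have hvR : (v : ℝ) + 3 ≤ W := by exact_mod_cast hv.le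
    have hv0 : (0 : ℝ) ≤ v := Nat.cast_nonneg v
    have a1 : sg 0 ≤ Real.log (4 * W * N + 4 * W + 4) := by
      simp only [hsg]
      apply lamv_le_log hBig
      push_cast
      rw [abs_le]
      constructor <;> nlinarith
    have a2 := hN3 N hNN3
    have a3 : Real.log (4 * W * N + 4 * W + 4) ≤
        1 / 8 + 2 * Real.log (4 * W * N + 4 * W + 4) ^ 2 := by
      nlinarith [sq_nonneg (Real.log (4 * W * N + 4 * W + 4) - 1 / 4)]
    linarith
  -- the exceptional sets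
  set Z : Finset ℕ := (Finset.Ico 1 N).filter
    (fun x => ∀ y ∈ B, ¬ hadj (v + W * x) (z0 + W * y)) with hZ
  set Z' : Finset ℕ := (Finset.Ico 1 N).filter
    (fun x => ∀ y ∈ B', ¬ hadj (v + 3 + W * x) (z0' + W * y)) with hZ'
  have hb4 : 2 * v + 3 ≤ 4 * W := by omega
  have b1 := gr5_half (b := 2 * v + 3) h2W hN1 hNN1 (show v < W by omega) hz0 hb4 hc
    (Finset.filter_subset _ _ : Z ⊆ Finset.Ico 1 N) hB
    (fun x hx y hy => (Finset.mem_filter.mp hx).2 y hy)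
  have b2 := gr5_half (b := 2 * v + 3) h2W hN1 hNN1 (show v + 3 < W by omega) hz0' hb4
    (by exact_mod_cast hc')
    (Finset.filter_subset _ _ : Z' ⊆ Finset.Ico 1 N) hB'
    (fun x hx y hy => (Finset.mem_filter.mp hx).2 y hy)
  have c1 : ∑ x ∈ Z, sg x ≤ 1 / 16 * N := by
    have h1 : (∑ x ∈ Z, sg x) * ((N : ℝ) / 2) ≤ 2 * (1 / 64 * N ^ 2) := by
      refine le_trans ?_ b1
      apply mul_le_mul_of_nonneg_left hBc
      exact Finset.sum_nonneg fun x _ => hsg0 x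
    have h2 : (∑ x ∈ Z, sg x) * N ≤ 1 / 16 * N * N := by nlinarith
    exact le_of_mul_le_mul_right h2 (by linarith)
  have c2 : ∑ x ∈ Z', sg x ≤ 1 / 16 * N := by
    have h1 : (∑ x ∈ Z', sg x) * ((N : ℝ) / 2) ≤ 2 * (1 / 64 * N ^ 2) := by
      refine le_trans ?_ b2
      apply mul_le_mul_of_nonneg_left hBc'
      exact Finset.sum_nonneg fun x _ => hsg0 x
    have h2 : (∑ x ∈ Z', sg x) * N ≤ 1 / 16 * N * N := by nlinarith
    exact le_of_mul_le_mul_right h2 (by linarith)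
  -- a good x
  obtain ⟨x, hx, hxsg, hxZ, hxZ'⟩ : ∃ x ∈ Finset.Ico 1 N, sg x ≠ 0 ∧ x ∉ Z ∧ x ∉ Z' := by
    by_contra hcon
    push Not at hcon
    have h1 : ∑ x ∈ Finset.Ico 1 N, sg x ≤ (∑ x ∈ Z, sg x) + ∑ x ∈ Z', sg x := by
      have h2 : ∑ x ∈ Finset.Ico 1 N, sg x ≤ ∑ x ∈ Z ∪ Z', sg x := by
        have h3 : ∑ x ∈ Finset.Ico 1 N, sg x =
            ∑ x ∈ (Finset.Ico 1 N).filter (fun x => x ∈ Z ∪ Z'), sg x := by
          rw [Finset.sum_filter]
          apply Finset.sum_congr rfl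
          intro x hx
          by_cases hxu : x ∈ Z ∪ Z'
          · rw [if_pos hxu]
          · rw [if_neg hxu]
            by_contra hne
            rw [Finset.mem_union, not_or] at hxu
            exact hxu.2 (hcon x hx hne hxu.1)
        rw [h3]
        apply Finset.sum_le_sum_of_subset_of_nonneg
        · intro x hx
          exact (Finset.mem_filter.mp hx).2
        · intro x _ _
          exact hsg0 x
      have h4 := Finset.sum_union_inter (s₁ := Z) (s₂ := Z') (f := sg)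
      have h5 : 0 ≤ ∑ x ∈ Z ∩ Z', sg x := Finset.sum_nonneg fun x _ => hsg0 x
      linarith
    rw [hsplit] at hsum'
    linarith
  have hp : (2 * W * (x : ℤ) + ((2 * v + 3 : ℕ) : ℤ)).natAbs.Prime := by
    by_contra hp
    exact hxsg (by simp only [hsg]; unfold lamv; rw [if_neg hp])
  have hp' : (v + W * x + (v + 3 + W * x)).Prime := by
    have : (2 * W * (x : ℤ) + ((2 * v + 3 : ℕ) : ℤ)).natAbs = v + W * x + (v + 3 + W * x) := by
      have : (2 * W * (x : ℤ) + ((2 * v + 3 : ℕ) : ℤ)) =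
          ((v + W * x + (v + 3 + W * x) : ℕ) : ℤ) := by push_cast; ring
      rw [this, Int.natAbs_natCast]
    rwa [← this]
  have hZn : ∃ y ∈ B, hadj (v + W * x) (z0 + W * y) := by
    by_contra hcon
    push Not at hcon
    exact hxZ (Finset.mem_filter.mpr ⟨hx, hcon⟩)
  have hZn' : ∃ y ∈ B', hadj (v + 3 + W * x) (z0' + W * y) := by
    by_contra hcon
    push Not at hcon
    exact hxZ' (Finset.mem_filter.mpr ⟨hx, hcon⟩)
  obtain ⟨y, hy, hadj1⟩ := hZn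
  obtain ⟨y', hy', hadj2⟩ := hZn'
  refine ⟨x, hx, y, hy, y', hy', ⟨hp', ?_, ?_, ?_⟩, hadj1, hadj2⟩
  · rw [Nat.odd_iff]; omega
  · have : Nat.dist (v + W * x) (v + 3 + W * x) = 3 := by
      rw [Nat.dist]; omega
    rw [this]; exact Nat.prime_three
  · have : Nat.dist (v + W * x) (v + 3 + W * x) = 3 := by
      rw [Nat.dist]; omega
    rw [this]; decide

end Pool.Agent.Lib.H18GB
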