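import Pool.Agent.Lib.H18GB.GR1
import Pool.Agent.Lib.Sieve.CRT
import Pool.Agent.Lib.Sieve.PrimeSum

/-!
# Project GB: the number of compatible residue classes
-/

namespace Pool.Agent.Lib.H18GB

open Finset Pool.Agent.Lib.Sieve

theorem isCoprime_iff {w W : ℕ} (hW : IsW w W) (v : ℤ) :
    IsCoprime v (W : ℤ) ↔ ∀ p : ℕ, p.Prime → p ≤ w → ¬ (p : ℤ) ∣ v := by
  rw [Int.isCoprime_iff_gcd_eq_one]
  constructor
  · intro h p hp hpw hd
    have h1 : (p : ℤ) ∣ W := Int.natCast_dvd_natCast.2 ((hW.2 p hp).2 hpw)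
    have h2 : (p : ℤ) ∣ Int.gcd v W := Int.dvd_coe_gcd hd h1
    rw [h] at h2
    have h3 : p ∣ 1 := by exact_mod_cast h2
    exact hp.one_lt.ne' (Nat.dvd_one.1 h3)
  · intro h
    by_contra hne
    obtain ⟨p, hp, hd⟩ := Nat.exists_prime_and_dvd hne
    have h1 : p ∣ W := by
      have h2 : (Int.gcd v W) ∣ W := by
        have := Int.gcd_dvd_right v (W : ℤ)
        exact_mod_cast this
      exact hd.trans h2
    have h3 : (p : ℤ) ∣ v := by
      have h4 : ((Int.gcd v W : ℕ) : ℤ) ∣ v := Int.gcd_dvd_left v (W : ℤ)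
      exact (Int.natCast_dvd_natCast.2 hd).trans h4
    exact h p hp ((hW.2 p hp).1 h1) h3

theorem isW_primorial {w : ℕ} : IsW w (primorial w) := by
  refine ⟨primorial_pos w, fun p hp => ?_⟩
  rw [primorial]
  constructor
  · intro h
    obtain ⟨q, hq, hd⟩ := (Prime.dvd_finset_prod_iff hp.prime _).1 h
    rw [Finset.mem_filter, Finset.mem_range] at hq
    have := (Nat.prime_dvd_prime_iff_eq hp hq.2).1 hd
    omega
  · intro h
    exact Finset.dvd_prod_of_mem _ (Finset.mem_filter.2 ⟨Finset.mem_range.2 (by omega), hp⟩)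

open Classical in
/-- Admissible residues. -/
noncomputable def Om (x0 : ℤ) (p : ℕ) : Finset (ZMod p) :=
  if h : p = 0 then ∅ else
    haveI : NeZero p := ⟨h⟩
    Finset.univ \ {(x0 : ZMod p), -(x0 : ZMod p)}

theorem mem_Om {x0 : ℤ} {p : ℕ} (hp : p.Prime) (u : ℤ) :
    (u : ZMod p) ∈ Om x0 p ↔ ¬ (p : ℤ) ∣ x0 + u ∧ ¬ (p : ℤ) ∣ x0 - u := by
  unfold Om
  rw [dif_neg hp.ne_zero]
  have : NeZero p := ⟨hp.ne_zero⟩
  rw [Finset.mem_sdiff, Finset.mem_insert, Finset.mem_singleton, ← ZMod.intCast_zmod_eq_zero_iff_dvd,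
    ← ZMod.intCast_zmod_eq_zero_iff_dvd]
  push_cast
  constructor
  · rintro ⟨-, h⟩
    push Not at h
    refine ⟨fun h1 => h.2 ?_, fun h1 => h.1 ?_⟩
    · rw [eq_neg_iff_add_eq_zero, add_comm]; exact h1
    · exact (sub_eq_zero.1 h1).symm
  · rintro ⟨h1, h2⟩
    refine ⟨Finset.mem_univ _, ?_⟩
    rintro (h | h)
    · exact h2 (by rw [h, sub_self])
    · exact h1 (by rw [h, add_neg_cancel])

theorem card_Om {x0 : ℤ} {p : ℕ} (hp : p.Prime) :
    ((Om x0 p).card : ℝ) = (p : ℝ) - if (p : ℤ) ∣ 2 * x0 then 1 else 2 := by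
  unfold Om
  rw [dif_neg hp.ne_zero]
  have : NeZero p := ⟨hp.ne_zero⟩
  rw [Finset.card_sdiff_of_subset (Finset.subset_univ _), Finset.card_univ, ZMod.card]
  have h1 : ((x0 : ZMod p) = -(x0 : ZMod p)) ↔ (p : ℤ) ∣ 2 * x0 := by
    rw [← ZMod.intCast_zmod_eq_zero_iff_dvd]
    push_cast
    rw [eq_neg_iff_add_eq_zero, two_mul]
  by_cases h : (p : ℤ) ∣ 2 * x0
  · rw [if_pos h]
    have h2 := h1.2 h
    rw [← h2]
    simp only [Finset.mem_singleton, Finset.insert_eq_of_mem, Finset.card_singleton]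
    rw [Nat.cast_sub hp.one_lt.le]
    simp
  · rw [if_neg h, Finset.card_pair (fun h2 => h (h1.1 h2)), Nat.cast_sub hp.two_le]
    simp

open Classical in
theorem prod_chi {w W : ℕ} (hW : IsW w W) (x0 u : ℤ) :
    ∏ p ∈ primesUpTo w, chi (Om x0) p u = if Comp W x0 u then 1 else 0 := by
  unfold Comp
  rw [isCoprime_iff hW, isCoprime_iff hW]
  split_ifs with h
  · refine Finset.prod_eq_one fun p hp => ?_
    obtain ⟨hp1, hp2⟩ := mem_primesUpTo.1 hp
    unfold chi
    rw [if_pos ((mem_Om hp1 u).2 ⟨h.1 p hp1 hp2, h.2 p hp1 hp2⟩)]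
  · have : ∃ p ∈ primesUpTo w, ¬ (¬ (p : ℤ) ∣ x0 + u ∧ ¬ (p : ℤ) ∣ x0 - u) := by
      by_contra hcon
      push Not at hcon
      apply h
      refine ⟨fun p hp hpw => ?_, fun p hp hpw => ?_⟩
      · exact (hcon p (mem_primesUpTo.2 ⟨hp, hpw⟩)).1
      · exact (hcon p (mem_primesUpTo.2 ⟨hp, hpw⟩)).2
    obtain ⟨p, hp, hn⟩ := this
    refine Finset.prod_eq_zero hp ?_
    unfold chi
    rw [if_neg fun h1 => hn ((mem_Om (mem_primesUpTo.1 hp).1 u).1 h1)]

theorem comp_add_mul {W : ℕ} (x0 u : ℤ) (k : ℤ) : Comp W x0 (u + W * k) ↔ Comp W x0 u := by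
  unfold Comp
  have e1 : x0 + (u + W * k) = (x0 + u) + W * k := by ring
  have e2 : x0 - (u + W * k) = (x0 - u) + W * (-k) := by ring
  rw [e1, e2, IsCoprime.add_mul_left_left_iff, IsCoprime.add_mul_left_left_iff]

open Classical in
/-- The number of compatible classes. -/
theorem card_comp {w W : ℕ} (hW : IsW w W) (hWp : W = ∏ p ∈ primesUpTo w, p) (x0 : ℤ) :
    (((Finset.range W).filter fun y : ℕ => Comp W x0 y).card : ℝ) =
      ∏ p ∈ primesUpTo w, ((p : ℝ) - if (p : ℤ) ∣ 2 * x0 then 1 else 2) := by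
  set f : ℤ → ℝ := fun u => ∏ p ∈ primesUpTo w, chi (Om x0) p u with hf
  have hper : ∀ u k : ℤ, f (u + W * k) = f u := by
    intro u k
    simp only [hf]
    rw [prod_chi hW, prod_chi hW]
    simp only [comp_add_mul]
  set Cc : ℝ := ∑ u ∈ Finset.Ico (0 : ℤ) W, f u with hC
  have hk : ∀ k : ℕ, ∑ u ∈ Finset.Ico (0 : ℤ) (0 + (k * W : ℕ)), f u = k * Cc := by
    intro k
    induction k with
    | zero => simp
    | succ k ih =>
      have h1 : (0 : ℤ) ≤ 0 + (k * W : ℕ) := by positivity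
      have h2 : (0 : ℤ) + (k * W : ℕ) ≤ 0 + ((k + 1) * W : ℕ) := by
        push_cast; nlinarith [Int.natCast_nonneg W]
      rw [← Finset.Ico_union_Ico_eq_Ico h1 h2,
        Finset.sum_union (Finset.Ico_disjoint_Ico_consecutive _ _ _), ih]
      have h3 : ∑ u ∈ Finset.Ico ((0 : ℤ) + (k * W : ℕ)) (0 + ((k + 1) * W : ℕ)), f u = Cc := by
        have e : Finset.Ico ((0 : ℤ) + (k * W : ℕ)) (0 + ((k + 1) * W : ℕ)) =
            (Finset.Ico (0 : ℤ) W).map (addRightEmbedding ((k * W : ℕ) : ℤ)) := by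
          rw [Finset.map_add_right_Ico]
          congr 1
          push_cast; ring
        rw [e, Finset.sum_map, hC]
        refine Finset.sum_congr rfl fun u _ => ?_
        have := hper u k
        simp only [addRightEmbedding_apply]
        rw [← this]
        congr 1
        push_cast; ring
      rw [h3]
      push_cast; ring
  have hb : ∀ k : ℕ, (k : ℝ) * |Cc - W * ∏ p ∈ primesUpTo w, (((Om x0 p).card : ℝ) / p)| ≤
      ∏ p ∈ primesUpTo w, ((Om x0 p).card : ℝ) := by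
    intro k
    have h := count_classes' (Om x0) 0 (k * W) (primesUpTo w) (fun p hp => (mem_primesUpTo.1 hp).1)
    have h4 : ∑ u ∈ Finset.Ico (0 : ℤ) (0 + (k * W : ℕ)), ∏ p ∈ primesUpTo w, chi (Om x0) p u
        = k * Cc := hk k
    rw [h4] at h
    have e : (k : ℝ) * Cc - ((k * W : ℕ) : ℝ) * ∏ p ∈ primesUpTo w, (((Om x0 p).card : ℝ) / p) =
        k * (Cc - W * ∏ p ∈ primesUpTo w, (((Om x0 p).card : ℝ) / p)) := by
      push_cast; ring
    rw [e, abs_mul, abs_of_nonneg (Nat.cast_nonneg k)] at h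
    exact h
  have h0 : Cc - W * ∏ p ∈ primesUpTo w, (((Om x0 p).card : ℝ) / p) = 0 := by
    by_contra hne
    have hpos := abs_pos.2 hne
    obtain ⟨k, hk⟩ := exists_nat_gt ((∏ p ∈ primesUpTo w, ((Om x0 p).card : ℝ)) /
      |Cc - W * ∏ p ∈ primesUpTo w, (((Om x0 p).card : ℝ) / p)|)
    rw [div_lt_iff₀ hpos] at hk
    exact absurd (hb k) (not_le.2 hk)
  have h5 : (W : ℝ) * ∏ p ∈ primesUpTo w, (((Om x0 p).card : ℝ) / p) =
      ∏ p ∈ primesUpTo w, ((p : ℝ) - if (p : ℤ) ∣ 2 * x0 then 1 else 2) := by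
    conv_lhs => rw [hWp]
    push_cast
    rw [← Finset.prod_mul_distrib]
    refine Finset.prod_congr rfl fun p hp => ?_
    have hp1 := (mem_primesUpTo.1 hp).1
    have hp0 : (p : ℝ) ≠ 0 := by exact_mod_cast hp1.ne_zero
    rw [← card_Om hp1]
    field_simp
  rw [← h5]
  have h6 : (((Finset.range W).filter fun y : ℕ => Comp W x0 y).card : ℝ) = Cc := by
    rw [Finset.card_filter]
    push_cast
    rw [hC]
    have e : Finset.Ico (0 : ℤ) W = (Finset.range W).map Nat.castEmbedding := by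
      ext u
      simp only [Finset.mem_Ico, Finset.mem_map, Finset.mem_range, Nat.castEmbedding_apply]
      constructor
      · rintro ⟨h1, h2⟩
        exact ⟨u.toNat, by omega, by omega⟩
      · rintro ⟨a, ha, rfl⟩
        omega
    rw [e, Finset.sum_map]
    refine Finset.sum_congr rfl fun u _ => ?_
    simp only [hf, Nat.castEmbedding_apply]
    rw [prod_chi hW]
  rw [h6]
  linarith

end Pool.Agent.Lib.H18GB
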