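import Pool.Agent.Lib.H18GB.GR3
import Pool.Agent.Lib.H18GB.GR5
import Pool.Agent.Lib.H18GB.GRCount

/-!
# Project GB: GR6
-/

namespace Pool.Agent.Lib.H18GB

open Finset Pool.Agent.Lib.Sieve Pool.Agent.Lib.GoldbachGraph

/-- the halved Goldbach graph on `[1, n]` -/
def HG (n : ℕ) : SimpleGraph ℕ where
  Adj x y := hadj x y ∧ x ∈ Finset.Icc 1 n ∧ y ∈ Finset.Icc 1 n
  symm := ⟨fun _ _ h => ⟨(hadj_comm _ _).mp h.1, h.2.2, h.2.1⟩⟩
  loopless := ⟨fun x h => by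
    have := h.1.2.2.1
    rw [Nat.dist_self] at this
    exact Nat.not_prime_zero this⟩

theorem gr6_step {V : Type*} (G : SimpleGraph V) {a b c : V} {k : ℕ}
    (h : G.edist a b ≤ (k : ℕ∞)) (hbc : G.Adj b c) : G.edist a c ≤ ((k + 1 : ℕ) : ℕ∞) := by
  refine (SimpleGraph.edist_triangle (v := b)).trans ?_
  have h1 : G.edist b c ≤ 1 := by
    have := SimpleGraph.Walk.edist_le hbc.toWalk
    simpa using this
  push_cast
  exact add_le_add h h1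

theorem gr6_join {V : Type*} (G : SimpleGraph V) {a b c : V} {k l : ℕ}
    (h : G.edist a b ≤ (k : ℕ∞)) (h' : G.edist c b ≤ (l : ℕ∞)) :
    G.edist a c ≤ ((k + l : ℕ) : ℕ∞) := by
  refine (SimpleGraph.edist_triangle (v := b)).trans ?_
  rw [SimpleGraph.edist_comm (u := b)]
  push_cast
  exact add_le_add h h'

open Classical in
/-- the elements `z ∈ [1, N)` with `z0 + W z` at distance at most `k` from `X` -/
noncomputable def gr6S (n W N X z0 k : ℕ) : Finset ℕ :=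
  (Finset.Ico 1 N).filter fun z => (HG n).edist X (z0 + W * z) ≤ (k : ℕ∞)

theorem gr6S_sub (n W N X z0 k : ℕ) : gr6S n W N X z0 k ⊆ Finset.Ico 1 N :=
  Finset.filter_subset _ _

/-- a good vertex -/
def gr6Good (w W N : ℕ) (ε1 : ℝ) (X y0 : ℕ) : Prop :=
  y0 < W ∧ Comp W X y0 ∧ ε1 * N ≤ Dw w W N X y0

/-- the input of the assembly -/
structure Gr6Ctx (n w W N : ℕ) (ε1 : ℝ) : Prop where
  hw : 5 ≤ w
  hW : IsW w W
  hWN : W * N ≤ n
  hn : n ≤ 2 * W * N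
  hN : 40 ≤ N
  hε1 : ε1 ≤ 1 / 10
  p3 : ∀ X y0 z0 : ℕ, 1 ≤ X → X ≤ 2 * W * N → y0 < W → z0 < W → Comp W X y0 →
    Comp W z0 y0 → ε1 * N ≤ Dw w W N X y0 → ∀ B : Finset ℕ, B ⊆ Finset.Ico 1 N → ε1 * N ≤ B.card →
    ∃ y ∈ Finset.Ico 1 N, ∃ z ∈ B, hadj X (y0 + W * y) ∧ hadj (y0 + W * y) (z0 + W * z)
  p4 : ∀ x0 y0 : ℕ, x0 < W → y0 < W → Comp W x0 y0 →
    ∀ A B : Finset ℕ, A ⊆ Finset.Ico 1 N → B ⊆ Finset.Ico 1 N → 1 / 10 * (N : ℝ) ≤ A.card →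
    1 / 10 * (N : ℝ) ≤ B.card → ∃ x ∈ A, ∃ y ∈ B, hadj (x0 + W * x) (y0 + W * y)
  p5 : ∀ v z0 z0' : ℕ, v + 3 < W → z0 < W → z0' < W →
    IsCoprime (2 * (v : ℤ) + 3) W → Comp W v z0 → Comp W (v + 3) z0' →
    ∀ B B' : Finset ℕ, B ⊆ Finset.Ico 1 N → B' ⊆ Finset.Ico 1 N → (N : ℝ) / 2 ≤ B.card →
    (N : ℝ) / 2 ≤ B'.card → ∃ x ∈ Finset.Ico 1 N, ∃ y ∈ B, ∃ y' ∈ B',
      hadj (v + W * x) (v + 3 + W * x) ∧ hadj (v + W * x) (z0 + W * y) ∧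
      hadj (v + 3 + W * x) (z0' + W * y')

theorem Gr6Ctx.mem {n w W N : ℕ} {ε1 : ℝ} (h : Gr6Ctx n w W N ε1) {y0 y : ℕ} (hy0 : y0 < W)
    (hy : y ∈ Finset.Ico 1 N) : y0 + W * y ∈ Finset.Icc 1 n := by
  rw [Finset.mem_Ico] at hy
  rw [Finset.mem_Icc]
  have hW0 := h.hW.1
  have h1 : W * y + W ≤ W * N := by
    calc W * y + W = W * (y + 1) := by ring
      _ ≤ W * N := Nat.mul_le_mul_left _ hy.2
  have h2 : W * 1 ≤ W * y := Nat.mul_le_mul_left _ hy.1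
  have := h.hWN
  omega

theorem gr6_compl {n W N X z0 k : ℕ} {c : ℝ}
    (h : ∀ B : Finset ℕ, B ⊆ Finset.Ico 1 N → c * N ≤ B.card →
      ∃ z ∈ B, (HG n).edist X (z0 + W * z) ≤ (k : ℕ∞)) :
    (1 - c) * N - 1 ≤ (gr6S n W N X z0 k).card := by
  classical
  by_contra hcon
  push Not at hcon
  have h1 : (gr6S n W N X z0 k).card + ((Finset.Ico 1 N).filter
      fun z => ¬ (HG n).edist X (z0 + W * z) ≤ (k : ℕ∞)).card = (Finset.Ico 1 N).card := by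
    unfold gr6S
    exact Finset.card_filter_add_card_filter_not _
  rw [Nat.card_Ico] at h1
  have h2 : (N : ℝ) - 1 ≤ ((N - 1 : ℕ) : ℝ) := by
    rcases Nat.eq_zero_or_pos N with h0 | h0
    · rw [h0]; simp
    · rw [Nat.cast_sub h0]; simp
  have h3 : ((gr6S n W N X z0 k).card : ℝ) + (((Finset.Ico 1 N).filter
      fun z => ¬ (HG n).edist X (z0 + W * z) ≤ (k : ℕ∞)).card : ℝ) = ((N - 1 : ℕ) : ℝ) := by
    exact_mod_cast h1
  obtain ⟨z, hz, hz2⟩ := h _ (Finset.filter_subset _ _) (by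
    have : c * N ≤ (((Finset.Ico 1 N).filter
      fun z => ¬ (HG n).edist X (z0 + W * z) ≤ (k : ℕ∞)).card : ℝ) := by linarith
    exact this)
  exact (Finset.mem_filter.mp hz).2 hz2

theorem Gr6Ctx.two {n w W N : ℕ} {ε1 : ℝ} (h : Gr6Ctx n w W N ε1) {X y0 z0 : ℕ}
    (hX : X ∈ Finset.Icc 1 n) (hg : gr6Good w W N ε1 X y0) (hz0 : z0 < W) (hc : Comp W z0 y0) :
    9 / 10 * (N : ℝ) - 1 ≤ (gr6S n W N X z0 2).card := by
  have h1 : (1 - ε1) * N - 1 ≤ ((gr6S n W N X z0 2).card : ℝ) := by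
    refine gr6_compl fun B hB hB2 => ?_
    have hX' := Finset.mem_Icc.mp hX
    obtain ⟨y, hy, z, hz, ha, hb⟩ := h.p3 X y0 z0 hX'.1 (hX'.2.trans h.hn) hg.1 hz0 hg.2.1 hc
      hg.2.2 B hB hB2
    refine ⟨z, hz, ?_⟩
    have s0 : (HG n).edist X X ≤ ((0 : ℕ) : ℕ∞) := by simp
    have s1 := gr6_step (HG n) s0 (c := y0 + W * y) ⟨ha, hX, h.mem hg.1 hy⟩
    exact gr6_step (HG n) s1 (c := z0 + W * z) ⟨hb, h.mem hg.1 hy, h.mem hz0 (hB hz)⟩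
  have h2 : (9 / 10 : ℝ) * N ≤ (1 - ε1) * N := by
    have := h.hε1
    have hN : (0 : ℝ) ≤ N := Nat.cast_nonneg _
    nlinarith
  linarith

theorem Gr6Ctx.succ {n w W N : ℕ} {ε1 : ℝ} (h : Gr6Ctx n w W N ε1) {X z1 z0 k : ℕ}
    (hz1 : z1 < W) (hz0 : z0 < W) (hc : Comp W z1 z0)
    (hS : 1 / 10 * (N : ℝ) ≤ (gr6S n W N X z1 k).card) :
    9 / 10 * (N : ℝ) - 1 ≤ (gr6S n W N X z0 (k + 1)).card := by
  have h1 : (1 - 1 / 10) * (N : ℝ) - 1 ≤ ((gr6S n W N X z0 (k + 1)).card : ℝ) := by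
    refine gr6_compl fun B hB hB2 => ?_
    obtain ⟨x, hx, y, hy, hxy⟩ := h.p4 z1 z0 hz1 hz0 hc _ B (gr6S_sub _ _ _ _ _ _) hB hS hB2
    refine ⟨y, hy, ?_⟩
    classical
    unfold gr6S at hx
    rw [Finset.mem_filter] at hx
    exact gr6_step (HG n) hx.2 ⟨hxy, h.mem hz1 hx.1, h.mem hz0 (hB hy)⟩
  linarith

theorem Gr6Ctx.meet {n w W N : ℕ} {ε1 : ℝ} (h : Gr6Ctx n w W N ε1) {X X' z0 k l : ℕ}
    (hS : 9 / 10 * (N : ℝ) - 1 ≤ (gr6S n W N X z0 k).card)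
    (hS' : 9 / 10 * (N : ℝ) - 1 ≤ (gr6S n W N X' z0 l).card) :
    (HG n).edist X X' ≤ ((k + l : ℕ) : ℕ∞) := by
  classical
  have hN : (40 : ℝ) ≤ N := by exact_mod_cast h.hN
  have h1 : (gr6S n W N X z0 k ∩ gr6S n W N X' z0 l).Nonempty := by
    rw [← Finset.card_pos]
    have h2 := Finset.card_union_add_card_inter (gr6S n W N X z0 k) (gr6S n W N X' z0 l)
    have h3 : (gr6S n W N X z0 k ∪ gr6S n W N X' z0 l).card ≤ N := by
      refine (Finset.card_le_card (Finset.union_subset (gr6S_sub _ _ _ _ _ _)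
        (gr6S_sub _ _ _ _ _ _))).trans ?_
      rw [Nat.card_Ico]
      omega
    have h4 : (((gr6S n W N X z0 k ∪ gr6S n W N X' z0 l).card : ℕ) : ℝ) +
        ((gr6S n W N X z0 k ∩ gr6S n W N X' z0 l).card : ℕ) =
        ((gr6S n W N X z0 k).card : ℕ) + ((gr6S n W N X' z0 l).card : ℕ) := by exact_mod_cast h2
    have h5 : (((gr6S n W N X z0 k ∪ gr6S n W N X' z0 l).card : ℕ) : ℝ) ≤ N := by
      exact_mod_cast h3
    have h6 : (0 : ℝ) < ((gr6S n W N X z0 k ∩ gr6S n W N X' z0 l).card : ℕ) := by linarith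
    exact_mod_cast h6
  obtain ⟨z, hz⟩ := h1
  rw [Finset.mem_inter] at hz
  unfold gr6S at hz
  rw [Finset.mem_filter, Finset.mem_filter] at hz
  exact gr6_join (HG n) hz.1.2 hz.2.2

/-- same type: distance at most 4 -/
theorem Gr6Ctx.four {n w W N : ℕ} {ε1 : ℝ} (h : Gr6Ctx n w W N ε1) {X X' y0 y0' : ℕ}
    (hX : X ∈ Finset.Icc 1 n) (hX' : X' ∈ Finset.Icc 1 n) (hg : gr6Good w W N ε1 X y0)
    (hg' : gr6Good w W N ε1 X' y0') (h2 : (X : ℤ) % 2 = (X' : ℤ) % 2)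
    (h3 : (3 : ℤ) ∣ X ↔ (3 : ℤ) ∣ X') : (HG n).edist X X' ≤ ((4 : ℕ) : ℕ∞) := by
  have hw3 : 3 ≤ w := by have := h.hw; omega
  have c1 := comp_parity hw3 h.hW hg.2.1
  have c2 := comp_parity hw3 h.hW hg'.2.1
  obtain ⟨z0, hz0, e1, e2⟩ := comp_common hw3 h.hW (y0 : ℤ) (y0' : ℤ) (by omega) (by tauto)
  exact h.meet (h.two hX hg hz0 (comp_comm e1)) (h.two hX' hg' hz0 (comp_comm e2))

/-- opposite types: distance at most 5 -/
theorem Gr6Ctx.five {n w W N : ℕ} {ε1 : ℝ} (h : Gr6Ctx n w W N ε1) {X X' y0 y0' : ℕ}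
    (hX : X ∈ Finset.Icc 1 n) (hX' : X' ∈ Finset.Icc 1 n) (hg : gr6Good w W N ε1 X y0)
    (hg' : gr6Good w W N ε1 X' y0') (h2 : (X : ℤ) % 2 ≠ (X' : ℤ) % 2)
    (h3 : (3 : ℤ) ∣ X ↔ ¬ (3 : ℤ) ∣ X') : (HG n).edist X X' ≤ ((5 : ℕ) : ℕ∞) := by
  have hw3 : 3 ≤ w := by have := h.hw; omega
  have hN : (40 : ℝ) ≤ N := by exact_mod_cast h.hN
  have c1 := comp_parity hw3 h.hW hg.2.1
  have c2 := comp_parity hw3 h.hW hg'.2.1
  obtain ⟨z1, hz1, e1, -⟩ := comp_common hw3 h.hW (y0' : ℤ) (y0' : ℤ) rfl Iff.rfl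
  have c3 := comp_parity hw3 h.hW e1
  obtain ⟨z0, hz0, e2, e3⟩ := comp_common hw3 h.hW (y0 : ℤ) (z1 : ℤ) (by omega) (by omega)
  have s1 := h.two hX hg hz0 (comp_comm e2)
  have s2 := h.two hX' hg' hz1 (comp_comm e1)
  have s3 := h.succ (X := X') (k := 2) hz1 hz0 e3 (by linarith)
  exact h.meet s1 s3

/-- three steps to a class compatible with `v` -/
theorem Gr6Ctx.reach {n w W N : ℕ} {ε1 : ℝ} (h : Gr6Ctx n w W N ε1) {X y0 : ℕ}
    (hX : X ∈ Finset.Icc 1 n) (hg : gr6Good w W N ε1 X y0) (v : ℤ) (hv3 : ¬ (3 : ℤ) ∣ v)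
    (hcl : v % 2 = (X : ℤ) % 2 ↔ ¬ (3 : ℤ) ∣ X) :
    ∃ z0 : ℕ, z0 < W ∧ Comp W v z0 ∧ (N : ℝ) / 2 ≤ (gr6S n W N X z0 3).card := by
  have hw3 : 3 ≤ w := by have := h.hw; omega
  have hN : (40 : ℝ) ≤ N := by exact_mod_cast h.hN
  have c1 := comp_parity hw3 h.hW hg.2.1
  by_cases h3 : (3 : ℤ) ∣ X
  · have c4 : v % 2 ≠ (X : ℤ) % 2 := fun h5 => (hcl.mp h5) h3
    obtain ⟨z0, hz0, e1, e2⟩ := comp_common hw3 h.hW (y0 : ℤ) v (by omega) (by tauto)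
    refine ⟨z0, hz0, e2, ?_⟩
    have s1 := h.two hX hg hz0 (comp_comm e1)
    have s2 : (gr6S n W N X z0 2).card ≤ (gr6S n W N X z0 3).card := by
      apply Finset.card_le_card
      classical
      intro z hz
      unfold gr6S at hz ⊢
      rw [Finset.mem_filter] at hz ⊢
      exact ⟨hz.1, hz.2.trans (by norm_num)⟩
    have s3 : ((gr6S n W N X z0 2).card : ℝ) ≤ (gr6S n W N X z0 3).card := by exact_mod_cast s2
    linarith
  · have c4 : v % 2 = (X : ℤ) % 2 := hcl.mpr h3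
    obtain ⟨z1, hz1, e1, -⟩ := comp_common hw3 h.hW (y0 : ℤ) (y0 : ℤ) rfl Iff.rfl
    have c3 := comp_parity hw3 h.hW e1
    obtain ⟨z0, hz0, e2, e3⟩ := comp_common hw3 h.hW (z1 : ℤ) v (by omega) (by tauto)
    refine ⟨z0, hz0, e3, ?_⟩
    have s1 := h.two hX hg hz1 (comp_comm e1)
    have s2 := h.succ (X := X) (k := 2) hz1 hz0 e2 (by linarith)
    linarith

/-- different classes: distance at most 9 -/
theorem Gr6Ctx.nine {n w W N : ℕ} {ε1 : ℝ} (h : Gr6Ctx n w W N ε1) {X X' y0 y0' : ℕ}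
    (hX : X ∈ Finset.Icc 1 n) (hX' : X' ∈ Finset.Icc 1 n) (hg : gr6Good w W N ε1 X y0)
    (hg' : gr6Good w W N ε1 X' y0')
    (h23 : (X : ℤ) % 2 = (X' : ℤ) % 2 ↔ ¬ ((3 : ℤ) ∣ X ↔ (3 : ℤ) ∣ X')) :
    (HG n).edist X X' ≤ ((9 : ℕ) : ℕ∞) := by
  obtain ⟨i, hi, hiX⟩ : ∃ i : ℤ, (i = 0 ∨ i = 1) ∧ (i = (X : ℤ) % 2 ↔ ¬ (3 : ℤ) ∣ X) := by
    by_cases h3 : (3 : ℤ) ∣ X
    · exact ⟨1 - (X : ℤ) % 2, by omega, by omega⟩
    · exact ⟨(X : ℤ) % 2, by omega, by tauto⟩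
  obtain ⟨v, hv, hv2, hv3, hvc⟩ := exists_link h.hw h.hW i hi
  obtain ⟨z0, hz0, e1, s1⟩ := h.reach hX hg (v : ℤ) hv3 (by rw [hv2]; exact hiX)
  obtain ⟨z0', hz0', e2, s2⟩ := h.reach hX' hg' ((v : ℤ) + 3) (by omega) (by
    rw [← hv2] at hiX
    omega)
  obtain ⟨x, hx, y, hy, y', hy', a1, a2, a3⟩ := h.p5 v z0 z0' hv hz0 hz0' hvc e1 e2 _ _
    (gr6S_sub _ _ _ _ _ _) (gr6S_sub _ _ _ _ _ _) s1 s2
  have hyI := gr6S_sub _ _ _ _ _ _ hy
  have hyI' := gr6S_sub _ _ _ _ _ _ hy'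
  classical
  unfold gr6S at hy hy'
  rw [Finset.mem_filter] at hy hy'
  have m1 := h.mem (y0 := v) (by omega) hx
  have m2 := h.mem (y0 := v + 3) hv hx
  have t1 := gr6_step (HG n) hy.2 (c := v + W * x)
    ⟨(hadj_comm _ _).mp a2, h.mem hz0 hyI, m1⟩
  have t2 := gr6_step (HG n) t1 (c := v + 3 + W * x) ⟨a1, m1, m2⟩
  have t3 := gr6_step (HG n) hy'.2 (c := v + 3 + W * x)
    ⟨(hadj_comm _ _).mp a3, h.mem hz0' hyI', m2⟩
  exact gr6_join (HG n) t2 t3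

/-- the context exists, and large degree implies good -/
theorem gr6_ctx (ε : ℝ) (hε : 0 < ε) (w0 : ℕ) : ∃ ε1 : ℝ, 0 < ε1 ∧ ∃ w : ℕ, w0 ≤ w ∧ 5 ≤ w ∧
    ∃ n0 : ℕ, ∀ n : ℕ, n0 ≤ n →
    Gr6Ctx n w (primorial w) (n / primorial w) ε1 ∧
    ∀ X ∈ Finset.Icc 1 n, ε * SH X * n / Real.log n ^ 2 ≤ hdeg n X →
      ∃ y0 : ℕ, gr6Good w (primorial w) (n / primorial w) ε1 X y0 := by
  obtain ⟨ε1, hε1, hε1a, hε1b⟩ : ∃ ε1 : ℝ, 0 < ε1 ∧ ε1 ≤ ε / 20 ∧ ε1 ≤ 1 / 10 :=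
    ⟨min (ε / 20) (1 / 10), lt_min (by positivity) (by norm_num), min_le_left _ _, min_le_right _ _⟩
  obtain ⟨w1, h3⟩ := gr3 ε1 hε1
  obtain ⟨w2, h4⟩ := gr4 (1 / 10) (by norm_num)
  obtain ⟨w3, h5⟩ := gr5
  refine ⟨ε1, hε1, max (max w1 w2) (max w3 (max w0 5)), ?_, ?_, ?_⟩
  · exact (le_max_left _ _).trans ((le_max_right _ _).trans (le_max_right _ _))
  · exact (le_max_right _ _).trans ((le_max_right _ _).trans (le_max_right _ _))
  obtain ⟨w, hwd⟩ : ∃ w : ℕ, w = max (max w1 w2) (max w3 (max w0 5)) := ⟨_, rfl⟩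
  rw [← hwd]
  have hw5 : 5 ≤ w := by
    rw [hwd]
    exact (le_max_right _ _).trans ((le_max_right _ _).trans (le_max_right _ _))
  have hww1 : w1 ≤ w := by rw [hwd]; exact (le_max_left _ _).trans (le_max_left _ _)
  have hww2 : w2 ≤ w := by rw [hwd]; exact (le_max_right _ _).trans (le_max_left _ _)
  have hww3 : w3 ≤ w := by rw [hwd]; exact (le_max_left _ _).trans (le_max_right _ _)
  have hW : IsW w (primorial w) := isW_primorial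
  have hW0 := hW.1
  obtain ⟨N3, h3⟩ := h3 w (primorial w) hww1 hW
  obtain ⟨N4, h4⟩ := h4 w (primorial w) hww2 hW
  obtain ⟨N5, h5⟩ := h5 w (primorial w) hww3 hW
  obtain ⟨n2, h2⟩ := gr2 ε hε w (by omega)
  refine ⟨max n2 (primorial w * max (max N3 N4) (max N5 40)), fun n hn => ?_⟩
  have hn2 : n2 ≤ n := (le_max_left _ _).trans hn
  have hnN : max (max N3 N4) (max N5 40) ≤ n / primorial w := by
    rw [Nat.le_div_iff_mul_le hW0, mul_comm]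
    exact (le_max_right _ _).trans hn
  have hN3 : N3 ≤ n / primorial w := (le_max_left _ _).trans ((le_max_left _ _).trans hnN)
  have hN4 : N4 ≤ n / primorial w := (le_max_right _ _).trans ((le_max_left _ _).trans hnN)
  have hN5 : N5 ≤ n / primorial w := (le_max_left _ _).trans ((le_max_right _ _).trans hnN)
  have hN40 : 40 ≤ n / primorial w := (le_max_right _ _).trans ((le_max_right _ _).trans hnN)
  have hWn : primorial w * (n / primorial w) ≤ n := Nat.mul_div_le _ _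
  refine ⟨⟨hw5, hW, hWn, ?_, hN40, hε1b, h3 _ hN3, h4 _ hN4, h5 _ hN5⟩, ?_⟩
  · have h6 : n < primorial w * (n / primorial w) + primorial w := by
      have := Nat.lt_mul_div_succ n hW0
      linarith
    have h7 : primorial w * 1 ≤ primorial w * (n / primorial w) :=
      Nat.mul_le_mul_left _ (by omega)
    have h8 : 2 * primorial w * (n / primorial w) =
      primorial w * (n / primorial w) + primorial w * (n / primorial w) := by ring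
    omega
  · intro X hX hd
    obtain ⟨y0, a1, a2, a3⟩ := h2 n hn2 X hX hd
    refine ⟨y0, a1, a2, le_trans ?_ a3⟩
    exact mul_le_mul_of_nonneg_right hε1a (Nat.cast_nonneg _)

/-- Same class (I or II): distance at most 5. -/
theorem gr6_five (ε : ℝ) (hε : 0 < ε) : ∃ n0 : ℕ, ∀ n : ℕ, n0 ≤ n →
    ∀ X ∈ Finset.Icc 1 n, ∀ X' ∈ Finset.Icc 1 n, ε * SH X * n / Real.log n ^ 2 ≤ hdeg n X →
    ε * SH X' * n / Real.log n ^ 2 ≤ hdeg n X' →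
    ((X : ℤ) % 2 = (X' : ℤ) % 2 ↔ ((3 : ℤ) ∣ X ↔ (3 : ℤ) ∣ X')) → (HG n).edist X X' ≤ 5 := by
  obtain ⟨ε1, hε1, w, -, -, n0, h⟩ := gr6_ctx ε hε 0
  refine ⟨n0, fun n hn X hX X' hX' hd hd' h23 => ?_⟩
  obtain ⟨hctx, hgood⟩ := h n hn
  obtain ⟨y0, hg⟩ := hgood X hX hd
  obtain ⟨y0', hg'⟩ := hgood X' hX' hd'
  by_cases h2 : (X : ℤ) % 2 = (X' : ℤ) % 2
  · refine (hctx.four hX hX' hg hg' h2 (h23.mp h2)).trans ?_
    norm_num
  · exact hctx.five hX hX' hg hg' h2 (by tauto)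

/-- Chunk GR6 (assembly). Let `W = primorial w`, `N = n / W`. Call `X` good if `ε' N ≤ Dw X y0` for some
`y0` with `Comp W X y0`. For good `X` and `z0` with `Comp W z0 y0` the set `N2(X, z0)` of the `z < N`
with `z0 + W z` at distance `≤ 2` has at least `(1 - ε'') N` elements (`gr3`).
Same parity and same divisibility by `3`: `comp_common` gives `z0` good for both, distance `≤ 4`.
Opposite parity and opposite divisibility by `3`: `z1` with `Comp W y0' z1`, `z0` with `Comp W y0 z0`,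
`Comp W z1 z0` (`comp_common`: `y0`, `z1` have the same type), and `gr4`: distance `≤ 5`.
Otherwise `X, X'` are in different classes I, II; let `v` be given by `exists_link` with the parity
such that `v` has the class (I or II) of `X` (class I: `6 ∣ x` or (`x` odd and `3 ∤ x`)); `gr5` with
`B` = a set of `≥ (1 - ε'') N` elements of the class `z0` at distance `≤ 2` from `X` if `3 ∣ X` (choose
`z0` compatible with `y0` and `v`), at distance `≤ 3` if `3 ∤ X` (`z0` compatible with `y0`, `z1`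
compatible with `z0` and `v`, `gr4`), and similarly for `X'` and `v + 3`. Distance `≤ 4 + 1 + 4`. -/
theorem gr6 (ε : ℝ) (hε : 0 < ε) : ∃ n0 : ℕ, ∀ n : ℕ, n0 ≤ n →
    ∀ X ∈ Finset.Icc 1 n, ∀ X' ∈ Finset.Icc 1 n, ε * SH X * n / Real.log n ^ 2 ≤ hdeg n X →
    ε * SH X' * n / Real.log n ^ 2 ≤ hdeg n X' → (HG n).edist X X' ≤ 9 := by
  obtain ⟨ε1, hε1, w, -, -, n0, h⟩ := gr6_ctx ε hε 0
  refine ⟨n0, fun n hn X hX X' hX' hd hd' => ?_⟩
  obtain ⟨hctx, hgood⟩ := h n hn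
  obtain ⟨y0, hg⟩ := hgood X hX hd
  obtain ⟨y0', hg'⟩ := hgood X' hX' hd'
  by_cases h2 : (X : ℤ) % 2 = (X' : ℤ) % 2
  · by_cases h3 : ((3 : ℤ) ∣ X ↔ (3 : ℤ) ∣ X')
    · refine (hctx.four hX hX' hg hg' h2 h3).trans ?_
      norm_num
    · exact hctx.nine hX hX' hg hg' (by tauto)
  · by_cases h3 : ((3 : ℤ) ∣ X ↔ (3 : ℤ) ∣ X')
    · exact hctx.nine hX hX' hg hg' (by tauto)
    · refine (hctx.five hX hX' hg hg' h2 (by tauto)).trans ?_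
      norm_num

end Pool.Agent.Lib.H18GB
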