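import Pool.Agent.Lib.H18GB.GR1

/-!
# Project GB: TY3a (link classes compatible with a given class)
-/

namespace Pool.Agent.Lib.H18GB

open Finset Pool.Agent.Lib.Sieve

/-- Chunk TY3 (residues): link classes compatible with a given class at one end. -/
theorem exists_link_comp {w W : ℕ} (hw : 7 ≤ w) (hW : IsW w W) (x0 : ℤ) (d : ℤ)
    (hd : d = 0 ∨ d = 3) (h3 : (3 : ℤ) ∣ x0) :
    ∃ v : ℕ, v + 3 < W ∧ ¬ (3 : ℤ) ∣ (v : ℤ) ∧ IsCoprime (2 * (v : ℤ) + 3) W ∧
      Comp W x0 (v + d) := by
  have t1 : (2 * 1 + 3 : ZMod 3) ≠ 0 := by decide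
  have t2 : (1 : ZMod 3) ≠ 0 := by decide
  have key : ∀ p : ℕ, ∃ r : ZMod p, p.Prime → (2 * r + 3 ≠ 0 ∧ (x0 : ZMod p) + (r + d) ≠ 0 ∧
      (x0 : ZMod p) - (r + d) ≠ 0 ∧ (p = 3 → r ≠ 0) ∧ (p = 7 → r + 1 ≠ 0 ∧ r + 2 ≠ 0 ∧ r + 3 ≠ 0)) := by
    intro p
    by_cases hp : p.Prime
    swap
    · exact ⟨0, fun h => absurd h hp⟩
    have : Fact p.Prime := ⟨hp⟩
    have hcast : ∀ a : ℤ, (a : ZMod p) = 0 ↔ (p : ℤ) ∣ a := fun a =>
      ZMod.intCast_zmod_eq_zero_iff_dvd a p
    by_cases hp2 : p = 2
    · subst hp2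
      refine ⟨((x0 + 1 - d : ℤ) : ZMod 2), fun _ => ⟨?_, ?_, ?_, by omega, by omega⟩⟩
      · have : (2 * ((x0 + 1 - d : ℤ) : ZMod 2) + 3) = ((2 * (x0 + 1 - d) + 3 : ℤ) : ZMod 2) := by
          push_cast; ring
        rw [this, Ne, hcast]; push_cast; omega
      · have : ((x0 : ZMod 2) + (((x0 + 1 - d : ℤ) : ZMod 2) + d)) = ((x0 + (x0 + 1 - d + d) : ℤ) : ZMod 2) := by
          push_cast; ring
        rw [this, Ne, hcast]; push_cast; omega
      · have : ((x0 : ZMod 2) - (((x0 + 1 - d : ℤ) : ZMod 2) + d)) = ((x0 - (x0 + 1 - d + d) : ℤ) : ZMod 2) := by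
          push_cast; ring
        rw [this, Ne, hcast]; push_cast; omega
    by_cases hp3 : p = 3
    · subst hp3
      refine ⟨((1 : ℤ) : ZMod 3), fun _ => ⟨?_, ?_, ?_, fun _ => ?_, by omega⟩⟩
      · rw [Int.cast_one]
        exact t1
      · have : ((x0 : ZMod 3) + (((1 : ℤ) : ZMod 3) + d)) = ((x0 + (1 + d) : ℤ) : ZMod 3) := by
          push_cast; ring
        rw [this, Ne, hcast]; push_cast; omega
      · have : ((x0 : ZMod 3) - (((1 : ℤ) : ZMod 3) + d)) = ((x0 - (1 + d) : ℤ) : ZMod 3) := by
          push_cast; ring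
        rw [this, Ne, hcast]; push_cast; omega
      · rw [Int.cast_one]
        exact t2
    · have h2u : (2 : ZMod p) ≠ 0 := by
        have := hcast 2
        push_cast at this
        rw [Ne, this]
        intro h
        have h7 : p ∣ 2 := by exact_mod_cast h
        exact hp2 ((Nat.prime_dvd_prime_iff_eq hp Nat.prime_two).mp h7)
      by_cases hp7 : p = 7
      · classical
        set s : Finset (ZMod p) := {-(3 / 2 : ZMod p), -(x0 : ZMod p) - d, (x0 : ZMod p) - d, -1, -2, -3}
        have hs : s.card < Fintype.card (ZMod p) := by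
          rw [ZMod.card]
          exact lt_of_le_of_lt Finset.card_le_six (by omega)
        obtain ⟨r, hr⟩ : ∃ r, r ∉ s := by
          by_contra hall
          push Not at hall
          have : s = Finset.univ := Finset.eq_univ_iff_forall.mpr hall
          rw [this, Finset.card_univ] at hs
          exact lt_irrefl _ hs
        refine ⟨r, fun _ => ?_⟩
        simp only [s, Finset.mem_insert, Finset.mem_singleton, not_or] at hr
        obtain ⟨ha, hb, hc, h1, h2, h3⟩ := hr
        refine ⟨?_, ?_, ?_, by omega, fun _ => ⟨?_, ?_, ?_⟩⟩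
        · intro h; apply ha; field_simp; linear_combination h
        · intro h; apply hb; linear_combination h
        · intro h; apply hc; linear_combination -h
        · intro h; apply h1; linear_combination h
        · intro h; apply h2; linear_combination h
        · intro h; apply h3; linear_combination h
      · have hp5 : 4 < p := by
          have h1 := hp.two_le
          have h4 : p ≠ 4 := by
            rintro rfl
            exact absurd hp (by norm_num)
          omega
        classical
        set s : Finset (ZMod p) := {-(3 / 2 : ZMod p), -(x0 : ZMod p) - d, (x0 : ZMod p) - d}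
        have hs : s.card < Fintype.card (ZMod p) := by
          rw [ZMod.card]
          exact lt_of_le_of_lt Finset.card_le_three (by omega)
        obtain ⟨r, hr⟩ : ∃ r, r ∉ s := by
          by_contra hall
          push Not at hall
          have : s = Finset.univ := Finset.eq_univ_iff_forall.mpr hall
          rw [this, Finset.card_univ] at hs
          exact lt_irrefl _ hs
        refine ⟨r, fun _ => ?_⟩
        simp only [s, Finset.mem_insert, Finset.mem_singleton, not_or] at hr
        obtain ⟨ha, hb, hc⟩ := hr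
        refine ⟨?_, ?_, ?_, by omega, by omega⟩
        · intro h; apply ha; field_simp; linear_combination h
        · intro h; apply hb; linear_combination h
        · intro h; apply hc; linear_combination -h
  choose r hr using key
  obtain ⟨v, hv, hvr⟩ := hW.exists_res r
  have hm7 : (7 : ℕ) ∈ primesUpTo w := mem_primesUpTo.mpr ⟨by norm_num, hw⟩
  have hm3 : (3 : ℕ) ∈ primesUpTo w := mem_primesUpTo.mpr ⟨by norm_num, by omega⟩
  have h7 := (hr 7 (by norm_num)).2.2.2.2 rfl
  have h3' := (hr 3 (by norm_num)).2.2.2.1 rfl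
  rw [← hvr 7 hm7] at h7
  rw [← hvr 3 hm3] at h3'
  have hW7 : 7 ∣ W := (hW.2 7 (by norm_num)).mpr hw
  refine ⟨v, ?_, ?_, ?_, ?_, ?_⟩
  · obtain ⟨ha, hb, hc⟩ := h7
    have e1 : ¬ (7 : ℤ) ∣ (v + 1 : ℤ) := by
      intro h
      apply ha
      have := (ZMod.intCast_zmod_eq_zero_iff_dvd (v + 1) 7).mpr (by exact_mod_cast h)
      push_cast at this ⊢
      exact this
    have e2 : ¬ (7 : ℤ) ∣ (v + 2 : ℤ) := by
      intro h
      apply hb
      have := (ZMod.intCast_zmod_eq_zero_iff_dvd (v + 2) 7).mpr (by exact_mod_cast h)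
      push_cast at this ⊢
      exact this
    have e3 : ¬ (7 : ℤ) ∣ (v + 3 : ℤ) := by
      intro h
      apply hc
      have := (ZMod.intCast_zmod_eq_zero_iff_dvd (v + 3) 7).mpr (by exact_mod_cast h)
      push_cast at this ⊢
      exact this
    omega
  · intro h
    apply h3'
    exact (ZMod.intCast_zmod_eq_zero_iff_dvd v 3).mpr (by exact_mod_cast h)
  · refine hW.isCoprime fun p hp => ?_
    have := (hr p (mem_primesUpTo.mp hp).1).1
    rw [← hvr p hp] at this
    push_cast at this ⊢
    exact this
  · refine hW.isCoprime fun p hp => ?_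
    have := (hr p (mem_primesUpTo.mp hp).1).2.1
    rw [← hvr p hp] at this
    push_cast at this ⊢
    exact this
  · refine hW.isCoprime fun p hp => ?_
    have := (hr p (mem_primesUpTo.mp hp).1).2.2.1
    rw [← hvr p hp] at this
    push_cast at this ⊢
    exact this

end Pool.Agent.Lib.H18GB
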