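import Pool.Agent.Lib.H18GB.TY1
import Pool.Agent.Lib.H18GB.TY3a
import Pool.Agent.Lib.H18GB.GR6

/-!
# Project GB: TY3b (pairs of vertices in different classes)
-/

namespace Pool.Agent.Lib.H18GB

open Finset Pool.Agent.Lib.Sieve Pool.Agent.Lib.GoldbachGraph

theorem ty3_adj {n a b : ℕ} (h : hadj a b) (ha : a ∈ Finset.Icc 1 n) (hb : b ∈ Finset.Icc 1 n) :
    (HG n).edist a b ≤ 1 := by
  have h1 : (HG n).Adj a b := ⟨h, ha, hb⟩
  exact (SimpleGraph.edist_eq_one_iff_adj.mpr h1).le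

theorem ty3_link {v : ℕ} (hp : (2 * v + 3).Prime) : hadj v (v + 3) := by
  have h1 : v + (v + 3) = 2 * v + 3 := by ring
  have h2 : Nat.dist v (v + 3) = 3 := by simp [Nat.dist]
  refine ⟨by rw [h1]; exact hp, by rw [h1]; exact ⟨v + 1, by ring⟩, by rw [h2]; norm_num, ?_⟩
  rw [h2]
  exact ⟨1, by norm_num⟩

theorem ty3_mem {n N W x0 x : ℕ} (hn : W * N ≤ n) (hx0 : x0 < W) (hx : x ∈ Finset.Ico 1 N) :
    x0 + W * x ∈ Finset.Icc 1 n := by
  rw [Finset.mem_Ico] at hx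
  rw [Finset.mem_Icc]
  have h1 : W * x + W ≤ W * N := by
    have : W * (x + 1) ≤ W * N := Nat.mul_le_mul_left _ hx.2
    linarith [this, mul_add W x 1]
  have h2 : W * 1 ≤ W * x := Nat.mul_le_mul_left _ hx.1
  omega

theorem ty3_step {n a b c : ℕ} {k : ℕ∞} (h : (HG n).edist a b ≤ k) (h' : hadj b c)
    (hb : b ∈ Finset.Icc 1 n) (hc : c ∈ Finset.Icc 1 n) : (HG n).edist a c ≤ k + 1 :=
  (SimpleGraph.edist_triangle (v := b)).trans (add_le_add h (ty3_adj h' hb hc))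

open Classical in
theorem ty3_pairs {N : ℕ} (P : ℕ → ℕ → Prop) (E : Finset ℕ) {ε : ℝ} (hE : (E.card : ℝ) ≤ ε * N)
    (hε : 0 ≤ ε) (hx : ∀ x ∈ Finset.Ico 1 N, x ∉ E →
      (((Finset.Ico 1 N).filter fun x' => ¬ P x x').card : ℝ) ≤ ε * N) :
    (((Finset.Ico 1 N ×ˢ Finset.Ico 1 N).filter fun q => ¬ P q.1 q.2).card : ℝ) ≤ 2 * ε * N ^ 2 := by
  have h1 : ((Finset.Ico 1 N ×ˢ Finset.Ico 1 N).filter fun q => ¬ P q.1 q.2).card =
      ∑ x ∈ Finset.Ico 1 N, ((Finset.Ico 1 N).filter fun x' => ¬ P x x').card := by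
    rw [Finset.card_filter, Finset.sum_product]
    refine Finset.sum_congr rfl fun x _ => ?_
    rw [Finset.card_filter]
  rw [h1]
  push_cast
  have hN : ((Finset.Ico 1 N).card : ℝ) ≤ N := by
    rw [Nat.card_Ico]
    exact_mod_cast Nat.sub_le _ _
  have h2 : ∀ x ∈ Finset.Ico 1 N, (((Finset.Ico 1 N).filter fun x' => ¬ P x x').card : ℝ) ≤
      ε * N + (if x ∈ E then (N : ℝ) else 0) := by
    intro x hx'
    by_cases hxE : x ∈ E
    · rw [if_pos hxE]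
      have : (((Finset.Ico 1 N).filter fun x' => ¬ P x x').card : ℝ) ≤ (Finset.Ico 1 N).card := by
        exact_mod_cast Finset.card_filter_le _ _
      have h0 : 0 ≤ ε * N := by positivity
      linarith
    · rw [if_neg hxE, add_zero]
      exact hx x hx' hxE
  refine (Finset.sum_le_sum h2).trans ?_
  rw [Finset.sum_add_distrib, Finset.sum_const, nsmul_eq_mul, ← Finset.sum_filter, Finset.sum_const,
    nsmul_eq_mul]
  have h3 : (((Finset.Ico 1 N).filter fun x => x ∈ E).card : ℝ) ≤ E.card := by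
    exact_mod_cast Finset.card_le_card (fun x hx => (Finset.mem_filter.mp hx).2)
  have h4 : 0 ≤ ε * (N : ℝ) := by positivity
  have h5 : (0 : ℝ) ≤ N := Nat.cast_nonneg _
  nlinarith

open Classical in
/-- both vertices divisible by `3`, opposite parities -/
theorem ty3_one (c ε : ℝ) (hc : 0 < c) (hε : 0 < ε) : ∃ w0 : ℕ, ∀ w W : ℕ, w0 ≤ w → IsW w W →
    ∃ N0 : ℕ, ∀ N : ℕ, N0 ≤ N → ∀ n : ℕ, W * N ≤ n → ∀ X y0 x0' : ℕ, 1 ≤ X → X ≤ n →
    X ≤ 2 * W * N → y0 < W → x0' < W → Comp W X y0 → c * N ≤ Dw w W N X y0 →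
    (3 : ℤ) ∣ (X : ℤ) → (3 : ℤ) ∣ (x0' : ℤ) → (X : ℤ) % 2 ≠ (x0' : ℤ) % 2 →
    (((Finset.Ico 1 N).filter fun x' => ¬ (HG n).edist X (x0' + W * x') ≤ 5).card : ℝ) ≤ ε * N := by
  obtain ⟨w1, h1⟩ := gr3 (min c (1 / 4)) (by positivity)
  obtain ⟨w2, h2⟩ := ty2' (1 / 4) (1 / 8) (by norm_num) (by norm_num)
  obtain ⟨w3, h3⟩ := ty2 (1 / 4) ε (by norm_num) hε
  obtain ⟨w4, h4⟩ := sg_total
  refine ⟨w1 + w2 + w3 + w4 + 7, fun w W hw hW => ?_⟩
  obtain ⟨N1, h1⟩ := h1 w W (by omega) hW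
  obtain ⟨N2, h2⟩ := h2 w W (by omega) hW
  obtain ⟨N3, h3⟩ := h3 w W (by omega) hW
  obtain ⟨N4, h4⟩ := h4 w W (by omega) hW
  refine ⟨N1 + N2 + N3 + N4 + 2, fun N hN n hn X y0 x0' hX1 hXn hX2 hy0 hx0' hXy hD h3X h3x' hpar => ?_⟩
  obtain ⟨v0, hv0, hv3, hvc, hcomp⟩ := exists_link_comp (by omega : 7 ≤ w) hW (x0' : ℤ) 3 (Or.inr rfl) h3x'
  have p1 := comp_parity (by omega : 3 ≤ w) hW hXy
  have p2 := comp_parity (by omega : 3 ≤ w) hW hcomp
  obtain ⟨z0, hz0, hz1, hz2⟩ := comp_common (by omega : 3 ≤ w) hW (y0 : ℤ) (v0 : ℤ)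
    (by omega) (by constructor <;> intro h <;> omega)
  set B : Finset ℕ := (Finset.Ico 1 N).filter (fun z => ∃ y ∈ Finset.Ico 1 N,
    hadj X (y0 + W * y) ∧ hadj (y0 + W * y) (z0 + W * z)) with hB
  have hN0 : (2 : ℝ) ≤ N := by exact_mod_cast (by omega : 2 ≤ N)
  have hBc : (1 / 4 : ℝ) * N ≤ B.card := by
    have hBcc : (((Finset.Ico 1 N) \ B).card : ℝ) < min c (1 / 4) * N := by
      by_contra hcon
      push Not at hcon
      obtain ⟨y, hy, z, hz, ha, hb⟩ := h1 N (by omega) X y0 z0 hX1 hX2 hy0 hz0 hXy (comp_comm hz1)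
        (le_trans (mul_le_mul_of_nonneg_right (min_le_left _ _) (by positivity)) hD)
        ((Finset.Ico 1 N) \ B) Finset.sdiff_subset hcon
      rw [Finset.mem_sdiff] at hz
      exact hz.2 (Finset.mem_filter.mpr ⟨hz.1, y, hy, ha, hb⟩)
    have e1 : ((Finset.Ico 1 N) \ B).card = (Finset.Ico 1 N).card - B.card :=
      Finset.card_sdiff_of_subset (Finset.filter_subset _ _)
    have e2 : B.card ≤ (Finset.Ico 1 N).card := Finset.card_le_card (Finset.filter_subset _ _)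
    have e3 : (((Finset.Ico 1 N) \ B).card : ℝ) = ((Finset.Ico 1 N).card : ℝ) - B.card := by
      rw [e1, Nat.cast_sub e2]
    rw [Nat.card_Ico, Nat.cast_sub (by omega : 1 ≤ N)] at e3
    have e4 : min c (1 / 4) * (N : ℝ) ≤ 1 / 4 * N :=
      mul_le_mul_of_nonneg_right (min_le_right _ _) (by positivity)
    push_cast at e3
    linarith
  set Z : Finset ℕ := (Finset.Ico 1 N).filter (fun v => ∃ z ∈ B,
    hadj (v0 + 0 + W * v) (z0 + W * z)) with hZ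
  have hm1 := h2 N (by omega) z0 v0 0 hz0 hv0 (Or.inl rfl) hvc
    (by have := comp_comm hz2; simpa using this) B (Finset.filter_subset _ _) hBc
  have hm2 := h4 N (by omega) v0 hv0 hvc
  have hZm : (1 / 4 : ℝ) * N ≤ ∑ v ∈ Z, sg W v0 v := by
    have := Finset.sum_filter_add_sum_filter_not (Finset.Ico 1 N)
      (fun v => ∃ z ∈ B, hadj (v0 + 0 + W * v) (z0 + W * z)) (fun v => sg W v0 v)
    rw [hZ]
    linarith
  have hfin := h3 N (by omega) x0' v0 3 hx0' hv0 (Or.inr rfl) hvc (by exact_mod_cast hcomp) Z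
    (Finset.filter_subset _ _) hZm
  refine le_trans ?_ hfin
  have : ((Finset.Ico 1 N).filter fun x' => ¬ (HG n).edist X (x0' + W * x') ≤ 5) ⊆
      ((Finset.Ico 1 N).filter fun z => ¬ ∃ v ∈ Z, (2 * (v0 + W * v) + 3).Prime ∧
        hadj (v0 + 3 + W * v) (x0' + W * z)) := by
    intro x' hx'
    rw [Finset.mem_filter] at hx' ⊢
    refine ⟨hx'.1, fun hcon => hx'.2 ?_⟩
    obtain ⟨v, hv, hp, ha⟩ := hcon
    rw [hZ, Finset.mem_filter] at hv
    obtain ⟨hv1, z, hz, hb⟩ := hv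
    rw [hB, Finset.mem_filter] at hz
    obtain ⟨hz1', y, hy, hc1, hc2⟩ := hz
    have m0 : X ∈ Finset.Icc 1 n := Finset.mem_Icc.mpr ⟨hX1, hXn⟩
    have m1 := ty3_mem hn hy0 hy
    have m2 := ty3_mem hn hz0 hz1'
    have m3 := ty3_mem hn (by omega : v0 < W) hv1
    have m4 := ty3_mem hn hv0 hv1
    have m5 := ty3_mem hn hx0' hx'.1
    have s1 := ty3_adj hc1 m0 m1
    have s2 := ty3_step s1 hc2 m1 m2
    have s3 := ty3_step s2 ((hadj_comm _ _).mp hb) m2 (by simpa using m3)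
    rw [add_zero] at s3
    have e5 : v0 + 3 + W * v = v0 + W * v + 3 := by ring
    have s4 := ty3_step s3 (ty3_link hp) m3 (by rw [← e5]; exact m4)
    rw [← e5] at s4
    have s5 := ty3_step s4 ha m4 m5
    refine s5.trans (le_of_eq ?_)
    norm_num
  exact_mod_cast Finset.card_le_card this

open Classical in
/-- both vertices prime to `3`, opposite parities -/
theorem ty3_two (ε : ℝ) (hε : 0 < ε) : ∃ w0 : ℕ, ∀ w W : ℕ, w0 ≤ w → IsW w W →
    ∃ N0 : ℕ, ∀ N : ℕ, N0 ≤ N → ∀ n : ℕ, W * N ≤ n → ∀ x0 x0' : ℕ, x0 < W → x0' < W →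
    ¬ (3 : ℤ) ∣ (x0 : ℤ) → ¬ (3 : ℤ) ∣ (x0' : ℤ) → (x0 : ℤ) % 2 ≠ (x0' : ℤ) % 2 →
    (((Finset.Ico 1 N ×ˢ Finset.Ico 1 N).filter fun q =>
      ¬ (HG n).edist (x0 + W * q.1) (x0' + W * q.2) ≤ 5).card : ℝ) ≤ ε * N ^ 2 := by
  obtain ⟨c, hc, w1, h1⟩ := ty1 (ε / 2) (by positivity)
  obtain ⟨w2, h2⟩ := ty2 c (1 / 4) hc (by norm_num)
  obtain ⟨w3, h3⟩ := gr4 (min (ε / 2) (1 / 4)) (by positivity)
  refine ⟨w1 + w2 + w3 + 7, fun w W hw hW => ?_⟩
  obtain ⟨N1, h1⟩ := h1 w W (by omega) hW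
  obtain ⟨N2, h2⟩ := h2 w W (by omega) hW
  obtain ⟨N3, h3⟩ := h3 w W (by omega) hW
  refine ⟨N1 + N2 + N3 + 2, fun N hN n hn x0 x0' hx0 hx0' hn3 hn3' hpar => ?_⟩
  obtain ⟨v0, hv0, hvp, hv3, hvc⟩ := exists_link (by omega : 5 ≤ w) hW ((x0 : ℤ) % 2) (by omega)
  obtain ⟨y1, hy1, hy2, hy3⟩ := comp_common (by omega : 3 ≤ w) hW (x0 : ℤ) (v0 : ℤ)
    (by omega) (by constructor <;> intro h <;> omega)
  obtain ⟨y1', hy1', hy2', hy3'⟩ := comp_common (by omega : 3 ≤ w) hW (x0' : ℤ) (v0 + 3 : ℤ)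
    (by omega) (by constructor <;> intro h <;> omega)
  have hN0 : (2 : ℝ) ≤ N := by exact_mod_cast (by omega : 2 ≤ N)
  have hE := h1 N (by omega) x0 y1 v0 0 hx0 hy1 hv0 (Or.inl rfl) hvc hy2 (by simpa using hy3)
  set E : Finset ℕ := (Finset.Ico 1 N).filter fun x =>
      ∑ v ∈ (Finset.Ico 1 N).filter (fun v => ∃ y ∈ Finset.Ico 1 N,
        hadj (x0 + W * x) (y1 + W * y) ∧ hadj (v0 + 0 + W * v) (y1 + W * y)), sg W v0 v < c * N with hEdef
  have hkey := ty3_pairs (fun a b => (HG n).edist (x0 + W * a) (x0' + W * b) ≤ 5) E hE (by positivity) ?_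
  · have hfin : 2 * (ε / 2) * (N : ℝ) ^ 2 = ε * N ^ 2 := by ring
    rw [hfin] at hkey
    convert hkey
  intro x hx hxE
  set Z : Finset ℕ := (Finset.Ico 1 N).filter (fun v => ∃ y ∈ Finset.Ico 1 N,
        hadj (x0 + W * x) (y1 + W * y) ∧ hadj (v0 + 0 + W * v) (y1 + W * y)) with hZ
  have hZm : c * N ≤ ∑ v ∈ Z, sg W v0 v := by
    by_contra hcon
    push Not at hcon
    exact hxE (Finset.mem_filter.mpr ⟨hx, hcon⟩)
  have hB := h2 N (by omega) y1' v0 3 hy1' hv0 (Or.inr rfl) hvc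
    (by have := comp_comm hy3'; exact_mod_cast this) Z (Finset.filter_subset _ _) hZm
  set B : Finset ℕ := (Finset.Ico 1 N).filter fun z => ∃ v ∈ Z, (2 * (v0 + W * v) + 3).Prime ∧
      hadj (v0 + 3 + W * v) (y1' + W * z) with hBdef
  have hBc : (1 / 4 : ℝ) * N ≤ B.card := by
    have e1 := Finset.card_filter_add_card_filter_not (s := Finset.Ico 1 N)
      (fun z => ∃ v ∈ Z, (2 * (v0 + W * v) + 3).Prime ∧ hadj (v0 + 3 + W * v) (y1' + W * z))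
    rw [Nat.card_Ico] at e1
    have e2 : (B.card : ℝ) + (((Finset.Ico 1 N).filter fun z => ¬ ∃ v ∈ Z, (2 * (v0 + W * v) + 3).Prime ∧
      hadj (v0 + 3 + W * v) (y1' + W * z)).card : ℝ) = ((N - 1 : ℕ) : ℝ) := by exact_mod_cast e1
    rw [Nat.cast_sub (by omega : 1 ≤ N)] at e2
    push_cast at e2
    linarith
  by_contra hcon
  rw [not_le] at hcon
  obtain ⟨x', hx', y', hy', ha⟩ := h3 N (by omega) x0' y1' hx0' hy1' hy2'
    ((Finset.Ico 1 N).filter fun x' => ¬ (HG n).edist (x0 + W * x) (x0' + W * x') ≤ 5) B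
    (Finset.filter_subset _ _) (Finset.filter_subset _ _)
    (le_trans (mul_le_mul_of_nonneg_right (min_le_left _ _) (by positivity)) (by convert hcon.le))
    (le_trans (mul_le_mul_of_nonneg_right (min_le_right _ _) (by positivity)) hBc)
  rw [Finset.mem_filter] at hx'
  apply hx'.2
  rw [hBdef, Finset.mem_filter] at hy'
  obtain ⟨hy'1, v, hv, hp, hb⟩ := hy'
  rw [hZ, Finset.mem_filter] at hv
  obtain ⟨hv1, y, hy, hc1, hc2⟩ := hv
  have m0 := ty3_mem hn hx0 hx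
  have m1 := ty3_mem hn hy1 hy
  have m3 := ty3_mem hn (by omega : v0 < W) hv1
  have m4 := ty3_mem hn hv0 hv1
  have m5 := ty3_mem hn hy1' hy'1
  have m6 := ty3_mem hn hx0' hx'.1
  have s1 := ty3_adj hc1 m0 m1
  have s3 := ty3_step s1 ((hadj_comm _ _).mp hc2) m1 (by simpa using m3)
  rw [add_zero] at s3
  have e5 : v0 + 3 + W * v = v0 + W * v + 3 := by ring
  have s4 := ty3_step s3 (ty3_link hp) m3 (by rw [← e5]; exact m4)
  rw [← e5] at s4
  have s5 := ty3_step s4 hb m4 m5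
  have s6 := ty3_step s5 ((hadj_comm _ _).mp ha) m5 m6
  refine s6.trans (le_of_eq ?_)
  norm_num

open Classical in
/-- the first vertex divisible by `3`, the second prime to `3`, same parity -/
theorem ty3_three (ε : ℝ) (hε : 0 < ε) : ∃ w0 : ℕ, ∀ w W : ℕ, w0 ≤ w → IsW w W →
    ∃ N0 : ℕ, ∀ N : ℕ, N0 ≤ N → ∀ n : ℕ, W * N ≤ n → ∀ x0 x0' : ℕ, x0 < W → x0' < W →
    ¬ (3 : ℤ) ∣ (x0 : ℤ) → (3 : ℤ) ∣ (x0' : ℤ) → (x0 : ℤ) % 2 = (x0' : ℤ) % 2 →
    (((Finset.Ico 1 N ×ˢ Finset.Ico 1 N).filter fun q =>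
      ¬ (HG n).edist (x0 + W * q.1) (x0' + W * q.2) ≤ 5).card : ℝ) ≤ ε * N ^ 2 := by
  obtain ⟨c, hc, w1, h1⟩ := ty1 (ε / 2) (by positivity)
  obtain ⟨w2, h2⟩ := ty2 c (ε / 2) hc (by positivity)
  refine ⟨w1 + w2 + 7, fun w W hw hW => ?_⟩
  obtain ⟨N1, h1⟩ := h1 w W (by omega) hW
  obtain ⟨N2, h2⟩ := h2 w W (by omega) hW
  refine ⟨N1 + N2 + 2, fun N hN n hn x0 x0' hx0 hx0' hn3 h3' hpar => ?_⟩
  obtain ⟨v0, hv0, hv3, hvc, hcomp⟩ := exists_link_comp (by omega : 7 ≤ w) hW (x0' : ℤ) 0 (Or.inl rfl) h3'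
  have p2 := comp_parity (by omega : 3 ≤ w) hW hcomp
  obtain ⟨y1, hy1, hy2, hy3⟩ := comp_common (by omega : 3 ≤ w) hW (x0 : ℤ) (v0 + 3 : ℤ)
    (by omega) (by constructor <;> intro h <;> omega)
  have hE := h1 N (by omega) x0 y1 v0 3 hx0 hy1 hv0 (Or.inr rfl) hvc hy2 (by exact_mod_cast hy3)
  set E : Finset ℕ := (Finset.Ico 1 N).filter fun x =>
      ∑ v ∈ (Finset.Ico 1 N).filter (fun v => ∃ y ∈ Finset.Ico 1 N,
        hadj (x0 + W * x) (y1 + W * y) ∧ hadj (v0 + 3 + W * v) (y1 + W * y)), sg W v0 v < c * N with hEdef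
  have hkey := ty3_pairs (fun a b => (HG n).edist (x0 + W * a) (x0' + W * b) ≤ 5) E hE (by positivity) ?_
  · have hfin : 2 * (ε / 2) * (N : ℝ) ^ 2 = ε * N ^ 2 := by ring
    rw [hfin] at hkey
    convert hkey
  intro x hx hxE
  set Z : Finset ℕ := (Finset.Ico 1 N).filter (fun v => ∃ y ∈ Finset.Ico 1 N,
        hadj (x0 + W * x) (y1 + W * y) ∧ hadj (v0 + 3 + W * v) (y1 + W * y)) with hZ
  have hZm : c * N ≤ ∑ v ∈ Z, sg W v0 v := by
    by_contra hcon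
    push Not at hcon
    exact hxE (Finset.mem_filter.mpr ⟨hx, hcon⟩)
  have hB := h2 N (by omega) x0' v0 0 hx0' hv0 (Or.inl rfl) hvc
    (by simpa using hcomp) Z (Finset.filter_subset _ _) hZm
  refine le_trans ?_ hB
  have : ((Finset.Ico 1 N).filter fun x' => ¬ (HG n).edist (x0 + W * x) (x0' + W * x') ≤ 5) ⊆
      ((Finset.Ico 1 N).filter fun z => ¬ ∃ v ∈ Z, (2 * (v0 + W * v) + 3).Prime ∧
        hadj (v0 + 0 + W * v) (x0' + W * z)) := by
    intro x' hx'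
    rw [Finset.mem_filter] at hx' ⊢
    refine ⟨hx'.1, fun hcon => hx'.2 ?_⟩
    obtain ⟨v, hv, hp, hb⟩ := hcon
    rw [hZ, Finset.mem_filter] at hv
    obtain ⟨hv1, y, hy, hc1, hc2⟩ := hv
    have m0 := ty3_mem hn hx0 hx
    have m1 := ty3_mem hn hy1 hy
    have m3 := ty3_mem hn (by omega : v0 < W) hv1
    have m4 := ty3_mem hn hv0 hv1
    have m6 := ty3_mem hn hx0' hx'.1
    have s1 := ty3_adj hc1 m0 m1
    have s3 := ty3_step s1 ((hadj_comm _ _).mp hc2) m1 m4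
    have e5 : v0 + 3 + W * v = v0 + W * v + 3 := by ring
    rw [e5] at s3 m4
    have s4 := ty3_step s3 ((hadj_comm _ _).mp (ty3_link hp)) m4 m3
    rw [add_zero] at hb
    have s5 := ty3_step s4 hb m3 m6
    refine s5.trans ?_
    norm_num
  exact_mod_cast Finset.card_le_card this

end Pool.Agent.Lib.H18GB
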