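import Pool.Agent.Lib.H18GB.GR7b

/-!
# Project GB: GR7
-/

namespace Pool.Agent.Lib.H18GB

open Finset Pool.Agent.Lib.Sieve Pool.Agent.Lib.GoldbachGraph

theorem tail_sum {w : ℕ} (hw : 3 ≤ w) (n : ℕ) :
    ∑ X ∈ Finset.Icc 1 n, SHt w X ≤ n * Real.exp (1 / ((w : ℝ) - 1)) := by
  have hw' : (3 : ℝ) ≤ w := by exact_mod_cast hw
  set h : ℕ → ℝ := fun p => if w < p then 1 / ((p : ℝ) - 2) else 0 with hh
  have h0 : ∀ p, 0 ≤ h p := by
    intro p
    simp only [hh]
    split_ifs with hp
    · have : (w : ℝ) < p := by exact_mod_cast hp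
      have : 0 < (p : ℝ) - 2 := by linarith
      positivity
    · exact le_rfl
  have h1 : ∀ X, SHt w X = ∏ p ∈ X.primeFactors, (1 + h p) := by
    intro X
    unfold SHt
    rw [Finset.prod_filter]
    refine Finset.prod_congr rfl fun p _ => ?_
    simp only [hh]
    split_ifs with hp
    · have : (w : ℝ) < p := by exact_mod_cast hp
      have : (p : ℝ) - 2 ≠ 0 := by linarith
      field_simp
      ring
    · simp
  simp only [h1]
  refine (sum_prod_primeFactors_le h h0 n).trans ?_
  refine mul_le_mul_of_nonneg_left ?_ (Nat.cast_nonneg n)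
  have h2 : ∏ p ∈ primesUpTo n, (1 + h p / p) ≤ Real.exp (∑ p ∈ primesUpTo n, h p / p) := by
    rw [Real.exp_sum]
    refine Finset.prod_le_prod (fun p _ => ?_) (fun p _ => ?_)
    · have := h0 p
      positivity
    · have := Real.add_one_le_exp (h p / p)
      linarith
  refine h2.trans (Real.exp_le_exp.2 ?_)
  -- telescoping
  have h3 : ∀ m : ℕ, ∑ k ∈ Finset.range (m + 1), h k / k ≤
      1 / ((w : ℝ) - 1) - if w < m then 1 / ((m : ℝ) - 1) else 1 / ((w : ℝ) - 1) := by
    intro m
    induction m with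
    | zero =>
      simp [hh]
    | succ m ih =>
      rw [Finset.sum_range_succ]
      by_cases hm : w < m + 1
      · have hm1 : h (m + 1) = 1 / ((m : ℝ) + 1 - 2) := by
          simp only [hh, if_pos hm]
          push_cast
          ring
        have hwm : (w : ℝ) < (m : ℝ) + 1 := by exact_mod_cast hm
        rw [if_pos hm, hm1]
        have hwm' : (w : ℝ) ≤ m := by exact_mod_cast (Nat.lt_succ_iff.1 hm)
        have hstep : 1 / ((m : ℝ) + 1 - 2) / ((m : ℝ) + 1) ≤ 1 / ((m : ℝ) - 1) - 1 / (m : ℝ) := by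
          have a1 : 0 < (m : ℝ) - 1 := by linarith
          have a2 : 0 < (m : ℝ) := by linarith
          have e : 1 / ((m : ℝ) - 1) - 1 / (m : ℝ) = 1 / ((m : ℝ) - 1) / m := by
            field_simp
            ring
          rw [e]
          have e2 : (m : ℝ) + 1 - 2 = m - 1 := by ring
          rw [e2]
          refine div_le_div_of_nonneg_left (by positivity) a2 (by linarith)
        have hmm : 1 / ((m : ℝ) - 1) ≤ if w < m then 1 / ((m : ℝ) - 1) else 1 / ((w : ℝ) - 1) := by
          split_ifs with h5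
          · exact le_rfl
          · have : m = w := by omega
            rw [this]
        push_cast
        have e3 : (m : ℝ) + 1 - 1 = m := by ring
        rw [e3]
        linarith
      · have hm1 : h (m + 1) = 0 := by simp only [hh, if_neg hm]
        have hm2 : ¬ w < m := by omega
        rw [if_neg hm, hm1, zero_div, add_zero]
        rw [if_neg hm2] at ih
        exact ih
  have h4 : ∑ p ∈ primesUpTo n, h p / p ≤ ∑ k ∈ Finset.range (n + 1), h k / k := by
    unfold primesUpTo
    refine Finset.sum_le_sum_of_subset_of_nonneg (Finset.filter_subset _ _) fun k _ _ => ?_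
    have := h0 k
    positivity
  have h5 := h3 n
  have h6 : 0 ≤ if w < n then 1 / ((n : ℝ) - 1) else 1 / ((w : ℝ) - 1) := by
    split_ifs with h7
    · have : (w : ℝ) < n := by exact_mod_cast h7
      have : 0 < (n : ℝ) - 1 := by linarith
      positivity
    · have : 0 < (w : ℝ) - 1 := by linarith
      positivity
  linarith

theorem tail_count {w : ℕ} (hw : 3 ≤ w) (n : ℕ) :
    (((Finset.Icc 1 n).filter fun X => 2 < SHt w X).card : ℝ) ≤ 2 / ((w : ℝ) - 1) * n := by
  have hw' : (3 : ℝ) ≤ w := by exact_mod_cast hw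
  have h1 : (((Finset.Icc 1 n).filter fun X => 2 < SHt w X).card : ℝ) ≤
      ∑ X ∈ Finset.Icc 1 n, (SHt w X - 1) := by
    rw [Finset.card_filter]
    push_cast
    refine Finset.sum_le_sum fun X _ => ?_
    have := SHt_ge_one (w := w) (by omega) X
    split_ifs <;> linarith
  have h2 := tail_sum hw n
  rw [Finset.sum_sub_distrib] at h1
  simp only [Finset.sum_const, Nat.card_Icc, nsmul_eq_mul, mul_one] at h1
  have h3 : Real.exp (1 / ((w : ℝ) - 1)) ≤ 1 + 2 * (1 / ((w : ℝ) - 1)) := by
    have h4 : (1 : ℝ) / ((w : ℝ) - 1) ≤ 1 := by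
      rw [div_le_one (by linarith)]; linarith
    have h5 : (0 : ℝ) ≤ 1 / ((w : ℝ) - 1) := by
      have : 0 < (w : ℝ) - 1 := by linarith
      positivity
    have h6 := Real.abs_exp_sub_one_le (x := 1 / ((w : ℝ) - 1)) (by rw [abs_of_nonneg h5]; exact h4)
    rw [abs_of_nonneg h5] at h6
    have := (abs_le.1 h6).2
    linarith
  have h7 : (n : ℝ) * Real.exp (1 / ((w : ℝ) - 1)) ≤ n * (1 + 2 * (1 / ((w : ℝ) - 1))) :=
    mul_le_mul_of_nonneg_left h3 (Nat.cast_nonneg n)
  have e : ((n + 1 - 1 : ℕ) : ℝ) = n := by simp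
  rw [e] at h1
  calc _ ≤ _ := h1
    _ ≤ n * (1 + 2 * (1 / ((w : ℝ) - 1))) - n := by linarith
    _ = 2 / ((w : ℝ) - 1) * n := by ring

open Classical in
/-- Few vertices of a class are bad for half of the classes. -/
theorem bad_half {W N : ℕ} {ε : ℝ} (hε : 0 ≤ ε) (x0 : ℕ) (hx0 : x0 < W)
    (hb : ∀ y0 : ℕ, y0 < W → Comp W x0 y0 →
      (((Finset.Ico (0 : ℤ) N).filter fun x => Ds W N x0 y0 (sgn N x) x < N / 4).card : ℝ) ≤
        ε * N) :
    (((Finset.range N).filter fun x : ℕ => ((Finset.range W).filter fun y : ℕ => Comp W x0 y).card <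
      2 * (((Finset.range W).filter fun y : ℕ => Comp W x0 y ∧
        Ds W N x0 y (sgn N x) x < N / 4).card)).card : ℝ) ≤ 2 * ε * N := by
  set Cs := (Finset.range W).filter fun y : ℕ => Comp W x0 y with hCs
  set S := (Finset.range N).filter fun x : ℕ => Cs.card <
      2 * (((Finset.range W).filter fun y : ℕ => Comp W x0 y ∧
        Ds W N x0 y (sgn N x) x < N / 4).card) with hS
  rcases Nat.eq_zero_or_pos Cs.card with h0 | hpos
  · have : S = ∅ := by
      rw [hS, Finset.filter_eq_empty_iff]
      intro x _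
      have h1 : ((Finset.range W).filter fun y : ℕ => Comp W x0 y ∧
          Ds W N x0 y (sgn N x) x < N / 4).card ≤ Cs.card := by
        refine Finset.card_le_card fun y hy => ?_
        rw [Finset.mem_filter] at hy
        rw [hCs, Finset.mem_filter]
        exact ⟨hy.1, hy.2.1⟩
      omega
    rw [this]
    simp
    positivity
  · have hposr : (0 : ℝ) < Cs.card := by exact_mod_cast hpos
    have h1 : (S.card : ℝ) * Cs.card ≤ ∑ x ∈ Finset.range N,
        2 * ((((Finset.range W).filter fun y : ℕ => Comp W x0 y ∧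
          Ds W N x0 y (sgn N x) x < N / 4).card : ℕ) : ℝ) := by
      rw [← nsmul_eq_mul, ← Finset.sum_const]
      refine (Finset.sum_le_sum (g := fun x : ℕ => 2 * ((((Finset.range W).filter fun y : ℕ =>
        Comp W x0 y ∧ Ds W N x0 y (sgn N x) x < N / 4).card : ℕ) : ℝ)) fun x hx => ?_).trans ?_
      · rw [hS, Finset.mem_filter] at hx
        exact_mod_cast hx.2.le
      · exact Finset.sum_le_sum_of_subset_of_nonneg (Finset.filter_subset _ _) fun _ _ _ => by
          positivity
    have h2 : ∑ x ∈ Finset.range N,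
        2 * ((((Finset.range W).filter fun y : ℕ => Comp W x0 y ∧
          Ds W N x0 y (sgn N x) x < N / 4).card : ℕ) : ℝ) =
        2 * ∑ y ∈ Cs, ((((Finset.range N).filter fun x : ℕ =>
          Ds W N x0 y (sgn N x) x < N / 4).card : ℕ) : ℝ) := by
      rw [← Finset.mul_sum]
      congr 1
      simp only [Finset.card_filter]
      push_cast
      rw [Finset.sum_comm, hCs, Finset.sum_filter]
      refine Finset.sum_congr rfl fun y _ => ?_
      by_cases hc : Comp W x0 y
      · rw [if_pos hc]
        refine Finset.sum_congr rfl fun x _ => ?_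
        simp [hc]
      · rw [if_neg hc]
        simp [hc]
    have h3 : ∀ y ∈ Cs, ((((Finset.range N).filter fun x : ℕ =>
          Ds W N x0 y (sgn N x) x < N / 4).card : ℕ) : ℝ) ≤ ε * N := by
      intro y hy
      rw [hCs, Finset.mem_filter, Finset.mem_range] at hy
      refine le_trans ?_ (hb y hy.1 hy.2)
      have : ((Finset.range N).filter fun x : ℕ => Ds W N x0 y (sgn N x) x < N / 4).card ≤
          ((Finset.Ico (0 : ℤ) N).filter fun x => Ds W N x0 y (sgn N x) x < N / 4).card := by
        refine Finset.card_le_card_of_injOn (fun x : ℕ => (x : ℤ)) ?_ ?_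
        · intro x hx
          rw [Finset.mem_coe, Finset.mem_filter, Finset.mem_range] at hx
          rw [Finset.mem_coe, Finset.mem_filter, Finset.mem_Ico]
          exact ⟨⟨Int.natCast_nonneg x, Int.ofNat_lt.2 hx.1⟩, hx.2⟩
        · intro a _ b _ hab
          exact Int.ofNat_inj.1 hab
      exact_mod_cast this
    have h4 : ∑ y ∈ Cs, ((((Finset.range N).filter fun x : ℕ =>
          Ds W N x0 y (sgn N x) x < N / 4).card : ℕ) : ℝ) ≤ Cs.card * (ε * N) := by
      rw [← nsmul_eq_mul, ← Finset.sum_const]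
      exact Finset.sum_le_sum h3
    rw [h2] at h1
    have h5 : (S.card : ℝ) * Cs.card ≤ (2 * ε * N) * Cs.card := by linarith
    exact le_of_mul_le_mul_right h5 hposr

open Classical in
/-- Chunk GR7. `W = primorial w`, `N = n / W`. For compatible `x0, y0` the set `A(x0, y0)` of the
`x < N` with `∑_y lam(x+y) lam(|x-y|) < N / 4` has `≤ 3 ε1 N` elements (`rcn0`, `F = 1_A`, `G = 1`).
So for all but `6 ε1 N` of the `x < N`, at least half of the compatible `y0` have `x ∉ A(x0, y0)`; for
those `hdeg n X ≥ (W/φ(W))^2 #{y0} N / (8 (log 2n)^2)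
≥ c n / (log n)^2 ∏_{p ∣ X, 2 < p ≤ w} (p-1)/(p-2)`; finally for all but `ε1 n` of the `X ≤ n` the
product over `p ∣ X, p > w` is `≤ 2`. -/
theorem gr7 : ∃ c : ℝ, 0 < c ∧ ∀ ε : ℝ, 0 < ε → ∃ n0 : ℕ, ∀ n : ℕ, n0 ≤ n →
    (((Finset.Icc 1 n).filter fun X => hdeg n X < c * SH X * n / Real.log n ^ 2).card : ℝ)
      ≤ ε * n := by
  refine ⟨1 / 256, by norm_num, fun ε hε => ?_⟩
  obtain ⟨w0, hw0⟩ := bad_count (ε / 64) (by positivity)
  obtain ⟨w1, hw1⟩ := exists_nat_gt (8 / ε + 1)
  set w := max (max w0 w1) 3 with hwdef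
  have hw3 : 3 ≤ w := le_max_right _ _
  have hww0 : w0 ≤ w := (le_max_left _ _).trans (le_max_left _ _)
  have hww1 : (8 / ε + 1 : ℝ) < w := by
    refine hw1.trans_le ?_
    exact_mod_cast (le_max_right _ _).trans (le_max_left _ _)
  set W := primorial w with hWdef
  have hW : IsW w W := isW_primorial
  obtain ⟨N0, hN0⟩ := hw0 w W hww0 hW
  have hWpos : 0 < W := hW.1
  have hWr : (0 : ℝ) < W := by exact_mod_cast hWpos
  -- large n
  have hlog : ∀ᶠ n : ℕ in Filter.atTop, 256 * Real.log n ^ 2 ≤ n := by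
    have h1 := (Real.isLittleO_pow_log_id_atTop (n := 2)).bound (c := 1 / 256) (by norm_num)
    have h2 := tendsto_natCast_atTop_atTop (R := ℝ) |>.eventually h1
    filter_upwards [h2, Filter.eventually_ge_atTop 1] with n hn hn1
    simp only [id, Real.norm_eq_abs] at hn
    have hn' : (0 : ℝ) ≤ n := Nat.cast_nonneg n
    rw [abs_of_nonneg hn', abs_of_nonneg (by positivity)] at hn
    linarith
  obtain ⟨n1, hn1⟩ := Filter.eventually_atTop.1 hlog
  obtain ⟨n2, hn2⟩ := exists_nat_gt (4 * W / ε)
  refine ⟨max (max n1 n2) (max (W * (N0 + 1)) (max (2 * W) 3)), fun n hn => ?_⟩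
  have hnn1 : n1 ≤ n := (le_max_left _ _).trans ((le_max_left _ _).trans hn)
  have hnn2 : n2 ≤ n := (le_max_right _ _).trans ((le_max_left _ _).trans hn)
  have hnn3 : W * (N0 + 1) ≤ n := (le_max_left _ _).trans ((le_max_right _ _).trans hn)
  have hnn4 : 2 * W ≤ n := (le_max_left _ _).trans ((le_max_right _ _).trans
    ((le_max_right _ _).trans hn))
  have hnn5 : 3 ≤ n := (le_max_right _ _).trans ((le_max_right _ _).trans
    ((le_max_right _ _).trans hn))
  set N := n / W with hNdef
  have hNN : N0 ≤ N := by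
    rw [hNdef, Nat.le_div_iff_mul_le hWpos]
    nlinarith
  have hWN : W * N ≤ n := Nat.mul_div_le n W
  have hWN2 : n < W * N + W := by
    have := Nat.lt_mul_div_succ n hWpos
    rw [hNdef]
    linarith
  have hnr : (3 : ℝ) ≤ n := by exact_mod_cast hnn5
  have hlogn : 0 < Real.log n := Real.log_pos (by linarith)
  have hlog2 : Real.log (2 * n) ≤ 2 * Real.log n := by
    rw [Real.log_mul (by norm_num) (by positivity)]
    have : Real.log 2 ≤ Real.log n := Real.log_le_log (by norm_num) (by linarith)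
    linarith
  have hlog20 : 0 ≤ Real.log (2 * n) := Real.log_nonneg (by linarith)
  -- the three exceptional sets
  set Sa := (Finset.Icc 1 n).filter fun X => W * N ≤ X with hSa
  set Sc := (Finset.Icc 1 n).filter fun X => 2 < SHt w X with hSc
  set badp : ℕ → ℕ → Prop := fun x0 x =>
    ((Finset.range W).filter fun y : ℕ => Comp W x0 y).card <
      2 * (((Finset.range W).filter fun y : ℕ => Comp W x0 y ∧
        Ds W N x0 y (sgn N x) x < N / 4).card) with hbadp
  set Sb := (Finset.Icc 1 n).filter fun X => X < W * N ∧ badp (X % W) (X / W) with hSb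
  have hsub : ((Finset.Icc 1 n).filter fun X => (hdeg n X : ℝ) <
      1 / 256 * SH X * n / Real.log n ^ 2) ⊆ Sa ∪ (Sb ∪ Sc) := by
    intro X hX
    rw [Finset.mem_filter, Finset.mem_Icc] at hX
    obtain ⟨⟨hX1, hX2⟩, hX3⟩ := hX
    rw [Finset.mem_union, Finset.mem_union]
    by_contra hcon
    push Not at hcon
    obtain ⟨hna, hnb, hnc⟩ := hcon
    rw [hSa, Finset.mem_filter] at hna
    rw [hSb, Finset.mem_filter] at hnb
    rw [hSc, Finset.mem_filter] at hnc
    have hmem : X ∈ Finset.Icc 1 n := Finset.mem_Icc.2 ⟨hX1, hX2⟩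
    have hXlt : X < W * N := by
      by_contra h; exact hna ⟨hmem, by omega⟩
    have hnbad : ¬ badp (X % W) (X / W) := fun h => hnb ⟨hmem, hXlt, h⟩
    have htail : SHt w X ≤ 2 := by
      by_contra h; exact hnc ⟨hmem, by linarith⟩
    simp only [hbadp, not_lt] at hnbad
    have hx0 : X % W < W := Nat.mod_lt _ hWpos
    have hx : X / W < N := by
      rw [Nat.div_lt_iff_lt_mul hWpos, mul_comm]
      exact hXlt
    have hgood := good_hdeg (w := w) (N := N) (n := n) (by omega) hWN (X % W) (X / W) (by omega)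
      hx0 hx hnbad
    rw [← hWdef, Nat.mod_add_div] at hgood
    have hS1 := SHw_ge_one w X
    have hSH := SH_eq (w := w) (x := X) (by omega) (by omega)
    have hn1' := hn1 n hnn1
    have hSH2 : SH X ≤ 2 * SHw w X := by
      rw [hSH]
      nlinarith
    have hL : Real.log (2 * n) ^ 2 ≤ 4 * Real.log n ^ 2 := by nlinarith
    have h8 : (n : ℝ) / 2 ≤ W * N := by
      have : (n : ℝ) < W * N + W := by exact_mod_cast hWN2
      have h9 : 2 * (W : ℝ) ≤ n := by exact_mod_cast hnn4
      linarith
    have hdeg0 : (0 : ℝ) ≤ hdeg n X := Nat.cast_nonneg _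
    have h10 : SHw w X * (W * N) ≤ 32 * Real.log n ^ 2 * (hdeg n X + 1) := by
      refine hgood.trans ?_
      have : 8 * Real.log (2 * n) ^ 2 ≤ 32 * Real.log n ^ 2 := by linarith
      exact mul_le_mul_of_nonneg_right this (by linarith)
    rw [lt_div_iff₀ (by positivity)] at hX3
    have h11 : SHw w X * (n / 2) ≤ SHw w X * (W * N) :=
      mul_le_mul_of_nonneg_left h8 (by linarith)
    have h12 : 1 / 256 * SH X * n ≤ 1 / 128 * SHw w X * n := by nlinarith
    have h13 : 32 * Real.log n ^ 2 * ((hdeg n X : ℝ) + 1) =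
        32 * (hdeg n X * Real.log n ^ 2) + 32 * Real.log n ^ 2 := by ring
    rw [h13] at h10
    have h14 : SHw w X * n ≥ n := by nlinarith
    nlinarith
  -- sizes
  have hcardA : (Sa.card : ℝ) ≤ ε / 4 * n := by
    have h1 : Sa.card ≤ W := by
      have : Sa ⊆ Finset.Icc (W * N) n := by
        intro X hX
        rw [hSa, Finset.mem_filter, Finset.mem_Icc] at hX
        exact Finset.mem_Icc.2 ⟨hX.2, hX.1.2⟩
      have h2 := Finset.card_le_card this
      rw [Nat.card_Icc] at h2
      omega
    have h2 : (Sa.card : ℝ) ≤ W := by exact_mod_cast h1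
    have h3 : 4 * (W : ℝ) / ε < n := hn2.trans_le (by exact_mod_cast hnn2)
    rw [div_lt_iff₀ hε] at h3
    linarith
  have hcardC : (Sc.card : ℝ) ≤ ε / 4 * n := by
    refine (tail_count hw3 n).trans ?_
    refine mul_le_mul_of_nonneg_right ?_ (Nat.cast_nonneg n)
    have h8 : 8 / ε < (w : ℝ) - 1 := by linarith
    have h9 : 0 < (w : ℝ) - 1 := lt_trans (by positivity) h8
    rw [div_le_iff₀ h9]
    rw [div_lt_iff₀ hε] at h8
    linarith
  have hcardB : (Sb.card : ℝ) ≤ ε / 4 * n := by
    have h1 : Sb.card ≤ ∑ x0 ∈ Finset.range W, ((Finset.range N).filter fun x => badp x0 x).card := by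
      rw [← Finset.card_sigma]
      refine Finset.card_le_card_of_injOn (fun X => ⟨X % W, X / W⟩) ?_ ?_
      · intro X hX
        rw [Finset.mem_coe, hSb, Finset.mem_filter] at hX
        obtain ⟨_, hX1, hX2⟩ := hX
        rw [Finset.mem_coe, Finset.mem_sigma, Finset.mem_range, Finset.mem_filter, Finset.mem_range]
        refine ⟨Nat.mod_lt _ hWpos, ?_, hX2⟩
        simp only
        rw [Nat.div_lt_iff_lt_mul hWpos, mul_comm]
        exact hX1
      · intro X _ Y _ hXY
        simp only [Sigma.mk.injEq, heq_eq_eq] at hXY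
        rw [← Nat.mod_add_div X W, ← Nat.mod_add_div Y W, hXY.1, hXY.2]
    have h2 : ∀ x0 ∈ Finset.range W, (((Finset.range N).filter fun x => badp x0 x).card : ℝ) ≤
        ε / 4 * N := by
      intro x0 hx0
      rw [Finset.mem_range] at hx0
      have := bad_half (W := W) (N := N) (ε := ε / 8) (by positivity) x0 hx0 (fun y0 hy0 hc => by
        have := hN0 N hNN x0 y0 (by positivity) (by exact_mod_cast hx0) (by positivity)
          (by exact_mod_cast hy0) hc
        linarith)
      linarith
    have h3 : (Sb.card : ℝ) ≤ W * (ε / 4 * N) := by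
      have h4 : (Sb.card : ℝ) ≤ ∑ x0 ∈ Finset.range W,
          (((Finset.range N).filter fun x => badp x0 x).card : ℝ) := by exact_mod_cast h1
      refine h4.trans ((Finset.sum_le_sum h2).trans (le_of_eq ?_))
      rw [Finset.sum_const, Finset.card_range, nsmul_eq_mul]
    have h4 : (W : ℝ) * N ≤ n := by exact_mod_cast hWN
    have h5 : (W : ℝ) * (ε / 4 * N) = ε / 4 * (W * N) := by ring
    rw [h5] at h3
    exact h3.trans (mul_le_mul_of_nonneg_left h4 (by positivity))
  have hfin := (Finset.card_le_card hsub).trans ((Finset.card_union_le _ _).trans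
    (Nat.add_le_add_left (Finset.card_union_le _ _) _))
  have hfin' : (((Finset.Icc 1 n).filter fun X => (hdeg n X : ℝ) <
      1 / 256 * SH X * n / Real.log n ^ 2).card : ℝ) ≤ Sa.card + (Sb.card + Sc.card) := by
    exact_mod_cast hfin
  have hnpos : (0 : ℝ) < ε * n := by positivity
  linarith

end Pool.Agent.Lib.H18GB
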