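import Pool.Agent.Lib.H18GB.RCN
import Pool.Agent.Lib.H18GB.GR2
import Pool.Agent.Lib.H18GB.GR5
import Pool.Agent.Lib.H18GB.Pntl

/-!
# Project GB: TY2 (typical distances)

Link edges: `V = v0 + W v`, `2 V + 3` prime, edge `V - (V + 3)`; `d = 0` or `3` selects an end.
`sg(v) = lamv W (2 (v0 + W v) + 3)` is the weight of the link edge.
-/

namespace Pool.Agent.Lib.H18GB

open Finset Pool.Agent.Lib.Sieve Pool.Agent.Lib.GoldbachGraph

/-- weight of the link edge -/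
noncomputable def sg (W v0 v : ℕ) : ℝ := lamv W (2 * (v0 + W * v) + 3)

theorem sg_nonneg (W v0 v : ℕ) : 0 ≤ sg W v0 v := lamv_nonneg' _ _

theorem sg_eq (W v0 v : ℕ) :
    sg W v0 v = lamv W (2 * W * (v : ℤ) + ((2 * v0 + 3 : ℕ) : ℤ)) := by
  unfold sg
  congr 1
  push_cast
  ring

theorem sg_ne {W v0 v : ℕ} (h : sg W v0 v ≠ 0) : (2 * (v0 + W * v) + 3).Prime := by
  unfold sg lamv at h
  have e : (2 * ((v0 : ℤ) + W * v) + 3).natAbs = 2 * (v0 + W * v) + 3 := by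
    have : (2 * ((v0 : ℤ) + W * v) + 3) = ((2 * (v0 + W * v) + 3 : ℕ) : ℤ) := by push_cast; ring
    rw [this, Int.natAbs_natCast]
  rw [e] at h
  by_contra hp
  rw [if_neg hp] at h
  exact h rfl

theorem Comp.swap {W : ℕ} {x y : ℤ} (h : Comp W x y) : Comp W y x := by
  refine ⟨?_, ?_⟩
  · rw [add_comm]; exact h.1
  · have := h.2.neg_left
    rwa [neg_sub] at this

open Classical in
/-- Chunk TY2. If `Z` has mass `≥ c N` then almost every vertex of the class `z0` is adjacent to a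
`V + d`, `v ∈ Z` (`rcn1` with `F = sg 1_Z`, `G = ` indicator of the exceptional `z`, `σ = ± 1`). -/
theorem ty2 (c ε : ℝ) (hc : 0 < c) (hε : 0 < ε) : ∃ w0 : ℕ, ∀ w W : ℕ, w0 ≤ w → IsW w W →
    ∃ N0 : ℕ, ∀ N : ℕ, N0 ≤ N → ∀ z0 v0 d : ℕ, z0 < W → v0 + 3 < W → (d = 0 ∨ d = 3) →
    IsCoprime (2 * (v0 : ℤ) + 3) W → Comp W z0 (v0 + d) → ∀ Z : Finset ℕ, Z ⊆ Finset.Ico 1 N →
    c * N ≤ ∑ v ∈ Z, sg W v0 v →
    (((Finset.Ico 1 N).filter fun z => ¬ ∃ v ∈ Z, (2 * (v0 + W * v) + 3).Prime ∧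
      hadj (v0 + d + W * v) (z0 + W * z)).card : ℝ) ≤ ε * N := by
  obtain ⟨w1, hw1⟩ := rcn1 (c * ε / 2) (by positivity)
  refine ⟨max w1 2, fun w W hw hW => ?_⟩
  obtain ⟨N1, hN1⟩ := hw1 w W (le_trans (le_max_left _ _) hw) hW
  have h2W : 2 ∣ W := (hW.2 2 Nat.prime_two).mpr (le_trans (le_max_right _ _) hw)
  refine ⟨max N1 1, fun N hN z0 v0 d hz0 hv0 hd _ hcomp Z hZ hmass => ?_⟩
  have hNpos : 1 ≤ N := le_trans (le_max_right _ _) hN
  have hNR : (1 : ℝ) ≤ N := by exact_mod_cast hNpos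
  set B := (Finset.Ico 1 N).filter fun z => ¬ ∃ v ∈ Z, (2 * (v0 + W * v) + 3).Prime ∧
      hadj (v0 + d + W * v) (z0 + W * z) with hB
  set Z' := Z.filter fun v => sg W v0 v ≠ 0 with hZ'
  have hZ'sub : Z' ⊆ Finset.Ico 1 N := (Finset.filter_subset _ _).trans hZ
  have hdW : v0 + d < W := by rcases hd with rfl | rfl <;> omega
  have hb4 : 2 * v0 + 3 ≤ 4 * W := by omega
  have key := gr5_half (b := 2 * v0 + 3) h2W hN1 (le_trans (le_max_left _ _) hN) hdW hz0 hb4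
    (by push_cast; exact hcomp.swap) hZ'sub (Finset.filter_subset _ _ : B ⊆ Finset.Ico 1 N)
    (fun v hv z hz hadj => (Finset.mem_filter.mp hz).2
      ⟨v, (Finset.mem_filter.mp hv).1, sg_ne (Finset.mem_filter.mp hv).2, hadj⟩)
  have hsum : ∑ v ∈ Z', lamv W (2 * W * (v : ℤ) + ((2 * v0 + 3 : ℕ) : ℤ)) = ∑ v ∈ Z, sg W v0 v := by
    rw [hZ', ← Finset.sum_filter_ne_zero (s := Z) (f := fun v => sg W v0 v)]
    exact Finset.sum_congr rfl fun v _ => (sg_eq W v0 v).symm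
  rw [hsum] at key
  have hBc : (0 : ℝ) ≤ B.card := Nat.cast_nonneg _
  have h1 : c * N * B.card ≤ c * ε * N ^ 2 :=
    (mul_le_mul_of_nonneg_right hmass hBc).trans (key.trans (le_of_eq (by ring)))
  have h2 : c * N * B.card ≤ c * N * (ε * N) := by linarith [h1, (by ring : c * N * (ε * N) = c * ε * (N : ℝ) ^ 2)]
  exact le_of_mul_le_mul_left h2 (by positivity)

open Classical in
/-- Chunk TY2. If `B` is a positive proportion of the class `z0` then almost every (in mass) `V + d` has a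
neighbour in `B` (the same proof). -/
theorem ty2' (c ε : ℝ) (hc : 0 < c) (hε : 0 < ε) : ∃ w0 : ℕ, ∀ w W : ℕ, w0 ≤ w → IsW w W →
    ∃ N0 : ℕ, ∀ N : ℕ, N0 ≤ N → ∀ z0 v0 d : ℕ, z0 < W → v0 + 3 < W → (d = 0 ∨ d = 3) →
    IsCoprime (2 * (v0 : ℤ) + 3) W → Comp W z0 (v0 + d) → ∀ B : Finset ℕ, B ⊆ Finset.Ico 1 N →
    c * N ≤ (B.card : ℝ) →
    ∑ v ∈ (Finset.Ico 1 N).filter (fun v => ¬ ∃ z ∈ B, hadj (v0 + d + W * v) (z0 + W * z)),
      sg W v0 v ≤ ε * N := by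
  obtain ⟨w1, hw1⟩ := rcn1 (c * ε / 2) (by positivity)
  refine ⟨max w1 2, fun w W hw hW => ?_⟩
  obtain ⟨N1, hN1⟩ := hw1 w W (le_trans (le_max_left _ _) hw) hW
  have h2W : 2 ∣ W := (hW.2 2 Nat.prime_two).mpr (le_trans (le_max_right _ _) hw)
  refine ⟨max N1 1, fun N hN z0 v0 d hz0 hv0 hd _ hcomp B hB hcard => ?_⟩
  have hNpos : 1 ≤ N := le_trans (le_max_right _ _) hN
  have hNR : (1 : ℝ) ≤ N := by exact_mod_cast hNpos
  set Z := (Finset.Ico 1 N).filter (fun v => ¬ ∃ z ∈ B, hadj (v0 + d + W * v) (z0 + W * z)) with hZ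
  have hdW : v0 + d < W := by rcases hd with rfl | rfl <;> omega
  have hb4 : 2 * v0 + 3 ≤ 4 * W := by omega
  have key := gr5_half (b := 2 * v0 + 3) h2W hN1 (le_trans (le_max_left _ _) hN) hdW hz0 hb4
    (by push_cast; exact hcomp.swap) (Finset.filter_subset _ _ : Z ⊆ Finset.Ico 1 N) hB
    (fun v hv z hz hadj => (Finset.mem_filter.mp hv).2 ⟨z, hz, hadj⟩)
  have hsum : ∑ v ∈ Z, lamv W (2 * W * (v : ℤ) + ((2 * v0 + 3 : ℕ) : ℤ)) = ∑ v ∈ Z, sg W v0 v :=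
    Finset.sum_congr rfl fun v _ => (sg_eq W v0 v).symm
  rw [hsum] at key
  have hS : 0 ≤ ∑ v ∈ Z, sg W v0 v := Finset.sum_nonneg fun v _ => sg_nonneg _ _ _
  have h1 : (∑ v ∈ Z, sg W v0 v) * (c * N) ≤ c * ε * N ^ 2 :=
    (mul_le_mul_of_nonneg_left hcard hS).trans (key.trans (le_of_eq (by ring)))
  have h2 : (∑ v ∈ Z, sg W v0 v) * (c * N) ≤ (ε * N) * (c * N) := by
    linarith [h1, (by ring : (ε * N) * (c * N) = c * ε * (N : ℝ) ^ 2)]
  exact le_of_mul_le_mul_right h2 (by positivity)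

/-- Chunk TY2. Total mass (`pntlam` for the modulus `2 W`). -/
theorem sg_total : ∃ w0 : ℕ, ∀ w W : ℕ, w0 ≤ w → IsW w W → ∃ N0 : ℕ, ∀ N : ℕ, N0 ≤ N →
    ∀ v0 : ℕ, v0 + 3 < W → IsCoprime (2 * (v0 : ℤ) + 3) W →
    (N : ℝ) / 2 ≤ ∑ v ∈ Finset.Ico 1 N, sg W v0 v := by
  refine ⟨2, fun w W hw hW => ?_⟩
  have hWpos : 0 < W := hW.1
  obtain ⟨N2, hN2⟩ := pntlam (2 * W) (by omega) (1 / 4) (by norm_num)
  obtain ⟨N3, hN3⟩ := log_sq_le W (1 / 64) (by norm_num)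
  refine ⟨max N2 (max N3 1), fun N hN v hv hcop => ?_⟩
  have hNN2 : N2 ≤ N := le_trans (le_max_left _ _) hN
  have hNN3 : N3 ≤ N := le_trans (le_trans (le_max_left _ _) (le_max_right _ _)) hN
  have hNpos : 1 ≤ N := le_trans (le_trans (le_max_right _ _) (le_max_right _ _)) hN
  have hNR : (1 : ℝ) ≤ N := by exact_mod_cast hNpos
  have h2W : 2 ∣ W := (hW.2 2 Nat.prime_two).mpr hw
  have htot : (Nat.totient (2 * W) / (2 * W : ℕ) : ℝ) = (Nat.totient W / W : ℝ) := by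
    rw [Nat.totient_mul_of_prime_of_dvd Nat.prime_two h2W]
    have : (W : ℝ) ≠ 0 := by exact_mod_cast hWpos.ne'
    push_cast
    field_simp
  have hlam : ∀ x : ℕ, uu (2 * W) (2 * (v : ℤ) + 3) (x : ℤ) = sg W v x - 1 := by
    intro x
    rw [sg_eq]
    unfold uu lam lamv
    rw [htot]
    have : (2 * (v : ℤ) + 3 + ((2 * W : ℕ) : ℤ) * x) =
        2 * W * (x : ℤ) + ((2 * v + 3 : ℕ) : ℤ) := by push_cast; ring
    rw [this]
  have hr : |(2 * (v : ℤ) + 3)| < 2 * ((2 * W : ℕ) : ℤ) := by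
    have : (v : ℤ) + 3 < W := by exact_mod_cast hv
    push_cast
    rw [abs_lt]; constructor <;> omega
  have hcop2 : IsCoprime (2 * (v : ℤ) + 3) ((2 * W : ℕ) : ℤ) := by
    push_cast
    refine IsCoprime.mul_right ?_ hcop
    exact ⟨1, -((v : ℤ) + 1), by ring⟩
  have hsum := hN2 N hNN2 (2 * (v : ℤ) + 3) hr hcop2 N (Int.natCast_nonneg N) le_rfl
  rw [sum_Ico_int, Finset.sum_congr rfl (fun n _ => hlam n), Finset.sum_sub_distrib,
    Finset.sum_const, Finset.card_range, nsmul_eq_mul, mul_one] at hsum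
  have hsum' : 3 / 4 * (N : ℝ) ≤ ∑ x ∈ Finset.range N, sg W v x := by
    have := (abs_le.mp hsum).1
    linarith
  have hsplit : ∑ x ∈ Finset.range N, sg W v x = (∑ x ∈ Finset.Ico 1 N, sg W v x) + sg W v 0 := by
    rw [Finset.range_eq_Ico, Finset.sum_eq_sum_Ico_succ_bot (by omega : 0 < N), add_comm]
  have hsg00 : sg W v 0 ≤ 1 / 4 * N := by
    have hWR : (1 : ℝ) ≤ W := by exact_mod_cast hWpos
    have hBig : (1 : ℝ) ≤ 4 * W * N + 4 * W + 4 := by nlinarith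
    have hvR : (v : ℝ) + 3 ≤ W := by exact_mod_cast hv.le
    have hv0 : (0 : ℝ) ≤ v := Nat.cast_nonneg v
    have a1 : sg W v 0 ≤ Real.log (4 * W * N + 4 * W + 4) := by
      unfold sg
      apply lamv_le_log hBig
      push_cast
      rw [abs_le]
      constructor <;> nlinarith
    have a2 := hN3 N hNN3
    have a3 : Real.log (4 * W * N + 4 * W + 4) ≤
        1 / 8 + 2 * Real.log (4 * W * N + 4 * W + 4) ^ 2 := by
      nlinarith [sq_nonneg (Real.log (4 * W * N + 4 * W + 4) - 1 / 4)]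
    linarith
  rw [hsplit] at hsum'
  linarith

end Pool.Agent.Lib.H18GB
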