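import Pool.Agent.Lib.H18GB.Defs

/-!
# Project GB: ERS (averages of `Ers`)
-/

namespace Pool.Agent.Lib.H18GB

open Finset Pool.Agent.Lib.Sieve

/-- the constant `∑ n ^ (-21/20)` plus one -/
noncomputable def ersZ : ℝ := 1 + ∑' n : ℕ, (n : ℝ) ^ (-(21 / 20 : ℝ))

theorem ersZ_summable : Summable fun n : ℕ => (n : ℝ) ^ (-(21 / 20 : ℝ)) :=
  Real.summable_nat_rpow.mpr (by norm_num)

theorem one_le_ersZ : 1 ≤ ersZ := by
  unfold ersZ
  have : 0 ≤ ∑' n : ℕ, (n : ℝ) ^ (-(21 / 20 : ℝ)) := tsum_nonneg fun n => Real.rpow_nonneg (Nat.cast_nonneg _) _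
  linarith

/-- Cauchy-Schwarz with the weights `p ^ (-21/20)`. -/
theorem ers_cs {w z : ℕ} {S : Finset ℕ} (hS : PSet w z S) (m : ℤ) (t : ℝ) :
    Ers t S m ^ 2 ≤ ersZ * Ers (2 * t - 21 / 20) S m := by
  unfold Ers
  set T := S.filter (fun p : ℕ => (p : ℤ) ∣ m) with hT
  have hpos : ∀ p ∈ T, (0 : ℝ) < p := by
    intro p hp
    have := (hS p (Finset.mem_filter.mp hp).1).1.pos
    exact_mod_cast this
  have h1 : ∑ p ∈ T, (p : ℝ) ^ (-t) = ∑ p ∈ T, (p : ℝ) ^ (-(21 / 40 : ℝ)) * (p : ℝ) ^ (21 / 40 - t) := by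
    apply Finset.sum_congr rfl
    intro p hp
    rw [← Real.rpow_add (hpos p hp)]
    congr 1
    ring
  rw [h1]
  refine (Finset.sum_mul_sq_le_sq_mul_sq T _ _).trans ?_
  have h2 : ∑ p ∈ T, ((p : ℝ) ^ (-(21 / 40 : ℝ))) ^ 2 ≤ ersZ := by
    have h3 : ∑ p ∈ T, ((p : ℝ) ^ (-(21 / 40 : ℝ))) ^ 2 = ∑ p ∈ T, (p : ℝ) ^ (-(21 / 20 : ℝ)) := by
      apply Finset.sum_congr rfl
      intro p hp
      rw [← Real.rpow_natCast, ← Real.rpow_mul (hpos p hp).le]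
      norm_num
    rw [h3]
    have h4 := ersZ_summable.sum_le_tsum T (fun n _ => Real.rpow_nonneg (Nat.cast_nonneg _) _)
    unfold ersZ
    linarith
  have h3 : ∑ p ∈ T, ((p : ℝ) ^ (21 / 40 - t)) ^ 2 = ∑ p ∈ T, (p : ℝ) ^ (-(2 * t - 21 / 20)) := by
    apply Finset.sum_congr rfl
    intro p hp
    rw [← Real.rpow_natCast, ← Real.rpow_mul (hpos p hp).le]
    congr 1
    push_cast
    ring
  rw [h3]
  exact mul_le_mul_of_nonneg_right h2 (Finset.sum_nonneg fun p _ => Real.rpow_nonneg (Nat.cast_nonneg _) _)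

theorem ers_anti {w z : ℕ} {S : Finset ℕ} (hS : PSet w z S) (m : ℤ) {t t' : ℝ} (h : t ≤ t') :
    Ers t' S m ≤ Ers t S m := by
  unfold Ers
  apply Finset.sum_le_sum
  intro p hp
  have h1 := (hS p (Finset.mem_filter.mp hp).1).1.one_lt.le
  exact Real.rpow_le_rpow_of_exponent_le (by exact_mod_cast h1) (by linarith)

/-- Chunk ERS1. Hölder: with `π p = p^(-21/20)`, `(∑ x_p)^j ≤ (∑ π_p)^(j-1) ∑ π_p^(1-j) x_p^j`. -/
theorem ers_pow_le : ∃ C : ℝ, 1 ≤ C ∧ ∀ (w z : ℕ) (S : Finset ℕ) (m : ℤ) (j : ℕ), PSet w z S →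
    1 ≤ j → j ≤ 4 → Ers (9 / 10) S m ^ j ≤ C * Ers (9 / 20) S m := by
  have hZ := one_le_ersZ
  refine ⟨ersZ ^ 3, one_le_pow₀ hZ, fun w z S m j hS hj1 hj4 => ?_⟩
  have hZ0 : 0 < ersZ := by linarith
  have e0 := Ers_nonneg (9 / 10) S m
  have e1 := Ers_nonneg (3 / 4) S m
  have e2 := Ers_nonneg (9 / 20) S m
  have a1 : Ers (9 / 10) S m ≤ Ers (3 / 4) S m := ers_anti hS m (by norm_num)
  have a2 : Ers (3 / 4) S m ≤ Ers (9 / 20) S m := ers_anti hS m (by norm_num)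
  have b1 : Ers (9 / 10) S m ^ 2 ≤ ersZ * Ers (3 / 4) S m := by
    have := ers_cs hS m (9 / 10)
    norm_num at this
    exact this
  have b2 : Ers (3 / 4) S m ^ 2 ≤ ersZ * Ers (9 / 20) S m := by
    have := ers_cs hS m (3 / 4)
    norm_num at this
    exact this
  have c1 : 1 ≤ ersZ ^ 3 := one_le_pow₀ hZ
  have c2 : ersZ ≤ ersZ ^ 3 := by
    calc ersZ = ersZ * 1 := (mul_one _).symm
      _ ≤ ersZ * ersZ ^ 2 := mul_le_mul_of_nonneg_left (one_le_pow₀ hZ) hZ0.le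
      _ = ersZ ^ 3 := by ring
  have c3 : ersZ ^ 2 ≤ ersZ ^ 3 := pow_le_pow_right₀ hZ (by norm_num)
  interval_cases j
  · rw [pow_one]
    calc Ers (9 / 10) S m ≤ 1 * Ers (9 / 20) S m := by rw [one_mul]; exact a1.trans a2
      _ ≤ ersZ ^ 3 * Ers (9 / 20) S m := mul_le_mul_of_nonneg_right c1 e2
  · calc Ers (9 / 10) S m ^ 2 ≤ ersZ * Ers (9 / 20) S m := b1.trans (mul_le_mul_of_nonneg_left a2 hZ0.le)
      _ ≤ ersZ ^ 3 * Ers (9 / 20) S m := mul_le_mul_of_nonneg_right c2 e2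
  · calc Ers (9 / 10) S m ^ 3 = Ers (9 / 10) S m ^ 2 * Ers (9 / 10) S m := by ring
      _ ≤ (ersZ * Ers (3 / 4) S m) * Ers (3 / 4) S m := mul_le_mul b1 a1 e0 (by positivity)
      _ = ersZ * Ers (3 / 4) S m ^ 2 := by ring
      _ ≤ ersZ * (ersZ * Ers (9 / 20) S m) := mul_le_mul_of_nonneg_left b2 hZ0.le
      _ = ersZ ^ 2 * Ers (9 / 20) S m := by ring
      _ ≤ ersZ ^ 3 * Ers (9 / 20) S m := mul_le_mul_of_nonneg_right c3 e2
  · calc Ers (9 / 10) S m ^ 4 = (Ers (9 / 10) S m ^ 2) ^ 2 := by ring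
      _ ≤ (ersZ * Ers (3 / 4) S m) ^ 2 := pow_le_pow_left₀ (by positivity) b1 2
      _ = ersZ ^ 2 * Ers (3 / 4) S m ^ 2 := by ring
      _ ≤ ersZ ^ 2 * (ersZ * Ers (9 / 20) S m) := mul_le_mul_of_nonneg_left b2 (by positivity)
      _ = ersZ ^ 3 * Ers (9 / 20) S m := by ring

/-- Chunk ERS1. -/
theorem ers_sq_le : ∃ C : ℝ, 1 ≤ C ∧ ∀ (w z : ℕ) (S : Finset ℕ) (m : ℤ), PSet w z S →
    Ers (9 / 10) S m ^ 2 ≤ C * Ers (3 / 4) S m := by
  refine ⟨ersZ, one_le_ersZ, fun w z S m hS => ?_⟩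
  have := ers_cs hS m (9 / 10)
  norm_num at this
  exact this

/-- telescoping: `t n^(-1-t) ≤ (n-1)^(-t) - n^(-t)` -/
theorem ers_tele (t : ℝ) (ht : 0 < t) (n : ℕ) (hn : 1 ≤ n) :
    t * ((n + 1 : ℕ) : ℝ) ^ (-1 - t) ≤ (n : ℝ) ^ (-t) - ((n + 1 : ℕ) : ℝ) ^ (-t) := by
  have hnr : (0 : ℝ) < n := by exact_mod_cast hn
  have hn1 : (0 : ℝ) < ((n + 1 : ℕ) : ℝ) := by positivity
  set x : ℝ := ((n + 1 : ℕ) : ℝ) with hx
  have hxn : (n : ℝ) = x - 1 := by rw [hx]; push_cast; ring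
  have h1 : (n : ℝ) ^ (-t) = x ^ (-t) * (1 - 1 / x) ^ (-t) := by
    rw [← Real.mul_rpow hn1.le (by rw [hxn] at hnr; rw [sub_nonneg, div_le_one hn1]; linarith)]
    congr 1
    rw [hxn]
    field_simp
  have h2 : 1 + t / x ≤ (1 - 1 / x) ^ (-t) := by
    have hpos : 0 < 1 - 1 / x := by
      rw [sub_pos, div_lt_one hn1]
      rw [hxn] at hnr
      linarith
    rw [Real.rpow_def_of_pos hpos]
    have h3 := Real.add_one_le_exp (Real.log (1 - 1 / x) * (-t))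
    have h4 := Real.log_le_sub_one_of_pos hpos
    have h5 : 1 / x * t ≤ Real.log (1 - 1 / x) * (-t) := by nlinarith
    have h6 : t / x = 1 / x * t := by ring
    rw [h6]
    linarith
  have h3 : x ^ (-1 - t) = x ^ (-t) / x := by
    rw [← Real.rpow_sub_one hn1.ne']
    congr 1
    ring
  rw [h1, h3]
  have h4 : 0 < x ^ (-t) := Real.rpow_pos_of_pos hn1 _
  have h5 := mul_le_mul_of_nonneg_left h2 h4.le
  have h6 : x ^ (-t) * (1 + t / x) = x ^ (-t) + t * (x ^ (-t) / x) := by ring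
  linarith

theorem ers_tail (t : ℝ) (ht : 0 < t) (w z : ℕ) (hw : 1 ≤ w) :
    t * ∑ n ∈ Finset.Ioc w z, (n : ℝ) ^ (-1 - t) ≤ (w : ℝ) ^ (-t) := by
  rcases Nat.lt_or_ge z w with h | h
  · rw [Finset.Ioc_eq_empty (by omega), Finset.sum_empty, mul_zero]
    exact Real.rpow_nonneg (Nat.cast_nonneg _) _
  · have key : t * ∑ n ∈ Finset.Ioc w z, (n : ℝ) ^ (-1 - t) ≤ (w : ℝ) ^ (-t) - (z : ℝ) ^ (-t) := by
      induction z, h using Nat.le_induction with
      | base => simp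
      | succ z hz ih =>
        rw [Finset.sum_Ioc_succ_top (by omega), mul_add]
        have := ers_tele t ht z (by omega)
        linarith
    have : 0 ≤ (z : ℝ) ^ (-t) := Real.rpow_nonneg (Nat.cast_nonneg _) _
    linarith

/-- the number of `h` in an interval with `p ∣ α h + β` -/
theorem ers_count {p : ℕ} (hp : p.Prime) {α β a b : ℤ} (hα : ¬ (p : ℤ) ∣ α) (hab : a ≤ b) :
    (((Finset.Ico a b).filter (fun h : ℤ => (p : ℤ) ∣ α * h + β)).card : ℝ) ≤ (b - a) / p + 1 := by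
  have hp0 : (0 : ℤ) < p := by exact_mod_cast hp.pos
  have hpr : (0 : ℝ) < p := by exact_mod_cast hp.pos
  set T := (Finset.Ico a b).filter (fun h : ℤ => (p : ℤ) ∣ α * h + β) with hT
  have h1 : T.card ≤ (Finset.Ico (0 : ℤ) ((b - a) / p + 1)).card := by
    apply Finset.card_le_card_of_injOn (fun h => (h - a) / p)
    · intro h hh
      rw [Finset.mem_coe, hT, Finset.mem_filter, Finset.mem_Ico] at hh
      rw [Finset.mem_coe, Finset.mem_Ico]
      constructor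
      · exact Int.ediv_nonneg (by omega) hp0.le
      · have : (h - a) / p ≤ (b - a) / p := Int.ediv_le_ediv hp0 (by omega)
        show (h - a) / p < (b - a) / p + 1
        omega
    · intro h hh h' hh' he
      rw [Finset.mem_coe, hT, Finset.mem_filter] at hh hh'
      simp only at he
      have h2 : (p : ℤ) ∣ α * (h - h') := by
        have := dvd_sub hh.2 hh'.2
        have e1 : α * h + β - (α * h' + β) = α * (h - h') := by ring
        rw [e1] at this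
        exact this
      have h3 : (p : ℤ) ∣ h - h' := ((Nat.prime_iff_prime_int.mp hp).dvd_or_dvd h2).resolve_left hα
      have h4 : (h - a) % p = (h' - a) % p := by
        apply Int.ModEq.symm
        rw [Int.modEq_iff_dvd]
        have e1 : h - a - (h' - a) = h - h' := by ring
        rw [e1]
        exact h3
      have h5 := Int.emod_add_mul_ediv (h - a) p
      have h6 := Int.emod_add_mul_ediv (h' - a) p
      rw [h4, he] at h5
      omega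
  rw [Int.card_Ico, sub_zero] at h1
  have h2 : (0 : ℤ) ≤ (b - a) / p := Int.ediv_nonneg (by omega) hp0.le
  have h3 : (T.card : ℤ) ≤ (b - a) / p + 1 := by
    have h4 : (((b - a) / p + 1).toNat : ℤ) = (b - a) / p + 1 := Int.toNat_of_nonneg (by omega)
    rw [← h4]
    exact_mod_cast h1
  have h4 : (T.card : ℝ) ≤ (((b - a) / p : ℤ) : ℝ) + 1 := by exact_mod_cast h3
  have h5 : (((b - a) / p : ℤ) : ℝ) ≤ ((b : ℝ) - a) / p := by
    rw [le_div_iff₀ hpr]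
    have h6 : (b - a) / p * p ≤ b - a := Int.ediv_mul_le _ hp0.ne'
    have h7 : (((b - a) / p * p : ℤ) : ℝ) ≤ ((b - a : ℤ) : ℝ) := by exact_mod_cast h6
    push_cast at h7
    exact_mod_cast h7
  linarith

/-- Chunk ERS2. Count `h` with `p ∣ α h + β`: at most `(b - a) / p + 1`. -/
theorem ers_avg (t : ℝ) (ht : 0 < t) (ht1 : t ≤ 1) : ∃ C : ℝ, 1 ≤ C ∧ ∀ (w z : ℕ) (S : Finset ℕ),
    1 ≤ w → PSet w z S → ∀ α β : ℤ, (∀ p ∈ S, ¬ (p : ℤ) ∣ α) → ∀ a b : ℤ, a ≤ b →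
    ∑ h ∈ Finset.Ico a b, Ers t S (α * h + β) ≤ C * ((b - a) * (w : ℝ) ^ (-t) + z) := by
  refine ⟨1 / t, by rw [le_div_iff₀ ht]; linarith, fun w z S hw hS α β hα a b hab => ?_⟩
  have hab' : (0 : ℝ) ≤ (b : ℝ) - a := by
    have : (a : ℝ) ≤ b := by exact_mod_cast hab
    linarith
  have h1 : ∑ h ∈ Finset.Ico a b, Ers t S (α * h + β)
      = ∑ p ∈ S, (p : ℝ) ^ (-t) * ((Finset.Ico a b).filter (fun h : ℤ => (p : ℤ) ∣ α * h + β)).card := by
    unfold Ers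
    simp_rw [Finset.sum_filter]
    rw [Finset.sum_comm]
    apply Finset.sum_congr rfl
    intro p _
    rw [← Finset.sum_filter, Finset.sum_const, nsmul_eq_mul, mul_comm]
  rw [h1]
  have h2 : ∑ p ∈ S, (p : ℝ) ^ (-t) * ((Finset.Ico a b).filter (fun h : ℤ => (p : ℤ) ∣ α * h + β)).card
      ≤ ∑ p ∈ S, (((b : ℝ) - a) * (p : ℝ) ^ (-1 - t) + 1) := by
    apply Finset.sum_le_sum
    intro p hp
    have hpp := (hS p hp).1
    have hpr : (0 : ℝ) < p := by exact_mod_cast hpp.pos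
    have hp1 : (1 : ℝ) ≤ p := by exact_mod_cast hpp.one_lt.le
    have h3 := ers_count hpp (β := β) (hα p hp) hab
    have h4 : (p : ℝ) ^ (-t) ≤ 1 := Real.rpow_le_one_of_one_le_of_nonpos hp1 (by linarith)
    have h5 : (0 : ℝ) ≤ (p : ℝ) ^ (-t) := Real.rpow_nonneg hpr.le _
    calc (p : ℝ) ^ (-t) * ((Finset.Ico a b).filter (fun h : ℤ => (p : ℤ) ∣ α * h + β)).card
        ≤ (p : ℝ) ^ (-t) * (((b : ℝ) - a) / p + 1) := mul_le_mul_of_nonneg_left h3 h5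
      _ = ((b : ℝ) - a) * ((p : ℝ) ^ (-t) / p) + (p : ℝ) ^ (-t) := by ring
      _ ≤ ((b : ℝ) - a) * (p : ℝ) ^ (-1 - t) + 1 := by
          rw [← Real.rpow_sub_one hpr.ne']
          have : -t - 1 = -1 - t := by ring
          rw [this]
          linarith
  refine h2.trans ?_
  rw [Finset.sum_add_distrib, ← Finset.mul_sum, Finset.sum_const, nsmul_eq_mul, mul_one]
  have hsub : S ⊆ Finset.Ioc w z := by
    intro p hp
    rw [Finset.mem_Ioc]
    exact (hS p hp).2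
  have h3 : ∑ p ∈ S, (p : ℝ) ^ (-1 - t) ≤ ∑ n ∈ Finset.Ioc w z, (n : ℝ) ^ (-1 - t) :=
    Finset.sum_le_sum_of_subset_of_nonneg hsub (fun _ _ _ => Real.rpow_nonneg (Nat.cast_nonneg _) _)
  have h4 := ers_tail t ht w z hw
  have h5 : ∑ p ∈ S, (p : ℝ) ^ (-1 - t) ≤ 1 / t * (w : ℝ) ^ (-t) := by
    rw [one_div, ← div_eq_inv_mul, le_div_iff₀ ht, mul_comm]
    exact (mul_le_mul_of_nonneg_left h3 ht.le).trans h4
  have h6 : (S.card : ℝ) ≤ z := by
    have h7 := Finset.card_le_card hsub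
    rw [Nat.card_Ioc] at h7
    exact_mod_cast (by omega : S.card ≤ z)
  have h7 : (z : ℝ) ≤ 1 / t * z := by
    rw [one_div, ← div_eq_inv_mul, le_div_iff₀ ht]
    have : (0 : ℝ) ≤ z := Nat.cast_nonneg _
    nlinarith
  calc ((b : ℝ) - a) * ∑ p ∈ S, (p : ℝ) ^ (-1 - t) + S.card
      ≤ ((b : ℝ) - a) * (1 / t * (w : ℝ) ^ (-t)) + 1 / t * z :=
        add_le_add (mul_le_mul_of_nonneg_left h5 hab') (h6.trans h7)
    _ = 1 / t * (((b : ℝ) - a) * (w : ℝ) ^ (-t) + z) := by ring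

/-- Chunk ERS2. -/
theorem ers_mul {S : Finset ℕ} (hS : ∀ p ∈ S, p.Prime) (t : ℝ) (a m : ℤ)
    (ha : ∀ p ∈ S, ¬ (p : ℤ) ∣ a) : Ers t S (a * m) = Ers t S m := by
  unfold Ers
  congr 1
  apply Finset.filter_congr
  intro p hp
  constructor
  · intro h
    exact ((Nat.prime_iff_prime_int.mp (hS p hp)).dvd_or_dvd h).resolve_left (ha p hp)
  · intro h
    exact h.mul_left a

/-- Chunk ERS2. -/
theorem ers_neg (t : ℝ) (S : Finset ℕ) (m : ℤ) : Ers t S (-m) = Ers t S m := by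
  unfold Ers
  congr 1
  ext p
  simp

end Pool.Agent.Lib.H18GB
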