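import Pool.Agent.Lib.H18GB.Defs

/-!
# Project GB: PARS
-/

namespace Pool.Agent.Lib.H18GB

open Finset Pool.Agent.Lib.Sieve

lemma pars_e_pow (x : ℝ) (j : ℕ) : e (j * x) = e x ^ j := by
  unfold e
  rw [← Complex.exp_nat_mul]
  congr 1
  push_cast
  ring

/-- orthogonality -/
lemma pars_orth {Q : ℕ} (hQ : 0 < Q) (a : ℤ) (ha : ¬ (Q : ℤ) ∣ a) :
    ∑ j ∈ range Q, e (j * (a / Q)) = 0 := by
  simp only [pars_e_pow]
  have hQ' : (Q : ℝ) ≠ 0 := by exact_mod_cast hQ.ne'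
  have h1 : e ((a : ℝ) / Q) ≠ 1 := by
    intro h
    unfold e at h
    rw [Complex.exp_eq_one_iff] at h
    obtain ⟨n, hn⟩ := h
    apply ha
    refine ⟨n, ?_⟩
    have h2 : (2 * Real.pi * Complex.I : ℂ) ≠ 0 := Complex.two_pi_I_ne_zero
    have h3 : (((a : ℝ) / Q : ℝ) : ℂ) = n := by
      have h4 : (2 * Real.pi * Complex.I : ℂ) * (((a : ℝ) / Q : ℝ) : ℂ) =
          (2 * Real.pi * Complex.I : ℂ) * n := by
        linear_combination hn
      exact mul_left_cancel₀ h2 h4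
    have h5 : ((a : ℝ) / Q : ℝ) = n := by exact_mod_cast h3
    rw [div_eq_iff hQ'] at h5
    have h6 : (a : ℝ) = (Q : ℝ) * n := by rw [h5, mul_comm]
    exact_mod_cast h6
  have h2 : e ((a : ℝ) / Q) ^ Q = 1 := by
    rw [← pars_e_pow]
    have h3 : (Q : ℝ) * (a / Q) = a := by field_simp
    rw [h3, e_int]
  rw [geom_sum_eq h1, h2, sub_self, zero_div]

lemma pars_orth' {Q : ℕ} (a : ℤ) (ha : a = 0) :
    ∑ j ∈ range Q, e (j * (a / Q)) = Q := by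
  subst ha
  simp [e_zero]

lemma pars_parseval {Q : ℕ} (hQ : 0 < Q) (I : Finset ℤ)
    (hI : ∀ t ∈ I, ∀ t' ∈ I, (Q : ℤ) ∣ t - t' → t = t') (f : ℤ → ℂ) :
    ∑ j ∈ range Q, ‖∑ t ∈ I, f t * e (j * (t / Q))‖ ^ 2 = Q * ∑ t ∈ I, ‖f t‖ ^ 2 := by
  have h1 : ∀ j ∈ range Q, ((‖∑ t ∈ I, f t * e (j * (t / Q))‖ ^ 2 : ℝ) : ℂ) =
      ∑ t ∈ I, ∑ t' ∈ I, (f t * (starRingEnd ℂ) (f t')) * e (j * ((t - t' : ℤ) / Q)) := by
    intro j _
    have h2 : ((‖∑ t ∈ I, f t * e (j * (t / Q))‖ ^ 2 : ℝ) : ℂ) =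
        (∑ t ∈ I, f t * e (j * (t / Q))) *
          (starRingEnd ℂ) (∑ t ∈ I, f t * e (j * (t / Q))) := by
      rw [Complex.mul_conj, Complex.normSq_eq_norm_sq]
    rw [h2, map_sum, sum_mul_sum]
    refine sum_congr rfl fun t _ => sum_congr rfl fun t' _ => ?_
    rw [map_mul, ← e_neg]
    have h3 : (j : ℝ) * ((t - t' : ℤ) / Q) = j * (t / Q) + -(j * (t' / Q)) := by
      push_cast
      ring
    rw [h3, e_add]
    ring
  have h4 : ((∑ j ∈ range Q, ‖∑ t ∈ I, f t * e (j * (t / Q))‖ ^ 2 : ℝ) : ℂ) =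
      ((Q * ∑ t ∈ I, ‖f t‖ ^ 2 : ℝ) : ℂ) := by
    rw [Complex.ofReal_sum, sum_congr rfl h1, sum_comm]
    rw [Complex.ofReal_mul, Complex.ofReal_sum, mul_sum]
    refine sum_congr rfl fun t ht => ?_
    rw [sum_comm]
    rw [sum_eq_single t]
    · rw [← mul_sum, sub_self, pars_orth' 0 rfl, Complex.mul_conj, Complex.normSq_eq_norm_sq]
      push_cast
      ring
    · intro t' ht' hne
      rw [← mul_sum, pars_orth hQ _ fun h => hne (hI t ht t' ht' h).symm, mul_zero]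
    · intro h
      exact absurd ht h
  exact_mod_cast h4

/-- Chunk PARS. Parseval: with `Q > 4 K`, on `ZMod Q` (or by `∫_0^1`), the Fourier transform of
`t ↦ ∑_s P (s + t) D s` is `P^ (j) * conj-type of D^ (j)`, and `|D^| ≤ m`. -/
theorem pars (K : ℕ) (P D : ℤ → ℂ) (hP : ∀ n, n ∉ Finset.Ioo (-(K : ℤ)) K → P n = 0)
    (hD : ∀ n, n ∉ Finset.Ioo (-(K : ℤ)) K → D n = 0) (m : ℝ)
    (hm : ∀ θ : ℝ, ‖∑ s ∈ Finset.Ioo (-(K : ℤ)) K, D s * e (θ * s)‖ ≤ m) :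
    ∑ t ∈ Finset.Ioo (-(2 * K : ℤ)) (2 * K), ‖∑ s ∈ Finset.Ioo (-(K : ℤ)) K, P (s + t) * D s‖ ^ 2
      ≤ m ^ 2 * ∑ s ∈ Finset.Ioo (-(K : ℤ)) K, ‖P s‖ ^ 2 := by
  set Q : ℕ := 4 * K + 1 with hQdef
  have hQ : 0 < Q := by omega
  set I1 := Finset.Ioo (-(K : ℤ)) K with hI1
  set I2 := Finset.Ioo (-(2 * K : ℤ)) (2 * K) with hI2
  have hd1 : ∀ t ∈ I1, ∀ t' ∈ I1, (Q : ℤ) ∣ t - t' → t = t' := by
    intro t ht t' ht' hd
    rw [hI1, Finset.mem_Ioo] at ht ht'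
    have := Int.eq_zero_of_abs_lt_dvd hd (by rw [abs_lt]; constructor <;> push_cast [hQdef] <;> omega)
    omega
  have hd2 : ∀ t ∈ I2, ∀ t' ∈ I2, (Q : ℤ) ∣ t - t' → t = t' := by
    intro t ht t' ht' hd
    rw [hI2, Finset.mem_Ioo] at ht ht'
    have := Int.eq_zero_of_abs_lt_dvd hd (by rw [abs_lt]; constructor <;> push_cast [hQdef] <;> omega)
    omega
  have h1 := pars_parseval hQ I2 hd2 fun t => ∑ s ∈ I1, P (s + t) * D s
  have h2 := pars_parseval hQ I1 hd1 P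
  have hm0 : 0 ≤ m := (norm_nonneg _).trans (hm 0)
  have h3 : ∀ j ∈ range Q, ∑ t ∈ I2, (∑ s ∈ I1, P (s + t) * D s) * e (j * (t / Q)) =
      (∑ s ∈ I1, D s * e (-(j / Q) * s)) * ∑ n ∈ I1, P n * e (j * (n / Q)) := by
    intro j _
    simp only [sum_mul]
    rw [sum_comm]
    refine sum_congr rfl fun s hs => ?_
    have h4 : ∑ n ∈ I1, P n * e (j * (n / Q)) =
        ∑ t ∈ I2, P (s + t) * e (j * ((s + t : ℤ) / Q)) := by
      have h5 : ∑ t ∈ I2, P (s + t) * e (j * ((s + t : ℤ) / Q)) =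
          ∑ n ∈ I2.map (addLeftEmbedding s), P n * e (j * (n / Q)) := by
        rw [sum_map]
        rfl
      rw [h5]
      refine sum_subset ?_ ?_
      · intro n hn
        rw [hI2, Finset.map_add_left_Ioo, Finset.mem_Ioo]
        rw [hI1, Finset.mem_Ioo] at hs hn
        constructor <;> omega
      · intro n _ hn
        rw [hP n hn, zero_mul]
    rw [h4, mul_sum]
    refine sum_congr rfl fun t _ => ?_
    have h6 : (j : ℝ) * (t / Q) = -(j / Q) * s + j * ((s + t : ℤ) / Q) := by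
      push_cast
      ring
    rw [h6, e_add]
    ring
  have h7 : (Q : ℝ) * ∑ t ∈ I2, ‖∑ s ∈ I1, P (s + t) * D s‖ ^ 2 ≤
      Q * (m ^ 2 * ∑ s ∈ I1, ‖P s‖ ^ 2) := by
    rw [← h1]
    calc ∑ j ∈ range Q, ‖∑ t ∈ I2, (∑ s ∈ I1, P (s + t) * D s) * e (j * (t / Q))‖ ^ 2
        = ∑ j ∈ range Q, (‖∑ s ∈ I1, D s * e (-(j / Q) * s)‖ *
            ‖∑ n ∈ I1, P n * e (j * (n / Q))‖) ^ 2 := by
          refine sum_congr rfl fun j hj => ?_
          rw [h3 j hj, norm_mul]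
      _ ≤ ∑ j ∈ range Q, (m * ‖∑ n ∈ I1, P n * e (j * (n / Q))‖) ^ 2 := by
          refine sum_le_sum fun j _ => ?_
          have h8 := hm (-(j / Q))
          gcongr
      _ = m ^ 2 * ∑ j ∈ range Q, ‖∑ n ∈ I1, P n * e (j * (n / Q))‖ ^ 2 := by
          rw [mul_sum]
          exact sum_congr rfl fun j _ => by ring
      _ = Q * (m ^ 2 * ∑ s ∈ I1, ‖P s‖ ^ 2) := by
          rw [h2]
          ring
  have hQ0 : (0 : ℝ) < Q := by exact_mod_cast hQ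
  exact le_of_mul_le_mul_left h7 hQ0

end Pool.Agent.Lib.H18GB
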