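import Pool.Agent.Lib.H18GB.Corr
import Pool.Agent.Lib.H18GB.Ers

/-!
# Project GB: tools for the chunks that average correlations

* `tls_er_mono`, `er_sqrt_le`, `zpow_le`: handling of the generic error.
* `corr_add`: `∑ ∏ (rho_i + c_i)` from `corr0`; `corr_shift`: the same for shifts of one form.
* `sum_shift`, `normsq_expand`, `cross_corr`: finite sums over `ℤ`.
-/

namespace Pool.Agent.Lib.H18GB

open Finset Pool.Agent.Lib.Sieve

/-! ### the generic error -/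

theorem tls_er_mono {C C' A w : ℕ} (hC : 1 ≤ C) (h : C ≤ C') (hw : 1 ≤ w) : er C A w ≤ er C' A w := by
  unfold er
  have h1 : (0 : ℝ) < C := by exact_mod_cast hC
  have h2 : (C : ℝ) ≤ C' := by exact_mod_cast h
  have hw' : (1 : ℝ) ≤ w := by exact_mod_cast hw
  apply add_le_add
  · apply Real.rpow_le_rpow_of_exponent_le (by norm_num)
    rw [neg_div, neg_div, neg_le_neg_iff]
    exact div_le_div_of_nonneg_left (by positivity) h1 h2
  · apply Real.rpow_le_rpow_of_exponent_le hw'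
    rw [neg_div, neg_div, neg_le_neg_iff]
    exact div_le_div_of_nonneg_left (by positivity) h1 h2

theorem tls_er_le_two {C A w : ℕ} (hw : 1 ≤ w) : er C A w ≤ 2 := by
  unfold er
  have hw' : (1 : ℝ) ≤ w := by exact_mod_cast hw
  have h1 : (2 : ℝ) ^ (-(A : ℝ) / C) ≤ 1 :=
    Real.rpow_le_one_of_one_le_of_nonpos (by norm_num) (by
      rw [neg_div]; exact neg_nonpos.2 (by positivity))
  have h2 : (w : ℝ) ^ (-(1 : ℝ) / C) ≤ 1 :=
    Real.rpow_le_one_of_one_le_of_nonpos hw' (by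
      rw [neg_div]; exact neg_nonpos.2 (by positivity))
  linarith

theorem sqrt_add_le_aux {a b : ℝ} (ha : 0 ≤ a) (hb : 0 ≤ b) :
    Real.sqrt (a + b) ≤ Real.sqrt a + Real.sqrt b := by
  rw [Real.sqrt_le_left (by positivity)]
  nlinarith [Real.sq_sqrt ha, Real.sq_sqrt hb, Real.sqrt_nonneg a, Real.sqrt_nonneg b,
    mul_nonneg (Real.sqrt_nonneg a) (Real.sqrt_nonneg b)]

/-- `er ^ (1/2)` is absorbed by doubling `C`. -/
theorem er_sqrt_le {C A w : ℕ} : Real.sqrt (er C A w) ≤ er (2 * C) A w := by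
  have hw' : (0 : ℝ) ≤ w := by positivity
  have key : ∀ x : ℝ, 0 ≤ x → ∀ t : ℝ, Real.sqrt (x ^ t) = x ^ (t / 2) := by
    intro x hx t
    rw [Real.sqrt_eq_rpow, ← Real.rpow_mul hx]
    congr 1
    ring
  calc Real.sqrt (er C A w)
      ≤ Real.sqrt ((2 : ℝ) ^ (-(A : ℝ) / C)) + Real.sqrt ((w : ℝ) ^ (-(1 : ℝ) / C)) :=
        sqrt_add_le_aux (Real.rpow_nonneg (by norm_num) _) (Real.rpow_nonneg hw' _)
    _ = er (2 * C) A w := by
        rw [key _ (by norm_num), key _ hw']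
        unfold er
        congr 2 <;> · push_cast; ring

theorem two_pow_neg_le_er {C A w : ℕ} (hC : 1 ≤ C) : (1 / 2 : ℝ) ^ A ≤ er C A w := by
  unfold er
  have h1 : (1 : ℝ) ≤ C := by exact_mod_cast hC
  have h2 : (1 / 2 : ℝ) ^ A = (2 : ℝ) ^ (-(A : ℝ)) := by
    rw [Real.rpow_neg (by norm_num), Real.rpow_natCast, one_div, inv_pow]
  rw [h2]
  have h3 : (2 : ℝ) ^ (-(A : ℝ)) ≤ (2 : ℝ) ^ (-(A : ℝ) / C) := by
    apply Real.rpow_le_rpow_of_exponent_le (by norm_num)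
    rw [neg_div, neg_le_neg_iff]
    exact div_le_self (by positivity) h1
  have h4 : 0 ≤ (w : ℝ) ^ (-(1 : ℝ) / C) := Real.rpow_nonneg (by positivity) _
  linarith

theorem wpow_le_er {C A w : ℕ} {t : ℝ} (hw : 1 ≤ w) (ht : 1 / (C : ℝ) ≤ t) :
    (w : ℝ) ^ (-t) ≤ er C A w := by
  unfold er
  have hw' : (1 : ℝ) ≤ w := by exact_mod_cast hw
  have h3 : (w : ℝ) ^ (-t) ≤ (w : ℝ) ^ (-(1 : ℝ) / C) := by
    apply Real.rpow_le_rpow_of_exponent_le hw'
    rw [neg_div, neg_le_neg_iff]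
    exact ht
  have h4 : 0 ≤ (2 : ℝ) ^ (-(A : ℝ) / C) := Real.rpow_nonneg (by norm_num) _
  linarith

/-- `z ^ (A + k) ≤ M er` as soon as `z ^ (C' A) ≤ M` with `k + 2 ≤ C'`. -/
theorem zpow_le_er {C C' A w z k M : ℕ} (hC : 1 ≤ C) (hA : 1 ≤ A) (hC' : k + 2 ≤ C') (hz : 2 ≤ z)
    (hM : z ^ (C' * A) ≤ M) : (z : ℝ) ^ (A + k) ≤ M * er C A w := by
  have hz' : (2 : ℝ) ≤ z := by exact_mod_cast hz
  have h1 : (z : ℝ) ^ (A + k) * (2 : ℝ) ^ A ≤ M := by
    calc (z : ℝ) ^ (A + k) * (2 : ℝ) ^ A ≤ (z : ℝ) ^ (A + k) * (z : ℝ) ^ A := by gcongr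
      _ = (z : ℝ) ^ (A + k + A) := by rw [← pow_add]
      _ ≤ (z : ℝ) ^ (C' * A) := by
          apply pow_le_pow_right₀ (by linarith)
          nlinarith
      _ ≤ M := by exact_mod_cast hM
  have h2 : (z : ℝ) ^ (A + k) ≤ M * (1 / 2 : ℝ) ^ A := by
    rw [one_div, inv_pow, ← div_eq_mul_inv, le_div_iff₀ (by positivity)]
    exact h1
  exact h2.trans (mul_le_mul_of_nonneg_left (two_pow_neg_le_er hC) (by positivity))

/-! ### correlations of `rho + c` -/

open Classical in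
/-- `corr0` for the products over a subset of the forms. -/
theorem tls_corr_sub (k : ℕ) : ∃ C : ℕ, 1 ≤ C ∧ ∀ (A w z : ℕ) (S : Finset ℕ), C ≤ A → C ≤ w → 2 ≤ z →
    PSet w z S → ∀ (α β : Fin k → ℤ), (∀ p ∈ S, ∀ i, ¬ (p : ℤ) ∣ α i) →
    ∀ (T : Finset (Fin k)) (a b : ℤ), a ≤ b →
    |∑ x ∈ Finset.Ico a b, ∏ i ∈ T, rho S (α i * x + β i) - (b - a)| ≤
      (b - a) * (C * er C A w +
        C * ∑ i, ∑ j ∈ Finset.univ.filter (fun j => i ≠ j), Ers (9 / 10) S (disc α β i j))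
        + C * (z : ℝ) ^ (A + k) := by
  choose C hC1 hC using corr0
  refine ⟨(Finset.range (k + 1)).sup C, ?_, ?_⟩
  · exact (hC1 0).trans (Finset.le_sup (f := C) (by simp))
  intro A w z S hA hw hz hS α β hα T a b hab
  set C' := (Finset.range (k + 1)).sup C with hC'
  have hTk : T.card ≤ k := by simpa using T.card_le_univ
  have hCT : C T.card ≤ C' := Finset.le_sup (f := C) (by simp; omega)
  have hw1 : 1 ≤ w := ((hC1 T.card).trans hCT).trans hw
  let φ : Fin T.card ≃ T := T.equivFin.symm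
  have hmain := hC T.card A w z S (hCT.trans hA) (hCT.trans hw) hz hS (fun i => α (φ i))
    (fun i => β (φ i)) (fun p hp i => hα p hp _) a b hab
  have hprod : ∀ x : ℤ, ∏ i : Fin T.card, rho S (α (φ i) * x + β (φ i)) =
      ∏ i ∈ T, rho S (α i * x + β i) := by
    intro x
    rw [← Finset.prod_coe_sort T (fun i => rho S (α i * x + β i))]
    exact Equiv.prod_comp φ (fun i : T => rho S (α i * x + β i))
  simp only [hprod] at hmain
  have hsum : ∑ i : Fin T.card, ∑ j ∈ Finset.univ.filter (fun j => i ≠ j),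
      Ers (9 / 10) S (disc (fun i => α (φ i)) (fun i => β (φ i)) i j) ≤
      ∑ i, ∑ j ∈ Finset.univ.filter (fun j => i ≠ j), Ers (9 / 10) S (disc α β i j) := by
    have e1 : ∀ i : Fin T.card, ∑ j ∈ Finset.univ.filter (fun j => i ≠ j),
        Ers (9 / 10) S (disc (fun i => α (φ i)) (fun i => β (φ i)) i j) =
        ∑ j ∈ T.filter (fun j => ((φ i : T) : Fin k) ≠ j), Ers (9 / 10) S (disc α β (φ i) j) := by
      intro i
      rw [Finset.sum_filter, Finset.sum_filter, ← Finset.sum_coe_sort T]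
      rw [← Equiv.sum_comp φ]
      apply Finset.sum_congr rfl
      intro j _
      have : (i ≠ j) ↔ (((φ i : T) : Fin k) ≠ ((φ j : T) : Fin k)) := by
        rw [not_iff_not]
        constructor
        · rintro rfl; rfl
        · intro h; exact φ.injective (Subtype.ext h)
      simp only [this]
      rfl
    calc _ = ∑ i : Fin T.card, ∑ j ∈ T.filter (fun j => ((φ i : T) : Fin k) ≠ j),
          Ers (9 / 10) S (disc α β (φ i) j) := Finset.sum_congr rfl fun i _ => e1 i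
      _ = ∑ i : T, ∑ j ∈ T.filter (fun j => (i : Fin k) ≠ j), Ers (9 / 10) S (disc α β i j) :=
          Equiv.sum_comp φ (fun i : T => ∑ j ∈ T.filter (fun j => (i : Fin k) ≠ j),
            Ers (9 / 10) S (disc α β i j))
      _ = ∑ i ∈ T, ∑ j ∈ T.filter (fun j => i ≠ j), Ers (9 / 10) S (disc α β i j) :=
          Finset.sum_coe_sort T (fun i => ∑ j ∈ T.filter (fun j => i ≠ j),
            Ers (9 / 10) S (disc α β i j))
      _ ≤ ∑ i ∈ T, ∑ j ∈ Finset.univ.filter (fun j => i ≠ j), Ers (9 / 10) S (disc α β i j) := by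
          apply Finset.sum_le_sum
          intro i _
          apply Finset.sum_le_sum_of_subset_of_nonneg
          · exact Finset.filter_subset_filter _ (Finset.subset_univ _)
          · intro j _ _; exact Ers_nonneg _ _ _
      _ ≤ _ := by
          apply Finset.sum_le_sum_of_subset_of_nonneg (Finset.subset_univ _)
          intro i _ _
          exact Finset.sum_nonneg fun j _ => Ers_nonneg _ _ _
  have hba : (0 : ℝ) ≤ b - a := by
    have : (a : ℝ) ≤ b := by exact_mod_cast hab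
    linarith
  have hz1 : (1 : ℝ) ≤ z := by
    have : (2 : ℝ) ≤ z := by exact_mod_cast hz
    linarith
  have hCC : (C T.card : ℝ) ≤ C' := by exact_mod_cast hCT
  have hE0 : 0 ≤ ∑ i, ∑ j ∈ Finset.univ.filter (fun j => i ≠ j), Ers (9 / 10) S (disc α β i j) :=
    Finset.sum_nonneg fun i _ => Finset.sum_nonneg fun j _ => Ers_nonneg _ _ _
  have hsum0 : 0 ≤ ∑ i : Fin T.card, ∑ j ∈ Finset.univ.filter (fun j => i ≠ j),
      Ers (9 / 10) S (disc (fun i => α (φ i)) (fun i => β (φ i)) i j) :=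
    Finset.sum_nonneg fun i _ => Finset.sum_nonneg fun j _ => Ers_nonneg _ _ _
  refine hmain.trans ?_
  apply add_le_add
  · apply mul_le_mul_of_nonneg_left _ hba
    apply add_le_add
    · exact mul_le_mul hCC (tls_er_mono (hC1 _) hCT hw1) (er_nonneg _ _ _) (by positivity)
    · exact mul_le_mul hCC hsum hsum0 (by positivity)
  · apply mul_le_mul hCC _ (by positivity) (by positivity)
    exact pow_le_pow_right₀ hz1 (by omega)

open Classical in
/-- Correlations of `rho + c_i`. -/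
theorem corr_add (k : ℕ) : ∃ C : ℕ, 1 ≤ C ∧ ∀ (A w z : ℕ) (S : Finset ℕ), C ≤ A → C ≤ w → 2 ≤ z →
    PSet w z S → ∀ (α β : Fin k → ℤ), (∀ p ∈ S, ∀ i, ¬ (p : ℤ) ∣ α i) →
    ∀ (c : Fin k → ℝ) (a b : ℤ), a ≤ b →
    |∑ x ∈ Finset.Ico a b, ∏ i, (rho S (α i * x + β i) + c i) - (b - a) * ∏ i, (1 + c i)| ≤
      (∏ i, (1 + |c i|)) * ((b - a) * (C * er C A w +
        C * ∑ i, ∑ j ∈ Finset.univ.filter (fun j => i ≠ j), Ers (9 / 10) S (disc α β i j))
        + C * (z : ℝ) ^ (A + k)) := by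
  obtain ⟨C, hC1, hC⟩ := tls_corr_sub k
  refine ⟨C, hC1, ?_⟩
  intro A w z S hA hw hz hS α β hα c a b hab
  set Err := ((b : ℝ) - a) * (C * er C A w +
        C * ∑ i, ∑ j ∈ Finset.univ.filter (fun j => i ≠ j), Ers (9 / 10) S (disc α β i j))
        + C * (z : ℝ) ^ (A + k) with hErr
  have h1 : ∑ x ∈ Finset.Ico a b, ∏ i, (rho S (α i * x + β i) + c i) =
      ∑ T ∈ (Finset.univ : Finset (Fin k)).powerset, (∏ i ∈ Finset.univ \ T, c i) *
        ∑ x ∈ Finset.Ico a b, ∏ i ∈ T, rho S (α i * x + β i) := by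
    simp only [Finset.prod_add, Finset.mul_sum]
    rw [Finset.sum_comm]
    apply Finset.sum_congr rfl
    intro T _
    apply Finset.sum_congr rfl
    intro x _
    ring
  have h2 : ((b : ℝ) - a) * ∏ i : Fin k, (1 + c i) =
      ∑ T ∈ (Finset.univ : Finset (Fin k)).powerset, (∏ i ∈ Finset.univ \ T, c i) * (b - a) := by
    rw [Finset.prod_add, Finset.mul_sum]
    apply Finset.sum_congr rfl
    intro T _
    simp
    ring
  have h3 : (∏ i : Fin k, (1 + |c i|)) * Err =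
      ∑ T ∈ (Finset.univ : Finset (Fin k)).powerset, (∏ i ∈ Finset.univ \ T, |c i|) * Err := by
    rw [Finset.prod_add, Finset.sum_mul]
    apply Finset.sum_congr rfl
    intro T _
    simp
  rw [h1, h2, h3, ← Finset.sum_sub_distrib]
  refine (Finset.abs_sum_le_sum_abs _ _).trans ?_
  apply Finset.sum_le_sum
  intro T _
  rw [← mul_sub, abs_mul, Finset.abs_prod]
  exact mul_le_mul_of_nonneg_left (hC A w z S hA hw hz hS α β hα T a b hab)
    (Finset.prod_nonneg fun i _ => abs_nonneg _)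

open Classical in
/-- Correlations of `rho + c_i` for shifts of one form. -/
theorem corr_shift (k : ℕ) : ∃ C : ℕ, 1 ≤ C ∧ ∀ (A w z W : ℕ) (S : Finset ℕ), C ≤ A → C ≤ w →
    2 ≤ z → PSet w z S → IsW w W → ∀ (r : ℤ) (s : Fin k → ℤ) (c : Fin k → ℝ) (a b : ℤ), a ≤ b →
    |∑ x ∈ Finset.Ico a b, ∏ i, (rho S (r + W * (x + s i)) + c i) - (b - a) * ∏ i, (1 + c i)| ≤
      (∏ i, (1 + |c i|)) * ((b - a) * (C * er C A w +
        C * ∑ i, ∑ j ∈ Finset.univ.filter (fun j => i ≠ j), Ers (9 / 10) S (s j - s i))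
        + C * (z : ℝ) ^ (A + k)) := by
  obtain ⟨C, hC1, hC⟩ := corr_add k
  refine ⟨C, hC1, ?_⟩
  intro A w z W S hA hw hz hS hW r s c a b hab
  have hWS := hW.not_dvd hS
  have hmain := hC A w z S hA hw hz hS (fun _ => (W : ℤ)) (fun i => r + W * s i)
    (fun p hp _ => hWS p hp) c a b hab
  have e1 : ∀ x : ℤ, ∀ i : Fin k, ((W : ℤ) * x + (r + W * s i)) = r + W * (x + s i) := by
    intro x i; ring
  have e2 : ∀ i j : Fin k, disc (fun _ => (W : ℤ)) (fun i => r + W * s i) i j =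
      ((W : ℤ) * W) * (s j - s i) := by
    intro i j; unfold disc; ring
  have hWW : ∀ p ∈ S, ¬ (p : ℤ) ∣ (W : ℤ) * W := by
    intro p hp h
    have hpp : Prime (p : ℤ) := Nat.prime_iff_prime_int.mp (hS p hp).1
    rcases hpp.dvd_or_dvd h with h | h <;> exact hWS p hp h
  simp only [e1, e2, ers_mul hS.prime _ _ _ hWW] at hmain
  exact hmain

/-- intersection of intervals -/
theorem ico_inter (a b c d : ℤ) (hab : a ≤ b) : ∃ a' b' : ℤ, a' ≤ b' ∧ b' - a' ≤ b - a ∧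
    (Finset.Ico a b).filter (fun x => x ∈ Finset.Ico c d) = Finset.Ico a' b' := by
  by_cases h : max a c ≤ min b d
  · refine ⟨max a c, min b d, h, ?_, ?_⟩
    · have := le_max_left a c
      have := min_le_left b d
      omega
    · ext x
      simp only [Finset.mem_filter, Finset.mem_Ico]
      omega
  · refine ⟨a, a, le_rfl, by omega, ?_⟩
    ext x
    simp only [Finset.mem_filter, Finset.mem_Ico]
    omega

theorem ico_inters (a b c d : ℤ) (hab : a ≤ b) {ι : Type*} (t : Finset ι) (s : ι → ℤ) :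
    ∃ a' b' : ℤ, a' ≤ b' ∧ b' - a' ≤ b - a ∧
    (Finset.Ico a b).filter (fun x => ∀ i ∈ t, x + s i ∈ Finset.Ico c d) = Finset.Ico a' b' := by
  classical
  induction t using Finset.induction_on with
  | empty => exact ⟨a, b, hab, le_rfl, by simp⟩
  | insert i t hi ih =>
    obtain ⟨a', b', h1, h2, h3⟩ := ih
    obtain ⟨a'', b'', h4, h5, h6⟩ := ico_inter a' b' (c - s i) (d - s i) h1
    refine ⟨a'', b'', h4, h5.trans h2, ?_⟩
    rw [← h6, ← h3]
    ext x
    simp only [Finset.mem_filter, Finset.mem_Ico, Finset.mem_insert, forall_eq_or_imp]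
    constructor
    · rintro ⟨h7, h8, h9⟩
      exact ⟨⟨h7, h9⟩, by omega⟩
    · rintro ⟨⟨h7, h9⟩, h8⟩
      exact ⟨h7, by omega, h9⟩

/-- The sum of the singular errors of `k` shifts. -/
noncomputable def ShE {k : ℕ} (S : Finset ℕ) (s : Fin k → ℤ) : ℝ :=
  ∑ i, ∑ j ∈ Finset.univ.filter (fun j => i ≠ j), Ers (9 / 10) S (s j - s i)

theorem ShE_nonneg {k : ℕ} (S : Finset ℕ) (s : Fin k → ℤ) : 0 ≤ ShE S s :=
  Finset.sum_nonneg fun _ _ => Finset.sum_nonneg fun _ _ => Ers_nonneg _ _ _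

/-- `(rho - 1)` restricted to `[0, L)` -/
noncomputable def rm1 (S : Finset ℕ) (W : ℕ) (r : ℤ) (L : ℕ) (n : ℤ) : ℝ :=
  if n ∈ Finset.Ico (0 : ℤ) L then rho S (r + W * n) - 1 else 0

/-- Correlations of `rho - 1` restricted to an interval. -/
theorem corr_m1 (k : ℕ) (hk : 1 ≤ k) : ∃ C : ℕ, 1 ≤ C ∧ ∀ (A w z W M L : ℕ) (S : Finset ℕ),
    C ≤ A → C ≤ w → 2 ≤ z → PSet w z S → IsW w W → z ^ (C * A) ≤ M → L ≤ M →
    ∀ (r : ℤ) (s : Fin k → ℤ),
    |∑ x ∈ Finset.Ico (0 : ℤ) L, ∏ i, rm1 S W r L (x + s i)| ≤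
      C * M * (er C A w + ShE S s) := by
  obtain ⟨C, hC1, hC⟩ := corr_shift k
  refine ⟨2 ^ (k + 1) * C + k + 2, by omega, ?_⟩
  intro A w z W M L S hA hw hz hS hW hM hL r s
  set C' := 2 ^ (k + 1) * C + k + 2 with hC'
  have hCC' : C ≤ C' := by
    have : 1 ≤ 2 ^ (k + 1) := Nat.one_le_two_pow
    nlinarith
  have hA1 : 1 ≤ A := (by omega : 1 ≤ C').trans hA
  have hw1 : 1 ≤ w := (by omega : 1 ≤ C').trans hw
  obtain ⟨a, b, hab, hlen, hset⟩ := ico_inters 0 L 0 L (by positivity) (Finset.univ) s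
  have hsum : ∑ x ∈ Finset.Ico (0 : ℤ) L, ∏ i, rm1 S W r L (x + s i) =
      ∑ x ∈ Finset.Ico a b, ∏ i, (rho S (r + W * (x + s i)) + (-1)) := by
    rw [← hset, Finset.sum_filter]
    apply Finset.sum_congr rfl
    intro x _
    split_ifs with h
    · apply Finset.prod_congr rfl
      intro i _
      unfold rm1
      rw [if_pos (h i (Finset.mem_univ _))]
      ring
    · push Not at h
      obtain ⟨i, -, hi⟩ := h
      apply Finset.prod_eq_zero (Finset.mem_univ i)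
      unfold rm1
      rw [if_neg hi]
  rw [hsum]
  have hmain := hC A w z W S (hCC'.trans hA) (hCC'.trans hw) hz hS hW r s (fun _ => -1) a b hab
  have hz0 : ((b : ℝ) - a) * ∏ _i : Fin k, (1 + (-1 : ℝ)) = 0 := by
    have : ∏ _i : Fin k, (1 + (-1 : ℝ)) = 0 := by
      rw [Finset.prod_const]
      simp
      omega
    rw [this, mul_zero]
  rw [hz0, sub_zero] at hmain
  have hp2 : ∏ _i : Fin k, (1 + |(-1 : ℝ)|) = 2 ^ k := by
    rw [Finset.prod_const]
    simp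
    norm_num
  rw [hp2] at hmain
  refine hmain.trans ?_
  have hlen' : (b : ℝ) - a ≤ M := by
    have h1 : b - a ≤ (M : ℤ) := by
      have : (L : ℤ) ≤ M := by exact_mod_cast hL
      omega
    exact_mod_cast h1
  have hlen0 : (0 : ℝ) ≤ (b : ℝ) - a := by
    have : (a : ℝ) ≤ b := by exact_mod_cast hab
    linarith
  have hE := ShE_nonneg S s
  have her := er_nonneg C' A w
  have her1 : er C A w ≤ er C' A w := tls_er_mono hC1 hCC' hw1
  have hzp : (z : ℝ) ^ (A + k) ≤ M * er C' A w :=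
    zpow_le_er (by omega) hA1 (by omega : k + 2 ≤ C') hz hM
  have hM0 : (0 : ℝ) ≤ M := by positivity
  have hC0 : (0 : ℝ) ≤ C := by positivity
  change 2 ^ k * (((b : ℝ) - a) * (C * er C A w + C * ShE S s) + C * (z : ℝ) ^ (A + k)) ≤ _
  have hstep : ((b : ℝ) - a) * (C * er C A w + C * ShE S s) ≤ M * (C * er C' A w + C * ShE S s) := by
    apply mul_le_mul hlen' _ _ hM0
    · exact add_le_add (mul_le_mul_of_nonneg_left her1 hC0) le_rfl
    · exact add_nonneg (mul_nonneg hC0 (er_nonneg _ _ _)) (mul_nonneg hC0 hE)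
  have hC'r : (C' : ℝ) = 2 ^ (k + 1) * C + k + 2 := by rw [hC']; push_cast; ring
  have h2k : (0 : ℝ) < 2 ^ k := by positivity
  calc 2 ^ k * (((b : ℝ) - a) * (C * er C A w + C * ShE S s) + C * (z : ℝ) ^ (A + k))
      ≤ 2 ^ k * (M * (C * er C' A w + C * ShE S s) + C * (M * er C' A w)) := by gcongr
    _ = (2 ^ k * C * M) * (2 * er C' A w + ShE S s) := by ring
    _ ≤ (2 ^ k * C * M) * (2 * (er C' A w + ShE S s)) := by
        apply mul_le_mul_of_nonneg_left _ (by positivity)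
        linarith
    _ = (2 ^ (k + 1) * C) * M * (er C' A w + ShE S s) := by ring
    _ ≤ C' * M * (er C' A w + ShE S s) := by
        gcongr
        rw [hC'r]
        have : (0 : ℝ) ≤ k := by positivity
        linarith

/-- Correlations of `1 + rho`. -/
theorem corr_p1 (k : ℕ) : ∃ C : ℕ, 1 ≤ C ∧ ∀ (A w z W M L : ℕ) (S : Finset ℕ),
    C ≤ A → C ≤ w → 2 ≤ z → PSet w z S → IsW w W → z ^ (C * A) ≤ M → L ≤ M →
    ∀ (r : ℤ) (s : Fin k → ℤ) (a : ℤ),
    ∑ x ∈ Finset.Ico a (a + L), ∏ i, (1 + rho S (r + W * (x + s i))) ≤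
      C * M * (1 + ShE S s) := by
  obtain ⟨C, hC1, hC⟩ := corr_shift k
  refine ⟨2 ^ k * (4 * C + 1) + k + 2, by omega, ?_⟩
  intro A w z W M L S hA hw hz hS hW hM hL r s a
  set C' := 2 ^ k * (4 * C + 1) + k + 2 with hC'
  have hCC' : C ≤ C' := by
    have : 1 ≤ 2 ^ k := Nat.one_le_two_pow
    nlinarith
  have hA1 : 1 ≤ A := (by omega : 1 ≤ C').trans hA
  have hw1 : 1 ≤ w := (by omega : 1 ≤ C').trans hw
  have hmain := hC A w z W S (hCC'.trans hA) (hCC'.trans hw) hz hS hW r s (fun _ => 1) a (a + L)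
    (by omega)
  have hp2 : ∏ _i : Fin k, (1 + |(1 : ℝ)|) = 2 ^ k := by
    rw [Finset.prod_const]
    simp
    norm_num
  have hp2' : ∏ _i : Fin k, (1 + (1 : ℝ)) = 2 ^ k := by
    rw [Finset.prod_const]
    simp
    norm_num
  have hlen : ((a + L : ℤ) : ℝ) - a = L := by push_cast; ring
  rw [hp2, hp2', hlen] at hmain
  have hup := (abs_le.mp hmain).2
  have hE := ShE_nonneg S s
  have her1 : er C A w ≤ 2 := tls_er_le_two hw1
  have hzp : (z : ℝ) ^ (A + k) ≤ M * er C' A w :=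
    zpow_le_er (by omega) hA1 (by omega : k + 2 ≤ C') hz hM
  have hzp2 : (z : ℝ) ^ (A + k) ≤ M * 2 :=
    hzp.trans (mul_le_mul_of_nonneg_left (tls_er_le_two hw1) (by positivity))
  have hM0 : (0 : ℝ) ≤ M := by positivity
  have hLM : (L : ℝ) ≤ M := by exact_mod_cast hL
  have hC0 : (0 : ℝ) ≤ C := by positivity
  have hcomm : ∑ x ∈ Finset.Ico a (a + L), ∏ i, (1 + rho S (r + W * (x + s i))) =
      ∑ x ∈ Finset.Ico a (a + L), ∏ i, (rho S (r + W * (x + s i)) + 1) := by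
    simp only [add_comm (1 : ℝ)]
  rw [hcomm]
  change _ ≤ 2 ^ k * ((L : ℝ) * (C * er C A w + C * ShE S s) + C * (z : ℝ) ^ (A + k)) at hup
  have h2k : (0 : ℝ) < 2 ^ k := by positivity
  have hC'r : (C' : ℝ) = 2 ^ k * (4 * C + 1) + k + 2 := by rw [hC']; push_cast; ring
  calc ∑ x ∈ Finset.Ico a (a + L), ∏ i, (rho S (r + W * (x + s i)) + 1)
      ≤ L * 2 ^ k + 2 ^ k * ((L : ℝ) * (C * er C A w + C * ShE S s) + C * (z : ℝ) ^ (A + k)) := by
        linarith
    _ ≤ M * 2 ^ k + 2 ^ k * ((M : ℝ) * (C * 2 + C * ShE S s) + C * (M * 2)) := by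
        gcongr
        exact add_nonneg (mul_nonneg hC0 (er_nonneg _ _ _)) (mul_nonneg hC0 hE)
    _ = (2 ^ k * M) * ((4 * C + 1) + C * ShE S s) := by ring
    _ ≤ (2 ^ k * M) * ((4 * C + 1) * (1 + ShE S s)) := by
        apply mul_le_mul_of_nonneg_left _ (by positivity)
        nlinarith
    _ = (2 ^ k * (4 * C + 1)) * M * (1 + ShE S s) := by ring
    _ ≤ C' * M * (1 + ShE S s) := by
        gcongr
        rw [hC'r]
        have : (0 : ℝ) ≤ k := by positivity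
        linarith

/-! ### averages of `Ers` -/

theorem ers_le_920 {w z : ℕ} {S : Finset ℕ} (hS : PSet w z S) (m : ℤ) :
    Ers (9 / 10) S m ≤ Ers (9 / 20) S m := by
  unfold Ers
  apply Finset.sum_le_sum
  intro p hp
  have h1 : (1 : ℝ) ≤ p := by exact_mod_cast (hS p (Finset.mem_filter.mp hp).1).1.one_lt.le
  exact Real.rpow_le_rpow_of_exponent_le h1 (by norm_num)

/-- average of `Ers (9/20)` over a translate of an interval -/
theorem ers_avg' : ∃ C : ℕ, 1 ≤ C ∧ ∀ (A w z M : ℕ) (S : Finset ℕ), C ≤ A → C ≤ w → 2 ≤ z →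
    PSet w z S → z ^ (C * A) ≤ M → ∀ α β : ℤ, (∀ p ∈ S, ¬ (p : ℤ) ∣ α) →
    ∑ h ∈ Finset.Ioo (-(M : ℤ)) M, Ers (9 / 20) S (α * h + β) ≤ C * M * er C A w := by
  obtain ⟨C, hC1, hC⟩ := ers_avg (9 / 20) (by norm_num) (by norm_num)
  refine ⟨⌈C⌉₊ * 3 + 3, by omega, ?_⟩
  intro A w z M S hA hw hz hS hM α β hα
  set C' := ⌈C⌉₊ * 3 + 3 with hC'
  have hw1 : 1 ≤ w := by omega
  have hA1 : 1 ≤ A := by omega
  have hz2 : (2 : ℝ) ≤ z := by exact_mod_cast hz
  have hM1 : 1 ≤ M := le_trans (Nat.one_le_pow _ _ (by omega)) hM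
  have hIoo : Finset.Ioo (-(M : ℤ)) M = Finset.Ico (-(M : ℤ) + 1) M := by
    ext x; simp only [Finset.mem_Ioo, Finset.mem_Ico]; omega
  rw [hIoo]
  have h1 := hC w z S hw1 hS α β hα (-(M : ℤ) + 1) M (by omega)
  have h2 : (w : ℝ) ^ (-(9 / 20 : ℝ)) ≤ er C' A w := by
    apply wpow_le_er hw1
    have : (3 : ℝ) ≤ C' := by exact_mod_cast (by omega : 3 ≤ C')
    calc 1 / (C' : ℝ) ≤ 1 / 3 := by
          apply one_div_le_one_div_of_le <;> linarith
      _ ≤ 9 / 20 := by norm_num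
  have h3 : (z : ℝ) ≤ M * er C' A w := by
    have := zpow_le_er (C := C') (C' := C') (A := A) (w := w) (z := z) (k := 1) (M := M)
      (by omega) hA1 (by omega) hz hM
    refine le_trans ?_ this
    calc (z : ℝ) = (z : ℝ) ^ 1 := (pow_one _).symm
      _ ≤ (z : ℝ) ^ (A + 1) := pow_le_pow_right₀ (by linarith) (by omega)
  have her := er_nonneg C' A w
  have hCc : C ≤ ⌈C⌉₊ := Nat.le_ceil C
  have hC0 : 0 ≤ C := by linarith
  have hMr : (1 : ℝ) ≤ M := by exact_mod_cast hM1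
  calc ∑ h ∈ Finset.Ico (-(M : ℤ) + 1) M, Ers (9 / 20) S (α * h + β)
      ≤ C * (((M : ℤ) - ((-(M : ℤ) + 1 : ℤ) : ℝ)) * (w : ℝ) ^ (-(9 / 20 : ℝ)) + z) := h1
    _ ≤ C * ((2 * M) * er C' A w + M * er C' A w) := by
        apply mul_le_mul_of_nonneg_left _ hC0
        apply add_le_add _ h3
        apply mul_le_mul _ h2 (Real.rpow_nonneg (by positivity) _) (by positivity)
        push_cast
        linarith
    _ = (C * 3) * M * er C' A w := by ring
    _ ≤ C' * M * er C' A w := by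
        gcongr
        rw [hC']
        push_cast
        linarith

/-! ### finite sums over `ℤ` -/

theorem sum_shift {E : Type*} [AddCommMonoid E] {f : ℤ → E} {a b : ℤ}
    (hf : ∀ n, n ∉ Finset.Ico a b → f n = 0) (k : ℤ) (T : Finset ℤ)
    (hT : ∀ n, n + k ∈ Finset.Ico a b → n ∈ T) :
    ∑ n ∈ T, f (n + k) = ∑ n ∈ Finset.Ico a b, f n := by
  classical
  have h1 : ∑ n ∈ T, f (n + k) = ∑ m ∈ T.map (Equiv.addRight k).toEmbedding, f m := by
    rw [Finset.sum_map]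
    rfl
  rw [h1]
  symm
  apply Finset.sum_subset
  · intro m hm
    rw [Finset.mem_map]
    refine ⟨m - k, hT _ (by simpa using hm), by simp⟩
  · intro m _ hm
    exact hf m hm

/-- `|∑ a|^2` as a sum over differences -/
theorem normsq_expand {L : ℕ} {a : ℤ → ℂ} (ha : ∀ n, n ∉ Finset.Ico (0 : ℤ) L → a n = 0) :
    ((‖∑ n ∈ Finset.Ico (0 : ℤ) L, a n‖ ^ 2 : ℝ) : ℂ) =
      ∑ k ∈ Finset.Ioo (-(L : ℤ)) L, ∑ n ∈ Finset.Ico (0 : ℤ) L,
        a n * (starRingEnd ℂ) (a (n + k)) := by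
  have h1 : ((‖∑ n ∈ Finset.Ico (0 : ℤ) L, a n‖ ^ 2 : ℝ) : ℂ) =
      (∑ n ∈ Finset.Ico (0 : ℤ) L, a n) * (starRingEnd ℂ) (∑ n ∈ Finset.Ico (0 : ℤ) L, a n) := by
    rw [Complex.mul_conj, Complex.normSq_eq_norm_sq]
  rw [h1, map_sum, Finset.sum_mul, Finset.sum_comm]
  apply Finset.sum_congr rfl
  intro n hn
  rw [Finset.mul_sum]
  have := sum_shift (f := fun m => a n * (starRingEnd ℂ) (a m)) (a := 0) (b := L)
    (by intro m hm; simp [ha m hm]) n (Finset.Ioo (-(L : ℤ)) L) (by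
      intro k hk
      simp only [Finset.mem_Ico, Finset.mem_Ioo] at hk hn ⊢
      omega)
  rw [← this]
  apply Finset.sum_congr rfl
  intro k _
  rw [add_comm k n]

/-- mean square of a cross correlation -/
theorem cross_corr {L : ℕ} {P Q : ℤ → ℂ} (hP : ∀ n, n ∉ Finset.Ico (0 : ℤ) L → P n = 0)
    (hQ : ∀ n, n ∉ Finset.Ico (0 : ℤ) L → Q n = 0) :
    ((∑ h ∈ Finset.Ioo (-(L : ℤ)) L, ‖∑ n ∈ Finset.Ico (0 : ℤ) L, P n * Q (n + h)‖ ^ 2 : ℝ) : ℂ) =
      ∑ j ∈ Finset.Ioo (-(L : ℤ)) L,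
        (∑ n ∈ Finset.Ico (0 : ℤ) L, P n * (starRingEnd ℂ) (P (n + j))) *
        (∑ n ∈ Finset.Ico (0 : ℤ) L, Q n * (starRingEnd ℂ) (Q (n + j))) := by
  push_cast
  have h1 : ∀ h : ℤ, ((‖∑ n ∈ Finset.Ico (0 : ℤ) L, P n * Q (n + h)‖ : ℝ) : ℂ) ^ 2 =
      ∑ k ∈ Finset.Ioo (-(L : ℤ)) L, ∑ n ∈ Finset.Ico (0 : ℤ) L,
        P n * Q (n + h) * (starRingEnd ℂ) (P (n + k) * Q (n + k + h)) := by
    intro h
    have := normsq_expand (L := L) (a := fun n => P n * Q (n + h)) (by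
      intro n hn; simp [hP n hn])
    rw [← this]
    push_cast
    rfl
  simp only [h1]
  rw [Finset.sum_comm]
  apply Finset.sum_congr rfl
  intro k _
  rw [Finset.sum_comm, Finset.sum_mul]
  apply Finset.sum_congr rfl
  intro n hn
  have h2 := sum_shift (f := fun m => Q m * (starRingEnd ℂ) (Q (m + k))) (a := 0) (b := L)
    (by intro m hm; simp [hQ m hm]) n (Finset.Ioo (-(L : ℤ)) L) (by
      intro h hh
      simp only [Finset.mem_Ico, Finset.mem_Ioo] at hh hn ⊢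
      omega)
  rw [← h2, Finset.mul_sum]
  apply Finset.sum_congr rfl
  intro h _
  rw [map_mul, add_comm h n, add_right_comm n h k]
  ring

end Pool.Agent.Lib.H18GB
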