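import Pool.Agent.Lib.H18GB.Corr
import Pool.Agent.Lib.H18GB.Ers
import Pool.Agent.Lib.H18GB.Tools

/-!
# Project GB: EXP1

Throughout `S` is a set of primes in `(w, z]`, `IsW w W`, and all intervals have length at least
`z ^ (C A)`; errors are `er C A w = 2^(-A/C) + w^(-1/C)`, and powers `er^(1/2)` etc. are absorbed
by increasing `C`. All sums of products of `rho`'s come from `corr0` / `corr`: the error terms are
`Ers (9/10) S (discriminant)` with discriminants affine in the averaged variables, with coefficient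
`± W^i * (1, 2 or 3)` or a prime `> z`; use `ers_mul`, `ers_pow_le`, `ers_avg`.
The error term `z^(A+k)` is `≤ er * (length)` when `z ^ (C A) ≤ length`.
-/

namespace Pool.Agent.Lib.H18GB

open Finset Pool.Agent.Lib.Sieve

theorem sq_finish {x K M : ℝ} {C A w : ℕ} (_hx : 0 ≤ x) (hK : 1 ≤ K) (hM : 0 ≤ M)
    (h : x ^ 2 ≤ K * M ^ 2 * er C A w) : x ≤ K * M * er (2 * C) A w := by
  have h1 : x ≤ Real.sqrt (K * M ^ 2 * er C A w) := Real.le_sqrt_of_sq_le h
  have h2 : Real.sqrt (K * M ^ 2 * er C A w) = Real.sqrt K * M * Real.sqrt (er C A w) := by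
    rw [Real.sqrt_mul (by positivity), Real.sqrt_mul (by positivity), Real.sqrt_sq hM]
  have h3 : Real.sqrt K ≤ K := by
    rw [Real.sqrt_le_left (by linarith)]
    nlinarith
  rw [h2] at h1
  refine h1.trans ?_
  exact mul_le_mul (mul_le_mul_of_nonneg_right h3 hM) er_sqrt_le (Real.sqrt_nonneg _)
    (by positivity)

theorem ShE_two (S : Finset ℕ) (k : ℤ) : ShE S ![0, k] = 2 * Ers (9 / 10) S k := by
  unfold ShE
  have h1 : (Finset.univ.filter (fun j : Fin 2 => (0 : Fin 2) ≠ j)) = {1} := by decide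
  have h2 : (Finset.univ.filter (fun j : Fin 2 => (1 : Fin 2) ≠ j)) = {0} := by decide
  rw [Fin.sum_univ_two, h1, h2]
  simp only [Finset.sum_singleton, Matrix.cons_val_zero, Matrix.cons_val_one, sub_zero, zero_sub,
    ers_neg]
  ring

theorem abs_sum_le_Ioo {L M : ℕ} (h : L ≤ M) {f : ℤ → ℝ} (hf : ∀ k, 0 ≤ f k) :
    ∑ k ∈ Finset.Ioo (-(L : ℤ)) L, f k ≤ ∑ k ∈ Finset.Ioo (-(M : ℤ)) M, f k := by
  apply Finset.sum_le_sum_of_subset_of_nonneg
  · intro k hk
    simp only [Finset.mem_Ioo] at hk ⊢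
    omega
  · intro k _ _
    exact hf k

theorem card_Ioo_le (M : ℕ) : ((Finset.Ioo (-(M : ℤ)) M).card : ℝ) ≤ 2 * M := by
  rw [Int.card_Ioo]
  have : ((M : ℤ) - (-(M : ℤ)) - 1).toNat ≤ 2 * M := by omega
  exact_mod_cast this

/-- Chunk EXP1. Proof: `|∑|^2 = ∑_k ∑_n (ρ-1)(n) (ρ-1)(n+k) e(-θk) ≤ ∑_{|k|<M} |∑_{n ∈ I_k} ...|`,
and expand the product, `corr0 2, corr0 1`; average over `k` with `ers_avg`. -/
theorem exp1 : ∃ C : ℕ, 1 ≤ C ∧ ∀ (A w z W M : ℕ) (S : Finset ℕ), C ≤ A → C ≤ w → 2 ≤ z →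
    PSet w z S → IsW w W → z ^ (C * A) ≤ M → ∀ (r a b : ℤ), a ≤ b → b - a ≤ M → ∀ θ : ℝ,
    ‖∑ n ∈ Finset.Ico a b, ((rho S (r + W * n) - 1 : ℝ) : ℂ) * e (θ * n)‖ ≤ C * er C A w * M := by
  obtain ⟨C1, hC11, hC1⟩ := corr_m1 2 (by norm_num)
  obtain ⟨C2, hC21, hC2⟩ := ers_avg'
  refine ⟨2 * (2 * C1 * (1 + C2)), by nlinarith, ?_⟩
  intro A w z W M S hA hw hz hS hW hM r a b hab hbM θ
  set C3 := 2 * C1 * (1 + C2) with hC3
  have hC13 : C1 ≤ C3 := by nlinarith
  have hC23 : C2 ≤ C3 := by nlinarith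
  have hw1 : 1 ≤ w := by nlinarith
  have hzM : ∀ c, c ≤ 2 * C3 → z ^ (c * A) ≤ M := fun c hc =>
    (Nat.pow_le_pow_right (by omega) (Nat.mul_le_mul_right A hc)).trans hM
  obtain ⟨L, hL⟩ : ∃ L : ℕ, b - a = L := ⟨(b - a).toNat, by omega⟩
  have hLM : L ≤ M := by
    have : (L : ℤ) ≤ M := by rw [← hL]; exact hbM
    exact_mod_cast this
  -- shift to the origin
  set r' := r + W * a with hr'
  have hX : ∑ n ∈ Finset.Ico a b, ((rho S (r + W * n) - 1 : ℝ) : ℂ) * e (θ * n) =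
      ∑ n ∈ Finset.Ico (0 : ℤ) L, ((rm1 S W r' L n : ℝ) : ℂ) * e (θ * (n + a)) := by
    have := sum_shift (a := a) (b := b) (f := fun n : ℤ => if n ∈ Finset.Ico a b then
      ((rho S (r + W * n) - 1 : ℝ) : ℂ) * e (θ * n) else 0) (by intro n hn; simp only [if_neg hn]) a
      (Finset.Ico (0 : ℤ) L) (by
        intro n hn
        simp only [Finset.mem_Ico] at hn ⊢
        omega)
    have h2 : ∑ n ∈ Finset.Ico a b, ((rho S (r + W * n) - 1 : ℝ) : ℂ) * e (θ * n) =
        ∑ n ∈ Finset.Ico a b, (fun n : ℤ => if n ∈ Finset.Ico a b then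
      ((rho S (r + W * n) - 1 : ℝ) : ℂ) * e (θ * n) else 0) n := by
      apply Finset.sum_congr rfl
      intro n hn
      simp only [if_pos hn]
    rw [h2, ← this]
    apply Finset.sum_congr rfl
    intro n hn
    have hn' : n + a ∈ Finset.Ico a b := by
      simp only [Finset.mem_Ico] at hn ⊢
      omega
    simp only [if_pos hn', rm1, if_pos hn]
    have : r + (W : ℤ) * (n + a) = r' + W * n := by rw [hr']; ring
    rw [this]
    push_cast
    rfl
  rw [hX]
  set f : ℤ → ℂ := fun n => ((rm1 S W r' L n : ℝ) : ℂ) * e (θ * (n + a)) with hf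
  have hf0 : ∀ n, n ∉ Finset.Ico (0 : ℤ) L → f n = 0 := by
    intro n hn
    simp only [hf, rm1, if_neg hn]
    simp
  have hexp := normsq_expand hf0
  have hcorr : ∀ k : ℤ, ‖∑ n ∈ Finset.Ico (0 : ℤ) L, f n * (starRingEnd ℂ) (f (n + k))‖ ≤
      C1 * M * (er C1 A w + 2 * Ers (9 / 20) S k) := by
    intro k
    have e1 : ∑ n ∈ Finset.Ico (0 : ℤ) L, f n * (starRingEnd ℂ) (f (n + k)) =
        ((∑ n ∈ Finset.Ico (0 : ℤ) L, ∏ i, rm1 S W r' L (n + ![0, k] i) : ℝ) : ℂ) * e (-(θ * k)) := by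
      push_cast
      rw [Finset.sum_mul]
      apply Finset.sum_congr rfl
      intro n _
      simp only [hf, Fin.prod_univ_two, Matrix.cons_val_zero, Matrix.cons_val_one, add_zero]
      rw [map_mul, Complex.conj_ofReal, ← e_neg]
      have : e (θ * (n + a)) * e (-(θ * ((n + k : ℤ) + a))) = e (-(θ * k)) := by
        rw [← e_add]
        congr 1
        push_cast
        ring
      calc _ = ((rm1 S W r' L n : ℝ) : ℂ) * ((rm1 S W r' L (n + k) : ℝ) : ℂ) *
            (e (θ * (n + a)) * e (-(θ * ((n + k : ℤ) + a)))) := by ring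
        _ = _ := by rw [this]
    rw [e1, norm_mul, norm_e, mul_one, Complex.norm_real, Real.norm_eq_abs]
    refine (hC1 A w z W M L S (by nlinarith) (by nlinarith) hz hS hW (hzM _ (by nlinarith)) hLM r'
      ![0, k]).trans ?_
    rw [ShE_two]
    have := ers_le_920 hS k
    gcongr
  have hsq : ‖∑ n ∈ Finset.Ico (0 : ℤ) L, f n‖ ^ 2 ≤ (2 * C1 * (1 + C2) : ℝ) * (M : ℝ) ^ 2 *
      er C3 A w := by
    have h1 : ‖∑ n ∈ Finset.Ico (0 : ℤ) L, f n‖ ^ 2 ≤ ∑ k ∈ Finset.Ioo (-(L : ℤ)) L,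
        (C1 * M * (er C1 A w + 2 * Ers (9 / 20) S k)) := by
      have h2 : ‖(((‖∑ n ∈ Finset.Ico (0 : ℤ) L, f n‖ ^ 2 : ℝ)) : ℂ)‖ =
          ‖∑ n ∈ Finset.Ico (0 : ℤ) L, f n‖ ^ 2 := by
        rw [Complex.norm_real, Real.norm_of_nonneg (by positivity)]
      rw [← h2, hexp]
      exact (norm_sum_le _ _).trans (Finset.sum_le_sum fun k _ => hcorr k)
    refine h1.trans ((abs_sum_le_Ioo hLM (fun k => ?_)).trans ?_)
    · exact mul_nonneg (by positivity) (add_nonneg (er_nonneg _ _ _)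
        (mul_nonneg (by norm_num) (Ers_nonneg _ _ _)))
    rw [← Finset.mul_sum, Finset.sum_add_distrib, Finset.sum_const, nsmul_eq_mul, ← Finset.mul_sum]
    have h3 := hC2 A w z M S (by nlinarith) (by nlinarith) hz hS (hzM _ (by nlinarith)) 1 0
      (by
        intro p hp h
        have hpp := (hS p hp).1
        have : (p : ℤ) ∣ 1 := h
        have := Int.natCast_dvd_natCast.mp (by simpa using this : (p : ℤ) ∣ ((1 : ℕ) : ℤ))
        exact hpp.one_lt.ne' (Nat.dvd_one.mp this))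
    simp only [one_mul, add_zero] at h3
    have h4 := card_Ioo_le M
    have h5 : er C1 A w ≤ er C3 A w := tls_er_mono hC11 hC13 hw1
    have h6 : er C2 A w ≤ er C3 A w := tls_er_mono hC21 hC23 hw1
    have h7 := er_nonneg C1 A w
    have h8 := er_nonneg C3 A w
    have hMn : (0 : ℝ) ≤ M := by positivity
    calc (C1 * M : ℝ) * ((Finset.Ioo (-(M : ℤ)) M).card * er C1 A w +
          2 * ∑ k ∈ Finset.Ioo (-(M : ℤ)) M, Ers (9 / 20) S k)
        ≤ (C1 * M : ℝ) * ((2 * M) * er C3 A w + 2 * (C2 * M * er C3 A w)) := by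
          apply mul_le_mul_of_nonneg_left _ (by positivity)
          apply add_le_add
          · exact mul_le_mul h4 h5 h7 (by positivity)
          · apply mul_le_mul_of_nonneg_left _ (by norm_num)
            exact h3.trans (mul_le_mul_of_nonneg_left h6 (by positivity))
      _ = (2 * C1 * (1 + C2) : ℝ) * (M : ℝ) ^ 2 * er C3 A w := by ring
  have hK : (1 : ℝ) ≤ (2 * C1 * (1 + C2) : ℝ) := by
    have h1 : (1 : ℝ) ≤ C1 := by exact_mod_cast hC11
    have h2 : (1 : ℝ) ≤ C2 := by exact_mod_cast hC21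
    nlinarith
  refine (sq_finish (norm_nonneg _) hK (by positivity) hsq).trans ?_
  have h9 := er_nonneg (2 * C3) A w
  have hC3r : ((2 * C3 : ℕ) : ℝ) = 2 * (2 * C1 * (1 + C2)) := by rw [hC3]; push_cast; ring
  rw [hC3r]
  have hM0 : (0 : ℝ) ≤ M := by positivity
  have : 0 ≤ M * er (2 * C3) A w := by positivity
  nlinarith

end Pool.Agent.Lib.H18GB
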