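import Pool.Agent.Lib.H18GB.Tools
import Pool.Agent.Lib.H18GB.Exp1

/-!
# Project GB: tools for parallelograms (four shifts `0, k, j, j + k`)
-/

namespace Pool.Agent.Lib.H18GB

open Finset Pool.Agent.Lib.Sieve

theorem ShE_four_le (S : Finset ℕ) (k j : ℤ) : ShE S ![0, k, j, j + k] ≤
    4 * (Ers (9 / 10) S k + Ers (9 / 10) S j + Ers (9 / 10) S (j + k) + Ers (9 / 10) S (j - k)) := by
  have h1 := Ers_nonneg (9 / 10) S k
  have h2 := Ers_nonneg (9 / 10) S j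
  have h3 := Ers_nonneg (9 / 10) S (j + k)
  have h4 := Ers_nonneg (9 / 10) S (j - k)
  have e1 : Ers (9 / 10) S (0 - k) = Ers (9 / 10) S k := by rw [zero_sub, ers_neg]
  have e2 : Ers (9 / 10) S (0 - j) = Ers (9 / 10) S j := by rw [zero_sub, ers_neg]
  have e3 : Ers (9 / 10) S (0 - (j + k)) = Ers (9 / 10) S (j + k) := by rw [zero_sub, ers_neg]
  have e4 : Ers (9 / 10) S (k - j) = Ers (9 / 10) S (j - k) := by rw [← ers_neg, neg_sub]
  have e5 : Ers (9 / 10) S (k - (j + k)) = Ers (9 / 10) S j := by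
    rw [← ers_neg]; congr 1; ring
  have e6 : Ers (9 / 10) S (j - (j + k)) = Ers (9 / 10) S k := by
    rw [← ers_neg]; congr 1; ring
  have e7 : Ers (9 / 10) S (j + k - k) = Ers (9 / 10) S j := by congr 1; ring
  have e8 : Ers (9 / 10) S (j + k - j) = Ers (9 / 10) S k := by congr 1; ring
  have hfil : ∀ i : Fin 4, ∑ l ∈ Finset.univ.filter (fun l => i ≠ l),
      Ers (9 / 10) S (![0, k, j, j + k] l - ![0, k, j, j + k] i) =
      ∑ l : Fin 4, if i ≠ l then Ers (9 / 10) S (![0, k, j, j + k] l - ![0, k, j, j + k] i)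
        else 0 := fun i => Finset.sum_filter _ _
  unfold ShE
  simp only [hfil, Fin.sum_univ_four]
  have d01 : (0 : Fin 4) ≠ 1 := by decide
  have d02 : (0 : Fin 4) ≠ 2 := by decide
  have d03 : (0 : Fin 4) ≠ 3 := by decide
  have d12 : (1 : Fin 4) ≠ 2 := by decide
  have d13 : (1 : Fin 4) ≠ 3 := by decide
  have d23 : (2 : Fin 4) ≠ 3 := by decide
  simp only [ne_eq, not_true_eq_false, if_false, d01, d02, d03, d12, d13, d23, d01.symm, d02.symm,
    d03.symm, d12.symm, d13.symm, d23.symm, not_false_eq_true, if_true, Matrix.cons_val_zero,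
    Matrix.cons_val_one, Matrix.cons_val]
  rw [e1, e2, e3, e4, e5, e6, e7, e8, sub_zero, sub_zero, sub_zero]
  linarith

/-- the averaged quantity -/
noncomputable def QE (S : Finset ℕ) (k j : ℤ) : ℝ :=
  Ers (9 / 20) S k + Ers (9 / 20) S j + Ers (9 / 20) S (j + k) + Ers (9 / 20) S (j - k)

theorem QE_nonneg (S : Finset ℕ) (k j : ℤ) : 0 ≤ QE S k j :=
  add_nonneg (add_nonneg (add_nonneg (Ers_nonneg _ _ _) (Ers_nonneg _ _ _)) (Ers_nonneg _ _ _))
    (Ers_nonneg _ _ _)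

/-- powers of the error of four shifts are bounded by `QE` -/
theorem ShE_four_pow : ∃ C : ℕ, 1 ≤ C ∧ ∀ (w z : ℕ) (S : Finset ℕ), PSet w z S → ∀ k j : ℤ,
    ShE S ![0, k, j, j + k] ≤ C * QE S k j ∧ ShE S ![0, k, j, j + k] ^ 2 ≤ C * QE S k j := by
  obtain ⟨C, hC1, hC⟩ := ers_pow_le
  refine ⟨⌈C⌉₊ * 64 + 4, by omega, ?_⟩
  intro w z S hS k j
  have h0 := ShE_four_le S k j
  have hn := ShE_nonneg S ![0, k, j, j + k]
  have hCc : C ≤ ⌈C⌉₊ := Nat.le_ceil C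
  have hQ := QE_nonneg S k j
  have a1 := Ers_nonneg (9 / 10) S k
  have a2 := Ers_nonneg (9 / 10) S j
  have a3 := Ers_nonneg (9 / 10) S (j + k)
  have a4 := Ers_nonneg (9 / 10) S (j - k)
  have b1 := ers_le_920 hS k
  have b2 := ers_le_920 hS j
  have b3 := ers_le_920 hS (j + k)
  have b4 := ers_le_920 hS (j - k)
  have c1 := hC w z S k 2 hS (by norm_num) (by norm_num)
  have c2 := hC w z S j 2 hS (by norm_num) (by norm_num)
  have c3 := hC w z S (j + k) 2 hS (by norm_num) (by norm_num)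
  have c4 := hC w z S (j - k) 2 hS (by norm_num) (by norm_num)
  set x1 := Ers (9 / 10) S k
  set x2 := Ers (9 / 10) S j
  set x3 := Ers (9 / 10) S (j + k)
  set x4 := Ers (9 / 10) S (j - k)
  have hQe : QE S k j = Ers (9 / 20) S k + Ers (9 / 20) S j + Ers (9 / 20) S (j + k) +
    Ers (9 / 20) S (j - k) := rfl
  constructor
  · push_cast
    have h2 : 4 * (x1 + x2 + x3 + x4) ≤ 4 * QE S k j := by rw [hQe]; linarith
    have h3 : 0 ≤ (⌈C⌉₊ : ℝ) * 64 * QE S k j := by positivity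
    nlinarith
  · push_cast
    have h2 : ShE S ![0, k, j, j + k] ^ 2 ≤ (4 * (x1 + x2 + x3 + x4)) ^ 2 :=
      pow_le_pow_left₀ hn h0 2
    have h3 : (4 * (x1 + x2 + x3 + x4)) ^ 2 ≤ 64 * (x1 ^ 2 + x2 ^ 2 + x3 ^ 2 + x4 ^ 2) := by
      nlinarith [sq_nonneg (x1 - x2), sq_nonneg (x1 - x3), sq_nonneg (x1 - x4), sq_nonneg (x2 - x3),
        sq_nonneg (x2 - x4), sq_nonneg (x3 - x4)]
    have h4 : x1 ^ 2 + x2 ^ 2 + x3 ^ 2 + x4 ^ 2 ≤ C * QE S k j := by rw [hQe]; linarith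
    have h5 : C * QE S k j ≤ ⌈C⌉₊ * QE S k j := mul_le_mul_of_nonneg_right hCc hQ
    nlinarith

theorem prime_not_dvd_one {w z : ℕ} {S : Finset ℕ} (hS : PSet w z S) : ∀ p ∈ S, ¬ (p : ℤ) ∣ 1 := by
  intro p hp h
  have hpp := (hS p hp).1
  have := Int.natCast_dvd_natCast.mp (by simpa using h : (p : ℤ) ∣ ((1 : ℕ) : ℤ))
  exact hpp.one_lt.ne' (Nat.dvd_one.mp this)

/-- average of `QE` -/
theorem QE_avg : ∃ C : ℕ, 1 ≤ C ∧ ∀ (A w z M : ℕ) (S : Finset ℕ), C ≤ A → C ≤ w → 2 ≤ z →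
    PSet w z S → z ^ (C * A) ≤ M →
    ∑ k ∈ Finset.Ioo (-(M : ℤ)) M, ∑ j ∈ Finset.Ioo (-(M : ℤ)) M, QE S k j ≤
      C * M ^ 2 * er C A w := by
  obtain ⟨C, hC1, hC⟩ := ers_avg'
  refine ⟨8 * C, by omega, ?_⟩
  intro A w z M S hA hw hz hS hM
  have hw1 : 1 ≤ w := by omega
  have hM' : z ^ (C * A) ≤ M :=
    (Nat.pow_le_pow_right (by omega) (Nat.mul_le_mul_right A (by omega))).trans hM
  have hav := fun β : ℤ => hC A w z M S (by omega) (by omega) hz hS hM' 1 β (prime_not_dvd_one hS)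
  simp only [one_mul] at hav
  have h0 := hav 0
  simp only [add_zero] at h0
  set K := Finset.Ioo (-(M : ℤ)) M with hK
  have hcard := card_Ioo_le M
  rw [← hK] at hcard
  have her := er_nonneg C A w
  have hX : (0 : ℝ) ≤ C * M * er C A w := by positivity
  have key : ∀ f : ℤ → ℝ, (∀ k ∈ K, f k ≤ C * M * er C A w) →
      ∑ k ∈ K, f k ≤ 2 * M * (C * M * er C A w) := by
    intro f hf
    calc ∑ k ∈ K, f k ≤ ∑ _k ∈ K, C * M * er C A w := Finset.sum_le_sum hf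
      _ = K.card * (C * M * er C A w) := by rw [Finset.sum_const, nsmul_eq_mul]
      _ ≤ 2 * M * (C * M * er C A w) := mul_le_mul_of_nonneg_right hcard hX
  have h1 : ∑ k ∈ K, ∑ _j ∈ K, Ers (9 / 20) S k ≤ 2 * M * (C * M * er C A w) := by
    rw [Finset.sum_comm]
    exact key _ fun _ _ => h0
  have h2 : ∑ _k ∈ K, ∑ j ∈ K, Ers (9 / 20) S j ≤ 2 * M * (C * M * er C A w) :=
    key _ fun _ _ => h0
  have h3 : ∑ k ∈ K, ∑ j ∈ K, Ers (9 / 20) S (j + k) ≤ 2 * M * (C * M * er C A w) :=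
    key _ fun k _ => hav k
  have h4 : ∑ k ∈ K, ∑ j ∈ K, Ers (9 / 20) S (j - k) ≤ 2 * M * (C * M * er C A w) :=
    key _ fun k _ => by simpa [sub_eq_add_neg] using hav (-k)
  have h5 : ∑ k ∈ K, ∑ j ∈ K, QE S k j = ∑ k ∈ K, ∑ _j ∈ K, Ers (9 / 20) S k +
      ∑ _k ∈ K, ∑ j ∈ K, Ers (9 / 20) S j + ∑ k ∈ K, ∑ j ∈ K, Ers (9 / 20) S (j + k) +
      ∑ k ∈ K, ∑ j ∈ K, Ers (9 / 20) S (j - k) := by
    unfold QE
    simp only [Finset.sum_add_distrib]
  have h6 : er C A w ≤ er (8 * C) A w := tls_er_mono hC1 (by omega) hw1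
  rw [h5]
  calc _ ≤ 4 * (2 * M * (C * M * er C A w)) := by linarith
    _ = ((8 * C : ℕ) : ℝ) * M ^ 2 * er C A w := by push_cast; ring
    _ ≤ ((8 * C : ℕ) : ℝ) * M ^ 2 * er (8 * C) A w := by gcongr

/-- parallelogram correlations of `rho - 1` -/
theorem par_m1 : ∃ C : ℕ, 1 ≤ C ∧ ∀ (A w z W M : ℕ) (S : Finset ℕ),
    C ≤ A → C ≤ w → 2 ≤ z → PSet w z S → IsW w W → z ^ (C * A) ≤ M →
    ∀ (r k j : ℤ),
    |∑ x ∈ Finset.Ico (0 : ℤ) M, rm1 S W r M x * rm1 S W r M (x + k) *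
      (rm1 S W r M (x + j) * rm1 S W r M (x + j + k))| ≤
      C * M * (er C A w + ShE S ![0, k, j, j + k]) := by
  obtain ⟨C, hC1, hC⟩ := corr_m1 4 (by norm_num)
  refine ⟨C, hC1, ?_⟩
  intro A w z W M S hA hw hz hS hW hM r k j
  have h := hC A w z W M M S hA hw hz hS hW hM le_rfl r ![0, k, j, j + k]
  refine le_of_eq_of_le ?_ h
  congr 1
  apply Finset.sum_congr rfl
  intro x _
  rw [Fin.prod_univ_four]
  simp only [Matrix.cons_val_zero, Matrix.cons_val_one, Matrix.cons_val, add_zero]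
  rw [← add_assoc x j k]
  ring

/-- parallelogram correlations of functions dominated by `1 + rho` -/
theorem par_p1 : ∃ C : ℕ, 1 ≤ C ∧ ∀ (A w z W M : ℕ) (S : Finset ℕ),
    C ≤ A → C ≤ w → 2 ≤ z → PSet w z S → IsW w W → z ^ (C * A) ≤ M →
    ∀ (r : ℤ) (κ : ℝ) (g : ℤ → ℂ), 0 ≤ κ → Maj κ S W r g → ∀ (k j : ℤ),
    ∑ x ∈ Finset.Ico (0 : ℤ) M, ‖g x‖ * ‖g (x + k)‖ * (‖g (x + j)‖ * ‖g (x + j + k)‖) ≤
      C * κ ^ 4 * M * (1 + ShE S ![0, k, j, j + k]) := by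
  obtain ⟨C, hC1, hC⟩ := corr_p1 4
  refine ⟨C, hC1, ?_⟩
  intro A w z W M S hA hw hz hS hW hM r κ g hκ hg k j
  have h := hC A w z W M M S hA hw hz hS hW hM le_rfl r ![0, k, j, j + k] 0
  rw [zero_add] at h
  have hρ : ∀ n : ℤ, 0 ≤ 1 + rho S (r + W * n) := fun n => by
    have := rho_nonneg hS.prime (r + W * n); linarith
  calc ∑ x ∈ Finset.Ico (0 : ℤ) M, ‖g x‖ * ‖g (x + k)‖ * (‖g (x + j)‖ * ‖g (x + j + k)‖)
      ≤ ∑ x ∈ Finset.Ico (0 : ℤ) M, κ ^ 4 *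
          ∏ i, (1 + rho S (r + W * (x + ![0, k, j, j + k] i))) := by
        apply Finset.sum_le_sum
        intro x _
        rw [Fin.prod_univ_four]
        simp only [Matrix.cons_val_zero, Matrix.cons_val_one, Matrix.cons_val, add_zero]
        rw [← add_assoc x j k]
        calc ‖g x‖ * ‖g (x + k)‖ * (‖g (x + j)‖ * ‖g (x + j + k)‖)
            ≤ (κ * (1 + rho S (r + W * x))) * (κ * (1 + rho S (r + W * (x + k)))) *
              ((κ * (1 + rho S (r + W * (x + j)))) * (κ * (1 + rho S (r + W * (x + j + k))))) := by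
              have i1 := hg x
              have i2 := hg (x + k)
              have i3 := hg (x + j)
              have i4 := hg (x + j + k)
              have j1 := mul_nonneg hκ (hρ x)
              have j3 := mul_nonneg hκ (hρ (x + j))
              exact mul_le_mul (mul_le_mul i1 i2 (norm_nonneg _) j1)
                (mul_le_mul i3 i4 (norm_nonneg _) j3) (by positivity)
                (mul_nonneg j1 (mul_nonneg hκ (hρ (x + k))))
          _ = _ := by ring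
    _ = κ ^ 4 * ∑ x ∈ Finset.Ico (0 : ℤ) M,
          ∏ i, (1 + rho S (r + W * (x + ![0, k, j, j + k] i))) := by rw [Finset.mul_sum]
    _ ≤ κ ^ 4 * (C * M * (1 + ShE S ![0, k, j, j + k])) := by gcongr
    _ = _ := by ring

end Pool.Agent.Lib.H18GB
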