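import Pool.Agent.Lib.H18GB.Corr
import Pool.Agent.Lib.H18GB.Ers
import Pool.Agent.Lib.H18GB.Pars
import Pool.Agent.Lib.H18GB.Tools4

/-!
# Project GB: C1A

Throughout `S` is a set of primes in `(w, z]`, `IsW w W`, and all intervals have length at least
`z ^ (C A)`; errors are `er C A w = 2^(-A/C) + w^(-1/C)`, and powers `er^(1/2)` etc. are absorbed
by increasing `C`. All sums of products of `rho`'s come from `corr0` / `corr`: the error terms are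
`Ers (9/10) S (discriminant)` with discriminants affine in the averaged variables, with coefficient
`± W^i * (1, 2 or 3)` or a prime `> z`; use `ers_mul`, `ers_pow_le`, `ers_avg`.
The error term `z^(A+k)` is `≤ er * (length)` when `z ^ (C A) ≤ length`.
-/

namespace Pool.Agent.Lib.H18GB

open Finset Pool.Agent.Lib.Sieve

/-- reflection of a sum -/
theorem c1a_sum_reflect {E : Type*} [AddCommMonoid E] {f : ℤ → E} {a b : ℤ}
    (hf : ∀ n, n ∉ Finset.Ico a b → f n = 0) (m : ℤ) (T : Finset ℤ)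
    (hT : ∀ k, m - k ∈ Finset.Ico a b → k ∈ T) :
    ∑ k ∈ T, f (m - k) = ∑ n ∈ Finset.Ico a b, f n := by
  classical
  have h1 : ∑ n ∈ T, f (m - n) = ∑ n ∈ T.map (Equiv.subLeft m).toEmbedding, f n := by
    rw [Finset.sum_map]
    rfl
  rw [h1]
  symm
  apply Finset.sum_subset
  · intro n hn
    rw [Finset.mem_map]
    refine ⟨m - n, hT _ (by simpa using hn), by simp⟩
  · intro n _ hn
    exact hf n hn

theorem weighted_cs {ι : Type*} (s : Finset ι) (v x : ι → ℝ) (hv : ∀ i ∈ s, 0 ≤ v i) :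
    (∑ i ∈ s, v i * x i) ^ 2 ≤ (∑ i ∈ s, v i) * ∑ i ∈ s, v i * x i ^ 2 := by
  have h := Finset.sum_mul_sq_le_sq_mul_sq s (fun i => Real.sqrt (v i))
    (fun i => Real.sqrt (v i) * x i)
  have e1 : ∑ i ∈ s, Real.sqrt (v i) * (Real.sqrt (v i) * x i) = ∑ i ∈ s, v i * x i := by
    apply Finset.sum_congr rfl
    intro i hi
    rw [← mul_assoc, Real.mul_self_sqrt (hv i hi)]
  have e2 : ∑ i ∈ s, Real.sqrt (v i) ^ 2 = ∑ i ∈ s, v i := by
    apply Finset.sum_congr rfl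
    intro i hi
    rw [Real.sq_sqrt (hv i hi)]
  have e3 : ∑ i ∈ s, (Real.sqrt (v i) * x i) ^ 2 = ∑ i ∈ s, v i * x i ^ 2 := by
    apply Finset.sum_congr rfl
    intro i hi
    rw [mul_pow, Real.sq_sqrt (hv i hi)]
  rw [e1, e2, e3] at h
  exact h

/-- step (1): the sum is `∑ g Φ` -/
theorem c1a_phi (M : ℕ) (f g c : ℤ → ℂ) (hf : ∀ n, n ∉ Finset.Ico (0 : ℤ) M → f n = 0)
    (hg : ∀ n, n ∉ Finset.Ico (0 : ℤ) M → g n = 0) :
    ∑ h ∈ Finset.Ioo (-(M : ℤ)) M, c h * ∑ n ∈ Finset.Ico (0 : ℤ) M, f n * g (n + h) =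
      ∑ m ∈ Finset.Ico (0 : ℤ) M, g m * ∑ k ∈ Finset.Ioo (-(M : ℤ)) M, c k * f (m - k) := by
  simp only [Finset.mul_sum]
  rw [Finset.sum_comm (s := Finset.Ico (0 : ℤ) M)]
  apply Finset.sum_congr rfl
  intro h hh
  have h1 := sum_shift (f := fun m => g m * (c h * f (m - h))) (a := 0) (b := M)
    (by intro m hm; simp [hg m hm]) h (Finset.Ioo (-(2 * M : ℤ)) (2 * M)) (by
      intro n hn
      simp only [Finset.mem_Ico, Finset.mem_Ioo] at hn hh ⊢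
      omega)
  rw [← h1]
  apply Finset.sum_subset_zero_on_sdiff
  · intro n hn
    simp only [Finset.mem_Ico, Finset.mem_Ioo] at hn ⊢
    omega
  · intro n hn
    rw [Finset.mem_sdiff] at hn
    simp [hf n hn.2]
  · intro n _
    simp only [add_sub_cancel_right]
    ring

/-- step (5): mean square of `Φ` -/
theorem c1a_meansq (M : ℕ) (f c : ℤ → ℂ) (hf : ∀ n, n ∉ Finset.Ico (0 : ℤ) M → f n = 0)
    (hc : ∀ h, ‖c h‖ ≤ 1) (m : ℝ)
    (hm : ∀ θ : ℝ, ‖∑ n ∈ Finset.Ico (0 : ℤ) M, f n * e (θ * n)‖ ≤ m) :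
    ∑ x ∈ Finset.Ico (0 : ℤ) M, ‖∑ k ∈ Finset.Ioo (-(M : ℤ)) M, c k * f (x - k)‖ ^ 2 ≤
      m ^ 2 * (2 * M) := by
  set P : ℤ → ℂ := fun s => if s ∈ Finset.Ioo (-(M : ℤ)) M then c (-s) else 0 with hP
  have hPs : ∀ n, n ∉ Finset.Ioo (-(M : ℤ)) M → P n = 0 := by
    intro n hn; simp only [hP, if_neg hn]
  have hfs : ∀ n, n ∉ Finset.Ioo (-(M : ℤ)) M → f n = 0 := by
    intro n hn
    apply hf
    simp only [Finset.mem_Ico, Finset.mem_Ioo] at hn ⊢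
    omega
  have hsub : Finset.Ico (0 : ℤ) M ⊆ Finset.Ioo (-(M : ℤ)) M := by
    intro n hn
    simp only [Finset.mem_Ico, Finset.mem_Ioo] at hn ⊢
    omega
  have hm' : ∀ θ : ℝ, ‖∑ s ∈ Finset.Ioo (-(M : ℤ)) M, f s * e (θ * s)‖ ≤ m := by
    intro θ
    have : ∑ s ∈ Finset.Ioo (-(M : ℤ)) M, f s * e (θ * s) =
        ∑ n ∈ Finset.Ico (0 : ℤ) M, f n * e (θ * n) := by
      symm
      apply Finset.sum_subset hsub
      intro n _ hn
      rw [hf n hn, zero_mul]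
    rw [this]
    exact hm θ
  have hp := pars M P f hPs hfs m hm'
  have hPn : ∑ s ∈ Finset.Ioo (-(M : ℤ)) M, ‖P s‖ ^ 2 ≤ 2 * M := by
    calc ∑ s ∈ Finset.Ioo (-(M : ℤ)) M, ‖P s‖ ^ 2 ≤ ∑ _s ∈ Finset.Ioo (-(M : ℤ)) M, (1 : ℝ) := by
          apply Finset.sum_le_sum
          intro s hs
          simp only [hP, if_pos hs]
          exact pow_le_one₀ (norm_nonneg _) (hc _)
      _ = ((Finset.Ioo (-(M : ℤ)) M).card : ℝ) := by simp
      _ ≤ 2 * M := card_Ioo_le M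
  have hΦ : ∀ x ∈ Finset.Ico (0 : ℤ) M, ∑ k ∈ Finset.Ioo (-(M : ℤ)) M, c k * f (x - k) =
      ∑ s ∈ Finset.Ioo (-(M : ℤ)) M, P (s + -x) * f s := by
    intro x hx
    have h1 := c1a_sum_reflect (f := fun n => c (x - n) * f n) (a := 0) (b := M)
      (by intro n hn; simp [hf n hn]) x (Finset.Ioo (-(M : ℤ)) M) (by
        intro k hk
        simp only [Finset.mem_Ico, Finset.mem_Ioo] at hk hx ⊢
        omega)
    simp only [sub_sub_cancel] at h1
    rw [h1]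
    apply Finset.sum_subset_zero_on_sdiff hsub
    · intro n hn
      rw [Finset.mem_sdiff] at hn
      rw [hf n hn.2, mul_zero]
    · intro n hn
      have : n + -x ∈ Finset.Ioo (-(M : ℤ)) M := by
        simp only [Finset.mem_Ico, Finset.mem_Ioo] at hn hx ⊢
        omega
      simp only [hP, if_pos this]
      congr 2
      ring
  calc ∑ x ∈ Finset.Ico (0 : ℤ) M, ‖∑ k ∈ Finset.Ioo (-(M : ℤ)) M, c k * f (x - k)‖ ^ 2
      = ∑ x ∈ Finset.Ico (0 : ℤ) M, ‖∑ s ∈ Finset.Ioo (-(M : ℤ)) M, P (s + -x) * f s‖ ^ 2 :=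
        Finset.sum_congr rfl fun x hx => by rw [hΦ x hx]
    _ = ∑ t ∈ (Finset.Ico (0 : ℤ) M).map (Equiv.neg ℤ).toEmbedding,
          ‖∑ s ∈ Finset.Ioo (-(M : ℤ)) M, P (s + t) * f s‖ ^ 2 := by
        rw [Finset.sum_map]
        rfl
    _ ≤ ∑ t ∈ Finset.Ioo (-(2 * M : ℤ)) (2 * M),
          ‖∑ s ∈ Finset.Ioo (-(M : ℤ)) M, P (s + t) * f s‖ ^ 2 := by
        apply Finset.sum_le_sum_of_subset_of_nonneg
        · intro t ht
          rw [Finset.mem_map] at ht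
          obtain ⟨x, hx, rfl⟩ := ht
          simp only [Finset.mem_Ico] at hx
          simp only [Equiv.coe_toEmbedding, Equiv.neg_apply, Finset.mem_Ioo]
          omega
        · intro _ _ _; positivity
    _ ≤ m ^ 2 * ∑ s ∈ Finset.Ioo (-(M : ℤ)) M, ‖P s‖ ^ 2 := hp
    _ ≤ m ^ 2 * (2 * M) := mul_le_mul_of_nonneg_left hPn (by positivity)

/-- step (7): the second moment of `T` -/
theorem c1a_T (M : ℕ) (f : ℤ → ℂ) (F : ℤ → ℝ) (hf : ∀ n, n ∉ Finset.Ico (0 : ℤ) M → f n = 0)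
    (hF : ∀ n, n ∉ Finset.Ico (0 : ℤ) M → F n = 0) :
    ((∑ k ∈ Finset.Ioo (-(M : ℤ)) M, ∑ k' ∈ Finset.Ioo (-(M : ℤ)) M,
      ‖∑ x ∈ Finset.Ico (0 : ℤ) M, (F x : ℂ) * (f (x - k) * (starRingEnd ℂ) (f (x - k')))‖ ^ 2 :
        ℝ) : ℂ) =
      ((∑ d ∈ Finset.Ioo (-(M : ℤ)) M, (∑ x ∈ Finset.Ico (0 : ℤ) M, F x * F (x + d)) *
        ‖∑ n ∈ Finset.Ico (0 : ℤ) M, f n * (starRingEnd ℂ) (f (n + d))‖ ^ 2 : ℝ) : ℂ) := by
  set I := Finset.Ico (0 : ℤ) M with hI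
  set K := Finset.Ioo (-(M : ℤ)) M with hK
  set A : ℤ → ℂ := fun d => ∑ n ∈ I, f n * (starRingEnd ℂ) (f (n + d)) with hA
  have hsq : ∀ v : ℂ, ((‖v‖ : ℝ) : ℂ) ^ 2 = v * (starRingEnd ℂ) v := by
    intro v
    rw [Complex.mul_conj, Complex.normSq_eq_norm_sq]
    push_cast
    rfl
  have hAk : ∀ x ∈ I, ∀ y ∈ I, ∑ k ∈ K, f (x - k) * (starRingEnd ℂ) (f (y - k)) = A (y - x) := by
    intro x hx y _
    have h1 := c1a_sum_reflect (f := fun n => f n * (starRingEnd ℂ) (f (n + (y - x)))) (a := 0) (b := M)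
      (by intro n hn; simp [hf n hn]) x K (by
        intro k hk
        simp only [hI, hK, Finset.mem_Ico, Finset.mem_Ioo] at hk hx ⊢
        omega)
    rw [hA]
    simp only
    rw [← h1]
    apply Finset.sum_congr rfl
    intro k _
    congr 3
    ring
  have hL : ∀ k k' : ℤ, ((‖∑ x ∈ I, (F x : ℂ) * (f (x - k) * (starRingEnd ℂ) (f (x - k')))‖ : ℝ) : ℂ)
      ^ 2 = ∑ x ∈ I, ∑ y ∈ I, (F x * F y : ℂ) * ((f (x - k) * (starRingEnd ℂ) (f (y - k))) *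
        (starRingEnd ℂ) (f (x - k') * (starRingEnd ℂ) (f (y - k')))) := by
    intro k k'
    rw [hsq, map_sum, Finset.sum_mul_sum]
    apply Finset.sum_congr rfl
    intro x _
    apply Finset.sum_congr rfl
    intro y _
    simp only [map_mul, Complex.conj_ofReal, Complex.conj_conj]
    ring
  push_cast
  simp only [hL]
  -- exchange the order of summation
  have h2 : ∑ k ∈ K, ∑ k' ∈ K, ∑ x ∈ I, ∑ y ∈ I, (F x * F y : ℂ) *
      ((f (x - k) * (starRingEnd ℂ) (f (y - k))) *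
        (starRingEnd ℂ) (f (x - k') * (starRingEnd ℂ) (f (y - k')))) =
      ∑ x ∈ I, ∑ y ∈ I, (F x * F y : ℂ) * (A (y - x) * (starRingEnd ℂ) (A (y - x))) := by
    calc _ = ∑ k ∈ K, ∑ x ∈ I, ∑ k' ∈ K, ∑ y ∈ I, (F x * F y : ℂ) *
          ((f (x - k) * (starRingEnd ℂ) (f (y - k))) *
          (starRingEnd ℂ) (f (x - k') * (starRingEnd ℂ) (f (y - k')))) :=
          Finset.sum_congr rfl fun k _ => Finset.sum_comm
      _ = ∑ x ∈ I, ∑ k ∈ K, ∑ k' ∈ K, ∑ y ∈ I, (F x * F y : ℂ) *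
          ((f (x - k) * (starRingEnd ℂ) (f (y - k))) *
          (starRingEnd ℂ) (f (x - k') * (starRingEnd ℂ) (f (y - k')))) := Finset.sum_comm
      _ = ∑ x ∈ I, ∑ k ∈ K, ∑ y ∈ I, ∑ k' ∈ K, (F x * F y : ℂ) *
          ((f (x - k) * (starRingEnd ℂ) (f (y - k))) *
          (starRingEnd ℂ) (f (x - k') * (starRingEnd ℂ) (f (y - k')))) :=
          Finset.sum_congr rfl fun x _ => Finset.sum_congr rfl fun k _ => Finset.sum_comm
      _ = ∑ x ∈ I, ∑ y ∈ I, ∑ k ∈ K, ∑ k' ∈ K, (F x * F y : ℂ) *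
          ((f (x - k) * (starRingEnd ℂ) (f (y - k))) *
          (starRingEnd ℂ) (f (x - k') * (starRingEnd ℂ) (f (y - k')))) :=
          Finset.sum_congr rfl fun x _ => Finset.sum_comm
      _ = _ := by
          apply Finset.sum_congr rfl
          intro x hx
          apply Finset.sum_congr rfl
          intro y hy
          rw [← hAk x hx y hy, map_sum, Finset.sum_mul_sum, Finset.mul_sum]
          apply Finset.sum_congr rfl
          intro k _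
          rw [Finset.mul_sum]
  rw [h2]
  -- now the shift `y = x + d`
  have h3 : ∀ x ∈ I, ∑ y ∈ I, (F x * F y : ℂ) * (A (y - x) * (starRingEnd ℂ) (A (y - x))) =
      ∑ d ∈ K, (F x * F (x + d) : ℂ) * (A d * (starRingEnd ℂ) (A d)) := by
    intro x hx
    have h4 := sum_shift (f := fun y : ℤ => (F x * F y : ℂ) *
      (A (y - x) * (starRingEnd ℂ) (A (y - x)))) (a := 0) (b := M)
      (by intro y hy; simp [hF y hy]) x K (by
        intro d hd
        simp only [hI, hK, Finset.mem_Ico, Finset.mem_Ioo] at hd hx ⊢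
        omega)
    rw [← h4]
    apply Finset.sum_congr rfl
    intro d _
    rw [add_sub_cancel_right, add_comm d x]
  rw [Finset.sum_congr rfl h3, Finset.sum_comm]
  apply Finset.sum_congr rfl
  intro d _
  rw [hsq, ← Finset.sum_mul]

theorem ShE_one (S : Finset ℕ) (s : Fin 1 → ℤ) : ShE S s = 0 := by
  unfold ShE
  have h1 : (Finset.univ.filter (fun j : Fin 1 => (0 : Fin 1) ≠ j)) = ∅ := by decide
  rw [Fin.sum_univ_one, h1, Finset.sum_empty]

/-- Chunk C1A. Put `Φ(m) = ∑_n f(n) c(m - n)`; the sum is `∑_m g(m) Φ(m)`.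
`|∑ g Φ|^2 ≤ (∑ κ(1+ρ)) (∑ κ (1+ρ) |Φ|^2)`, `1 + ρ = 2 + (ρ - 1)`,
`∑ |Φ|^2 ≤ m^2 * 2M` (Parseval, `pars`), and
`|∑_m (ρ-1)(m) |Φ(m)|^2| = |∑_{k,k'} c(k) conj c(k') ∑_m (ρ-1)(m) f(m-k) conj f(m-k')|
 ≤ 2M (∑_{k,k'} |...|^2)^{1/2} = 2M (∑_d D(d) |A(d)|^2)^{1/2}`,
`D(d) = ∑_m (ρ-1)(m)(ρ-1)(m+d)`, `A(d) = ∑_n f(n) conj f(n+d)`, `|A(d)| ≤ κ^2 M (4 + E(d))`,
`|D(d)| ≤ M E(d)` by `corr0 2`. -/
theorem c1a : ∃ C : ℕ, 1 ≤ C ∧ ∀ (A w z W M : ℕ) (S : Finset ℕ), C ≤ A → C ≤ w → 2 ≤ z →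
    PSet w z S → IsW w W → z ^ (C * A) ≤ M → ∀ (r1 r2 : ℤ) (κ : ℝ) (f g : ℤ → ℂ), 1 ≤ κ →
    Maj κ S W r1 f → SuppIn 0 M f → Maj κ S W r2 g → SuppIn 0 M g →
    ∀ (c : ℤ → ℂ), (∀ h, ‖c h‖ ≤ 1) → ∀ m : ℝ,
    (∀ θ : ℝ, ‖∑ n ∈ Finset.Ico (0 : ℤ) M, f n * e (θ * n)‖ ≤ m) →
    ‖∑ h ∈ Finset.Ioo (-(M : ℤ)) M, c h * ∑ n ∈ Finset.Ico (0 : ℤ) M, f n * g (n + h)‖ ^ 2 ≤
      C * κ ^ 2 * m ^ 2 * M ^ 2 + C * κ ^ 4 * er C A w * M ^ 4 := by
  obtain ⟨C1, hC11, hC1⟩ := corr_m1 2 (by norm_num)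
  obtain ⟨C2, hC21, hC2⟩ := corr_p1 2
  obtain ⟨C0, hC01, hC0⟩ := corr_p1 1
  obtain ⟨C3r, hC31r, hC3⟩ := ers_pow_le
  obtain ⟨C4, hC41, hC4⟩ := ers_avg'
  set C3 := ⌈C3r⌉₊ with hC3d
  have hC3le : C3r ≤ C3 := Nat.le_ceil _
  have hC31 : (1 : ℝ) ≤ C3 := hC31r.trans hC3le
  -- the constant of the second moment of `T`
  set C6 := 4 * (C1 * C2 ^ 2 * (2 + 40 * C3 * C4)) + (C1 + C2 + C0 + C4) with hC6
  have hb1 : C1 ≤ C6 := by rw [hC6]; exact le_add_left (by omega)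
  have hb2 : C2 ≤ C6 := by rw [hC6]; exact le_add_left (by omega)
  have hb0 : C0 ≤ C6 := by rw [hC6]; exact le_add_left (by omega)
  have hb4 : C4 ≤ C6 := by rw [hC6]; exact le_add_left (by omega)
  have hb6 : 1 ≤ C6 := hC11.trans hb1
  refine ⟨4 * C0 * C6 + 2 * C6, by nlinarith, ?_⟩
  intro A w z W M S hA hw hz hS hW hM r1 r2 κ f g hκ hf hfs hg hgs c hc m hm
  set C' := 4 * C0 * C6 + 2 * C6 with hC'
  have hb' : 2 * C6 ≤ C' := by rw [hC']; exact Nat.le_add_left _ _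
  have hb0' : 4 * C0 ≤ C' := by
    rw [hC']
    calc 4 * C0 = 4 * C0 * 1 := by ring
      _ ≤ 4 * C0 * C6 := Nat.mul_le_mul_left _ hb6
      _ ≤ _ := Nat.le_add_right _ _
  have hw1 : 1 ≤ w := by omega
  have hzM : ∀ c, c ≤ C6 → z ^ (c * A) ≤ M := fun c hc =>
    (Nat.pow_le_pow_right (by omega) (Nat.mul_le_mul_right A (by omega))).trans hM
  have hκ0 : 0 ≤ κ := by linarith
  have hMn : (0 : ℝ) ≤ M := by positivity
  set I := Finset.Ico (0 : ℤ) M with hI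
  set K := Finset.Ioo (-(M : ℤ)) M with hK
  set F : ℤ → ℝ := rm1 S W r2 M with hF
  have hF0 : ∀ n, n ∉ I → F n = 0 := by
    intro n hn
    exact if_neg hn
  set Φ : ℤ → ℂ := fun x => ∑ k ∈ K, c k * f (x - k) with hΦ
  have hX := c1a_phi M f g c hfs hgs
  rw [hX]
  have hρ : ∀ n : ℤ, 0 ≤ 1 + rho S (r2 + W * n) := fun n => by
    have := rho_nonneg hS.prime (r2 + W * n); linarith
  -- Cauchy-Schwarz
  have h1 : ‖∑ x ∈ I, g x * Φ x‖ ^ 2 ≤ κ ^ 2 * ((∑ x ∈ I, (1 + rho S (r2 + W * x))) *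
      ∑ x ∈ I, (1 + rho S (r2 + W * x)) * ‖Φ x‖ ^ 2) := by
    have h2 : ‖∑ x ∈ I, g x * Φ x‖ ≤ κ * ∑ x ∈ I, (1 + rho S (r2 + W * x)) * ‖Φ x‖ := by
      rw [Finset.mul_sum]
      refine (norm_sum_le _ _).trans (Finset.sum_le_sum fun x _ => ?_)
      rw [norm_mul, ← mul_assoc]
      exact mul_le_mul_of_nonneg_right (hg x) (norm_nonneg _)
    calc ‖∑ x ∈ I, g x * Φ x‖ ^ 2 ≤ (κ * ∑ x ∈ I, (1 + rho S (r2 + W * x)) * ‖Φ x‖) ^ 2 :=
          pow_le_pow_left₀ (norm_nonneg _) h2 2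
      _ = κ ^ 2 * (∑ x ∈ I, (1 + rho S (r2 + W * x)) * ‖Φ x‖) ^ 2 := by ring
      _ ≤ _ := mul_le_mul_of_nonneg_left
          (weighted_cs I (fun x => 1 + rho S (r2 + W * x)) (fun x => ‖Φ x‖) fun x _ => hρ x)
          (by positivity)
  -- the first factor
  have h3 : ∑ x ∈ I, (1 + rho S (r2 + W * x)) ≤ C0 * M := by
    have h := hC0 A w z W M M S (by omega) (by omega) hz hS hW (hzM _ hb0) le_rfl r2 ![0] 0
    rw [ShE_one, add_zero, mul_one, zero_add] at h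
    refine le_of_eq_of_le ?_ h
    apply Finset.sum_congr rfl
    intro x _
    rw [Fin.prod_univ_one]
    simp
  -- the mean square of `Φ`
  have h4 := c1a_meansq M f c hfs hc m hm
  -- the twisted mean square
  set T : ℤ → ℤ → ℂ := fun k k' => ∑ x ∈ I, (F x : ℂ) * (f (x - k) * (starRingEnd ℂ) (f (x - k')))
    with hT
  have h5 : |∑ x ∈ I, F x * ‖Φ x‖ ^ 2| ≤ ∑ k ∈ K, ∑ k' ∈ K, ‖T k k'‖ := by
    have e1 : ((∑ x ∈ I, F x * ‖Φ x‖ ^ 2 : ℝ) : ℂ) =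
        ∑ k ∈ K, ∑ k' ∈ K, c k * (starRingEnd ℂ) (c k') * T k k' := by
      push_cast
      have : ∀ x ∈ I, (F x : ℂ) * ((‖Φ x‖ : ℝ) : ℂ) ^ 2 = ∑ k ∈ K, ∑ k' ∈ K,
          c k * (starRingEnd ℂ) (c k') * ((F x : ℂ) * (f (x - k) * (starRingEnd ℂ) (f (x - k')))) := by
        intro x _
        have hsq : ((‖Φ x‖ : ℝ) : ℂ) ^ 2 = Φ x * (starRingEnd ℂ) (Φ x) := by
          rw [Complex.mul_conj, Complex.normSq_eq_norm_sq]
          push_cast
          rfl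
        rw [hsq, hΦ]
        simp only
        rw [map_sum, Finset.sum_mul_sum, Finset.mul_sum]
        apply Finset.sum_congr rfl
        intro k _
        rw [Finset.mul_sum]
        apply Finset.sum_congr rfl
        intro k' _
        rw [map_mul]
        ring
      rw [Finset.sum_congr rfl this, Finset.sum_comm]
      apply Finset.sum_congr rfl
      intro k _
      rw [Finset.sum_comm]
      apply Finset.sum_congr rfl
      intro k' _
      rw [hT, Finset.mul_sum]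
    have e2 : |∑ x ∈ I, F x * ‖Φ x‖ ^ 2| = ‖((∑ x ∈ I, F x * ‖Φ x‖ ^ 2 : ℝ) : ℂ)‖ := by
      rw [Complex.norm_real, Real.norm_eq_abs]
    rw [e2, e1]
    refine (norm_sum_le _ _).trans (Finset.sum_le_sum fun k _ => ?_)
    refine (norm_sum_le _ _).trans (Finset.sum_le_sum fun k' _ => ?_)
    rw [norm_mul, norm_mul, RCLike.norm_conj]
    calc ‖c k‖ * ‖c k'‖ * ‖T k k'‖ ≤ 1 * 1 * ‖T k k'‖ := by
          gcongr
          · exact hc k
          · exact hc k'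
      _ = ‖T k k'‖ := by ring
  have hcard := card_Ioo_le M
  rw [← hK] at hcard
  have h6 : (∑ k ∈ K, ∑ k' ∈ K, ‖T k k'‖) ^ 2 ≤
      (2 * M) ^ 2 * ∑ k ∈ K, ∑ k' ∈ K, ‖T k k'‖ ^ 2 := by
    rw [← Finset.sum_product', ← Finset.sum_product']
    have := sq_sum_le_card_mul_sum_sq (s := K ×ˢ K) (f := fun x : ℤ × ℤ => ‖T x.1 x.2‖)
    have hc' : ((K ×ˢ K).card : ℝ) ≤ (2 * M) ^ 2 := by
      rw [Finset.card_product]
      push_cast
      rw [sq]
      exact mul_le_mul hcard hcard (by positivity) (by positivity)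
    exact this.trans (mul_le_mul_of_nonneg_right hc' (Finset.sum_nonneg fun _ _ => by positivity))
  have h7 : ∑ k ∈ K, ∑ k' ∈ K, ‖T k k'‖ ^ 2 = ∑ d ∈ K, (∑ x ∈ I, F x * F (x + d)) *
        ‖∑ n ∈ I, f n * (starRingEnd ℂ) (f (n + d))‖ ^ 2 := by
    have := c1a_T M f F hfs hF0
    exact_mod_cast this
  -- the two correlations
  have hern := er_nonneg C1 A w
  have herle : er C1 A w ≤ 2 := tls_er_le_two hw1
  have her16 : er C1 A w ≤ er C6 A w := tls_er_mono hC11 hb1 hw1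
  have her46 : er C4 A w ≤ er C6 A w := tls_er_mono hC41 hb4 hw1
  have hern6 := er_nonneg C6 A w
  have hD : ∀ d : ℤ, |∑ x ∈ I, F x * F (x + d)| ≤ C1 * M * (er C1 A w + 2 * Ers (9 / 10) S d) := by
    intro d
    have h := hC1 A w z W M M S (by omega) (by omega) hz hS hW (hzM _ hb1) le_rfl r2 ![0, d]
    rw [ShE_two] at h
    refine le_of_eq_of_le ?_ h
    congr 1
    apply Finset.sum_congr rfl
    intro x _
    rw [Fin.prod_univ_two]
    simp [hF]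
  have hAd : ∀ d : ℤ, ‖∑ n ∈ I, f n * (starRingEnd ℂ) (f (n + d))‖ ≤
      C2 * κ ^ 2 * M * (1 + 2 * Ers (9 / 10) S d) := by
    intro d
    have h := hC2 A w z W M M S (by omega) (by omega) hz hS hW (hzM _ hb2) le_rfl r1 ![0, d] 0
    rw [ShE_two, zero_add] at h
    have hρ1 : ∀ n : ℤ, 0 ≤ 1 + rho S (r1 + W * n) := fun n => by
      have := rho_nonneg hS.prime (r1 + W * n); linarith
    calc ‖∑ n ∈ I, f n * (starRingEnd ℂ) (f (n + d))‖
        ≤ ∑ n ∈ I, κ ^ 2 * ∏ i, (1 + rho S (r1 + W * (n + ![0, d] i))) := by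
          refine (norm_sum_le _ _).trans (Finset.sum_le_sum fun n _ => ?_)
          rw [norm_mul, RCLike.norm_conj, Fin.prod_univ_two]
          simp only [Matrix.cons_val_zero, Matrix.cons_val_one, add_zero]
          calc ‖f n‖ * ‖f (n + d)‖ ≤ (κ * (1 + rho S (r1 + W * n))) *
                (κ * (1 + rho S (r1 + W * (n + d)))) :=
                mul_le_mul (hf n) (hf (n + d)) (norm_nonneg _) (mul_nonneg hκ0 (hρ1 n))
            _ = _ := by ring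
      _ = κ ^ 2 * ∑ n ∈ I, ∏ i, (1 + rho S (r1 + W * (n + ![0, d] i))) := by rw [Finset.mul_sum]
      _ ≤ κ ^ 2 * (C2 * M * (1 + 2 * Ers (9 / 10) S d)) := by gcongr
      _ = _ := by ring
  have h8 : ∑ k ∈ K, ∑ k' ∈ K, ‖T k k'‖ ^ 2 ≤
      (C1 * C2 ^ 2 * κ ^ 4 * M ^ 3) * ((2 + 40 * C3 * C4) * M * er C6 A w) := by
    rw [h7]
    have hterm : ∀ d ∈ K, (∑ x ∈ I, F x * F (x + d)) *
        ‖∑ n ∈ I, f n * (starRingEnd ℂ) (f (n + d))‖ ^ 2 ≤
        (C1 * C2 ^ 2 * κ ^ 4 * M ^ 3) * (er C6 A w + 40 * C3 * Ers (9 / 20) S d) := by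
      intro d _
      have hE := Ers_nonneg (9 / 10) S d
      have hTn := Ers_nonneg (9 / 20) S d
      have p2 := hC3 w z S d 2 hS (by norm_num) (by norm_num)
      have p3 := hC3 w z S d 3 hS (by norm_num) (by norm_num)
      have p1 := ers_le_920 hS d
      have hm1 : Ers (9 / 20) S d ≤ C3 * Ers (9 / 20) S d := by nlinarith
      have hm2 : C3r * Ers (9 / 20) S d ≤ C3 * Ers (9 / 20) S d :=
        mul_le_mul_of_nonneg_right hC3le hTn
      set E := Ers (9 / 10) S d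
      set TT := Ers (9 / 20) S d
      have q : (er C1 A w + 2 * E) * (1 + 2 * E) ^ 2 ≤ er C6 A w + 40 * C3 * TT := by
        have e1 : (er C1 A w + 2 * E) * (1 + 2 * E) ^ 2 = er C1 A w + (4 * er C1 A w + 2) * E +
            (4 * er C1 A w + 8) * E ^ 2 + 8 * E ^ 3 := by ring
        rw [e1]
        have t1 : (4 * er C1 A w + 2) * E ≤ 10 * (C3 * TT) :=
          mul_le_mul (by linarith) (by linarith) hE (by norm_num)
        have t2 : (4 * er C1 A w + 8) * E ^ 2 ≤ 16 * (C3 * TT) :=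
          mul_le_mul (by linarith) (by linarith) (by positivity) (by norm_num)
        have t3 : 8 * E ^ 3 ≤ 8 * (C3 * TT) := by linarith
        have t4 : 0 ≤ C3 * TT := by positivity
        linarith
      calc (∑ x ∈ I, F x * F (x + d)) * ‖∑ n ∈ I, f n * (starRingEnd ℂ) (f (n + d))‖ ^ 2
          ≤ |∑ x ∈ I, F x * F (x + d)| * ‖∑ n ∈ I, f n * (starRingEnd ℂ) (f (n + d))‖ ^ 2 :=
            mul_le_mul_of_nonneg_right (le_abs_self _) (by positivity)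
        _ ≤ (C1 * M * (er C1 A w + 2 * E)) * (C2 * κ ^ 2 * M * (1 + 2 * E)) ^ 2 :=
            mul_le_mul (hD d) (pow_le_pow_left₀ (norm_nonneg _) (hAd d) 2) (by positivity)
              (by positivity)
        _ = (C1 * C2 ^ 2 * κ ^ 4 * M ^ 3) * ((er C1 A w + 2 * E) * (1 + 2 * E) ^ 2) := by ring
        _ ≤ _ := mul_le_mul_of_nonneg_left q (by positivity)
    refine (Finset.sum_le_sum hterm).trans ?_
    rw [← Finset.mul_sum, Finset.sum_add_distrib, Finset.sum_const, nsmul_eq_mul, ← Finset.mul_sum]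
    apply mul_le_mul_of_nonneg_left _ (by positivity)
    have hav := hC4 A w z M S (by omega) (by omega) hz hS (hzM _ hb4) 1 0 (prime_not_dvd_one hS)
    simp only [one_mul, add_zero] at hav
    calc (K.card : ℝ) * er C6 A w + 40 * C3 * ∑ d ∈ K, Ers (9 / 20) S d
        ≤ (2 * M) * er C6 A w + 40 * C3 * (C4 * M * er C6 A w) := by
          apply add_le_add
          · exact mul_le_mul_of_nonneg_right hcard hern6
          · apply mul_le_mul_of_nonneg_left _ (by positivity)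
            exact hav.trans (mul_le_mul_of_nonneg_left her46 (by positivity))
      _ = (2 + 40 * C3 * C4) * M * er C6 A w := by ring
  have hC6r : 4 * (C1 * C2 ^ 2 * (2 + 40 * C3 * C4)) ≤ (C6 : ℝ) := by
    rw [hC6]; push_cast
    have : (0 : ℝ) ≤ C1 + C2 + C0 + C4 := by positivity
    linarith
  have hC6one : (1 : ℝ) ≤ C6 := by exact_mod_cast hb6
  have h9 : (∑ k ∈ K, ∑ k' ∈ K, ‖T k k'‖) ^ 2 ≤ C6 * (κ ^ 2 * M ^ 3) ^ 2 * er C6 A w := by
    calc (∑ k ∈ K, ∑ k' ∈ K, ‖T k k'‖) ^ 2 ≤ (2 * M) ^ 2 *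
          ((C1 * C2 ^ 2 * κ ^ 4 * M ^ 3) * ((2 + 40 * C3 * C4) * M * er C6 A w)) :=
          h6.trans (mul_le_mul_of_nonneg_left h8 (by positivity))
      _ = (4 * (C1 * C2 ^ 2 * (2 + 40 * C3 * C4))) * ((κ ^ 2 * M ^ 3) ^ 2 * er C6 A w) := by ring
      _ ≤ C6 * ((κ ^ 2 * M ^ 3) ^ 2 * er C6 A w) :=
          mul_le_mul_of_nonneg_right hC6r (by positivity)
      _ = _ := by ring
  have h10 : ∑ k ∈ K, ∑ k' ∈ K, ‖T k k'‖ ≤ C6 * (κ ^ 2 * M ^ 3) * er (2 * C6) A w :=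
    sq_finish (Finset.sum_nonneg fun _ _ => Finset.sum_nonneg fun _ _ => norm_nonneg _) hC6one
      (by positivity) h9
  -- assembly
  have h11 : ∑ x ∈ I, (1 + rho S (r2 + W * x)) * ‖Φ x‖ ^ 2 ≤
      2 * (m ^ 2 * (2 * M)) + C6 * (κ ^ 2 * M ^ 3) * er (2 * C6) A w := by
    have e1 : ∑ x ∈ I, (1 + rho S (r2 + W * x)) * ‖Φ x‖ ^ 2 =
        2 * ∑ x ∈ I, ‖Φ x‖ ^ 2 + ∑ x ∈ I, F x * ‖Φ x‖ ^ 2 := by
      rw [Finset.mul_sum, ← Finset.sum_add_distrib]
      apply Finset.sum_congr rfl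
      intro x hx
      simp only [hF, rm1]
      rw [if_pos hx]
      ring
    rw [e1]
    have := (le_abs_self _).trans (h5.trans h10)
    linarith
  have hern' := er_nonneg C' A w
  have her6' : er (2 * C6) A w ≤ er C' A w := tls_er_mono (by omega) hb' hw1
  have hΦn : 0 ≤ ∑ x ∈ I, (1 + rho S (r2 + W * x)) * ‖Φ x‖ ^ 2 :=
    Finset.sum_nonneg fun x _ => mul_nonneg (hρ x) (by positivity)
  have hC'r : (C' : ℝ) = 4 * C0 * C6 + 2 * C6 := by rw [hC']; push_cast; ring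
  have hb0r : 4 * (C0 : ℝ) ≤ C' := by exact_mod_cast hb0'
  have hb6r : (C0 : ℝ) * C6 ≤ C' := by
    rw [hC'r]
    have : (0 : ℝ) ≤ C0 * C6 := by positivity
    have : (0 : ℝ) ≤ C6 := by positivity
    linarith
  calc ‖∑ x ∈ I, g x * Φ x‖ ^ 2
      ≤ κ ^ 2 * ((C0 * M) * (2 * (m ^ 2 * (2 * M)) + C6 * (κ ^ 2 * M ^ 3) * er (2 * C6) A w)) := by
        refine h1.trans (mul_le_mul_of_nonneg_left ?_ (by positivity))
        exact mul_le_mul h3 h11 hΦn (by positivity)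
    _ = (4 * C0) * (κ ^ 2 * m ^ 2 * M ^ 2) + (C0 * C6) * (κ ^ 4 * er (2 * C6) A w * M ^ 4) := by
        ring
    _ ≤ C' * (κ ^ 2 * m ^ 2 * M ^ 2) + C' * (κ ^ 4 * er C' A w * M ^ 4) := by
        apply add_le_add
        · exact mul_le_mul_of_nonneg_right hb0r (by positivity)
        · apply mul_le_mul hb6r _ (mul_nonneg (mul_nonneg (by positivity) (er_nonneg _ _ _))
            (by positivity)) (by positivity)
          gcongr
    _ = C' * κ ^ 2 * m ^ 2 * M ^ 2 + C' * κ ^ 4 * er C' A w * M ^ 4 := by ring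

end Pool.Agent.Lib.H18GB
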