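import Pool.Agent.Lib.H18GB.V1
import Pool.Agent.Lib.H18GB.C1A

/-!
# Project GB: C1
-/

namespace Pool.Agent.Lib.H18GB

open Finset Pool.Agent.Lib.Sieve

theorem c1_pow_small (K : ℕ) (hK : 1 ≤ K) (η : ℝ) (hη : 0 < η) : ∃ A0 : ℕ, ∀ A : ℕ, A0 ≤ A →
    (A : ℝ) ^ 4 * (2 : ℝ) ^ (-(A : ℝ) / K) ≤ η := by
  have hK' : (0 : ℝ) < K := by exact_mod_cast hK
  have hr : |(2 : ℝ) ^ (-(1 : ℝ) / K)| < 1 := by
    rw [abs_of_pos (Real.rpow_pos_of_pos (by norm_num) _)]
    exact Real.rpow_lt_one_of_one_lt_of_neg (by norm_num) (div_neg_of_neg_of_pos (by norm_num) hK')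
  have h := tendsto_pow_const_mul_const_pow_of_abs_lt_one 4 hr
  have h1 := (h.eventually (Iio_mem_nhds hη))
  obtain ⟨A0, hA0⟩ := Filter.eventually_atTop.mp h1
  refine ⟨A0, fun A hA => ?_⟩
  have h2 := hA0 A hA
  have h3 : ((2 : ℝ) ^ (-(1 : ℝ) / K)) ^ A = (2 : ℝ) ^ (-(A : ℝ) / K) := by
    rw [← Real.rpow_natCast, ← Real.rpow_mul (by norm_num)]
    congr 1
    ring
  rw [h3] at h2
  exact h2.le

theorem c1_w_small (K : ℕ) (hK : 1 ≤ K) (η : ℝ) (hη : 0 < η) : ∃ w0 : ℕ, ∀ w : ℕ, w0 ≤ w →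
    (w : ℝ) ^ (-(1 : ℝ) / K) ≤ η := by
  have hK' : (0 : ℝ) < K := by exact_mod_cast hK
  have h := (tendsto_rpow_neg_atTop (y := (1 : ℝ) / K) (by positivity)).comp
    (tendsto_natCast_atTop_atTop (R := ℝ))
  have h1 := (h.eventually (Iio_mem_nhds hη))
  obtain ⟨A0, hA0⟩ := Filter.eventually_atTop.mp h1
  refine ⟨A0, fun A hA => ?_⟩
  have h2 := hA0 A hA
  simp only [Function.comp] at h2
  rw [neg_div]
  exact h2.le

theorem c1_lam_le {W : ℕ} {v : ℤ} {z : ℕ} (hz : 1 ≤ z) (hv : |v| ≤ z) : lamv W v ≤ z - 1 := by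
  have hz' : (1 : ℝ) ≤ z := by exact_mod_cast hz
  unfold lamv
  split_ifs with hp
  · have h1 : (v.natAbs : ℝ) ≤ z := by
      have : v.natAbs ≤ z := by
        zify
        exact hv
      exact_mod_cast this
    have h0 : (1 : ℝ) ≤ v.natAbs := by exact_mod_cast hp.one_lt.le
    have h2 : Real.log v.natAbs ≤ z - 1 := by
      have := Real.log_le_sub_one_of_pos (by linarith : (0 : ℝ) < v.natAbs)
      linarith
    have h3 : (Nat.totient W / W : ℝ) ≤ 1 := by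
      apply div_le_one_of_le₀ _ (Nat.cast_nonneg _)
      exact_mod_cast Nat.totient_le W
    have h4 : 0 ≤ Real.log v.natAbs := Real.log_nonneg h0
    calc (Nat.totient W / W : ℝ) * Real.log v.natAbs ≤ 1 * Real.log v.natAbs :=
          mul_le_mul_of_nonneg_right h3 h4
      _ ≤ z - 1 := by linarith
  · linarith

open Classical in
theorem c1_removed {s W : ℕ} (hs : 3 ≤ s) (hW : 0 < W) (δ : ℝ) (hδ : 0 < δ) : ∃ M0 : ℕ,
    ∀ M : ℕ, M0 ≤ M → ∀ r : ℤ, ∑ n ∈ (Finset.Ico (0 : ℤ) M).filter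
      (fun n => |r + W * n| ≤ (rt s M : ℤ)), |uu W r n| ≤ δ * M := by
  obtain ⟨N, hN⟩ := exists_nat_ge (3 / δ)
  obtain ⟨M0, hM0⟩ := Filter.eventually_atTop.mp
    ((rt_tendsto (by omega : 1 ≤ s)).eventually (Filter.eventually_ge_atTop (N + 1)))
  refine ⟨M0, fun M hM r => ?_⟩
  have hz := hM0 M hM
  set z := rt s M with hzdef
  have hz1 : 1 ≤ z := by omega
  have hz1r : (1 : ℝ) ≤ z := by exact_mod_cast hz1
  have hNz : (N : ℝ) ≤ z := by exact_mod_cast (by omega : N ≤ z)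
  have h1 : ∑ n ∈ (Finset.Ico (0 : ℤ) M).filter (fun n => |r + W * n| ≤ (z : ℤ)), |uu W r n| ≤
      ∑ n ∈ (Finset.Ico (0 : ℤ) M).filter (fun n => |r + W * n| ≤ (z : ℤ)), (z : ℝ) := by
    apply Finset.sum_le_sum
    intro n hn
    have h2 := c1_lam_le (W := W) hz1 (Finset.mem_filter.mp hn).2
    have h3 := lam_nonneg W r n
    unfold uu
    rw [abs_le]
    unfold lam at h3 ⊢
    constructor <;> linarith
  have hcard : ((Finset.Ico (0 : ℤ) M).filter (fun n => |r + W * n| ≤ (z : ℤ))).card ≤ 2 * z + 1 := by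
    have h2 : ((Finset.Ico (0 : ℤ) M).filter (fun n => |r + W * n| ≤ (z : ℤ))).card ≤
        (Finset.Icc (-(z : ℤ)) z).card := by
      apply Finset.card_le_card_of_injOn (fun n => r + W * n)
      · intro n hn
        have h3 := (Finset.mem_filter.mp hn).2
        rw [abs_le] at h3
        exact Finset.mem_coe.mpr (Finset.mem_Icc.mpr h3)
      · intro n _ n' _ h
        simp only at h
        have : (W : ℤ) * n = W * n' := by linarith
        exact mul_left_cancel₀ (by exact_mod_cast hW.ne') this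
    rw [Int.card_Icc] at h2
    omega
  have h4 : (z : ℝ) ^ 3 ≤ M := by
    have h5 : z ^ 3 ≤ M := (Nat.pow_le_pow_right hz1 hs).trans (rt_pow_le (by omega) M)
    exact_mod_cast h5
  refine h1.trans ?_
  rw [Finset.sum_const, nsmul_eq_mul]
  have h5 : (((Finset.Ico (0 : ℤ) M).filter (fun n => |r + W * n| ≤ (z : ℤ))).card : ℝ) ≤ 3 * z := by
    have : (((Finset.Ico (0 : ℤ) M).filter (fun n => |r + W * n| ≤ (z : ℤ))).card : ℝ) ≤
        2 * z + 1 := by exact_mod_cast hcard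
    linarith
  have h6 : 3 ≤ δ * z := by
    rw [div_le_iff₀ hδ] at hN
    nlinarith
  calc (((Finset.Ico (0 : ℤ) M).filter (fun n => |r + W * n| ≤ (z : ℤ))).card : ℝ) * z
      ≤ (3 * z) * z := mul_le_mul_of_nonneg_right h5 (by linarith)
    _ ≤ (δ * z * z) * z := by
        have := mul_le_mul_of_nonneg_right h6 (by positivity : (0 : ℝ) ≤ z * z)
        linarith
    _ = δ * z ^ 3 := by ring
    _ ≤ δ * M := mul_le_mul_of_nonneg_left h4 hδ.le

theorem c1_conv (M : ℕ) (a b : ℤ → ℝ) (ha : ∀ n, 0 ≤ a n) (hb : ∀ n, 0 ≤ b n)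
    (hb0 : ∀ n, n ∉ Finset.Ico (0 : ℤ) M → b n = 0) :
    ∑ h ∈ Finset.Ioo (-(M : ℤ)) M, ∑ n ∈ Finset.Ico (0 : ℤ) M, a n * b (n + h) ≤
      (∑ n ∈ Finset.Ico (0 : ℤ) M, a n) * ∑ n ∈ Finset.Ico (0 : ℤ) M, b n := by
  rw [Finset.sum_comm, Finset.sum_mul]
  apply Finset.sum_le_sum
  intro n _
  rw [← Finset.mul_sum]
  apply mul_le_mul_of_nonneg_left _ (ha n)
  have h1 : ∑ h ∈ Finset.Ioo (-(M : ℤ)) M, b (n + h) =
      ∑ m ∈ (Finset.Ioo (-(M : ℤ)) M).map ⟨fun h => n + h, add_right_injective n⟩, b m := by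
    rw [Finset.sum_map]
    rfl
  rw [h1]
  have h2 : ∑ m ∈ (Finset.Ioo (-(M : ℤ)) M).map ⟨fun h => n + h, add_right_injective n⟩, b m =
      ∑ m ∈ ((Finset.Ioo (-(M : ℤ)) M).map ⟨fun h => n + h, add_right_injective n⟩).filter
        (fun m => m ∈ Finset.Ico (0 : ℤ) M), b m := by
    rw [Finset.sum_filter]
    refine Finset.sum_congr rfl fun m _ => ?_
    split_ifs with h
    · rfl
    · exact hb0 m h
  rw [h2]
  apply Finset.sum_le_sum_of_subset_of_nonneg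
  · intro m hm
    exact (Finset.mem_filter.mp hm).2
  · intro m _ _
    exact hb m

/-- truncation to `|r + W n| > z` -/
noncomputable def c1_tr (W z : ℕ) (r M1 n : ℤ) : ℂ :=
  if (z : ℤ) < |r + W * n| then uc W r M1 n else 0

theorem c1_uc_le (W : ℕ) (r M1 n : ℤ) : ‖uc W r M1 n‖ ≤ |uu W r n| := by
  unfold uc
  split_ifs
  · rw [Complex.norm_real]
    exact le_rfl
  · simp

theorem c1_tr_le (W z : ℕ) (r M1 n : ℤ) : ‖c1_tr W z r M1 n‖ ≤ |uu W r n| := by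
  unfold c1_tr
  split_ifs
  · exact c1_uc_le W r M1 n
  · simp

theorem c1_uc_supp {W M : ℕ} {r M1 n : ℤ} (h : M1 ≤ M) (hn : n ∉ Finset.Ico (0 : ℤ) M) :
    uc W r M1 n = 0 := by
  unfold uc
  rw [if_neg]
  rintro ⟨h1, h2⟩
  exact hn (Finset.mem_Ico.mpr ⟨h1, by linarith⟩)

theorem c1_tr_supp {W z M : ℕ} {r M1 n : ℤ} (h : M1 ≤ M) (hn : n ∉ Finset.Ico (0 : ℤ) M) :
    c1_tr W z r M1 n = 0 := by
  unfold c1_tr
  split_ifs
  · exact c1_uc_supp h hn
  · rfl

open Classical in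
theorem c1_diff_sum (W z M : ℕ) (r M1 : ℤ) :
    ∑ n ∈ Finset.Ico (0 : ℤ) M, ‖uc W r M1 n - c1_tr W z r M1 n‖ ≤
      ∑ n ∈ (Finset.Ico (0 : ℤ) M).filter (fun n => |r + W * n| ≤ (z : ℤ)), |uu W r n| := by
  rw [Finset.sum_filter]
  apply Finset.sum_le_sum
  intro n _
  unfold c1_tr
  by_cases h : (z : ℤ) < |r + W * n|
  · rw [if_pos h, if_neg (not_le.mpr h)]
    simp
  · rw [if_neg h, if_pos (not_lt.mp h), sub_zero]
    exact c1_uc_le W r M1 n

/-- Chunk C1. `c1a` for the truncations of `uc` to `|r + W n| > rt s M` (`majo` gives the majorant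
with `κ = C s`), `f(n) = uc W r1 M1 n * e(θ n)`, `m = 2 ε1 M` from `v1`. The truncation changes the sum
by at most `(number of n removed) * log * 3M`. Choose `s` first (so that `κ^4 er` is small), then
`ε1`. -/
theorem c1 (ε : ℝ) (hε : 0 < ε) : ∃ w0 : ℕ, ∀ w W : ℕ, w0 ≤ w → IsW w W → ∃ M0 : ℕ, ∀ M : ℕ,
    M0 ≤ M → ∀ r1 r2 : ℤ, |r1| < 2 * W → IsCoprime r1 (W : ℤ) → |r2| < 2 * W →
    IsCoprime r2 (W : ℤ) → ∀ M1 M2 : ℤ, M1 ≤ M → M2 ≤ M → ∀ c : ℤ → ℂ, (∀ h, ‖c h‖ ≤ 1) →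
    ∀ θ : ℝ, ‖∑ h ∈ Finset.Ioo (-(M : ℤ)) M, c h * ∑ n ∈ Finset.Ico (0 : ℤ) M,
      uc W r1 M1 n * uc W r2 M2 (n + h) * e (θ * n)‖ ≤ ε * M ^ 2 := by
  obtain ⟨C, hC, hc1a⟩ := c1a
  obtain ⟨Cm, hCm, hmajo⟩ := majo
  have hCr : (1 : ℝ) ≤ C := by exact_mod_cast hC
  -- choice of `A`
  obtain ⟨A0, hA0⟩ := c1_pow_small C hC (ε ^ 2 / 12 / (C * (Cm * C) ^ 4)) (by positivity)
  set A : ℕ := max A0 (max C 3) with hA
  have hAC : C ≤ A := le_trans (le_max_left _ _) (le_max_right _ _)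
  have hA3 : 3 ≤ A := le_trans (le_max_right _ _) (le_max_right _ _)
  have hAA := hA0 A (le_max_left _ _)
  set s : ℕ := C * A with hs
  have hs3 : 3 ≤ s := by nlinarith
  set κ : ℝ := Cm * s with hκ
  have hsr : (3 : ℝ) ≤ s := by exact_mod_cast hs3
  have hκ1 : 1 ≤ κ := by nlinarith
  have hκpos : 0 < κ := by linarith
  -- choice of `w0`
  obtain ⟨w1, hw1⟩ := c1_w_small C hC (ε ^ 2 / 12 / (C * κ ^ 4)) (by positivity)
  -- choice of `ε1`
  set ε1 : ℝ := min (ε / (8 * C * κ)) (ε / 12) with hε1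
  have hε1pos : 0 < ε1 := lt_min (by positivity) (by positivity)
  obtain ⟨w2, hw2⟩ := v1 ε1 hε1pos
  refine ⟨max (max w1 w2) C, fun w W hw hW => ?_⟩
  have hww1 := hw1 w (le_trans (le_trans (le_max_left _ _) (le_max_left _ _)) hw)
  obtain ⟨M1', hM1'⟩ := hw2 w W (le_trans (le_trans (le_max_right _ _) (le_max_left _ _)) hw) hW
  have hwC : C ≤ w := le_trans (le_max_right _ _) hw
  obtain ⟨M2', hM2'⟩ := hmajo s (by omega) w W hW
  obtain ⟨M3', hM3'⟩ := c1_removed hs3 hW.1 ε1 hε1pos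
  obtain ⟨M4', hM4'⟩ := l1lam W hW.1
  obtain ⟨M5', hM5'⟩ := Filter.eventually_atTop.mp
    ((rt_tendsto (by omega : 1 ≤ s)).eventually (Filter.eventually_ge_atTop 2))
  refine ⟨M1' + M2' + M3' + M4' + M5' + 1, ?_⟩
  intro M hM r1 r2 hr1 hcop1 hr2 hcop2 M1 M2 hM1 hM2 c hc θ
  have hMr : (1 : ℝ) ≤ M := by exact_mod_cast (by omega : 1 ≤ M)
  set z := rt s M with hz
  have hz2 : 2 ≤ z := hM5' M (by omega)
  set S := sprimes w z with hS
  have hSP : PSet w z S := pset_sprimes w z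
  -- majorant
  have hmaj : ∀ (r : ℤ) (Mi : ℤ), |r| < 2 * W → Mi ≤ M → ∀ n : ℤ,
      ‖c1_tr W z r Mi n‖ ≤ κ * (1 + rho S (r + W * n)) := by
    intro r Mi hr hMi n
    have hrho := rho_nonneg hSP.prime (r + W * n)
    have hnn : 0 ≤ κ * (1 + rho S (r + W * n)) := by positivity
    unfold c1_tr
    split_ifs with h1
    · unfold uc
      split_ifs with h2
      · rw [Complex.norm_real]
        have h3 : |r + W * n| ≤ 5 * W * M := by
          have h4 : |r + W * n| ≤ |r| + |(W : ℤ) * n| := abs_add_le _ _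
          have h5 : |(W : ℤ) * n| = W * n := abs_of_nonneg (mul_nonneg (by positivity) h2.1)
          have h6 : (W : ℤ) * n ≤ W * M := mul_le_mul_of_nonneg_left (by linarith) (by positivity)
          have h7 : (W : ℤ) * 1 ≤ W * M := mul_le_mul_of_nonneg_left
            (by exact_mod_cast (by omega : 1 ≤ M)) (by positivity)
          rw [h5] at h4
          linarith
        have h4 := hM2' M (by omega) (r + W * n) h3 h1
        have h5 := lam_nonneg W r n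
        rw [Real.norm_eq_abs]
        unfold uu
        unfold lam at h5 ⊢
        rw [abs_le]
        constructor
        · nlinarith
        · have : κ * (1 + rho S (r + W * n)) = κ + Cm * s * rho S (r + W * n) := by
            rw [hκ]; ring
          linarith
      · simpa using hnn
    · simpa using hnn
  -- exponential sums of the truncation
  have hrem : ∀ (r : ℤ) (Mi : ℤ), ∑ n ∈ Finset.Ico (0 : ℤ) M,
      ‖uc W r Mi n - c1_tr W z r Mi n‖ ≤ ε1 * M := by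
    intro r Mi
    exact (c1_diff_sum W z M r Mi).trans (hM3' M (by omega) r)
  have hexp : ∀ θ' : ℝ, ‖∑ n ∈ Finset.Ico (0 : ℤ) M, c1_tr W z r1 M1 n * e (θ' * n)‖ ≤
      2 * ε1 * M := by
    intro θ'
    have h1 : ∑ n ∈ Finset.Ico (0 : ℤ) M, c1_tr W z r1 M1 n * e (θ' * n) =
        ∑ n ∈ Finset.Ico (0 : ℤ) M, uc W r1 M1 n * e (θ' * n) -
        ∑ n ∈ Finset.Ico (0 : ℤ) M, (uc W r1 M1 n - c1_tr W z r1 M1 n) * e (θ' * n) := by
      rw [← Finset.sum_sub_distrib]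
      refine Finset.sum_congr rfl fun n _ => ?_
      ring
    have h2 : ∑ n ∈ Finset.Ico (0 : ℤ) M, uc W r1 M1 n * e (θ' * n) =
        ∑ n ∈ Finset.Ico (0 : ℤ) (max M1 0), (uu W r1 n : ℂ) * e (θ' * n) := by
      have h3 : Finset.Ico (0 : ℤ) (max M1 0) ⊆ Finset.Ico (0 : ℤ) M := by
        apply Finset.Ico_subset_Ico_right
        exact max_le hM1 (by positivity)
      rw [← Finset.sum_subset h3]
      · refine Finset.sum_congr rfl fun n hn => ?_
        rw [Finset.mem_Ico] at hn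
        unfold uc
        rw [if_pos]
        refine ⟨hn.1, ?_⟩
        rcases le_total M1 0 with h | h
        · rw [max_eq_right h] at hn
          omega
        · rw [max_eq_left h] at hn
          exact hn.2
      · intro n hn hn'
        unfold uc
        rw [if_neg, zero_mul]
        rintro ⟨h4, h5⟩
        exact hn' (Finset.mem_Ico.mpr ⟨h4, lt_of_lt_of_le h5 (le_max_left _ _)⟩)
    have h3 := hM1' M (by omega) r1 hr1 hcop1 θ' (max M1 0) (le_max_right _ _)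
      (max_le hM1 (by positivity))
    rw [← h2] at h3
    have h4 : ‖∑ n ∈ Finset.Ico (0 : ℤ) M, (uc W r1 M1 n - c1_tr W z r1 M1 n) * e (θ' * n)‖ ≤
        ε1 * M := by
      refine (norm_sum_le _ _).trans ?_
      refine le_trans (Finset.sum_le_sum fun n _ => ?_) (hrem r1 M1)
      rw [norm_mul, norm_e, mul_one]
    rw [h1]
    refine (norm_sub_le _ _).trans ?_
    linarith
  -- apply `c1a`
  have hzM : z ^ (C * A) ≤ M := rt_pow_le (by omega) M
  have hmain := hc1a A w z W M S hAC hwC hz2 hSP hW hzM r1 r2 κ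
    (fun n => c1_tr W z r1 M1 n * e (θ * n)) (fun n => c1_tr W z r2 M2 n) hκ1
    (by
      intro n
      simp only
      rw [norm_mul, norm_e, mul_one]
      exact hmaj r1 M1 hr1 hM1 n)
    (by
      intro n hn
      simp only
      rw [c1_tr_supp hM1 hn, zero_mul])
    (by
      intro n
      exact hmaj r2 M2 hr2 hM2 n)
    (by
      intro n hn
      exact c1_tr_supp hM2 hn) c hc (2 * ε1 * M)
    (by
      intro θ'
      have h1 : ∑ n ∈ Finset.Ico (0 : ℤ) M, (fun n => c1_tr W z r1 M1 n * e (θ * n)) n * e (θ' * n) =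
          ∑ n ∈ Finset.Ico (0 : ℤ) M, c1_tr W z r1 M1 n * e ((θ + θ') * n) := by
        refine Finset.sum_congr rfl fun n _ => ?_
        simp only
        rw [mul_assoc, ← e_add]
        congr 2
        ring
      rw [h1]
      exact hexp _)
  set X : ℂ := ∑ h ∈ Finset.Ioo (-(M : ℤ)) M, c h * ∑ n ∈ Finset.Ico (0 : ℤ) M,
    c1_tr W z r1 M1 n * e (θ * n) * c1_tr W z r2 M2 (n + h) with hX
  have hXle : ‖X‖ ≤ ε / 2 * M ^ 2 := by
    have h1 : ‖X‖ ^ 2 ≤ (ε / 2 * M ^ 2) ^ 2 := by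
      refine hmain.trans ?_
      have hM4 : (0 : ℝ) ≤ (M : ℝ) ^ 4 := by positivity
      have e1 : C * κ ^ 2 * (2 * ε1 * M) ^ 2 * (M : ℝ) ^ 2 ≤ ε ^ 2 / 12 * M ^ 4 := by
        have h2 : ε1 ≤ ε / (8 * C * κ) := min_le_left _ _
        have h3 : ε1 * (8 * C * κ) ≤ ε := by
          rw [le_div_iff₀ (by positivity)] at h2
          exact h2
        have h4 : C * κ ^ 2 * (2 * ε1) ^ 2 ≤ ε ^ 2 / 12 := by
          have h5 : (ε1 * (8 * C * κ)) ^ 2 ≤ ε ^ 2 := pow_le_pow_left₀ (by positivity) h3 2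
          have h6 : C * κ ^ 2 * (2 * ε1) ^ 2 ≤ (ε1 * (8 * C * κ)) ^ 2 / 16 := by
            have h7 : (C : ℝ) ≤ C ^ 2 := by nlinarith
            have h8 : (0 : ℝ) ≤ κ ^ 2 * (2 * ε1) ^ 2 := by positivity
            calc C * κ ^ 2 * (2 * ε1) ^ 2 = C * (κ ^ 2 * (2 * ε1) ^ 2) := by ring
              _ ≤ C ^ 2 * (κ ^ 2 * (2 * ε1) ^ 2) := mul_le_mul_of_nonneg_right h7 h8
              _ = (ε1 * (8 * C * κ)) ^ 2 / 16 := by ring
          have h9 : 0 ≤ ε ^ 2 := by positivity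
          linarith
        calc C * κ ^ 2 * (2 * ε1 * M) ^ 2 * (M : ℝ) ^ 2 =
            (C * κ ^ 2 * (2 * ε1) ^ 2) * M ^ 4 := by ring
          _ ≤ _ := mul_le_mul_of_nonneg_right h4 hM4
      have e2 : C * κ ^ 4 * er C A w * (M : ℝ) ^ 4 ≤ ε ^ 2 / 6 * M ^ 4 := by
        apply mul_le_mul_of_nonneg_right _ hM4
        unfold er
        have h2 : C * κ ^ 4 * (2 : ℝ) ^ (-(A : ℝ) / C) ≤ ε ^ 2 / 12 := by
          have h3 : κ ^ 4 = (Cm * C) ^ 4 * (A : ℝ) ^ 4 := by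
            rw [hκ, hs]
            push_cast
            ring
          rw [le_div_iff₀ (by positivity)] at hAA
          rw [h3]
          calc C * ((Cm * C) ^ 4 * (A : ℝ) ^ 4) * (2 : ℝ) ^ (-(A : ℝ) / C) =
              (A : ℝ) ^ 4 * (2 : ℝ) ^ (-(A : ℝ) / C) * (C * (Cm * C) ^ 4) := by ring
            _ ≤ _ := hAA
        have h3 : C * κ ^ 4 * (w : ℝ) ^ (-(1 : ℝ) / C) ≤ ε ^ 2 / 12 := by
          rw [le_div_iff₀ (by positivity)] at hww1
          linarith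
        linarith
      have h9 : (0 : ℝ) ≤ ε ^ 2 * (M : ℝ) ^ 4 := by positivity
      nlinarith
    exact (pow_le_pow_iff_left₀ (norm_nonneg _) (by positivity) two_ne_zero).mp h1
  -- difference
  set Y : ℂ := ∑ h ∈ Finset.Ioo (-(M : ℤ)) M, c h * ∑ n ∈ Finset.Ico (0 : ℤ) M,
      uc W r1 M1 n * uc W r2 M2 (n + h) * e (θ * n) with hY
  have hdiff : ‖Y - X‖ ≤ 6 * ε1 * M ^ 2 := by
    rw [hX, hY, ← Finset.sum_sub_distrib]
    refine (norm_sum_le _ _).trans ?_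
    have h1 : ∀ h ∈ Finset.Ioo (-(M : ℤ)) M,
        ‖c h * ∑ n ∈ Finset.Ico (0 : ℤ) M, uc W r1 M1 n * uc W r2 M2 (n + h) * e (θ * n) -
          c h * ∑ n ∈ Finset.Ico (0 : ℤ) M,
            c1_tr W z r1 M1 n * e (θ * n) * c1_tr W z r2 M2 (n + h)‖ ≤
        ∑ n ∈ Finset.Ico (0 : ℤ) M, ‖uc W r1 M1 n - c1_tr W z r1 M1 n‖ * ‖uc W r2 M2 (n + h)‖ +
        ∑ n ∈ Finset.Ico (0 : ℤ) M, ‖c1_tr W z r1 M1 n‖ *
          ‖uc W r2 M2 (n + h) - c1_tr W z r2 M2 (n + h)‖ := by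
      intro h _
      rw [← mul_sub, norm_mul, ← Finset.sum_sub_distrib, ← Finset.sum_add_distrib]
      refine le_trans (mul_le_mul_of_nonneg_right (hc h) (norm_nonneg _)) ?_
      rw [one_mul]
      refine (norm_sum_le _ _).trans (Finset.sum_le_sum fun n _ => ?_)
      have h2 : uc W r1 M1 n * uc W r2 M2 (n + h) * e (θ * n) -
          c1_tr W z r1 M1 n * e (θ * n) * c1_tr W z r2 M2 (n + h) =
          ((uc W r1 M1 n - c1_tr W z r1 M1 n) * uc W r2 M2 (n + h) +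
            c1_tr W z r1 M1 n * (uc W r2 M2 (n + h) - c1_tr W z r2 M2 (n + h))) * e (θ * n) := by
        ring
      rw [h2, norm_mul, norm_e, mul_one]
      refine (norm_add_le _ _).trans ?_
      rw [norm_mul, norm_mul]
    refine (Finset.sum_le_sum h1).trans ?_
    rw [Finset.sum_add_distrib]
    have h2 := c1_conv M (fun n => ‖uc W r1 M1 n - c1_tr W z r1 M1 n‖) (fun n => ‖uc W r2 M2 n‖)
      (fun _ => norm_nonneg _) (fun _ => norm_nonneg _)
      (fun n hn => by rw [c1_uc_supp hM2 hn, norm_zero])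
    have h3 := c1_conv M (fun n => ‖c1_tr W z r1 M1 n‖)
      (fun n => ‖uc W r2 M2 n - c1_tr W z r2 M2 n‖)
      (fun _ => norm_nonneg _) (fun _ => norm_nonneg _)
      (fun n hn => by rw [c1_uc_supp hM2 hn, c1_tr_supp hM2 hn, sub_zero, norm_zero])
    have h4 : ∑ n ∈ Finset.Ico (0 : ℤ) M, ‖uc W r2 M2 n‖ ≤ 3 * M :=
      (Finset.sum_le_sum fun n _ => c1_uc_le W r2 M2 n).trans (hM4' M (by omega) r2 hr2 hcop2)
    have h5 : ∑ n ∈ Finset.Ico (0 : ℤ) M, ‖c1_tr W z r1 M1 n‖ ≤ 3 * M :=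
      (Finset.sum_le_sum fun n _ => c1_tr_le W z r1 M1 n).trans (hM4' M (by omega) r1 hr1 hcop1)
    have h6 := hrem r1 M1
    have h7 := hrem r2 M2
    have h8 := mul_le_mul h6 h4 (Finset.sum_nonneg fun _ _ => norm_nonneg _) (by positivity)
    have h9 := mul_le_mul h5 h7 (Finset.sum_nonneg fun _ _ => norm_nonneg _) (by positivity)
    nlinarith
  have h1 : Y = X + (Y - X) := by ring
  rw [h1]
  refine (norm_add_le _ _).trans ?_
  have h2 : ε1 ≤ ε / 12 := min_le_right _ _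
  have h3 : 6 * ε1 * (M : ℝ) ^ 2 ≤ ε / 2 * M ^ 2 := by
    apply mul_le_mul_of_nonneg_right _ (by positivity)
    linarith
  linarith

end Pool.Agent.Lib.H18GB
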