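import Pool.Agent.Lib.H18GB.Defs

/-!
# Project GB: SING
-/

namespace Pool.Agent.Lib.H18GB

open Finset Pool.Agent.Lib.Sieve

theorem sing_sqrt (n : ℕ) : (primesUpTo n).filter (fun p => ¬ n < p ^ 2) = primesUpTo (Nat.sqrt n) := by
  ext p
  rw [Finset.mem_filter, mem_primesUpTo, mem_primesUpTo, not_lt, Nat.le_sqrt']
  constructor
  · rintro ⟨⟨h1, _⟩, h2⟩
    exact ⟨h1, h2⟩
  · rintro ⟨h1, h2⟩
    refine ⟨⟨h1, ?_⟩, h2⟩
    have := h1.one_lt
    nlinarith

/-- `∑_{p ≤ n} 1/p ≤ ε log n + K`. -/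
theorem sing_recip (ε : ℝ) (hε : 0 < ε) : ∃ K : ℝ, 0 ≤ K ∧ ∀ n : ℕ, 1 ≤ n →
    ∑ p ∈ primesUpTo n, (1 : ℝ) / p ≤ ε * Real.log n + K := by
  refine ⟨Real.exp (12 / ε), (Real.exp_pos _).le, fun n => ?_⟩
  induction n using Nat.strong_induction_on with
  | _ n ih =>
    intro hn
    have hnr : (1 : ℝ) ≤ n := by exact_mod_cast hn
    have hlog : 0 ≤ Real.log n := Real.log_nonneg hnr
    by_cases hb : (n : ℝ) ≤ Real.exp (12 / ε)
    · have h1 : ∑ p ∈ primesUpTo n, (1 : ℝ) / p ≤ n := by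
        have h2 : ∑ p ∈ primesUpTo n, (1 : ℝ) / p ≤ ∑ p ∈ primesUpTo n, (1 : ℝ) := by
          apply Finset.sum_le_sum
          intro p hp
          have := (mem_primesUpTo.mp hp).1.one_lt
          rw [div_le_one (by positivity)]
          exact_mod_cast this.le
        refine h2.trans ?_
        rw [Finset.sum_const, nsmul_eq_mul, mul_one]
        have h3 : (primesUpTo n).card ≤ (Finset.Icc 1 n).card := by
          apply Finset.card_le_card
          intro p hp
          rw [Finset.mem_Icc]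
          exact ⟨(mem_primesUpTo.mp hp).1.one_lt.le, (mem_primesUpTo.mp hp).2⟩
        rw [Nat.card_Icc, Nat.add_sub_cancel] at h3
        exact_mod_cast h3
      have h2 : 0 ≤ ε * Real.log n := by positivity
      linarith
    · push Not at hb
      have hn2 : 1 < n := by
        have h1 : (1 : ℝ) < Real.exp (12 / ε) := Real.one_lt_exp_iff.mpr (by positivity)
        exact_mod_cast h1.trans hb
      have hs1 : Nat.sqrt n < n := Nat.sqrt_lt_self hn2
      have hs2 : 1 ≤ Nat.sqrt n := Nat.sqrt_pos.mpr (by omega)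
      have h1 := ih (Nat.sqrt n) hs1 hs2
      rw [← sing_sqrt] at h1
      have h2 := sum_inv_le n
      rw [← Finset.sum_filter_add_sum_filter_not (primesUpTo n) (fun p => n < p ^ 2)]
      have h3 : Real.log (Nat.sqrt n) ≤ Real.log n / 2 := by
        have h4 : ((Nat.sqrt n : ℕ) : ℝ) ^ 2 ≤ n := by exact_mod_cast Nat.sqrt_le' n
        have h5 : (0 : ℝ) < (Nat.sqrt n : ℕ) := by exact_mod_cast hs2
        have h6 := Real.log_le_log (by positivity) h4
        rw [Real.log_pow] at h6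
        push_cast at h6
        linarith
      have h4 : 12 < ε * Real.log n := by
        have h5 : 12 / ε < Real.log n := by
          rw [Real.lt_log_iff_exp_lt (by linarith)]
          exact hb
        rw [div_lt_iff₀ hε] at h5
        linarith
      have h5 : ε * Real.log (Nat.sqrt n) ≤ ε * (Real.log n / 2) := mul_le_mul_of_nonneg_left h3 hε.le
      linarith

/-- Chunk SING1. For primes `> w`: `exp (∑ C / p) ≤ 1 + ∑ p ^ (-9/10)`.
Proof: order `S` increasingly and telescope: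
`exp (∑_S C/p) - 1 = ∑_{p ∈ S} exp (∑_{q ∈ S, q < p} C/q) (exp (C/p) - 1)`, and
`exp (C ∑_{q < p} 1/q) ≤ C' (log p)^C'` by the upper bound of Mertens
(`Pool.Agent.Lib.Sieve.sum_inv_le`, or `block_sum_inv`), so each term is at most
`C'' (log p)^C' / p ≤ p^(-9/10)` for `p > w ≥ w0`. -/
theorem sing_exp (C : ℝ) (hC : 0 ≤ C) : ∃ w0 : ℕ, ∀ (w z : ℕ) (S : Finset ℕ), w0 ≤ w →
    PSet w z S → Real.exp (∑ p ∈ S, C / (p : ℝ)) ≤ 1 + ∑ p ∈ S, (p : ℝ) ^ (-(9 / 10 : ℝ)) := by
  set D : ℝ := C + 1 with hD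
  have hDp : 0 < D := by linarith
  obtain ⟨K, hK, hrec⟩ := sing_recip (1 / (20 * D)) (by positivity)
  obtain ⟨w0, hw0⟩ := exists_nat_ge (max D ((2 * D * Real.exp (D * K)) ^ 20))
  have hwD : D ≤ w0 := (le_max_left _ _).trans hw0
  have hwE : (2 * D * Real.exp (D * K)) ^ 20 ≤ w0 := (le_max_right _ _).trans hw0
  refine ⟨w0, fun w z S hw hS => ?_⟩
  -- the key estimate for one prime
  have key : ∀ p : ℕ, p.Prime → w < p → ∀ T : Finset ℕ, (∀ q ∈ T, q.Prime ∧ q < p) →
      Real.exp (∑ q ∈ T, D / (q : ℝ)) * (Real.exp (D / p) - 1) ≤ (p : ℝ) ^ (-(9 / 10 : ℝ)) := by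
    intro p hp hwp T hT
    have hpr : (1 : ℝ) < p := by exact_mod_cast hp.one_lt
    have hpw : (w0 : ℝ) ≤ p := by exact_mod_cast (by omega : w0 ≤ p)
    have hpp : (0 : ℝ) < p := by linarith
    have h1 : ∑ q ∈ T, D / (q : ℝ) ≤ 1 / 20 * Real.log p + D * K := by
      have h2 : ∑ q ∈ T, D / (q : ℝ) = D * ∑ q ∈ T, (1 : ℝ) / q := by
        rw [Finset.mul_sum]
        apply Finset.sum_congr rfl
        intro q _
        ring
      rw [h2]
      have h3 : ∑ q ∈ T, (1 : ℝ) / q ≤ ∑ q ∈ primesUpTo p, (1 : ℝ) / q := by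
        apply Finset.sum_le_sum_of_subset_of_nonneg
        · intro q hq
          rw [mem_primesUpTo]
          exact ⟨(hT q hq).1, (hT q hq).2.le⟩
        · intro q _ _
          positivity
      have h4 := h3.trans (hrec p hp.one_lt.le)
      calc D * ∑ q ∈ T, (1 : ℝ) / q ≤ D * (1 / (20 * D) * Real.log p + K) :=
            mul_le_mul_of_nonneg_left h4 hDp.le
        _ = 1 / 20 * Real.log p + D * K := by field_simp
    have h2 : Real.exp (∑ q ∈ T, D / (q : ℝ)) ≤ (p : ℝ) ^ (1 / 20 : ℝ) * Real.exp (D * K) := by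
      refine (Real.exp_le_exp.mpr h1).trans (le_of_eq ?_)
      rw [Real.exp_add, Real.rpow_def_of_pos hpp]
      congr 2
      ring
    have h3 : Real.exp (D / p) - 1 ≤ 2 * D / p := by
      have hx : |D / (p : ℝ)| ≤ 1 := by
        rw [abs_of_pos (by positivity), div_le_one hpp]
        linarith
      have h4 := Real.abs_exp_sub_one_le hx
      rw [abs_of_pos (by positivity : 0 < D / (p : ℝ))] at h4
      have h5 := le_abs_self (Real.exp (D / p) - 1)
      calc Real.exp (D / p) - 1 ≤ 2 * (D / p) := h5.trans h4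
        _ = 2 * D / p := by ring
    have h4 : 2 * D * Real.exp (D * K) ≤ (p : ℝ) ^ (1 / 20 : ℝ) := by
      have h5 : (2 * D * Real.exp (D * K)) ^ 20 ≤ p := hwE.trans hpw
      have h6 : ((p : ℝ) ^ (1 / 20 : ℝ)) ^ 20 = p := by
        rw [← Real.rpow_natCast, ← Real.rpow_mul hpp.le]
        norm_num
      rw [← h6] at h5
      exact le_of_pow_le_pow_left₀ (by norm_num) (by positivity) h5
    have h5 : 0 ≤ Real.exp (D / p) - 1 := by
      have := Real.add_one_le_exp (D / (p : ℝ))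
      have : 0 ≤ D / (p : ℝ) := by positivity
      linarith
    calc Real.exp (∑ q ∈ T, D / (q : ℝ)) * (Real.exp (D / p) - 1)
        ≤ ((p : ℝ) ^ (1 / 20 : ℝ) * Real.exp (D * K)) * (2 * D / p) :=
          mul_le_mul h2 h3 h5 (by positivity)
      _ = (p : ℝ) ^ (1 / 20 : ℝ) * (2 * D * Real.exp (D * K)) / p := by ring
      _ ≤ (p : ℝ) ^ (1 / 20 : ℝ) * (p : ℝ) ^ (1 / 20 : ℝ) / p := by gcongr
      _ = (p : ℝ) ^ (-(9 / 10 : ℝ)) := by
          rw [← Real.rpow_add hpp, ← Real.rpow_sub_one hpp.ne']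
          norm_num
  -- induction
  have main : ∀ T : Finset ℕ, T ⊆ S → Real.exp (∑ p ∈ T, D / (p : ℝ)) ≤ 1 + ∑ p ∈ T, (p : ℝ) ^ (-(9 / 10 : ℝ)) := by
    intro T
    induction T using Finset.induction_on_max with
    | empty => intro _; simp
    | insert a T ha ih =>
      intro hTS
      have haT : a ∉ T := fun h => lt_irrefl _ (ha a h)
      have haS := hS a (hTS (Finset.mem_insert_self _ _))
      have hT := ih (fun x hx => hTS (Finset.mem_insert_of_mem hx))
      rw [Finset.sum_insert haT, Finset.sum_insert haT, add_comm (D / (a : ℝ)), Real.exp_add]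
      have h1 := key a haS.1 haS.2.1 T (fun q hq => ⟨(hS q (hTS (Finset.mem_insert_of_mem hq))).1, ha q hq⟩)
      have h2 : Real.exp (∑ p ∈ T, D / (p : ℝ)) * Real.exp (D / a)
          = Real.exp (∑ p ∈ T, D / (p : ℝ)) + Real.exp (∑ p ∈ T, D / (p : ℝ)) * (Real.exp (D / a) - 1) := by ring
      rw [h2]
      linarith
  refine le_trans (Real.exp_le_exp.mpr ?_) (main S subset_rfl)
  apply Finset.sum_le_sum
  intro p _
  apply div_le_div_of_nonneg_right _ (Nat.cast_nonneg _)
  linarith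

end Pool.Agent.Lib.H18GB
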