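import Pool.Agent.Lib.H18GB.Corr

/-!
# Project GB: CORRAP
-/

namespace Pool.Agent.Lib.H18GB

open Finset Pool.Agent.Lib.Sieve

theorem corrAP_rho {w z : ℕ} {S : Finset ℕ} (hS : PSet w z S) {q : ℕ} (hq : q ∈ S) (v : ℤ) :
    rho S v ≤ 2 * rho (S.erase q) v := by
  have hq2 : (2 : ℝ) ≤ q := by exact_mod_cast (hS q hq).1.two_le
  have hS' : ∀ p ∈ S.erase q, p.Prime := fun p hp => (hS p (Finset.mem_of_mem_erase hp)).1
  have hV : VV S = (1 - 1 / (q : ℝ)) * VV (S.erase q) := by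
    unfold VV
    rw [Finset.mul_prod_erase S (fun p : ℕ => (1 - 1 / (p : ℝ))) hq]
  have hVp := VV_pos hS'
  have hq1 : (1 : ℝ) / q ≤ 1 / 2 := one_div_le_one_div_of_le (by norm_num) hq2
  unfold rho
  by_cases h : Rgh S v
  · have h' : Rgh (S.erase q) v := fun p hp => h p (Finset.mem_of_mem_erase hp)
    rw [if_pos h, if_pos h', hV, mul_inv]
    apply mul_le_mul_of_nonneg_right _ (inv_nonneg.mpr hVp.le)
    rw [inv_le_comm₀ (by linarith) (by norm_num)]
    linarith
  · rw [if_neg h]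
    split_ifs
    · positivity
    · simp

theorem corrAP_ers_le {w z : ℕ} {S : Finset ℕ} (hS : PSet w z S) (d : ℤ) :
    Ers (9 / 10) S d ≤ z := by
  unfold Ers
  have h1 : ∑ p ∈ S.filter (fun p : ℕ => (p : ℤ) ∣ d), (p : ℝ) ^ (-(9 / 10 : ℝ)) ≤
      ∑ p ∈ S.filter (fun p : ℕ => (p : ℤ) ∣ d), (1 : ℝ) := by
    apply Finset.sum_le_sum
    intro p hp
    have hp1 : (1 : ℝ) ≤ p := by exact_mod_cast (hS p (Finset.mem_filter.mp hp).1).1.one_lt.le
    exact Real.rpow_le_one_of_one_le_of_nonpos hp1 (by norm_num)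
  refine h1.trans ?_
  rw [Finset.sum_const, nsmul_eq_mul, mul_one]
  have h2 : S.filter (fun p : ℕ => (p : ℤ) ∣ d) ⊆ Finset.Icc 1 z := by
    intro p hp
    have := hS p (Finset.mem_filter.mp hp).1
    exact Finset.mem_Icc.mpr ⟨this.1.one_lt.le, this.2.2⟩
  have h3 := Finset.card_le_card h2
  rw [Nat.card_Icc] at h3
  have h4 : (S.filter (fun p : ℕ => (p : ℤ) ∣ d)).card ≤ z := by omega
  exact_mod_cast h4

theorem corrAP_ers_erase {w z : ℕ} {S : Finset ℕ} (hS : PSet w z S) {q : ℕ} (hq : q ∈ S) (d : ℤ) :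
    Ers (9 / 10) (S.erase q) (q * d) ≤ Ers (9 / 10) S d := by
  unfold Ers
  apply Finset.sum_le_sum_of_subset_of_nonneg
  · intro p hp
    rw [Finset.mem_filter] at hp ⊢
    have hpS := Finset.mem_of_mem_erase hp.1
    refine ⟨hpS, ?_⟩
    have hpp : Prime (p : ℤ) := Nat.prime_iff_prime_int.mp (hS p hpS).1
    rcases hpp.dvd_or_dvd hp.2 with h | h
    · exfalso
      have h1 : p ∣ q := Int.natCast_dvd_natCast.mp h
      have := (Nat.prime_dvd_prime_iff_eq (hS p hpS).1 (hS q hq).1).mp h1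
      exact (Finset.ne_of_mem_erase hp.1) this
    · exact h
  · intro p _ _
    exact Real.rpow_nonneg (Nat.cast_nonneg _) _

theorem cap_er_le_two {C A w : ℕ} (hw : 1 ≤ w) : er C A w ≤ 2 := by
  unfold er
  have h1 : (2 : ℝ) ^ (-(A : ℝ) / C) ≤ 1 :=
    Real.rpow_le_one_of_one_le_of_nonpos (by norm_num)
      (div_nonpos_of_nonpos_of_nonneg (by simp) (Nat.cast_nonneg _))
  have h2 : (w : ℝ) ^ (-(1 : ℝ) / C) ≤ 1 :=
    Real.rpow_le_one_of_one_le_of_nonpos (by exact_mod_cast hw)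
      (div_nonpos_of_nonpos_of_nonneg (by norm_num) (Nat.cast_nonneg _))
  linarith

open Classical in
/-- Chunk CORRAP: upper bound in a residue class modulo one of the sieving primes `q`. (Sieve by
`S.erase q`: `rho S v ≤ (1 - 1/q)^(-1) rho (S.erase q) v`, `x = c + q x'`, and apply `corr0` with
`α i * q`, `β i + α i c`; the discriminants are multiplied by `q`, not divisible by `p ≠ q`.) -/
theorem corrAP (k : ℕ) : ∃ C : ℕ, 1 ≤ C ∧ ∀ (A w z : ℕ) (S : Finset ℕ), C ≤ A → C ≤ w → 2 ≤ z →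
    PSet w z S → ∀ (α β : Fin k → ℤ), (∀ p ∈ S, ∀ i, ¬ (p : ℤ) ∣ α i) →
    ∀ (a b : ℤ), a ≤ b → ∀ q ∈ S, ∀ c : ℤ,
    ∑ x ∈ (Finset.Ico a b).filter (fun x => (q : ℤ) ∣ x - c), ∏ i : Fin k, rho S (α i * x + β i) ≤
      C * ((b - a) / q * (1 +
        ∑ i, ∑ j ∈ Finset.univ.filter (fun j => i ≠ j), Ers (9 / 10) S (disc α β i j))
        + (z : ℝ) ^ (A + k)) := by
  obtain ⟨C0, hC0, hcorr⟩ := corr0 k
  refine ⟨2 ^ k * (1 + 3 * C0 + C0 * k ^ 2), ?_, ?_⟩
  · exact Nat.one_le_iff_ne_zero.mpr (by positivity)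
  intro A w z S hA hw hz hS α β hα a b hab q hq c
  have hC0le : C0 ≤ 2 ^ k * (1 + 3 * C0 + C0 * k ^ 2) := by
    have h1 : 1 ≤ 2 ^ k := Nat.one_le_two_pow
    nlinarith [Nat.zero_le (C0 * k ^ 2)]
  have hq0 : 0 < (q : ℤ) := by exact_mod_cast (hS q hq).1.pos
  have hqr : (0 : ℝ) < q := by exact_mod_cast (hS q hq).1.pos
  have hS' : PSet w z (S.erase q) := fun p hp => hS p (Finset.mem_of_mem_erase hp)
  set a' : ℤ := -((c - a) / q) with ha'
  set b' : ℤ := -((c - b) / q) with hb'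
  have hab' : a' ≤ b' := by
    have := Int.ediv_le_ediv hq0 (by linarith : c - b ≤ c - a)
    omega
  set α' : Fin k → ℤ := fun i => α i * q with hα'
  set β' : Fin k → ℤ := fun i => β i + α i * c with hβ'
  -- change of variables
  have hmap : ∑ x ∈ (Finset.Ico a b).filter (fun x => (q : ℤ) ∣ x - c),
      ∏ i : Fin k, rho (S.erase q) (α i * x + β i) =
      ∑ x ∈ Finset.Ico a' b', ∏ i : Fin k, rho (S.erase q) (α' i * x + β' i) := by
    refine Finset.sum_bij' (fun x _ => (x - c) / q) (fun x _ => c + q * x) ?_ ?_ ?_ ?_ ?_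
    · intro x hx
      rw [Finset.mem_filter, Finset.mem_Ico] at hx
      obtain ⟨⟨h1, h2⟩, t, ht⟩ := hx
      simp only [ht, Int.mul_ediv_cancel_left _ hq0.ne', Finset.mem_Ico]
      constructor
      · have : -t ≤ (c - a) / q := (Int.le_ediv_iff_mul_le hq0).mpr (by linarith)
        omega
      · have : (c - b) / q < -t := (Int.ediv_lt_iff_lt_mul hq0).mpr (by linarith)
        omega
    · intro x hx
      rw [Finset.mem_Ico] at hx
      rw [Finset.mem_filter, Finset.mem_Ico]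
      refine ⟨⟨?_, ?_⟩, x, by ring⟩
      · have h1 : -x ≤ (c - a) / q := by omega
        have := (Int.le_ediv_iff_mul_le hq0).mp h1
        linarith
      · have h1 : (c - b) / q < -x := by omega
        have := (Int.ediv_lt_iff_lt_mul hq0).mp h1
        linarith
    · intro x hx
      rw [Finset.mem_filter] at hx
      obtain ⟨_, t, ht⟩ := hx
      simp only [ht, Int.mul_ediv_cancel_left _ hq0.ne']
      linarith
    · intro x _
      simp [Int.mul_ediv_cancel_left _ hq0.ne']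
    · intro x hx
      rw [Finset.mem_filter] at hx
      obtain ⟨_, t, ht⟩ := hx
      refine Finset.prod_congr rfl fun i _ => ?_
      congr 1
      simp only [ht, Int.mul_ediv_cancel_left _ hq0.ne', hα', hβ']
      have : x = c + q * t := by linarith
      rw [this]
      ring
  have hstep : ∑ x ∈ (Finset.Ico a b).filter (fun x => (q : ℤ) ∣ x - c),
      ∏ i : Fin k, rho S (α i * x + β i) ≤
      2 ^ k * ∑ x ∈ Finset.Ico a' b', ∏ i : Fin k, rho (S.erase q) (α' i * x + β' i) := by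
    rw [← hmap, Finset.mul_sum]
    apply Finset.sum_le_sum
    intro x _
    have h1 : ∏ i : Fin k, rho S (α i * x + β i) ≤
        ∏ i : Fin k, (2 * rho (S.erase q) (α i * x + β i)) := by
      apply Finset.prod_le_prod
      · intro i _
        exact rho_nonneg hS.prime _
      · intro i _
        exact corrAP_rho hS hq _
    refine h1.trans (le_of_eq ?_)
    rw [Finset.prod_mul_distrib]
    simp
  have hα1 : ∀ p ∈ S.erase q, ∀ i, ¬ (p : ℤ) ∣ α' i := by
    intro p hp i h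
    have hpS := Finset.mem_of_mem_erase hp
    have hpp : Prime (p : ℤ) := Nat.prime_iff_prime_int.mp (hS p hpS).1
    rcases hpp.dvd_or_dvd h with h | h
    · exact hα p hpS i h
    · have h1 : p ∣ q := Int.natCast_dvd_natCast.mp h
      have := (Nat.prime_dvd_prime_iff_eq (hS p hpS).1 (hS q hq).1).mp h1
      exact (Finset.ne_of_mem_erase hp) this
  have hc := hcorr A w z (S.erase q) (hC0le.trans hA) (hC0le.trans hw) hz hS' α' β' hα1 a' b' hab'
  have hc1 := (abs_le.mp hc).2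
  have her : er C0 A w ≤ 2 := cap_er_le_two (le_trans hC0 (hC0le.trans hw))
  set E : ℝ := ∑ i, ∑ j ∈ Finset.univ.filter (fun j => i ≠ j), Ers (9 / 10) S (disc α β i j) with hE
  have hE0 : 0 ≤ E := Finset.sum_nonneg fun i _ => Finset.sum_nonneg fun j _ => Ers_nonneg _ _ _
  have hE' : ∑ i, ∑ j ∈ Finset.univ.filter (fun j => i ≠ j),
      Ers (9 / 10) (S.erase q) (disc α' β' i j) ≤ E := by
    apply Finset.sum_le_sum
    intro i _
    apply Finset.sum_le_sum
    intro j _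
    have : disc α' β' i j = q * disc α β i j := by
      simp only [disc, hα', hβ']
      ring
    rw [this]
    exact corrAP_ers_erase hS hq _
  have hEz : E ≤ k ^ 2 * z := by
    have h1 : E ≤ ∑ i : Fin k, ∑ j ∈ Finset.univ.filter (fun j : Fin k => i ≠ j), (z : ℝ) := by
      apply Finset.sum_le_sum
      intro i _
      apply Finset.sum_le_sum
      intro j _
      exact corrAP_ers_le hS _
    have h2 : ∑ i : Fin k, ∑ j ∈ Finset.univ.filter (fun j : Fin k => i ≠ j), (z : ℝ) ≤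
        ∑ i : Fin k, ∑ j : Fin k, (z : ℝ) := by
      apply Finset.sum_le_sum
      intro i _
      exact Finset.sum_le_sum_of_subset_of_nonneg (Finset.filter_subset _ _)
        (fun _ _ _ => Nat.cast_nonneg _)
    refine (h1.trans h2).trans (le_of_eq ?_)
    simp
    ring
  have hlen : ((b' : ℝ) - a') ≤ (b - a) / q + 1 := by
    have h1 : (((c - a) / (q : ℤ) : ℤ) : ℝ) ≤ ((c : ℝ) - a) / q := by
      rw [le_div_iff₀ hqr]
      have := Int.ediv_mul_le (c - a) hq0.ne'
      exact_mod_cast this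
    have h2 : ((c : ℝ) - b) / q - 1 ≤ (((c - b) / (q : ℤ) : ℤ) : ℝ) := by
      rw [sub_le_iff_le_add, div_le_iff₀ hqr]
      have := Int.lt_ediv_add_one_mul_self (c - b) hq0
      exact_mod_cast this.le
    rw [ha', hb']
    push_cast
    have h3 : ((b : ℝ) - a) / q = ((c : ℝ) - a) / q - ((c : ℝ) - b) / q := by ring
    rw [h3]
    linarith
  have hlen0 : (0 : ℝ) ≤ (b' : ℝ) - a' := by
    have : (a' : ℝ) ≤ b' := by exact_mod_cast hab'
    linarith
  have hz1 : (1 : ℝ) ≤ z := by exact_mod_cast (by omega : 1 ≤ z)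
  have hC0r : (1 : ℝ) ≤ C0 := by exact_mod_cast hC0
  have hzpow : (z : ℝ) ≤ (z : ℝ) ^ (A + k) := by
    have hA1 : 1 ≤ A + k := by omega
    calc (z : ℝ) = (z : ℝ) ^ 1 := (pow_one _).symm
      _ ≤ _ := pow_le_pow_right₀ hz1 hA1
  have hzpow1 : (1 : ℝ) ≤ (z : ℝ) ^ (A + k) := hz1.trans hzpow
  have hX : ∑ x ∈ Finset.Ico a' b', ∏ i : Fin k, rho (S.erase q) (α' i * x + β' i) ≤
      (1 + 3 * C0 + C0 * k ^ 2) * ((b - a) / q * (1 + E) + (z : ℝ) ^ (A + k)) := by
    have h1 : ∑ x ∈ Finset.Ico a' b', ∏ i : Fin k, rho (S.erase q) (α' i * x + β' i) ≤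
        (b' - a') * (1 + 2 * C0 + C0 * E) + C0 * (z : ℝ) ^ (A + k) := by
      have h2 : ((b' : ℝ) - a') * (C0 * er C0 A w +
          C0 * ∑ i, ∑ j ∈ Finset.univ.filter (fun j => i ≠ j),
            Ers (9 / 10) (S.erase q) (disc α' β' i j)) ≤ (b' - a') * (2 * C0 + C0 * E) := by
        apply mul_le_mul_of_nonneg_left _ hlen0
        have h3 := mul_le_mul_of_nonneg_left her (by linarith : (0 : ℝ) ≤ C0)
        have h4 := mul_le_mul_of_nonneg_left hE' (by linarith : (0 : ℝ) ≤ C0)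
        linarith
      linarith
    have h5 : ((b' : ℝ) - a') * (1 + 2 * C0 + C0 * E) ≤
        ((b - a) / q + 1) * (1 + 2 * C0 + C0 * E) :=
      mul_le_mul_of_nonneg_right hlen (by positivity)
    have hba : (0 : ℝ) ≤ ((b : ℝ) - a) / q := by
      have : (a : ℝ) ≤ b := by exact_mod_cast hab
      exact div_nonneg (by linarith) hqr.le
    set X : ℝ := ((b : ℝ) - a) / q with hXdef
    set Z : ℝ := (z : ℝ) ^ (A + k) with hZdef
    have h6 : (1 + 2 * C0 + C0 * E) ≤ (1 + 2 * C0) + C0 * k ^ 2 * Z := by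
      have h7 : C0 * E ≤ C0 * (k ^ 2 * Z) := by
        apply mul_le_mul_of_nonneg_left _ (by linarith)
        exact hEz.trans (mul_le_mul_of_nonneg_left hzpow (by positivity))
      linarith
    have h7 : (1 + 2 * (C0 : ℝ)) ≤ (1 + 2 * C0) * Z := by nlinarith
    have h8 : X * (1 + 2 * C0 + C0 * E) ≤ X * ((1 + 3 * C0 + C0 * k ^ 2) * (1 + E)) := by
      apply mul_le_mul_of_nonneg_left _ hba
      have : (0 : ℝ) ≤ C0 * k ^ 2 * (1 + E) := by positivity
      nlinarith
    nlinarith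
  calc ∑ x ∈ (Finset.Ico a b).filter (fun x => (q : ℤ) ∣ x - c),
      ∏ i : Fin k, rho S (α i * x + β i)
      ≤ 2 ^ k * ∑ x ∈ Finset.Ico a' b', ∏ i : Fin k, rho (S.erase q) (α' i * x + β' i) := hstep
    _ ≤ 2 ^ k * ((1 + 3 * C0 + C0 * k ^ 2) * ((b - a) / q * (1 + E) + (z : ℝ) ^ (A + k))) :=
        mul_le_mul_of_nonneg_left hX (by positivity)
    _ = _ := by
        push_cast
        ring

end Pool.Agent.Lib.H18GB
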