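import Pool.Agent.Lib.H18GB.DecG

/-!
# Project GB: DEC

`Pj`, `βj` (the blocks of primes and the weights) are defined in `DecB`.
-/

namespace Pool.Agent.Lib.H18GB

open Finset Pool.Agent.Lib.Sieve

/-- Chunk DEC. Let `z = rt s M`, `v = r + W n`, `Λ = φ(W)/W * log (W M)`, `κ = Λ * VV (sprimes w z)`.
A number `v > z` coprime to `W` with no prime factor in `(w, z]` is either prime or a composite
with smallest prime factor `b ∈ (z, √v]`. So, up to the errors listed below,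
`lam n = Λ 1[v prime] = Λ 1[v rough] - Λ ∑_b 1[b ∣ v, v/b has no prime factor < b]`
`= κ rho(v) - Λ ∑_{j < J} ∑_{b ∈ Pj z j, b ∣ v} βj (v/b)`, `J` maximal with
`z 2^J ≤ M^(1/2 - ε')`-ish. Errors, all of `L^1` norm `≤ ε M / 10`:
(1) `|log v - log (W M)|` on primes (Chebyshev / `pntlam` for `v ≥ σ W M` and for `v < σ W M`);
(2) the `v ≤ z` (at most `z + 1` values of `n`, each contributing `O(log)`);
(3) the composite `v` without prime factor `≤ M^(1/2-ε')`, `b > M^(1/2-ε')`: for each prime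
`b ≤ √(3WM)`, the number of `n < M` with `b ∣ v` and `v / b` free of prime factors `≤ M^(1/(4 A0))`
is `≤ C A0 (W/φ(W)) (M / b) / log M` (`corr0 1` with `A = A0` a constant, for the sieving set
`sprimes w (rt (4 * A0) M)`; `majo`-type bound for its `VV`), and
`∑_{M^(1/2-ε') < b ≤ √(3WM)} 1/b ≤ C ε'` by dyadic blocks and Chebyshev;
(4) `v` divisible by two primes `b, b' ∈ (z 2^j, z 2^(j+1)]` (possibly equal) with `v` rough:
`≤ Λ VV C M (∑_{b ∈ Pj} 1/b)^2 ≤ C s M / (log z + j)^2`, summed over `j`: `≤ C s M / log z`;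
(here `z 2^(j+1) ≤ 2 M^(1/2 - ε')` and `s` is large in terms of `ε'`, so that
`M / (b b') ≥ z^(A0+1)`);
(5) the last partial dyadic block, treated as (3). -/
theorem dec : ∃ C : ℝ, 1 ≤ C ∧ ∀ ε : ℝ, 0 < ε → ε ≤ 1 → ∃ (ε' : ℝ) (s0 w0 : ℕ), 0 < ε' ∧
    ε' < 1 / 4 ∧ ∀ s : ℕ, s0 ≤ s → ∀ w W : ℕ, w0 ≤ w → IsW w W → ∃ M0 : ℕ, ∀ M : ℕ, M0 ≤ M →
    ∀ r : ℤ, |r| < 2 * W → IsCoprime r (W : ℤ) →
    ∃ (κ Λ : ℝ) (J : ℕ) (err : ℤ → ℝ), 0 ≤ κ ∧ κ ≤ C * s ∧ (J : ℝ) ≤ C * Real.log M ∧ 0 ≤ Λ ∧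
      Λ ≤ C * (Nat.totient W / W) * Real.log M ∧
      (∀ j < J, (rt s M * 2 ^ j : ℝ) ≤ (M : ℝ) ^ (1 / 2 - ε')) ∧
      ∑ n ∈ Finset.Ico (0 : ℤ) M, |err n| ≤ ε * M ∧
      ∀ n ∈ Finset.Ico (0 : ℤ) M, (uu W r n : ℂ) =
        κ * ((rho (sprimes w (rt s M)) (r + W * n) - 1 : ℝ) : ℂ) + (κ - 1) -
        Λ * ∑ j ∈ Finset.range J, fII W r (Pj (rt s M) j) (βj (rt s M) j) n + err n := by
  classical
  obtain ⟨C2, hC1, hcnt⟩ := dec_cnt
  have hC1' : (1 : ℝ) ≤ C2 := by exact_mod_cast hC1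
  refine ⟨4, by norm_num, fun ε hε hε1 => ?_⟩
  set ε' : ℝ := ε / (18432 * C2 * (C2 + 1)) with hε'
  have hε'0 : 0 < ε' := by rw [hε']; positivity
  have hε'1 : ε' ≤ 1 / 16 := by
    rw [hε', div_le_div_iff₀ (by positivity) (by norm_num)]
    nlinarith
  refine ⟨ε', max 2 ⌈((C2 : ℝ) + 1) / ε'⌉₊, max 2 C2, hε'0, by linarith, ?_⟩
  intro s hs w W hw hW
  have hs2 : 2 ≤ s := le_trans (le_max_left _ _) hs
  have hw2 : 2 ≤ w := le_trans (le_max_left _ _) hw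
  have hwC : C2 ≤ w := le_trans (le_max_right _ _) hw
  have hsε : ((C2 : ℝ) + 1) / ε' ≤ s :=
    (Nat.le_ceil _).trans (by exact_mod_cast le_trans (le_max_right _ _) hs)
  have hW0 : 0 < W := hW.1
  have hW2 : 2 ≤ W := Nat.le_of_dvd hW0 ((hW.2 2 Nat.prime_two).mpr hw2)
  obtain ⟨MA, hMA⟩ := dec_A s (by omega) W hW0 (ε / 8) (by positivity) (by linarith)
  obtain ⟨MB, hMB⟩ := Filter.eventually_atTop.mp (decF_ev s (4 * (C2 + 1)) w W (by omega)
    (by omega) ε ε' (2592 * s * C2 / ε) hε'0)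
  refine ⟨max MA MB, fun M hM r hr hcop => ?_⟩
  have hA := hMA M (le_trans (le_max_left _ _) hM) r hr hcop
  have hev := hMB M (le_trans (le_max_right _ _) hM)
  have hev' := hev
  obtain ⟨⟨e1, e2, e3, e4, hwy⟩, ⟨e5, e6⟩, ⟨e7, e8⟩, ⟨e9, e10⟩, e11, e12, e13, e14, e15, e16⟩ := hev
  set z := rt s M with hz
  have hM1 : 1 ≤ M := by omega
  have hM1' : (1 : ℝ) ≤ M := by exact_mod_cast hM1
  have hMp : (0 : ℝ) < M := by linarith
  have hW1' : (1 : ℝ) ≤ W := by exact_mod_cast hW0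
  have hz1 : (1 : ℝ) ≤ z := by exact_mod_cast (by omega : 1 ≤ z)
  have hWM : Real.log (W * M) ≤ 2 * Real.log M := by
    rw [Real.log_mul (by positivity) (by positivity)]
    have : Real.log W ≤ Real.log M := Real.log_le_log (by linarith) (by exact_mod_cast e11)
    linarith
  have hWM0 : 0 ≤ Real.log (W * M) := Real.log_nonneg (by nlinarith)
  set Λ : ℝ := (Nat.totient W / W : ℝ) * Real.log (W * M) with hΛ
  have hΛ0 : 0 ≤ Λ := by rw [hΛ]; positivity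
  have hVVz : 0 < VV (sprimes w z) := VV_pos (pset_sprimes w z).prime
  -- the number of blocks
  have hex : ∃ J : ℕ, (M : ℝ) ^ (1 / 2 - ε') < (z : ℝ) * 2 ^ J := by
    obtain ⟨J, hJ⟩ := pow_unbounded_of_one_lt ((M : ℝ) ^ (1 / 2 - ε')) (by norm_num : (1 : ℝ) < 2)
    refine ⟨J, hJ.trans_le ?_⟩
    have : (0 : ℝ) < 2 ^ J := by positivity
    nlinarith
  set J := Nat.find hex with hJ
  have hJ1 : (M : ℝ) ^ (1 / 2 - ε') < (z : ℝ) * 2 ^ J := Nat.find_spec hex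
  have hJ2 : ∀ j < J, (z : ℝ) * 2 ^ j ≤ (M : ℝ) ^ (1 / 2 - ε') := fun j hj =>
    not_lt.mp (Nat.find_min hex hj)
  refine ⟨Λ * VV (sprimes w z), Λ, J, fun n => lam W r n - Λ *
      (if Rgh (sprimes w z) (r + W * n) then 1 else 0) +
      Λ * ∑ j ∈ Finset.range J, (dec_cN z j (r + W * n).toNat : ℝ), mul_nonneg hΛ0 hVVz.le,
    dec_lamVV_le hW e3 e2 e5 hWM hWM0, ?_, hΛ0, ?_, hJ2, ?_, ?_⟩
  · -- `J ≤ 4 log M`
    rcases Nat.eq_zero_or_pos J with h0 | h0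
    · rw [h0, Nat.cast_zero]
      linarith
    · have h1 := hJ2 (J - 1) (by omega)
      have h2 : (2 : ℝ) ^ (J - 1) ≤ M := by
        have h3 : (M : ℝ) ^ (1 / 2 - ε') ≤ M := by
          nth_rewrite 2 [← Real.rpow_one (M : ℝ)]
          exact Real.rpow_le_rpow_of_exponent_le hM1' (by linarith)
        have : (0 : ℝ) < 2 ^ (J - 1) := by positivity
        nlinarith
      have h4 := Real.log_le_log (by positivity) h2
      rw [Real.log_pow] at h4
      have h5 : ((J - 1 : ℕ) : ℝ) = J - 1 := by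
        rw [Nat.cast_sub h0, Nat.cast_one]
      rw [h5] at h4
      have := Real.log_two_gt_d9
      have hJ0 : (1 : ℝ) ≤ J := by exact_mod_cast h0
      nlinarith
  · -- `Λ ≤ 4 φ(W)/W log M`
    rw [hΛ]
    have h1 : (0 : ℝ) ≤ (Nat.totient W / W : ℝ) := by positivity
    have h2 : Real.log (W * M) ≤ 4 * Real.log M := by linarith
    calc (Nat.totient W / W : ℝ) * Real.log (W * M) ≤ (Nat.totient W / W : ℝ) * (4 * Real.log M) :=
          mul_le_mul_of_nonneg_left h2 h1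
      _ = 4 * (Nat.totient W / W) * Real.log M := by ring
  · exact dec_sum hC1 hcnt hε hε1 hε' hs2 hsε hwC hw2 hW hr hcop hA hev' hJ1 hJ2
  · intro n hn
    have hn0 := (Finset.mem_Ico.mp hn).1
    have hv0 : r + W * n ≠ 0 := by
      intro h
      have h1 : (W : ℤ) ∣ r := ⟨-n, by linarith⟩
      have h2 : IsUnit (W : ℤ) := hcop.isUnit_of_dvd' h1 dvd_rfl
      rw [Int.isUnit_iff] at h2
      omega
    have hvz : -(z : ℤ) ≤ r + W * n := by
      have h4 := (abs_lt.mp hr).1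
      have h5 : (0 : ℤ) ≤ W * n := mul_nonneg (by positivity) hn0
      have h6 : (2 * W : ℤ) ≤ z := by exact_mod_cast e1
      linarith
    have h1 : ∀ j, fII W r (Pj z j) (βj z j) n = (dec_cN z j (r + W * n).toNat : ℂ) := fun j =>
      dec_fII_toNat j hv0 hvz
    have h2 := dec_rho_mul (pset_sprimes w z).prime Λ (r + W * n)
    simp only [h1]
    unfold uu
    have h3 : (((lam W r n - 1 : ℝ)) : ℂ) = ((Λ * VV (sprimes w z) * (rho (sprimes w z) (r + W * n) - 1) +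
        (Λ * VV (sprimes w z) - 1) - Λ * ∑ j ∈ Finset.range J, (dec_cN z j (r + W * n).toNat : ℝ) +
        (lam W r n - Λ * (if Rgh (sprimes w z) (r + W * n) then 1 else 0) +
        Λ * ∑ j ∈ Finset.range J, (dec_cN z j (r + W * n).toNat : ℝ)) : ℝ) : ℂ) := by
      congr 1
      linear_combination -h2
    rw [h3]
    push_cast
    ring

end Pool.Agent.Lib.H18GB
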