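import Pool.Agent.Lib.H18GB.QT

/-!
# The Type II structural theorem: configuration, sets
-/

namespace Pool.Agent.Lib.H18GB

open Finset Pool.Agent.Lib.Sieve

/-- Standing assumptions: `P` is a set of primes in `[B, 2B]`, all `= b0 mod W`. -/
structure Cfg (w W y B M : ℕ) (r b0 : ℤ) (P : Finset ℕ) (H : Finset ℤ) : Prop where
  isW : IsW w W
  hr : |r| < 2 * W
  rcop : IsCoprime r (W : ℤ)
  hb0 : 0 ≤ b0 ∧ b0 < W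
  b0cop : IsCoprime b0 (W : ℤ)
  Wy : 4 * W ^ 4 ≤ y
  hw : w ≤ y
  BM : 100 * B ^ 2 ≤ M
  hP : ∀ b ∈ P, b.Prime ∧ B ≤ b ∧ b ≤ 2 * B ∧ (W : ℤ) ∣ (b : ℤ) - b0
  hH : H ⊆ Finset.Ioo (-(M : ℤ)) M

/-- the Type II function `f(n) = ∑_{b ∈ P, b ∣ r + W n} β((r + W n) / b)` -/
noncomputable def fII (W : ℕ) (r : ℤ) (P : Finset ℕ) (β : ℤ → ℂ) (n : ℤ) : ℂ :=
  ∑ b ∈ P.filter (fun b : ℕ => (b : ℤ) ∣ r + W * n), β ((r + W * n) / b)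

/-- `β` is supported on `S`-rough numbers and bounded by `1` -/
def BetaOK (S : Finset ℕ) (β : ℤ → ℂ) : Prop := ∀ a, ‖β a‖ ≤ 1 ∧ (¬ Rgh S a → β a = 0)

open Classical in
/-- the tuples `((b, c), (t, (h1, h2)))` of step (R) -/
noncomputable def Rset (M B : ℕ) (P : Finset ℕ) (H : Finset ℤ) (θ : ℤ → ℝ) (C1 : ℝ) :
    Finset ((ℕ × ℕ) × (ℤ × (ℤ × ℤ))) :=
  ((P ×ˢ P) ×ˢ (Finset.Icc (-((M / B : ℕ) : ℤ)) ((M / B : ℕ) : ℤ) ×ˢ (H ×ˢ H))).filter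
    fun q => q.2.2.1 - q.2.1 * q.1.1 ∈ H ∧ q.2.2.2 - q.2.1 * q.1.2 ∈ H ∧
      nr (q.1.1 * (θ q.2.2.1 - θ (q.2.2.1 - q.2.1 * q.1.1)) -
        q.1.2 * (θ q.2.2.2 - θ (q.2.2.2 - q.2.1 * q.1.2))) ≤ C1 * B / M

open Classical in
/-- the primes `b` with `b + W e'` in `P` too and `b (b + W e') Y` near `γ` -/
noncomputable def Bset (W : ℕ) (P : Finset ℕ) (e' : ℤ) (Y γ ε0 : ℝ) : Finset ℕ :=
  P.filter fun b : ℕ => (∃ b' ∈ P, (b' : ℤ) = b + W * e') ∧ nr (b * (b + W * e') * Y - γ) ≤ ε0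

open Classical in
/-- the triples `(t, (h, e'))` with `h, h - t W e' ∈ H` -/
noncomputable def Tset (W M B : ℕ) (H : Finset ℤ) : Finset (ℤ × (ℤ × ℤ)) :=
  (Finset.Icc (-((M / B : ℕ) : ℤ)) ((M / B : ℕ) : ℤ) ×ˢ
    (H ×ˢ Finset.Icc (-((B / W : ℕ) : ℤ)) ((B / W : ℕ) : ℤ))).filter
    fun q => q.1 ≠ 0 ∧ q.2.2 ≠ 0 ∧ q.2.1 - q.1 * (W * q.2.2) ∈ H

/-- `x` is within `T / M` of `(1 / (Q W^2)) ℤ` -/
def Near (Q W T M : ℕ) (x : ℝ) : Prop := ∃ m : ℤ, |x - m / (Q * (W : ℝ) ^ 2)| ≤ T / M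

end Pool.Agent.Lib.H18GB
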