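import Pool.Agent.Lib.H18GB.Majo
import Pool.Agent.Lib.H18GB.Corr
import Pool.Agent.Lib.H18GB.Pntl
import Pool.Agent.Lib.H18GB.STdefs
import Pool.Agent.Lib.Sieve.Averages

/-!
# Project GB: DEC, auxiliary lemmas I
-/

namespace Pool.Agent.Lib.H18GB

open Finset Pool.Agent.Lib.Sieve

/-- dyadic blocks -/
theorem dec_dyad (x : ℕ) (hx : 2 ≤ x) :
    ∑ p ∈ (Finset.Ioc x (2 * x)).filter Nat.Prime, (1 : ℝ) / p ≤ 3 / Real.log x := by
  have hx' : (2 : ℝ) ≤ x := by exact_mod_cast hx
  have hlog : 0 < Real.log x := Real.log_pos (by linarith)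
  set P := (Finset.Ioc x (2 * x)).filter Nat.Prime with hP
  have h1 : (x : ℕ) ^ P.card ≤ 4 ^ (2 * x) := by
    calc x ^ P.card = ∏ p ∈ P, x := by rw [Finset.prod_const]
      _ ≤ ∏ p ∈ P, p := Finset.prod_le_prod' fun p hp =>
          (Finset.mem_Ioc.mp (Finset.mem_filter.mp hp).1).1.le
      _ ≤ ∏ p ∈ primesUpTo (2 * x), p := by
          apply Finset.prod_le_prod_of_subset_of_one_le'
          · intro p hp
            rw [mem_primesUpTo]
            have := Finset.mem_filter.mp hp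
            exact ⟨this.2, (Finset.mem_Ioc.mp this.1).2⟩
          · intro p hp _
            exact (mem_primesUpTo.mp hp).1.one_le
      _ ≤ 4 ^ (2 * x) := primorial_le_four_pow _
  have h2 : (P.card : ℝ) * Real.log x ≤ 2 * x * Real.log 4 := by
    have h3 : ((x : ℝ) ^ P.card) ≤ (4 : ℝ) ^ (2 * x) := by exact_mod_cast h1
    have h4 := Real.log_le_log (by positivity) h3
    rw [Real.log_pow, Real.log_pow] at h4
    push_cast at h4
    exact h4
  have h4 : Real.log 4 ≤ 3 / 2 := by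
    have : (4 : ℝ) = 2 ^ 2 := by norm_num
    rw [this, Real.log_pow]
    have := Real.log_two_lt_d9
    push_cast
    linarith
  calc ∑ p ∈ P, (1 : ℝ) / p ≤ ∑ p ∈ P, (1 : ℝ) / x := by
        refine Finset.sum_le_sum fun p hp => ?_
        have := (Finset.mem_Ioc.mp (Finset.mem_filter.mp hp).1).1
        have h5 : (x : ℝ) ≤ p := by exact_mod_cast this.le
        exact one_div_le_one_div_of_le (by linarith) h5
    _ = P.card / x := by rw [Finset.sum_const, nsmul_eq_mul]; ring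
    _ ≤ 3 / Real.log x := by
        rw [div_le_div_iff₀ (by linarith) hlog]
        nlinarith

theorem dec_tot {w W : ℕ} (hW : IsW w W) :
    (Nat.totient W / W : ℝ) = ∏ p ∈ W.primeFactors, (1 - 1 / (p : ℝ)) := by
  have h := Nat.totient_eq_mul_prod_factors W
  have hW0 : (W : ℝ) ≠ 0 := by exact_mod_cast hW.1.ne'
  have h2 : (Nat.totient W : ℝ) = W * ∏ p ∈ W.primeFactors, (1 - (p : ℝ)⁻¹) := by
    have h3 := congrArg (Rat.cast : ℚ → ℝ) h
    push_cast at h3
    exact h3
  rw [h2, mul_div_cancel_left₀ _ hW0]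
  simp only [one_div]

theorem dec_vv {w W : ℕ} (hW : IsW w W) {z : ℕ} (hz : 2 ≤ z) (hwz : w ≤ z) :
    (Nat.totient W / W : ℝ) * VV (sprimes w z) ≤ 1 / Real.log z := by
  refine le_trans (le_of_eq ?_) (prod_one_sub_inv_le z hz)
  rw [dec_tot hW]
  unfold VV
  have h3 : primesUpTo z = W.primeFactors ∪ sprimes w z := by
    ext p
    rw [Finset.mem_union, mem_primesUpTo, mem_sprimes, Nat.mem_primeFactors]
    constructor
    · rintro ⟨h1, h2⟩
      by_cases h : p ≤ w
      · left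
        exact ⟨h1, (hW.2 p h1).mpr h, hW.1.ne'⟩
      · right
        exact ⟨h1, by omega, h2⟩
    · rintro (⟨h1, h2, -⟩ | ⟨h1, h2, h3⟩)
      · exact ⟨h1, ((hW.2 p h1).mp h2).trans hwz⟩
      · exact ⟨h1, h3⟩
  rw [h3, Finset.prod_union]
  rw [Finset.disjoint_left]
  intro p hp hp2
  rw [mem_sprimes] at hp2
  rw [Nat.mem_primeFactors] at hp
  have := (hW.2 p hp.1).mp hp.2.1
  omega

open Classical in
theorem dec_cnt : ∃ C2 : ℕ, 1 ≤ C2 ∧ ∀ (w z W q M : ℕ) (S : Finset ℕ) (r : ℤ), C2 ≤ w → 2 ≤ z →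
    IsW w W → PSet w z S → 0 < q → IsCoprime (q : ℤ) (W : ℤ) →
    (((Finset.Ico (0 : ℤ) M).filter fun n => (q : ℤ) ∣ r + W * n ∧ Rgh S ((r + W * n) / q)).card : ℝ)
      ≤ VV S * (C2 * ((M : ℝ) / q + 1) + C2 * (z : ℝ) ^ (C2 + 1)) := by
  obtain ⟨C, hC1, hC⟩ := corr0 1
  refine ⟨1 + 2 * C, by omega, ?_⟩
  intro w z W q M S r hw hz hW hS hq hcop
  have hq' : (0 : ℤ) < q := by exact_mod_cast hq
  obtain ⟨u, t, hut⟩ := hcop
  set n0 : ℤ := (-r * t) % q with hn0
  have hn0a : 0 ≤ n0 := Int.emod_nonneg _ hq'.ne'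
  have hn0b : n0 < q := Int.emod_lt_of_pos _ hq'
  have hdiv : (q : ℤ) ∣ r + W * n0 := by
    have h1 : (q : ℤ) ∣ (-r * t) - n0 := Int.dvd_self_sub_emod
    obtain ⟨k, hk⟩ := h1
    refine ⟨r * u - W * k, ?_⟩
    have h2 : n0 = -r * t - q * k := by linarith
    rw [h2]
    linear_combination (-r) * hut
  obtain ⟨β, hβ⟩ := hdiv
  have key : ((Finset.Ico (0 : ℤ) M).filter fun n =>
        (q : ℤ) ∣ r + W * n ∧ Rgh S ((r + W * n) / q)).card ≤
      ((Finset.Ico (0 : ℤ) ((M / q + 1 : ℕ) : ℤ)).filter (fun m => Rgh S (W * m + β))).card := by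
    have hrec : ∀ n : ℤ, (q : ℤ) ∣ r + W * n → ∃ m, n - n0 = q * m := by
      intro n hn
      have h1 : (q : ℤ) ∣ W * (n - n0) := by
        have : (W : ℤ) * (n - n0) = (r + W * n) - q * β := by rw [← hβ]; ring
        rw [this]
        exact dvd_sub hn (Dvd.intro _ rfl)
      have h2 : IsCoprime (q : ℤ) (W : ℤ) := ⟨u, t, hut⟩
      exact h2.dvd_of_dvd_mul_left h1
    apply Finset.card_le_card_of_injOn (fun n => (n - n0) / q)
    · intro n hn
      rw [Finset.mem_coe, Finset.mem_filter, Finset.mem_Ico] at hn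
      obtain ⟨⟨hn1, hn2⟩, hn3, hn4⟩ := hn
      obtain ⟨m, hm⟩ := hrec n hn3
      rw [Finset.mem_coe, Finset.mem_filter, Finset.mem_Ico]
      have h1 : (n - n0) / q = m := by rw [hm]; exact Int.mul_ediv_cancel_left _ hq'.ne'
      beta_reduce
      rw [h1]
      have h2 : 0 ≤ m := by
        by_contra hneg
        push Not at hneg
        nlinarith
      refine ⟨⟨h2, ?_⟩, ?_⟩
      · have h3 : q * m < M := by linarith
        have h4 : m ≤ (M : ℤ) / q := by
          rw [Int.le_ediv_iff_mul_le hq']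
          linarith
        push_cast
        omega
      · have h5 : (r + W * n) / q = W * m + β := by
          have : r + W * n = q * (W * m + β) := by
            have h6 : n = n0 + q * m := by linarith
            rw [h6]
            linear_combination hβ
          rw [this]
          exact Int.mul_ediv_cancel_left _ hq'.ne'
        rwa [h5] at hn4
    · intro n hn n' hn' h
      rw [Finset.mem_coe, Finset.mem_filter] at hn hn'
      obtain ⟨m, hm⟩ := hrec n hn.2.1
      obtain ⟨m', hm'⟩ := hrec n' hn'.2.1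
      simp only at h
      rw [hm, hm', Int.mul_ediv_cancel_left _ hq'.ne', Int.mul_ediv_cancel_left _ hq'.ne'] at h
      rw [h] at hm
      linarith
  have hVV : 0 < VV S := VV_pos hS.prime
  have hcard : (((Finset.Ico (0 : ℤ) ((M / q + 1 : ℕ) : ℤ)).filter
      (fun m => Rgh S (W * m + β))).card : ℝ) =
      VV S * ∑ m ∈ Finset.Ico (0 : ℤ) ((M / q + 1 : ℕ) : ℤ), rho S (W * m + β) := by
    rw [Finset.card_filter, Finset.mul_sum]
    push_cast
    refine Finset.sum_congr rfl fun m _ => ?_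
    unfold rho
    split_ifs
    · rw [mul_inv_cancel₀ hVV.ne']
    · simp
  have hwpos : (1 : ℝ) ≤ w := by
    have : 1 ≤ w := by omega
    exact_mod_cast this
  have her : er C C w ≤ 2 := by
    unfold er
    have h1 : (2 : ℝ) ^ (-(C : ℝ) / C) ≤ 1 := by
      apply Real.rpow_le_one_of_one_le_of_nonpos (by norm_num)
      rw [neg_div]
      have : (0 : ℝ) ≤ (C : ℝ) / C := by positivity
      linarith
    have h2 : (w : ℝ) ^ (-(1 : ℝ) / C) ≤ 1 := by
      apply Real.rpow_le_one_of_one_le_of_nonpos hwpos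
      rw [neg_div]
      have : (0 : ℝ) ≤ (1 : ℝ) / C := by positivity
      linarith
    linarith
  have hz1 : (1 : ℝ) ≤ z := by
    have : 1 ≤ z := by omega
    exact_mod_cast this
  have hsum := hC C w z S le_rfl (by omega) hz hS (fun _ => (W : ℤ)) (fun _ => β)
    (fun p hp _ => hW.not_dvd hS p hp) 0 ((M / q + 1 : ℕ) : ℤ) (by positivity)
  have hE : ∑ i : Fin 1, ∑ j ∈ Finset.univ.filter (fun j => i ≠ j),
      Ers (9 / 10) S (disc (fun _ : Fin 1 => (W : ℤ)) (fun _ => β) i j) = 0 := by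
    apply Finset.sum_eq_zero
    intro i _
    apply Finset.sum_eq_zero
    intro j hj
    exact absurd (Subsingleton.elim i j) (Finset.mem_filter.mp hj).2
  rw [hE] at hsum
  simp only [Fin.prod_univ_one, mul_zero, add_zero, Int.cast_zero, sub_zero,
    Int.cast_natCast] at hsum
  have hsum2 := (abs_le.mp hsum).2
  have hMq : ((M / q + 1 : ℕ) : ℝ) ≤ (M : ℝ) / q + 1 := by
    push_cast
    have : ((M / q : ℕ) : ℝ) ≤ (M : ℝ) / q := Nat.cast_div_le
    linarith
  have hMq0 : (0 : ℝ) ≤ ((M / q + 1 : ℕ) : ℝ) := Nat.cast_nonneg _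
  calc (((Finset.Ico (0 : ℤ) M).filter fun n =>
        (q : ℤ) ∣ r + W * n ∧ Rgh S ((r + W * n) / q)).card : ℝ)
      ≤ (((Finset.Ico (0 : ℤ) ((M / q + 1 : ℕ) : ℤ)).filter
        (fun m => Rgh S (W * m + β))).card : ℝ) := by exact_mod_cast key
    _ = _ := hcard
    _ ≤ VV S * (((1 + 2 * C : ℕ) : ℝ) * ((M : ℝ) / q + 1) +
        ((1 + 2 * C : ℕ) : ℝ) * (z : ℝ) ^ ((1 + 2 * C) + 1)) := by
        apply mul_le_mul_of_nonneg_left _ hVV.le
        have h1 : (z : ℝ) ^ (C + 1) ≤ (z : ℝ) ^ ((1 + 2 * C) + 1) :=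
          pow_le_pow_right₀ hz1 (by omega)
        have h0 : (0 : ℝ) ≤ (z : ℝ) ^ (C + 1) := by positivity
        have hCr : (1 : ℝ) ≤ C := by exact_mod_cast hC1
        have h2 : (C : ℝ) * er C C w ≤ 2 * C := by nlinarith
        have h3 : ((M / q + 1 : ℕ) : ℝ) * ((C : ℝ) * er C C w) ≤
            ((M : ℝ) / q + 1) * (2 * C) := by
          apply mul_le_mul hMq h2
          · exact mul_nonneg (by linarith) (er_nonneg _ _ _)
          · linarith
        have h4 : (C : ℝ) * (z : ℝ) ^ (C + 1) ≤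
            ((1 + 2 * C : ℕ) : ℝ) * (z : ℝ) ^ ((1 + 2 * C) + 1) := by
          push_cast
          apply mul_le_mul (by linarith) h1 h0 (by linarith)
        push_cast at h4 ⊢
        push_cast at hsum2 h3 hMq
        nlinarith

end Pool.Agent.Lib.H18GB
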