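import Pool.Agent.Lib.H18GB.DecA

/-!
# Project GB: DEC, auxiliary lemmas II (the pointwise decomposition)
-/

namespace Pool.Agent.Lib.H18GB

open Finset Pool.Agent.Lib.Sieve

/-- the primes in `(z 2^j, z 2^(j+1)]` -/
def Pj (z j : ℕ) : Finset ℕ := (Finset.Ioc (z * 2 ^ j) (z * 2 ^ (j + 1))).filter Nat.Prime

open Classical in
/-- indicator of `a > 1` without prime factor `≤ z 2^(j+1)` -/
noncomputable def βj (z j : ℕ) (a : ℤ) : ℂ :=
  if 1 < a ∧ ∀ p : ℕ, p.Prime → p ≤ z * 2 ^ (j + 1) → ¬ (p : ℤ) ∣ a then 1 else 0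

theorem dec_mem_Pj {z j b : ℕ} : b ∈ Pj z j ↔ (z * 2 ^ j < b ∧ b ≤ z * 2 ^ (j + 1)) ∧ b.Prime := by
  unfold Pj
  rw [Finset.mem_filter, Finset.mem_Ioc]

open Classical in
/-- natural number version of the count of block `j` -/
noncomputable def dec_cN (z j m : ℕ) : ℕ :=
  ((Pj z j).filter fun b => b ∣ m ∧ 1 < m / b ∧
    ∀ p : ℕ, p.Prime → p ≤ z * 2 ^ (j + 1) → ¬ p ∣ m / b).card

def dec_E1 (z J m : ℕ) : Prop :=
  ∃ b : ℕ, b.Prime ∧ z * 2 ^ J < b ∧ b ^ 2 ≤ m ∧ b ∣ m ∧ ∀ p : ℕ, p.Prime → p < b → ¬ p ∣ m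

def dec_E2 (w z J m : ℕ) : Prop :=
  Rgh (sprimes w z) (m : ℤ) ∧ ∃ j < J, ∃ b ∈ Pj z j, ∃ b' ∈ Pj z j, b * b' ∣ m

theorem dec_exists_block {z b : ℕ} (hzb : z < b) :
    ∀ J : ℕ, b ≤ z * 2 ^ J → ∃ j < J, z * 2 ^ j < b ∧ b ≤ z * 2 ^ (j + 1) := by
  intro J
  induction J with
  | zero => intro h; simp at h; omega
  | succ J ih =>
    intro h
    by_cases h1 : b ≤ z * 2 ^ J
    · obtain ⟨j, hj, h2⟩ := ih h1
      exact ⟨j, by omega, h2⟩
    · exact ⟨J, by omega, by omega, h⟩

theorem dec_block_unique {z b j j' : ℕ} (h : b ∈ Pj z j) (h' : b ∈ Pj z j') : j = j' := by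
  rw [dec_mem_Pj] at h h'
  have aux : ∀ {i i' : ℕ}, i < i' → z * 2 ^ (i + 1) ≤ z * 2 ^ i' := fun hi =>
    Nat.mul_le_mul_left _ (Nat.pow_le_pow_right (by norm_num) hi)
  rcases lt_trichotomy j j' with h1 | h1 | h1
  · have := aux h1
    omega
  · exact h1
  · have := aux h1
    omega

open Classical in
theorem dec_point {w W z : ℕ} (hW : IsW w W) (J m : ℕ) (hz : 1 ≤ z) (hm : z < m)
    (hcop : Nat.Coprime m W) :
    |(if m.Prime then (1 : ℝ) else 0) - (if Rgh (sprimes w z) (m : ℤ) then 1 else 0) +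
      ((∑ j ∈ Finset.range J, dec_cN z j m : ℕ) : ℝ)| ≤
      (if dec_E1 z J m then (1 : ℝ) else 0) + (if dec_E2 w z J m then (1 : ℝ) else 0) := by
  have hpos : (0 : ℝ) ≤ (if dec_E1 z J m then (1 : ℝ) else 0) + (if dec_E2 w z J m then (1 : ℝ) else 0) := by
    split_ifs <;> norm_num
  by_cases hR : Rgh (sprimes w z) (m : ℤ)
  · by_cases hp : m.Prime
    · have hT : ∑ j ∈ Finset.range J, dec_cN z j m = 0 := by
        apply Finset.sum_eq_zero
        intro j _
        unfold dec_cN
        rw [Finset.card_eq_zero, Finset.filter_eq_empty_iff]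
        rintro b hb ⟨h1, h2, -⟩
        have hbp := (dec_mem_Pj.mp hb).2
        have h3 : b = m := (Nat.prime_dvd_prime_iff_eq hbp hp).mp h1
        rw [h3, Nat.div_self hp.pos] at h2
        omega
      rw [if_pos hp, if_pos hR, hT]
      simpa using hpos
    · set b := m.minFac with hbdef
      have hb : b.Prime := Nat.minFac_prime (by omega)
      have hbd : b ∣ m := Nat.minFac_dvd m
      have hbw : w < b := by
        by_contra h
        push Not at h
        have h1 : b ∣ W := (hW.2 b hb).mpr h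
        have h2 : b ∣ 1 := by
          rw [← Nat.Coprime.gcd_eq_one hcop]
          exact Nat.dvd_gcd hbd h1
        exact hb.one_lt.ne' (Nat.dvd_one.mp h2)
      have hbz : z < b := by
        by_contra h
        push Not at h
        exact hR b (mem_sprimes.mpr ⟨hb, hbw, h⟩) (Int.natCast_dvd_natCast.mpr hbd)
      have hb2 : b ^ 2 ≤ m := Nat.minFac_sq_le_self (by omega) hp
      have hmin : ∀ p : ℕ, p.Prime → p ∣ m → b ≤ p := fun p hpp hpd =>
        Nat.minFac_le_of_dvd hpp.two_le hpd
      -- the elements counted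
      have huniq : ∀ j b' : ℕ, b' ∈ Pj z j → b' ∣ m →
          (∀ p : ℕ, p.Prime → p ≤ z * 2 ^ (j + 1) → ¬ p ∣ m / b') → b' = b := by
        intro j b' hb' h1 h2
        by_contra hne
        have hbp := (dec_mem_Pj.mp hb').2
        have h3 : b ∣ b' * (m / b') := by rw [Nat.mul_div_cancel' h1]; exact hbd
        rcases (Nat.Prime.dvd_mul hb).mp h3 with h4 | h4
        · exact hne ((Nat.prime_dvd_prime_iff_eq hb hbp).mp h4).symm
        · exact h2 b hb ((hmin b' hbp h1).trans (dec_mem_Pj.mp hb').1.2) h4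
      rw [if_neg hp, if_pos hR]
      by_cases hJ : z * 2 ^ J < b
      · have hE1 : dec_E1 z J m := ⟨b, hb, hJ, hb2, hbd, fun p hpp hpb hpd => by
          have := hmin p hpp hpd
          omega⟩
        have hT : ∑ j ∈ Finset.range J, dec_cN z j m = 0 := by
          apply Finset.sum_eq_zero
          intro j hj
          unfold dec_cN
          rw [Finset.card_eq_zero, Finset.filter_eq_empty_iff]
          rintro b' hb' ⟨h1, -, h3⟩
          have h4 := huniq j b' hb' h1 h3
          have h5 := (dec_mem_Pj.mp hb').1.2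
          have h6 : z * 2 ^ (j + 1) ≤ z * 2 ^ J :=
            Nat.mul_le_mul_left _ (Nat.pow_le_pow_right (by norm_num) (Finset.mem_range.mp hj))
          omega
        rw [hT, if_pos hE1]
        split_ifs <;> norm_num
      · push Not at hJ
        obtain ⟨j0, hj0, hb1, hb3⟩ := dec_exists_block hbz J hJ
        have hbj : b ∈ Pj z j0 := dec_mem_Pj.mpr ⟨⟨hb1, hb3⟩, hb⟩
        have hother : ∀ j ∈ Finset.range J, j ≠ j0 → dec_cN z j m = 0 := by
          intro j _ hne
          unfold dec_cN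
          rw [Finset.card_eq_zero, Finset.filter_eq_empty_iff]
          rintro b' hb' ⟨h1, -, h3⟩
          have h4 := huniq j b' hb' h1 h3
          rw [h4] at hb'
          exact hne (dec_block_unique hb' hbj)
        have hsum : ∑ j ∈ Finset.range J, dec_cN z j m = dec_cN z j0 m :=
          Finset.sum_eq_single_of_mem j0 (Finset.mem_range.mpr hj0) hother
        rw [hsum]
        have hmb : m / b * b = m := Nat.div_mul_cancel hbd
        have hmb1 : 1 < m / b := by
          by_contra h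
          push Not at h
          have h1 : m / b * b ≤ 1 * b := Nat.mul_le_mul_right _ h
          rw [hmb] at h1
          nlinarith [hb.two_le]
        by_cases hq : ∃ p : ℕ, p.Prime ∧ p ≤ z * 2 ^ (j0 + 1) ∧ p ∣ m / b
        · obtain ⟨p, hpp, hp1, hp2⟩ := hq
          have hpm : p ∣ m := hp2.trans (Nat.div_dvd_of_dvd hbd)
          have hpj : p ∈ Pj z j0 := dec_mem_Pj.mpr ⟨⟨lt_of_lt_of_le hb1 (hmin p hpp hpm), hp1⟩, hpp⟩
          have hE2 : dec_E2 w z J m := by
            refine ⟨hR, j0, hj0, b, hbj, p, hpj, ?_⟩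
            obtain ⟨k, hk⟩ := hp2
            refine ⟨k, ?_⟩
            calc m = m / b * b := hmb.symm
              _ = b * p * k := by rw [hk]; ring
          have hT : dec_cN z j0 m = 0 := by
            unfold dec_cN
            rw [Finset.card_eq_zero, Finset.filter_eq_empty_iff]
            rintro b' hb' ⟨h1, -, h3⟩
            have h4 := huniq j0 b' hb' h1 h3
            rw [h4] at h3
            exact h3 p hpp hp1 hp2
          rw [hT, if_pos hE2]
          split_ifs <;> norm_num
        · push Not at hq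
          have hT : dec_cN z j0 m = 1 := by
            unfold dec_cN
            rw [Finset.card_eq_one]
            refine ⟨b, ?_⟩
            ext b'
            rw [Finset.mem_filter, Finset.mem_singleton]
            constructor
            · rintro ⟨hb', h1, -, h3⟩
              exact huniq j0 b' hb' h1 h3
            · rintro rfl
              exact ⟨hbj, hbd, hmb1, hq⟩
          rw [hT]
          simpa using hpos
  · -- not rough
    have hR' : ∃ p ∈ sprimes w z, (p : ℤ) ∣ (m : ℤ) := by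
      by_contra h
      push Not at h
      exact hR h
    obtain ⟨p, hp, hpm⟩ := hR'
    have hpm' : p ∣ m := Int.natCast_dvd_natCast.mp hpm
    obtain ⟨hpp, -, hpz⟩ := mem_sprimes.mp hp
    have hnp : ¬ m.Prime := by
      intro h
      have := (Nat.prime_dvd_prime_iff_eq hpp h).mp hpm'
      omega
    have hT : ∑ j ∈ Finset.range J, dec_cN z j m = 0 := by
      apply Finset.sum_eq_zero
      intro j _
      unfold dec_cN
      rw [Finset.card_eq_zero, Finset.filter_eq_empty_iff]
      rintro b hb ⟨h1, -, h3⟩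
      have hbp := (dec_mem_Pj.mp hb).2
      have hb1 := (dec_mem_Pj.mp hb).1.1
      have h2j : z ≤ z * 2 ^ j := Nat.le_mul_of_pos_right _ (by positivity)
      have h2j' : z ≤ z * 2 ^ (j + 1) := Nat.le_mul_of_pos_right _ (by positivity)
      have h4 : p ∣ b * (m / b) := by rw [Nat.mul_div_cancel' h1]; exact hpm'
      rcases (Nat.Prime.dvd_mul hpp).mp h4 with h5 | h5
      · have := (Nat.prime_dvd_prime_iff_eq hpp hbp).mp h5
        omega
      · exact h3 p hpp (hpz.trans h2j') h5
    rw [if_neg hnp, if_neg hR, hT]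
    simpa using hpos

open Classical in
theorem dec_fII_nat (W z j : ℕ) (r n : ℤ) (m : ℕ) (h : r + W * n = m) :
    fII W r (Pj z j) (βj z j) n = (dec_cN z j m : ℂ) := by
  unfold fII dec_cN βj
  rw [h, Finset.card_filter, Finset.sum_filter]
  push_cast
  refine Finset.sum_congr rfl fun b _ => ?_
  by_cases hb : b ∣ m
  · rw [if_pos (Int.natCast_dvd_natCast.mpr hb)]
    have h1 : ((m : ℤ) / (b : ℤ)) = ((m / b : ℕ) : ℤ) := by push_cast; rfl
    rw [h1]
    congr 1
    apply propext
    constructor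
    · rintro ⟨h2, h3⟩
      refine ⟨hb, by exact_mod_cast h2, fun p hp hp1 hp2 => ?_⟩
      exact h3 p hp hp1 (Int.natCast_dvd_natCast.mpr hp2)
    · rintro ⟨-, h2, h3⟩
      refine ⟨by exact_mod_cast h2, fun p hp hp1 hp2 => ?_⟩
      exact h3 p hp hp1 (Int.natCast_dvd_natCast.mp hp2)
  · rw [if_neg (fun h => hb (Int.natCast_dvd_natCast.mp h)), if_neg (fun h => hb h.1)]

theorem dec_fII_zero (W z j : ℕ) (r n : ℤ) (h0 : r + W * n ≠ 0) (h : |r + W * n| ≤ z) :
    fII W r (Pj z j) (βj z j) n = 0 := by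
  unfold fII
  apply Finset.sum_eq_zero
  intro b hb
  rw [Finset.mem_filter] at hb
  exfalso
  have hb1 := (dec_mem_Pj.mp hb.1).1.1
  have h2j : z ≤ z * 2 ^ j := Nat.le_mul_of_pos_right _ (by positivity)
  have h1 : (b : ℤ) ≤ |r + W * n| := by
    apply Int.le_of_dvd (abs_pos.mpr h0)
    exact (dvd_abs _ _).mpr hb.2
  have h2 : (z : ℤ) < b := by exact_mod_cast lt_of_le_of_lt h2j hb1
  omega

end Pool.Agent.Lib.H18GB
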