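import Pool.Agent.Lib.H18GB.DecB

/-!
# Project GB: DEC, auxiliary lemmas III (counting)
-/

namespace Pool.Agent.Lib.H18GB

open Finset Pool.Agent.Lib.Sieve

open Classical in
/-- the property of the constant of `dec_cnt` -/
def dec_CntProp (C2 : ℕ) : Prop := ∀ (w z W q M : ℕ) (S : Finset ℕ) (r : ℤ), C2 ≤ w → 2 ≤ z →
    IsW w W → PSet w z S → 0 < q → IsCoprime (q : ℤ) (W : ℤ) →
    (((Finset.Ico (0 : ℤ) M).filter fun n => (q : ℤ) ∣ r + W * n ∧ Rgh S ((r + W * n) / q)).card : ℝ)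
      ≤ VV S * (C2 * ((M : ℝ) / q + 1) + C2 * (z : ℝ) ^ (C2 + 1))

theorem dec_Pj_sum (z j : ℕ) (hz : 2 ≤ z * 2 ^ j) :
    ∑ p ∈ Pj z j, (1 : ℝ) / p ≤ 3 / Real.log ((z * 2 ^ j : ℕ) : ℝ) := by
  have h := dec_dyad (z * 2 ^ j) hz
  have h1 : Pj z j = (Finset.Ioc (z * 2 ^ j) (2 * (z * 2 ^ j))).filter Nat.Prime := by
    unfold Pj
    congr 2
    rw [pow_succ]
    ring
  rw [h1]
  exact h

theorem dec_coprime_prime_W {w W b : ℕ} (hW : IsW w W) (hb : b.Prime) (h : w < b) :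
    IsCoprime (b : ℤ) (W : ℤ) := by
  rw [Nat.isCoprime_iff_coprime, Nat.Prime.coprime_iff_not_dvd hb]
  intro h1
  have := (hW.2 b hb).mp h1
  omega

open Classical in
theorem dec_B {C2 : ℕ} (hC2 : dec_CntProp C2) {w W z J M D0 K y : ℕ} {r : ℤ}
    (hW : IsW w W) (hr : |r| < 2 * W) (hw : C2 ≤ w) (hM : 1 ≤ M) (hy : 2 ≤ y) (hyD : y ≤ D0)
    (hwD : w ≤ D0) (hD1 : D0 ≤ z * 2 ^ J) (hK : 2 * W * M ≤ (D0 * 2 ^ K) ^ 2)
    (h1 : (1 : ℝ) ≤ (M : ℝ) / ((D0 * 2 ^ K : ℕ) : ℝ))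
    (h2 : (y : ℝ) ^ (C2 + 1) ≤ (M : ℝ) / ((D0 * 2 ^ K : ℕ) : ℝ)) :
    (((Finset.Ico (0 : ℤ) M).filter fun n => dec_E1 z J (r + W * n).toNat).card : ℝ) ≤
      VV (sprimes w y) * (3 * C2) * M * (K * (3 / Real.log D0)) := by
  have hD2 : 2 ≤ D0 := hy.trans hyD
  set S' := sprimes w y with hS'
  have hVV : 0 < VV S' := VV_pos (pset_sprimes w y).prime
  have hsub : (Finset.Ico (0 : ℤ) M).filter (fun n => dec_E1 z J (r + W * n).toNat) ⊆
      (Finset.range K).biUnion fun i => (Pj D0 i).biUnion fun b =>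
        (Finset.Ico (0 : ℤ) M).filter fun n => (b : ℤ) ∣ r + W * n ∧ Rgh S' ((r + W * n) / b) := by
    intro n hn
    rw [Finset.mem_filter, Finset.mem_Ico] at hn
    obtain ⟨⟨hn0, hn1⟩, b, hb, hb1, hb2, hb3, hb4⟩ := hn
    set m := (r + W * n).toNat with hm
    have hm0 : 0 < m := by
      have : 0 < b ^ 2 := pow_pos hb.pos 2
      omega
    have hmv : r + W * n = (m : ℤ) := by
      have : (0 : ℤ) ≤ r + W * n := by
        by_contra h
        push Not at h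
        have := Int.toNat_of_nonpos h.le
        omega
      rw [hm]
      exact (Int.toNat_of_nonneg this).symm
    have hmle : m ≤ 2 * W * M := by
      have h3 : (m : ℤ) ≤ 2 * W * M := by
        rw [← hmv]
        have h4 := (abs_lt.mp hr).2
        have h5 : n + 1 ≤ M := by omega
        have h6 : (0 : ℤ) < W := by exact_mod_cast hW.1
        have hM' : (1 : ℤ) ≤ M := by exact_mod_cast hM
        nlinarith
      exact_mod_cast h3
    have hbD : D0 < b := lt_of_le_of_lt hD1 hb1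
    have hbK : b ≤ D0 * 2 ^ K := by
      have : b ^ 2 ≤ (D0 * 2 ^ K) ^ 2 := hb2.trans (hmle.trans hK)
      exact (Nat.pow_le_pow_iff_left (by norm_num)).mp this
    obtain ⟨i, hi, hi1, hi2⟩ := dec_exists_block hbD K hbK
    rw [Finset.mem_biUnion]
    refine ⟨i, Finset.mem_range.mpr hi, ?_⟩
    rw [Finset.mem_biUnion]
    refine ⟨b, dec_mem_Pj.mpr ⟨⟨hi1, hi2⟩, hb⟩, ?_⟩
    rw [Finset.mem_filter, Finset.mem_Ico]
    refine ⟨⟨hn0, hn1⟩, ?_, ?_⟩
    · rw [hmv]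
      exact Int.natCast_dvd_natCast.mpr hb3
    · intro p hp hpd
      obtain ⟨hpp, -, hpy⟩ := mem_sprimes.mp hp
      rw [hmv] at hpd
      have h5 : (p : ℤ) ∣ (m : ℤ) := by
        obtain ⟨k, hk⟩ := hb3
        have h6 : (m : ℤ) / b = k := by
          rw [hk]
          push_cast
          exact Int.mul_ediv_cancel_left _ (by exact_mod_cast hb.pos.ne')
        rw [h6] at hpd
        rw [hk]
        push_cast
        exact Dvd.dvd.mul_left hpd _
      exact hb4 p hpp (by omega) (Int.natCast_dvd_natCast.mp h5)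
  have hterm : ∀ i ∈ Finset.range K, ∀ b ∈ Pj D0 i,
      (((Finset.Ico (0 : ℤ) M).filter fun n => (b : ℤ) ∣ r + W * n ∧
        Rgh S' ((r + W * n) / b)).card : ℝ) ≤ VV S' * (3 * C2) * M * (1 / b) := by
    intro i hi b hb
    obtain ⟨⟨hb1, hb2⟩, hbp⟩ := dec_mem_Pj.mp hb
    have hwb : w < b := by
      have : D0 ≤ D0 * 2 ^ i := Nat.le_mul_of_pos_right _ (by positivity)
      omega
    refine (hC2 w y W b M S' r hw hy hW (pset_sprimes w y) hbp.pos
      (dec_coprime_prime_W hW hbp hwb)).trans ?_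
    have hbK : b ≤ D0 * 2 ^ K := hb2.trans (Nat.mul_le_mul_left _
      (Nat.pow_le_pow_right (by norm_num) (Finset.mem_range.mp hi)))
    have hb0 : (0 : ℝ) < b := by exact_mod_cast hbp.pos
    have hbK' : (b : ℝ) ≤ ((D0 * 2 ^ K : ℕ) : ℝ) := by exact_mod_cast hbK
    have h3 : (M : ℝ) / ((D0 * 2 ^ K : ℕ) : ℝ) ≤ M / b :=
      div_le_div_of_nonneg_left (Nat.cast_nonneg _) hb0 hbK'
    have h4 : (C2 : ℝ) * ((M : ℝ) / b + 1) + C2 * (y : ℝ) ^ (C2 + 1) ≤ 3 * C2 * (M / b) := by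
      have hc : (0 : ℝ) ≤ C2 := Nat.cast_nonneg _
      have h5 : (1 : ℝ) ≤ M / b := h1.trans h3
      have h6 : (y : ℝ) ^ (C2 + 1) ≤ M / b := h2.trans h3
      nlinarith [mul_le_mul_of_nonneg_left h5 hc, mul_le_mul_of_nonneg_left h6 hc]
    calc VV S' * ((C2 : ℝ) * ((M : ℝ) / b + 1) + C2 * (y : ℝ) ^ (C2 + 1))
        ≤ VV S' * (3 * C2 * (M / b)) := mul_le_mul_of_nonneg_left h4 hVV.le
      _ = VV S' * (3 * C2) * M * (1 / b) := by ring
  calc (((Finset.Ico (0 : ℤ) M).filter fun n => dec_E1 z J (r + W * n).toNat).card : ℝ)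
      ≤ ∑ i ∈ Finset.range K, ∑ b ∈ Pj D0 i, (((Finset.Ico (0 : ℤ) M).filter fun n =>
          (b : ℤ) ∣ r + W * n ∧ Rgh S' ((r + W * n) / b)).card : ℝ) := by
        have h3 := (Finset.card_le_card hsub).trans Finset.card_biUnion_le
        have h4 : ∀ i ∈ Finset.range K, ((Pj D0 i).biUnion fun b =>
            (Finset.Ico (0 : ℤ) M).filter fun n => (b : ℤ) ∣ r + W * n ∧
              Rgh S' ((r + W * n) / b)).card ≤ ∑ b ∈ Pj D0 i,
            ((Finset.Ico (0 : ℤ) M).filter fun n => (b : ℤ) ∣ r + W * n ∧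
              Rgh S' ((r + W * n) / b)).card := fun i _ => Finset.card_biUnion_le
        have h5 := h3.trans (Finset.sum_le_sum h4)
        exact_mod_cast h5
    _ ≤ ∑ i ∈ Finset.range K, ∑ b ∈ Pj D0 i, VV S' * (3 * C2) * M * (1 / b) :=
        Finset.sum_le_sum fun i hi => Finset.sum_le_sum fun b hb => hterm i hi b hb
    _ ≤ ∑ i ∈ Finset.range K, VV S' * (3 * C2) * M * (3 / Real.log D0) := by
        refine Finset.sum_le_sum fun i _ => ?_
        rw [← Finset.mul_sum]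
        apply mul_le_mul_of_nonneg_left _ (by positivity)
        have hle : D0 ≤ D0 * 2 ^ i := Nat.le_mul_of_pos_right _ (by positivity)
        refine (dec_Pj_sum D0 i (hD2.trans hle)).trans ?_
        have hlog : 0 < Real.log D0 := Real.log_pos (by
          have : (2 : ℝ) ≤ D0 := by exact_mod_cast hD2
          linarith)
        apply div_le_div_of_nonneg_left (by norm_num) hlog
        apply Real.log_le_log (by
          have : (2 : ℝ) ≤ D0 := by exact_mod_cast hD2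
          linarith)
        exact_mod_cast hle
    _ = VV S' * (3 * C2) * M * (K * (3 / Real.log D0)) := by
        rw [Finset.sum_const, Finset.card_range, nsmul_eq_mul]
        ring

open Classical in
theorem dec_C {C2 : ℕ} (hC2 : dec_CntProp C2) {w W z J M : ℕ} {r : ℤ}
    (hW : IsW w W) (hw : C2 ≤ w) (hz : 2 ≤ z) (hwz : w ≤ z)
    (h1 : ∀ j < J, (1 : ℝ) ≤ (M : ℝ) / (4 * ((z * 2 ^ j : ℕ) : ℝ) ^ 2))
    (h2 : ∀ j < J, (z : ℝ) ^ (C2 + 1) ≤ (M : ℝ) / (4 * ((z * 2 ^ j : ℕ) : ℝ) ^ 2)) :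
    (((Finset.Ico (0 : ℤ) M).filter fun n => (z : ℤ) < r + W * n ∧
        dec_E2 w z J (r + W * n).toNat).card : ℝ) ≤
      VV (sprimes w z) * (3 * C2) * M *
        ∑ j ∈ Finset.range J, (3 / Real.log ((z * 2 ^ j : ℕ) : ℝ)) ^ 2 := by
  set S := sprimes w z with hS
  have hVV : 0 < VV S := VV_pos (pset_sprimes w z).prime
  have hsub : (Finset.Ico (0 : ℤ) M).filter (fun n => (z : ℤ) < r + W * n ∧
        dec_E2 w z J (r + W * n).toNat) ⊆
      (Finset.range J).biUnion fun j => (Pj z j ×ˢ Pj z j).biUnion fun b =>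
        (Finset.Ico (0 : ℤ) M).filter fun n => ((b.1 * b.2 : ℕ) : ℤ) ∣ r + W * n ∧
          Rgh S ((r + W * n) / ((b.1 * b.2 : ℕ) : ℤ)) := by
    intro n hn
    rw [Finset.mem_filter] at hn
    obtain ⟨hn0, hzv, hR, j, hj, b, hb, b', hb', hbb⟩ := hn
    set m := (r + W * n).toNat with hm
    have hmv : r + W * n = (m : ℤ) := by
      rw [hm]
      exact (Int.toNat_of_nonneg (by omega)).symm
    rw [Finset.mem_biUnion]
    refine ⟨j, Finset.mem_range.mpr hj, ?_⟩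
    rw [Finset.mem_biUnion]
    refine ⟨(b, b'), Finset.mem_product.mpr ⟨hb, hb'⟩, ?_⟩
    rw [Finset.mem_filter]
    refine ⟨hn0, ?_, ?_⟩
    · rw [hmv]
      exact Int.natCast_dvd_natCast.mpr hbb
    · intro p hp hpd
      rw [hmv] at hpd
      apply hR p hp
      obtain ⟨k, hk⟩ := hbb
      have hpos : 0 < b * b' := Nat.mul_pos (dec_mem_Pj.mp hb).2.pos (dec_mem_Pj.mp hb').2.pos
      have h6 : (m : ℤ) / ((b * b' : ℕ) : ℤ) = k := by
        rw [hk, Nat.cast_mul (b * b') k]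
        exact Int.mul_ediv_cancel_left _ (by exact_mod_cast hpos.ne')
      simp only at hpd
      rw [h6] at hpd
      rw [hk, Nat.cast_mul (b * b') k]
      exact Dvd.dvd.mul_left hpd _
  have hterm : ∀ j ∈ Finset.range J, ∀ b ∈ Pj z j ×ˢ Pj z j,
      (((Finset.Ico (0 : ℤ) M).filter fun n => ((b.1 * b.2 : ℕ) : ℤ) ∣ r + W * n ∧
          Rgh S ((r + W * n) / ((b.1 * b.2 : ℕ) : ℤ))).card : ℝ) ≤
        VV S * (3 * C2) * M * ((1 / b.1) * (1 / b.2)) := by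
    rintro j hj ⟨b, b'⟩ hb
    rw [Finset.mem_product] at hb
    obtain ⟨hb, hb'⟩ := hb
    simp only at hb hb' ⊢
    obtain ⟨⟨hb1, hb2⟩, hbp⟩ := dec_mem_Pj.mp hb
    obtain ⟨⟨hb1', hb2'⟩, hbp'⟩ := dec_mem_Pj.mp hb'
    have hzj : z ≤ z * 2 ^ j := Nat.le_mul_of_pos_right _ (by positivity)
    have hcop : IsCoprime ((b * b' : ℕ) : ℤ) (W : ℤ) := by
      push_cast
      exact IsCoprime.mul_left (dec_coprime_prime_W hW hbp (by omega))
        (dec_coprime_prime_W hW hbp' (by omega))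
    refine (hC2 w z W (b * b') M S r hw hz hW (pset_sprimes w z)
      (Nat.mul_pos hbp.pos hbp'.pos) hcop).trans ?_
    have hb0 : (0 : ℝ) < b := by exact_mod_cast hbp.pos
    have hb0' : (0 : ℝ) < b' := by exact_mod_cast hbp'.pos
    have h2j : z * 2 ^ (j + 1) = 2 * (z * 2 ^ j) := by rw [pow_succ]; ring
    have hble : ((b * b' : ℕ) : ℝ) ≤ 4 * ((z * 2 ^ j : ℕ) : ℝ) ^ 2 := by
      have h3 : b * b' ≤ (2 * (z * 2 ^ j)) * (2 * (z * 2 ^ j)) :=
        Nat.mul_le_mul (h2j ▸ hb2) (h2j ▸ hb2')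
      have h4 : ((b * b' : ℕ) : ℝ) ≤ (((2 * (z * 2 ^ j)) * (2 * (z * 2 ^ j)) : ℕ) : ℝ) := by
        exact_mod_cast h3
      refine h4.trans (le_of_eq ?_)
      push_cast
      ring
    have hbb0 : (0 : ℝ) < ((b * b' : ℕ) : ℝ) := by push_cast; positivity
    have h3 : (M : ℝ) / (4 * ((z * 2 ^ j : ℕ) : ℝ) ^ 2) ≤ M / ((b * b' : ℕ) : ℝ) :=
      div_le_div_of_nonneg_left (Nat.cast_nonneg _) hbb0 hble
    have hj' := Finset.mem_range.mp hj
    have h4 : (C2 : ℝ) * ((M : ℝ) / ((b * b' : ℕ) : ℝ) + 1) + C2 * (z : ℝ) ^ (C2 + 1) ≤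
        3 * C2 * (M / ((b * b' : ℕ) : ℝ)) := by
      have hc : (0 : ℝ) ≤ C2 := Nat.cast_nonneg _
      have h5 : (1 : ℝ) ≤ M / ((b * b' : ℕ) : ℝ) := (h1 j hj').trans h3
      have h6 : (z : ℝ) ^ (C2 + 1) ≤ M / ((b * b' : ℕ) : ℝ) := (h2 j hj').trans h3
      nlinarith [mul_le_mul_of_nonneg_left h5 hc, mul_le_mul_of_nonneg_left h6 hc]
    calc VV S * ((C2 : ℝ) * ((M : ℝ) / ((b * b' : ℕ) : ℝ) + 1) + C2 * (z : ℝ) ^ (C2 + 1))
        ≤ VV S * (3 * C2 * (M / ((b * b' : ℕ) : ℝ))) := mul_le_mul_of_nonneg_left h4 hVV.le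
      _ = VV S * (3 * C2) * M * ((1 / b) * (1 / b')) := by
          push_cast
          field_simp
  calc (((Finset.Ico (0 : ℤ) M).filter fun n => (z : ℤ) < r + W * n ∧
        dec_E2 w z J (r + W * n).toNat).card : ℝ)
      ≤ ∑ j ∈ Finset.range J, ∑ b ∈ Pj z j ×ˢ Pj z j, (((Finset.Ico (0 : ℤ) M).filter fun n =>
          ((b.1 * b.2 : ℕ) : ℤ) ∣ r + W * n ∧
          Rgh S ((r + W * n) / ((b.1 * b.2 : ℕ) : ℤ))).card : ℝ) := by
        have h3 := (Finset.card_le_card hsub).trans Finset.card_biUnion_le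
        have h4 : ∀ j ∈ Finset.range J, ((Pj z j ×ˢ Pj z j).biUnion fun b =>
            (Finset.Ico (0 : ℤ) M).filter fun n => ((b.1 * b.2 : ℕ) : ℤ) ∣ r + W * n ∧
              Rgh S ((r + W * n) / ((b.1 * b.2 : ℕ) : ℤ))).card ≤ ∑ b ∈ Pj z j ×ˢ Pj z j,
            ((Finset.Ico (0 : ℤ) M).filter fun n => ((b.1 * b.2 : ℕ) : ℤ) ∣ r + W * n ∧
              Rgh S ((r + W * n) / ((b.1 * b.2 : ℕ) : ℤ))).card :=
          fun i _ => Finset.card_biUnion_le
        have h5 := h3.trans (Finset.sum_le_sum h4)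
        exact_mod_cast h5
    _ ≤ ∑ j ∈ Finset.range J, ∑ b ∈ Pj z j ×ˢ Pj z j,
          VV S * (3 * C2) * M * ((1 / b.1) * (1 / b.2)) :=
        Finset.sum_le_sum fun i hi => Finset.sum_le_sum fun b hb => hterm i hi b hb
    _ ≤ ∑ j ∈ Finset.range J, VV S * (3 * C2) * M *
          (3 / Real.log ((z * 2 ^ j : ℕ) : ℝ)) ^ 2 := by
        refine Finset.sum_le_sum fun j _ => ?_
        rw [← Finset.mul_sum]
        apply mul_le_mul_of_nonneg_left _ (by positivity)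
        have hzj : z ≤ z * 2 ^ j := Nat.le_mul_of_pos_right _ (by positivity)
        have h3 := dec_Pj_sum z j (hz.trans hzj)
        have h4 : (0 : ℝ) ≤ ∑ p ∈ Pj z j, (1 : ℝ) / p := by positivity
        have h5 : ∑ b ∈ Pj z j ×ˢ Pj z j, ((1 : ℝ) / b.1) * (1 / b.2) =
            (∑ p ∈ Pj z j, (1 : ℝ) / p) * ∑ p ∈ Pj z j, (1 : ℝ) / p := by
          rw [Finset.sum_mul_sum, Finset.sum_product]
        rw [h5, sq]
        exact mul_le_mul h3 h3 h4 (h4.trans h3)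
    _ = _ := by rw [← Finset.mul_sum]

end Pool.Agent.Lib.H18GB
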