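import Pool.Agent.Lib.H18GB.DecD

/-!
# Project GB: DEC, auxiliary lemmas V
-/

namespace Pool.Agent.Lib.H18GB

open Finset Pool.Agent.Lib.Sieve

theorem dec_cN_small {z j m : ℕ} (h : m ≤ z) : dec_cN z j m = 0 := by
  classical
  unfold dec_cN
  rw [Finset.card_eq_zero]
  apply Finset.filter_eq_empty_iff.mpr
  rintro b hb ⟨h1, h2, -⟩
  have hb1 := (dec_mem_Pj.mp hb).1.1
  have h2j : z ≤ z * 2 ^ j := Nat.le_mul_of_pos_right _ (by positivity)
  rcases Nat.eq_zero_or_pos m with h0 | h0
  · rw [h0] at h2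
    simp at h2
  · have := Nat.le_of_dvd h0 h1
    omega

theorem dec_fII_toNat {W z : ℕ} (j : ℕ) {r n : ℤ} (h0 : r + W * n ≠ 0) (h : -(z : ℤ) ≤ r + W * n) :
    fII W r (Pj z j) (βj z j) n = (dec_cN z j (r + W * n).toNat : ℂ) := by
  rcases le_or_gt 0 (r + W * n) with h1 | h1
  · exact dec_fII_nat W z j r n _ (Int.toNat_of_nonneg h1).symm
  · rw [dec_fII_zero W z j r n h0 (by rw [abs_of_neg h1]; omega), Int.toNat_of_nonpos h1.le,
      dec_cN_small (Nat.zero_le _)]
    simp

theorem dec_rho_mul {S : Finset ℕ} (hS : ∀ p ∈ S, p.Prime) (Λ : ℝ) (v : ℤ) [Decidable (Rgh S v)] :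
    Λ * VV S * rho S v = Λ * (if Rgh S v then 1 else 0) := by
  unfold rho
  have := VV_pos hS
  split_ifs
  · field_simp
  · simp

theorem dec_sum_sq_inv_le {L : ℝ} (hL : 1 ≤ L) (J : ℕ) :
    ∑ j ∈ Finset.range J, 1 / (L + j / 2) ^ 2 ≤ 3 / L := by
  have key : ∀ J : ℕ, ∑ j ∈ Finset.range J, 1 / (L + j / 2) ^ 2 ≤ 3 / L - 3 / (L + J / 2) := by
    intro J
    induction J with
    | zero => simp
    | succ J ih =>
      rw [Finset.sum_range_succ]
      have hx : 1 ≤ L + (J : ℝ) / 2 := by
        have : (0 : ℝ) ≤ (J : ℝ) / 2 := by positivity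
        linarith
      have h1 : 1 / (L + (J : ℝ) / 2) ^ 2 ≤
          3 / (L + (J : ℝ) / 2) - 3 / (L + ((J + 1 : ℕ) : ℝ) / 2) := by
        set x := L + (J : ℝ) / 2 with hxd
        have h2 : L + ((J + 1 : ℕ) : ℝ) / 2 = x + 1 / 2 := by
          rw [hxd]; push_cast; ring
        rw [h2]
        have hx0 : 0 < x := by linarith
        rw [div_sub_div _ _ hx0.ne' (by linarith), div_le_div_iff₀ (by positivity) (by positivity)]
        nlinarith
      linarith
  have h := key J
  have h2 : (0 : ℝ) ≤ 3 / (L + J / 2) := by positivity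
  linarith

theorem dec_sum_block_sq {z J : ℕ} (hz : 1 ≤ Real.log z) (hz0 : 1 ≤ z) :
    ∑ j ∈ Finset.range J, (3 / Real.log ((z * 2 ^ j : ℕ) : ℝ)) ^ 2 ≤ 27 / Real.log z := by
  have hz1 : (0 : ℝ) < z := by exact_mod_cast hz0
  calc ∑ j ∈ Finset.range J, (3 / Real.log ((z * 2 ^ j : ℕ) : ℝ)) ^ 2
      ≤ ∑ j ∈ Finset.range J, 9 * (1 / (Real.log z + j / 2) ^ 2) := by
        refine Finset.sum_le_sum fun j _ => ?_
        have h1 : Real.log z + j / 2 ≤ Real.log ((z * 2 ^ j : ℕ) : ℝ) := by
          push_cast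
          rw [Real.log_mul hz1.ne' (by positivity), Real.log_pow]
          have := Real.log_two_gt_d9
          have hj : (0 : ℝ) ≤ j := Nat.cast_nonneg j
          nlinarith
        have h0 : 0 < Real.log z + (j : ℝ) / 2 := by
          have hj : (0 : ℝ) ≤ j := Nat.cast_nonneg j
          linarith
        have h2 : (Real.log z + (j : ℝ) / 2) ^ 2 ≤ Real.log ((z * 2 ^ j : ℕ) : ℝ) ^ 2 :=
          pow_le_pow_left₀ h0.le h1 2
        have h3 := one_div_le_one_div_of_le (by positivity) h2
        have h4 : (3 / Real.log ((z * 2 ^ j : ℕ) : ℝ)) ^ 2 =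
            9 * (1 / Real.log ((z * 2 ^ j : ℕ) : ℝ) ^ 2) := by
          rw [div_pow]; ring
        rw [h4]
        linarith
    _ = 9 * ∑ j ∈ Finset.range J, 1 / (Real.log z + j / 2) ^ 2 := by rw [Finset.mul_sum]
    _ ≤ 9 * (3 / Real.log z) := mul_le_mul_of_nonneg_left (dec_sum_sq_inv_le hz J) (by norm_num)
    _ = 27 / Real.log z := by ring

open Classical in
/-- pointwise bound for the error -/
theorem dec_err_le {w W z J M : ℕ} {r n : ℤ} (hW : IsW w W) (hW2 : 2 ≤ W) (hcop : IsCoprime r (W : ℤ))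
    (hr : |r| < 2 * W) (hn0 : 0 ≤ n) (hz : 2 * W ≤ z) (hM : 1 ≤ M)
    (hzM : z ≤ M) (hWM : Real.log (W * M) ≤ 2 * Real.log M) {Λ : ℝ}
    (hΛ : Λ = (Nat.totient W / W : ℝ) * Real.log (W * M)) :
    |lam W r n - Λ * (if Rgh (sprimes w z) (r + W * n) then 1 else 0) +
      Λ * ∑ j ∈ Finset.range J, (dec_cN z j (r + W * n).toNat : ℝ)| ≤
      (if |r + W * n| ≤ z then 3 * Real.log M else 0) + dec_tA W z M r n +
      Λ * (if dec_E1 z J (r + W * n).toNat then 1 else 0) +
      Λ * (if (z : ℤ) < r + W * n ∧ dec_E2 w z J (r + W * n).toNat then 1 else 0) := by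
  have hW1 : (1 : ℝ) ≤ W := by exact_mod_cast hW.1
  have hM1 : (1 : ℝ) ≤ M := by exact_mod_cast hM
  have hlogM : 0 ≤ Real.log M := Real.log_nonneg hM1
  have hWM0 : 0 ≤ Real.log (W * M) := Real.log_nonneg (by nlinarith)
  have hφ0 : (0 : ℝ) ≤ (Nat.totient W / W : ℝ) := by positivity
  have hφ1 : (Nat.totient W / W : ℝ) ≤ 1 := by
    rw [div_le_one (by linarith)]
    exact_mod_cast Nat.totient_le W
  have hΛ0 : 0 ≤ Λ := by rw [hΛ]; positivity
  have hΛ2 : Λ ≤ 2 * Real.log M := by
    rw [hΛ]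
    nlinarith
  have htA0 : 0 ≤ dec_tA W z M r n := by
    unfold dec_tA
    by_cases h : (z : ℤ) < r + W * n
    · rw [if_pos h]
      exact abs_nonneg _
    · rw [if_neg h]
  have hE10 : 0 ≤ Λ * (if dec_E1 z J (r + W * n).toNat then (1 : ℝ) else 0) :=
    mul_nonneg hΛ0 (by split_ifs <;> norm_num)
  have hE20 : 0 ≤ Λ * (if (z : ℤ) < r + W * n ∧ dec_E2 w z J (r + W * n).toNat then (1 : ℝ) else 0) :=
    mul_nonneg hΛ0 (by split_ifs <;> norm_num)
  by_cases hv : |r + W * n| ≤ z
  · rw [if_pos hv]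
    have hc : ∀ j, dec_cN z j (r + W * n).toNat = 0 := by
      intro j
      apply dec_cN_small
      have := (abs_le.mp hv).2
      omega
    simp only [hc, Nat.cast_zero, Finset.sum_const_zero, mul_zero, add_zero]
    have hlam : lam W r n ≤ Real.log M := by
      unfold lam lamv
      split_ifs with hp
      · have h1 : Real.log ((r + W * n).natAbs : ℝ) ≤ Real.log M := by
          apply Real.log_le_log
          · exact_mod_cast hp.pos
          · have h2 : ((r + W * n).natAbs : ℤ) ≤ z := by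
              rw [Int.natCast_natAbs]
              exact hv
            have h3 : (r + W * n).natAbs ≤ M := by omega
            exact_mod_cast h3
        have h0 : 0 ≤ Real.log ((r + W * n).natAbs : ℝ) := Real.log_natCast_nonneg _
        nlinarith
      · exact hlogM
    have hlam0 := dec_lam_nonneg W r n
    have h2 : |lam W r n - Λ * (if Rgh (sprimes w z) (r + W * n) then 1 else 0)| ≤
        3 * Real.log M := by
      rw [abs_le]
      split_ifs
      · constructor <;> linarith
      · constructor <;> linarith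
    linarith
  · rw [if_neg hv, zero_add]
    have hvz : (z : ℤ) < r + W * n := by
      rcases lt_abs.mp (not_le.mp hv) with h | h
      · exact h
      · exfalso
        have h4 := (abs_lt.mp hr).1
        have h5 : (0 : ℤ) ≤ W * n := mul_nonneg (by positivity) hn0
        have h6 : (2 * W : ℤ) ≤ z := by exact_mod_cast hz
        linarith
    have hmv : r + W * n = ((r + W * n).toNat : ℤ) := (Int.toNat_of_nonneg (by omega)).symm
    have htA : dec_tA W z M r n = |lam W r n - (Nat.totient W / W : ℝ) * Real.log (W * M) *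
        (if (r + W * n).toNat.Prime then 1 else 0)| := by
      unfold dec_tA
      rw [if_pos hvz]
    set m := (r + W * n).toNat with hm
    have hmz : z < m := by omega
    have hcopm : Nat.Coprime m W := by
      rw [← Nat.isCoprime_iff_coprime, ← hmv]
      have : IsCoprime (r + n * W) (W : ℤ) := IsCoprime.add_mul_right_left hcop n
      rwa [mul_comm n] at this
    have hpt := dec_point hW J m (by omega) hmz hcopm
    rw [htA, ← hΛ]
    have hR : (if Rgh (sprimes w z) (r + W * n) then (1 : ℝ) else 0) =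
        if Rgh (sprimes w z) (m : ℤ) then 1 else 0 := by rw [← hmv]
    have hE2 : (if (z : ℤ) < r + W * n ∧ dec_E2 w z J m then (1 : ℝ) else 0) =
        if dec_E2 w z J m then 1 else 0 := by
      congr 1
      simp [hvz]
    rw [hR, hE2]
    push_cast at hpt
    have h3 : lam W r n - Λ * (if Rgh (sprimes w z) (m : ℤ) then 1 else 0) +
        Λ * ∑ j ∈ Finset.range J, (dec_cN z j m : ℝ) =
        (lam W r n - Λ * (if m.Prime then 1 else 0)) +
        Λ * ((if m.Prime then (1 : ℝ) else 0) - (if Rgh (sprimes w z) (m : ℤ) then 1 else 0) +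
          ∑ j ∈ Finset.range J, (dec_cN z j m : ℝ)) := by ring
    rw [h3]
    refine (abs_add_le _ _).trans ?_
    rw [abs_mul, abs_of_nonneg hΛ0]
    have h4 := mul_le_mul_of_nonneg_left hpt hΛ0
    rw [mul_add] at h4
    linarith

theorem dec_card_small {W z M : ℕ} {r : ℤ} (hW : 0 < W) :
    ((Finset.Ico (0 : ℤ) M).filter fun n => |r + W * n| ≤ z).card ≤ 2 * z + 1 := by
  have hW' : (0 : ℤ) < W := by exact_mod_cast hW
  have h : ((Finset.Ico (0 : ℤ) M).filter fun n => |r + W * n| ≤ z).card ≤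
      (Finset.Icc (-(z : ℤ)) z).card := by
    apply Finset.card_le_card_of_injOn (fun n => r + W * n)
    · intro n hn
      rw [Finset.mem_coe, Finset.mem_filter] at hn
      rw [Finset.mem_coe, Finset.mem_Icc]
      exact abs_le.mp hn.2
    · intro n _ n' _ h
      simp only at h
      have : (W : ℤ) * n = W * n' := by linarith
      exact mul_left_cancel₀ hW'.ne' this
  rw [Int.card_Icc] at h
  omega

end Pool.Agent.Lib.H18GB
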