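import Pool.Agent.Lib.H18GB.DecE

/-!
# Project GB: DEC, auxiliary lemmas VI (numerical conditions)
-/

namespace Pool.Agent.Lib.H18GB

open Finset Pool.Agent.Lib.Sieve

theorem decF_num {M : ℕ} {ε' : ℝ} (hε' : 0 < ε') (hε'1 : ε' ≤ 1 / 16)
    (hM8 : 2 ≤ (M : ℝ) ^ (1 / 8 : ℝ)) (hL : 1 ≤ ε' * Real.log M) (D0 K : ℕ)
    (hD0 : D0 = ⌊(M : ℝ) ^ (1 / 2 - ε')⌋₊) (hK : K = ⌈3 * ε' * Real.log M⌉₊) :
    (M : ℝ) ^ (1 / 4 : ℝ) ≤ D0 ∧ (K : ℝ) ≤ 4 * ε' * Real.log M ∧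
    (M : ℝ) ^ (1 / 2 + ε') / 2 ≤ D0 * 2 ^ K ∧ (D0 * 2 ^ K : ℝ) ≤ (M : ℝ) ^ (3 / 4 : ℝ) ∧
    Real.log M / 4 ≤ Real.log D0 := by
  have hM0 : M ≠ 0 := by
    rintro rfl
    rw [Nat.cast_zero, Real.zero_rpow (by norm_num)] at hM8
    norm_num at hM8
  have hM1 : (1 : ℝ) ≤ M := by exact_mod_cast Nat.one_le_iff_ne_zero.mpr hM0
  have hMp : (0 : ℝ) < M := by linarith
  have hLp : 0 < Real.log M := by
    by_contra h
    nlinarith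
  have hD0a : (D0 : ℝ) ≤ (M : ℝ) ^ (1 / 2 - ε') := by
    rw [hD0]
    exact Nat.floor_le (by positivity)
  have hmul : ∀ a b : ℝ, (M : ℝ) ^ a * (M : ℝ) ^ b = (M : ℝ) ^ (a + b) := fun a b =>
    (Real.rpow_add hMp a b).symm
  have hmono : ∀ {a b : ℝ}, a ≤ b → (M : ℝ) ^ a ≤ (M : ℝ) ^ b := fun h =>
    Real.rpow_le_rpow_of_exponent_le hM1 h
  have hpos : ∀ a : ℝ, 0 < (M : ℝ) ^ a := fun a => Real.rpow_pos_of_pos hMp a
  -- `D0 ≥ M^(1/2-ε')/2`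
  have h2 : 2 * (M : ℝ) ^ (1 / 4 : ℝ) ≤ (M : ℝ) ^ (1 / 2 - ε') := by
    calc 2 * (M : ℝ) ^ (1 / 4 : ℝ) ≤ (M : ℝ) ^ (1 / 8 : ℝ) * (M : ℝ) ^ (1 / 4 : ℝ) :=
          mul_le_mul_of_nonneg_right hM8 (hpos _).le
      _ = (M : ℝ) ^ (1 / 8 + 1 / 4 : ℝ) := hmul _ _
      _ ≤ _ := hmono (by linarith)
  have h14 : 1 ≤ (M : ℝ) ^ (1 / 4 : ℝ) := Real.one_le_rpow hM1 (by norm_num)
  have hD0b : (M : ℝ) ^ (1 / 2 - ε') / 2 ≤ D0 := by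
    have := Nat.lt_floor_add_one ((M : ℝ) ^ (1 / 2 - ε'))
    rw [← hD0] at this
    linarith
  have hD04 : (M : ℝ) ^ (1 / 4 : ℝ) ≤ D0 := by linarith
  have hKa : (K : ℝ) < 3 * ε' * Real.log M + 1 := by
    rw [hK]
    exact Nat.ceil_lt_add_one (by positivity)
  have hKb : 3 * ε' * Real.log M ≤ K := by
    rw [hK]
    exact Nat.le_ceil _
  have hlog2 := Real.log_two_gt_d9
  have hlog2' := Real.log_two_lt_d9
  have h2K : (2 : ℝ) ^ K = Real.exp (K * Real.log 2) := by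
    rw [mul_comm, Real.exp_mul, Real.exp_log (by norm_num), Real.rpow_natCast]
  have hMexp : ∀ a : ℝ, (M : ℝ) ^ a = Real.exp (a * Real.log M) := fun a => by
    rw [Real.rpow_def_of_pos hMp, mul_comm]
  have hK1 : (M : ℝ) ^ (2 * ε') ≤ 2 ^ K := by
    rw [h2K, hMexp]
    apply Real.exp_le_exp.mpr
    have : 0 ≤ ε' * Real.log M := by positivity
    nlinarith
  have hK2 : (2 : ℝ) ^ K ≤ 2 * (M : ℝ) ^ (3 * ε') := by
    have h3 : 2 * (M : ℝ) ^ (3 * ε') = Real.exp (Real.log 2 + 3 * ε' * Real.log M) := by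
      rw [Real.exp_add, Real.exp_log (by norm_num), hMexp]
    rw [h3, h2K]
    apply Real.exp_le_exp.mpr
    have : 0 ≤ ε' * Real.log M := by positivity
    nlinarith
  refine ⟨hD04, by linarith, ?_, ?_, ?_⟩
  · calc (M : ℝ) ^ (1 / 2 + ε') / 2 = (M : ℝ) ^ (1 / 2 - ε') / 2 * (M : ℝ) ^ (2 * ε') := by
          rw [div_mul_eq_mul_div, hmul]
          congr 2
          ring
      _ ≤ D0 * 2 ^ K := mul_le_mul hD0b hK1 (hpos _).le (Nat.cast_nonneg _)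
  · calc (D0 : ℝ) * 2 ^ K ≤ (M : ℝ) ^ (1 / 2 - ε') * (2 * (M : ℝ) ^ (3 * ε')) :=
          mul_le_mul hD0a hK2 (by positivity) (hpos _).le
      _ = 2 * (M : ℝ) ^ (1 / 2 + 2 * ε') := by
          rw [mul_left_comm, hmul]
          congr 2
          ring
      _ ≤ (M : ℝ) ^ (1 / 8 : ℝ) * (M : ℝ) ^ (1 / 2 + 2 * ε') :=
          mul_le_mul_of_nonneg_right hM8 (hpos _).le
      _ = (M : ℝ) ^ (1 / 8 + (1 / 2 + 2 * ε')) := hmul _ _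
      _ ≤ _ := hmono (by linarith)
  · have := Real.log_le_log (hpos _) hD04
    rw [Real.log_rpow hMp] at this
    linarith

/-- the growth conditions -/
theorem decF_ev (s s' w W : ℕ) (hs : 1 ≤ s) (hs' : 1 ≤ s') (ε ε' A : ℝ) (hε' : 0 < ε') :
    ∀ᶠ M : ℕ in Filter.atTop, (2 * W ≤ rt s M ∧ w ≤ rt s M ∧ 2 ≤ rt s M ∧ 2 ≤ rt s' M ∧
        w ≤ rt s' M) ∧
      (Real.log M ≤ 2 * s * Real.log (rt s M) ∧ Real.log M ≤ 2 * s' * Real.log (rt s' M)) ∧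
      (A ≤ Real.log (rt s M) ∧ 1 ≤ Real.log (rt s M)) ∧
      (1 ≤ Real.log M ∧ 1 ≤ ε' * Real.log M) ∧ W ≤ M ∧
      ((w : ℝ) ≤ (M : ℝ) ^ (1 / 4 : ℝ) ∧ 288 / ε ≤ (M : ℝ) ^ (1 / 4 : ℝ) ∧
        2 ≤ (M : ℝ) ^ (1 / 8 : ℝ) ∧ (8 * W : ℝ) ≤ (M : ℝ) ^ ε' ∧ 4 ≤ (M : ℝ) ^ ε') := by
  have hrt := rt_tendsto hs
  have hrt' := rt_tendsto hs'
  obtain ⟨M2, hM2⟩ := log_le_rt hs
  obtain ⟨M3, hM3⟩ := log_le_rt hs'
  have hlog : Filter.Tendsto (fun M : ℕ => Real.log M) Filter.atTop Filter.atTop :=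
    Real.tendsto_log_atTop.comp tendsto_natCast_atTop_atTop
  have hlogrt : Filter.Tendsto (fun M : ℕ => Real.log (rt s M)) Filter.atTop Filter.atTop :=
    hlog.comp hrt
  have hpow : ∀ a : ℝ, 0 < a → Filter.Tendsto (fun M : ℕ => (M : ℝ) ^ a) Filter.atTop
      Filter.atTop := fun a ha => (tendsto_rpow_atTop ha).comp tendsto_natCast_atTop_atTop
  have h4 := hpow (1 / 4) (by norm_num)
  have h8 := hpow (1 / 8) (by norm_num)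
  have h9 := hpow ε' hε'
  filter_upwards [hrt.eventually_ge_atTop (2 * W), hrt.eventually_ge_atTop w,
    hrt.eventually_ge_atTop 2, hrt'.eventually_ge_atTop 2, Filter.eventually_ge_atTop M2,
    Filter.eventually_ge_atTop M3, hlogrt.eventually_ge_atTop A, hlogrt.eventually_ge_atTop 1,
    hlog.eventually_ge_atTop 1, hlog.eventually_ge_atTop (1 / ε'), Filter.eventually_ge_atTop W,
    h4.eventually_ge_atTop (w : ℝ), h4.eventually_ge_atTop (288 / ε), h8.eventually_ge_atTop 2,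
    h9.eventually_ge_atTop (8 * W : ℝ), h9.eventually_ge_atTop 4,
    hrt'.eventually_ge_atTop w] with M a1 a2 a3 a4 a5 a6 a7 a8 a9
      a10 a11 a12 a13 a14 a15 a16 a17
  refine ⟨⟨a1, a2, a3, a4, a17⟩, ⟨hM2 M a5, hM3 M a6⟩, ⟨a7, a8⟩, ⟨a9, ?_⟩, a11, a12, a13, a14, a15, a16⟩
  rw [div_le_iff₀ hε'] at a10
  linarith

end Pool.Agent.Lib.H18GB
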