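import Mathlib
import Pool.Agent.Lib.Sieve.Fundamental

/-!
# Project GB (problem `MP_443e5f_co`): basic definitions

* `e x = exp (2 π i x)`, `nr x` distance to the nearest integer.
* `IsW w W`: the prime factors of `W` are exactly the primes `≤ w`.
* `PSet w z S`: `S` is a set of primes in `(w, z]`.
* `rho S v`: the indicator of `no p ∈ S divides v`, divided by its density `VV S`.
* `er C A w = 2 ^ (-A / C) + w ^ (-1 / C)`: the generic error.
* `lamv W v = φ(W)/W log |v|` if `|v|` is prime, `lam W r n = lamv W (r + W n)`, `uu = lam - 1`.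
-/

namespace Pool.Agent.Lib.H18GB

open Finset Pool.Agent.Lib.Sieve

/-- `exp (2 π i x)` -/
noncomputable def e (x : ℝ) : ℂ := Complex.exp (2 * Real.pi * x * Complex.I)

/-- distance to the nearest integer -/
noncomputable def nr (x : ℝ) : ℝ := |x - round x|

/-- the prime factors of `W` are exactly the primes `≤ w` -/
def IsW (w W : ℕ) : Prop := 0 < W ∧ ∀ p : ℕ, p.Prime → (p ∣ W ↔ p ≤ w)

/-- `S` is a set of primes in `(w, z]` -/
def PSet (w z : ℕ) (S : Finset ℕ) : Prop := ∀ p ∈ S, p.Prime ∧ w < p ∧ p ≤ z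

/-- no `p ∈ S` divides `v` -/
def Rgh (S : Finset ℕ) (v : ℤ) : Prop := ∀ p ∈ S, ¬ (p : ℤ) ∣ v

noncomputable def VV (S : Finset ℕ) : ℝ := ∏ p ∈ S, (1 - 1 / (p : ℝ))

open Classical in
noncomputable def rho (S : Finset ℕ) (v : ℤ) : ℝ := if Rgh S v then (VV S)⁻¹ else 0

/-- the singular factor of a pair of linear forms with discriminant `d` -/
noncomputable def SGp (S : Finset ℕ) (d : ℤ) : ℝ :=
  ∏ p ∈ S, if (p : ℤ) ∣ d then (1 - 1 / (p : ℝ))⁻¹ else (1 - 2 / (p : ℝ)) / (1 - 1 / (p : ℝ)) ^ 2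

noncomputable def Ers (t : ℝ) (S : Finset ℕ) (m : ℤ) : ℝ :=
  ∑ p ∈ S.filter (fun p : ℕ => (p : ℤ) ∣ m), (p : ℝ) ^ (-t)

/-- the generic error term -/
noncomputable def er (C A w : ℕ) : ℝ := (2 : ℝ) ^ (-(A : ℝ) / C) + (w : ℝ) ^ (-(1 : ℝ) / C)

noncomputable def lamv (W : ℕ) (v : ℤ) : ℝ :=
  if v.natAbs.Prime then (Nat.totient W / W : ℝ) * Real.log v.natAbs else 0

noncomputable def lam (W : ℕ) (r n : ℤ) : ℝ := lamv W (r + W * n)

noncomputable def uu (W : ℕ) (r n : ℤ) : ℝ := lam W r n - 1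

/-- `f` is dominated by `κ (1 + rho)` along `r + W n` -/
def Maj (κ : ℝ) (S : Finset ℕ) (W : ℕ) (r : ℤ) (f : ℤ → ℂ) : Prop :=
  ∀ n : ℤ, ‖f n‖ ≤ κ * (1 + rho S (r + W * n))

/-- `f` vanishes outside `[a, b)` -/
def SuppIn (a b : ℤ) (f : ℤ → ℂ) : Prop := ∀ n, n ∉ Finset.Ico a b → f n = 0

theorem e_zero : e 0 = 1 := by simp [e]

theorem e_add (x y : ℝ) : e (x + y) = e x * e y := by
  unfold e
  rw [← Complex.exp_add]
  congr 1
  push_cast
  ring

theorem e_neg (x : ℝ) : e (-x) = (starRingEnd ℂ) (e x) := by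
  unfold e
  rw [← Complex.exp_conj]
  congr 1
  simp only [map_mul, Complex.conj_ofReal, Complex.conj_I, map_ofNat]
  push_cast
  ring

theorem norm_e (x : ℝ) : ‖e x‖ = 1 := by
  unfold e
  have : (2 * Real.pi * x * Complex.I : ℂ) = ((2 * Real.pi * x : ℝ) : ℂ) * Complex.I := by
    push_cast; ring
  rw [this]
  exact Complex.norm_exp_ofReal_mul_I _

theorem e_int (n : ℤ) : e n = 1 := by
  unfold e
  rw [Complex.exp_eq_one_iff]
  exact ⟨n, by push_cast; ring⟩

theorem e_add_int (x : ℝ) (n : ℤ) : e (x + n) = e x := by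
  rw [e_add, e_int, mul_one]

theorem nr_nonneg (x : ℝ) : 0 ≤ nr x := abs_nonneg _

theorem nr_le_abs_sub (x : ℝ) (n : ℤ) : nr x ≤ |x - n| := round_le x n

theorem nr_le_half (x : ℝ) : nr x ≤ 1 / 2 := abs_sub_round x

theorem rho_nonneg {S : Finset ℕ} (hS : ∀ p ∈ S, p.Prime) (v : ℤ) : 0 ≤ rho S v := by
  unfold rho
  split_ifs
  · apply inv_nonneg.mpr
    apply Finset.prod_nonneg
    intro p hp
    have : (1 : ℝ) ≤ p := by exact_mod_cast (hS p hp).one_lt.le
    rw [sub_nonneg, div_le_one (by linarith)]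
    exact this
  · exact le_rfl

theorem VV_pos {S : Finset ℕ} (hS : ∀ p ∈ S, p.Prime) : 0 < VV S := by
  apply Finset.prod_pos
  intro p hp
  have : (1 : ℝ) < p := by exact_mod_cast (hS p hp).one_lt
  rw [sub_pos, div_lt_one (by linarith)]
  exact this

theorem VV_le_one {S : Finset ℕ} (hS : ∀ p ∈ S, p.Prime) : VV S ≤ 1 := by
  apply Finset.prod_le_one
  · intro p hp
    have : (1 : ℝ) ≤ p := by exact_mod_cast (hS p hp).one_lt.le
    rw [sub_nonneg, div_le_one (by linarith)]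
    exact this
  · intro p hp
    have : (0 : ℝ) ≤ 1 / p := by positivity
    linarith

theorem Ers_nonneg (t : ℝ) (S : Finset ℕ) (m : ℤ) : 0 ≤ Ers t S m :=
  Finset.sum_nonneg fun _ _ => Real.rpow_nonneg (Nat.cast_nonneg _) _

theorem er_nonneg (C A w : ℕ) : 0 ≤ er C A w :=
  add_nonneg (Real.rpow_nonneg (by norm_num) _) (Real.rpow_nonneg (Nat.cast_nonneg _) _)

theorem PSet.prime {w z : ℕ} {S : Finset ℕ} (h : PSet w z S) : ∀ p ∈ S, p.Prime :=
  fun p hp => (h p hp).1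

theorem pset_sprimes (w z : ℕ) : PSet w z (sprimes w z) := fun _ hp => mem_sprimes.mp hp

theorem IsW.not_dvd {w W z : ℕ} (hW : IsW w W) {S : Finset ℕ} (hS : PSet w z S) :
    ∀ p ∈ S, ¬ (p : ℤ) ∣ (W : ℤ) := by
  intro p hp h
  obtain ⟨h1, h2, -⟩ := hS p hp
  have := (hW.2 p h1).mp (Int.natCast_dvd_natCast.mp h)
  omega

end Pool.Agent.Lib.H18GB
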