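import Pool.Agent.Lib.H18GB.Defs

/-!
# Chunk FL: the fundamental lemma of the sieve with arbitrary precision

Copy of `Pool/Agent/Lib/Sieve/Fundamental.lean` (`fundamental_sum`), with an additional parameter
`A'` (about `A / C`): the exponents are `48 * k + 2 + 2 * j + 2 * A'`, so that the total relative
error is at most `2 ^ (-2 * A' - 2)`, and the remainder is at most `z ^ (192 k + 24 + 8 A')`.
-/

set_option linter.unusedSectionVars false

namespace Pool.Agent.Lib.H18GB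

open Finset Pool.Agent.Lib.Sieve

theorem fl_exp_le {x : ℝ} (h0 : 0 ≤ x) (h1 : x ≤ 1) : Real.exp x ≤ 1 + 2 * x := by
  have h := Real.abs_exp_sub_one_sub_id_le (x := x) (by rw [abs_of_nonneg h0]; exact h1)
  have h2 := (abs_le.mp h).2
  nlinarith

section

variable {ι κ α : Type*} [DecidableEq ι] [DecidableEq κ]

/-- The abstract Brun-Hooley sieve: upper and lower bound for the number (weighted) of `u ∈ U`
avoiding all the classes. -/
theorem fl_brun_hooley (U : Finset α) (χ : ι → α → ℝ) (g ω : ι → ℝ) (M : ℝ) (P : Finset ι)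
    (hC : ∀ E ⊆ P, |∑ u ∈ U, ∏ p ∈ E, χ p u - M * ∏ p ∈ E, g p| ≤ ∏ p ∈ E, ω p)
    (hM : 0 ≤ M) (hχ0 : ∀ p u, 0 ≤ χ p u) (hχ1 : ∀ p u, χ p u ≤ 1)
    (hg0 : ∀ p ∈ P, 0 ≤ g p) (hg1 : ∀ p ∈ P, g p ≤ 1) (hω : ∀ p ∈ P, 0 ≤ ω p)
    (Q : κ → Finset ι) (J : Finset κ) (b : κ → ℕ) (hb : ∀ j ∈ J, Even (b j))
    (hQ : ∀ j ∈ J, Q j ⊆ P) (hdisj : ∀ i ∈ J, ∀ j ∈ J, i ≠ j → Disjoint (Q i) (Q j))
    (ε : κ → ℝ) (hε0 : ∀ j ∈ J, 0 ≤ ε j)
    (hε : ∀ j ∈ J, poly (cE (b j + 1)) g (Q j) ≤ ε j * ∏ p ∈ Q j, (1 - g p))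
    {η : ℝ} (hη : η ≤ 1) (hεsum : ∑ j ∈ J, ε j ≤ η) :
    M * (1 - η) * ∏ j ∈ J, ∏ p ∈ Q j, (1 - g p) - ∏ j ∈ J, poly (cA (b j + 1)) ω (Q j)
      ≤ ∑ u ∈ U, ∏ j ∈ J, ∏ p ∈ Q j, (1 - χ p u) ∧
    ∑ u ∈ U, ∏ j ∈ J, ∏ p ∈ Q j, (1 - χ p u)
      ≤ M * (1 + 2 * η) * ∏ j ∈ J, ∏ p ∈ Q j, (1 - g p)
        + ∏ j ∈ J, poly (cA (b j + 1)) ω (Q j) := by
  -- abbreviations
  set V : κ → ℝ := fun j => ∏ p ∈ Q j, (1 - g p) with hV
  set Tj : κ → ℝ := fun j => poly (cT (b j)) g (Q j) with hT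
  set Ej : κ → ℝ := fun j => poly (cE (b j + 1)) g (Q j) with hE
  set r : κ → ℝ := fun j => poly (fun D => |cT (b j) D|) ω (Q j) with hr
  set s : κ → ℝ := fun j => poly (fun D => |cE (b j + 1) D|) ω (Q j) with hs
  have hVnn : ∀ j ∈ J, 0 ≤ V j := fun j hj =>
    Finset.prod_nonneg fun p hp => by
      have := hg1 p (hQ j hj hp)
      linarith
  have hVT : ∀ j ∈ J, V j ≤ Tj j := fun j hj =>
    le_polyT_of_even (fun p hp => hg0 p (hQ j hj hp)) (fun p hp => hg1 p (hQ j hj hp)) (hb j hj)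
  have hTV : ∀ j ∈ J, Tj j ≤ (1 + ε j) * V j := by
    intro j hj
    have h1 := polyT_le_of_even (fun p hp => hg0 p (hQ j hj hp))
      (fun p hp => hg1 p (hQ j hj hp)) (hb j hj)
    have h2 := hε j hj
    simp only [hT, hV] at *
    linarith
  have hTnn : ∀ j ∈ J, 0 ≤ Tj j := fun j hj => (hVnn j hj).trans (hVT j hj)
  have hrnn : ∀ j ∈ J, 0 ≤ r j := fun j hj =>
    poly_nonneg (fun D => abs_nonneg _) fun p hp => hω p (hQ j hj hp)
  have hsnn : ∀ j ∈ J, 0 ≤ s j := fun j hj =>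
    poly_nonneg (fun D => abs_nonneg _) fun p hp => hω p (hQ j hj hp)
  have hrs : ∀ j ∈ J, r j + s j = poly (cA (b j + 1)) ω (Q j) := by
    intro j hj
    simp only [hr, hs]
    rw [← poly_add]
    congr 1
    funext D
    unfold cT cE cA
    by_cases h1 : D.card ≤ b j
    · rw [if_pos h1, if_neg (by omega), if_pos (by omega)]
      simp
    · by_cases h2 : D.card = b j + 1
      · rw [if_neg h1, if_pos h2, if_pos (by omega)]
        simp
      · rw [if_neg h1, if_neg h2, if_neg (by omega)]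
        simp
  have hR : ∏ j ∈ J, r j + ∑ l ∈ J, s l * ∏ j ∈ J.erase l, r j
      ≤ ∏ j ∈ J, poly (cA (b j + 1)) ω (Q j) := by
    refine (prod_add_ge J r s hrnn hsnn).trans (le_of_eq ?_)
    exact Finset.prod_congr rfl hrs
  have hemp : ∀ j ∈ J, Disjoint (∅ : Finset ι) (Q j) := fun j _ => Finset.disjoint_empty_left _
  -- the main sum
  have main := rep U χ g ω M P hC (fun j => cT (b j)) Q J hQ hdisj ∅ (Finset.empty_subset _) hemp
  simp only [Finset.prod_empty, mul_one] at main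
  have main' : |∑ u ∈ U, ∏ j ∈ J, poly (cT (b j)) (fun p => χ p u) (Q j) - M * ∏ j ∈ J, Tj j|
      ≤ ∏ j ∈ J, r j := main
  -- the correction sums
  have corr : ∀ l ∈ J,
      |∑ u ∈ U, poly (cE (b l + 1)) (fun p => χ p u) (Q l) *
          ∏ j ∈ J.erase l, poly (cT (b j)) (fun p => χ p u) (Q j)
        - M * (Ej l * ∏ j ∈ J.erase l, Tj j)| ≤ s l * ∏ j ∈ J.erase l, r j := by
    intro l hl
    have h := rep U χ g ω M P hC (Function.update (fun j => cT (b j)) l (cE (b l + 1))) Q J hQ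
      hdisj ∅ (Finset.empty_subset _) hemp
    simp only [Finset.prod_empty, mul_one] at h
    have hupd : ∀ F : κ → (Finset ι → ℝ) → ℝ,
        ∏ j ∈ J, F j (Function.update (fun j => cT (b j)) l (cE (b l + 1)) j)
          = F l (cE (b l + 1)) * ∏ j ∈ J.erase l, F j (cT (b j)) := by
      intro F
      rw [← Finset.mul_prod_erase J _ hl]
      rw [Function.update_self]
      congr 1
      refine Finset.prod_congr rfl fun j hj => ?_
      rw [Function.update_of_ne (Finset.ne_of_mem_erase hj)]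
    have h1 : ∀ u, ∏ j ∈ J, poly (Function.update (fun j => cT (b j)) l (cE (b l + 1)) j)
        (fun p => χ p u) (Q j) = poly (cE (b l + 1)) (fun p => χ p u) (Q l) *
          ∏ j ∈ J.erase l, poly (cT (b j)) (fun p => χ p u) (Q j) := fun u =>
      hupd (fun j c => poly c (fun p => χ p u) (Q j))
    have h2 : ∏ j ∈ J, poly (Function.update (fun j => cT (b j)) l (cE (b l + 1)) j) g (Q j)
        = Ej l * ∏ j ∈ J.erase l, Tj j := hupd (fun j c => poly c g (Q j))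
    have h3 : ∏ j ∈ J, poly (fun D =>
        |Function.update (fun j => cT (b j)) l (cE (b l + 1)) j D|) ω (Q j)
        = s l * ∏ j ∈ J.erase l, r j := hupd (fun j c => poly (fun D => |c D|) ω (Q j))
    simp_rw [h1] at h
    rw [h2, h3] at h
    exact h
  have hcard : ∀ l ∈ J, Ej l * ∏ j ∈ J.erase l, Tj j ≤ ε l * ∏ j ∈ J, Tj j := by
    intro l hl
    rw [← Finset.mul_prod_erase J Tj hl, ← mul_assoc]
    apply mul_le_mul_of_nonneg_right
    · have h1 := hε l hl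
      have h2 := mul_le_mul_of_nonneg_left (hVT l hl) (hε0 l hl)
      simp only [hE, hV] at *
      linarith
    · exact Finset.prod_nonneg fun j hj => hTnn j (Finset.mem_of_mem_erase hj)
  have hprodT : 0 ≤ ∏ j ∈ J, Tj j := Finset.prod_nonneg hTnn
  have hVT' : ∏ j ∈ J, V j ≤ ∏ j ∈ J, Tj j := Finset.prod_le_prod hVnn hVT
  constructor
  · -- lower bound
    have hpt : ∀ u ∈ U, ∏ j ∈ J, poly (cT (b j)) (fun p => χ p u) (Q j)
        - ∑ l ∈ J, poly (cE (b l + 1)) (fun p => χ p u) (Q l) *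
            ∏ j ∈ J.erase l, poly (cT (b j)) (fun p => χ p u) (Q j)
        ≤ ∏ j ∈ J, ∏ p ∈ Q j, (1 - χ p u) := by
      intro u _
      apply prod_ge_telescope
      · intro j _
        exact Finset.prod_nonneg fun p _ => by linarith [hχ1 p u]
      · intro j hj
        exact le_polyT_of_even (fun p _ => hχ0 p u) (fun p _ => hχ1 p u) (hb j hj)
      · intro j hj
        have := polyT_le_of_even (f := fun p => χ p u) (Q := Q j) (fun p _ => hχ0 p u)
          (fun p _ => hχ1 p u) (hb j hj)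
        linarith
    have hsum := Finset.sum_le_sum hpt
    rw [Finset.sum_sub_distrib, Finset.sum_comm] at hsum
    have h1 := (abs_le.mp main').1
    have h2 : ∑ l ∈ J, ∑ u ∈ U, poly (cE (b l + 1)) (fun p => χ p u) (Q l) *
          ∏ j ∈ J.erase l, poly (cT (b j)) (fun p => χ p u) (Q j)
        ≤ ∑ l ∈ J, (M * (ε l * ∏ j ∈ J, Tj j) + s l * ∏ j ∈ J.erase l, r j) := by
      refine Finset.sum_le_sum fun l hl => ?_
      have h3 := (abs_le.mp (corr l hl)).2
      have h4 := mul_le_mul_of_nonneg_left (hcard l hl) hM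
      linarith
    rw [Finset.sum_add_distrib, ← Finset.mul_sum, ← Finset.sum_mul] at h2
    have h5 : M * ((∑ l ∈ J, ε l) * ∏ j ∈ J, Tj j) ≤ M * (η * ∏ j ∈ J, Tj j) :=
      mul_le_mul_of_nonneg_left (mul_le_mul_of_nonneg_right hεsum hprodT) hM
    have h6 : M * (1 - η) * ∏ j ∈ J, V j ≤ M * (1 - η) * ∏ j ∈ J, Tj j :=
      mul_le_mul_of_nonneg_left hVT' (mul_nonneg hM (by linarith))
    have h7 : M * (1 - η) * ∏ j ∈ J, Tj j = M * ∏ j ∈ J, Tj j - M * (η * ∏ j ∈ J, Tj j) := by ring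
    rw [h7] at h6
    simp only [hV] at h6
    linarith
  · -- upper bound
    have hpt : ∀ u ∈ U, ∏ j ∈ J, ∏ p ∈ Q j, (1 - χ p u)
        ≤ ∏ j ∈ J, poly (cT (b j)) (fun p => χ p u) (Q j) := by
      intro u _
      apply Finset.prod_le_prod
      · intro j _
        exact Finset.prod_nonneg fun p _ => by linarith [hχ1 p u]
      · intro j hj
        exact le_polyT_of_even (fun p _ => hχ0 p u) (fun p _ => hχ1 p u) (hb j hj)
    have hsum := Finset.sum_le_sum hpt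
    have h1 := (abs_le.mp main').2
    have h2 : ∏ j ∈ J, Tj j ≤ (1 + 2 * η) * ∏ j ∈ J, V j := by
      have h3 : ∏ j ∈ J, Tj j ≤ ∏ j ∈ J, ((1 + ε j) * V j) := Finset.prod_le_prod hTnn hTV
      rw [Finset.prod_mul_distrib] at h3
      have h4 : ∏ j ∈ J, (1 + ε j) ≤ Real.exp (∑ j ∈ J, ε j) := by
        rw [Real.exp_sum]
        refine Finset.prod_le_prod (fun j hj => by linarith [hε0 j hj]) fun j _ => ?_
        have := Real.add_one_le_exp (ε j)
        linarith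
      have h5 : Real.exp (∑ j ∈ J, ε j) ≤ Real.exp η := Real.exp_le_exp.mpr hεsum
      have h6 : Real.exp η ≤ 1 + 2 * η := fl_exp_le (le_trans (Finset.sum_nonneg hε0) hεsum) hη
      have h10 : 0 ≤ ∏ j ∈ J, V j := Finset.prod_nonneg hVnn
      calc ∏ j ∈ J, Tj j ≤ (∏ j ∈ J, (1 + ε j)) * ∏ j ∈ J, V j := h3
        _ ≤ (1 + 2 * η) * ∏ j ∈ J, V j := mul_le_mul_of_nonneg_right (by linarith) h10
    have h3 : M * ∏ j ∈ J, Tj j ≤ M * ((1 + 2 * η) * ∏ j ∈ J, V j) :=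
      mul_le_mul_of_nonneg_left h2 hM
    have h4 : ∏ j ∈ J, r j ≤ ∏ j ∈ J, poly (cA (b j + 1)) ω (Q j) := by
      refine le_trans ?_ hR
      have : 0 ≤ ∑ l ∈ J, s l * ∏ j ∈ J.erase l, r j :=
        Finset.sum_nonneg fun l hl => mul_nonneg (hsnn l hl)
          (Finset.prod_nonneg fun j hj => hrnn j (Finset.mem_of_mem_erase hj))
      linarith
    rw [← mul_assoc] at h3
    simp only [hV] at h3
    linarith

end

section

variable {k A' w z : ℕ} {S : Finset ℕ} {Ω : (p : ℕ) → Finset (ZMod p)}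

/-- The blocks of sieving primes. -/
def fl_blk (z : ℕ) (S : Finset ℕ) (j : ℕ) : Finset ℕ := S.filter (fun p => blk z p = j)

theorem fl_mem {j p : ℕ} : p ∈ fl_blk z S j ↔ p ∈ S ∧ blk z p = j := by
  unfold fl_blk
  rw [Finset.mem_filter]

theorem fl_blk_sub (hS : PSet w z S) (j : ℕ) : fl_blk z S j ⊆ blockSet w z j := by
  intro p hp
  rw [fl_mem] at hp
  rw [mem_blockSet]
  exact ⟨hS p hp.1, hp.2⟩

theorem fl_prod_blocks (z : ℕ) (S : Finset ℕ) (f : ℕ → ℝ) :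
    ∏ j ∈ Finset.range (z + 1), ∏ p ∈ fl_blk z S j, f p = ∏ p ∈ S, f p := by
  unfold fl_blk
  apply Finset.prod_fiberwise_of_maps_to
  intro p _
  exact Finset.mem_range.mpr (Nat.lt_succ_of_le (blk_le z p))

/-- The exponents `b_j`. -/
def fl_bj (k A' j : ℕ) : ℕ := 48 * k + 2 + 2 * j + 2 * A'

theorem fl_bj_even (k A' j : ℕ) : Even (fl_bj k A' j) := ⟨24 * k + 1 + j + A', by unfold fl_bj; ring⟩

/-- The relative error of block `j`. -/
noncomputable def fl_eps (k A' j : ℕ) : ℝ := Real.exp (24 * k) / 2 ^ (fl_bj k A' j + 1)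

theorem fl_eps_nonneg (k A' j : ℕ) : 0 ≤ fl_eps k A' j := by
  unfold fl_eps
  positivity

theorem fl_sum_eps (k A' n : ℕ) :
    ∑ j ∈ Finset.range n, fl_eps k A' j ≤ 1 / 4 * (1 / 2) ^ (2 * A') := by
  have h1 : ∀ j, fl_eps k A' j ≤ 1 / 8 * (1 / 2) ^ (2 * A') * (1 / 2) ^ j := by
    intro j
    unfold fl_eps fl_bj
    have h2 : Real.exp (24 * k) ≤ 2 ^ (48 * k) := by
      have := exp_nat_le (24 * k)
      push_cast at this
      calc Real.exp (24 * k) ≤ 2 ^ (2 * (24 * k)) := this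
        _ = 2 ^ (48 * k) := by congr 1; ring
    rw [div_le_iff₀ (by positivity)]
    have h3 : (1 : ℝ) / 8 * (1 / 2) ^ (2 * A') * (1 / 2) ^ j * 2 ^ (48 * k + 2 + 2 * j + 2 * A' + 1)
        = 2 ^ (48 * k) * 2 ^ j := by
      rw [one_div_pow, one_div_pow]
      have : (2 : ℝ) ^ (48 * k + 2 + 2 * j + 2 * A' + 1)
          = 2 ^ (48 * k) * 8 * (2 ^ j * 2 ^ j) * 2 ^ (2 * A') := by
        rw [show 48 * k + 2 + 2 * j + 2 * A' + 1 = 48 * k + 3 + (j + j) + 2 * A' by ring, pow_add,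
          pow_add, pow_add, pow_add]
        norm_num
      rw [this]
      have hj : (2 : ℝ) ^ j ≠ 0 := by positivity
      have hA : (2 : ℝ) ^ (2 * A') ≠ 0 := by positivity
      field_simp
    rw [h3]
    have h4 : (1 : ℝ) ≤ 2 ^ j := one_le_pow₀ (by norm_num)
    have h5 : (0 : ℝ) < 2 ^ (48 * k) := by positivity
    nlinarith
  have h0 : (0 : ℝ) ≤ 1 / 8 * (1 / 2) ^ (2 * A') := by positivity
  calc ∑ j ∈ Finset.range n, fl_eps k A' j
      ≤ ∑ j ∈ Finset.range n, 1 / 8 * (1 / 2 : ℝ) ^ (2 * A') * (1 / 2 : ℝ) ^ j :=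
        Finset.sum_le_sum fun j _ => h1 j
    _ = 1 / 8 * (1 / 2) ^ (2 * A') * ∑ j ∈ Finset.range n, (1 / 2 : ℝ) ^ j := by
        rw [Finset.mul_sum]
    _ ≤ 1 / 8 * (1 / 2) ^ (2 * A') * 2 :=
        mul_le_mul_of_nonneg_left (sum_geometric_two_le n) h0
    _ = 1 / 4 * (1 / 2) ^ (2 * A') := by ring

theorem fl_block_E (hS : PSet w z S) (hw : 2 * k + 2 ≤ w) (hΩ : ∀ p ∈ S, (Ω p).card ≤ k) (j : ℕ) :
    poly (cE (fl_bj k A' j + 1)) (dens Ω) (fl_blk z S j)
      ≤ fl_eps k A' j * ∏ p ∈ fl_blk z S j, (1 - dens Ω p) := by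
  set Q := fl_blk z S j with hQ
  have hcard : ∀ p ∈ Q, (Ω p).card ≤ k := fun p hp => hΩ p (fl_mem.mp hp).1
  have hg0 : ∀ p ∈ Q, 0 ≤ dens Ω p := fun p _ => dens_nonneg Ω p
  have hg1 : ∀ p ∈ Q, dens Ω p ≤ 1 / 2 := fun p hp =>
    dens_le_half (hcard p hp) (by
      have := (hS p (fl_mem.mp hp).1).2.1
      omega)
  have hinv : ∑ p ∈ Q, (1 : ℝ) / p ≤ 6 :=
    (Finset.sum_le_sum_of_subset_of_nonneg (fl_blk_sub hS j) fun p _ _ => by positivity).trans
      (block_sum_inv w z j)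
  have hsum : ∑ p ∈ Q, dens Ω p ≤ 6 * k := by
    calc ∑ p ∈ Q, dens Ω p ≤ ∑ p ∈ Q, (k : ℝ) * (1 / p) :=
          Finset.sum_le_sum fun p hp => dens_le (hcard p hp)
      _ = k * ∑ p ∈ Q, (1 : ℝ) / p := by rw [Finset.mul_sum]
      _ ≤ k * 6 := mul_le_mul_of_nonneg_left hinv (Nat.cast_nonneg _)
      _ = 6 * k := by ring
  have h1 := rankinE hg0 (fl_bj k A' j + 1) (l := 2) (by norm_num)
  have h2 : ∏ p ∈ Q, (1 + 2 * dens Ω p) ≤ Real.exp (∑ p ∈ Q, 2 * dens Ω p) :=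
    prod_one_add_le fun p hp => by
      have := hg0 p hp
      linarith
  rw [← Finset.mul_sum] at h2
  have h3 : Real.exp (2 * ∑ p ∈ Q, dens Ω p) ≤ Real.exp (12 * k) :=
    Real.exp_le_exp.mpr (by linarith)
  have h4 : Real.exp (-(12 * k)) ≤ ∏ p ∈ Q, (1 - dens Ω p) :=
    (Real.exp_le_exp.mpr (by linarith)).trans (prod_one_sub_ge hg0 hg1)
  have h5 : (0 : ℝ) < 2 ^ (fl_bj k A' j + 1) := by positivity
  have h6 : poly (cE (fl_bj k A' j + 1)) (dens Ω) Q
      ≤ Real.exp (12 * k) / 2 ^ (fl_bj k A' j + 1) := by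
    rw [le_div_iff₀ h5]
    linarith
  refine h6.trans ?_
  unfold fl_eps
  have h7 : Real.exp (12 * k) = Real.exp (24 * k) * Real.exp (-(12 * k)) := by
    rw [← Real.exp_add]
    congr 1
    ring
  rw [h7]
  have h8 : 0 ≤ Real.exp (24 * k) / 2 ^ (fl_bj k A' j + 1) := by positivity
  calc Real.exp (24 * k) * Real.exp (-(12 * k)) / 2 ^ (fl_bj k A' j + 1)
      = Real.exp (24 * k) / 2 ^ (fl_bj k A' j + 1) * Real.exp (-(12 * k)) := by ring
    _ ≤ Real.exp (24 * k) / 2 ^ (fl_bj k A' j + 1) * ∏ p ∈ Q, (1 - dens Ω p) :=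
        mul_le_mul_of_nonneg_left h4 h8

theorem fl_block_R (hz : 2 ≤ z) (hS : PSet w z S) (hw : 2 * k + 2 ≤ w)
    (hΩ : ∀ p ∈ S, (Ω p).card ≤ k) (j : ℕ) :
    poly (cA (fl_bj k A' j + 1)) (fun p => ((Ω p).card : ℝ)) (fl_blk z S j)
      ≤ Real.exp (2 * ((48 * k + 4 + 2 * A' + 2 * j) / 2 ^ j) * Real.log z) := by
  have hz' : (2 : ℝ) ≤ z := by exact_mod_cast hz
  have hlogz : 0 ≤ Real.log z := Real.log_nonneg (by linarith)
  by_cases h : (fl_blk z S j).Nonempty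
  · set Q := fl_blk z S j with hQ
    obtain ⟨y, hyQ, hymax⟩ := Finset.exists_max_image Q id h
    have hymem := fl_mem.mp hyQ
    obtain ⟨hyp, hyw, hyz⟩ := hS y hymem.1
    have hcard : ∀ p ∈ Q, (Ω p).card ≤ k := fun p hp => hΩ p (fl_mem.mp hp).1
    have hy3 : 3 ≤ y := by omega
    have hyr : (3 : ℝ) ≤ y := by exact_mod_cast hy3
    have hky : (k : ℝ) ≤ y := by
      have : k ≤ y := by omega
      exact_mod_cast this
    set X : ℝ := (y : ℝ) ^ 2 with hX
    have hX9 : 9 ≤ X := by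
      rw [hX]
      nlinarith
    have hX1 : 1 ≤ X := by linarith
    have h1 := rankinA (f := fun p => ((Ω p).card : ℝ)) (Q := Q)
      (fun p _ => Nat.cast_nonneg _) (fl_bj k A' j + 1) hX1
    have h2 : ∏ p ∈ Q, (1 + ((Ω p).card : ℝ) / X) ≤ Real.exp (∑ p ∈ Q, ((Ω p).card : ℝ) / X) :=
      prod_one_add_le fun p hp => by positivity
    have hQcard : (Q.card : ℝ) ≤ y := by
      have : Q ⊆ Finset.Icc 1 y := by
        intro p hp
        rw [Finset.mem_Icc]
        exact ⟨(hS p (fl_mem.mp hp).1).1.one_le, hymax p hp⟩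
      have := Finset.card_le_card this
      rw [Nat.card_Icc] at this
      have h' : Q.card ≤ y := by omega
      exact_mod_cast h'
    have h3 : ∑ p ∈ Q, ((Ω p).card : ℝ) / X ≤ 1 := by
      rw [← Finset.sum_div, div_le_one (by linarith)]
      calc ∑ p ∈ Q, ((Ω p).card : ℝ) ≤ ∑ _p ∈ Q, (k : ℝ) :=
            Finset.sum_le_sum fun p hp => by exact_mod_cast hcard p hp
        _ = Q.card * k := by rw [Finset.sum_const, nsmul_eq_mul]
        _ ≤ y * y := mul_le_mul hQcard hky (Nat.cast_nonneg _) (Nat.cast_nonneg _)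
        _ = X := by rw [hX]; ring
    have h4 : ∏ p ∈ Q, (1 + ((Ω p).card : ℝ) / X) ≤ X := by
      refine h2.trans ((Real.exp_le_exp.mpr h3).trans ?_)
      have := Real.exp_one_lt_d9
      linarith
    have h5 : poly (cA (fl_bj k A' j + 1)) (fun p => ((Ω p).card : ℝ)) Q
        ≤ X ^ (fl_bj k A' j + 2) := by
      refine h1.trans ?_
      calc X ^ (fl_bj k A' j + 1) * ∏ p ∈ Q, (1 + ((Ω p).card : ℝ) / X)
          ≤ X ^ (fl_bj k A' j + 1) * X := mul_le_mul_of_nonneg_left h4 (by positivity)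
        _ = X ^ (fl_bj k A' j + 2) := by rw [← pow_succ]
    refine h5.trans ?_
    -- compare with a power of `z`
    have hylog : (2 : ℝ) ^ j * Real.log y ≤ Real.log z := by
      have h6 := (blk_spec hyp hyz).1
      rw [hymem.2] at h6
      have h7 : Real.log ((y : ℝ) ^ (2 ^ j)) ≤ Real.log z := by
        apply Real.log_le_log (by positivity)
        exact_mod_cast h6
      rw [Real.log_pow] at h7
      push_cast at h7
      exact h7
    have hylog' : Real.log y ≤ Real.log z / 2 ^ j := by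
      rw [le_div_iff₀ (by positivity)]
      linarith
    have h8 : X ^ (fl_bj k A' j + 2) = Real.exp ((2 * (fl_bj k A' j + 2) : ℕ) * Real.log y) := by
      rw [Real.exp_nat_mul, Real.exp_log (by linarith), hX, ← pow_mul]
    rw [h8]
    apply Real.exp_le_exp.mpr
    have h9 : ((2 * (fl_bj k A' j + 2) : ℕ) : ℝ) = 2 * (48 * k + 4 + 2 * A' + 2 * j) := by
      unfold fl_bj
      push_cast
      ring
    rw [h9]
    calc (2 * (48 * k + 4 + 2 * A' + 2 * j) : ℝ) * Real.log y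
        ≤ (2 * (48 * k + 4 + 2 * A' + 2 * j)) * (Real.log z / 2 ^ j) :=
          mul_le_mul_of_nonneg_left hylog' (by positivity)
      _ = 2 * ((48 * k + 4 + 2 * A' + 2 * j) / 2 ^ j) * Real.log z := by ring
  · rw [Finset.not_nonempty_iff_eq_empty] at h
    rw [h, poly_empty]
    have : cA (fl_bj k A' j + 1) (∅ : Finset ℕ) = 1 := by simp [cA]
    rw [this]
    apply Real.one_le_exp
    positivity

theorem fl_prod_R (hz : 2 ≤ z) (hS : PSet w z S) (hw : 2 * k + 2 ≤ w)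
    (hΩ : ∀ p ∈ S, (Ω p).card ≤ k) (n : ℕ) :
    ∏ j ∈ Finset.range n,
        poly (cA (fl_bj k A' j + 1)) (fun p => ((Ω p).card : ℝ)) (fl_blk z S j)
      ≤ (z : ℝ) ^ (192 * k + 24 + 8 * A') := by
  have hz' : (2 : ℝ) ≤ z := by exact_mod_cast hz
  have hlogz : 0 ≤ Real.log z := Real.log_nonneg (by linarith)
  calc ∏ j ∈ Finset.range n,
        poly (cA (fl_bj k A' j + 1)) (fun p => ((Ω p).card : ℝ)) (fl_blk z S j)
      ≤ ∏ j ∈ Finset.range n,
          Real.exp (2 * ((48 * k + 4 + 2 * A' + 2 * j) / 2 ^ j) * Real.log z) := by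
        refine Finset.prod_le_prod (fun j _ => ?_) fun j _ => fl_block_R hz hS hw hΩ j
        apply poly_nonneg
        · intro D
          unfold cA
          split_ifs <;> norm_num
        · intro p _
          positivity
    _ = Real.exp (2 * (∑ j ∈ Finset.range n, ((48 * k + 4 + 2 * A' : ℝ) + 2 * j) / 2 ^ j) *
          Real.log z) := by
        rw [← Real.exp_sum]
        congr 1
        rw [Finset.mul_sum, Finset.sum_mul]
    _ ≤ Real.exp (2 * (2 * (48 * k + 4 + 2 * A') + 4) * Real.log z) := by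
        apply Real.exp_le_exp.mpr
        apply mul_le_mul_of_nonneg_right _ hlogz
        apply mul_le_mul_of_nonneg_left _ (by norm_num)
        exact sum_aux _ (by positivity) n
    _ = (z : ℝ) ^ (192 * k + 24 + 8 * A') := by
        have : (2 * (2 * (48 * k + 4 + 2 * A') + 4) : ℝ) = ((192 * k + 24 + 8 * A' : ℕ) : ℝ) := by
          push_cast
          ring
        rw [this, Real.exp_nat_mul, Real.exp_log (by linarith)]

/-- **Fundamental lemma** with precision `2 ^ (-2 A' - 1)`. -/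
theorem fl_sum (hz : 2 ≤ z) (hS : PSet w z S) (hw : 2 * k + 2 ≤ w)
    (hΩ : ∀ p ∈ S, (Ω p).card ≤ k) (A' : ℕ) (a : ℤ) (M : ℕ) :
    |∑ u ∈ Finset.Ico a (a + M), ∏ p ∈ S, (1 - chi Ω p u) - M * ∏ p ∈ S, (1 - dens Ω p)|
      ≤ 1 / 2 * (1 / 2) ^ (2 * A') * (M * ∏ p ∈ S, (1 - dens Ω p))
        + (z : ℝ) ^ (192 * k + 24 + 8 * A') := by
  have hhalf : ∀ p ∈ S, dens Ω p ≤ 1 / 2 := fun p hp => dens_le_half (hΩ p hp) (by
    have := (hS p hp).2.1
    omega)
  set η : ℝ := 1 / 4 * (1 / 2) ^ (2 * A') with hη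
  have hη1 : η ≤ 1 := by
    have h1 : ((1 : ℝ) / 2) ^ (2 * A') ≤ 1 := pow_le_one₀ (by norm_num) (by norm_num)
    rw [hη]
    linarith
  have hmain := fl_brun_hooley (Finset.Ico a (a + M)) (chi Ω) (dens Ω)
    (fun p => ((Ω p).card : ℝ)) M S
    (fun E hE => count_classes' Ω a M E fun p hp => (hS p (hE hp)).1)
    (Nat.cast_nonneg _) (chi_nonneg Ω) (chi_le_one Ω) (fun p _ => dens_nonneg Ω p)
    (fun p hp => by
      have := hhalf p hp
      linarith)
    (fun p _ => Nat.cast_nonneg _)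
    (fl_blk z S) (Finset.range (z + 1)) (fl_bj k A') (fun j _ => fl_bj_even k A' j)
    (fun j _ => Finset.filter_subset _ _)
    (fun i _ j _ hij => by
      rw [Finset.disjoint_left]
      intro p hp hp'
      exact hij ((fl_mem.mp hp).2.symm.trans (fl_mem.mp hp').2))
    (fl_eps k A') (fun j _ => fl_eps_nonneg k A' j) (fun j _ => fl_block_E hS hw hΩ j)
    (η := η) hη1 (fl_sum_eps k A' (z + 1))
  have hR := fl_prod_R (A' := A') hz hS hw hΩ (z + 1)
  simp_rw [fl_prod_blocks] at hmain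
  have hVnn : 0 ≤ ∏ p ∈ S, (1 - dens Ω p) := Finset.prod_nonneg fun p hp => by
    have := hhalf p hp
    linarith
  have hMV : 0 ≤ (M : ℝ) * ∏ p ∈ S, (1 - dens Ω p) := mul_nonneg (Nat.cast_nonneg _) hVnn
  have hη0 : 0 ≤ η := by positivity
  have e1 : (1 : ℝ) / 2 * (1 / 2) ^ (2 * A') = 2 * η := by
    rw [hη]
    ring
  rw [e1, abs_le]
  obtain ⟨h1, h2⟩ := hmain
  have h3 : 0 ≤ η * (M * ∏ p ∈ S, (1 - dens Ω p)) := mul_nonneg hη0 hMV
  constructor
  · nlinarith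
  · nlinarith

end

open Classical in
theorem fl (k : ℕ) : ∃ C : ℕ, 1 ≤ C ∧ ∀ (A w z : ℕ) (S : Finset ℕ), C ≤ A → 2 * k + 2 ≤ w →
    2 ≤ z → PSet w z S → ∀ Ω : (p : ℕ) → Finset (ZMod p), (∀ p ∈ S, (Ω p).card ≤ k) →
    ∀ (a b : ℤ), a ≤ b →
    |(((Finset.Ico a b).filter fun u => ∀ p ∈ S, (u : ZMod p) ∉ Ω p).card : ℝ)
        - (b - a) * ∏ p ∈ S, (1 - ((Ω p).card : ℝ) / p)| ≤
      (2 : ℝ) ^ (-(A : ℝ) / C) * ((b - a) * ∏ p ∈ S, (1 - ((Ω p).card : ℝ) / p)) + (z : ℝ) ^ A := by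
  refine ⟨384 * k + 48, by omega, ?_⟩
  intro A w z S hCA hw hz hS Ω hΩ a b hab
  obtain ⟨M, hM⟩ := Int.eq_ofNat_of_zero_le (sub_nonneg.mpr hab)
  have hb : b = a + M := by linarith
  have hMr : ((b : ℝ) - a) = M := by
    rw [hb]
    push_cast
    ring
  set C : ℕ := 384 * k + 48 with hC
  set A' : ℕ := A / C with hA'
  have h := fl_sum hz hS hw hΩ A' a M
  have hcount : (((Finset.Ico a b).filter fun u => ∀ p ∈ S, (u : ZMod p) ∉ Ω p).card : ℝ)
      = ∑ u ∈ Finset.Ico a (a + M), ∏ p ∈ S, (1 - chi Ω p u) := by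
    rw [Finset.card_filter, hb]
    push_cast
    refine Finset.sum_congr rfl fun u _ => ?_
    by_cases h1 : ∀ p ∈ S, (u : ZMod p) ∉ Ω p
    · rw [if_pos h1, Finset.prod_eq_one]
      intro p hp
      unfold chi
      rw [if_neg (h1 p hp)]
      ring
    · rw [if_neg h1]
      push Not at h1
      obtain ⟨p, hp, hpu⟩ := h1
      rw [Finset.prod_eq_zero hp]
      unfold chi
      rw [if_pos hpu]
      ring
  have hdens : ∏ p ∈ S, (1 - ((Ω p).card : ℝ) / p) = ∏ p ∈ S, (1 - dens Ω p) := rfl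
  rw [hcount, hMr, hdens]
  have hVnn : 0 ≤ ∏ p ∈ S, (1 - dens Ω p) := Finset.prod_nonneg fun p hp => by
    have := dens_le_half (hΩ p hp) (by
      have := (hS p hp).2.1
      omega)
    linarith
  have hMV : 0 ≤ (M : ℝ) * ∏ p ∈ S, (1 - dens Ω p) := mul_nonneg (Nat.cast_nonneg _) hVnn
  have hCpos : 0 < C := by omega
  have hCr : (0 : ℝ) < C := by exact_mod_cast hCpos
  refine h.trans (add_le_add (mul_le_mul_of_nonneg_right ?_ hMV) ?_)
  · -- precision
    have h1 : (1 : ℝ) / 2 * (1 / 2) ^ (2 * A') = (2 : ℝ) ^ (-((2 * A' + 1 : ℕ) : ℝ)) := by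
      rw [Real.rpow_neg (by norm_num), Real.rpow_natCast, pow_succ, one_div_pow]
      rw [mul_inv]
      ring
    rw [h1]
    apply Real.rpow_le_rpow_of_exponent_le (by norm_num)
    rw [neg_div, neg_le_neg_iff, div_le_iff₀ hCr]
    have h2 : A < C * (A / C + 1) := Nat.lt_mul_div_succ A hCpos
    have h3 : A ≤ (2 * A' + 1) * C := by
      rw [← hA'] at h2
      nlinarith
    exact_mod_cast h3
  · -- remainder
    have hz1 : (1 : ℝ) ≤ z := by
      have : 1 ≤ z := by omega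
      exact_mod_cast this
    apply pow_le_pow_right₀ hz1
    have h2 : C * (A / C) ≤ A := Nat.mul_div_le A C
    rw [← hA'] at h2
    nlinarith

end Pool.Agent.Lib.H18GB
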