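import Pool.Agent.Lib.H18GB.Defs

/-!
# Project GB: FEJ
-/

namespace Pool.Agent.Lib.H18GB

open Finset Pool.Agent.Lib.Sieve

lemma fej_sub_round (j : ℕ) (x : ℝ) : e (j * x) = e (j * (x - round x)) := by
  have h1 : (j : ℝ) * x = j * (x - round x) + ((j * round x : ℤ) : ℝ) := by
    push_cast
    ring
  rw [h1, e_add_int]

lemma fej_re (x : ℝ) : (e x).re = Real.cos (2 * Real.pi * x) := by
  unfold e
  have : (2 * Real.pi * x * Complex.I : ℂ) = ((2 * Real.pi * x : ℝ) : ℂ) * Complex.I := by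
    push_cast; ring
  rw [this, Complex.exp_ofReal_mul_I_re]

/-- the kernel is large near the integers -/
lemma fej_lower (K : ℕ) (hK : 0 < K) (x : ℝ) (hx : nr x ≤ 1 / (8 * K)) :
    (K : ℝ) ^ 2 / 4 ≤ ‖∑ j ∈ range K, e (j * x)‖ ^ 2 := by
  have hK' : (0 : ℝ) < K := by exact_mod_cast hK
  have h1 : (K : ℝ) / 2 ≤ (∑ j ∈ range K, e (j * x)).re := by
    rw [Complex.re_sum]
    have h2 : ∀ j ∈ range K, (1 / 2 : ℝ) ≤ (e (j * x)).re := by
      intro j hj
      have hj' : (j : ℝ) ≤ K := by exact_mod_cast (mem_range.1 hj).le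
      rw [fej_sub_round, fej_re]
      have h3 : |2 * Real.pi * (j * (x - round x))| ≤ Real.pi / 4 := by
        rw [abs_mul, abs_mul, abs_mul, abs_of_pos Real.pi_pos, Nat.abs_cast, Nat.abs_ofNat]
        have h4 : |x - round x| ≤ 1 / (8 * K) := hx
        have h5 : (j : ℝ) * |x - round x| ≤ K * (1 / (8 * K)) :=
          mul_le_mul hj' h4 (abs_nonneg _) hK'.le
        have h6 : (K : ℝ) * (1 / (8 * K)) = 1 / 8 := by field_simp
        rw [h6] at h5
        nlinarith [Real.pi_pos]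
      have h7 := Real.one_sub_sq_div_two_le_cos (x := 2 * Real.pi * (j * (x - round x)))
      have h8 : (2 * Real.pi * (j * (x - round x))) ^ 2 ≤ 1 := by
        have h9 : |2 * Real.pi * (j * (x - round x))| ≤ 1 := by
          have := Real.pi_lt_d2
          linarith
        exact (sq_le_one_iff_abs_le_one _).2 h9
      linarith
    calc (K : ℝ) / 2 = ∑ j ∈ range K, (1 / 2 : ℝ) := by
          rw [sum_const, card_range, nsmul_eq_mul]; ring
      _ ≤ _ := sum_le_sum h2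
  have h2 := Complex.re_le_norm (∑ j ∈ range K, e (j * x))
  have h3 : (K : ℝ) / 2 ≤ ‖∑ j ∈ range K, e (j * x)‖ := le_trans h1 h2
  nlinarith [norm_nonneg (∑ j ∈ range K, e (j * x))]

lemma fej_sq (K : ℕ) (x : ℝ) : ((‖∑ j ∈ range K, e (j * x)‖ ^ 2 : ℝ) : ℂ) =
    ∑ j ∈ range K, ∑ l ∈ range K, e (j * x) * e (-(l * x)) := by
  have h2 : ((‖∑ j ∈ range K, e (j * x)‖ ^ 2 : ℝ) : ℂ) =
      (∑ j ∈ range K, e (j * x)) * (starRingEnd ℂ) (∑ j ∈ range K, e (j * x)) := by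
    rw [Complex.mul_conj, Complex.normSq_eq_norm_sq]
  rw [h2, map_sum, sum_mul_sum]
  refine sum_congr rfl fun j _ => sum_congr rfl fun l _ => ?_
  rw [e_neg]

lemma fej_pair {ι : Type*} (s : Finset ι) (ω φ : ι → ℝ) (γ : ℝ) (j l : ℕ) (hlj : l ≤ j) :
    ‖∑ i ∈ s, (ω i : ℂ) * (e (j * (φ i - γ)) * e (-(l * (φ i - γ))))‖ =
      ‖∑ i ∈ s, (ω i : ℂ) * e (((j - l : ℕ) : ℝ) * φ i)‖ := by
  have h1 : ∑ i ∈ s, (ω i : ℂ) * (e (j * (φ i - γ)) * e (-(l * (φ i - γ)))) =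
      e (-(((j - l : ℕ) : ℝ) * γ)) * ∑ i ∈ s, (ω i : ℂ) * e (((j - l : ℕ) : ℝ) * φ i) := by
    rw [mul_sum]
    refine sum_congr rfl fun i _ => ?_
    rw [← e_add, mul_left_comm, ← e_add]
    congr 2
    push_cast [Nat.cast_sub hlj]
    ring
  rw [h1, norm_mul, norm_e, one_mul]

lemma fej_pair' {ι : Type*} (s : Finset ι) (ω φ : ι → ℝ) (γ : ℝ) (j l : ℕ) (hlj : j ≤ l) :
    ‖∑ i ∈ s, (ω i : ℂ) * (e (j * (φ i - γ)) * e (-(l * (φ i - γ))))‖ =
      ‖∑ i ∈ s, (ω i : ℂ) * e (((l - j : ℕ) : ℝ) * φ i)‖ := by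
  rw [← fej_pair s ω φ γ l j hlj, ← RCLike.norm_conj, map_sum]
  congr 1
  refine sum_congr rfl fun i _ => ?_
  rw [map_mul, map_mul, Complex.conj_ofReal, ← e_neg, ← e_neg, neg_neg, mul_comm (e _) (e _)]

open Classical in
/-- Chunk FEJ. Fejér kernel `F_K x = ∑_{|k| < K} (1 - |k| / K) e (k x) = |∑_{j < K} e (j x)|^2 / K`,
`≥ 0`, and `≥ K / 4` if `nr x ≤ 1 / (8 K)`; `K = ⌈24 / c⌉`. -/
theorem fej {ι : Type*} (s : Finset ι) (ω φ : ι → ℝ) (γ T c : ℝ) (hω : ∀ i ∈ s, 0 ≤ ω i)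
    (hT : 0 < T) (hc : 0 < c) (hc1 : c ≤ 1) (K : ℕ) (hK : 24 ≤ c * K)
    (htot : ∑ i ∈ s, ω i ≤ 3 * T)
    (hconc : c * T ≤ ∑ i ∈ s.filter (fun i => nr (φ i - γ) ≤ 1 / (8 * K)), ω i) :
    ∃ k : ℕ, 1 ≤ k ∧ k < K ∧ T / K ≤ ‖∑ i ∈ s, (ω i : ℂ) * e (k * φ i)‖ := by
  by_contra hcon
  push Not at hcon
  have hK0 : 0 < K := by
    rcases Nat.eq_zero_or_pos K with h | h
    · subst h
      norm_num at hK
    · exact h
  have hK' : (0 : ℝ) < K := by exact_mod_cast hK0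
  set A : ι → ℝ := fun i => ‖∑ j ∈ range K, e (j * (φ i - γ))‖ ^ 2 with hA
  have hA0 : ∀ i, 0 ≤ A i := fun i => by positivity
  -- lower bound
  have hlow : (K : ℝ) ^ 2 / 4 * (c * T) ≤ ∑ i ∈ s, ω i * A i := by
    calc (K : ℝ) ^ 2 / 4 * (c * T)
        ≤ (K : ℝ) ^ 2 / 4 * ∑ i ∈ s.filter (fun i => nr (φ i - γ) ≤ 1 / (8 * K)), ω i :=
          mul_le_mul_of_nonneg_left hconc (by positivity)
      _ = ∑ i ∈ s.filter (fun i => nr (φ i - γ) ≤ 1 / (8 * K)), ω i * ((K : ℝ) ^ 2 / 4) := by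
          rw [mul_comm, sum_mul]
      _ ≤ ∑ i ∈ s.filter (fun i => nr (φ i - γ) ≤ 1 / (8 * K)), ω i * A i := by
          refine sum_le_sum fun i hi => ?_
          rw [mem_filter] at hi
          exact mul_le_mul_of_nonneg_left (fej_lower K hK0 _ hi.2) (hω i hi.1)
      _ ≤ ∑ i ∈ s, ω i * A i :=
          sum_le_sum_of_subset_of_nonneg (filter_subset _ _)
            fun i hi _ => mul_nonneg (hω i hi) (hA0 i)
  -- upper bound
  have hup : ∑ i ∈ s, ω i * A i ≤ 4 * K * T := by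
    have h1 : ((∑ i ∈ s, ω i * A i : ℝ) : ℂ) = ∑ j ∈ range K, ∑ l ∈ range K,
        ∑ i ∈ s, (ω i : ℂ) * (e (j * (φ i - γ)) * e (-(l * (φ i - γ)))) := by
      push_cast
      have h2 : ∀ i ∈ s, (ω i : ℂ) * ((A i : ℝ) : ℂ) = ∑ j ∈ range K, ∑ l ∈ range K,
          (ω i : ℂ) * (e (j * (φ i - γ)) * e (-(l * (φ i - γ)))) := by
        intro i _
        rw [hA]
        simp only []
        rw [fej_sq, mul_sum]
        refine sum_congr rfl fun j _ => ?_
        rw [mul_sum]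
      rw [sum_congr rfl h2, sum_comm]
      refine sum_congr rfl fun j _ => ?_
      rw [sum_comm]
    have h2 : ∑ i ∈ s, ω i * A i ≤ ‖((∑ i ∈ s, ω i * A i : ℝ) : ℂ)‖ := by
      rw [Complex.norm_real]
      exact le_abs_self _
    have hS0 : ∀ j ∈ range K, ∀ l ∈ range K,
        ‖∑ i ∈ s, (ω i : ℂ) * (e (j * (φ i - γ)) * e (-(l * (φ i - γ))))‖ ≤
          (if j = l then 3 * T else 0) + T / K := by
      intro j hj l hl
      rw [mem_range] at hj hl
      rcases lt_trichotomy j l with h | h | h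
      · rw [fej_pair' s ω φ γ j l h.le, if_neg h.ne, zero_add]
        exact (hcon (l - j) (by omega) (by omega)).le
      · rw [if_pos h]
        subst h
        rw [fej_pair s ω φ γ j j le_rfl, Nat.sub_self]
        simp only [Nat.cast_zero, zero_mul, e_zero, mul_one]
        rw [← Complex.ofReal_sum, Complex.norm_real, Real.norm_eq_abs,
          abs_of_nonneg (sum_nonneg hω)]
        have : 0 ≤ T / K := by positivity
        linarith
      · rw [fej_pair s ω φ γ j l h.le, if_neg h.ne', zero_add]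
        exact (hcon (j - l) (by omega) (by omega)).le
    calc ∑ i ∈ s, ω i * A i ≤ ‖((∑ i ∈ s, ω i * A i : ℝ) : ℂ)‖ := h2
      _ ≤ ∑ j ∈ range K, ∑ l ∈ range K,
          ‖∑ i ∈ s, (ω i : ℂ) * (e (j * (φ i - γ)) * e (-(l * (φ i - γ))))‖ := by
          rw [h1]
          exact (norm_sum_le _ _).trans (sum_le_sum fun j _ => norm_sum_le _ _)
      _ ≤ ∑ j ∈ range K, ∑ l ∈ range K, ((if j = l then 3 * T else 0) + T / K) :=
          sum_le_sum fun j hj => sum_le_sum fun l hl => hS0 j hj l hl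
      _ = ∑ j ∈ range K, (3 * T + K * (T / K)) := by
          refine sum_congr rfl fun j hj => ?_
          rw [sum_add_distrib, sum_ite_eq, if_pos hj, sum_const, card_range, nsmul_eq_mul]
      _ = 4 * K * T := by
          rw [sum_const, card_range, nsmul_eq_mul]
          field_simp
          ring
  have h3 := hlow.trans hup
  have h4 : (K : ℝ) * T * 6 ≤ (K : ℝ) ^ 2 / 4 * (c * T) := by
    have : (K : ℝ) ^ 2 / 4 * (c * T) = (K : ℝ) * T / 4 * (c * K) := by ring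
    rw [this]
    have h5 : 0 ≤ (K : ℝ) * T / 4 := by positivity
    nlinarith
  have h5 : 0 < (K : ℝ) * T := by positivity
  nlinarith

end Pool.Agent.Lib.H18GB
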