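import Pool.Agent.Lib.H18GB.STdefs

/-!
# Project GB: GC
-/

namespace Pool.Agent.Lib.H18GB

open Finset Pool.Agent.Lib.Sieve

lemma gc_card_dvd (E g : ℕ) (hg : 1 ≤ g) :
    ((Finset.Icc (-(E : ℤ)) E).filter fun a => a ≠ 0 ∧ (g : ℤ) ∣ a).card ≤ 2 * (E / g) := by
  have h1 : ((Finset.Icc (-(E : ℤ)) E).filter fun a => a ≠ 0 ∧ (g : ℤ) ∣ a) ⊆
      ((Finset.Icc (-((E / g : ℕ) : ℤ)) ((E / g : ℕ) : ℤ)).erase 0).image
        (fun k : ℤ => (g : ℤ) * k) := by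
    intro a ha
    rw [mem_filter, mem_Icc] at ha
    obtain ⟨⟨h1, h2⟩, h3, k, rfl⟩ := ha
    have hgz : (0 : ℤ) < g := by exact_mod_cast hg
    refine mem_image.2 ⟨k, ?_, rfl⟩
    rw [mem_erase, mem_Icc]
    refine ⟨fun h => h3 (by rw [h, mul_zero]), ?_, ?_⟩
    · have h4 : -k ≤ ((E / g : ℕ) : ℤ) := by
        rw [Int.natCast_div]
        rw [Int.le_ediv_iff_mul_le hgz]
        nlinarith
      linarith
    · rw [Int.natCast_div, Int.le_ediv_iff_mul_le hgz]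
      nlinarith
  refine (card_le_card h1).trans (card_image_le.trans ?_)
  have h0 : (0 : ℤ) ≤ ((E / g : ℕ) : ℤ) := Int.natCast_nonneg _
  rw [card_erase_of_mem (by rw [mem_Icc]; constructor <;> linarith), Int.card_Icc]
  generalize E / g = n
  omega

lemma gc_gcd_count (E g0 : ℕ) (hg0 : 1 ≤ g0) :
    ((((Finset.Icc (-(E : ℤ)) E) ×ˢ (Finset.Icc (-(E : ℤ)) E)).filter
      fun q : ℤ × ℤ => q.1 ≠ 0 ∧ q.2 ≠ 0 ∧ g0 < Int.gcd q.1 q.2).card : ℝ) ≤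
      4 * (E : ℝ) ^ 2 / g0 := by
  have h1 : (((Finset.Icc (-(E : ℤ)) E) ×ˢ (Finset.Icc (-(E : ℤ)) E)).filter
      fun q : ℤ × ℤ => q.1 ≠ 0 ∧ q.2 ≠ 0 ∧ g0 < Int.gcd q.1 q.2) ⊆
      (Finset.Ioc g0 E).biUnion fun g =>
        ((Finset.Icc (-(E : ℤ)) E).filter fun a => a ≠ 0 ∧ (g : ℤ) ∣ a) ×ˢ
        ((Finset.Icc (-(E : ℤ)) E).filter fun a => a ≠ 0 ∧ (g : ℤ) ∣ a) := by
    rintro ⟨a, b⟩ hq
    simp only [mem_filter, mem_product] at hq
    obtain ⟨⟨ha, hb⟩, ha0, hb0, hg⟩ := hq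
    rw [mem_biUnion]
    refine ⟨Int.gcd a b, ?_, ?_⟩
    · rw [mem_Ioc]
      refine ⟨hg, ?_⟩
      have h2 : (Int.gcd a b) ∣ a.natAbs := Int.gcd_dvd_natAbs_left a b
      have h3 := Nat.le_of_dvd (Int.natAbs_pos.2 ha0) h2
      rw [mem_Icc] at ha
      omega
    · rw [mem_product, mem_filter, mem_filter]
      exact ⟨⟨ha, ha0, Int.gcd_dvd_left ..⟩, ⟨hb, hb0, Int.gcd_dvd_right ..⟩⟩
  have hg0' : (0 : ℝ) < g0 := by exact_mod_cast hg0
  have h2 : ((((Finset.Icc (-(E : ℤ)) E) ×ˢ (Finset.Icc (-(E : ℤ)) E)).filter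
      fun q : ℤ × ℤ => q.1 ≠ 0 ∧ q.2 ≠ 0 ∧ g0 < Int.gcd q.1 q.2).card : ℝ) ≤
      ∑ g ∈ Finset.Ioc g0 E, 4 * (E : ℝ) ^ 2 * ((g : ℝ) ^ 2)⁻¹ := by
    calc ((((Finset.Icc (-(E : ℤ)) E) ×ˢ (Finset.Icc (-(E : ℤ)) E)).filter
          fun q : ℤ × ℤ => q.1 ≠ 0 ∧ q.2 ≠ 0 ∧ g0 < Int.gcd q.1 q.2).card : ℝ)
        ≤ (((Finset.Ioc g0 E).biUnion fun g =>
          ((Finset.Icc (-(E : ℤ)) E).filter fun a => a ≠ 0 ∧ (g : ℤ) ∣ a) ×ˢ
          ((Finset.Icc (-(E : ℤ)) E).filter fun a => a ≠ 0 ∧ (g : ℤ) ∣ a)).card : ℝ) := by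
          exact_mod_cast card_le_card h1
      _ ≤ ((∑ g ∈ Finset.Ioc g0 E,
          (((Finset.Icc (-(E : ℤ)) E).filter fun a => a ≠ 0 ∧ (g : ℤ) ∣ a) ×ˢ
          ((Finset.Icc (-(E : ℤ)) E).filter fun a => a ≠ 0 ∧ (g : ℤ) ∣ a)).card : ℕ) : ℝ) := by
          exact_mod_cast card_biUnion_le
      _ ≤ ∑ g ∈ Finset.Ioc g0 E, 4 * (E : ℝ) ^ 2 * ((g : ℝ) ^ 2)⁻¹ := by
          push_cast
          refine sum_le_sum fun g hg => ?_
          rw [mem_Ioc] at hg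
          have hg1 : 1 ≤ g := by omega
          have hg' : (0 : ℝ) < g := by exact_mod_cast hg1
          rw [card_product]
          have h3 := gc_card_dvd E g hg1
          have h4 : ((((Finset.Icc (-(E : ℤ)) E).filter
              fun a => a ≠ 0 ∧ (g : ℤ) ∣ a).card : ℕ) : ℝ) ≤ 2 * (E / g) := by
            calc ((((Finset.Icc (-(E : ℤ)) E).filter
                fun a => a ≠ 0 ∧ (g : ℤ) ∣ a).card : ℕ) : ℝ) ≤ ((2 * (E / g) : ℕ) : ℝ) := by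
                  exact_mod_cast h3
              _ ≤ 2 * (E / g) := by
                  push_cast
                  have := @Nat.cast_div_le ℝ _ _ _ E g
                  linarith
          have h5 : (0 : ℝ) ≤ ((((Finset.Icc (-(E : ℤ)) E).filter
              fun a => a ≠ 0 ∧ (g : ℤ) ∣ a).card : ℕ) : ℝ) := Nat.cast_nonneg _
          push_cast
          calc _ ≤ (2 * ((E : ℝ) / g)) * (2 * (E / g)) :=
                mul_le_mul h4 h4 h5 (by positivity)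
            _ = 4 * (E : ℝ) ^ 2 * ((g : ℝ) ^ 2)⁻¹ := by field_simp; ring
  refine h2.trans ?_
  rcases le_or_gt g0 E with h | h
  · rw [← mul_sum]
    have h3 := sum_Ioc_inv_sq_le_sub (α := ℝ) (k := g0) (n := E) (by omega) h
    have h4 : (0 : ℝ) ≤ (E : ℝ)⁻¹ := by positivity
    have h5 : (0 : ℝ) ≤ 4 * (E : ℝ) ^ 2 := by positivity
    calc 4 * (E : ℝ) ^ 2 * ∑ i ∈ Finset.Ioc g0 E, ((i : ℝ) ^ 2)⁻¹
        ≤ 4 * (E : ℝ) ^ 2 * (g0 : ℝ)⁻¹ := mul_le_mul_of_nonneg_left (by linarith) h5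
      _ = 4 * (E : ℝ) ^ 2 / g0 := by rw [div_eq_mul_inv]
  · rw [Finset.Ioc_eq_empty (by omega), sum_empty]
    positivity

lemma gc_progress (L m : ℕ) (hm : 1 ≤ m) (S : Finset ℤ)
    (hS : S ⊆ Finset.Icc (-(L : ℤ)) L) (hd : ∀ x ∈ S, ∀ y ∈ S, (m : ℤ) ∣ x - y) :
    (S.card : ℝ) ≤ 2 * L / m + 1 := by
  have hm' : (0 : ℝ) < m := by exact_mod_cast hm
  rcases S.eq_empty_or_nonempty with h | h
  · subst h
    simp only [card_empty, Nat.cast_zero]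
    positivity
  · set x0 := S.min' h with hx0
    have hx0S : x0 ∈ S := S.min'_mem h
    have h1 : S ⊆ (Finset.range (2 * L / m + 1)).image (fun k : ℕ => x0 + m * k) := by
      intro x hx
      obtain ⟨k, hk⟩ := hd x hx x0 hx0S
      have h2 : x0 ≤ x := S.min'_le x hx
      have h3 := mem_Icc.1 (hS hx)
      have h4 := mem_Icc.1 (hS hx0S)
      have hmz : (0 : ℤ) < m := by exact_mod_cast hm
      have hk0 : 0 ≤ k := by
        by_contra hneg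
        push Not at hneg
        nlinarith
      obtain ⟨n, rfl⟩ := Int.eq_ofNat_of_zero_le hk0
      refine mem_image.2 ⟨n, ?_, by linarith⟩
      rw [mem_range, Nat.lt_succ_iff, Nat.le_div_iff_mul_le (by omega)]
      have h5 : (m : ℤ) * n ≤ 2 * L := by linarith
      have h6 : m * n ≤ 2 * L := by exact_mod_cast h5
      rw [mul_comm]; exact h6
    have h2 := (card_le_card h1).trans card_image_le
    rw [card_range] at h2
    have h3 : (S.card : ℝ) ≤ ((2 * L / m + 1 : ℕ) : ℝ) := by exact_mod_cast h2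
    refine h3.trans ?_
    push_cast
    have := @Nat.cast_div_le ℝ _ _ _ (2 * L) m
    push_cast at this
    linarith

/-- the fibre of the map, for fixed `e, e2` -/
lemma gc_fib_t (L g0 : ℕ) (hg0 : 1 ≤ g0) (a b u v : ℤ) (W : ℕ) (hW : 1 ≤ W) (ha : a ≠ 0)
    (hb : b ≠ 0)
    (hg : Int.gcd a b ≤ g0) (S : Finset ℤ) (hS : S ⊆ Finset.Icc (-(L : ℤ)) L)
    (hd : ∀ t ∈ S, ∃ t2 : ℤ, u + t * (W * a) = v + t2 * (W * b)) :
    (S.card : ℝ) ≤ 2 * L * g0 / b.natAbs + 1 := by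
  have hgpos : 0 < Int.gcd a b := Int.gcd_pos_of_ne_zero_left _ ha
  have hb' : 0 < b.natAbs := Int.natAbs_pos.2 hb
  have hdvd : Int.gcd a b ∣ b.natAbs := Int.gcd_dvd_natAbs_right a b
  obtain ⟨m, hm⟩ := hdvd
  have hm1 : 1 ≤ m := by
    rcases Nat.eq_zero_or_pos m with h | h
    · subst h; omega
    · exact h
  have hW' : (W : ℤ) ≠ 0 := by exact_mod_cast (by omega : W ≠ 0)
  have h1 : ∀ x ∈ S, ∀ y ∈ S, (m : ℤ) ∣ x - y := by
    intro x hx y hy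
    obtain ⟨t, ht⟩ := hd x hx
    obtain ⟨t', ht'⟩ := hd y hy
    have h2 : (W : ℤ) * ((x - y) * a) = W * ((t - t') * b) := by linear_combination ht - ht'
    have h3 : (x - y) * a = (t - t') * b := mul_left_cancel₀ hW' h2
    have h4 : b ∣ (x - y) * a := ⟨t - t', by rw [h3]; ring⟩
    -- natAbs
    have h5 : b.natAbs ∣ (x - y).natAbs * a.natAbs := by
      rw [← Int.natAbs_mul]; exact Int.natAbs_dvd_natAbs.2 h4
    have h6 : b.natAbs / Int.gcd a b ∣ (x - y).natAbs := by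
      have h7 : Nat.gcd b.natAbs a.natAbs = Int.gcd a b := by
        rw [Nat.gcd_comm]; rfl
      have h8 := Nat.Coprime.dvd_of_dvd_mul_right
        (Nat.coprime_div_gcd_div_gcd (m := b.natAbs) (n := a.natAbs) (by rw [h7]; exact hgpos))
        (k := b.natAbs / Nat.gcd b.natAbs a.natAbs) (m := (x - y).natAbs)
        (n := a.natAbs / Nat.gcd b.natAbs a.natAbs)
      rw [h7] at h8
      apply h8
      have h9 : Int.gcd a b ∣ a.natAbs := Int.gcd_dvd_natAbs_left a b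
      obtain ⟨a', ha'⟩ := h9
      rw [hm, ha', Nat.mul_div_cancel_left _ hgpos, Nat.mul_div_cancel_left _ hgpos]
      rw [hm, ha'] at h5
      have h10 : Int.gcd a b * m ∣ Int.gcd a b * ((x - y).natAbs * a') := by
        convert h5 using 1; ring
      exact Nat.dvd_of_mul_dvd_mul_left hgpos h10
    rw [hm, Nat.mul_div_cancel_left _ hgpos] at h6
    exact Int.natCast_dvd.2 h6
  refine (gc_progress L m hm1 S hS h1).trans ?_
  have hb'' : (0 : ℝ) < b.natAbs := by exact_mod_cast hb'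
  have hm' : (0 : ℝ) < m := by exact_mod_cast hm1
  have h2 : (b.natAbs : ℝ) ≤ g0 * m := by
    rw [hm]; push_cast
    exact mul_le_mul_of_nonneg_right (by exact_mod_cast hg) hm'.le
  have h3 : (2 * L / m : ℝ) ≤ 2 * L * g0 / b.natAbs := by
    rw [div_le_div_iff₀ hm' hb'']
    have : (0 : ℝ) ≤ 2 * L := by positivity
    nlinarith
  linarith

/-- the number of `e` with `0 < |e| ≤ |e2|` -/
lemma gc_card_small (b : ℤ) :
    (((Finset.Icc (-|b|) |b|).erase 0).card : ℝ) ≤ 2 * b.natAbs := by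
  rw [card_erase_of_mem (by simp), Int.card_Icc]
  have : (|b| + 1 - -|b|).toNat - 1 = 2 * b.natAbs := by
    rw [Int.abs_eq_natAbs]; omega
  rw [this]; push_cast; exact le_rfl

open Classical in
/-- the total size of a fibre -/
lemma gc_fib (E L g0 : ℕ) (hg0 : 1 ≤ g0) (W : ℕ) (hW : 1 ≤ W) (u v : ℤ)
    (F : Finset ((ℤ × (ℤ × ℤ)) × (ℤ × (ℤ × ℤ))))
    (h1 : ∀ q ∈ F, q.1.1 ∈ Finset.Icc (-(L : ℤ)) L)
    (h3 : ∀ q ∈ F, q.1.2.2 ≠ 0)
    (h4 : ∀ q ∈ F, q.2.2.2 ≠ 0)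
    (h5 : ∀ q ∈ F, q.2.2.2 ∈ Finset.Icc (-(E : ℤ)) E)
    (h6 : ∀ q ∈ F, |q.1.2.2| ≤ |q.2.2.2|)
    (h7 : ∀ q ∈ F, Int.gcd q.1.2.2 q.2.2.2 ≤ g0)
    (h8 : ∀ q ∈ F, q.1.2.1 = q.2.2.1)
    (h9 : ∀ q ∈ F, q.1.2.1 - q.1.1 * (W * q.1.2.2) = u)
    (h10 : ∀ q ∈ F, q.2.2.1 - q.2.1 * (W * q.2.2.2) = v) :
    (F.card : ℝ) ≤ 8 * g0 * (E * L) + 4 * (E : ℝ) ^ 2 := by
  -- inject into triples
  set G : Finset (ℤ × (ℤ × ℤ)) := F.image (fun q => (q.2.2.2, (q.1.2.2, q.1.1))) with hG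
  have hW' : (W : ℤ) ≠ 0 := by exact_mod_cast (by omega : W ≠ 0)
  have hinj : Set.InjOn (fun q : (ℤ × (ℤ × ℤ)) × (ℤ × (ℤ × ℤ)) =>
      (q.2.2.2, (q.1.2.2, q.1.1))) (F : Set ((ℤ × (ℤ × ℤ)) × (ℤ × (ℤ × ℤ)))) := by
    rintro ⟨⟨t, h, a⟩, ⟨t2, h2, b⟩⟩ hq ⟨⟨t', h', a'⟩, ⟨t2', h2', b'⟩⟩ hq' heq
    have k8 := h8 _ hq
    have k8' := h8 _ hq'
    have k9 := h9 _ hq
    have k9' := h9 _ hq'
    have k10 := h10 _ hq
    have k10' := h10 _ hq'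
    have k4 := h4 _ hq
    simp only [Prod.mk.injEq] at heq k8 k8' k9 k9' k10 k10' k4 ⊢
    obtain ⟨rfl, rfl, rfl⟩ := heq
    have e1 : h = h' := by linarith
    subst e1
    have e2 : h2 = h2' := by rw [← k8, ← k8']
    subst e2
    have e3 : t2 * (W * b) = t2' * (W * b) := by linarith
    have e4 : t2 = t2' := mul_right_cancel₀ (mul_ne_zero hW' k4) e3
    subst e4
    simp
  have hcard : F.card = G.card := by rw [hG, card_image_of_injOn hinj]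
  rw [hcard]
  -- fibre over b
  have hb : ∀ x ∈ G, x.1 ∈ (Finset.Icc (-(E : ℤ)) E).erase 0 := by
    intro x hx
    obtain ⟨q, hq, rfl⟩ := mem_image.1 hx
    exact mem_erase.2 ⟨h4 q hq, h5 q hq⟩
  rw [card_eq_sum_card_fiberwise hb]
  push_cast
  have hfb : ∀ b ∈ (Finset.Icc (-(E : ℤ)) E).erase 0,
      (((G.filter fun x => x.1 = b).card : ℕ) : ℝ) ≤ 4 * L * g0 + 2 * E := by
    intro b hbE
    rw [mem_erase, mem_Icc] at hbE
    obtain ⟨hb0, hbE1, hbE2⟩ := hbE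
    have hbpos : (0 : ℝ) < b.natAbs := by exact_mod_cast Int.natAbs_pos.2 hb0
    have ha : ∀ x ∈ G.filter (fun x => x.1 = b), x.2.1 ∈ (Finset.Icc (-|b|) |b|).erase 0 := by
      intro x hx
      rw [mem_filter] at hx
      obtain ⟨hx1, hx2⟩ := hx
      obtain ⟨q, hq, rfl⟩ := mem_image.1 hx1
      simp only at hx2 ⊢
      rw [mem_erase, mem_Icc, ← abs_le, ← hx2]
      exact ⟨h3 q hq, h6 q hq⟩
    rw [card_eq_sum_card_fiberwise ha]
    push_cast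
    have hfa : ∀ a ∈ (Finset.Icc (-|b|) |b|).erase 0,
        ((((G.filter fun x => x.1 = b).filter fun x => x.2.1 = a).card : ℕ) : ℝ) ≤
          2 * L * g0 / b.natAbs + 1 := by
      intro a haE
      rw [mem_erase] at haE
      set S : Finset ℤ := (((G.filter fun x => x.1 = b).filter fun x => x.2.1 = a)).image
        (fun x => x.2.2) with hS
      have hSc : ((G.filter fun x => x.1 = b).filter fun x => x.2.1 = a).card = S.card := by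
        rw [hS, card_image_of_injOn]
        rintro ⟨x1, x2, x3⟩ hx ⟨y1, y2, y3⟩ hy hxy
        simp only [coe_filter, Set.mem_ofPred_eq, mem_filter] at hx hy hxy
        obtain ⟨⟨_, rfl⟩, rfl⟩ := hx
        obtain ⟨⟨_, rfl⟩, rfl⟩ := hy
        rw [hxy]
      rw [hSc]
      rcases S.eq_empty_or_nonempty with hem | hne
      · rw [hem, card_empty, Nat.cast_zero]; positivity
      · have key : ∀ t ∈ S, ∃ q ∈ F, q.2.2.2 = b ∧ q.1.2.2 = a ∧ q.1.1 = t := by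
          intro t ht
          obtain ⟨x, hx, rfl⟩ := mem_image.1 ht
          rw [mem_filter, mem_filter] at hx
          obtain ⟨⟨hx1, hx2⟩, hx3⟩ := hx
          obtain ⟨q, hq, rfl⟩ := mem_image.1 hx1
          exact ⟨q, hq, hx2, hx3, rfl⟩
        have hgab : Int.gcd a b ≤ g0 := by
          obtain ⟨t, ht⟩ := hne
          obtain ⟨q, hq, rfl, rfl, -⟩ := key t ht
          exact h7 q hq
        refine gc_fib_t L g0 hg0 a b u v W hW haE.1 hb0 hgab S ?_ ?_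
        · intro t ht
          obtain ⟨q, hq, -, -, rfl⟩ := key t ht
          exact h1 q hq
        · intro t ht
          obtain ⟨q, hq, rfl, rfl, rfl⟩ := key t ht
          refine ⟨q.2.1, ?_⟩
          have k8 := h8 q hq
          have k9 := h9 q hq
          have k10 := h10 q hq
          linarith
    calc ∑ a ∈ (Finset.Icc (-|b|) |b|).erase 0,
        ((((G.filter fun x => x.1 = b).filter fun x => x.2.1 = a).card : ℕ) : ℝ)
        ≤ ∑ a ∈ (Finset.Icc (-|b|) |b|).erase 0, (2 * L * g0 / (b.natAbs : ℝ) + 1) :=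
          sum_le_sum hfa
      _ = (((Finset.Icc (-|b|) |b|).erase 0).card : ℝ) * (2 * L * g0 / (b.natAbs : ℝ) + 1) := by
          rw [sum_const, nsmul_eq_mul]
      _ ≤ (2 * b.natAbs) * (2 * L * g0 / (b.natAbs : ℝ) + 1) :=
          mul_le_mul_of_nonneg_right (gc_card_small b) (by positivity)
      _ = 4 * L * g0 + 2 * b.natAbs := by field_simp; ring
      _ ≤ 4 * L * g0 + 2 * E := by
          have : b.natAbs ≤ E := by omega
          have : (b.natAbs : ℝ) ≤ E := by exact_mod_cast this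
          linarith
  calc ∑ b ∈ (Finset.Icc (-(E : ℤ)) E).erase 0, (((G.filter fun x => x.1 = b).card : ℕ) : ℝ)
      ≤ ∑ b ∈ (Finset.Icc (-(E : ℤ)) E).erase 0, (4 * L * g0 + 2 * E : ℝ) := sum_le_sum hfb
    _ = (((Finset.Icc (-(E : ℤ)) E).erase 0).card : ℝ) * (4 * L * g0 + 2 * E) := by
        rw [sum_const, nsmul_eq_mul]
    _ ≤ (2 * E) * (4 * L * g0 + 2 * E) := by
        refine mul_le_mul_of_nonneg_right ?_ (by positivity)
        rw [card_erase_of_mem (by simp), Int.card_Icc]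
        have : ((E : ℤ) + 1 - -(E : ℤ)).toNat - 1 = 2 * E := by omega
        rw [this]; push_cast; exact le_rfl
    _ = 8 * g0 * (E * L) + 4 * (E : ℝ) ^ 2 := by ring

/-- Cauchy-Schwarz -/
lemma gc_cs (H : Finset ℤ) (T : Finset (ℤ × (ℤ × ℤ))) (hT : ∀ q ∈ T, q.2.1 ∈ H) :
    (T.card : ℝ) ^ 2 ≤ H.card * (((T ×ˢ T).filter fun q => q.1.2.1 = q.2.2.1).card : ℝ) := by
  have h1 : (T.card : ℝ) = ∑ h ∈ H, ((T.filter fun q => q.2.1 = h).card : ℝ) := by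
    rw [card_eq_sum_card_fiberwise hT]
    push_cast
    rfl
  have h2 : ∀ q ∈ (T ×ˢ T).filter (fun q => q.1.2.1 = q.2.2.1), q.1.2.1 ∈ H := by
    intro q hq
    rw [mem_filter, mem_product] at hq
    exact hT _ hq.1.1
  have h3 : (((T ×ˢ T).filter fun q => q.1.2.1 = q.2.2.1).card : ℝ) =
      ∑ h ∈ H, ((T.filter fun q => q.2.1 = h).card : ℝ) ^ 2 := by
    rw [card_eq_sum_card_fiberwise h2]
    push_cast
    refine sum_congr rfl fun h _ => ?_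
    rw [sq, ← Nat.cast_mul, ← card_product]
    congr 2
    ext q
    simp only [mem_filter, mem_product]
    constructor
    · rintro ⟨⟨⟨a, b⟩, c⟩, d⟩
      exact ⟨⟨a, d⟩, b, by rw [← c, d]⟩
    · rintro ⟨⟨a, b⟩, c, d⟩
      exact ⟨⟨⟨a, c⟩, by rw [b, d]⟩, b⟩
  rw [h1, h3]
  exact sq_sum_le_card_mul_sum_sq

open Classical in
/-- the pairs with large gcd -/
lemma gc_bad (W M B g0 : ℕ) (hg0 : 1 ≤ g0) (hW : 1 ≤ W) (hWB : W ≤ B) (hBM : B ^ 2 ≤ M)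
    (T : Finset (ℤ × (ℤ × ℤ)))
    (h1 : ∀ q ∈ T, q.1 ∈ Finset.Icc (-((M / B : ℕ) : ℤ)) ((M / B : ℕ) : ℤ))
    (h2 : ∀ q ∈ T, q.2.1 ∈ Finset.Ioo (-(M : ℤ)) M)
    (h3 : ∀ q ∈ T, q.2.2 ∈ Finset.Icc (-((B / W : ℕ) : ℤ)) ((B / W : ℕ) : ℤ))
    (h4 : ∀ q ∈ T, q.2.2 ≠ 0) :
    ((((T ×ˢ T).filter fun q => q.1.2.1 = q.2.2.1).filter
      fun q => g0 < Int.gcd q.1.2.2 q.2.2.2).card : ℝ) ≤ 72 * (M : ℝ) ^ 3 / W ^ 2 / g0 := by
  have hB : 1 ≤ B := hW.trans hWB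
  have hM : 1 ≤ M := by nlinarith
  set L : ℕ := M / B with hL
  set E : ℕ := B / W with hE
  have hL1 : 1 ≤ L := by
    rw [hL, Nat.le_div_iff_mul_le (by omega)]
    nlinarith
  set G := (((Finset.Icc (-(E : ℤ)) E) ×ˢ (Finset.Icc (-(E : ℤ)) E)).filter
      fun q : ℤ × ℤ => q.1 ≠ 0 ∧ q.2 ≠ 0 ∧ g0 < Int.gcd q.1 q.2) with hG
  set F := ((T ×ˢ T).filter fun q => q.1.2.1 = q.2.2.1).filter
      (fun q => g0 < Int.gcd q.1.2.2 q.2.2.2) with hF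
  have hcard : F.card ≤ ((Finset.Ioo (-(M : ℤ)) M) ×ˢ
      ((Finset.Icc (-(L : ℤ)) L ×ˢ Finset.Icc (-(L : ℤ)) L) ×ˢ G)).card := by
    refine card_le_card_of_injOn
      (fun q => (q.1.2.1, ((q.1.1, q.2.1), (q.1.2.2, q.2.2.2)))) ?_ ?_
    · intro q hq
      rw [mem_coe, hF, mem_filter, mem_filter, mem_product] at hq
      obtain ⟨⟨⟨k1, k2⟩, -⟩, k3⟩ := hq
      rw [mem_coe, mem_product, mem_product, mem_product, hG, mem_filter, mem_product]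
      exact ⟨h2 _ k1, ⟨h1 _ k1, h1 _ k2⟩, ⟨h3 _ k1, h3 _ k2⟩, h4 _ k1, h4 _ k2, k3⟩
    · rintro ⟨⟨t, h, a⟩, ⟨t2, h2, b⟩⟩ hq ⟨⟨t', h', a'⟩, ⟨t2', h2', b'⟩⟩ hq' heq
      rw [mem_coe, hF, mem_filter, mem_filter] at hq hq'
      have k8 := hq.1.2
      have k8' := hq'.1.2
      simp only [Prod.mk.injEq] at heq k8 k8' ⊢
      obtain ⟨rfl, ⟨rfl, rfl⟩, rfl, rfl⟩ := heq
      exact ⟨⟨rfl, rfl, rfl⟩, rfl, by rw [← k8, ← k8'], rfl⟩
  rw [card_product, card_product, card_product] at hcard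
  have hGc := gc_gcd_count E g0 hg0
  rw [← hG] at hGc
  have hMr : (1 : ℝ) ≤ M := by exact_mod_cast hM
  have hBr : (1 : ℝ) ≤ B := by exact_mod_cast hB
  have hWr : (1 : ℝ) ≤ W := by exact_mod_cast hW
  have hLr : (1 : ℝ) ≤ L := by exact_mod_cast hL1
  have hg0r : (1 : ℝ) ≤ g0 := by exact_mod_cast hg0
  have c1 : ((Finset.Ioo (-(M : ℤ)) M).card : ℝ) ≤ 2 * M := by
    rw [Int.card_Ioo]
    have : ((M : ℤ) - -(M : ℤ) - 1).toNat ≤ 2 * M := by omega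
    exact_mod_cast this
  have c2 : ((Finset.Icc (-(L : ℤ)) L).card : ℝ) ≤ 3 * (M / B) := by
    rw [Int.card_Icc]
    have : ((L : ℤ) + 1 - -(L : ℤ)).toNat = 2 * L + 1 := by omega
    rw [this]
    have h5 : (L : ℝ) ≤ M / B := Nat.cast_div_le
    push_cast
    linarith
  have c3 : (G.card : ℝ) ≤ 4 * (B / W : ℝ) ^ 2 / g0 := by
    refine hGc.trans ?_
    have h5 : (E : ℝ) ≤ B / W := Nat.cast_div_le
    gcongr
  calc (F.card : ℝ) ≤ (((Finset.Ioo (-(M : ℤ)) M).card *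
        ((Finset.Icc (-(L : ℤ)) L).card * (Finset.Icc (-(L : ℤ)) L).card * G.card) : ℕ) : ℝ) := by
        exact_mod_cast hcard
    _ ≤ (2 * M) * ((3 * (M / B)) * (3 * (M / B)) * (4 * (B / W : ℝ) ^ 2 / g0)) := by
        push_cast
        gcongr
    _ = 72 * (M : ℝ) ^ 3 / W ^ 2 / g0 := by
        field_simp
        ring

open Classical in
/-- Chunk GC (purely combinatorial). Remove the triples... : for each `h1` let `D(h1)` be the set of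
`(t, e')`; by Cauchy-Schwarz there are `≥ (c^2/2) M^3 / W^2` quintuples `(h1, t, e', t2, e2')`, and
those with `gcd(e', e2') > g0` are `≤ C M^3 / (W^2 g0)`. Map to `(h, h') =
(h1 - t W e', h1 - t2 W e2')`: `θ h - θ h'` is in `Near Q W (2T) M`, `W ∣ h - h'`, and each pair
`(h, h')` has at most `C g0 M / W` preimages: for fixed `(e', e2')` with gcd `g ≤ g0` the solutions of
`t2 e2' - t e' = d` number at most `2 (M/B) g / max(|e'|,|e2'|) + 1`, and `(B / W)^2 ≤ M / W`. -/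
theorem gc (c : ℝ) (hc : 0 < c) : ∃ c' : ℝ, 0 < c' ∧ ∀ (W B M Q T : ℕ), 1 ≤ W → W ≤ B →
    B ^ 2 ≤ M → 1 ≤ Q → ∀ (H : Finset ℤ) (θ : ℤ → ℝ), H ⊆ Finset.Ioo (-(M : ℤ)) M →
    c * M ^ 2 / W ≤ (((Tset W M B H).filter fun q =>
      Near Q W T M (θ q.2.1 - θ (q.2.1 - q.1 * (W * q.2.2)))).card : ℝ) →
    c' * M ^ 2 / W ≤ (((H ×ˢ H).filter fun q =>
      (W : ℤ) ∣ q.1 - q.2 ∧ Near Q W (2 * T) M (θ q.1 - θ q.2)).card : ℝ) := by
  set g0 : ℕ := ⌈576 / c ^ 2⌉₊ with hg0def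
  have hg0a : 576 / c ^ 2 ≤ g0 := Nat.le_ceil _
  have hg0 : 1 ≤ g0 := by
    rw [hg0def, Nat.one_le_ceil_iff]
    positivity
  have hg0r : (1 : ℝ) ≤ g0 := by exact_mod_cast hg0
  refine ⟨c ^ 2 / (8 * (8 * g0 + 4)), by positivity, ?_⟩
  intro W B M Q T hW hWB hBM hQ H θ hH hmain
  have hB : 1 ≤ B := hW.trans hWB
  have hM : 1 ≤ M := by nlinarith
  have hMr : (1 : ℝ) ≤ M := by exact_mod_cast hM
  have hBr : (1 : ℝ) ≤ B := by exact_mod_cast hB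
  have hWr : (1 : ℝ) ≤ W := by exact_mod_cast hW
  have hBMr : (B : ℝ) ^ 2 ≤ M := by exact_mod_cast hBM
  have hWBr : (W : ℝ) ≤ B := by exact_mod_cast hWB
  set 𝒯 := (Tset W M B H).filter fun q =>
      Near Q W T M (θ q.2.1 - θ (q.2.1 - q.1 * (W * q.2.2))) with h𝒯
  have hT0 : ∀ q ∈ 𝒯, (q.1 ∈ Finset.Icc (-((M / B : ℕ) : ℤ)) ((M / B : ℕ) : ℤ) ∧ q.2.1 ∈ H ∧
      q.2.2 ∈ Finset.Icc (-((B / W : ℕ) : ℤ)) ((B / W : ℕ) : ℤ)) ∧ q.2.2 ≠ 0 ∧
      q.2.1 - q.1 * (W * q.2.2) ∈ H ∧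
      Near Q W T M (θ q.2.1 - θ (q.2.1 - q.1 * (W * q.2.2))) := by
    intro q hq
    rw [h𝒯, mem_filter] at hq
    obtain ⟨hq1, hq2⟩ := hq
    unfold Tset at hq1
    rw [mem_filter, mem_product, mem_product] at hq1
    exact ⟨⟨hq1.1.1, hq1.1.2.1, hq1.1.2.2⟩, hq1.2.2.1, hq1.2.2.2, hq2⟩
  set 𝒬 := (𝒯 ×ˢ 𝒯).filter fun q => q.1.2.1 = q.2.2.1 with h𝒬
  have hcs := gc_cs H 𝒯 (fun q hq => (hT0 q hq).1.2.1)
  rw [← h𝒬] at hcs
  have hHc : (H.card : ℝ) ≤ 2 * M := by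
    have h1 := card_le_card hH
    rw [Int.card_Ioo] at h1
    have : H.card ≤ 2 * M := by omega
    exact_mod_cast this
  -- lower bound for 𝒬
  have hQ1 : c ^ 2 / 2 * M ^ 3 / W ^ 2 ≤ (𝒬.card : ℝ) := by
    have h1 : (c * M ^ 2 / W) ^ 2 ≤ (𝒯.card : ℝ) ^ 2 := by
      have : 0 ≤ c * (M : ℝ) ^ 2 / W := by positivity
      gcongr
    have h2 : (c * (M : ℝ) ^ 2 / W) ^ 2 ≤ 2 * M * 𝒬.card :=
      h1.trans (hcs.trans (mul_le_mul_of_nonneg_right hHc (Nat.cast_nonneg _)))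
    have h3 : (c * (M : ℝ) ^ 2 / W) ^ 2 = 2 * M * (c ^ 2 / 2 * M ^ 3 / W ^ 2) := by
      field_simp
    rw [h3] at h2
    exact le_of_mul_le_mul_left h2 (by positivity)
  -- symmetry
  set 𝒬l := 𝒬.filter fun q => |q.1.2.2| ≤ |q.2.2.2| with h𝒬l
  have hQ2 : 𝒬.card ≤ 2 * 𝒬l.card := by
    have h1 : 𝒬 ⊆ 𝒬l ∪ 𝒬l.image Prod.swap := by
      intro q hq
      rw [mem_union]
      rcases le_total |q.1.2.2| |q.2.2.2| with h | h
      · left
        exact mem_filter.2 ⟨hq, h⟩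
      · right
        refine mem_image.2 ⟨q.swap, ?_, Prod.swap_swap q⟩
        rw [h𝒬l, mem_filter]
        refine ⟨?_, h⟩
        rw [h𝒬, mem_filter, mem_product] at hq ⊢
        exact ⟨⟨hq.1.2, hq.1.1⟩, hq.2.symm⟩
    calc 𝒬.card ≤ (𝒬l ∪ 𝒬l.image Prod.swap).card := card_le_card h1
      _ ≤ 𝒬l.card + (𝒬l.image Prod.swap).card := card_union_le _ _
      _ ≤ 𝒬l.card + 𝒬l.card := Nat.add_le_add_left card_image_le _
      _ = 2 * 𝒬l.card := by ring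
  -- the good part
  set 𝒬g := 𝒬l.filter fun q => Int.gcd q.1.2.2 q.2.2.2 ≤ g0 with h𝒬g
  set 𝒬b := 𝒬.filter fun q => g0 < Int.gcd q.1.2.2 q.2.2.2 with h𝒬b
  have hQ3 : 𝒬l.card ≤ 𝒬g.card + 𝒬b.card := by
    have h1 : 𝒬l ⊆ 𝒬g ∪ 𝒬b := by
      intro q hq
      rw [mem_union]
      rcases le_or_gt (Int.gcd q.1.2.2 q.2.2.2) g0 with h | h
      · left; exact mem_filter.2 ⟨hq, h⟩
      · right; exact mem_filter.2 ⟨(mem_filter.1 hq).1, h⟩
    exact (card_le_card h1).trans (card_union_le _ _)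
  have hQb : (𝒬b.card : ℝ) ≤ 72 * (M : ℝ) ^ 3 / W ^ 2 / g0 :=
    gc_bad W M B g0 hg0 hW hWB hBM 𝒯 (fun q hq => (hT0 q hq).1.1)
      (fun q hq => hH (hT0 q hq).1.2.1) (fun q hq => (hT0 q hq).1.2.2)
      (fun q hq => (hT0 q hq).2.1)
  have hQb2 : 72 * (M : ℝ) ^ 3 / W ^ 2 / g0 ≤ c ^ 2 / 8 * M ^ 3 / W ^ 2 := by
    rw [div_le_iff₀ (by positivity)] at hg0a ⊢
    rw [div_mul_eq_mul_div]
    gcongr ?_ / _
    have h1 : 0 ≤ (M : ℝ) ^ 3 := by positivity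
    nlinarith
  have hQg : c ^ 2 / 8 * M ^ 3 / W ^ 2 ≤ (𝒬g.card : ℝ) := by
    have h2 : (𝒬.card : ℝ) ≤ 2 * 𝒬l.card := by exact_mod_cast hQ2
    have h3 : (𝒬l.card : ℝ) ≤ 𝒬g.card + 𝒬b.card := by exact_mod_cast hQ3
    have h4 : c ^ 2 / 2 * (M : ℝ) ^ 3 / W ^ 2 = 4 * (c ^ 2 / 8 * M ^ 3 / W ^ 2) := by ring
    linarith
  -- the map
  set tgt := (H ×ˢ H).filter fun q =>
      (W : ℤ) ∣ q.1 - q.2 ∧ Near Q W (2 * T) M (θ q.1 - θ q.2) with htgt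
  set f : (ℤ × (ℤ × ℤ)) × (ℤ × (ℤ × ℤ)) → ℤ × ℤ := fun q =>
    (q.1.2.1 - q.1.1 * (W * q.1.2.2), q.2.2.1 - q.2.1 * (W * q.2.2.2)) with hf
  have hmaps : ∀ q ∈ 𝒬g, f q ∈ tgt := by
    intro q hq
    have hq1 := (mem_filter.1 (mem_filter.1 hq).1).1
    rw [h𝒬, mem_filter, mem_product] at hq1
    obtain ⟨⟨k1, k2⟩, k3⟩ := hq1
    have t1 := hT0 _ k1
    have t2 := hT0 _ k2
    rw [htgt, mem_filter, mem_product]
    refine ⟨⟨t1.2.2.1, t2.2.2.1⟩, ?_, ?_⟩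
    · refine ⟨q.2.1 * q.2.2.2 - q.1.1 * q.1.2.2, ?_⟩
      simp only [hf]
      rw [k3]
      ring
    · obtain ⟨m1, hm1⟩ := t1.2.2.2
      obtain ⟨m2, hm2⟩ := t2.2.2.2
      refine ⟨m2 - m1, ?_⟩
      simp only [hf]
      rw [abs_le] at hm1 hm2 ⊢
      rw [k3] at hm1 ⊢
      push_cast
      rw [sub_div]
      have e1 : (2 * T : ℝ) / M = T / M + T / M := by ring
      rw [e1]
      constructor
      · linarith [hm1.1, hm1.2, hm2.1, hm2.2]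
      · linarith [hm1.1, hm1.2, hm2.1, hm2.2]
  have hfib : ∀ x ∈ tgt, (((𝒬g.filter fun q => f q = x).card : ℕ) : ℝ) ≤
      (8 * g0 + 4) * M / W := by
    rintro ⟨u, v⟩ -
    have key : ∀ q ∈ 𝒬g.filter (fun q => f q = (u, v)),
        (q.1 ∈ 𝒯 ∧ q.2 ∈ 𝒯) ∧ q.1.2.1 = q.2.2.1 ∧ |q.1.2.2| ≤ |q.2.2.2| ∧
        Int.gcd q.1.2.2 q.2.2.2 ≤ g0 ∧ q.1.2.1 - q.1.1 * (W * q.1.2.2) = u ∧
        q.2.2.1 - q.2.1 * (W * q.2.2.2) = v := by
      intro q hq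
      have a1 := mem_filter.1 hq
      have a2 := mem_filter.1 a1.1
      have a3 := mem_filter.1 a2.1
      have a4 := mem_filter.1 a3.1
      have k1 := mem_product.1 a4.1
      have k5 := a1.2
      simp only [hf, Prod.mk.injEq] at k5
      exact ⟨k1, a4.2, a3.2, a2.2, k5.1, k5.2⟩
    have h1 := gc_fib (B / W) (M / B) g0 hg0 W hW u v (𝒬g.filter (fun q => f q = (u, v)))
      (fun q hq => (hT0 _ (key q hq).1.1).1.1)
      (fun q hq => (hT0 _ (key q hq).1.1).2.1)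
      (fun q hq => (hT0 _ (key q hq).1.2).2.1)
      (fun q hq => (hT0 _ (key q hq).1.2).1.2.2)
      (fun q hq => (key q hq).2.2.1)
      (fun q hq => (key q hq).2.2.2.1)
      (fun q hq => (key q hq).2.1)
      (fun q hq => (key q hq).2.2.2.2.1)
      (fun q hq => (key q hq).2.2.2.2.2)
    refine h1.trans ?_
    have h5 : ((B / W : ℕ) : ℝ) ≤ B / W := Nat.cast_div_le
    have h6 : ((M / B : ℕ) : ℝ) ≤ M / B := Nat.cast_div_le
    have h7 : ((B / W : ℕ) : ℝ) * ((M / B : ℕ) : ℝ) ≤ M / W := by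
      calc ((B / W : ℕ) : ℝ) * ((M / B : ℕ) : ℝ) ≤ (B / W) * (M / B) := by gcongr
        _ = M / W := by field_simp
    have h8 : ((B / W : ℕ) : ℝ) ^ 2 ≤ M / W := by
      calc ((B / W : ℕ) : ℝ) ^ 2 ≤ (B / W : ℝ) ^ 2 := by gcongr
        _ = (B : ℝ) ^ 2 / W / W := by field_simp
        _ ≤ (M : ℝ) / W / W := by gcongr
        _ ≤ M / W := div_le_self (by positivity) hWr
    calc 8 * (g0 : ℝ) * (((B / W : ℕ) : ℝ) * ((M / B : ℕ) : ℝ)) + 4 * ((B / W : ℕ) : ℝ) ^ 2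
        ≤ 8 * (g0 : ℝ) * (M / W) + 4 * (M / W) := by gcongr
      _ = (8 * g0 + 4) * M / W := by ring
  have hfin : (𝒬g.card : ℝ) ≤ tgt.card * ((8 * g0 + 4) * M / W) := by
    rw [card_eq_sum_card_fiberwise hmaps]
    push_cast
    calc ∑ x ∈ tgt, (((𝒬g.filter fun q => f q = x).card : ℕ) : ℝ)
        ≤ ∑ x ∈ tgt, ((8 * g0 + 4) * M / W : ℝ) := sum_le_sum hfib
      _ = _ := by rw [sum_const, nsmul_eq_mul]
  have h1 := hQg.trans hfin
  have h2 : c ^ 2 / 8 * (M : ℝ) ^ 3 / W ^ 2 =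
      (c ^ 2 / (8 * (8 * g0 + 4)) * M ^ 2 / W) * ((8 * g0 + 4) * M / W) := by
    field_simp
  rw [h2] at h1
  exact le_of_mul_le_mul_right h1 (by positivity)

end Pool.Agent.Lib.H18GB
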