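import Pool.Agent.Lib.H18GB.RCNC
import Pool.Agent.Lib.Sieve.Gap

/-!
# Project GB: GR1 (residue classes)

`Comp W x y`: `x + y` and `x - y` are coprime to `W`.
-/

namespace Pool.Agent.Lib.H18GB

open Finset Pool.Agent.Lib.Sieve

def Comp (W : ℕ) (x y : ℤ) : Prop := IsCoprime (x + y) (W : ℤ) ∧ IsCoprime (x - y) (W : ℤ)

/-- coprimality with `W` is checked at the primes `p ≤ w` -/
theorem IsW.isCoprime {w W : ℕ} (hW : IsW w W) {a : ℤ}
    (h : ∀ p ∈ primesUpTo w, (a : ZMod p) ≠ 0) : IsCoprime a (W : ℤ) := by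
  rw [Int.isCoprime_iff_gcd_eq_one]
  by_contra hne
  obtain ⟨p, hp, hpd⟩ := Nat.exists_prime_and_dvd hne
  have h1 : p ∣ a.natAbs := hpd.trans (Nat.gcd_dvd_left _ _)
  have h2 : p ∣ W := by
    have := hpd.trans (Nat.gcd_dvd_right a.natAbs (W : ℤ).natAbs)
    simpa using this
  refine h p (mem_primesUpTo.mpr ⟨hp, (hW.2 p hp).mp h2⟩) ?_
  rw [ZMod.intCast_zmod_eq_zero_iff_dvd]
  exact Int.natCast_dvd.mpr h1

theorem IsW.not_zmod {w W : ℕ} (hW : IsW w W) {a : ℤ} (h : IsCoprime a (W : ℤ)) {p : ℕ}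
    (hp : p.Prime) (hpw : p ≤ w) : ¬ (p : ℤ) ∣ a := by
  intro hd
  have h1 : (p : ℤ) ∣ (W : ℤ) := Int.natCast_dvd_natCast.mpr ((hW.2 p hp).mpr hpw)
  have h2 := h.isUnit_of_dvd' hd h1
  rw [Int.isUnit_iff] at h2
  have := hp.one_lt
  omega

/-- a natural number below `W` with prescribed residues -/
theorem IsW.exists_res {w W : ℕ} (hW : IsW w W) (r : (p : ℕ) → ZMod p) :
    ∃ y : ℕ, y < W ∧ ∀ p ∈ primesUpTo w, ((y : ℤ) : ZMod p) = r p := by
  obtain ⟨c, hc⟩ := exists_crt (primesUpTo w) (fun p hp => (mem_primesUpTo.mp hp).1) r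
  have hW0 : (0 : ℤ) < W := by exact_mod_cast hW.1
  refine ⟨(c % W).toNat, ?_, fun p hp => ?_⟩
  · have h1 := Int.emod_lt_of_pos c hW0
    have h2 := Int.emod_nonneg c hW0.ne'
    omega
  · rw [← hc p hp, Int.toNat_of_nonneg (Int.emod_nonneg c hW0.ne')]
    rw [ZMod.intCast_eq_intCast_iff]
    have hp' := mem_primesUpTo.mp hp
    have h3 : (p : ℤ) ∣ (W : ℤ) := Int.natCast_dvd_natCast.mpr ((hW.2 p hp'.1).mpr hp'.2)
    exact (Int.mod_modEq c W).of_dvd h3

/-- Chunk GR1. Chinese remainder theorem: modulo `2` take the other parity, modulo `3` take `y = 1` if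
`3 ∣ x0`, `y = 0` otherwise, modulo `p ≥ 5` avoid `± x0, ± x1`. -/
theorem comp_common {w W : ℕ} (hw : 3 ≤ w) (hW : IsW w W) (x0 x1 : ℤ) (h2 : x0 % 2 = x1 % 2)
    (h3 : (3 : ℤ) ∣ x0 ↔ (3 : ℤ) ∣ x1) :
    ∃ y : ℕ, y < W ∧ Comp W x0 y ∧ Comp W x1 y := by
  have key : ∀ p : ℕ, ∃ r : ZMod p, p.Prime → ((x0 : ZMod p) + r ≠ 0 ∧ (x0 : ZMod p) - r ≠ 0) ∧
      ((x1 : ZMod p) + r ≠ 0 ∧ (x1 : ZMod p) - r ≠ 0) := by
    intro p
    by_cases hp : p.Prime
    swap
    · exact ⟨0, fun h => absurd h hp⟩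
    have : Fact p.Prime := ⟨hp⟩
    have hcast : ∀ a : ℤ, (a : ZMod p) = 0 ↔ (p : ℤ) ∣ a := fun a =>
      ZMod.intCast_zmod_eq_zero_iff_dvd a p
    by_cases hp2 : p = 2
    · subst hp2
      refine ⟨((x0 + 1 : ℤ) : ZMod 2), fun _ => ?_⟩
      refine ⟨⟨?_, ?_⟩, ?_, ?_⟩
      · rw [← Int.cast_add, Ne, hcast]; push_cast; omega
      · rw [← Int.cast_sub, Ne, hcast]; push_cast; omega
      · rw [← Int.cast_add, Ne, hcast]; push_cast; omega
      · rw [← Int.cast_sub, Ne, hcast]; push_cast; omega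
    by_cases hp3 : p = 3
    · subst hp3
      by_cases hx : (3 : ℤ) ∣ x0
      · have hx1 := h3.mp hx
        refine ⟨((1 : ℤ) : ZMod 3), fun _ => ?_⟩
        refine ⟨⟨?_, ?_⟩, ?_, ?_⟩
        · rw [← Int.cast_add, Ne, hcast]; push_cast; omega
        · rw [← Int.cast_sub, Ne, hcast]; push_cast; omega
        · rw [← Int.cast_add, Ne, hcast]; push_cast; omega
        · rw [← Int.cast_sub, Ne, hcast]; push_cast; omega
      · have hx1 := fun h => hx (h3.mpr h)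
        refine ⟨((0 : ℤ) : ZMod 3), fun _ => ?_⟩
        refine ⟨⟨?_, ?_⟩, ?_, ?_⟩
        · rw [← Int.cast_add, Ne, hcast]; push_cast; omega
        · rw [← Int.cast_sub, Ne, hcast]; push_cast; omega
        · rw [← Int.cast_add, Ne, hcast]; push_cast; omega
        · rw [← Int.cast_sub, Ne, hcast]; push_cast; omega
    · have hp5 : 4 < p := by
        have h1 := hp.two_le
        have h4 : p ≠ 4 := by
          rintro rfl
          exact absurd hp (by norm_num)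
        omega
      classical
      set s : Finset (ZMod p) := {-(x0 : ZMod p), (x0 : ZMod p), -(x1 : ZMod p), (x1 : ZMod p)}
      have hs : s.card < Fintype.card (ZMod p) := by
        rw [ZMod.card]
        exact lt_of_le_of_lt Finset.card_le_four hp5
      obtain ⟨r, hr⟩ : ∃ r, r ∉ s := by
        by_contra hall
        push Not at hall
        have : s = Finset.univ := Finset.eq_univ_iff_forall.mpr hall
        rw [this, Finset.card_univ] at hs
        exact lt_irrefl _ hs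
      refine ⟨r, fun _ => ?_⟩
      simp only [s, Finset.mem_insert, Finset.mem_singleton, not_or] at hr
      obtain ⟨ha, hb, hc, hd⟩ := hr
      refine ⟨⟨?_, ?_⟩, ?_, ?_⟩
      · intro h; exact ha (eq_neg_of_add_eq_zero_right h)
      · intro h; exact hb (sub_eq_zero.mp h).symm
      · intro h; exact hc (eq_neg_of_add_eq_zero_right h)
      · intro h; exact hd (sub_eq_zero.mp h).symm
  choose r hr using key
  obtain ⟨y, hy, hyr⟩ := hW.exists_res r
  refine ⟨y, hy, ⟨?_, ?_⟩, ?_, ?_⟩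
  · refine hW.isCoprime fun p hp => ?_
    rw [Int.cast_add, hyr p hp]
    exact (hr p (mem_primesUpTo.mp hp).1).1.1
  · refine hW.isCoprime fun p hp => ?_
    rw [Int.cast_sub, hyr p hp]
    exact (hr p (mem_primesUpTo.mp hp).1).1.2
  · refine hW.isCoprime fun p hp => ?_
    rw [Int.cast_add, hyr p hp]
    exact (hr p (mem_primesUpTo.mp hp).1).2.1
  · refine hW.isCoprime fun p hp => ?_
    rw [Int.cast_sub, hyr p hp]
    exact (hr p (mem_primesUpTo.mp hp).1).2.2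

/-- Chunk GR1 -/
theorem comp_parity {w W : ℕ} (hw : 3 ≤ w) (hW : IsW w W) {x y : ℤ} (h : Comp W x y) :
    x % 2 ≠ y % 2 ∧ ((3 : ℤ) ∣ x ↔ ¬ (3 : ℤ) ∣ y) := by
  have h1 := hW.not_zmod h.1 Nat.prime_two (by omega)
  have h2 := hW.not_zmod h.1 Nat.prime_three (by omega)
  have h3 := hW.not_zmod h.2 Nat.prime_three (by omega)
  push_cast at h1 h2 h3
  constructor
  · omega
  · have hx : x % 3 = 0 ∨ x % 3 = 1 ∨ x % 3 = 2 := by omega
    have hy : y % 3 = 0 ∨ y % 3 = 1 ∨ y % 3 = 2 := by omega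
    rcases hx with hx | hx | hx <;> rcases hy with hy | hy | hy <;> omega

/-- Chunk GR1 -/
theorem comp_comm {W : ℕ} {x y : ℤ} (h : Comp W x y) : Comp W y x := by
  refine ⟨?_, ?_⟩
  · rw [add_comm]; exact h.1
  · have := h.2.neg_left
    rwa [neg_sub] at this

/-- Chunk GR1. Take `v = 0 mod 5` (so that `v + 3 < W`), `v = 1` or `2 mod 3`, `2 v + 3 ≠ 0 mod p`. -/
theorem exists_link {w W : ℕ} (hw : 5 ≤ w) (hW : IsW w W) (i : ℤ) (hi : i = 0 ∨ i = 1) :
    ∃ v : ℕ, v + 3 < W ∧ (v : ℤ) % 2 = i ∧ ¬ (3 : ℤ) ∣ (v : ℤ) ∧ IsCoprime (2 * (v : ℤ) + 3) W := by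
  obtain ⟨v, hv, hvr⟩ := hW.exists_res (fun p => if p = 2 then (i : ZMod p) else
    if p = 3 then ((1 : ℤ) : ZMod p) else ((0 : ℤ) : ZMod p))
  have h2 := hvr 2 (mem_primesUpTo.mpr ⟨Nat.prime_two, by omega⟩)
  have h3 := hvr 3 (mem_primesUpTo.mpr ⟨Nat.prime_three, by omega⟩)
  have h5 := hvr 5 (mem_primesUpTo.mpr ⟨Nat.prime_five, by omega⟩)
  simp only [if_true] at h2
  simp only [show ¬ (3 = 2) by norm_num, if_true, if_false] at h3
  simp only [show ¬ (5 = 2) by norm_num, show ¬ (5 = 3) by norm_num, if_false] at h5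
  rw [ZMod.intCast_eq_intCast_iff] at h2 h3 h5
  have h2' : (v : ℤ) % 2 = i % 2 := h2
  have h3' : (v : ℤ) % 3 = 1 % 3 := h3
  have h5' : (v : ℤ) % 5 = 0 % 5 := h5
  have hW5 : 5 ∣ W := (hW.2 5 Nat.prime_five).mpr (by omega)
  refine ⟨v, by omega, by omega, by omega, ?_⟩
  refine hW.isCoprime fun p hp => ?_
  have hp' := mem_primesUpTo.mp hp
  rw [Ne, ZMod.intCast_zmod_eq_zero_iff_dvd]
  by_cases hp2 : p = 2
  · subst hp2; push_cast; omega
  by_cases hp3 : p = 3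
  · subst hp3; push_cast; omega
  intro hd
  have h0 := hvr p hp
  simp only [hp2, hp3, if_false, Int.cast_zero] at h0
  rw [ZMod.intCast_zmod_eq_zero_iff_dvd] at h0
  have h6 : (p : ℤ) ∣ 3 := by
    have := dvd_sub hd (h0.mul_left 2)
    rwa [add_sub_cancel_left] at this
  have h7 : p ∣ 3 := by exact_mod_cast h6
  exact hp3 ((Nat.prime_dvd_prime_iff_eq hp'.1 Nat.prime_three).mp h7)

end Pool.Agent.Lib.H18GB
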