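import Pool.Agent.Lib.H18GB.RCN
import Pool.Agent.Lib.H18GB.GR2
import Pool.Agent.Lib.H18GB.GRAux

/-!
# Project GB: GR3, GR4
-/

namespace Pool.Agent.Lib.H18GB

open Finset Pool.Agent.Lib.Sieve Pool.Agent.Lib.GoldbachGraph

theorem two_dvd_of_isW {w W : ℕ} (hw : 2 ≤ w) (hW : IsW w W) : 2 ∣ W :=
  (hW.2 2 Nat.prime_two).mpr hw

open Classical in
/-- Chunk GR3. `rcn2` with `F(y) = lamv lamv / SW` (and `F(0) = 0`), `b = X + y0`, `b' = X - y0`,
`G = 1_B`, for `σ = 1` and `σ = -1`: `r1 = y0 + z0`, `r2 = σ (y0 - z0)`. If there is no edge then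
`∑ F(y) (|B| - 1) ≤ 2 ε1 N^2`. -/
theorem gr3 (ε : ℝ) (hε : 0 < ε) : ∃ w0 : ℕ, ∀ w W : ℕ, w0 ≤ w → IsW w W → ∃ N0 : ℕ,
    ∀ N : ℕ, N0 ≤ N → ∀ X y0 z0 : ℕ, 1 ≤ X → X ≤ 2 * W * N → y0 < W → z0 < W → Comp W X y0 →
    Comp W z0 y0 → ε * N ≤ Dw w W N X y0 → ∀ B : Finset ℕ, B ⊆ Finset.Ico 1 N → ε * N ≤ B.card →
    ∃ y ∈ Finset.Ico 1 N, ∃ z ∈ B, hadj X (y0 + W * y) ∧ hadj (y0 + W * y) (z0 + W * z) := by
  obtain ⟨w1, hw1⟩ := rcn2 (ε ^ 2 / 8) (by positivity)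
  refine ⟨max w1 2, fun w W hw hW => ?_⟩
  obtain ⟨N1, hN1⟩ := hw1 w W (le_trans (le_max_left _ _) hw) hW
  obtain ⟨N2, hN2⟩ := log_sq_le W (ε / 4) (by positivity)
  refine ⟨max (max N1 N2) 1, fun N hN X y0 z0 hX1 hX2 hy0 hz0 hXy hzy hD B hB hBc => ?_⟩
  have hNN1 : N1 ≤ N := le_trans (le_trans (le_max_left _ _) (le_max_left _ _)) hN
  have hNN2 : N2 ≤ N := le_trans (le_trans (le_max_right _ _) (le_max_left _ _)) hN
  have hNpos : 1 ≤ N := le_trans (le_max_right _ _) hN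
  have hNR : (1 : ℝ) ≤ N := by exact_mod_cast hNpos
  have h2W : 2 ∣ W := two_dvd_of_isW (le_trans (le_max_right _ _) hw) hW
  by_contra hcon
  push Not at hcon
  have hyz : Comp W (y0 : ℤ) (z0 : ℤ) := by
    refine ⟨?_, ?_⟩
    · rw [add_comm]; exact hzy.1
    · have := hzy.2.neg_left
      rwa [neg_sub] at this
  -- the weight
  set f : ℤ → ℝ := fun x => lamv W (((X : ℤ) + y0) + W * x) * lamv W (((X : ℤ) - y0) - W * x) /
    SW w (((X : ℤ) + y0) + ((X : ℤ) - y0)) with hf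
  have hSWp : (0 : ℝ) < SW w (((X : ℤ) + y0) + ((X : ℤ) - y0)) :=
    lt_of_lt_of_le one_pos (one_le_SW _ _)
  have hf0 : ∀ x, 0 ≤ f x := fun x =>
    div_nonneg (mul_nonneg (lamv_nonneg' _ _) (lamv_nonneg' _ _)) hSWp.le
  set F : ℤ → ℝ := fun x => if 1 ≤ x ∧ x < N then f x else 0 with hFdef
  have hF0 : ∀ x, 0 ≤ F x := by
    intro x
    simp only [hFdef]
    split_ifs
    · exact hf0 x
    · exact le_rfl
  have hFf : ∀ x, |F x| ≤ f x := by
    intro x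
    rw [abs_of_nonneg (hF0 x)]
    simp only [hFdef]
    split_ifs
    · exact le_rfl
    · exact hf0 x
  have hWN : (W : ℤ) * N ≥ W := by
    have : (1 : ℤ) ≤ N := by exact_mod_cast hNpos
    nlinarith [Int.natCast_nonneg W]
  have hXle : (X : ℤ) ≤ 2 * W * N := by exact_mod_cast hX2
  have hWpos : (0 : ℤ) < W := by exact_mod_cast hW.1
  have hy0' : (y0 : ℤ) < W := by exact_mod_cast hy0
  have hz0' : (z0 : ℤ) < W := by exact_mod_cast hz0
  have hr1 : |((y0 : ℤ) + z0)| < 2 * W := by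
    rw [abs_lt]; constructor <;> omega
  have hr2 : |((y0 : ℤ) - z0)| < 2 * W := by
    rw [abs_lt]; constructor <;> omega
  have hr2' : |(-((y0 : ℤ) - z0))| < 2 * W := by rw [abs_neg]; exact hr2
  have hb : |((X : ℤ) + y0)| ≤ 4 * W * N := by
    rw [abs_le]; constructor <;> nlinarith
  have hb' : |((X : ℤ) - y0)| ≤ 4 * W * N := by
    rw [abs_le]; constructor <;> nlinarith
  have hbb : ((X : ℤ) + y0) + ((X : ℤ) - y0) ≠ 0 := by
    have : (1 : ℤ) ≤ X := by exact_mod_cast hX1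
    omega
  have hG1 : ∀ y, |indZ B y| ≤ 1 := indZ_abs_le B
  have k1 := hN1 N hNN1 ((y0 : ℤ) + z0) ((y0 : ℤ) - z0) 1 ((X : ℤ) + y0) ((X : ℤ) - y0)
    hr1 hyz.1 hr2 hyz.2 (Or.inl rfl) hb hb' hbb F (indZ B) hFf hG1
  have k2 := hN1 N hNN1 ((y0 : ℤ) + z0) (-((y0 : ℤ) - z0)) (-1) ((X : ℤ) + y0) ((X : ℤ) - y0)
    hr1 hyz.1 hr2' hyz.2.neg_left (Or.inr rfl) hb hb' hbb F (indZ B) hFf hG1
  have hedge : ∀ x ∈ Finset.Ico (0 : ℤ) N, ∀ y ∈ Finset.Ico (0 : ℤ) N,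
      F x * indZ B y ≠ 0 →
      lamv W (((y0 : ℤ) + z0) + W * (x + y)) * lamv W (((y0 : ℤ) - z0) + W * (x - y)) = 0 := by
    intro x _ y _ hne
    by_contra hc
    obtain ⟨hFx, hGy⟩ := mul_ne_zero_iff.mp hne
    obtain ⟨z, hzB, rfl⟩ := indZ_ne hGy
    have hx : 1 ≤ x ∧ x < N := by
      by_contra h
      exact hFx (by simp only [hFdef]; rw [if_neg h])
    have hfx : f x ≠ 0 := by
      simp only [hFdef] at hFx
      rwa [if_pos hx] at hFx
    obtain ⟨m, rfl⟩ : ∃ m : ℕ, x = m := ⟨x.toNat, by omega⟩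
    have hprod : lamv W (((X : ℤ) + y0) + W * m) * lamv W (((X : ℤ) - y0) - W * m) ≠ 0 := by
      intro h0
      exact hfx (by simp only [hf]; rw [h0, zero_div])
    have e1 : hadj X (y0 + W * m) := by
      have h3 := hadj_of_lamv (x0 := X) (y0 := y0) (x := 0) (y := m) h2W hXy (by
        have a1 : ((X : ℤ) + y0) + W * (((0 : ℕ) : ℤ) + m) = ((X : ℤ) + y0) + W * m := by
          push_cast; ring
        have a2 : ((X : ℤ) - y0) + W * (((0 : ℕ) : ℤ) - m) = ((X : ℤ) - y0) - W * m := by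
          push_cast; ring
        rw [a1, a2]
        exact hprod)
      simpa using h3
    have e2 : hadj (y0 + W * m) (z0 + W * z) := hadj_of_lamv h2W hyz hc
    exact hcon m (Finset.mem_Ico.mpr ⟨by omega, by omega⟩) z hzB e1 e2
  have hbound := no_edge_bound hF0 (indZ_nonneg B) hedge k1 k2
  rw [sum_indZ hB] at hbound
  -- the total weight
  have hsum : ε / 2 * N ≤ ∑ x ∈ Finset.Ico (0 : ℤ) N, F x := by
    rw [sum_Ico_int]
    have h3 : Dw w W N X y0 = ∑ y ∈ Finset.range N, f (y : ℤ) := by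
      unfold Dw
      apply Finset.sum_congr rfl
      intro y _
      simp only [hf]
      have : ((X : ℤ) + y0) + ((X : ℤ) - y0) = 2 * (X : ℤ) := by ring
      rw [this]
    have h4 : ∑ y ∈ Finset.range N, f (y : ℤ) ≤
        (∑ n ∈ Finset.range N, F (n : ℤ)) + f 0 := by
      obtain ⟨N', rfl⟩ : ∃ N', N = N' + 1 := ⟨N - 1, by omega⟩
      rw [Finset.sum_range_succ' (fun n : ℕ => f (n : ℤ)),
        Finset.sum_range_succ' (fun n : ℕ => F (n : ℤ))]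
      have h5 : ∀ n ∈ Finset.range N', f ((n + 1 : ℕ) : ℤ) = F ((n + 1 : ℕ) : ℤ) := by
        intro n hn
        have := Finset.mem_range.mp hn
        simp only [hFdef]
        rw [if_pos]
        constructor
        · push_cast; omega
        · push_cast; omega
      rw [Finset.sum_congr rfl h5]
      have h6 := hF0 ((0 : ℕ) : ℤ)
      simp only [Nat.cast_zero] at h6 ⊢
      linarith
    have h7 : f 0 ≤ Real.log (4 * W * N + 4 * W + 4) ^ 2 := by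
      have hWR : (0 : ℝ) ≤ W := Nat.cast_nonneg W
      have hBig : (1 : ℝ) ≤ 4 * W * N + 4 * W + 4 := by nlinarith
      have hWNR : (W : ℝ) ≤ W * N := by nlinarith
      have hXR : (X : ℝ) ≤ 2 * W * N := by exact_mod_cast hX2
      have hyR : (y0 : ℝ) ≤ W := by exact_mod_cast hy0.le
      have hX0 : (0 : ℝ) ≤ X := Nat.cast_nonneg X
      have hy00 : (0 : ℝ) ≤ y0 := Nat.cast_nonneg y0
      have a1 : lamv W (((X : ℤ) + y0) + W * 0) ≤ Real.log (4 * W * N + 4 * W + 4) := by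
        apply lamv_le_log hBig
        push_cast
        rw [abs_le]
        constructor <;> nlinarith
      have a2 : lamv W (((X : ℤ) - y0) - W * 0) ≤ Real.log (4 * W * N + 4 * W + 4) := by
        apply lamv_le_log hBig
        push_cast
        rw [abs_le]
        constructor <;> nlinarith
      have a3 : f 0 ≤ lamv W (((X : ℤ) + y0) + W * 0) * lamv W (((X : ℤ) - y0) - W * 0) := by
        simp only [hf]
        exact div_le_self (mul_nonneg (lamv_nonneg' _ _) (lamv_nonneg' _ _)) (one_le_SW _ _)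
      calc f 0 ≤ _ := a3
        _ ≤ Real.log (4 * W * N + 4 * W + 4) * Real.log (4 * W * N + 4 * W + 4) :=
          mul_le_mul a1 a2 (lamv_nonneg' _ _) (Real.log_nonneg hBig)
        _ = _ := by ring
    have h8 := hN2 N hNN2
    rw [h3] at hD
    have h9 : 0 < ε * (N : ℝ) := by positivity
    linarith
  have h9 : ε / 2 * N * (ε * N) ≤ 2 * (ε ^ 2 / 8 * N ^ 2) := by
    refine le_trans ?_ hbound
    apply mul_le_mul hsum hBc (by positivity)
    exact Finset.sum_nonneg fun x _ => hF0 x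
  have h10 : 0 < ε ^ 2 * (N : ℝ) ^ 2 := by positivity
  nlinarith

/-- Chunk GR4. `rcn0` with `F = 1_A`, `G = 1_B`. -/
theorem gr4 (ε : ℝ) (hε : 0 < ε) : ∃ w0 : ℕ, ∀ w W : ℕ, w0 ≤ w → IsW w W → ∃ N0 : ℕ,
    ∀ N : ℕ, N0 ≤ N → ∀ x0 y0 : ℕ, x0 < W → y0 < W → Comp W x0 y0 →
    ∀ A B : Finset ℕ, A ⊆ Finset.Ico 1 N → B ⊆ Finset.Ico 1 N → ε * N ≤ A.card → ε * N ≤ B.card →
    ∃ x ∈ A, ∃ y ∈ B, hadj (x0 + W * x) (y0 + W * y) := by
  obtain ⟨w1, hw1⟩ := rcn0 (ε ^ 2 / 4) (by positivity)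
  refine ⟨max w1 2, fun w W hw hW => ?_⟩
  obtain ⟨N1, hN1⟩ := hw1 w W (le_trans (le_max_left _ _) hw) hW
  refine ⟨max N1 1, fun N hN x0 y0 hx0 hy0 hc A B hA hB hAc hBc => ?_⟩
  have hNN1 : N1 ≤ N := le_trans (le_max_left _ _) hN
  have hNpos : 1 ≤ N := le_trans (le_max_right _ _) hN
  have hNR : (1 : ℝ) ≤ N := by exact_mod_cast hNpos
  have h2W : 2 ∣ W := two_dvd_of_isW (le_trans (le_max_right _ _) hw) hW
  by_contra hcon
  push Not at hcon
  have hx0' : (x0 : ℤ) < W := by exact_mod_cast hx0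
  have hy0' : (y0 : ℤ) < W := by exact_mod_cast hy0
  have hr1 : |((x0 : ℤ) + y0)| < 2 * W := by
    rw [abs_lt]; constructor <;> omega
  have hr2 : |((x0 : ℤ) - y0)| < 2 * W := by
    rw [abs_lt]; constructor <;> omega
  have hr2' : |(-((x0 : ℤ) - y0))| < 2 * W := by rw [abs_neg]; exact hr2
  have k1 := hN1 N hNN1 ((x0 : ℤ) + y0) ((x0 : ℤ) - y0) 1 hr1 hc.1 hr2 hc.2 (Or.inl rfl)
    (indZ A) (indZ B) (indZ_abs_le A) (indZ_abs_le B)
  have k2 := hN1 N hNN1 ((x0 : ℤ) + y0) (-((x0 : ℤ) - y0)) (-1) hr1 hc.1 hr2' hc.2.neg_left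
    (Or.inr rfl) (indZ A) (indZ B) (indZ_abs_le A) (indZ_abs_le B)
  have hedge : ∀ x ∈ Finset.Ico (0 : ℤ) N, ∀ y ∈ Finset.Ico (0 : ℤ) N,
      indZ A x * indZ B y ≠ 0 →
      lamv W (((x0 : ℤ) + y0) + W * (x + y)) * lamv W (((x0 : ℤ) - y0) + W * (x - y)) = 0 := by
    intro x _ y _ hne
    by_contra hc'
    obtain ⟨hFx, hGy⟩ := mul_ne_zero_iff.mp hne
    obtain ⟨a, haA, rfl⟩ := indZ_ne hFx
    obtain ⟨b, hbB, rfl⟩ := indZ_ne hGy
    exact hcon a haA b hbB (hadj_of_lamv h2W hc hc')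
  have hbound := no_edge_bound (indZ_nonneg A) (indZ_nonneg B) hedge k1 k2
  rw [sum_indZ hA, sum_indZ hB] at hbound
  have h9 : ε * N * (ε * N) ≤ 2 * (ε ^ 2 / 4 * N ^ 2) := by
    refine le_trans ?_ hbound
    apply mul_le_mul hAc hBc (by positivity) (Nat.cast_nonneg _)
  have h10 : 0 < ε ^ 2 * (N : ℝ) ^ 2 := by positivity
  nlinarith

end Pool.Agent.Lib.H18GB
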