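import Pool.Agent.Lib.H18GB.RCN
import Pool.Agent.Lib.H18GB.GR2
import Pool.Agent.Lib.H18GB.GRCount

/-!
# Project GB: GR7, part a
-/

namespace Pool.Agent.Lib.H18GB

open Finset Pool.Agent.Lib.Sieve Pool.Agent.Lib.GoldbachGraph

/-- One-sided weight of the neighbours of `x0 + W x` in the class `y0`. -/
noncomputable def Ds (W N : ℕ) (x0 y0 σ x : ℤ) : ℝ :=
  ∑ y ∈ Finset.Ico (0 : ℤ) N, if 0 ≤ σ * (x - y) then
    lam W (x0 + y0) (x + y) * lam W (σ * (x0 - y0)) (σ * (x - y)) else 0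

/-- The side on which there is more room. -/
def sgn (N : ℕ) (x : ℤ) : ℤ := if (N : ℤ) ≤ 2 * x then 1 else -1

theorem sgn_eq (N : ℕ) (x : ℤ) : sgn N x = 1 ∨ sgn N x = -1 := by
  unfold sgn
  split_ifs <;> simp

theorem count_side (N : ℕ) {x : ℤ} (hx : x ∈ Finset.Ico (0 : ℤ) N) :
    (N : ℝ) / 2 ≤ ∑ y ∈ Finset.Ico (0 : ℤ) N, if 0 ≤ sgn N x * (x - y) then (1 : ℝ) else 0 := by
  rw [Finset.mem_Ico] at hx
  rw [← Finset.sum_filter, Finset.sum_const, nsmul_eq_mul, mul_one]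
  unfold sgn
  split_ifs with h
  · have e : (Finset.Ico (0 : ℤ) N).filter (fun y => 0 ≤ 1 * (x - y)) = Finset.Ico 0 (x + 1) := by
      ext y
      simp only [Finset.mem_filter, Finset.mem_Ico]
      constructor
      · rintro ⟨⟨h1, h2⟩, h3⟩; omega
      · rintro ⟨h1, h2⟩; omega
    rw [e, Int.card_Ico]
    have h1 : (((x + 1 - 0).toNat : ℕ) : ℝ) = (x : ℝ) + 1 := by
      have : (((x + 1 - 0).toNat : ℕ) : ℤ) = x + 1 := by omega
      have h2 : ((((x + 1 - 0).toNat : ℕ) : ℤ) : ℝ) = ((x + 1 : ℤ) : ℝ) := by rw [this]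
      push_cast at h2
      exact_mod_cast h2
    rw [h1]
    have h2 : (N : ℝ) ≤ 2 * x := by exact_mod_cast h
    linarith
  · have e : (Finset.Ico (0 : ℤ) N).filter (fun y => 0 ≤ -1 * (x - y)) = Finset.Ico x N := by
      ext y
      simp only [Finset.mem_filter, Finset.mem_Ico]
      constructor
      · rintro ⟨⟨h1, h2⟩, h3⟩; omega
      · rintro ⟨h1, h2⟩; omega
    rw [e, Int.card_Ico]
    have h1 : ((((N : ℤ) - x).toNat : ℕ) : ℝ) = (N : ℝ) - x := by
      have : ((((N : ℤ) - x).toNat : ℕ) : ℤ) = (N : ℤ) - x := by omega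
      have h2 : (((((N : ℤ) - x).toNat : ℕ) : ℤ) : ℝ) = (((N : ℤ) - x : ℤ) : ℝ) := by rw [this]
      push_cast at h2
      exact_mod_cast h2
    rw [h1]
    have h2 : (2 : ℝ) * x < N := by exact_mod_cast (not_le.1 h)
    linarith

theorem sum_ker (W N : ℕ) (x0 y0 σ x : ℤ) :
    ∑ y ∈ Finset.Ico (0 : ℤ) N, ker W (x0 + y0) (σ * (x0 - y0)) σ x y =
      Ds W N x0 y0 σ x - ∑ y ∈ Finset.Ico (0 : ℤ) N, if 0 ≤ σ * (x - y) then (1 : ℝ) else 0 := by
  unfold Ds ker
  rw [← Finset.sum_sub_distrib]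
  refine Finset.sum_congr rfl fun y _ => ?_
  split_ifs <;> simp

open Classical in
/-- Few `x` are bad for a given pair of classes. -/
theorem bad_count (ε : ℝ) (hε : 0 < ε) : ∃ w0 : ℕ, ∀ w W : ℕ, w0 ≤ w → IsW w W → ∃ N0 : ℕ,
    ∀ N : ℕ, N0 ≤ N → ∀ x0 y0 : ℤ, 0 ≤ x0 → x0 < W → 0 ≤ y0 → y0 < W → Comp W x0 y0 →
    (((Finset.Ico (0 : ℤ) N).filter fun x => Ds W N x0 y0 (sgn N x) x < N / 4).card : ℝ) ≤
      8 * ε * N := by
  obtain ⟨w0, h⟩ := rcn0 ε hε
  refine ⟨w0, fun w W hw hW => ?_⟩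
  obtain ⟨N0, hN⟩ := h w W hw hW
  refine ⟨max N0 1, fun N hNN x0 y0 hx1 hx2 hy1 hy2 hc => ?_⟩
  have hN0 : N0 ≤ N := (le_max_left _ _).trans hNN
  have hN1 : 1 ≤ N := (le_max_right _ _).trans hNN
  have hNpos : (0 : ℝ) < N := by exact_mod_cast hN1
  have key : ∀ σ : ℤ, (σ = 1 ∨ σ = -1) →
      (((Finset.Ico (0 : ℤ) N).filter fun x => sgn N x = σ ∧ Ds W N x0 y0 σ x < N / 4).card : ℝ) ≤
        4 * ε * N := by
    intro σ hσ
    set A := (Finset.Ico (0 : ℤ) N).filter fun x => sgn N x = σ ∧ Ds W N x0 y0 σ x < N / 4 with hA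
    have hWpos : (0 : ℤ) < W := by exact_mod_cast hW.1
    have h1 : |x0 + y0| < 2 * (W : ℤ) := by
      rw [abs_lt]; constructor <;> linarith
    have h2 : |σ * (x0 - y0)| < 2 * (W : ℤ) := by
      rw [abs_lt]
      rcases hσ with rfl | rfl <;> constructor <;> linarith
    have h3 : IsCoprime (σ * (x0 - y0)) (W : ℤ) := by
      rcases hσ with rfl | rfl
      · rw [one_mul]; exact hc.2
      · rw [neg_one_mul]; exact hc.2.neg_left
    have h4 := hN N hN0 (x0 + y0) (σ * (x0 - y0)) σ h1 hc.1 h2 h3 hσ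
      (fun x => if x ∈ A then 1 else 0) (fun _ => 1)
      (fun x => by beta_reduce; split_ifs <;> simp) (fun _ => by simp)
    have h5 : ∑ x ∈ Finset.Ico (0 : ℤ) N, ∑ y ∈ Finset.Ico (0 : ℤ) N,
        (if x ∈ A then (1 : ℝ) else 0) * 1 * ker W (x0 + y0) (σ * (x0 - y0)) σ x y =
        ∑ x ∈ A, ∑ y ∈ Finset.Ico (0 : ℤ) N, ker W (x0 + y0) (σ * (x0 - y0)) σ x y := by
      rw [hA, Finset.sum_filter]
      refine Finset.sum_congr rfl fun x hx => ?_
      have e : x ∈ (Finset.Ico (0 : ℤ) N).filter (fun x => sgn N x = σ ∧ Ds W N x0 y0 σ x < N / 4) ↔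
          (sgn N x = σ ∧ Ds W N x0 y0 σ x < N / 4) := by
        rw [Finset.mem_filter]
        exact ⟨fun h => h.2, fun h => ⟨hx, h⟩⟩
      simp only [e]
      split_ifs <;> simp
    rw [h5] at h4
    have h6 : ∑ x ∈ A, ∑ y ∈ Finset.Ico (0 : ℤ) N, ker W (x0 + y0) (σ * (x0 - y0)) σ x y ≤
        ∑ x ∈ A, (-(N : ℝ) / 4) := by
      refine Finset.sum_le_sum fun x hx => ?_
      rw [hA, Finset.mem_filter] at hx
      obtain ⟨hx1, hx2, hx3⟩ := hx
      rw [sum_ker]
      have h7 := count_side N hx1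
      rw [hx2] at h7
      linarith
    rw [Finset.sum_const, nsmul_eq_mul] at h6
    have h8 := (abs_le.1 h4).1
    have h9 : (A.card : ℝ) * N ≤ 4 * ε * N * N := by nlinarith
    exact le_of_mul_le_mul_right h9 hNpos
  have hsub : ((Finset.Ico (0 : ℤ) N).filter fun x => Ds W N x0 y0 (sgn N x) x < N / 4) ⊆
      ((Finset.Ico (0 : ℤ) N).filter fun x => sgn N x = 1 ∧ Ds W N x0 y0 1 x < N / 4) ∪
      ((Finset.Ico (0 : ℤ) N).filter fun x => sgn N x = -1 ∧ Ds W N x0 y0 (-1) x < N / 4) := by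
    intro x hx
    rw [Finset.mem_filter] at hx
    rw [Finset.mem_union, Finset.mem_filter, Finset.mem_filter]
    rcases sgn_eq N x with hs | hs
    · left; exact ⟨hx.1, hs, hs ▸ hx.2⟩
    · right; exact ⟨hx.1, hs, hs ▸ hx.2⟩
  have hcard := (Finset.card_le_card hsub).trans (Finset.card_union_le _ _)
  have hcard' : (((Finset.Ico (0 : ℤ) N).filter fun x =>
      Ds W N x0 y0 (sgn N x) x < N / 4).card : ℝ) ≤
      (((Finset.Ico (0 : ℤ) N).filter fun x => sgn N x = 1 ∧ Ds W N x0 y0 1 x < N / 4).card : ℝ) +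
      (((Finset.Ico (0 : ℤ) N).filter fun x =>
        sgn N x = -1 ∧ Ds W N x0 y0 (-1) x < N / 4).card : ℝ) := by
    exact_mod_cast hcard
  have k1 := key 1 (Or.inl rfl)
  have k2 := key (-1) (Or.inr rfl)
  linarith

/-- `SH` restricted to the primes `≤ w`. -/
noncomputable def SHw (w x : ℕ) : ℝ :=
  ∏ p ∈ (primesUpTo w).filter (fun p => 2 < p ∧ p ∣ x), (((p : ℝ) - 1) / (p - 2))

/-- `SH` restricted to the primes `> w`. -/
noncomputable def SHt (w x : ℕ) : ℝ :=
  ∏ p ∈ x.primeFactors.filter (fun p => w < p), (((p : ℝ) - 1) / (p - 2))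

theorem SH_eq {w x : ℕ} (hw : 2 ≤ w) (hx : x ≠ 0) : SH x = SHw w x * SHt w x := by
  unfold SH SHw SHt
  rw [← Finset.prod_union]
  · refine Finset.prod_congr ?_ fun _ _ => rfl
    ext p
    simp only [Finset.mem_filter, Finset.mem_union, Nat.mem_primeFactors, mem_primesUpTo]
    constructor
    · rintro ⟨⟨h1, h2, h3⟩, h4⟩
      by_cases h5 : p ≤ w
      · left; exact ⟨⟨h1, h5⟩, h4, h2⟩
      · right; exact ⟨⟨h1, h2, h3⟩, by omega⟩
    · rintro (⟨⟨h1, h5⟩, h4, h2⟩ | ⟨⟨h1, h2, h3⟩, h4⟩)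
      · exact ⟨⟨h1, h2, hx⟩, h4⟩
      · exact ⟨⟨h1, h2, h3⟩, by omega⟩
  · rw [Finset.disjoint_left]
    intro p hp1 hp2
    rw [Finset.mem_filter, mem_primesUpTo] at hp1
    rw [Finset.mem_filter] at hp2
    omega

theorem fac_pos {p : ℕ} (hp : 2 < p) : (1 : ℝ) ≤ ((p : ℝ) - 1) / (p - 2) := by
  have : (2 : ℝ) < p := by exact_mod_cast hp
  rw [le_div_iff₀ (by linarith)]
  linarith

theorem SHw_ge_one (w x : ℕ) : 1 ≤ SHw w x := by
  unfold SHw
  have := Finset.prod_le_prod (s := (primesUpTo w).filter (fun p => 2 < p ∧ p ∣ x))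
    (f := fun _ => (1 : ℝ)) (g := fun p : ℕ => (((p : ℝ) - 1) / (p - 2)))
    (fun _ _ => zero_le_one) (fun p hp => fac_pos (Finset.mem_filter.1 hp).2.1)
  simpa using this

theorem SHt_ge_one {w : ℕ} (hw : 2 ≤ w) (x : ℕ) : 1 ≤ SHt w x := by
  unfold SHt
  have := Finset.prod_le_prod (s := x.primeFactors.filter (fun p => w < p))
    (f := fun _ => (1 : ℝ)) (g := fun p : ℕ => (((p : ℝ) - 1) / (p - 2)))
    (fun _ _ => zero_le_one) (fun p hp => fac_pos (by
      have := (Finset.mem_filter.1 hp).2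
      omega))
  simpa using this

theorem primesUpTo_succ (w : ℕ) : primesUpTo (w + 1) =
    if (w + 1).Prime then insert (w + 1) (primesUpTo w) else primesUpTo w := by
  ext p
  split_ifs with h
  · rw [Finset.mem_insert, mem_primesUpTo, mem_primesUpTo]
    constructor
    · rintro ⟨h1, h2⟩
      by_cases h3 : p = w + 1
      · left; exact h3
      · right; exact ⟨h1, by omega⟩
    · rintro (h1 | ⟨h1, h2⟩)
      · subst h1; exact ⟨h, le_rfl⟩
      · exact ⟨h1, by omega⟩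
  · rw [mem_primesUpTo, mem_primesUpTo]
    constructor
    · rintro ⟨h1, h2⟩
      refine ⟨h1, ?_⟩
      by_contra h3
      have : p = w + 1 := by omega
      exact h (this ▸ h1)
    · rintro ⟨h1, h2⟩
      exact ⟨h1, by omega⟩

theorem twin_prod (w : ℕ) (hw : 2 ≤ w) :
    (w : ℝ) / (2 * ((w : ℝ) - 1)) ≤
      ∏ p ∈ (primesUpTo w).filter (fun p => 2 < p), (1 - 1 / ((p : ℝ) - 1) ^ 2) := by
  induction w, hw using Nat.le_induction with
  | base =>
    have : (primesUpTo 2).filter (fun p => 2 < p) = ∅ := by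
      ext p
      simp only [Finset.mem_filter, mem_primesUpTo]
      constructor
      · rintro ⟨⟨_, h1⟩, h2⟩; omega
      · intro h; exact absurd h (Finset.notMem_empty _)
    rw [this]
    norm_num
  | succ w hw ih =>
    have hw' : (2 : ℝ) ≤ w := by exact_mod_cast hw
    have hdec : ((w : ℝ) + 1) / (2 * w) ≤ (w : ℝ) / (2 * ((w : ℝ) - 1)) := by
      rw [div_le_div_iff₀ (by linarith) (by linarith)]
      nlinarith
    have e0 : ((w + 1 : ℕ) : ℝ) / (2 * (((w + 1 : ℕ) : ℝ) - 1)) = ((w : ℝ) + 1) / (2 * w) := by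
      push_cast
      ring_nf
    rw [e0, primesUpTo_succ]
    split_ifs with h
    · rw [Finset.filter_insert, if_pos (by omega), Finset.prod_insert]
      · have e1 : (1 - 1 / (((w + 1 : ℕ) : ℝ) - 1) ^ 2) = ((w : ℝ) - 1) * (w + 1) / w ^ 2 := by
          have h0 : (((w + 1 : ℕ) : ℝ) - 1) = w := by push_cast; ring
          have : (w : ℝ) ≠ 0 := by linarith
          rw [h0]
          field_simp
          ring
        rw [e1]
        have h1 : 0 ≤ ((w : ℝ) - 1) * (w + 1) / w ^ 2 := by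
          have : 0 ≤ (w : ℝ) - 1 := by linarith
          positivity
        have h2 := mul_le_mul_of_nonneg_left ih h1
        refine le_trans (le_of_eq ?_) h2
        have h3 : (w : ℝ) ≠ 0 := by linarith
        have h4 : (w : ℝ) - 1 ≠ 0 := by linarith
        field_simp
      · rw [Finset.mem_filter, mem_primesUpTo]
        rintro ⟨⟨_, h1⟩, _⟩
        omega
    · exact hdec.trans ih

theorem totient_ratio {w W : ℕ} (hW : IsW w W) :
    (Nat.totient W / W : ℝ) = ∏ p ∈ primesUpTo w, (1 - 1 / (p : ℝ)) := by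
  have h := Nat.totient_eq_mul_prod_factors W
  have e : W.primeFactors = primesUpTo w := by
    ext p
    rw [Nat.mem_primeFactors, mem_primesUpTo]
    constructor
    · rintro ⟨h1, h2, _⟩; exact ⟨h1, (hW.2 p h1).1 h2⟩
    · rintro ⟨h1, h2⟩; exact ⟨h1, (hW.2 p h1).2 h2, hW.1.ne'⟩
  rw [e] at h
  have h2 : ((Nat.totient W : ℚ) : ℝ) = ((W : ℚ) * ∏ p ∈ primesUpTo w, (1 - (p : ℚ)⁻¹) : ℚ) := by
    rw [h]
  push_cast at h2
  rw [h2]
  have hW0 : (W : ℝ) ≠ 0 := by exact_mod_cast hW.1.ne'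
  rw [mul_div_cancel_left₀ _ hW0]
  refine Finset.prod_congr rfl fun p _ => ?_
  rw [one_div]

theorem primorial_eq (w : ℕ) : primorial w = ∏ p ∈ primesUpTo w, p := by
  rw [primorial, primesUpTo]

/-- The product of the local densities. -/
theorem local_prod {w : ℕ} (hw : 2 ≤ w) (x0 : ℤ) (X : ℕ) (hX : ((primorial w : ℕ) : ℤ) ∣ X - x0) :
    SHw w X * primorial w * (∏ p ∈ primesUpTo w, (1 - 1 / (p : ℝ))) ^ 2 ≤
      ∏ p ∈ primesUpTo w, ((p : ℝ) - if (p : ℤ) ∣ 2 * x0 then 1 else 2) := by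
  have hp0 : ∀ p ∈ primesUpTo w, (2 : ℝ) ≤ p := fun p hp => by
    exact_mod_cast (mem_primesUpTo.1 hp).1.two_le
  have hdvd : ∀ p ∈ primesUpTo w, ((p : ℤ) ∣ x0 ↔ p ∣ X) := by
    intro p hp
    have h1 : (p : ℤ) ∣ X - x0 := by
      refine dvd_trans ?_ hX
      exact Int.natCast_dvd_natCast.2 ((isW_primorial.2 p (mem_primesUpTo.1 hp).1).2
        (mem_primesUpTo.1 hp).2)
    rw [← Int.natCast_dvd_natCast]
    constructor
    · intro h
      have := dvd_add h1 h
      simpa using this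
    · intro h
      have := dvd_sub h h1
      simpa using this
  have h2 : SHw w X * ((∏ p ∈ (primesUpTo w).filter (fun p => 2 < p),
      (1 - 1 / ((p : ℝ) - 1) ^ 2)) * 2) * (primorial w *
      (∏ p ∈ primesUpTo w, (1 - 1 / (p : ℝ))) ^ 2) =
      ∏ p ∈ primesUpTo w, ((p : ℝ) - if (p : ℤ) ∣ 2 * x0 then 1 else 2) := by
    have e2 : (2 : ℝ) = ∏ p ∈ (primesUpTo w).filter (fun p => ¬ 2 < p), (2 : ℝ) := by
      have : (primesUpTo w).filter (fun p => ¬ 2 < p) = {2} := by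
        ext p
        rw [Finset.mem_filter, mem_primesUpTo, Finset.mem_singleton]
        constructor
        · rintro ⟨⟨h1, h2⟩, h3⟩
          have := h1.two_le
          omega
        · rintro rfl
          exact ⟨⟨Nat.prime_two, hw⟩, by norm_num⟩
      rw [this, Finset.prod_singleton]
    have e3 : SHw w X = ∏ p ∈ primesUpTo w, if 2 < p ∧ p ∣ X then (((p : ℝ) - 1) / (p - 2)) else 1 := by
      unfold SHw
      rw [Finset.prod_filter]
    have e4 : (∏ p ∈ (primesUpTo w).filter (fun p => 2 < p), (1 - 1 / ((p : ℝ) - 1) ^ 2)) *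
        ∏ p ∈ (primesUpTo w).filter (fun p => ¬ 2 < p), (2 : ℝ) =
        ∏ p ∈ primesUpTo w, if 2 < p then (1 - 1 / ((p : ℝ) - 1) ^ 2) else 2 := by
      rw [Finset.prod_ite]
    have e5 : ((primorial w : ℕ) : ℝ) = ∏ p ∈ primesUpTo w, (p : ℝ) := by
      rw [primorial_eq]
      push_cast
      rfl
    conv_lhs => rw [e2]
    rw [e4, e3, e5, ← Finset.prod_pow, ← Finset.prod_mul_distrib, ← Finset.prod_mul_distrib,
      ← Finset.prod_mul_distrib]
    refine Finset.prod_congr rfl fun p hp => ?_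
    have h2p := hp0 p hp
    have hpp := (mem_primesUpTo.1 hp).1
    by_cases hp2 : p = 2
    · subst hp2
      rw [if_neg (by norm_num), if_neg (by norm_num), if_pos (by exact_mod_cast dvd_mul_right _ _)]
      norm_num
    · have hp3 : 2 < p := lt_of_le_of_ne hpp.two_le (Ne.symm hp2)
      have hp3' : (2 : ℝ) < p := by exact_mod_cast hp3
      have h1 : (p : ℝ) ≠ 0 := by linarith
      have h3 : (p : ℝ) - 1 ≠ 0 := by linarith
      have h4 : (p : ℝ) - 2 ≠ 0 := by linarith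
      have h5 : ((p : ℤ) ∣ 2 * x0) ↔ p ∣ X := by
        rw [← hdvd p hp]
        constructor
        · intro h
          rcases (Int.Prime.dvd_mul' hpp h) with h6 | h6
          · exfalso
            have h7 : p ∣ 2 := by exact_mod_cast h6
            have := Nat.le_of_dvd (by norm_num) h7
            omega
          · exact h6
        · intro h; exact h.mul_left 2
      rw [if_pos hp3]
      by_cases hpX : p ∣ X
      · rw [if_pos ⟨hp3, hpX⟩, if_pos (h5.2 hpX)]
        field_simp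
        ring
      · rw [if_neg (fun h => hpX h.2), if_neg (fun h => hpX (h5.1 h))]
        field_simp
        ring
  rw [← h2]
  have h3 := twin_prod w hw
  have hw' : (2 : ℝ) ≤ w := by exact_mod_cast hw
  have h4 : (1 : ℝ) / 2 ≤ (w : ℝ) / (2 * ((w : ℝ) - 1)) := by
    rw [div_le_div_iff₀ (by norm_num) (by linarith)]
    linarith
  have h5 : 1 ≤ (∏ p ∈ (primesUpTo w).filter (fun p => 2 < p),
      (1 - 1 / ((p : ℝ) - 1) ^ 2)) * 2 := by linarith
  have h6 : 0 ≤ SHw w X := zero_le_one.trans (SHw_ge_one w X)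
  have h7 : 0 ≤ ((primorial w : ℕ) : ℝ) * (∏ p ∈ primesUpTo w, (1 - 1 / (p : ℝ))) ^ 2 := by
    positivity
  calc SHw w X * primorial w * (∏ p ∈ primesUpTo w, (1 - 1 / (p : ℝ))) ^ 2
      = SHw w X * 1 * (primorial w * (∏ p ∈ primesUpTo w, (1 - 1 / (p : ℝ))) ^ 2) := by ring
    _ ≤ _ := by
      refine mul_le_mul_of_nonneg_right ?_ h7
      exact mul_le_mul_of_nonneg_left h5 h6

end Pool.Agent.Lib.H18GB
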