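import Pool.Agent.Lib.H18GB.GR7a

/-!
# Project GB: GR7, part b
-/

namespace Pool.Agent.Lib.H18GB

open Finset Pool.Agent.Lib.Sieve Pool.Agent.Lib.GoldbachGraph

theorem natAbs_sub_eq (a b : ℕ) : ((a : ℤ) - b).natAbs = Nat.dist a b := by
  unfold Nat.dist
  omega

theorem gr7_lamv_nonneg (W : ℕ) (v : ℤ) : 0 ≤ lamv W v := by
  unfold lamv
  split_ifs with h
  · have : (1 : ℝ) ≤ v.natAbs := by exact_mod_cast h.one_lt.le
    have h2 := Real.log_nonneg this
    positivity
  · exact le_rfl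

theorem gr7_lamv_le {W n : ℕ} (hn : 1 ≤ n) {v : ℤ} (hv : v.natAbs ≤ 2 * n) :
    lamv W v ≤ (Nat.totient W / W : ℝ) * Real.log (2 * n) := by
  have hn' : (1 : ℝ) ≤ n := by exact_mod_cast hn
  have hl : 0 ≤ Real.log (2 * n) := Real.log_nonneg (by linarith)
  unfold lamv
  split_ifs with h
  · refine mul_le_mul_of_nonneg_left ?_ (by positivity)
    refine Real.log_le_log (by exact_mod_cast h.pos) ?_
    exact_mod_cast hv
  · positivity

open Classical in
/-- Pairs of neighbours in a class. -/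
noncomputable def Pn (W N : ℕ) (x0 y0 σ x : ℤ) : Finset ℤ :=
  (Finset.Ico (0 : ℤ) N).filter fun y => 0 ≤ σ * (x - y) ∧
    ((x0 + y0) + W * (x + y)).natAbs.Prime ∧ (σ * (x0 - y0) + W * (σ * (x - y))).natAbs.Prime

theorem Ds_le {W N n : ℕ} (hn : 1 ≤ n) (hWN : W * N ≤ n) {x0 y0 σ x : ℤ} (hx0 : 0 ≤ x0)
    (hx0' : x0 < W) (hy0 : 0 ≤ y0) (hy0' : y0 < W) (hσ : σ = 1 ∨ σ = -1) (hx : 0 ≤ x)
    (hx' : x < N) :
    Ds W N x0 y0 σ x ≤ (Pn W N x0 y0 σ x).card * ((Nat.totient W / W : ℝ) * Real.log (2 * n)) ^ 2 := by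
  classical
  have hL : 0 ≤ (Nat.totient W / W : ℝ) * Real.log (2 * n) := by
    have hn' : (1 : ℝ) ≤ n := by exact_mod_cast hn
    have hl : 0 ≤ Real.log (2 * n) := Real.log_nonneg (by linarith)
    positivity
  have hWN' : (W : ℤ) * N ≤ n := by exact_mod_cast hWN
  unfold Ds Pn
  rw [Finset.card_filter]
  push_cast
  rw [Finset.sum_mul]
  refine Finset.sum_le_sum fun y hy => ?_
  rw [Finset.mem_Ico] at hy
  obtain ⟨hy1, hy2⟩ := hy
  have hW0 : (0 : ℤ) < W := lt_of_le_of_lt hx0 hx0'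
  have b1 : (W : ℤ) * x ≤ W * (N - 1) := mul_le_mul_of_nonneg_left (by omega) hW0.le
  have b2 : (W : ℤ) * y ≤ W * (N - 1) := mul_le_mul_of_nonneg_left (by omega) hW0.le
  have b3 : 0 ≤ (W : ℤ) * x := by positivity
  have b4 : 0 ≤ (W : ℤ) * y := by positivity
  have X1 : x0 + W * x < n := by nlinarith
  have X2 : 0 ≤ x0 + W * x := by positivity
  have Y1 : y0 + W * y < n := by nlinarith
  have Y2 : 0 ≤ y0 + W * y := by positivity
  have n1 : ((x0 + y0) + W * (x + y)).natAbs ≤ 2 * n := by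
    have e : (x0 + y0) + W * (x + y) = (x0 + W * x) + (y0 + W * y) := by ring
    rw [e]; omega
  have n2 : (σ * (x0 - y0) + W * (σ * (x - y))).natAbs ≤ 2 * n := by
    have e : σ * (x0 - y0) + W * (σ * (x - y)) = σ * ((x0 + W * x) - (y0 + W * y)) := by ring
    rw [e]
    rcases hσ with rfl | rfl <;> omega
  have l1 := gr7_lamv_le (W := W) hn n1
  have l2 := gr7_lamv_le (W := W) hn n2
  have l3 := gr7_lamv_nonneg W ((x0 + y0) + W * (x + y))
  have l4 := gr7_lamv_nonneg W (σ * (x0 - y0) + W * (σ * (x - y)))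
  by_cases hs : 0 ≤ σ * (x - y)
  · rw [if_pos hs]
    by_cases hp : ((x0 + y0) + W * (x + y)).natAbs.Prime ∧
        (σ * (x0 - y0) + W * (σ * (x - y))).natAbs.Prime
    · rw [if_pos ⟨hs, hp⟩, one_mul, sq]
      exact mul_le_mul l1 l2 l4 hL
    · rw [if_neg fun h => hp h.2, zero_mul]
      unfold lam lamv
      by_cases hp1 : ((x0 + y0) + W * (x + y)).natAbs.Prime
      · have hp2 : ¬ (σ * (x0 - y0) + W * (σ * (x - y))).natAbs.Prime := fun h => hp ⟨hp1, h⟩
        rw [if_neg hp2, mul_zero]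
      · rw [if_neg hp1, zero_mul]
  · rw [if_neg hs, if_neg fun h => hs h.1, zero_mul]

open Classical in
theorem card_Pn_le {w W N n : ℕ} (hw : 2 ≤ w) (hW : IsW w W) (hWN : W * N ≤ n) (x0 x : ℕ)
    (hx0 : x0 < W) (hx : x < N) (G : Finset ℕ) (hG : ∀ y0 ∈ G, y0 < W ∧ Comp W x0 y0) (σ : ℤ)
    (hσ : σ = 1 ∨ σ = -1) :
    ∑ y0 ∈ G, (Pn W N x0 y0 σ x).card ≤ hdeg n (x0 + W * x) + 1 := by
  have h2W : 2 ∣ W := (hW.2 2 Nat.prime_two).2 hw
  rw [← Finset.card_sigma]
  have : hdeg n (x0 + W * x) + 1 =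
      (insert 0 ((Finset.Icc 1 n).filter fun u => hadj (x0 + W * x) u)).card := by
    rw [Finset.card_insert_of_notMem]
    · rfl
    · rw [Finset.mem_filter, Finset.mem_Icc]
      rintro ⟨⟨h, _⟩, _⟩
      omega
  rw [this]
  refine Finset.card_le_card_of_injOn (fun q => q.1 + W * q.2.toNat) ?_ ?_
  · rintro ⟨y0, y⟩ hq
    rw [Finset.mem_coe, Finset.mem_sigma] at hq
    obtain ⟨hy0, hy⟩ := hq
    simp only at hy0 hy
    obtain ⟨hy0W, hc⟩ := hG y0 hy0
    unfold Pn at hy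
    rw [Finset.mem_filter, Finset.mem_Ico] at hy
    obtain ⟨⟨hy1, hy2⟩, hs, hp1, hp2⟩ := hy
    obtain ⟨m, rfl⟩ := Int.eq_ofNat_of_zero_le hy1
    have hm : m < N := by omega
    simp only [Int.toNat_natCast, Finset.coe_insert, Finset.coe_filter, Set.mem_insert_iff]
    by_cases h0 : y0 + W * m = 0
    · left; exact h0
    right
    have hYn : y0 + W * m ≤ n := by
      have : W * m ≤ W * (N - 1) := Nat.mul_le_mul_left _ (by omega)
      have h3 : W * (N - 1) + W = W * N := by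
        have : N = (N - 1) + 1 := by omega
        conv_rhs => rw [this]
        ring
      omega
    refine ⟨Finset.mem_Icc.2 ⟨Nat.pos_of_ne_zero h0, hYn⟩, ?_⟩
    have e1 : (((x0 : ℤ) + y0) + W * (x + m)).natAbs = (x0 + W * x) + (y0 + W * m) := by
      have : ((x0 : ℤ) + y0) + W * (x + m) = (((x0 + W * x) + (y0 + W * m) : ℕ) : ℤ) := by
        push_cast; ring
      rw [this, Int.natAbs_natCast]
    have e2 : (σ * ((x0 : ℤ) - y0) + W * (σ * (x - m))).natAbs =
        Nat.dist (x0 + W * x) (y0 + W * m) := by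
      have : σ * ((x0 : ℤ) - y0) + W * (σ * (x - m)) =
          σ * (((x0 + W * x : ℕ) : ℤ) - ((y0 + W * m : ℕ) : ℤ)) := by
        push_cast; ring
      rw [this, Int.natAbs_mul, natAbs_sub_eq]
      rcases hσ with rfl | rfl <;> simp
    rw [e1] at hp1
    rw [e2] at hp2
    have c1 := (isCoprime_iff hW _).1 hc.1 2 Nat.prime_two hw
    have c2 := (isCoprime_iff hW _).1 hc.2 2 Nat.prime_two hw
    obtain ⟨W', rfl⟩ := h2W
    have o1 : Odd ((x0 + 2 * W' * x) + (y0 + 2 * W' * m)) := by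
      rw [Nat.odd_iff]
      have h5 : ¬ 2 ∣ x0 + y0 := fun h => c1 (by exact_mod_cast h)
      have h6 : (x0 + 2 * W' * x) + (y0 + 2 * W' * m) = (x0 + y0) + 2 * (W' * x + W' * m) := by ring
      rw [h6]
      omega
    have o2 : Odd (Nat.dist (x0 + 2 * W' * x) (y0 + 2 * W' * m)) := by
      rw [Nat.odd_iff]
      have h5 := Nat.odd_iff.1 o1
      unfold Nat.dist
      omega
    exact ⟨hp1, o1, hp2, o2⟩
  · rintro ⟨y0, y⟩ hq ⟨z0, z⟩ hq' heq
    rw [Finset.mem_coe, Finset.mem_sigma] at hq hq'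
    simp only at hq hq' heq
    obtain ⟨hy0W, _⟩ := hG y0 hq.1
    obtain ⟨hz0W, _⟩ := hG z0 hq'.1
    have hy := hq.2
    have hz := hq'.2
    unfold Pn at hy hz
    rw [Finset.mem_filter, Finset.mem_Ico] at hy hz
    have h1 : y0 = z0 := by
      have := congrArg (· % W) heq
      simpa [Nat.add_mul_mod_self_left, Nat.mod_eq_of_lt hy0W, Nat.mod_eq_of_lt hz0W] using this
    subst h1
    have h2 : W * y.toNat = W * z.toNat := by omega
    have h3 := Nat.eq_of_mul_eq_mul_left hW.1 h2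
    have h4 : y = z := by omega
    rw [h4]

open Classical in
/-- Lower bound of the degree of a vertex that is good for half of the classes. -/
theorem good_hdeg {w N n : ℕ} (hw : 2 ≤ w) (hWN : primorial w * N ≤ n) (x0 x : ℕ) (hn : 1 ≤ n)
    (hx0 : x0 < primorial w) (hx : x < N)
    (h : 2 * (((Finset.range (primorial w)).filter fun y : ℕ => Comp (primorial w) x0 y ∧
      Ds (primorial w) N x0 y (sgn N x) x < N / 4).card) ≤
      ((Finset.range (primorial w)).filter fun y : ℕ => Comp (primorial w) x0 y).card) :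
    SHw w (x0 + primorial w * x) * (primorial w * N) ≤
      8 * Real.log (2 * n) ^ 2 * (hdeg n (x0 + primorial w * x) + 1) := by
  set W := primorial w with hWdef
  have hW : IsW w W := isW_primorial
  set Cs := (Finset.range W).filter fun y : ℕ => Comp W x0 y with hCs
  set Bs := (Finset.range W).filter fun y : ℕ => Comp W x0 y ∧
      Ds W N x0 y (sgn N x) x < N / 4 with hBs
  set G := (Finset.range W).filter fun y : ℕ => Comp W x0 y ∧
      ¬ Ds W N x0 y (sgn N x) x < N / 4 with hGs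
  have hsplit : Cs.card = Bs.card + G.card := by
    have := Finset.card_filter_add_card_filter_not (s := Cs)
      (fun y : ℕ => Ds W N x0 y (sgn N x) x < N / 4)
    rw [hCs, Finset.filter_filter, Finset.filter_filter] at this
    rw [hCs, hBs, hGs]
    exact this.symm
  have hG2 : (Cs.card : ℝ) / 2 ≤ G.card := by
    have h1 : (2 * Bs.card : ℝ) ≤ Cs.card := by exact_mod_cast h
    have h2 : (Cs.card : ℝ) = Bs.card + G.card := by exact_mod_cast hsplit
    linarith
  set Q : ℝ := ((Nat.totient W / W : ℝ) * Real.log (2 * n)) ^ 2 with hQ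
  have hQ0 : 0 ≤ Q := sq_nonneg _
  have h1 : ∀ y0 ∈ G, (N : ℝ) / 4 ≤ (Pn W N x0 y0 (sgn N x) x).card * Q := by
    intro y0 hy0
    rw [hGs, Finset.mem_filter, Finset.mem_range] at hy0
    obtain ⟨hy1, hy2, hy3⟩ := hy0
    refine (not_lt.1 hy3).trans ?_
    exact Ds_le hn hWN (by positivity) (by exact_mod_cast hx0) (by positivity)
      (by exact_mod_cast hy1) (sgn_eq N x) (by positivity) (by exact_mod_cast hx)
  have h2 : (G.card : ℝ) * (N / 4) ≤ (∑ y0 ∈ G, ((Pn W N x0 y0 (sgn N x) x).card : ℝ)) * Q := by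
    rw [Finset.sum_mul, ← nsmul_eq_mul, ← Finset.sum_const]
    exact Finset.sum_le_sum h1
  have h3 : (∑ y0 ∈ G, ((Pn W N x0 y0 (sgn N x) x).card : ℝ)) ≤ hdeg n (x0 + W * x) + 1 := by
    have := card_Pn_le hw hW hWN x0 x hx0 hx G (fun y0 hy0 => by
      rw [hGs, Finset.mem_filter, Finset.mem_range] at hy0
      exact ⟨hy0.1, hy0.2.1⟩) (sgn N x) (sgn_eq N x)
    exact_mod_cast this
  have h4 : (Cs.card : ℝ) / 2 * (N / 4) ≤ (hdeg n (x0 + W * x) + 1) * Q := by
    have h5 : (Cs.card : ℝ) / 2 * (N / 4) ≤ G.card * (N / 4) :=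
      mul_le_mul_of_nonneg_right hG2 (by positivity)
    exact h5.trans (h2.trans (mul_le_mul_of_nonneg_right h3 hQ0))
  have hcard := card_comp hW (primorial_eq w) x0
  have hloc := local_prod hw x0 (x0 + W * x) (by
    refine ⟨x, ?_⟩
    push_cast
    rw [← hWdef]
    ring)
  rw [← hcard, ← hWdef] at hloc
  have hrat := totient_ratio hW
  set V : ℝ := ∏ p ∈ primesUpTo w, (1 - 1 / (p : ℝ)) with hV
  have hVpos : 0 < V := by
    rw [hV]
    refine Finset.prod_pos fun p hp => ?_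
    have : (1 : ℝ) < p := by exact_mod_cast (mem_primesUpTo.1 hp).1.one_lt
    rw [sub_pos, div_lt_one (by linarith)]
    exact this
  rw [hrat] at hQ
  have hfin : SHw w (x0 + W * x) * (W * N) * V ^ 2 ≤
      8 * Real.log (2 * n) ^ 2 * (hdeg n (x0 + W * x) + 1) * V ^ 2 := by
    have e1 : SHw w (x0 + W * x) * (W * N) * V ^ 2 = (SHw w (x0 + W * x) * W * V ^ 2) * N := by ring
    have e2 : 8 * Real.log (2 * n) ^ 2 * ((hdeg n (x0 + W * x) : ℝ) + 1) * V ^ 2 =
        8 * ((hdeg n (x0 + W * x) + 1) * Q) := by rw [hQ]; ring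
    rw [e1, e2]
    have h6 : SHw w (x0 + W * x) * W * V ^ 2 * N ≤ Cs.card * N :=
      mul_le_mul_of_nonneg_right hloc (by positivity)
    have h7 : (Cs.card : ℝ) * N = 8 * (Cs.card / 2 * (N / 4)) := by ring
    rw [h7] at h6
    exact h6.trans (by linarith)
  exact le_of_mul_le_mul_right hfin (by positivity)

end Pool.Agent.Lib.H18GB
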