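import Pool.Agent.Lib.H18GB.Defs

/-!
# Project GB: GREEDY
-/

namespace Pool.Agent.Lib.H18GB

open Finset Pool.Agent.Lib.Sieve

open Classical in
theorem greedy_aux (δ : ℝ) (hδ : 0 < δ) (R : ℤ → ℤ → Prop) :
    ∀ (n : ℕ) (H : Finset ℤ), H.card = n →
    ∃ (I : Finset ℤ) (Pc : ℤ → Finset ℤ) (H' : Finset ℤ), H' ⊆ H ∧ (I.card : ℝ) * δ ≤ H.card ∧
      (∀ i ∈ I, Pc i ⊆ H ∧ ∀ h ∈ Pc i, R h i) ∧
      (∀ f : ℤ → ℝ, ∑ h ∈ H, f h = ∑ h ∈ H', f h + ∑ i ∈ I, ∑ h ∈ Pc i, f h) ∧
      ∀ h ∈ H', ((H'.filter fun h' => R h' h).card : ℝ) < δ := by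
  intro n
  induction n using Nat.strong_induction_on with
  | _ n ih =>
    intro H hH
    by_cases hgood : ∀ h ∈ H, ((H.filter fun h' => R h' h).card : ℝ) < δ
    · exact ⟨∅, fun _ => ∅, H, Finset.Subset.refl _, by simp, by simp, by simp, hgood⟩
    · push Not at hgood
      obtain ⟨i0, hi0, hbig⟩ := hgood
      set P := H.filter fun h' => R h' i0 with hP
      have hPpos : 0 < P.card := by
        have : (0 : ℝ) < P.card := lt_of_lt_of_le hδ hbig
        exact_mod_cast this
      have hPH : P ⊆ H := Finset.filter_subset _ _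
      have hcard : (H \ P).card + P.card = H.card := Finset.card_sdiff_add_card_eq_card hPH
      obtain ⟨I, Pc, H', h1, h2, h3, h4, h5⟩ := ih (H \ P).card (by omega) (H \ P) rfl
      have hPc0 : i0 ∈ I → Pc i0 = ∅ := by
        intro hi
        obtain ⟨ha, hb⟩ := h3 i0 hi
        rw [Finset.eq_empty_iff_forall_notMem]
        intro x hx
        have hx1 := ha hx
        rw [Finset.mem_sdiff] at hx1
        exact hx1.2 (Finset.mem_filter.mpr ⟨hx1.1, hb x hx⟩)
      refine ⟨insert i0 I, Function.update Pc i0 P, H', h1.trans Finset.sdiff_subset, ?_, ?_, ?_, h5⟩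
      · have hc1 : ((insert i0 I).card : ℝ) ≤ I.card + 1 := by
          exact_mod_cast Finset.card_insert_le i0 I
        have hc2 : (H.card : ℝ) = (H \ P).card + P.card := by exact_mod_cast hcard.symm
        rw [hc2]
        nlinarith
      · intro i hi
        by_cases hii : i = i0
        · subst hii
          rw [Function.update_self]
          exact ⟨hPH, fun h hh => (Finset.mem_filter.mp hh).2⟩
        · rw [Function.update_of_ne hii]
          have hiI : i ∈ I := by
            rcases Finset.mem_insert.mp hi with h | h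
            · exact absurd h hii
            · exact h
          exact ⟨(h3 i hiI).1.trans Finset.sdiff_subset, (h3 i hiI).2⟩
      · intro f
        have hs : ∑ h ∈ H, f h = ∑ h ∈ H \ P, f h + ∑ h ∈ P, f h :=
          (Finset.sum_sdiff hPH).symm
        rw [hs, h4 f]
        have hI : ∑ i ∈ insert i0 I, ∑ h ∈ Function.update Pc i0 P i, f h =
            ∑ h ∈ P, f h + ∑ i ∈ I, ∑ h ∈ Pc i, f h := by
          by_cases hi : i0 ∈ I
          · rw [Finset.insert_eq_of_mem hi, ← Finset.add_sum_erase I _ hi, ← Finset.add_sum_erase I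
              (fun i => ∑ h ∈ Pc i, f h) hi, Function.update_self, hPc0 hi]
            simp only [Finset.sum_empty, zero_add]
            congr 1
            refine Finset.sum_congr rfl fun i hi' => ?_
            rw [Function.update_of_ne (Finset.ne_of_mem_erase hi')]
          · rw [Finset.sum_insert hi, Function.update_self]
            congr 1
            refine Finset.sum_congr rfl fun i hi' => ?_
            rw [Function.update_of_ne]
            rintro rfl
            exact hi hi'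
        rw [hI]
        ring

open Classical in
/-- Chunk GREEDY: remove popular neighbourhoods one after the other. -/
theorem greedy (M W : ℕ) (hM : 1 ≤ M) (hW : 1 ≤ W) (c : ℝ) (hc : 0 < c) (R : ℤ → ℤ → Prop)
    (H : Finset ℤ) (hH : H ⊆ Finset.Ioo (-(M : ℤ)) M) :
    ∃ (I : Finset ℤ) (Pc : ℤ → Finset ℤ) (H' : Finset ℤ), H' ⊆ H ∧ (I.card : ℝ) ≤ 2 * W / c ∧
      (∀ i ∈ I, Pc i ⊆ H ∧ ∀ h ∈ Pc i, R h i) ∧
      (∀ f : ℤ → ℝ, ∑ h ∈ H, f h = ∑ h ∈ H', f h + ∑ i ∈ I, ∑ h ∈ Pc i, f h) ∧
      ∀ h ∈ H', ((H'.filter fun h' => R h' h).card : ℝ) < c * M / W := by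
  have hM' : (0 : ℝ) < M := by exact_mod_cast hM
  have hW' : (0 : ℝ) < W := by exact_mod_cast hW
  obtain ⟨I, Pc, H', h1, h2, h3, h4, h5⟩ := greedy_aux (c * M / W) (by positivity) R _ H rfl
  refine ⟨I, Pc, H', h1, ?_, h3, h4, h5⟩
  have hcard : (H.card : ℝ) ≤ 2 * M := by
    have h6 := Finset.card_le_card hH
    rw [Int.card_Ioo] at h6
    have h7 : H.card ≤ 2 * M := by omega
    exact_mod_cast h7
  rw [le_div_iff₀ hc]
  have h6 : (I.card : ℝ) * (c * M / W) ≤ 2 * M := h2.trans hcard
  have h7 : (I.card : ℝ) * (c * M / W) = (I.card : ℝ) * c * M / W := by ring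
  rw [h7, div_le_iff₀ hW'] at h6
  have h8 : ((I.card : ℝ) * c) * M ≤ (2 * W) * M := by linarith
  exact le_of_mul_le_mul_right h8 hM'

end Pool.Agent.Lib.H18GB
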