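import Pool.Agent.Lib.H18GB.U

/-!
# Project GB: MH (second moments of the suprema, from U)
-/

namespace Pool.Agent.Lib.H18GB

open Finset Pool.Agent.Lib.Sieve Filter

theorem mh_ev1 (W : ℕ) (δ : ℝ) (hδ : 0 < δ) :
    ∀ᶠ N : ℕ in atTop, (1 + Real.log (4 * W * N)) ^ 4 ≤ δ * Real.sqrt N := by
  set c : ℝ := 1 + 16 * (4 * (W : ℝ)) ^ (1 / 16 : ℝ) with hc
  have hc0 : 0 < c := by positivity
  have h1 : Tendsto (fun N : ℕ => ((N : ℝ)) ^ (1 / 4 : ℝ)) atTop atTop :=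
    (tendsto_rpow_atTop (by norm_num)).comp tendsto_natCast_atTop_atTop
  filter_upwards [h1.eventually_ge_atTop (c ^ 4 / δ), eventually_ge_atTop 1] with N hN hN1
  have hN1' : (1 : ℝ) ≤ N := by exact_mod_cast hN1
  have hNp : (0 : ℝ) < N := by linarith
  have h16 : (1 : ℝ) ≤ (N : ℝ) ^ (1 / 16 : ℝ) := Real.one_le_rpow hN1' (by norm_num)
  have hlog : Real.log (4 * W * N) ≤ 16 * (4 * (W : ℝ)) ^ (1 / 16 : ℝ) * (N : ℝ) ^ (1 / 16 : ℝ) := by
    have := Real.log_le_rpow_div (x := 4 * W * N) (by positivity) (ε := 1 / 16) (by norm_num)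
    rw [Real.mul_rpow (by positivity) (by positivity)] at this
    calc _ ≤ _ := this
      _ = _ := by ring
  have hD : 1 + Real.log (4 * W * N) ≤ c * (N : ℝ) ^ (1 / 16 : ℝ) := by
    rw [hc]; nlinarith
  have hD0 : 0 ≤ 1 + Real.log (4 * W * N) := by
    rcases Nat.eq_zero_or_pos W with h | h
    · subst h; simp
    · have : (1 : ℝ) ≤ W := by exact_mod_cast h
      have : 0 ≤ Real.log (4 * W * N) := Real.log_nonneg (by nlinarith)
      linarith
  calc (1 + Real.log (4 * W * N)) ^ 4 ≤ (c * (N : ℝ) ^ (1 / 16 : ℝ)) ^ 4 :=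
        pow_le_pow_left₀ hD0 hD 4
    _ = c ^ 4 * (N : ℝ) ^ (1 / 4 : ℝ) := by
        rw [mul_pow, ← Real.rpow_natCast (_ ^ _), ← Real.rpow_mul (by positivity)]
        norm_num
    _ ≤ (δ * (N : ℝ) ^ (1 / 4 : ℝ)) * (N : ℝ) ^ (1 / 4 : ℝ) := by
        apply mul_le_mul_of_nonneg_right _ (by positivity)
        rw [div_le_iff₀ hδ] at hN
        linarith
    _ = δ * Real.sqrt N := by
        rw [Real.sqrt_eq_rpow, mul_assoc, ← Real.rpow_add hNp]
        norm_num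

theorem mh_uu_bound {W : ℕ} (hW : 0 < W) {N : ℕ} {r n : ℤ} (hr : |r| < 2 * W) (h0 : 0 ≤ n)
    (h1 : n < 2 * N) : |uu W r n| ≤ 1 + Real.log (4 * W * N) := by
  have hN : 1 ≤ N := by omega
  have hN' : (1 : ℝ) ≤ N := by exact_mod_cast hN
  have hW' : (1 : ℝ) ≤ W := by exact_mod_cast hW
  have hlog0 : 0 ≤ Real.log (4 * W * N) := Real.log_nonneg (by nlinarith)
  have hl0 : 0 ≤ lam W r n := by
    unfold lam lamv
    split_ifs
    · positivity
    · exact le_rfl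
  have hl1 : lam W r n ≤ Real.log (4 * W * N) := by
    unfold lam lamv
    split_ifs with hp
    · have h2 : ((Nat.totient W : ℝ) / W) ≤ 1 := by
        rw [div_le_one (by positivity)]
        exact_mod_cast Nat.totient_le W
      have h3 : ((r + W * n).natAbs : ℝ) ≤ 4 * W * N := by
        have hr' := abs_lt.mp hr
        have hWz : (1 : ℤ) ≤ W := by exact_mod_cast hW
        have hNz : (1 : ℤ) ≤ N := by exact_mod_cast hN
        have : |r + W * n| ≤ 4 * W * N := by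
          rw [abs_le]
          constructor <;> nlinarith
        have h4 : (((r + W * n).natAbs : ℤ) : ℝ) ≤ ((4 * W * N : ℤ) : ℝ) := by
          exact_mod_cast (Int.natCast_natAbs _ ▸ this)
        push_cast at h4 ⊢
        simpa using h4
      have h5 : Real.log ((r + W * n).natAbs : ℝ) ≤ Real.log (4 * W * N) :=
        Real.log_le_log (by exact_mod_cast hp.pos) h3
      have h6 : 0 ≤ Real.log ((r + W * n).natAbs : ℝ) := by positivity
      calc _ ≤ 1 * Real.log ((r + W * n).natAbs : ℝ) := mul_le_mul_of_nonneg_right h2 h6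
        _ ≤ _ := by linarith
    · exact hlog0
  unfold uu
  rw [abs_le]
  constructor <;> linarith


/-- difference between the truncated and the untruncated sum -/
theorem mh_diff {W : ℕ} (hW : 0 < W) {N : ℕ} (hN : 1 ≤ N) {r : ℤ} (hr : |r| < 2 * W) (R : ℕ)
    (f : ℤ → ℂ)
    (hf : ∀ n, f n = if 0 ≤ n ∧ n < 2 * N ∧ (R : ℤ) < |r + W * n| then (uu W r n : ℂ) else 0)
    (h : ℤ) (θ : ℝ) :
    ‖∑ n ∈ Finset.Ico (-(2 * N : ℤ)) (2 * N), f n * (starRingEnd ℂ) (f (n + h)) * e (θ * n)‖ ≤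
      ‖∑ n ∈ Finset.Ico (0 : ℤ) (2 * N : ℕ), uc W r (2 * N : ℕ) n * uc W r (2 * N : ℕ) (n + h) *
        e (θ * n)‖ + 2 * (2 * R + 1) * (1 + Real.log (4 * W * N)) ^ 2 := by
  classical
  set D : ℝ := 1 + Real.log (4 * W * N) with hD
  have hN' : (1 : ℝ) ≤ N := by exact_mod_cast hN
  have hW' : (1 : ℝ) ≤ W := by exact_mod_cast hW
  have hD0 : 0 ≤ D := by
    have : 0 ≤ Real.log (4 * W * N) := Real.log_nonneg (by nlinarith)
    linarith
  set B : Finset ℤ := (Finset.Ico (-(2 * N : ℤ)) (2 * N)).filter (fun n => |r + W * n| ≤ R) with hB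
  have hBcard : ∀ B' : Finset ℤ, (∀ n ∈ B', |r + W * n| ≤ R) → (B'.card : ℝ) ≤ 2 * R + 1 := by
    intro B' hB'
    have h1 : (B'.image (fun n : ℤ => r + W * n)).card = B'.card := by
      apply Finset.card_image_of_injective
      intro a b hab
      have hWz : (W : ℤ) ≠ 0 := by exact_mod_cast hW.ne'
      simp only [add_right_inj] at hab
      exact mul_left_cancel₀ hWz hab
    have h2 : B'.image (fun n : ℤ => r + W * n) ⊆ Finset.Icc (-(R : ℤ)) R := by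
      intro x hx
      rw [Finset.mem_image] at hx
      obtain ⟨n, hn, rfl⟩ := hx
      rw [Finset.mem_Icc]
      exact abs_le.mp (hB' n hn)
    have h3 := Finset.card_le_card h2
    rw [h1, Int.card_Icc] at h3
    have h4 : B'.card ≤ 2 * R + 1 := by omega
    exact_mod_cast h4
  have hucn : ∀ n, ‖uc W r (2 * N : ℕ) n‖ ≤ D := by
    intro n
    unfold uc
    split_ifs with hn
    · rw [Complex.norm_real]
      exact mh_uu_bound hW hr hn.1 (by push_cast at hn; exact hn.2)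
    · simpa using hD0
  -- extension of the second sum
  have hext : ∑ n ∈ Finset.Ico (0 : ℤ) (2 * N : ℕ), uc W r (2 * N : ℕ) n *
      uc W r (2 * N : ℕ) (n + h) * e (θ * n) =
      ∑ n ∈ Finset.Ico (-(2 * N : ℤ)) (2 * N), uc W r (2 * N : ℕ) n *
      uc W r (2 * N : ℕ) (n + h) * e (θ * n) := by
    apply Finset.sum_subset
    · intro n hn
      rw [Finset.mem_Ico] at hn ⊢
      push_cast at hn
      constructor <;> omega
    · intro n _ hn
      rw [Finset.mem_Ico] at hn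
      have : uc W r (2 * N : ℕ) n = 0 := by
        unfold uc
        rw [if_neg hn]
      rw [this]; ring
  rw [hext]
  have hdiff : ∀ n ∈ Finset.Ico (-(2 * N : ℤ)) (2 * N),
      ‖f n * (starRingEnd ℂ) (f (n + h)) * e (θ * n) - uc W r (2 * N : ℕ) n *
      uc W r (2 * N : ℕ) (n + h) * e (θ * n)‖ ≤
      D ^ 2 * ((if |r + W * n| ≤ R then 1 else 0) + (if |r + W * (n + h)| ≤ R then 1 else 0)) := by
    intro n hn
    have hcj : (starRingEnd ℂ) (f (n + h)) = f (n + h) := by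
      rw [hf]
      split_ifs
      · exact Complex.conj_ofReal _
      · simp
    rw [hcj, ← sub_mul, norm_mul, norm_e, mul_one]
    by_cases h1 : |r + W * n| ≤ R
    · have : f n = 0 := by
        rw [hf, if_neg]
        rintro ⟨-, -, h3⟩
        omega
      rw [this, zero_mul, zero_sub, norm_neg, norm_mul, if_pos h1]
      have h5 : (0 : ℝ) ≤ (if |r + W * (n + h)| ≤ R then 1 else 0) := by split_ifs <;> norm_num
      have := mul_le_mul (hucn n) (hucn (n + h)) (norm_nonneg _) hD0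
      nlinarith [sq_nonneg D, mul_nonneg (sq_nonneg D) h5]
    · by_cases h2 : |r + W * (n + h)| ≤ R
      · have : f (n + h) = 0 := by
          rw [hf, if_neg]
          rintro ⟨-, -, h3⟩
          omega
        rw [this, mul_zero, zero_sub, norm_neg, norm_mul, if_pos h2, if_neg h1]
        have := mul_le_mul (hucn n) (hucn (n + h)) (norm_nonneg _) hD0
        nlinarith
      · have e1 : f n = uc W r (2 * N : ℕ) n := by
          rw [hf]; unfold uc
          push_cast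
          by_cases h3 : 0 ≤ n ∧ n < 2 * N
          · rw [if_pos ⟨h3.1, h3.2, by omega⟩, if_pos h3]
          · rw [if_neg, if_neg h3]
            rintro ⟨a, b, -⟩
            exact h3 ⟨a, b⟩
        have e2 : f (n + h) = uc W r (2 * N : ℕ) (n + h) := by
          rw [hf]; unfold uc
          push_cast
          by_cases h3 : 0 ≤ n + h ∧ n + h < 2 * N
          · rw [if_pos ⟨h3.1, h3.2, by omega⟩, if_pos h3]
          · rw [if_neg, if_neg h3]
            rintro ⟨a, b, -⟩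
            exact h3 ⟨a, b⟩
        rw [e1, e2, sub_self, norm_zero, if_neg h1, if_neg h2]
        simp
  have hsum : ∑ n ∈ Finset.Ico (-(2 * N : ℤ)) (2 * N),
      D ^ 2 * (((if |r + W * n| ≤ R then 1 else 0) + (if |r + W * (n + h)| ≤ R then 1 else 0) : ℝ))
      ≤ 2 * (2 * R + 1) * D ^ 2 := by
    rw [← Finset.mul_sum, Finset.sum_add_distrib]
    have c1 : ∑ n ∈ Finset.Ico (-(2 * N : ℤ)) (2 * N), (if |r + W * n| ≤ R then (1 : ℝ) else 0) ≤
        2 * R + 1 := by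
      rw [← Finset.sum_filter, Finset.sum_const, nsmul_eq_mul, mul_one]
      apply hBcard
      intro n hn
      exact (Finset.mem_filter.mp hn).2
    have c2 : ∑ n ∈ Finset.Ico (-(2 * N : ℤ)) (2 * N), (if |r + W * (n + h)| ≤ R then (1 : ℝ) else 0)
        ≤ 2 * R + 1 := by
      rw [← Finset.sum_filter, Finset.sum_const, nsmul_eq_mul, mul_one]
      have := hBcard (((Finset.Ico (-(2 * N : ℤ)) (2 * N)).filter
        (fun n => |r + W * (n + h)| ≤ R)).image (fun n => n + h)) (by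
          intro n hn
          rw [Finset.mem_image] at hn
          obtain ⟨a, ha, rfl⟩ := hn
          exact (Finset.mem_filter.mp ha).2)
      rwa [Finset.card_image_of_injective _ (add_left_injective h)] at this
    nlinarith [sq_nonneg D]
  have hfin : ‖∑ n ∈ Finset.Ico (-(2 * N : ℤ)) (2 * N), f n * (starRingEnd ℂ) (f (n + h)) * e (θ * n) -
      ∑ n ∈ Finset.Ico (-(2 * N : ℤ)) (2 * N), uc W r (2 * N : ℕ) n *
      uc W r (2 * N : ℕ) (n + h) * e (θ * n)‖ ≤ 2 * (2 * R + 1) * D ^ 2 := by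
    rw [← Finset.sum_sub_distrib]
    exact (norm_sum_le_of_le _ hdiff).trans hsum
  have := norm_sub_norm_le (∑ n ∈ Finset.Ico (-(2 * N : ℤ)) (2 * N), f n *
    (starRingEnd ℂ) (f (n + h)) * e (θ * n)) (∑ n ∈ Finset.Ico (-(2 * N : ℤ)) (2 * N),
    uc W r (2 * N : ℕ) n * uc W r (2 * N : ℕ) (n + h) * e (θ * n))
  linarith

theorem mh_er_le_two {C A w : ℕ} (hw : 1 ≤ w) : er C A w ≤ 2 := by
  unfold er
  have h1 : (2 : ℝ) ^ (-(A : ℝ) / C) ≤ 1 := by
    apply Real.rpow_le_one_of_one_le_of_nonpos (by norm_num)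
    apply div_nonpos_of_nonpos_of_nonneg
    · simp
    · positivity
  have h2 : (w : ℝ) ^ (-(1 : ℝ) / C) ≤ 1 := by
    apply Real.rpow_le_one_of_one_le_of_nonpos (by exact_mod_cast hw)
    apply div_nonpos_of_nonpos_of_nonneg
    · norm_num
    · positivity
  linarith

/-- correlations of `1 + rho` -/
theorem mh_corr : ∃ C : ℕ, 2 ≤ C ∧ ∀ (w z W N : ℕ) (S : Finset ℕ), C ≤ w → 2 ≤ z → PSet w z S →
    IsW w W → z ^ C ≤ N → ∀ (r h : ℤ),
    ∑ n ∈ Finset.Ico (0 : ℤ) (2 * N), (1 + rho S (r + W * n)) * (1 + rho S (r + W * (n + h))) ≤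
      C * N * (1 + Ers (9 / 10) S h) := by
  classical
  obtain ⟨C1, hC1, H1⟩ := corr0 1
  obtain ⟨C2, hC2, H2⟩ := corr0 2
  refine ⟨100 * (C1 + C2), by omega, ?_⟩
  intro w z W N S hw hz hS hW hzN r h
  have hw1 : 1 ≤ w := by omega
  have hSp := hS.prime
  have hE : 0 ≤ Ers (9 / 10) S h := Ers_nonneg _ _ _
  have hN0 : (0 : ℝ) ≤ N := Nat.cast_nonneg _
  have hpw : ∀ k : ℕ, k ≤ 100 * (C1 + C2) → (z : ℝ) ^ k ≤ N := by
    intro k hk
    have : z ^ k ≤ z ^ (100 * (C1 + C2)) := Nat.pow_le_pow_right (by omega) hk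
    exact_mod_cast this.trans hzN
  have hWp : ∀ p ∈ S, ¬ (p : ℤ) ∣ (W : ℤ) := hW.not_dvd hS
  have s1 : ∀ β : ℤ, ∑ n ∈ Finset.Ico (0 : ℤ) (2 * N), rho S (W * n + β) ≤
      2 * N * (1 + 2 * C1) + C1 * N := by
    intro β
    have := H1 C1 w z S le_rfl (by omega) hz hS (fun _ => W) (fun _ => β) (fun p hp _ => hWp p hp)
      0 (2 * N) (by omega)
    simp only [Fin.prod_univ_one, Fin.sum_univ_one] at this
    have hfil : Finset.univ.filter (fun j : Fin 1 => (0 : Fin 1) ≠ j) = ∅ := by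
      ext j; simp [Subsingleton.elim j 0]
    rw [hfil, Finset.sum_empty] at this
    have h2 := (abs_le.mp this).2
    have h3 := hpw (C1 + 1) (by omega)
    have h4 : er C1 C1 w ≤ 2 := mh_er_le_two hw1
    have hC1' : (1 : ℝ) ≤ C1 := by exact_mod_cast hC1
    push_cast at h2
    have h5 : (C1 : ℝ) * er C1 C1 w ≤ C1 * 2 := mul_le_mul_of_nonneg_left h4 (by linarith)
    have h6 : (C1 : ℝ) * (z : ℝ) ^ (C1 + 1) ≤ C1 * N := mul_le_mul_of_nonneg_left h3 (by linarith)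
    nlinarith
  have s2 : ∑ n ∈ Finset.Ico (0 : ℤ) (2 * N), rho S (W * n + r) * rho S (W * n + (r + W * h)) ≤
      2 * N * (1 + 2 * C2 + 2 * C2 * Ers (9 / 10) S h) + C2 * N := by
    have := H2 C2 w z S le_rfl (by omega) hz hS (fun _ => W) (fun i => if i = 0 then r else r + W * h)
      (fun p hp _ => hWp p hp) 0 (2 * N) (by omega)
    simp only [Fin.prod_univ_two, Fin.sum_univ_two] at this
    have hf0 : Finset.univ.filter (fun j : Fin 2 => (0 : Fin 2) ≠ j) = {1} := by decide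
    have hf1 : Finset.univ.filter (fun j : Fin 2 => (1 : Fin 2) ≠ j) = {0} := by decide
    rw [hf0, hf1, Finset.sum_singleton, Finset.sum_singleton] at this
    have hd1 : disc (fun _ : Fin 2 => (W : ℤ)) (fun i : Fin 2 => if i = 0 then r else r + W * h) 0 1 =
        (W * W : ℤ) * h := by
      simp [disc]; ring
    have hd2 : disc (fun _ : Fin 2 => (W : ℤ)) (fun i : Fin 2 => if i = 0 then r else r + W * h) 1 0 =
        -((W * W : ℤ) * h) := by
      simp [disc]; ring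
    have hWWp : ∀ p ∈ S, ¬ (p : ℤ) ∣ (W * W : ℤ) := by
      intro p hp hd
      rcases (Nat.prime_iff_prime_int.mp (hSp p hp)).dvd_or_dvd hd with h | h
      · exact hWp p hp h
      · exact hWp p hp h
    rw [hd1, hd2, ers_neg, ers_mul hSp _ _ _ hWWp] at this
    simp only [if_true, one_ne_zero, if_false] at this
    have h2 := (abs_le.mp this).2
    have h3 := hpw (C2 + 2) (by omega)
    have h4 : er C2 C2 w ≤ 2 := mh_er_le_two hw1
    have hC1' : (1 : ℝ) ≤ C2 := by exact_mod_cast hC2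
    push_cast at h2
    have h5 : (C2 : ℝ) * er C2 C2 w ≤ C2 * 2 := mul_le_mul_of_nonneg_left h4 (by linarith)
    have h6 : (C2 : ℝ) * (z : ℝ) ^ (C2 + 2) ≤ C2 * N := mul_le_mul_of_nonneg_left h3 (by linarith)
    nlinarith
  have hexp : ∑ n ∈ Finset.Ico (0 : ℤ) (2 * N), (1 + rho S (r + W * n)) *
      (1 + rho S (r + W * (n + h))) =
      2 * N + ∑ n ∈ Finset.Ico (0 : ℤ) (2 * N), rho S (W * n + r) +
      ∑ n ∈ Finset.Ico (0 : ℤ) (2 * N), rho S (W * n + (r + W * h)) +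
      ∑ n ∈ Finset.Ico (0 : ℤ) (2 * N), rho S (W * n + r) * rho S (W * n + (r + W * h)) := by
    have hc : (2 * N : ℝ) = ∑ n ∈ Finset.Ico (0 : ℤ) (2 * N), (1 : ℝ) := by
      rw [Finset.sum_const, Int.card_Ico, nsmul_eq_mul, mul_one]
      have : ((2 * N : ℤ) - 0).toNat = 2 * N := by omega
      rw [this]; push_cast; ring
    rw [hc, ← Finset.sum_add_distrib, ← Finset.sum_add_distrib, ← Finset.sum_add_distrib]
    apply Finset.sum_congr rfl
    intro n _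
    have e1 : r + (W : ℤ) * n = W * n + r := by ring
    have e2 : r + (W : ℤ) * (n + h) = W * n + (r + W * h) := by ring
    rw [e1, e2]
    ring
  rw [hexp]
  have a1 := s1 r
  have a2 := s1 (r + W * h)
  have hC1' : (1 : ℝ) ≤ C1 := by exact_mod_cast hC1
  have hC2' : (1 : ℝ) ≤ C2 := by exact_mod_cast hC2
  push_cast
  have e1 : 0 ≤ (N : ℝ) * Ers (9 / 10) S h := mul_nonneg hN0 hE
  have e2 : 0 ≤ (C1 : ℝ) * (N * Ers (9 / 10) S h) := mul_nonneg (by linarith) e1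
  have e3 : 0 ≤ (C2 : ℝ) * (N * Ers (9 / 10) S h) := mul_nonneg (by linarith) e1
  have e4 : 0 ≤ (C1 - 1 : ℝ) * N := mul_nonneg (by linarith) hN0
  have e5 : 0 ≤ (C2 - 1 : ℝ) * N := mul_nonneg (by linarith) hN0
  nlinarith

/-- `N^3` bound for the second moment, given the ingredients -/
theorem mh_square {N : ℕ} {κ Cb ε2 Z : ℝ} (m E : ℤ → ℝ)
    (hm0 : ∀ h, 0 ≤ m h) (hE0 : ∀ h, 0 ≤ E h) (hCb : 0 ≤ Cb)
    (hvan : ∀ h : ℤ, ¬ (-(2 * N : ℤ) < h ∧ h < 2 * N) → m h = 0)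
    (hb : ∀ h, m h ≤ κ ^ 2 * (Cb * N * (1 + E h)))
    (hsum : ∑ h ∈ Finset.Ioo (-(2 * N : ℤ)) (2 * N), m h ≤ ε2 * N ^ 2)
    (hEs : ∑ h ∈ Finset.Ico (-(2 * N : ℤ)) (2 * N), (E h + E h ^ 2) ≤ Z) :
    ∑ h ∈ Finset.Ioo (-(4 * N : ℤ)) (4 * N), m h ^ 2 ≤
      m 0 ^ 2 + κ ^ 2 * Cb * ε2 * N ^ 3 + κ ^ 4 * Cb ^ 2 * N ^ 2 * Z := by
  classical
  have hN0 : (0 : ℝ) ≤ N := Nat.cast_nonneg _
  have h1 : ∑ h ∈ Finset.Ioo (-(4 * N : ℤ)) (4 * N), m h ^ 2 =
      ∑ h ∈ Finset.Ioo (-(2 * N : ℤ)) (2 * N), m h ^ 2 := by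
    symm
    apply Finset.sum_subset
    · intro h hh
      rw [Finset.mem_Ioo] at hh ⊢
      constructor <;> omega
    · intro h _ hh
      rw [Finset.mem_Ioo] at hh
      rw [hvan h hh]; ring
  rw [h1]
  have h2 : ∀ h ∈ Finset.Ioo (-(2 * N : ℤ)) (2 * N), m h ^ 2 ≤
      κ ^ 2 * Cb * N * m h + κ ^ 4 * Cb ^ 2 * N ^ 2 * (E h + E h ^ 2) := by
    intro h _
    have a1 : m h ^ 2 ≤ m h * (κ ^ 2 * (Cb * N * (1 + E h))) := by
      rw [sq]; exact mul_le_mul_of_nonneg_left (hb h) (hm0 h)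
    have a2 : m h * E h ≤ κ ^ 2 * (Cb * N * (1 + E h)) * E h :=
      mul_le_mul_of_nonneg_right (hb h) (hE0 h)
    have a3 : 0 ≤ κ ^ 2 * Cb * N := by positivity
    have a4 := mul_le_mul_of_nonneg_left a2 a3
    calc m h ^ 2 ≤ _ := a1
      _ = κ ^ 2 * Cb * N * m h + κ ^ 2 * Cb * N * (m h * E h) := by ring
      _ ≤ κ ^ 2 * Cb * N * m h + κ ^ 2 * Cb * N * (κ ^ 2 * (Cb * N * (1 + E h)) * E h) := by
          linarith
      _ = _ := by ring
  refine (Finset.sum_le_sum h2).trans ?_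
  rw [Finset.sum_add_distrib, ← Finset.mul_sum, ← Finset.mul_sum]
  have a5 : κ ^ 2 * Cb * N * ∑ h ∈ Finset.Ioo (-(2 * N : ℤ)) (2 * N), m h ≤
      κ ^ 2 * Cb * ε2 * N ^ 3 := by
    calc _ ≤ κ ^ 2 * Cb * N * (ε2 * N ^ 2) :=
          mul_le_mul_of_nonneg_left hsum (by positivity)
      _ = _ := by ring
  have a6 : ∑ h ∈ Finset.Ioo (-(2 * N : ℤ)) (2 * N), (E h + E h ^ 2) ≤ Z := by
    refine le_trans ?_ hEs
    apply Finset.sum_le_sum_of_subset_of_nonneg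
    · intro h hh
      rw [Finset.mem_Ioo] at hh
      rw [Finset.mem_Ico]
      constructor <;> omega
    · intro h _ _
      have := hE0 h
      positivity
  have a7 : κ ^ 4 * Cb ^ 2 * N ^ 2 * ∑ h ∈ Finset.Ioo (-(2 * N : ℤ)) (2 * N), (E h + E h ^ 2) ≤
      κ ^ 4 * Cb ^ 2 * N ^ 2 * Z := mul_le_mul_of_nonneg_left a6 (by positivity)
  have a8 := sq_nonneg (m 0)
  linarith

theorem mh_one_le {a b : ℝ} (ha : 1 ≤ a) (hb : 1 ≤ b) : 1 ≤ 4 * a * b := by nlinarith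

theorem mh_sqrt_le {x : ℝ} (h : 1 ≤ x) : Real.sqrt x ≤ x := by
  have h1 : 1 ≤ Real.sqrt x := Real.one_le_sqrt.mpr h
  have h2 := Real.mul_self_sqrt (by linarith : 0 ≤ x)
  nlinarith

theorem mh_abs5 {W N : ℕ} (hW : 0 < W) (hN : 1 ≤ N) {r n : ℤ} (hr : |r| < 2 * W) (h0 : 0 ≤ n)
    (h1 : n < 2 * N) : |r + W * n| ≤ 5 * W * N := by
  have hr' := abs_lt.mp hr
  have hWz : (1 : ℤ) ≤ W := by exact_mod_cast hW
  have hNz : (1 : ℤ) ≤ N := by exact_mod_cast hN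
  rw [abs_le]
  constructor <;> nlinarith

theorem mh_a1 {a b c k : ℝ} (h1 : a ≤ 1 + b) (h2 : b ≤ k * c) (h3 : 1 ≤ k) : a ≤ k * (1 + c) := by
  linarith

theorem mh_a2 {R D : ℝ} (h : 2 ≤ R) : 2 * (2 * R + 1) * D ^ 2 ≤ 6 * R * D ^ 2 :=
  mul_le_mul_of_nonneg_right (by linarith) (sq_nonneg D)

theorem mh_a3 {R q : ℝ} (h : 2 ≤ R) (h2 : R ^ 2 ≤ q) : R ≤ q := by nlinarith

theorem mh_a4 {a b x N e : ℝ} (h1 : a ≤ x) (h2 : x = e / 8 * (2 * N) ^ 2)
    (h3 : b ≤ 4 * N * (e * N / 8)) : a + b ≤ e * N ^ 2 := by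
  subst h2
  linarith

/-- Chunk MH: from `U` to second moments. `m h = sup_θ |∑_n f(n) conj f(n+h) e(θ n)|` for `f = ` the
truncation of `uc W r M` to `|r + W n| > rt s M`, `M = 2N`: the supremum is attained (continuity and
periodicity in `θ`), so `∑_h m h ≤ ε1 N^2 + small` by `U`, and `m h ≤ κ^2 N (C + E(h))` by `majo` and
`corr0 2`, so `∑ m h^2 ≤ C κ^2 N ∑ m h + κ^4 er N^3`. The statement: for every `s` and `ε` the sum of
the squares is `≤ (ε + C (C s)^4 er) N^3`. -/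
theorem mh : ∃ C : ℕ, 1 ≤ C ∧ ∀ (s A : ℕ) (ε : ℝ), 0 < ε → 1 ≤ s → C ≤ A → C * A ≤ s →
    ∃ w0 : ℕ, ∀ w W : ℕ, w0 ≤ w → IsW w W → ∃ N0 : ℕ, ∀ N : ℕ, N0 ≤ N →
    ∀ r : ℤ, |r| < 2 * W → IsCoprime r (W : ℤ) → ∀ f : ℤ → ℂ,
    (∀ n, f n = if 0 ≤ n ∧ n < 2 * N ∧ (rt s N : ℤ) < |r + W * n| then (uu W r n : ℂ) else 0) →
    ∃ m : ℤ → ℝ, (∀ (h : ℤ) (θ : ℝ), ‖∑ n ∈ Finset.Ico (-(2 * N : ℤ)) (2 * N),
      f n * (starRingEnd ℂ) (f (n + h)) * e (θ * n)‖ ≤ m h) ∧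
      ∑ h ∈ Finset.Ioo (-(4 * N : ℤ)) (4 * N), m h ^ 2 ≤
        (ε + C * s ^ 4 * er C A w) * N ^ 3 := by
  classical
  obtain ⟨CM, hCM, HM⟩ := majo
  obtain ⟨Cc, hCc, Hc⟩ := mh_corr
  obtain ⟨Ce, hCe, He⟩ := ers_sq_le
  obtain ⟨Ca, hCa, Ha⟩ := ers_avg (9 / 10) (by norm_num) (by norm_num)
  obtain ⟨Cb, hCb, Hb⟩ := ers_avg (3 / 4) (by norm_num) (by norm_num)
  have hCc' : (2 : ℝ) ≤ Cc := by exact_mod_cast hCc
  set K0 : ℝ := CM ^ 4 * Cc ^ 2 * (Ca + Ce * Cb) with hK0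
  have hK0p : 0 < K0 := by positivity
  refine ⟨Cc + 4 + ⌈4 * K0⌉₊, by omega, ?_⟩
  intro s A ε hε hs hA hAs
  set C : ℕ := Cc + 4 + ⌈4 * K0⌉₊ with hC
  have hC4 : 4 ≤ C := by omega
  have hCK : 4 * K0 ≤ C := by
    have := Nat.le_ceil (4 * K0)
    have h2 : ((⌈4 * K0⌉₊ : ℕ) : ℝ) ≤ C := by exact_mod_cast (by omega : ⌈4 * K0⌉₊ ≤ C)
    linarith
  have hsC : C ≤ s := by
    have : A ≤ C * A := Nat.le_mul_of_pos_left A (by omega)
    omega
  have hs4 : 4 ≤ s := by omega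
  have hs' : (1 : ℝ) ≤ s := by exact_mod_cast hs
  set κ : ℝ := CM * s with hκ
  have hκ1 : 1 ≤ κ := by rw [hκ]; nlinarith
  have hκ0 : 0 < κ := by linarith
  set ε2 : ℝ := ε / (4 * κ ^ 2 * Cc) with hε2
  have hε2p : 0 < ε2 := by positivity
  obtain ⟨w1, HU⟩ := U (ε2 / 8) (by positivity)
  refine ⟨max w1 (max Cc 1), ?_⟩
  intro w W hw hW
  have hw1 : w1 ≤ w := le_trans (le_max_left _ _) hw
  have hwC : Cc ≤ w := le_trans (le_trans (le_max_left _ _) (le_max_right _ _)) hw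
  have hw1' : 1 ≤ w := by omega
  obtain ⟨M1, HU1⟩ := HU w W hw1 hW
  obtain ⟨M2, HM1⟩ := HM s hs w W hW
  have hWp : 0 < W := hW.1
  set δ : ℝ := ε / 16 with hδ
  have hδp : 0 < δ := by positivity
  have hev : ∀ᶠ N : ℕ in atTop, (1 + Real.log (4 * W * N)) ^ 4 ≤ δ * Real.sqrt N ∧ 2 ≤ rt s N ∧
      M1 ≤ N ∧ M2 ≤ N ∧ 1 ≤ N ∧ 36 * 256 * δ / ε2 ^ 2 ≤ N ∧ 16 / ε2 ≤ N ∧
      4 * (s ^ 4 * K0) / ε ≤ Real.sqrt N := by
    have t1 : Tendsto (fun N : ℕ => (N : ℝ)) atTop atTop := tendsto_natCast_atTop_atTop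
    have t2 : Tendsto (fun N : ℕ => Real.sqrt (N : ℝ)) atTop atTop :=
      Real.tendsto_sqrt_atTop.comp t1
    filter_upwards [mh_ev1 W δ hδp, (rt_tendsto hs).eventually_ge_atTop 2,
      eventually_ge_atTop M1, eventually_ge_atTop M2, eventually_ge_atTop 1,
      t1.eventually_ge_atTop (36 * 256 * δ / ε2 ^ 2), t1.eventually_ge_atTop (16 / ε2),
      t2.eventually_ge_atTop (4 * (s ^ 4 * K0) / ε)] with N h1 h2 h3 h4 h5 h6 h7 h8
    exact ⟨h1, h2, h3, h4, h5, h6, h7, h8⟩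
  obtain ⟨N0, hN0⟩ := eventually_atTop.mp hev
  refine ⟨N0, ?_⟩
  intro N hN r hr hcop f hf
  obtain ⟨g1, g2, g3, g4, g5, g6, g7, g8⟩ := hN0 N hN
  have hN1 : (1 : ℝ) ≤ N := by exact_mod_cast g5
  have hNp : (0 : ℝ) < N := by linarith
  set R : ℕ := rt s N with hR
  set D : ℝ := 1 + Real.log (4 * W * N) with hD
  have hW1 : (1 : ℝ) ≤ W := by exact_mod_cast hWp
  have hD1 : 1 ≤ D := by
    have : 0 ≤ Real.log (4 * W * N) := Real.log_nonneg (mh_one_le hW1 hN1)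
    linarith
  have hRs : R ^ s ≤ N := rt_pow_le hs N
  have hRk : ∀ k, k ≤ s → R ^ k ≤ N := fun k hk =>
    (Nat.pow_le_pow_right (by omega) hk).trans hRs
  have hR2 : (R : ℝ) ^ 2 ≤ Real.sqrt N := by
    apply Real.le_sqrt_of_sq_le
    rw [← pow_mul]
    exact_mod_cast hRk 4 hs4
  have hRp : (2 : ℝ) ≤ R := by exact_mod_cast g2
  have hsq : Real.sqrt N * Real.sqrt N = N := Real.mul_self_sqrt hNp.le
  have hsq0 : 0 ≤ Real.sqrt N := Real.sqrt_nonneg _
  have hsqN : Real.sqrt N ≤ N := mh_sqrt_le hN1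
  set S : Finset ℕ := sprimes w R with hS
  have hPS : PSet w R S := pset_sprimes w R
  have hSp := hPS.prime
  have hfD : ∀ n, ‖f n‖ ≤ D := by
    intro n
    rw [hf]
    split_ifs with h
    · rw [Complex.norm_real]
      exact mh_uu_bound hWp hr h.1 h.2.1
    · simp; linarith
  have hfκ : ∀ n, ‖f n‖ ≤ κ * (1 + rho S (r + W * n)) := by
    intro n
    have hρ := rho_nonneg hSp (r + W * n)
    rw [hf]
    split_ifs with h
    · rw [Complex.norm_real, Real.norm_eq_abs]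
      have h1 : |r + W * n| ≤ 5 * W * N := mh_abs5 hWp g5 hr h.1 h.2.1
      have h2 := HM1 N g4 (r + W * n) h1 h.2.2
      have h3 : 0 ≤ lamv W (r + W * n) := by
        unfold lamv
        split_ifs
        · positivity
        · exact le_rfl
      have h4 : |uu W r n| ≤ 1 + lamv W (r + W * n) := by
        unfold uu lam
        rw [abs_le]; constructor <;> linarith
      exact mh_a1 h4 h2 hκ1
    · rw [norm_zero]; positivity
  have hf0 : ∀ n : ℤ, ¬ (0 ≤ n ∧ n < 2 * N) → f n = 0 := by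
    intro n hn
    rw [hf, if_neg]
    rintro ⟨a, b, -⟩
    exact hn ⟨a, b⟩
  set F : ℤ → ℝ → ℝ := fun h θ => ‖∑ n ∈ Finset.Ico (-(2 * N : ℤ)) (2 * N),
      f n * (starRingEnd ℂ) (f (n + h)) * e (θ * n)‖ with hF
  have hFle : ∀ h θ, F h θ ≤ ∑ n ∈ Finset.Ico (0 : ℤ) (2 * N), ‖f n‖ * ‖f (n + h)‖ := by
    intro h θ
    have e1 : ∑ n ∈ Finset.Ico (0 : ℤ) (2 * N), f n * (starRingEnd ℂ) (f (n + h)) * e (θ * n) =
        ∑ n ∈ Finset.Ico (-(2 * N : ℤ)) (2 * N), f n * (starRingEnd ℂ) (f (n + h)) * e (θ * n) := by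
      apply Finset.sum_subset
      · intro n hn
        rw [Finset.mem_Ico] at hn ⊢
        constructor <;> omega
      · intro n _ hn
        rw [Finset.mem_Ico] at hn
        rw [hf0 n hn]; ring
    rw [hF]
    simp only
    rw [← e1]
    apply norm_sum_le_of_le
    intro n _
    rw [norm_mul, norm_mul, norm_e, mul_one, RCLike.norm_conj]
  have hbdd : ∀ h, BddAbove (Set.range (F h)) := by
    intro h
    refine ⟨∑ n ∈ Finset.Ico (0 : ℤ) (2 * N), ‖f n‖ * ‖f (n + h)‖, ?_⟩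
    rintro x ⟨θ, rfl⟩
    exact hFle h θ
  set m : ℤ → ℝ := fun h => ⨆ θ : ℝ, F h θ with hm
  have hmle : ∀ h θ, F h θ ≤ m h := fun h θ => le_ciSup (hbdd h) θ
  have hm0 : ∀ h, 0 ≤ m h := fun h => le_trans (norm_nonneg _) (hmle h 0)
  have hmub : ∀ h, m h ≤ ∑ n ∈ Finset.Ico (0 : ℤ) (2 * N), ‖f n‖ * ‖f (n + h)‖ :=
    fun h => ciSup_le (hFle h)
  refine ⟨m, hmle, ?_⟩
  have hvan : ∀ h : ℤ, ¬ (-(2 * N : ℤ) < h ∧ h < 2 * N) → m h = 0 := by
    intro h hh
    apply le_antisymm _ (hm0 h)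
    refine (hmub h).trans (le_of_eq ?_)
    apply Finset.sum_eq_zero
    intro n hn
    rw [Finset.mem_Ico] at hn
    rw [hf0 (n + h), norm_zero, mul_zero]
    omega
  have hex : ∀ h, ∃ θ : ℝ, m h - 1 < F h θ := fun h => exists_lt_of_lt_ciSup (by linarith)
  choose θ hθ using hex
  have hU2 := HU1 (2 * N) (by omega) r hr hcop θ
  have herr : 2 * (2 * (R : ℝ) + 1) * D ^ 2 + 1 ≤ ε2 * N / 8 := by
    have c1 : 2 * (2 * (R : ℝ) + 1) * D ^ 2 ≤ 6 * R * D ^ 2 := mh_a2 hRp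
    have c2 : (6 * R * D ^ 2) ^ 2 ≤ (ε2 * N / 16) ^ 2 := by
      have c3 : (6 * R * D ^ 2) ^ 2 = 36 * (R ^ 2 * D ^ 4) := by ring
      have c4 : (R : ℝ) ^ 2 * D ^ 4 ≤ Real.sqrt N * (δ * Real.sqrt N) :=
        mul_le_mul hR2 g1 (by positivity) hsq0
      have c5 : Real.sqrt N * (δ * Real.sqrt N) = δ * N := by
        rw [mul_left_comm, hsq]
      have c6 : 36 * 256 * δ ≤ N * ε2 ^ 2 := by
        rwa [div_le_iff₀ (by positivity)] at g6
      rw [c3]
      have c7 : (ε2 * N / 16) ^ 2 = N * ε2 ^ 2 * N / 256 := by ring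
      rw [c7]
      have c8 := mul_le_mul_of_nonneg_right c6 hNp.le
      linarith
    have c9 : 6 * R * D ^ 2 ≤ ε2 * N / 16 := by
      exact (pow_le_pow_iff_left₀ (by positivity) (by positivity) two_ne_zero).mp c2
    have c10 : 1 ≤ ε2 * N / 16 := by
      rw [div_le_iff₀ hε2p] at g7
      linarith
    linarith
  have hsum : ∑ h ∈ Finset.Ioo (-(2 * N : ℤ)) (2 * N), m h ≤ ε2 * N ^ 2 := by
    have d1 : ∀ h ∈ Finset.Ioo (-(2 * N : ℤ)) (2 * N), m h ≤
        ‖∑ n ∈ Finset.Ico (0 : ℤ) (2 * N : ℕ), uc W r (2 * N : ℕ) n * uc W r (2 * N : ℕ) (n + h) *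
        e (θ h * n)‖ + ε2 * N / 8 := by
      intro h _
      have := hθ h
      have d2 := mh_diff hWp g5 hr R f hf h (θ h)
      simp only [hF] at this
      linarith
    refine (Finset.sum_le_sum d1).trans ?_
    rw [Finset.sum_add_distrib, Finset.sum_const, Int.card_Ioo, nsmul_eq_mul]
    have d3 : ((2 * N : ℤ) - (-(2 * N : ℤ)) - 1).toNat ≤ 4 * N := by omega
    have d4 : (((2 * N : ℤ) - (-(2 * N : ℤ)) - 1).toNat : ℝ) ≤ 4 * N := by exact_mod_cast d3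
    have d5 : (0 : ℝ) ≤ ε2 * N / 8 := by positivity
    have d6 := mul_le_mul_of_nonneg_right d4 d5
    refine mh_a4 (a := _) (x := ε2 / 8 * (2 * (N : ℝ)) ^ 2) ?_ rfl d6
    push_cast at hU2 ⊢
    exact hU2
  set E : ℤ → ℝ := fun h => Ers (9 / 10) S h with hE
  have hE0 : ∀ h, 0 ≤ E h := fun h => Ers_nonneg _ _ _
  have hb : ∀ h, m h ≤ κ ^ 2 * (Cc * N * (1 + E h)) := by
    intro h
    refine (hmub h).trans ?_
    have b1 : ∑ n ∈ Finset.Ico (0 : ℤ) (2 * N), ‖f n‖ * ‖f (n + h)‖ ≤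
        κ ^ 2 * ∑ n ∈ Finset.Ico (0 : ℤ) (2 * N), (1 + rho S (r + W * n)) *
          (1 + rho S (r + W * (n + h))) := by
      rw [Finset.mul_sum]
      apply Finset.sum_le_sum
      intro n _
      have r1 := rho_nonneg hSp (r + W * n)
      calc _ ≤ κ * (1 + rho S (r + W * n)) * (κ * (1 + rho S (r + W * (n + h)))) :=
            mul_le_mul (hfκ n) (hfκ (n + h)) (norm_nonneg _) (by positivity)
        _ = _ := by ring
    refine b1.trans ?_
    apply mul_le_mul_of_nonneg_left _ (by positivity)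
    exact Hc w R W N S hwC (by omega) hPS hW (hRk Cc (by omega)) r h
  set wr : ℝ := (w : ℝ) ^ (-(3 / 4 : ℝ)) with hwr
  have hw1r : (1 : ℝ) ≤ w := by exact_mod_cast hw1'
  have hwr9 : (w : ℝ) ^ (-(9 / 10 : ℝ)) ≤ wr :=
    Real.rpow_le_rpow_of_exponent_le hw1r (by norm_num)
  have hwr0 : 0 ≤ wr := by positivity
  have hEs : ∑ h ∈ Finset.Ico (-(2 * N : ℤ)) (2 * N), (E h + E h ^ 2) ≤
      (Ca + Ce * Cb) * (4 * N * wr + R) := by
    rw [Finset.sum_add_distrib]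
    have p1 := Ha w R S hw1' hPS 1 0 (fun p hp h => by
      have := Int.eq_one_of_dvd_one (by positivity) h
      have h2 := (hSp p hp).one_lt
      omega) (-(2 * N : ℤ)) (2 * N) (by omega)
    have p2 := Hb w R S hw1' hPS 1 0 (fun p hp h => by
      have := Int.eq_one_of_dvd_one (by positivity) h
      have h2 := (hSp p hp).one_lt
      omega) (-(2 * N : ℤ)) (2 * N) (by omega)
    simp only [one_mul, add_zero] at p1 p2
    push_cast at p1 p2
    have p3 : ∑ h ∈ Finset.Ico (-(2 * N : ℤ)) (2 * N), E h ^ 2 ≤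
        Ce * ∑ h ∈ Finset.Ico (-(2 * N : ℤ)) (2 * N), Ers (3 / 4) S h := by
      rw [Finset.mul_sum]
      exact Finset.sum_le_sum fun h _ => He w R S h hPS
    have p4 : Ce * ∑ h ∈ Finset.Ico (-(2 * N : ℤ)) (2 * N), Ers (3 / 4) S h ≤
        Ce * (Cb * ((2 * N - -(2 * N)) * wr + R)) := mul_le_mul_of_nonneg_left p2 (by linarith)
    have p5 : Ca * ((2 * N - -(2 * N)) * (w : ℝ) ^ (-(9 / 10 : ℝ)) + R) ≤
        Ca * ((2 * N - -(2 * N)) * wr + R) := by
      apply mul_le_mul_of_nonneg_left _ (by linarith)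
      have : (0 : ℝ) ≤ 2 * N - -(2 * N) := by linarith
      have := mul_le_mul_of_nonneg_left hwr9 this
      linarith
    have p6 : ∑ h ∈ Finset.Ico (-(2 * N : ℤ)) (2 * N), E h ≤
        Ca * ((2 * N - -(2 * N)) * wr + R) := p1.trans p5
    calc _ ≤ Ca * ((2 * N - -(2 * N)) * wr + R) + Ce * (Cb * ((2 * N - -(2 * N)) * wr + R)) := by
          linarith
      _ = _ := by ring
  have hfin := mh_square m E hm0 hE0 (by linarith : (0 : ℝ) ≤ Cc) hvan hb hsum hEs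
  refine hfin.trans ?_
  -- the three terms
  have q1 : m 0 ^ 2 ≤ ε / 4 * N ^ 3 := by
    have r1 : m 0 ≤ 2 * N * D ^ 2 := by
      refine (hmub 0).trans ?_
      have : ∀ n ∈ Finset.Ico (0 : ℤ) (2 * N), ‖f n‖ * ‖f (n + 0)‖ ≤ D ^ 2 := by
        intro n _
        rw [sq]
        exact mul_le_mul (hfD n) (hfD _) (norm_nonneg _) (by linarith)
      refine (Finset.sum_le_sum this).trans ?_
      rw [Finset.sum_const, Int.card_Ico, nsmul_eq_mul]
      have : ((2 * N : ℤ) - 0).toNat = 2 * N := by omega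
      rw [this]; push_cast; exact le_rfl
    have r2 : m 0 ^ 2 ≤ (2 * N * D ^ 2) ^ 2 := pow_le_pow_left₀ (hm0 0) r1 2
    have r3 : (2 * N * D ^ 2) ^ 2 = 4 * N ^ 2 * D ^ 4 := by ring
    have r4 : 4 * (N : ℝ) ^ 2 * D ^ 4 ≤ 4 * N ^ 2 * (δ * Real.sqrt N) :=
      mul_le_mul_of_nonneg_left g1 (by positivity)
    have r5 : 4 * (N : ℝ) ^ 2 * (δ * Real.sqrt N) ≤ 4 * N ^ 2 * (δ * N) :=
      mul_le_mul_of_nonneg_left (mul_le_mul_of_nonneg_left hsqN hδp.le) (by positivity)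
    have r6 : 4 * (N : ℝ) ^ 2 * (δ * N) = ε / 4 * N ^ 3 := by rw [hδ]; ring
    linarith
  have q2 : κ ^ 2 * Cc * ε2 * N ^ 3 = ε / 4 * N ^ 3 := by
    rw [hε2]; field_simp
  have q3 : κ ^ 4 * Cc ^ 2 * N ^ 2 * ((Ca + Ce * Cb) * (4 * N * wr + R)) =
      s ^ 4 * (4 * K0) * wr * N ^ 3 + s ^ 4 * K0 * N ^ 2 * R := by
    rw [hκ, hK0]; ring
  have q4 : s ^ 4 * K0 * N ^ 2 * R ≤ ε / 4 * N ^ 3 := by
    have r1 : (R : ℝ) ≤ Real.sqrt N := mh_a3 hRp hR2
    have r2 : 4 * (s ^ 4 * K0) ≤ Real.sqrt N * ε := by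
      rwa [div_le_iff₀ hε] at g8
    have r3 : s ^ 4 * K0 * R ≤ ε / 4 * N := by
      calc s ^ 4 * K0 * R ≤ s ^ 4 * K0 * Real.sqrt N :=
            mul_le_mul_of_nonneg_left r1 (by positivity)
        _ ≤ Real.sqrt N * ε / 4 * Real.sqrt N :=
            mul_le_mul_of_nonneg_right (by linarith) hsq0
        _ = ε / 4 * (Real.sqrt N * Real.sqrt N) := by ring
        _ = _ := by rw [hsq]
    calc s ^ 4 * K0 * N ^ 2 * R = N ^ 2 * (s ^ 4 * K0 * R) := by ring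
      _ ≤ N ^ 2 * (ε / 4 * N) := mul_le_mul_of_nonneg_left r3 (by positivity)
      _ = _ := by ring
  have q5 : s ^ 4 * (4 * K0) * wr * (N : ℝ) ^ 3 ≤ C * s ^ 4 * er C A w * N ^ 3 := by
    apply mul_le_mul_of_nonneg_right _ (by positivity)
    have r1 : wr ≤ er C A w := by
      unfold er
      have r2 : wr ≤ (w : ℝ) ^ (-(1 : ℝ) / C) := by
        apply Real.rpow_le_rpow_of_exponent_le hw1r
        have : (4 : ℝ) ≤ C := by exact_mod_cast hC4
        rw [neg_div, neg_le_neg_iff, div_le_iff₀ (by linarith)]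
        linarith
      have r3 : (0 : ℝ) ≤ (2 : ℝ) ^ (-(A : ℝ) / C) := by positivity
      linarith
    calc s ^ 4 * (4 * K0) * wr ≤ s ^ 4 * C * wr := by
          apply mul_le_mul_of_nonneg_right _ hwr0
          exact mul_le_mul_of_nonneg_left hCK (by positivity)
      _ ≤ s ^ 4 * C * er C A w := mul_le_mul_of_nonneg_left r1 (by positivity)
      _ = _ := by ring
  rw [q2, q3]
  have : 0 ≤ ε / 4 * (N : ℝ) ^ 3 := by positivity
  linarith

end Pool.Agent.Lib.H18GB
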