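import Pool.Agent.Lib.H18GB.TY3b
import Pool.Agent.Lib.H18GB.GR6
import Pool.Agent.Lib.H18GB.GR7

/-!
# Project GB: TY3 (almost all pairs are at distance at most `5`)
-/

namespace Pool.Agent.Lib.H18GB

open Finset Pool.Agent.Lib.Sieve Pool.Agent.Lib.GoldbachGraph

open Classical in
/-- from the classes modulo `W` to all pairs -/
theorem ty3_count {n W N : ℕ} (hW : 0 < W) (hWN : W * N ≤ n) (hnW : n < W * N + W)
    (P : ℕ → ℕ → Prop) {ε : ℝ}
    (h : ∀ x0 x0' : ℕ, x0 < W → x0' < W → (((Finset.Ico 1 N ×ˢ Finset.Ico 1 N).filter fun q =>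
      ¬ P (x0 + W * q.1) (x0' + W * q.2)).card : ℝ) ≤ ε * N ^ 2) :
    (((Finset.Icc 1 n ×ˢ Finset.Icc 1 n).filter fun q => ¬ P q.1 q.2).card : ℝ) ≤
      W ^ 2 * (ε * N ^ 2) + 4 * W * n := by
  set T : Finset ℕ := Finset.Ico W (W * N) with hT
  have hTs : T ⊆ Finset.Icc 1 n := by
    intro a ha
    rw [hT, Finset.mem_Ico] at ha
    rw [Finset.mem_Icc]
    omega
  have hTc : ((Finset.Icc 1 n) \ T).card ≤ 2 * W := by
    have h1 : (Finset.Icc 1 n) \ T ⊆ Finset.Ico 1 W ∪ Finset.Ico (W * N) (n + 1) := by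
      intro a ha
      rw [Finset.mem_sdiff, hT, Finset.mem_Ico, Finset.mem_Icc] at ha
      rw [Finset.mem_union, Finset.mem_Ico, Finset.mem_Ico]
      omega
    refine (Finset.card_le_card h1).trans ((Finset.card_union_le _ _).trans ?_)
    rw [Nat.card_Ico, Nat.card_Ico]
    omega
  have hsub : ((Finset.Icc 1 n ×ˢ Finset.Icc 1 n).filter fun q => ¬ P q.1 q.2) ⊆
      ((T ×ˢ T).filter fun q => ¬ P q.1 q.2) ∪ (((Finset.Icc 1 n) \ T) ×ˢ Finset.Icc 1 n ∪
        Finset.Icc 1 n ×ˢ ((Finset.Icc 1 n) \ T)) := by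
    intro q hq
    rw [Finset.mem_filter, Finset.mem_product] at hq
    simp only [Finset.mem_union, Finset.mem_filter, Finset.mem_product, Finset.mem_sdiff]
    by_cases h1 : q.1 ∈ T
    · by_cases h2 : q.2 ∈ T
      · exact Or.inl ⟨⟨h1, h2⟩, hq.2⟩
      · exact Or.inr (Or.inr ⟨hq.1.1, hq.1.2, h2⟩)
    · exact Or.inr (Or.inl ⟨⟨hq.1.1, h1⟩, hq.1.2⟩)
  have hc1 := Finset.card_le_card hsub
  have hc2 := hc1.trans (Finset.card_union_le _ _)
  have hc3 : (((Finset.Icc 1 n) \ T) ×ˢ Finset.Icc 1 n ∪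
        Finset.Icc 1 n ×ˢ ((Finset.Icc 1 n) \ T)).card ≤ 4 * W * n := by
    refine (Finset.card_union_le _ _).trans ?_
    rw [Finset.card_product, Finset.card_product, Nat.card_Icc, Nat.add_sub_cancel]
    nlinarith
  have hmain : (((T ×ˢ T).filter fun q => ¬ P q.1 q.2).card : ℝ) ≤ W ^ 2 * (ε * N ^ 2) := by
    have h1 := Finset.card_eq_sum_card_fiberwise (s := (T ×ˢ T).filter fun q => ¬ P q.1 q.2)
      (t := Finset.range W ×ˢ Finset.range W) (f := fun q => (q.1 % W, q.2 % W)) (by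
        intro q _
        simp only [Finset.coe_product, Set.mem_prod, Finset.mem_coe, Finset.mem_range]
        exact ⟨Nat.mod_lt _ hW, Nat.mod_lt _ hW⟩)
    rw [h1]
    push_cast
    have h2 : ∀ b ∈ Finset.range W ×ˢ Finset.range W,
        ((((T ×ˢ T).filter fun q => ¬ P q.1 q.2).filter fun q => (q.1 % W, q.2 % W) = b).card : ℝ) ≤
          ε * N ^ 2 := by
      intro b hb
      rw [Finset.mem_product, Finset.mem_range, Finset.mem_range] at hb
      refine le_trans ?_ (h b.1 b.2 hb.1 hb.2)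
      have : (((T ×ˢ T).filter fun q => ¬ P q.1 q.2).filter fun q => (q.1 % W, q.2 % W) = b).card ≤
          ((Finset.Ico 1 N ×ˢ Finset.Ico 1 N).filter fun q =>
            ¬ P (b.1 + W * q.1) (b.2 + W * q.2)).card := by
        refine Finset.card_le_card_of_injOn (fun q => (q.1 / W, q.2 / W)) ?_ ?_
        · intro q hq
          simp only [Finset.coe_filter, Set.mem_setOf_eq, Finset.mem_filter, Finset.mem_product] at hq ⊢
          obtain ⟨⟨⟨hq1, hq2⟩, hq3⟩, hq4⟩ := hq
          rw [← hq4]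
          simp only [Nat.mod_add_div]
          rw [hT, Finset.mem_Ico] at hq1 hq2
          refine ⟨⟨?_, ?_⟩, hq3⟩
          · rw [Finset.mem_Ico]
            exact ⟨Nat.div_pos hq1.1 hW, Nat.div_lt_of_lt_mul hq1.2⟩
          · rw [Finset.mem_Ico]
            exact ⟨Nat.div_pos hq2.1 hW, Nat.div_lt_of_lt_mul hq2.2⟩
        · intro q hq q' hq' he
          simp only [Finset.coe_filter, Set.mem_setOf_eq, Finset.mem_filter, Prod.mk.injEq] at hq hq' he
          have e1 := Nat.mod_add_div q.1 W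
          have e2 := Nat.mod_add_div q'.1 W
          have e3 := Nat.mod_add_div q.2 W
          have e4 := Nat.mod_add_div q'.2 W
          have f1 : q.1 % W = q'.1 % W := by
            have := hq.2.trans hq'.2.symm
            exact (Prod.mk.inj this).1
          have f2 : q.2 % W = q'.2 % W := by
            have := hq.2.trans hq'.2.symm
            exact (Prod.mk.inj this).2
          refine Prod.ext ?_ ?_
          · rw [← e1, ← e2, f1, he.1]
          · rw [← e3, ← e4, f2, he.2]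
      exact_mod_cast this
    refine (Finset.sum_le_sum h2).trans (le_of_eq ?_)
    rw [Finset.sum_const, Finset.card_product, Finset.card_range, nsmul_eq_mul]
    push_cast
    ring
  have hc4 : (((Finset.Icc 1 n ×ˢ Finset.Icc 1 n).filter fun q => ¬ P q.1 q.2).card : ℝ) ≤
      (((T ×ˢ T).filter fun q => ¬ P q.1 q.2).card : ℝ) + (4 * W * n : ℕ) := by
    exact_mod_cast hc2.trans (Nat.add_le_add_left hc3 _)
  push_cast at hc4
  linarith

open Classical in
/-- Chunk TY3. `W = primorial w`, `N = n / W`; count the pairs `(x, x')` class by class: for each pair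
of classes `(x0, x0')` mod `W` all but `ε' N^2` pairs have distance `≤ 5`. Almost all `X` have large
degree (`gr7`). If `X, X'` are in the same class I or II (same parity and same divisibility by `3`, or
opposite parity and opposite divisibility by `3`) use `gr6_five`. Otherwise, by symmetry and with
`v0` a link class of the right parity:
* `3 ∣ X, 3 ∣ X'`: `v0` with `Comp W x0' (v0 + 3)` (`exists_link_comp`); for `X` of large degree and
  `z0` compatible with `y0(X)` and `v0`, the set `B` of `z` at distance `2` from `X` has `≥ N/2`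
  elements (`gr3`), so by `ty2'`, `sg_total` the `V` at distance `≤ 3` from `X` have mass `≥ N / 4`, and
  by `ty2` almost every `X'` in the class `x0'` is adjacent to a `V + 3`: `3 + 1 + 1 = 5`.
* `3 ∤ X, 3 ∤ X'`: `y1` compatible with `x0, v0`, `y1'` compatible with `v0 + 3, x0'`: `ty1` (`d = 0`)
  for `X`: mass `≥ c N` of `V` at distance `2`; `ty2` (`d = 3`): almost every `Y'` in the class `y1'` is
  adjacent to a `V + 3`; by `gr4` almost every `X'` is adjacent to such a `Y'`: `2 + 1 + 1 + 1 = 5`.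
* `3 ∣ X, 3 ∤ X'`: `v0` with `Comp W x0 v0`; `ty1` for `X'` (`d = 3`), then `ty2` (`d = 0`): almost every
  `X` in the class `x0` is adjacent to a `V` such that `V + 3` is at distance `2` from `X'`: `4`.
* `3 ∤ X, 3 ∣ X'`: similarly. -/
theorem ty3 (ε : ℝ) (hε : 0 < ε) : ∃ n0 : ℕ, ∀ n : ℕ, n0 ≤ n →
    (((Finset.Icc 1 n ×ˢ Finset.Icc 1 n).filter fun q => ¬ (HG n).edist q.1 q.2 ≤ 5).card : ℝ) ≤
      ε * n ^ 2 := by
  obtain ⟨c, hc, h7⟩ := gr7
  obtain ⟨w1, h1⟩ := ty3_one (c / 20) (ε / 4) (by positivity) (by positivity)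
  obtain ⟨w2, h2⟩ := ty3_two (ε / 2) (by positivity)
  obtain ⟨w3, h3⟩ := ty3_three (ε / 2) (by positivity)
  obtain ⟨w, hw⟩ : ∃ w : ℕ, w = w1 + w2 + w3 + 3 := ⟨_, rfl⟩
  obtain ⟨W, hWd⟩ : ∃ W : ℕ, W = primorial w := ⟨_, rfl⟩
  have hW : IsW w W := by rw [hWd]; exact isW_primorial
  have hW0 : 0 < W := hW.1
  obtain ⟨N1, h1⟩ := h1 w W (by omega) hW
  obtain ⟨N2, h2⟩ := h2 w W (by omega) hW
  obtain ⟨N3, h3⟩ := h3 w W (by omega) hW
  have hWr : (0 : ℝ) < W := by exact_mod_cast hW0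
  obtain ⟨n7, h7⟩ := h7 (ε / (8 * W)) (by positivity)
  obtain ⟨n5, h5⟩ := gr6_five c hc
  obtain ⟨n2, hg2⟩ := gr2 c hc w (by omega)
  obtain ⟨n8, h8⟩ := exists_nat_gt (8 * W / ε)
  refine ⟨n7 + n5 + n2 + n8 + W * (N1 + N2 + N3 + 2), fun n hn => ?_⟩
  obtain ⟨N, hNd⟩ : ∃ N : ℕ, N = n / W := ⟨_, rfl⟩
  have hNl : N1 + N2 + N3 + 2 ≤ N := by
    rw [hNd, Nat.le_div_iff_mul_le hW0, mul_comm]
    omega
  have hWN : W * N ≤ n := by rw [hNd]; exact Nat.mul_div_le _ _
  have hnW : n < W * N + W := by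
    have := Nat.lt_mul_div_succ n hW0
    rw [hNd]
    linarith
  have hn2W : n ≤ 2 * W * N := by
    have h7 : W * 1 ≤ W * N := Nat.mul_le_mul_left _ (by omega)
    have h8 : 2 * W * N = W * N + W * N := by ring
    omega
  have h2W : 2 ∣ W := (hW.2 2 Nat.prime_two).mpr (by omega)
  have h3W : 3 ∣ W := (hW.2 3 Nat.prime_three).mpr (by omega)
  set Bd : Finset ℕ := (Finset.Icc 1 n).filter fun X => hdeg n X < c * SH X * n / Real.log n ^ 2
    with hBd
  have hBdc := h7 n (by omega)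
  have hclass : ∀ x0 : ℕ, x0 < W → (((Finset.Ico 1 N).filter fun x => x0 + W * x ∈ Bd).card : ℝ) ≤
      ε / 4 * N := by
    intro x0 hx0
    have e1 : ((Finset.Ico 1 N).filter fun x => x0 + W * x ∈ Bd).card ≤ Bd.card := by
      refine Finset.card_le_card_of_injOn (fun x => x0 + W * x) ?_ ?_
      · intro x hx
        exact (Finset.mem_filter.mp hx).2
      · intro x _ x' _ he
        have he' : x0 + W * x = x0 + W * x' := he
        exact Nat.eq_of_mul_eq_mul_left hW0 (by omega)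
    have e2 : (((Finset.Ico 1 N).filter fun x => x0 + W * x ∈ Bd).card : ℝ) ≤ Bd.card := by
      exact_mod_cast e1
    refine e2.trans (hBdc.trans ?_)
    have e3 : (n : ℝ) ≤ 2 * W * N := by exact_mod_cast hn2W
    calc ε / (8 * W) * n ≤ ε / (8 * W) * (2 * W * N) := by
          apply mul_le_mul_of_nonneg_left e3; positivity
      _ = ε / 4 * N := by field_simp; ring
  have hN0 : (0 : ℝ) ≤ N := Nat.cast_nonneg _
  have hgood : ∀ x0 x : ℕ, x0 < W → x ∈ Finset.Ico 1 N → x0 + W * x ∉ Bd →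
      c * SH (x0 + W * x) * n / Real.log n ^ 2 ≤ hdeg n (x0 + W * x) := by
    intro x0 x hx0 hx hb
    by_contra hcon
    rw [not_le] at hcon
    exact hb (Finset.mem_filter.mpr ⟨ty3_mem hWN hx0 hx, hcon⟩)
  have hpar : ∀ x0 x : ℕ, ((x0 + W * x : ℕ) : ℤ) % 2 = (x0 : ℤ) % 2 := by
    intro x0 x
    obtain ⟨k, hk⟩ := h2W
    push_cast
    rw [hk]
    push_cast
    rw [mul_assoc]
    omega
  have hthr : ∀ x0 x : ℕ, (3 : ℤ) ∣ ((x0 + W * x : ℕ) : ℤ) ↔ (3 : ℤ) ∣ (x0 : ℤ) := by
    intro x0 x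
    obtain ⟨k, hk⟩ := h3W
    push_cast
    rw [hk]
    push_cast
    rw [mul_assoc]
    omega
  have hall : ∀ x0 x0' : ℕ, x0 < W → x0' < W →
      (((Finset.Ico 1 N ×ˢ Finset.Ico 1 N).filter fun q =>
        ¬ (HG n).edist (x0 + W * q.1) (x0' + W * q.2) ≤ 5).card : ℝ) ≤ ε / 2 * N ^ 2 := by
    intro x0 x0' hx0 hx0'
    have hfin : 2 * (ε / 4) * (N : ℝ) ^ 2 = ε / 2 * N ^ 2 := by ring
    by_cases hA : (x0 : ℤ) % 2 = (x0' : ℤ) % 2 ↔ ((3 : ℤ) ∣ x0 ↔ (3 : ℤ) ∣ x0')
    · have hkey := ty3_pairs (fun a b => (HG n).edist (x0 + W * a) (x0' + W * b) ≤ 5)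
        ((Finset.Ico 1 N).filter fun x => x0 + W * x ∈ Bd) (hclass x0 hx0) (by positivity) ?_
      · rw [hfin] at hkey
        convert hkey
      intro x hx hxE
      have hg1 := hgood x0 x hx0 hx (fun hb => hxE (Finset.mem_filter.mpr ⟨hx, hb⟩))
      have : ((Finset.Ico 1 N).filter fun x' => ¬ (HG n).edist (x0 + W * x) (x0' + W * x') ≤ 5) ⊆
          ((Finset.Ico 1 N).filter fun x => x0' + W * x ∈ Bd) := by
        intro x' hx'
        rw [Finset.mem_filter] at hx' ⊢
        refine ⟨hx'.1, ?_⟩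
        by_contra hb
        exact hx'.2 (h5 n (by omega) _ (ty3_mem hWN hx0 hx) _ (ty3_mem hWN hx0' hx'.1) hg1
          (hgood x0' x' hx0' hx'.1 hb) (by rw [hpar, hpar, hthr, hthr]; exact hA))
      have h9 : (((Finset.Ico 1 N).filter fun x' =>
          ¬ (HG n).edist (x0 + W * x) (x0' + W * x') ≤ 5).card : ℝ) ≤
          (((Finset.Ico 1 N).filter fun x => x0' + W * x ∈ Bd).card : ℝ) := by
        exact_mod_cast Finset.card_le_card this
      refine le_trans (le_of_eq ?_) (h9.trans (hclass x0' hx0'))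
      congr!
    by_cases hB3 : (3 : ℤ) ∣ (x0 : ℤ)
    · by_cases hB3' : (3 : ℤ) ∣ (x0' : ℤ)
      · have hkey := ty3_pairs (fun a b => (HG n).edist (x0 + W * a) (x0' + W * b) ≤ 5)
          ((Finset.Ico 1 N).filter fun x => x0 + W * x ∈ Bd) (hclass x0 hx0) (by positivity) ?_
        · rw [hfin] at hkey
          convert hkey
        intro x hx hxE
        have hg1 := hgood x0 x hx0 hx (fun hb => hxE (Finset.mem_filter.mpr ⟨hx, hb⟩))
        have hmem := ty3_mem hWN hx0 hx
        obtain ⟨y0, a1, a2, a3⟩ := hg2 n (by omega) (x0 + W * x) hmem hg1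
        rw [← hWd, ← hNd] at a3
        rw [← hWd] at a1 a2
        rw [Finset.mem_Icc] at hmem
        have := h1 N (by omega) n hWN (x0 + W * x) y0 x0' hmem.1 hmem.2 (hmem.2.trans hn2W) a1 hx0' a2 a3
          ((hthr x0 x).mpr hB3) hB3' (by rw [hpar]; intro hh; exact hA (by simp [hh, hB3, hB3']))
        convert this
      · have hpp : (x0' : ℤ) % 2 = (x0 : ℤ) % 2 := by
          by_contra hh
          exact hA (by simp only [hB3, hB3', true_iff]; constructor <;> intro h <;> omega)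
        have hkey := h3 N (by omega) n hWN x0' x0 hx0' hx0 hB3' hB3 hpp
        refine le_trans (le_of_eq ?_) hkey
        norm_cast
        refine Finset.card_bij (fun q _ => (q.2, q.1)) ?_ ?_ ?_
        · intro q hq
          rw [Finset.mem_filter, Finset.mem_product] at hq ⊢
          refine ⟨⟨hq.1.2, hq.1.1⟩, ?_⟩
          rw [SimpleGraph.edist_comm]
          exact hq.2
        · intro q _ q' _ he
          simp only [Prod.mk.injEq] at he
          exact Prod.ext he.2 he.1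
        · intro q hq
          refine ⟨(q.2, q.1), ?_, rfl⟩
          rw [Finset.mem_filter, Finset.mem_product] at hq ⊢
          refine ⟨⟨hq.1.2, hq.1.1⟩, ?_⟩
          rw [SimpleGraph.edist_comm]
          exact hq.2
    · by_cases hB3' : (3 : ℤ) ∣ (x0' : ℤ)
      · have hpp : (x0 : ℤ) % 2 = (x0' : ℤ) % 2 := by
          by_contra hh
          exact hA (by simp only [hB3, hB3', false_iff]; constructor <;> intro h <;> omega)
        exact h3 N (by omega) n hWN x0 x0' hx0 hx0' hB3 hB3' hpp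
      · exact h2 N (by omega) n hWN x0 x0' hx0 hx0' hB3 hB3'
          (by intro hh; exact hA (by simp [hh, hB3, hB3']))
  have hcount := ty3_count hW0 hWN hnW (fun a b => (HG n).edist a b ≤ 5) (ε := ε / 2) (by
    intro x0 x0' hx0 hx0'
    convert hall x0 x0' hx0 hx0')
  have e1 : (W : ℝ) ^ 2 * (ε / 2 * N ^ 2) ≤ ε / 2 * n ^ 2 := by
    have e2 : ((W : ℝ) * N) ≤ n := by exact_mod_cast hWN
    have e3 : ((W : ℝ) * N) ^ 2 ≤ n ^ 2 := pow_le_pow_left₀ (by positivity) e2 2
    calc (W : ℝ) ^ 2 * (ε / 2 * N ^ 2) = ε / 2 * ((W : ℝ) * N) ^ 2 := by ring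
      _ ≤ _ := by apply mul_le_mul_of_nonneg_left e3; positivity
  have e4 : 4 * (W : ℝ) * n ≤ ε / 2 * n ^ 2 := by
    have e5 : (n8 : ℝ) ≤ n := by exact_mod_cast (by omega : n8 ≤ n)
    have e6 : 8 * (W : ℝ) / ε < n := h8.trans_le e5
    rw [div_lt_iff₀ hε] at e6
    have e7 : (0 : ℝ) ≤ n := Nat.cast_nonneg _
    nlinarith
  have e8 : (W : ℝ) ^ 2 * (ε / 2 * N ^ 2) + 4 * W * n ≤ ε * n ^ 2 := by linarith
  refine le_trans (le_of_eq ?_) (hcount.trans e8)
  congr!

end Pool.Agent.Lib.H18GB
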