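import Pool.Agent.Lib.H18GB.C1

/-!
# Project GB: PIECE
-/

namespace Pool.Agent.Lib.H18GB

open Finset Pool.Agent.Lib.Sieve

theorem piece_isW {w W D : ℕ} (hW : IsW w W) (hD : 0 < D)
    (h : ∀ p : ℕ, p.Prime → p ∣ D → p ≤ w) : IsW w (W * D) := by
  refine ⟨Nat.mul_pos hW.1 hD, fun p hp => ⟨fun hd => ?_, fun hle => ?_⟩⟩
  · rcases (hp.dvd_mul).mp hd with h1 | h1
    · exact (hW.2 p hp).mp h1
    · exact h p hp h1
  · exact Dvd.dvd.mul_right ((hW.2 p hp).mpr hle) D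

theorem piece_lamv {w W D : ℕ} (hW : IsW w W) (hWD : IsW w (W * D)) (v : ℤ) :
    lamv W v = lamv (W * D) v := by
  unfold lamv
  rw [v1_totient hW, v1_totient hWD]

theorem piece_uu {w W D : ℕ} (hW : IsW w W) (hWD : IsW w (W * D)) (r n0 n' : ℤ) :
    uu W r (n0 + D * n') = uu (W * D) (r + W * n0) n' := by
  unfold uu lam
  rw [piece_lamv hW hWD]
  congr 2
  push_cast
  ring

theorem piece_uc {w W D : ℕ} (hW : IsW w W) (hWD : IsW w (W * D)) (hD : 0 < D) (r n0 m M : ℤ)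
    (h0 : 0 ≤ n0) (h1 : n0 < D) :
    uc W r M (n0 + D * m) = uc (W * D) (r + W * n0) (-((n0 - M) / D)) m := by
  have hDZ : (0 : ℤ) < D := by exact_mod_cast hD
  unfold uc
  rw [piece_uu hW hWD]
  have h2 : (0 ≤ n0 + D * m ∧ n0 + D * m < M) ↔ (0 ≤ m ∧ m < -((n0 - M) / D)) := by
    constructor
    · rintro ⟨ha, hb⟩
      constructor
      · by_contra hm
        push Not at hm
        have : (D : ℤ) * m ≤ D * (-1) := mul_le_mul_of_nonneg_left (by omega) hDZ.le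
        linarith
      · have : (n0 - M) / D < -m := by
          rw [Int.ediv_lt_iff_lt_mul hDZ]
          linarith
        linarith
    · rintro ⟨ha, hb⟩
      constructor
      · positivity
      · have : (n0 - M) / D < -m := by linarith
        rw [Int.ediv_lt_iff_lt_mul hDZ] at this
        linarith
  simp only [h2]

theorem piece_M1 {D : ℕ} (hD : 0 < D) (n0 : ℤ) (M : ℕ) (h0 : 0 ≤ n0) :
    -((n0 - M) / D) ≤ ((M / D + 2 : ℕ) : ℤ) := by
  have hDZ : (0 : ℤ) < D := by exact_mod_cast hD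
  have h1 : (M : ℤ) < (M / D + 1) * D := Int.lt_ediv_add_one_mul_self _ hDZ
  have h2 : -(((M : ℤ) / D) + 2) ≤ (n0 - M) / D := by
    rw [Int.le_ediv_iff_mul_le hDZ]
    nlinarith
  push_cast
  linarith

theorem norm_e_sub (x y : ℝ) : ‖e x - e y‖ ≤ 2 * Real.pi * |x - y| := by
  have h1 : e x = e y * e (x - y) := by rw [← e_add]; congr 1; ring
  have h2 : e x - e y = e y * (e (x - y) - 1) := by rw [h1]; ring
  rw [h2, norm_mul, norm_e, one_mul]
  unfold e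
  have h3 : (2 * Real.pi * (x - y : ℝ) * Complex.I : ℂ) =
      Complex.I * ((2 * Real.pi * (x - y) : ℝ) : ℂ) := by
    push_cast
    ring
  rw [h3]
  refine (Real.norm_exp_I_mul_ofReal_sub_one_le).trans (le_of_eq ?_)
  rw [Real.norm_eq_abs, abs_mul, abs_of_pos (by positivity : 0 < 2 * Real.pi)]

/-- count of the pairs of residues -/
theorem piece_pairs (W Q : ℕ) (hW : 0 < W) (h0 : ℤ) :
    (((Finset.Ico (0 : ℤ) ((Q * W ^ 2 : ℕ) : ℤ) ×ˢ Finset.Ico (0 : ℤ) ((Q * W ^ 2 : ℕ) : ℤ)).filter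
      fun p => (W : ℤ) ∣ p.2 - p.1 - h0).card : ℝ) ≤ (Q * W ^ 2 : ℕ) * (Q * W : ℕ) := by
  have hWZ : (0 : ℤ) < W := by exact_mod_cast hW
  have h1 : ((Finset.Ico (0 : ℤ) ((Q * W ^ 2 : ℕ) : ℤ) ×ˢ
      Finset.Ico (0 : ℤ) ((Q * W ^ 2 : ℕ) : ℤ)).filter
      fun p => (W : ℤ) ∣ p.2 - p.1 - h0).card ≤ (Q * W ^ 2) * (Q * W) := by
    have h2 : ((Finset.Ico (0 : ℤ) ((Q * W ^ 2 : ℕ) : ℤ) ×ˢ
        Finset.Ico (0 : ℤ) ((Q * W ^ 2 : ℕ) : ℤ)).filter
        fun p => (W : ℤ) ∣ p.2 - p.1 - h0) ⊆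
        ((Finset.Ico (0 : ℤ) ((Q * W ^ 2 : ℕ) : ℤ) ×ˢ
          Finset.Ico (0 : ℤ) ((Q * W : ℕ) : ℤ))).image
          fun q => (q.1, (q.1 + h0) % W + W * q.2) := by
      rintro ⟨a, b⟩ hab
      rw [Finset.mem_filter, Finset.mem_product, Finset.mem_Ico, Finset.mem_Ico] at hab
      obtain ⟨⟨⟨ha0, ha1⟩, hb0, hb1⟩, hd⟩ := hab
      dsimp only at *
      rw [Finset.mem_image]
      have hmod : b % W = (a + h0) % W := by
        have : (a + h0) ≡ b [ZMOD W] := Int.modEq_iff_dvd.mpr (by rw [← sub_sub]; exact hd)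
        exact this.symm
      refine ⟨(a, b / W), ?_, ?_⟩
      · rw [Finset.mem_product, Finset.mem_Ico, Finset.mem_Ico]
        refine ⟨⟨ha0, ha1⟩, Int.ediv_nonneg hb0 hWZ.le, ?_⟩
        rw [Int.ediv_lt_iff_lt_mul hWZ]
        push_cast at hb1 ⊢
        linarith
      · dsimp only
        rw [← hmod, Int.emod_add_mul_ediv]
    refine (Finset.card_le_card h2).trans (Finset.card_image_le.trans (le_of_eq ?_))
    rw [Finset.card_product, Int.card_Ico, Int.card_Ico, sub_zero, sub_zero,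
      Int.toNat_natCast, Int.toNat_natCast]
  exact_mod_cast h1

/-- one cell, one pair of residues: the reindexed sum -/
theorem piece_reindex (D : ℕ) (hD : 0 < D) (M : ℕ) (P : Finset ℤ)
    (hP : P ⊆ Finset.Ioo (-(M : ℤ)) M) (n0 n2 : ℤ) (h00 : 0 ≤ n0) (h01 : n0 < D) (h20 : 0 ≤ n2)
    (h21 : n2 < D) (F : ℤ → ℤ → ℂ) :
    ∑ q ∈ (P ×ˢ Finset.Ico (0 : ℤ) M).filter
        (fun q => q.2 % D = n0 ∧ (q.2 + q.1) % D = n2), F q.1 q.2 =
      ∑ q ∈ (Finset.Ioo (-((M / D + 2 : ℕ) : ℤ)) ((M / D + 2 : ℕ) : ℤ) ×ˢ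
          Finset.Ico (0 : ℤ) ((M / D + 2 : ℕ) : ℤ)).filter
        (fun q => n2 - n0 + D * q.1 ∈ P ∧ n0 + D * q.2 ∈ Finset.Ico (0 : ℤ) M),
        F (n2 - n0 + D * q.1) (n0 + D * q.2) := by
  have hDZ : (0 : ℤ) < D := by exact_mod_cast hD
  have hMD : (M : ℤ) < (M / D + 1) * D := Int.lt_ediv_add_one_mul_self _ hDZ
  refine Finset.sum_nbij' (fun q => ((q.2 + q.1) / D - q.2 / D, q.2 / D))
    (fun q => (n2 - n0 + D * q.1, n0 + D * q.2)) ?_ ?_ ?_ ?_ ?_
  · rintro ⟨h, n⟩ hq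
    rw [Finset.mem_filter, Finset.mem_product, Finset.mem_Ico] at hq
    obtain ⟨⟨hh, hn0, hn1⟩, hr0, hr2⟩ := hq
    dsimp only at *
    have e0 : n0 + D * (n / D) = n := by rw [← hr0]; exact Int.emod_add_mul_ediv n D
    have e2 : n2 + D * ((n + h) / D) = n + h := by rw [← hr2]; exact Int.emod_add_mul_ediv (n + h) D
    have eh : n2 - n0 + D * ((n + h) / D - n / D) = h := by linarith
    have hh' := Finset.mem_Ioo.mp (hP hh)
    have a1 : 0 ≤ n / D := Int.ediv_nonneg hn0 hDZ.le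
    have a2 : n / D ≤ M / D := Int.ediv_le_ediv hDZ hn1.le
    have a3 : (n + h) / D - n / D < M / D + 2 := by
      by_contra hcon
      push Not at hcon
      have : (D : ℤ) * (M / D + 2) ≤ D * ((n + h) / D - n / D) :=
        mul_le_mul_of_nonneg_left hcon hDZ.le
      nlinarith
    have a4 : -((M : ℤ) / D + 2) < (n + h) / D - n / D := by
      by_contra hcon
      push Not at hcon
      have : (D : ℤ) * ((n + h) / D - n / D) ≤ D * (-((M : ℤ) / D + 2)) :=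
        mul_le_mul_of_nonneg_left hcon hDZ.le
      nlinarith
    rw [Finset.mem_filter, Finset.mem_product, Finset.mem_Ioo, Finset.mem_Ico, Finset.mem_Ico]
    dsimp only
    rw [eh, e0]
    push_cast
    exact ⟨⟨⟨a4, a3⟩, a1, by linarith⟩, hh, hn0, hn1⟩
  · rintro ⟨h, n⟩ hq
    rw [Finset.mem_filter] at hq
    obtain ⟨-, h1, h2⟩ := hq
    dsimp only at *
    rw [Finset.mem_filter, Finset.mem_product]
    dsimp only
    refine ⟨⟨h1, h2⟩, ?_, ?_⟩
    · rw [Int.add_mul_emod_self_left]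
      exact Int.emod_eq_of_lt h00 h01
    · have : n0 + D * n + (n2 - n0 + D * h) = n2 + D * (n + h) := by ring
      rw [this, Int.add_mul_emod_self_left]
      exact Int.emod_eq_of_lt h20 h21
  · rintro ⟨h, n⟩ hq
    rw [Finset.mem_filter, Finset.mem_product, Finset.mem_Ico] at hq
    obtain ⟨⟨hh, hn0, hn1⟩, hr0, hr2⟩ := hq
    dsimp only at *
    have e0 : n0 + D * (n / D) = n := by rw [← hr0]; exact Int.emod_add_mul_ediv n D
    have e2 : n2 + D * ((n + h) / D) = n + h := by rw [← hr2]; exact Int.emod_add_mul_ediv (n + h) D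
    have eh : n2 - n0 + D * ((n + h) / D - n / D) = h := by linarith
    rw [eh, e0]
  · rintro ⟨h, n⟩ hq
    dsimp only
    have e1 : (n0 + D * n) / D = n := by
      rw [Int.add_mul_ediv_left _ _ hDZ.ne', Int.ediv_eq_zero_of_lt h00 h01, zero_add]
    have e2 : (n0 + D * n + (n2 - n0 + D * h)) / D = n + h := by
      have : n0 + D * n + (n2 - n0 + D * h) = n2 + D * (n + h) := by ring
      rw [this, Int.add_mul_ediv_left _ _ hDZ.ne', Int.ediv_eq_zero_of_lt h20 h21, zero_add]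
    rw [e1, e2]
    congr 1
    ring
  · rintro ⟨h, n⟩ hq
    rw [Finset.mem_filter, Finset.mem_product, Finset.mem_Ico] at hq
    obtain ⟨⟨hh, hn0, hn1⟩, hr0, hr2⟩ := hq
    dsimp only at *
    have e0 : n0 + D * (n / D) = n := by rw [← hr0]; exact Int.emod_add_mul_ediv n D
    have e2 : n2 + D * ((n + h) / D) = n + h := by rw [← hr2]; exact Int.emod_add_mul_ediv (n + h) D
    have eh : n2 - n0 + D * ((n + h) / D - n / D) = h := by linarith
    rw [eh, e0]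

theorem piece_coprime {w W D : ℕ} (hW : IsW w W) (hWD : IsW w (W * D)) {r : ℤ}
    (hr : IsCoprime r (W : ℤ)) (n0 : ℤ) : IsCoprime (r + W * n0) ((W * D : ℕ) : ℤ) := by
  rw [Int.isCoprime_iff_gcd_eq_one]
  have h1 : IsCoprime (r + W * n0) (W : ℤ) := hr.add_mul_left_left n0
  rw [Int.isCoprime_iff_gcd_eq_one] at h1
  change Nat.Coprime _ _
  apply Nat.coprime_of_dvd
  intro p hp hd1 hd2
  have h2 : p ∣ W := (hW.2 p hp).mpr ((hWD.2 p hp).mp (by rwa [Int.natAbs_natCast] at hd2))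
  have h3 : p ∣ Nat.gcd (r + W * n0).natAbs (W : ℤ).natAbs := Nat.dvd_gcd hd1 (by simpa using h2)
  have h4 : Nat.gcd (r + W * n0).natAbs (W : ℤ).natAbs = 1 := h1
  rw [h4] at h3
  exact hp.one_lt.ne' (Nat.dvd_one.mp h3)

theorem piece_abs {W D : ℕ} (hD : 0 < D) {r : ℤ} (hr : |r| < 2 * W) {n0 : ℤ}
    (h0 : 0 ≤ n0) (h1 : n0 < D) (hW : 0 < W) : |r + W * n0| < 2 * ((W * D : ℕ) : ℤ) := by
  have hWZ : (0 : ℤ) < W := by exact_mod_cast hW
  have hDZ : (0 : ℤ) < D := by exact_mod_cast hD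
  have h2 : (W : ℤ) * n0 ≤ W * (D - 1) := mul_le_mul_of_nonneg_left (by omega) hWZ.le
  have h3 : 0 ≤ (W : ℤ) * n0 := by positivity
  have h4 : (W : ℤ) * 1 ≤ W * D := mul_le_mul_of_nonneg_left (by omega) hWZ.le
  rw [abs_lt] at hr ⊢
  push_cast
  constructor <;> nlinarith

open Classical in
/-- one cell -/
theorem piece_cell {w W Q D : ℕ} (hW : IsW w W) (hD : D = Q * W ^ 2) (hQ : 1 ≤ Q)
    (hWD : IsW w (W * D)) (M : ℕ) (r : ℤ) (hr : |r| < 2 * W) (hrc : IsCoprime r (W : ℤ)) (B0 : ℝ)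
    (hc1 : ∀ r1 r2 : ℤ, |r1| < 2 * ((W * D : ℕ) : ℤ) → IsCoprime r1 ((W * D : ℕ) : ℤ) →
      |r2| < 2 * ((W * D : ℕ) : ℤ) → IsCoprime r2 ((W * D : ℕ) : ℤ) →
      ∀ M1 M2 : ℤ, M1 ≤ ((M / D + 2 : ℕ) : ℤ) → M2 ≤ ((M / D + 2 : ℕ) : ℤ) →
      ∀ c : ℤ → ℂ, (∀ h, ‖c h‖ ≤ 1) → ∀ θ : ℝ,
      ‖∑ h ∈ Finset.Ioo (-((M / D + 2 : ℕ) : ℤ)) ((M / D + 2 : ℕ) : ℤ),
        c h * ∑ n ∈ Finset.Ico (0 : ℤ) ((M / D + 2 : ℕ) : ℤ),
          uc (W * D) r1 M1 n * uc (W * D) r2 M2 (n + h) * e (θ * n)‖ ≤ B0)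
    (P : Finset ℤ) (hP : P ⊆ Finset.Ioo (-(M : ℤ)) M) (h0 : ℤ)
    (hPh : ∀ h ∈ P, (W : ℤ) ∣ h - h0) (c : ℤ → ℂ) (hc : ∀ h, ‖c h‖ ≤ 1) (k : ℤ → ℤ) (θ1 : ℝ) :
    ‖∑ h ∈ P, c h * ∑ n ∈ Finset.Ico (0 : ℤ) M, uc W r M n * uc W r M (n + h) *
      e ((θ1 + k h / D) * n)‖ ≤ D * (Q * W : ℕ) * B0 := by
  have hW0 := hW.1
  have hD0 : 0 < D := by rw [hD]; positivity
  have hDZ : (0 : ℤ) < D := by exact_mod_cast hD0
  have hDR : (0 : ℝ) < D := by exact_mod_cast hD0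
  have hWdD : (W : ℤ) ∣ D := by rw [hD]; push_cast; exact ⟨Q * W, by ring⟩
  obtain ⟨F, hF⟩ : ∃ F : ℤ → ℤ → ℂ, F = fun h n => c h * (uc W r M n * uc W r M (n + h) *
      e ((θ1 + k h / D) * n)) := ⟨_, rfl⟩
  have e1 : ∑ h ∈ P, c h * ∑ n ∈ Finset.Ico (0 : ℤ) M, uc W r M n * uc W r M (n + h) *
      e ((θ1 + k h / D) * n) = ∑ q ∈ P ×ˢ Finset.Ico (0 : ℤ) M, F q.1 q.2 := by
    rw [Finset.sum_product]
    refine Finset.sum_congr rfl fun h _ => ?_
    rw [Finset.mul_sum, hF]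
  have e2 : ∑ q ∈ P ×ˢ Finset.Ico (0 : ℤ) M, F q.1 q.2 =
      ∑ p ∈ (Finset.Ico (0 : ℤ) D ×ˢ Finset.Ico (0 : ℤ) D).filter
        (fun p => (W : ℤ) ∣ p.2 - p.1 - h0),
        ∑ q ∈ (P ×ˢ Finset.Ico (0 : ℤ) M).filter
          (fun q => q.2 % D = p.1 ∧ (q.2 + q.1) % D = p.2), F q.1 q.2 := by
    rw [← Finset.sum_fiberwise_of_maps_to
      (t := (Finset.Ico (0 : ℤ) D ×ˢ Finset.Ico (0 : ℤ) D).filter
        (fun p => (W : ℤ) ∣ p.2 - p.1 - h0))
      (g := fun q : ℤ × ℤ => (q.2 % D, (q.2 + q.1) % D))]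
    · refine Finset.sum_congr rfl fun p _ => ?_
      congr 1
      ext q
      simp only [Finset.mem_filter, Prod.ext_iff]
    · rintro ⟨h, n⟩ hq
      rw [Finset.mem_product] at hq
      dsimp only at *
      rw [Finset.mem_filter, Finset.mem_product, Finset.mem_Ico, Finset.mem_Ico]
      dsimp only
      refine ⟨⟨⟨Int.emod_nonneg _ hDZ.ne', Int.emod_lt_of_pos _ hDZ⟩,
        Int.emod_nonneg _ hDZ.ne', Int.emod_lt_of_pos _ hDZ⟩, ?_⟩
      have a1 : (D : ℤ) ∣ n - n % D := Int.dvd_self_sub_emod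
      have a2 : (D : ℤ) ∣ (n + h) - (n + h) % D := Int.dvd_self_sub_emod
      have a3 := hPh h hq.1
      have : (n + h) % D - n % D - h0 =
        (h - h0) + (n - n % D) - ((n + h) - (n + h) % D) := by ring
      rw [this]
      exact dvd_sub (dvd_add a3 (hWdD.trans a1)) (hWdD.trans a2)
  rw [e1, e2]
  have hmain : ∀ p ∈ (Finset.Ico (0 : ℤ) D ×ˢ Finset.Ico (0 : ℤ) D).filter
        (fun p => (W : ℤ) ∣ p.2 - p.1 - h0),
        ‖∑ q ∈ (P ×ˢ Finset.Ico (0 : ℤ) M).filter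
          (fun q => q.2 % D = p.1 ∧ (q.2 + q.1) % D = p.2), F q.1 q.2‖ ≤ B0 := by
    rintro ⟨n0, n2⟩ hp
    rw [Finset.mem_filter, Finset.mem_product, Finset.mem_Ico, Finset.mem_Ico] at hp
    obtain ⟨⟨⟨h00, h01⟩, h20, h21⟩, -⟩ := hp
    dsimp only at *
    rw [piece_reindex D hD0 M P hP n0 n2 h00 h01 h20 h21 F]
    have hb := hc1 (r + W * n0) (r + W * n2) (piece_abs hD0 hr h00 h01 hW0)
      (piece_coprime hW hWD hrc n0) (piece_abs hD0 hr h20 h21 hW0)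
      (piece_coprime hW hWD hrc n2) (-((n0 - M) / D)) (-((n2 - M) / D))
      (piece_M1 hD0 n0 M h00) (piece_M1 hD0 n2 M h20)
      (fun h'' => if n2 - n0 + D * h'' ∈ P then c (n2 - n0 + D * h'') *
        (e (θ1 * n0) * e (k (n2 - n0 + D * h'') * n0 / D)) else 0) ?_ (θ1 * D)
    · refine le_trans (le_of_eq ?_) hb
      congr 1
      rw [Finset.sum_filter, Finset.sum_product]
      refine Finset.sum_congr rfl fun h'' _ => ?_
      rw [Finset.mul_sum]
      refine Finset.sum_congr rfl fun n' _ => ?_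
      rw [← piece_uc hW hWD hD0 r n0 n' M h00 h01, ← piece_uc hW hWD hD0 r n2 (n' + h'') M h20 h21]
      dsimp only
      by_cases hin : n2 - n0 + D * h'' ∈ P
      · by_cases hin2 : n0 + D * n' ∈ Finset.Ico (0 : ℤ) M
        · rw [if_pos ⟨hin, hin2⟩, if_pos hin, hF]
          dsimp only
          have e3 : n0 + D * n' + (n2 - n0 + D * h'') = n2 + D * (n' + h'') := by ring
          have e4 : e ((θ1 + k (n2 - n0 + D * h'') / D) * ((n0 + D * n' : ℤ) : ℝ)) =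
              (e (θ1 * n0) * e (k (n2 - n0 + D * h'') * n0 / D)) * e (θ1 * D * n') := by
            have e5 := e_add_int (θ1 * n0 + k (n2 - n0 + D * h'') * n0 / D + θ1 * D * n')
              (k (n2 - n0 + D * h'') * n')
            rw [← e_add, ← e_add, ← e5]
            congr 1
            push_cast
            field_simp
            ring
          rw [e3, e4]
          ring
        · rw [if_neg (fun h => hin2 h.2)]
          have : uc W r M (n0 + D * n') = 0 := by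
            unfold uc
            rw [if_neg]
            rwa [Finset.mem_Ico] at hin2
          rw [this]
          ring
      · rw [if_neg (fun h => hin h.1), if_neg hin, zero_mul]
    · intro h''
      split_ifs
      · rw [norm_mul, norm_mul, norm_e, norm_e, mul_one, mul_one]
        exact hc _
      · simp
  refine (norm_sum_le _ _).trans ((Finset.sum_le_card_nsmul _ _ _ hmain).trans ?_)
  rw [nsmul_eq_mul]
  have hB00 : 0 ≤ B0 := by
    refine le_trans (norm_nonneg _) (hc1 (r + W * 0) (r + W * 0) (piece_abs hD0 hr le_rfl hDZ hW0)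
      (piece_coprime hW hWD hrc 0) (piece_abs hD0 hr le_rfl hDZ hW0)
      (piece_coprime hW hWD hrc 0) 0 0 (by positivity) (by positivity) (fun _ => 0)
      (fun _ => by simp) 0)
  have hp := piece_pairs W Q hW0 h0
  rw [← hD] at hp
  exact mul_le_mul_of_nonneg_right hp hB00

/-- the `L^1` norm of `uu` along a residue class mod `W` -/
theorem piece_l1 {w W : ℕ} (hW : IsW w W) (M : ℕ) (r : ℤ)
    (hl : ∀ r1 : ℤ, |r1| < 2 * ((W * W : ℕ) : ℤ) → IsCoprime r1 ((W * W : ℕ) : ℤ) →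
      ∑ n ∈ Finset.Ico (0 : ℤ) ((M / W + 1 : ℕ) : ℤ), |uu (W * W) r1 n| ≤
        3 * ((M / W + 1 : ℕ) : ℝ))
    (hr : |r| < 2 * W) (hrc : IsCoprime r (W : ℤ)) (P : Finset ℤ) (h0 : ℤ)
    (hPh : ∀ h ∈ P, (W : ℤ) ∣ h - h0) (n : ℤ) :
    ∑ h ∈ P, ‖uc W r M (n + h)‖ ≤ 3 * ((M / W + 1 : ℕ) : ℝ) := by
  have hW0 := hW.1
  have hWZ : (0 : ℤ) < W := by exact_mod_cast hW0
  have hWW : IsW w (W * W) := piece_isW hW hW0 fun p hp hd => (hW.2 p hp).mp hd
  obtain ⟨a, ha⟩ : ∃ a : ℤ, a = (n + h0) % W := ⟨_, rfl⟩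
  have ha0 : 0 ≤ a := by rw [ha]; exact Int.emod_nonneg _ hWZ.ne'
  have ha1 : a < W := by rw [ha]; exact Int.emod_lt_of_pos _ hWZ
  have hmod : ∀ h ∈ P, (n + h) = a + W * ((n + h) / W) := by
    intro h hh
    have h1 : (n + h0) ≡ (n + h) [ZMOD W] := Int.modEq_iff_dvd.mpr (by
      have : n + h - (n + h0) = h - h0 := by ring
      rw [this]
      exact hPh h hh)
    have h2 : a = (n + h) % W := by rw [ha]; exact h1
    rw [h2]
    exact (Int.emod_add_mul_ediv (n + h) W).symm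
  have h1 : ∑ h ∈ P, ‖uc W r M (n + h)‖ =
      ∑ h ∈ P.filter (fun h => n + h ∈ Finset.Ico (0 : ℤ) M),
        |uu (W * W) (r + W * a) ((n + h) / W)| := by
    rw [Finset.sum_filter]
    refine Finset.sum_congr rfl fun h hh => ?_
    unfold uc
    simp only [Finset.mem_Ico]
    split_ifs with hin
    · rw [Complex.norm_real, Real.norm_eq_abs, ← piece_uu hW hWW, ← hmod h hh]
    · exact norm_zero
  have h2 : ∑ h ∈ P.filter (fun h => n + h ∈ Finset.Ico (0 : ℤ) M),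
        |uu (W * W) (r + W * a) ((n + h) / W)| =
      ∑ m ∈ (P.filter (fun h => n + h ∈ Finset.Ico (0 : ℤ) M)).image (fun h => (n + h) / W),
        |uu (W * W) (r + W * a) m| := by
    rw [Finset.sum_image]
    intro x hx y hy hxy
    rw [Finset.mem_coe, Finset.mem_filter] at hx hy
    have e1 := hmod x hx.1
    have e2 := hmod y hy.1
    dsimp only at hxy
    rw [hxy] at e1
    linarith
  rw [h1, h2]
  refine le_trans (Finset.sum_le_sum_of_subset_of_nonneg ?_ fun _ _ _ => abs_nonneg _)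
    (hl (r + W * a) (piece_abs hW0 hr ha0 ha1 hW0) (piece_coprime hW hWW hrc a))
  intro m hm
  rw [Finset.mem_image] at hm
  obtain ⟨h, hh, rfl⟩ := hm
  rw [Finset.mem_filter, Finset.mem_Ico] at hh
  rw [Finset.mem_Ico]
  refine ⟨Int.ediv_nonneg hh.2.1 hWZ.le, ?_⟩
  push_cast
  have : (n + h) / W ≤ M / W := Int.ediv_le_ediv hWZ hh.2.2.le
  linarith

/-- Chunk PIECE. Let `D = Q W^2`, `θ h = θ0 + k_h / D + β_h`, `|β_h| ≤ T / M`. Split `n = n0 + D n'`,
`h` according to `h mod D` and to the cell `β_h ∈ [j σ / M, (j+1) σ / M)`, `|j| ≤ T/σ + 1`; replacing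
`β_h` by `j σ / M` costs `2 π σ ∑_{h ∈ P} ∑_n |u(n)| |u(n+h)| ≤ C σ M^2 / W` (`l1lam` for `W` and, in
classes mod `W`, for `W^2`: `uu W r (n0 + D n') = uu (W D) (r + W n0) n'`). In each cell
`e(k_h n / D) = e(k_h n0 / D)` depends on `h` only, and the sum is as in `c1` for the modulus
`W D = Q W^3` (the primes of `Q` are `≤ w`), `M` replaced by `⌈M / D⌉`. There are
`≤ (2 T/σ + 3) D (D / W)` sums, each `≤ ε4 (2 M / D)^2`. -/
theorem piece (ε : ℝ) (hε : 0 < ε) (Q T : ℕ) (hQ : 1 ≤ Q) : ∃ w0 : ℕ, ∀ w W : ℕ, w0 ≤ w →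
    IsW w W → ∃ M0 : ℕ, ∀ M : ℕ, M0 ≤ M → ∀ r : ℤ, |r| < 2 * W → IsCoprime r (W : ℤ) →
    ∀ (P : Finset ℤ) (h0 : ℤ) (θ0 : ℝ) (θ : ℤ → ℝ) (c : ℤ → ℂ), P ⊆ Finset.Ioo (-(M : ℤ)) M →
    (∀ h, ‖c h‖ ≤ 1) → (∀ h ∈ P, (W : ℤ) ∣ h - h0 ∧ Near Q W T M (θ h - θ0)) →
    ‖∑ h ∈ P, c h * ∑ n ∈ Finset.Ico (0 : ℤ) M, uc W r M n * uc W r M (n + h) * e (θ h * n)‖ ≤
      ε * M ^ 2 / W := by
  obtain ⟨σ, hσd⟩ : ∃ σ : ℝ, σ = ε / (72 * Real.pi) := ⟨_, rfl⟩
  have hπ := Real.pi_pos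
  have hσ : 0 < σ := by rw [hσd]; positivity
  have hσ2 : 2 * Real.pi * σ * 18 = ε / 2 := by
    rw [hσd]
    field_simp
    norm_num
  obtain ⟨J, hJ⟩ : ∃ J : ℕ, J = ⌈T / σ⌉₊ + 1 := ⟨_, rfl⟩
  have hJT : T / σ + 1 ≤ J := by
    rw [hJ]
    push_cast
    linarith [Nat.le_ceil (T / σ)]
  obtain ⟨ε4, hε4d⟩ : ∃ ε4 : ℝ, ε4 = ε / (18 * (2 * J + 1)) := ⟨_, rfl⟩
  have hε4 : 0 < ε4 := by rw [hε4d]; positivity
  obtain ⟨w1, hc⟩ := c1 ε4 hε4
  refine ⟨max w1 Q, fun w W hw hW => ?_⟩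
  have hww1 : w1 ≤ w := (le_max_left _ _).trans hw
  have hwQ : Q ≤ w := (le_max_right _ _).trans hw
  have hW0 := hW.1
  have hWR : (0 : ℝ) < W := by exact_mod_cast hW0
  obtain ⟨D, hD⟩ : ∃ D : ℕ, D = Q * W ^ 2 := ⟨_, rfl⟩
  have hD0 : 0 < D := by rw [hD]; positivity
  have hDR : (0 : ℝ) < D := by exact_mod_cast hD0
  have hDR' : (D : ℝ) = Q * (W : ℝ) ^ 2 := by rw [hD]; push_cast; ring
  have hWD : IsW w (W * D) := by
    refine piece_isW hW hD0 fun p hp hd => ?_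
    rw [hD] at hd
    rcases (hp.dvd_mul).mp hd with h1 | h1
    · exact (Nat.le_of_dvd hQ h1).trans hwQ
    · exact (hW.2 p hp).mp (hp.dvd_of_dvd_pow h1)
  obtain ⟨M1, hc⟩ := hc w (W * D) hww1 hWD
  obtain ⟨M2, hl2⟩ := l1lam (W * W) (Nat.mul_pos hW0 hW0)
  obtain ⟨M3, hl1⟩ := l1lam W hW0
  refine ⟨max (max (D * M1) (W * M2)) (max M3 (max D W)), fun M hM r hr hrc P h0 θ0 θ c hP hcn hnear => ?_⟩
  have hMM1 : D * M1 ≤ M := (le_max_left _ _).trans ((le_max_left _ _).trans hM)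
  have hMM2 : W * M2 ≤ M := (le_max_right _ _).trans ((le_max_left _ _).trans hM)
  have hMM3 : M3 ≤ M := (le_max_left _ _).trans ((le_max_right _ _).trans hM)
  have hMD : D ≤ M := (le_max_left _ _).trans ((le_max_right _ _).trans ((le_max_right _ _).trans hM))
  have hMW : W ≤ M := (le_max_right _ _).trans ((le_max_right _ _).trans ((le_max_right _ _).trans hM))
  have hM0 : 0 < M := hD0.trans_le hMD
  have hMR : (0 : ℝ) < M := by exact_mod_cast hM0
  have hMDR : (D : ℝ) ≤ M := by exact_mod_cast hMD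
  have hMWR : (W : ℝ) ≤ M := by exact_mod_cast hMW
  -- the function `k`
  have hk0 : ∀ h, ∃ m : ℤ, h ∈ P → |θ h - θ0 - m / D| ≤ T / M := by
    intro h
    by_cases hh : h ∈ P
    · obtain ⟨m, hm⟩ := (hnear h hh).2
      refine ⟨m, fun _ => ?_⟩
      rw [hDR']
      exact hm
    · exact ⟨0, fun h1 => absurd h1 hh⟩
  choose k hk using hk0
  obtain ⟨β, hβ⟩ : ∃ β : ℤ → ℝ, β = fun h => θ h - θ0 - k h / D := ⟨_, rfl⟩
  obtain ⟨j, hj⟩ : ∃ j : ℤ → ℤ, j = fun h => ⌊β h * M / σ⌋ := ⟨_, rfl⟩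
  have hβb : ∀ h ∈ P, |β h| ≤ T / M := fun h hh => by rw [hβ]; exact hk h hh
  have hjb : ∀ h ∈ P, j h ∈ Finset.Icc (-(J : ℤ)) J := by
    intro h hh
    have h1 := hβb h hh
    have h2 : |β h * M / σ| ≤ T / σ := by
      rw [abs_div, abs_mul, abs_of_pos hMR, abs_of_pos hσ]
      apply div_le_div_of_nonneg_right _ hσ.le
      rwa [le_div_iff₀ hMR] at h1
    have h3 := abs_le.mp h2
    have h4 : (j h : ℝ) ≤ β h * M / σ := by rw [hj]; exact Int.floor_le _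
    have h5 : β h * M / σ < (j h : ℝ) + 1 := by rw [hj]; exact Int.lt_floor_add_one _
    rw [Finset.mem_Icc]
    constructor
    · have : (-(J : ℝ)) ≤ (j h : ℝ) := by linarith
      exact_mod_cast this
    · have : (j h : ℝ) ≤ (J : ℝ) := by linarith
      exact_mod_cast this
  have hjβ : ∀ h, |β h - j h * σ / M| ≤ σ / M := by
    intro h
    have h4 : (j h : ℝ) ≤ β h * M / σ := by rw [hj]; exact Int.floor_le _
    have h5 : β h * M / σ < (j h : ℝ) + 1 := by rw [hj]; exact Int.lt_floor_add_one _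
    rw [le_div_iff₀ hσ] at h4
    rw [div_lt_iff₀ hσ] at h5
    rw [abs_le]
    have e1 : β h - j h * σ / M = (β h * M - j h * σ) / M := by field_simp
    rw [e1]
    constructor
    · have : -(σ / M) ≤ 0 := by
        have : 0 < σ / M := by positivity
        linarith
      refine this.trans ?_
      apply div_nonneg _ hMR.le
      linarith
    · apply div_le_div_of_nonneg_right _ hMR.le
      linarith
  -- the error of the discretisation
  have herr : ‖∑ h ∈ P, c h * ∑ n ∈ Finset.Ico (0 : ℤ) M,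
        uc W r M n * uc W r M (n + h) * e (θ h * n) -
      ∑ h ∈ P, c h * ∑ n ∈ Finset.Ico (0 : ℤ) M,
        uc W r M n * uc W r M (n + h) * e ((θ0 + j h * σ / M + k h / D) * n)‖ ≤
      ε / 2 * M ^ 2 / W := by
    rw [← Finset.sum_sub_distrib]
    have h1 : ∀ h ∈ P, ‖c h * ∑ n ∈ Finset.Ico (0 : ℤ) M,
        uc W r M n * uc W r M (n + h) * e (θ h * n) - c h * ∑ n ∈ Finset.Ico (0 : ℤ) M,
        uc W r M n * uc W r M (n + h) * e ((θ0 + j h * σ / M + k h / D) * n)‖ ≤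
        ∑ n ∈ Finset.Ico (0 : ℤ) M, ‖uc W r M n‖ * ‖uc W r M (n + h)‖ * (2 * Real.pi * σ) := by
      intro h _
      rw [← mul_sub, ← Finset.sum_sub_distrib, norm_mul]
      refine (mul_le_of_le_one_left (norm_nonneg _) (hcn h)).trans ?_
      refine (norm_sum_le _ _).trans (Finset.sum_le_sum fun n hn => ?_)
      rw [← mul_sub, norm_mul, norm_mul]
      refine mul_le_mul_of_nonneg_left ?_ (by positivity)
      refine (norm_e_sub _ _).trans ?_
      refine mul_le_mul_of_nonneg_left ?_ (by positivity)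
      rw [Finset.mem_Ico] at hn
      have hn0 : (0 : ℝ) ≤ n := by exact_mod_cast hn.1
      have hn1 : (n : ℝ) ≤ M := by exact_mod_cast hn.2.le
      have e1 : θ h * n - (θ0 + j h * σ / M + k h / D) * n = (β h - j h * σ / M) * n := by
        rw [hβ]; ring
      rw [e1, abs_mul, abs_of_nonneg hn0]
      calc |β h - j h * σ / M| * n ≤ (σ / M) * M :=
            mul_le_mul (hjβ h) hn1 hn0 (by positivity)
        _ = σ := by field_simp
    refine (norm_sum_le _ _).trans ((Finset.sum_le_sum h1).trans ?_)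
    rw [Finset.sum_comm]
    have hl2' : ∀ n, ∑ h ∈ P, ‖uc W r M (n + h)‖ ≤ 3 * ((M / W + 1 : ℕ) : ℝ) := by
      intro n
      refine piece_l1 hW M r (fun r1 hr1 hr1c => hl2 (M / W + 1) ?_ r1 hr1 hr1c) hr hrc P h0
        (fun h hh => (hnear h hh).1) n
      have : M2 ≤ M / W := by
        rw [Nat.le_div_iff_mul_le hW0]
        linarith
      omega
    have h2 : ∀ n ∈ Finset.Ico (0 : ℤ) M,
        ∑ h ∈ P, ‖uc W r M n‖ * ‖uc W r M (n + h)‖ * (2 * Real.pi * σ) ≤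
          |uu W r n| * (3 * ((M / W + 1 : ℕ) : ℝ) * (2 * Real.pi * σ)) := by
      intro n hn
      rw [← Finset.sum_mul, ← Finset.mul_sum, mul_assoc]
      rw [Finset.mem_Ico] at hn
      have e1 : ‖uc W r M n‖ = |uu W r n| := by
        unfold uc
        rw [if_pos hn, Complex.norm_real, Real.norm_eq_abs]
      rw [e1]
      refine mul_le_mul_of_nonneg_left ?_ (abs_nonneg _)
      exact mul_le_mul_of_nonneg_right (hl2' n) (by positivity)
    refine (Finset.sum_le_sum h2).trans ?_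
    rw [← Finset.sum_mul]
    have h3 := hl1 M hMM3 r hr hrc
    have h4 : ((M / W + 1 : ℕ) : ℝ) ≤ 2 * (M / W) := by
      push_cast
      have a1 : ((M / W : ℕ) : ℝ) ≤ M / W := Nat.cast_div_le
      have a2 : (1 : ℝ) ≤ M / W := by rw [le_div_iff₀ hWR]; linarith
      linarith
    calc (∑ n ∈ Finset.Ico (0 : ℤ) M, |uu W r n|) *
          (3 * ((M / W + 1 : ℕ) : ℝ) * (2 * Real.pi * σ))
        ≤ (3 * M) * (3 * (2 * (M / W)) * (2 * Real.pi * σ)) := by gcongr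
      _ = (2 * Real.pi * σ * 18) * M ^ 2 / W := by ring
      _ = ε / 2 * M ^ 2 / W := by rw [hσ2]
  -- the cells
  have hmain : ‖∑ h ∈ P, c h * ∑ n ∈ Finset.Ico (0 : ℤ) M,
        uc W r M n * uc W r M (n + h) * e ((θ0 + j h * σ / M + k h / D) * n)‖ ≤
      ε / 2 * M ^ 2 / W := by
    rw [← Finset.sum_fiberwise_of_maps_to (t := Finset.Icc (-(J : ℤ)) J) (g := j) hjb]
    have hcell : ∀ i ∈ Finset.Icc (-(J : ℤ)) J,
        ‖∑ h ∈ P.filter (fun h => j h = i), c h * ∑ n ∈ Finset.Ico (0 : ℤ) M,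
        uc W r M n * uc W r M (n + h) * e ((θ0 + j h * σ / M + k h / D) * n)‖ ≤
          D * (Q * W : ℕ) * (ε4 * ((M / D + 2 : ℕ) : ℝ) ^ 2) := by
      intro i _
      have h1 := piece_cell hW hD hQ hWD M r hr hrc (ε4 * ((M / D + 2 : ℕ) : ℝ) ^ 2)
        (fun r1 r2 a1 a2 a3 a4 N1 N2 b1 b2 c' hc' θ' => hc (M / D + 2) (by
          have : M1 ≤ M / D := by
            rw [Nat.le_div_iff_mul_le hD0]
            linarith
          omega) r1 r2 a1 a2 a3 a4 N1 N2 b1 b2 c' hc' θ')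
        (P.filter (fun h => j h = i)) ((Finset.filter_subset _ _).trans hP) h0
        (fun h hh => (hnear h (Finset.mem_filter.mp hh).1).1) c hcn k (θ0 + i * σ / M)
      refine le_trans (le_of_eq ?_) h1
      congr 1
      refine Finset.sum_congr rfl fun h hh => ?_
      rw [(Finset.mem_filter.mp hh).2]
    refine (norm_sum_le _ _).trans ((Finset.sum_le_card_nsmul _ _ _ hcell).trans ?_)
    rw [nsmul_eq_mul, Int.card_Icc]
    have e1 : (((J : ℤ) + 1 - -(J : ℤ)).toNat : ℝ) = 2 * J + 1 := by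
      have : ((J : ℤ) + 1 - -(J : ℤ)).toNat = 2 * J + 1 := by omega
      rw [this]
      push_cast
      ring
    rw [e1]
    have h4 : ((M / D + 2 : ℕ) : ℝ) ≤ 3 * (M / D) := by
      push_cast
      have a1 : ((M / D : ℕ) : ℝ) ≤ M / D := Nat.cast_div_le
      have a2 : (1 : ℝ) ≤ M / D := by rw [le_div_iff₀ hDR]; linarith
      linarith
    calc (2 * (J : ℝ) + 1) * (D * (Q * W : ℕ) * (ε4 * ((M / D + 2 : ℕ) : ℝ) ^ 2))
        ≤ (2 * (J : ℝ) + 1) * (D * (Q * W : ℕ) * (ε4 * (3 * (M / D)) ^ 2)) := by gcongr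
      _ = ε / 2 * M ^ 2 / W := by
        rw [hε4d]
        push_cast
        rw [hDR']
        have hQR : (0 : ℝ) < Q := by exact_mod_cast hQ
        field_simp
        norm_num
  calc _ = ‖(∑ h ∈ P, c h * ∑ n ∈ Finset.Ico (0 : ℤ) M,
        uc W r M n * uc W r M (n + h) * e (θ h * n) -
      ∑ h ∈ P, c h * ∑ n ∈ Finset.Ico (0 : ℤ) M,
        uc W r M n * uc W r M (n + h) * e ((θ0 + j h * σ / M + k h / D) * n)) +
      ∑ h ∈ P, c h * ∑ n ∈ Finset.Ico (0 : ℤ) M,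
        uc W r M n * uc W r M (n + h) * e ((θ0 + j h * σ / M + k h / D) * n)‖ := by
        rw [sub_add_cancel]
    _ ≤ ε / 2 * M ^ 2 / W + ε / 2 * M ^ 2 / W := (norm_add_le _ _).trans (add_le_add herr hmain)
    _ = ε * M ^ 2 / W := by ring

end Pool.Agent.Lib.H18GB
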