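import Pool.Agent.Lib.H18GB.Vl

/-!
# Project GB: WEYL
-/

namespace Pool.Agent.Lib.H18GB

open Finset Pool.Agent.Lib.Sieve

/-- `|∑_{x ∈ [a,b)} f x|^2 ≤ ∑_{|k| ≤ L} |∑_{y, y + k ∈ [a,b)} f (y + k) conj (f y)|`. -/
theorem weyl_vdc (L : ℕ) (a b : ℤ) (hab : b - a ≤ L) (f : ℤ → ℂ) :
    ‖∑ x ∈ Finset.Ico a b, f x‖ ^ 2 ≤ ∑ k ∈ Finset.Icc (-(L : ℤ)) L,
      ‖∑ y ∈ Finset.Ico (max a (a - k)) (min b (b - k)), f (y + k) * (starRingEnd ℂ) (f y)‖ := by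
  have h1 : ((‖∑ x ∈ Finset.Ico a b, f x‖ ^ 2 : ℝ) : ℂ) =
      ∑ k ∈ Finset.Icc (-(L : ℤ)) L,
        ∑ y ∈ Finset.Ico (max a (a - k)) (min b (b - k)), f (y + k) * (starRingEnd ℂ) (f y) := by
    rw [← Complex.normSq_eq_norm_sq, Complex.normSq_eq_conj_mul_self, map_sum, mul_comm,
      Finset.sum_mul_sum, ← Finset.sum_product']
    rw [Finset.sum_sigma']
    refine Finset.sum_bij' (fun p _ => (⟨p.1 - p.2, p.2⟩ : Σ _ : ℤ, ℤ)) (fun q _ => (q.2 + q.1, q.2))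
      ?_ ?_ ?_ ?_ ?_
    · rintro ⟨x, y⟩ hp
      simp only [Finset.mem_product, Finset.mem_Ico, Finset.mem_sigma, Finset.mem_Icc, max_le_iff,
        lt_min_iff] at hp ⊢
      omega
    · rintro ⟨k, y⟩ hp
      simp only [Finset.mem_product, Finset.mem_Ico, Finset.mem_sigma, Finset.mem_Icc, max_le_iff,
        lt_min_iff] at hp ⊢
      omega
    · rintro ⟨x, y⟩ _
      simp
    · rintro ⟨k, y⟩ _
      simp
    · rintro ⟨x, y⟩ _
      simp
  have h2 : ‖∑ x ∈ Finset.Ico a b, f x‖ ^ 2 =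
      ‖(((‖∑ x ∈ Finset.Ico a b, f x‖ ^ 2 : ℝ)) : ℂ)‖ := by
    rw [Complex.norm_real, Real.norm_of_nonneg (by positivity)]
  rw [h2, h1]
  exact norm_sum_le _ _

theorem weyl_inner (a b : ℤ) (α β : ℝ) (k : ℤ) :
    ‖∑ y ∈ Finset.Ico (max a (a - k)) (min b (b - k)),
      e (α * ((y + k : ℤ) : ℝ) ^ 2 + β * ((y + k : ℤ) : ℝ)) *
        (starRingEnd ℂ) (e (α * (y : ℝ) ^ 2 + β * (y : ℝ)))‖ =
    ‖∑ y ∈ Finset.Ico (max a (a - k)) (min b (b - k)), e (k * (2 * α) * y)‖ := by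
  have h : ∀ y : ℤ, e (α * ((y + k : ℤ) : ℝ) ^ 2 + β * ((y + k : ℤ) : ℝ)) *
        (starRingEnd ℂ) (e (α * (y : ℝ) ^ 2 + β * (y : ℝ))) =
      e (α * (k : ℝ) ^ 2 + β * k) * e (k * (2 * α) * y) := by
    intro y
    rw [← e_neg, ← e_add, ← e_add]
    congr 1
    push_cast
    ring
  simp only [h]
  rw [← Finset.mul_sum, norm_mul, norm_e, one_mul]

open Classical in
/-- Chunk WEYL. `|S|^2 ≤ ∑_{|k| < L} |∑_{x ∈ I_k} e (2 α k x)|` with `I_k` an interval, so by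
`geo` many `k` have `nr (k (2 α)) ≤ C / L`; apply `vl`. -/
theorem weyl (c : ℝ) (hc : 0 < c) (hc1 : c ≤ 1) : ∃ Q : ℕ, 1 ≤ Q ∧ ∀ (L : ℕ), Q ≤ L →
    ∀ (a b : ℤ), a ≤ b → b - a ≤ L → ∀ (α β : ℝ),
    c * L ≤ ‖∑ x ∈ Finset.Ico a b, e (α * x ^ 2 + β * x)‖ →
    ∃ q : ℕ, 1 ≤ q ∧ q ≤ Q ∧ nr (q * α) ≤ Q / (L : ℝ) ^ 2 := by
  obtain ⟨Q', hQ', hvl⟩ := vl (c ^ 2 / 2) (by positivity) (by nlinarith)
  obtain ⟨Q1, hQ1⟩ := exists_nat_ge ((3 : ℝ) * Q' / c ^ 2)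
  have hQ'r : (1 : ℝ) ≤ Q' := by exact_mod_cast hQ'
  refine ⟨2 * Q' + Q1 + 1, by omega, ?_⟩
  intro L hL a b hab hba α β hbig
  have hLr : ((2 * Q' + Q1 + 1 : ℕ) : ℝ) ≤ L := by exact_mod_cast hL
  push_cast at hLr
  have hL1 : (1 : ℝ) ≤ L := by
    have : (0 : ℝ) ≤ Q1 := Nat.cast_nonneg _
    linarith
  have hLpos : (0 : ℝ) < L := by linarith
  set ε0 : ℝ := 3 / (c ^ 2 * L) with hε0
  have hε0pos : 0 < ε0 := by positivity
  set 𝒦 := (Finset.Icc (-(L : ℤ)) L).filter fun k : ℤ => nr (k * (2 * α)) ≤ ε0 with hK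
  have hsq : (c * L) ^ 2 ≤ ‖∑ x ∈ Finset.Ico a b, e (α * (x : ℝ) ^ 2 + β * x)‖ ^ 2 :=
    pow_le_pow_left₀ (by positivity) hbig 2
  have h1 := weyl_vdc L a b hba (fun x : ℤ => e (α * (x : ℝ) ^ 2 + β * x))
  have h2 : ∑ k ∈ Finset.Icc (-(L : ℤ)) L,
      ‖∑ y ∈ Finset.Ico (max a (a - k)) (min b (b - k)),
        (fun x : ℤ => e (α * (x : ℝ) ^ 2 + β * x)) (y + k) *
          (starRingEnd ℂ) ((fun x : ℤ => e (α * (x : ℝ) ^ 2 + β * x)) y)‖ ≤
      𝒦.card * L + (2 * L + 1) * (1 / (2 * ε0)) := by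
    have h3 : ∀ k ∈ Finset.Icc (-(L : ℤ)) L,
      ‖∑ y ∈ Finset.Ico (max a (a - k)) (min b (b - k)),
        (fun x : ℤ => e (α * (x : ℝ) ^ 2 + β * x)) (y + k) *
          (starRingEnd ℂ) ((fun x : ℤ => e (α * (x : ℝ) ^ 2 + β * x)) y)‖ ≤
        (if k ∈ 𝒦 then (L : ℝ) else 0) + 1 / (2 * ε0) := by
      intro k hk
      have h4 := weyl_inner a b α β k
      simp only
      rw [h4]
      have hpos : 0 < 1 / (2 * ε0) := by positivity
      by_cases hkK : k ∈ 𝒦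
      · rw [if_pos hkK]
        have h5 : ‖∑ y ∈ Finset.Ico (max a (a - k)) (min b (b - k)), e (k * (2 * α) * y)‖ ≤ L := by
          refine (norm_sum_le _ _).trans ?_
          simp only [norm_e, Finset.sum_const, nsmul_eq_mul, mul_one, Int.card_Ico]
          have : (min b (b - k) - max a (a - k)).toNat ≤ L := by omega
          exact_mod_cast this
        linarith
      · rw [if_neg hkK, zero_add]
        have hnr : ε0 < nr (k * (2 * α)) := by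
          by_contra hne
          push Not at hne
          exact hkK (Finset.mem_filter.mpr ⟨hk, hne⟩)
        rcases le_or_gt (max a (a - k)) (min b (b - k)) with h6 | h6
        · have h5 := geo (max a (a - k)) (min b (b - k)) h6 (k * (2 * α))
          rw [le_div_iff₀ (by positivity)]
          refine le_trans ?_ h5
          exact mul_le_mul_of_nonneg_left (by linarith) (norm_nonneg _)
        · rw [Finset.Ico_eq_empty (by omega)]
          simp only [Finset.sum_empty, norm_zero]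
          exact hpos.le
    refine (Finset.sum_le_sum h3).trans ?_
    rw [Finset.sum_add_distrib, Finset.sum_const, nsmul_eq_mul, Int.card_Icc]
    have h6 : ∑ k ∈ Finset.Icc (-(L : ℤ)) L, (if k ∈ 𝒦 then (L : ℝ) else 0) = 𝒦.card * L := by
      rw [← Finset.sum_filter, Finset.sum_const, nsmul_eq_mul]
      congr 2
      congr 1
      ext k
      simp [hK]
    rw [h6]
    have h7 : (((L : ℤ) + 1 - -(L : ℤ)).toNat : ℝ) = 2 * L + 1 := by
      have : ((L : ℤ) + 1 - -(L : ℤ)).toNat = 2 * L + 1 := by omega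
      rw [this]
      push_cast
      ring
    rw [h7]
  have h8 : (2 * (L : ℝ) + 1) * (1 / (2 * ε0)) ≤ c ^ 2 * L ^ 2 / 2 := by
    have : 1 / (2 * ε0) = c ^ 2 * L / 6 := by
      rw [hε0]
      field_simp
      ring
    rw [this]
    have h9 : (2 * (L : ℝ) + 1) ≤ 3 * L := by linarith
    have h10 : (0 : ℝ) ≤ c ^ 2 * L / 6 := by positivity
    calc (2 * (L : ℝ) + 1) * (c ^ 2 * L / 6) ≤ (3 * L) * (c ^ 2 * L / 6) :=
          mul_le_mul_of_nonneg_right h9 h10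
      _ = c ^ 2 * L ^ 2 / 2 := by ring
  have h9 : c ^ 2 / 2 * L ≤ 𝒦.card := by
    have h10 : (c * L) ^ 2 ≤ 𝒦.card * L + c ^ 2 * L ^ 2 / 2 := by linarith
    have h11 : (c ^ 2 / 2 * L) * L ≤ 𝒦.card * L := by nlinarith
    exact le_of_mul_le_mul_right h11 hLpos
  have h10 : (Q' : ℝ) * ε0 ≤ 1 := by
    rw [hε0, mul_div_assoc', div_le_one (by positivity)]
    have h11 : (3 : ℝ) * Q' ≤ Q1 * c ^ 2 := by
      rw [div_le_iff₀ (by positivity)] at hQ1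
      exact hQ1
    have h12 : (Q1 : ℝ) * c ^ 2 ≤ L * c ^ 2 :=
      mul_le_mul_of_nonneg_right (by linarith) (by positivity)
    linarith
  obtain ⟨q, hq1, hq2, hq3⟩ := hvl L (by omega) ε0 hε0pos.le h10 (2 * α) h9
  refine ⟨2 * q, by omega, by omega, ?_⟩
  have h11 : ((2 * q : ℕ) : ℝ) * α = q * (2 * α) := by
    push_cast
    ring
  rw [h11]
  refine hq3.trans ?_
  rw [hε0, mul_div_assoc', div_div, div_le_div_iff₀ (by positivity) (by positivity)]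
  have h12 : (3 : ℝ) * Q' ≤ Q1 * c ^ 2 := by
    rw [div_le_iff₀ (by positivity)] at hQ1
    exact hQ1
  push_cast
  have h13 : (Q' : ℝ) * 3 ≤ (2 * Q' + Q1 + 1) * c ^ 2 := by
    have : (0 : ℝ) ≤ (2 * Q' + 1) * c ^ 2 := by positivity
    nlinarith
  have h14 : (0 : ℝ) ≤ (L : ℝ) ^ 2 := by positivity
  nlinarith [mul_le_mul_of_nonneg_right h13 h14]

end Pool.Agent.Lib.H18GB
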