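import Pool.Agent.Lib.H18GB.Corr
import Pool.Agent.Lib.H18GB.Ers
import Pool.Agent.Lib.H18GB.Pars

/-!
# Project GB: TU2

Throughout `S` is a set of primes in `(w, z]`, `IsW w W`, and all intervals have length at least
`z ^ (C A)`; errors are `er C A w = 2^(-A/C) + w^(-1/C)`, and powers `er^(1/2)` etc. are absorbed
by increasing `C`. All sums of products of `rho`'s come from `corr0` / `corr`: the error terms are
`Ers (9/10) S (discriminant)` with discriminants affine in the averaged variables, with coefficient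
`± W^i * (1, 2 or 3)` or a prime `> z`; use `ers_mul`, `ers_pow_le`, `ers_avg`.
The error term `z^(A+k)` is `≤ er * (length)` when `z ^ (C A) ≤ length`.
-/

namespace Pool.Agent.Lib.H18GB

open Finset Pool.Agent.Lib.Sieve

namespace TU2

/-- shifting a sum over integers -/
theorem sum_shift {M : Type*} [AddCommMonoid M] (A B : Finset ℤ) (F : ℤ → M) (c : ℤ)
    (h1 : ∀ x ∈ A, x + c ∈ B) (h2 : ∀ y ∈ B, y - c ∉ A → F y = 0) :
    ∑ x ∈ A, F (x + c) = ∑ y ∈ B, F y := by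
  refine Finset.sum_of_injOn (fun x => x + c) (fun x _ y _ h => by simpa using h)
    (fun x hx => h1 x hx) ?_ (fun x _ => rfl)
  intro y hy hy'
  apply h2 y hy
  intro h
  exact hy' ⟨y - c, h, by simp⟩

theorem er_mono {C C' A w : ℕ} (hC : 1 ≤ C) (hCC : C ≤ C') (hw : 1 ≤ w) :
    er C A w ≤ er C' A w := by
  unfold er
  have h1 : (0 : ℝ) < C := by exact_mod_cast hC
  have h2 : (C : ℝ) ≤ C' := by exact_mod_cast hCC
  have h3 : (1 : ℝ) ≤ w := by exact_mod_cast hw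
  have h4 : (0 : ℝ) ≤ A := Nat.cast_nonneg A
  refine add_le_add (Real.rpow_le_rpow_of_exponent_le (by norm_num) ?_)
    (Real.rpow_le_rpow_of_exponent_le h3 ?_)
  · rw [neg_div, neg_div, neg_le_neg_iff]
    exact div_le_div_of_nonneg_left h4 h1 h2
  · rw [neg_div, neg_div, neg_le_neg_iff]
    exact div_le_div_of_nonneg_left zero_le_one h1 h2

theorem er_pos {C A w : ℕ} : 0 < er C A w := by
  unfold er
  have h1 : (0 : ℝ) < (2 : ℝ) ^ (-(A : ℝ) / C) := Real.rpow_pos_of_pos (by norm_num) _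
  have h2 : (0 : ℝ) ≤ (w : ℝ) ^ (-(1 : ℝ) / C) := Real.rpow_nonneg (Nat.cast_nonneg _) _
  linarith

theorem er_le_two {C A w : ℕ} (hw : 1 ≤ w) : er C A w ≤ 2 := by
  unfold er
  have h3 : (1 : ℝ) ≤ w := by exact_mod_cast hw
  have h4 : (0 : ℝ) ≤ A := Nat.cast_nonneg A
  have h1 : (2 : ℝ) ^ (-(A : ℝ) / C) ≤ 1 :=
    Real.rpow_le_one_of_one_le_of_nonpos (by norm_num)
      (div_nonpos_of_nonpos_of_nonneg (by linarith) (Nat.cast_nonneg _))
  have h2 : (w : ℝ) ^ (-(1 : ℝ) / C) ≤ 1 :=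
    Real.rpow_le_one_of_one_le_of_nonpos h3
      (div_nonpos_of_nonpos_of_nonneg (by norm_num) (Nat.cast_nonneg _))
  linarith

theorem sqrt_er_le {C A w : ℕ} (hC : 1 ≤ C) (hw : 1 ≤ w) :
    Real.sqrt (er C A w) ≤ er (2 * C) A w := by
  unfold er
  have h3 : (1 : ℝ) ≤ w := by exact_mod_cast hw
  have hC0 : (C : ℝ) ≠ 0 := by
    have : (0 : ℝ) < C := by exact_mod_cast hC
    exact this.ne'
  have e1 : (2 : ℝ) ^ (-(A : ℝ) / C) = ((2 : ℝ) ^ (-(A : ℝ) / (2 * C : ℕ))) ^ 2 := by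
    rw [← Real.rpow_natCast, ← Real.rpow_mul (by norm_num)]
    congr 1
    push_cast
    field_simp
  have e2 : (w : ℝ) ^ (-(1 : ℝ) / C) = ((w : ℝ) ^ (-(1 : ℝ) / (2 * C : ℕ))) ^ 2 := by
    rw [← Real.rpow_natCast, ← Real.rpow_mul (by linarith)]
    congr 1
    push_cast
    field_simp
  have p1 : (0 : ℝ) ≤ (2 : ℝ) ^ (-(A : ℝ) / (2 * C : ℕ)) := Real.rpow_nonneg (by norm_num) _
  have p2 : (0 : ℝ) ≤ (w : ℝ) ^ (-(1 : ℝ) / (2 * C : ℕ)) := Real.rpow_nonneg (by linarith) _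
  rw [e1, e2]
  apply Real.sqrt_le_iff.mpr
  constructor
  · positivity
  · nlinarith [mul_nonneg p1 p2]

/-- `z ^ (2 A + 4) ≤ N` makes the additive errors of `corr0` negligible -/
theorem pow_le_er {C A w z N : ℕ} (hC : 1 ≤ C) (hz : 2 ≤ z) (hN : z ^ (2 * A + 4) ≤ N) :
    (z : ℝ) ^ (A + 4) ≤ er C A w * N := by
  have h2 : (0 : ℝ) ≤ (w : ℝ) ^ (-(1 : ℝ) / C) := Real.rpow_nonneg (Nat.cast_nonneg _) _
  have hz' : (2 : ℝ) ≤ z := by exact_mod_cast hz
  have hN' : (z : ℝ) ^ (2 * A + 4) ≤ N := by exact_mod_cast hN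
  have h1 : (z : ℝ) ^ (-(A : ℝ)) ≤ (2 : ℝ) ^ (-(A : ℝ) / C) := by
    calc (z : ℝ) ^ (-(A : ℝ)) ≤ (2 : ℝ) ^ (-(A : ℝ)) :=
          Real.rpow_le_rpow_of_nonpos (by norm_num) hz' (by simp)
      _ ≤ (2 : ℝ) ^ (-(A : ℝ) / C) := by
          apply Real.rpow_le_rpow_of_exponent_le (by norm_num)
          rw [neg_div, neg_le_neg_iff]
          exact div_le_self (Nat.cast_nonneg _) (by exact_mod_cast hC)
  have h3 : (z : ℝ) ^ (-(A : ℝ)) * (z : ℝ) ^ (2 * A + 4) = (z : ℝ) ^ (A + 4) := by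
    rw [Real.rpow_neg (by linarith), Real.rpow_natCast]
    have : (z : ℝ) ^ A ≠ 0 := by positivity
    field_simp
    ring
  rw [← h3]
  have h4 : (z : ℝ) ^ (-(A : ℝ)) ≤ er C A w := by unfold er; linarith
  have h5 : (0 : ℝ) ≤ (z : ℝ) ^ (-(A : ℝ)) := Real.rpow_nonneg (by linarith) _
  exact mul_le_mul h4 hN' (by positivity) er_pos.le

/-- the sum of the errors -/
noncomputable def EE (S : Finset ℕ) (s : Fin 4 → ℤ) : ℝ :=
  ∑ i, ∑ j ∈ Finset.univ.filter (fun j => i ≠ j), Ers (9 / 10) S (s j - s i)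

theorem EE_nonneg (S : Finset ℕ) (s : Fin 4 → ℤ) : 0 ≤ EE S s :=
  Finset.sum_nonneg fun _ _ => Finset.sum_nonneg fun _ _ => Ers_nonneg _ _ _

theorem corrU : ∃ C : ℕ, 1 ≤ C ∧ ∀ (A w z W : ℕ) (S : Finset ℕ), C ≤ A → C ≤ w → 2 ≤ z →
    PSet w z S → IsW w W → ∀ (r : ℤ) (s : Fin 4 → ℤ) (U : Finset (Fin 4)) (a b : ℤ), a ≤ b →
    |∑ x ∈ Finset.Ico a b, ∏ i ∈ U, rho S (r + W * (x + s i)) - (b - a)| ≤
      (b - a) * (C * er C A w + C * EE S s) + C * (z : ℝ) ^ (A + 4) := by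
  choose Ck hCk hk using corr0
  set C : ℕ := Ck 0 + Ck 1 + Ck 2 + Ck 3 + Ck 4 with hC
  have hle : ∀ k ≤ 4, Ck k ≤ C := by
    intro k hk4
    interval_cases k <;> omega
  refine ⟨C, by have := hCk 0; omega, ?_⟩
  intro A w z W S hA hw hz hS hW r s U a b hab
  have hU : U.card ≤ 4 := by
    have := Finset.card_le_univ U
    simpa using this
  have h1 := hk U.card A w z S ((hle _ hU).trans hA) ((hle _ hU).trans hw) hz hS
    (fun _ => (W : ℤ)) (fun i => r + W * s (U.equivFin.symm i)) (fun p hp _ => hW.not_dvd hS p hp) a b hab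
  have hprod : ∀ x : ℤ, ∏ i ∈ U, rho S (r + W * (x + s i)) =
      ∏ i : Fin U.card, rho S ((W : ℤ) * x + (r + W * s (U.equivFin.symm i))) := by
    intro x
    rw [← Finset.prod_coe_sort U, ← Equiv.prod_comp U.equivFin.symm]
    apply Finset.prod_congr rfl
    intro i _
    congr 1
    ring
  simp_rw [hprod]
  refine h1.trans ?_
  have hba : (0 : ℝ) ≤ (b : ℝ) - a := by
    have : (a : ℝ) ≤ b := by exact_mod_cast hab
    linarith
  have hC1 : (Ck U.card : ℝ) ≤ C := by exact_mod_cast hle _ hU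
  have hz1 : (1 : ℝ) ≤ z := by
    have : (2 : ℝ) ≤ z := by exact_mod_cast hz
    linarith
  have hw1 : 1 ≤ w := by have := hCk 0; omega
  have hd : ∀ i j : Fin U.card, Ers (9 / 10) S
      (disc (fun _ => (W : ℤ)) (fun i => r + W * s (U.equivFin.symm i)) i j) =
      Ers (9 / 10) S (s (U.equivFin.symm j) - s (U.equivFin.symm i)) := by
    intro i j
    have : disc (fun _ => (W : ℤ)) (fun i => r + W * s (U.equivFin.symm i)) i j =
        (W * W : ℤ) * (s (U.equivFin.symm j) - s (U.equivFin.symm i)) := by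
      unfold disc
      ring
    rw [this]
    apply ers_mul hS.prime
    intro p hp h
    have hpp : Prime (p : ℤ) := Nat.prime_iff_prime_int.mp (hS.prime p hp)
    rcases hpp.dvd_or_dvd h with h | h <;> exact hW.not_dvd hS p hp h
  have hsum : ∑ i, ∑ j ∈ Finset.univ.filter (fun j => i ≠ j), Ers (9 / 10) S
      (disc (fun _ => (W : ℤ)) (fun i : Fin U.card => r + W * s (U.equivFin.symm i)) i j) ≤ EE S s := by
    simp_rw [hd]
    unfold EE
    simp_rw [Finset.sum_filter]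
    have e1 : ∑ i : Fin U.card, ∑ j : Fin U.card, (if i ≠ j then
        Ers (9 / 10) S (s (U.equivFin.symm j) - s (U.equivFin.symm i)) else 0) =
        ∑ i ∈ U, ∑ j ∈ U, if i ≠ j then Ers (9 / 10) S (s j - s i) else 0 := by
      rw [← Finset.sum_coe_sort U, ← Equiv.sum_comp U.equivFin.symm]
      apply Finset.sum_congr rfl
      intro i _
      rw [← Finset.sum_coe_sort U, ← Equiv.sum_comp U.equivFin.symm]
      apply Finset.sum_congr rfl
      intro j _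
      by_cases hij : i = j
      · simp [hij]
      · have : (U.equivFin.symm i : Fin 4) ≠ (U.equivFin.symm j : Fin 4) := by
          intro h
          apply hij
          exact U.equivFin.symm.injective (Subtype.ext h)
        simp [hij, this]
    rw [e1]
    have hnn : ∀ i j : Fin 4, 0 ≤ (if i ≠ j then Ers (9 / 10) S (s j - s i) else 0) := by
      intro i j
      split_ifs
      · exact Ers_nonneg _ _ _
      · exact le_rfl
    calc _ ≤ ∑ i ∈ U, ∑ j, (if i ≠ j then Ers (9 / 10) S (s j - s i) else 0) :=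
          Finset.sum_le_sum fun i _ => Finset.sum_le_sum_of_subset_of_nonneg (Finset.subset_univ _)
            (fun j _ _ => hnn i j)
      _ ≤ _ := Finset.sum_le_sum_of_subset_of_nonneg (Finset.subset_univ _)
            (fun i _ _ => Finset.sum_nonneg fun j _ => hnn i j)
  have hEE := EE_nonneg S s
  have her : er (Ck U.card) A w ≤ er C A w := er_mono (hCk _) (hle _ hU) hw1
  have her0 := er_nonneg (Ck U.card) A w
  have hCk0 : (0 : ℝ) ≤ Ck U.card := Nat.cast_nonneg _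
  have hs0 : 0 ≤ ∑ i, ∑ j ∈ Finset.univ.filter (fun j => i ≠ j), Ers (9 / 10) S
      (disc (fun _ => (W : ℤ)) (fun i : Fin U.card => r + W * s (U.equivFin.symm i)) i j) :=
    Finset.sum_nonneg fun _ _ => Finset.sum_nonneg fun _ _ => Ers_nonneg _ _ _
  refine add_le_add (mul_le_mul_of_nonneg_left (add_le_add ?_ ?_) hba) ?_
  · exact mul_le_mul hC1 her her0 (by positivity)
  · exact mul_le_mul hC1 hsum hs0 (by positivity)
  · exact mul_le_mul hC1 (pow_le_pow_right₀ hz1 (by omega)) (by positivity) (by positivity)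


theorem corrV : ∃ C : ℕ, 1 ≤ C ∧ ∀ (A w z W : ℕ) (S : Finset ℕ), C ≤ A → C ≤ w → 2 ≤ z →
    PSet w z S → IsW w W → ∀ (r : ℤ) (s : Fin 4 → ℤ) (V : Finset (Fin 4)) (a b : ℤ), a ≤ b →
    |∑ x ∈ Finset.Ico a b, ∏ i ∈ V, (1 + rho S (r + W * (x + s i))) - 2 ^ V.card * (b - a)| ≤
      2 ^ V.card * ((b - a) * (C * er C A w + C * EE S s) + C * (z : ℝ) ^ (A + 4)) := by
  obtain ⟨C, hC, h⟩ := corrU
  refine ⟨C, hC, ?_⟩
  intro A w z W S hA hw hz hS hW r s V a b hab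
  have h1 : ∑ x ∈ Finset.Ico a b, ∏ i ∈ V, (1 + rho S (r + W * (x + s i))) - 2 ^ V.card * (b - a)
      = ∑ U ∈ V.powerset, (∑ x ∈ Finset.Ico a b, ∏ i ∈ U, rho S (r + W * (x + s i)) - (b - a)) := by
    rw [Finset.sum_sub_distrib, Finset.sum_comm, Finset.sum_const, Finset.card_powerset]
    congr 1
    · apply Finset.sum_congr rfl
      intro x _
      rw [Finset.prod_one_add]
    · rw [nsmul_eq_mul]
      push_cast
      ring
  rw [h1]
  calc _ ≤ ∑ U ∈ V.powerset, |∑ x ∈ Finset.Ico a b, ∏ i ∈ U, rho S (r + W * (x + s i)) - (b - a)| :=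
        Finset.abs_sum_le_sum_abs _ _
    _ ≤ ∑ U ∈ V.powerset, ((b - a) * (C * er C A w + C * EE S s) + C * (z : ℝ) ^ (A + 4)) :=
        Finset.sum_le_sum fun U _ => h A w z W S hA hw hz hS hW r s U a b hab
    _ = _ := by
        rw [Finset.sum_const, Finset.card_powerset, nsmul_eq_mul]
        push_cast
        ring

/-- `q(h, j)` -/
noncomputable def qq (S : Finset ℕ) (h j : ℤ) : ℝ :=
  Ers (9 / 10) S h + Ers (9 / 10) S j + Ers (9 / 10) S (j - h) + Ers (9 / 10) S (j + h)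

theorem qq_nonneg (S : Finset ℕ) (h j : ℤ) : 0 ≤ qq S h j := by
  unfold qq
  have := Ers_nonneg (9 / 10) S h
  have := Ers_nonneg (9 / 10) S j
  have := Ers_nonneg (9 / 10) S (j - h)
  have := Ers_nonneg (9 / 10) S (j + h)
  positivity

theorem EE_eq (S : Finset ℕ) (a b c d : ℤ) : EE S ![a, b, c, d] =
    2 * (Ers (9 / 10) S (b - a) + Ers (9 / 10) S (c - a) + Ers (9 / 10) S (d - a) +
      Ers (9 / 10) S (c - b) + Ers (9 / 10) S (d - b) + Ers (9 / 10) S (d - c)) := by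
  have n : ∀ x y : ℤ, Ers (9 / 10) S (x - y) = Ers (9 / 10) S (y - x) := by
    intro x y
    rw [← ers_neg, neg_sub]
  unfold EE
  simp only [Fin.sum_univ_four, Finset.sum_filter]
  simp only [Matrix.cons_val_zero, Matrix.cons_val_one, Matrix.cons_val]
  simp only [show ((0 : Fin 4) ≠ 0) = False by decide, show ((0 : Fin 4) ≠ 1) = True by decide,
    show ((0 : Fin 4) ≠ 2) = True by decide, show ((0 : Fin 4) ≠ 3) = True by decide,
    show ((1 : Fin 4) ≠ 0) = True by decide, show ((1 : Fin 4) ≠ 1) = False by decide,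
    show ((1 : Fin 4) ≠ 2) = True by decide, show ((1 : Fin 4) ≠ 3) = True by decide,
    show ((2 : Fin 4) ≠ 0) = True by decide, show ((2 : Fin 4) ≠ 1) = True by decide,
    show ((2 : Fin 4) ≠ 2) = False by decide, show ((2 : Fin 4) ≠ 3) = True by decide,
    show ((3 : Fin 4) ≠ 0) = True by decide, show ((3 : Fin 4) ≠ 1) = True by decide,
    show ((3 : Fin 4) ≠ 2) = True by decide, show ((3 : Fin 4) ≠ 3) = False by decide, if_true, if_false]
  rw [n a b, n a c, n a d, n b c, n b d, n c d]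
  ring

theorem EE_D (S : Finset ℕ) (h j : ℤ) : EE S ![0, h, j, j + h] ≤ 4 * qq S h j := by
  have h1 := Ers_nonneg (9 / 10) S h
  have h2 := Ers_nonneg (9 / 10) S j
  have h3 := Ers_nonneg (9 / 10) S (j - h)
  have h4 := Ers_nonneg (9 / 10) S (j + h)
  rw [EE_eq]
  unfold qq
  rw [show h - 0 = h by ring, show j - 0 = j by ring, show j + h - 0 = j + h by ring,
    show j + h - h = j by ring, show j + h - j = h by ring]
  linarith

theorem EE_E (S : Finset ℕ) (h j : ℤ) : EE S ![0, -h, j, j - h] ≤ 4 * qq S h j := by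
  have h1 := Ers_nonneg (9 / 10) S h
  have h2 := Ers_nonneg (9 / 10) S j
  have h3 := Ers_nonneg (9 / 10) S (j - h)
  have h4 := Ers_nonneg (9 / 10) S (j + h)
  rw [EE_eq]
  unfold qq
  rw [show -h - 0 = -h by ring, show j - 0 = j by ring, show j - h - 0 = j - h by ring,
    show j - -h = j + h by ring, show j - h - -h = j by ring, show j - h - j = -h by ring, ers_neg]
  linarith

/-- autocorrelation of the majorant of `D_h` -/
theorem corrD : ∃ C : ℕ, 1 ≤ C ∧ ∀ (A w z W N : ℕ) (S : Finset ℕ), C ≤ A → C ≤ w → 2 ≤ z →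
    PSet w z S → IsW w W → z ^ (2 * A + 4) ≤ N → ∀ (r h j : ℤ),
    ∑ x ∈ Finset.Ico (-(2 * N : ℤ)) (2 * N), (1 + rho S (r + W * x)) *
      (1 + rho S (r + W * (x + h))) * (1 + rho S (r + W * (x + j))) *
      (1 + rho S (r + W * (x + (j + h)))) ≤ C * N * (1 + qq S h j) := by
  obtain ⟨C, hC, H⟩ := corrV
  refine ⟨1000 * C, by omega, ?_⟩
  intro A w z W N S hA hw hz hS hW hN r h j
  have h1 := H A w z W S (by omega) (by omega) hz hS hW r ![0, h, j, j + h] Finset.univ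
    (-(2 * N : ℤ)) (2 * N) (by omega)
  rw [Finset.card_univ, Fintype.card_fin] at h1
  simp only [Fin.prod_univ_four, Matrix.cons_val_zero, Matrix.cons_val_one, Matrix.cons_val,
    add_zero] at h1
  have h2 := (abs_le.mp h1).2
  have h3 := pow_le_er (A := A) (w := w) (N := N) hC hz hN
  have h4 : er C A w ≤ 2 := er_le_two (by omega)
  have h5 := EE_D S h j
  have h6 := qq_nonneg S h j
  have h7 := EE_nonneg S ![0, h, j, j + h]
  have h8 : (0 : ℝ) ≤ N := Nat.cast_nonneg _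
  have h9 : (1 : ℝ) ≤ C := by exact_mod_cast hC
  have hNe : er C A w * N ≤ 2 * N := mul_le_mul_of_nonneg_right h4 h8
  have a1 : (C : ℝ) * er C A w ≤ 2 * C := by nlinarith
  have a2 : (C : ℝ) * EE S ![0, h, j, j + h] ≤ 4 * C * qq S h j := by nlinarith
  have a3 : (C : ℝ) * (z : ℝ) ^ (A + 4) ≤ 2 * C * N := by
    calc (C : ℝ) * (z : ℝ) ^ (A + 4) ≤ C * (2 * N) :=
          mul_le_mul_of_nonneg_left (h3.trans hNe) (by linarith)
      _ = _ := by ring
  have a4 : (4 : ℝ) * N * (C * er C A w + C * EE S ![0, h, j, j + h]) ≤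
      4 * N * (2 * C + 4 * C * qq S h j) :=
    mul_le_mul_of_nonneg_left (add_le_add a1 a2) (by positivity)
  push_cast at h2 ⊢
  have a5 : (N : ℝ) ≤ C * N := by nlinarith
  have a6 : 0 ≤ (C : ℝ) * N * qq S h j := by positivity
  nlinarith [h2, a3, a4, a5, a6]


/-- the deviation `E_h(t)` -/
noncomputable def EH (S : Finset ℕ) (W N : ℕ) (r h t : ℤ) : ℝ :=
  if (-(2 * N : ℤ) ≤ t ∧ t < 2 * N) ∧ (-(2 * N : ℤ) ≤ t - h ∧ t - h < 2 * N) then
    (1 + rho S (r + W * t)) * (1 + rho S (r + W * (t - h))) - 4 else 0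

theorem corrE : ∃ C : ℕ, 1 ≤ C ∧ ∀ (A w z W N : ℕ) (S : Finset ℕ), C ≤ A → C ≤ w → 2 ≤ z →
    PSet w z S → IsW w W → z ^ (2 * A + 4) ≤ N → ∀ (r h j : ℤ),
    |∑ t ∈ Finset.Ico (-(2 * N : ℤ)) (2 * N), EH S W N r h t * EH S W N r h (t + j)| ≤
      C * N * (er C A w + qq S h j) := by
  obtain ⟨C, hC, H⟩ := corrV
  refine ⟨1000 * C, by omega, ?_⟩
  intro A w z W N S hA hw hz hS hW hN r h j
  set a : ℤ := max (max (-(2 * N : ℤ)) (-(2 * N : ℤ) + h)) (max (-(2 * N : ℤ) - j) (-(2 * N : ℤ) - j + h))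
    with ha
  set b : ℤ := min (min (2 * N : ℤ) (2 * N + h)) (min (2 * N - j : ℤ) (2 * N - j + h)) with hb
  set X : ℤ → ℝ := fun t => ((1 + rho S (r + W * t)) * (1 + rho S (r + W * (t - h))) - 4) *
    ((1 + rho S (r + W * (t + j))) * (1 + rho S (r + W * (t + (j - h)))) - 4) with hX
  have hsum : ∑ t ∈ Finset.Ico (-(2 * N : ℤ)) (2 * N), EH S W N r h t * EH S W N r h (t + j) =
      ∑ t ∈ Finset.Ico a b, X t := by
    have hsub : Finset.Ico a b ⊆ Finset.Ico (-(2 * N : ℤ)) (2 * N) := by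
      intro t ht
      rw [Finset.mem_Ico] at ht ⊢
      omega
    rw [← Finset.sum_subset hsub]
    · apply Finset.sum_congr rfl
      intro t ht
      rw [Finset.mem_Ico] at ht
      unfold EH
      rw [if_pos (by omega), if_pos (by omega), hX]
      simp only
      rw [show t + j - h = t + (j - h) by ring]
    · intro t ht ht'
      rw [Finset.mem_Ico] at ht ht'
      unfold EH
      by_cases h1 : (-(2 * N : ℤ) ≤ t ∧ t < 2 * N) ∧ (-(2 * N : ℤ) ≤ t - h ∧ t - h < 2 * N)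
      · rw [if_neg (c := (-(2 * N : ℤ) ≤ t + j ∧ t + j < 2 * N) ∧
          (-(2 * N : ℤ) ≤ t + j - h ∧ t + j - h < 2 * N)) (by omega), mul_zero]
      · rw [if_neg h1, zero_mul]
  rw [hsum]
  have h3 := pow_le_er (A := A) (w := w) (N := N) hC hz hN
  have h4 : 0 ≤ er C A w := er_nonneg _ _ _
  have h4' : er C A w ≤ er (1000 * C) A w := er_mono hC (by omega) (by omega)
  have h6 := qq_nonneg S h j
  have h8 : (0 : ℝ) ≤ N := Nat.cast_nonneg _
  have h9 : (1 : ℝ) ≤ C := by exact_mod_cast hC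
  rcases lt_or_ge b a with hba | hab
  · rw [Finset.Ico_eq_empty (by omega)]
    simp only [Finset.sum_empty, abs_zero]
    have := er_nonneg (1000 * C) A w
    positivity
  · have h5 := EE_E S h j
    have h7 := EE_nonneg S ![0, -h, j, j - h]
    have k0 := H A w z W S (by omega) (by omega) hz hS hW r ![0, -h, j, j - h] Finset.univ a b hab
    have k1 := H A w z W S (by omega) (by omega) hz hS hW r ![0, -h, j, j - h] {0, 1} a b hab
    have k2 := H A w z W S (by omega) (by omega) hz hS hW r ![0, -h, j, j - h] {2, 3} a b hab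
    rw [Finset.card_univ, Fintype.card_fin] at k0
    rw [Finset.card_pair (by decide)] at k1 k2
    simp only [Finset.prod_pair (show (0 : Fin 4) ≠ 1 by decide)] at k1
    simp only [Finset.prod_pair (show (2 : Fin 4) ≠ 3 by decide)] at k2
    simp only [Fin.prod_univ_four] at k0
    simp only [Matrix.cons_val_zero, Matrix.cons_val_one, Matrix.cons_val,
      add_zero, ← sub_eq_add_neg] at k0 k1 k2
    have hXs : ∑ t ∈ Finset.Ico a b, X t =
        ∑ x ∈ Finset.Ico a b, (1 + rho S (r + W * x)) * (1 + rho S (r + W * (x - h))) *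
          (1 + rho S (r + W * (x + j))) * (1 + rho S (r + W * (x + (j - h)))) -
        4 * ∑ x ∈ Finset.Ico a b, (1 + rho S (r + W * x)) * (1 + rho S (r + W * (x - h))) -
        4 * ∑ x ∈ Finset.Ico a b, (1 + rho S (r + W * (x + j))) * (1 + rho S (r + W * (x + (j - h)))) +
        16 * (b - a) := by
      rw [Finset.mul_sum, Finset.mul_sum, ← Finset.sum_sub_distrib, ← Finset.sum_sub_distrib]
      have : (16 * ((b : ℝ) - a)) = ∑ x ∈ Finset.Ico a b, (16 : ℝ) := by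
        rw [Finset.sum_const, Int.card_Ico, nsmul_eq_mul]
        have : ((b - a).toNat : ℝ) = (b : ℝ) - a := by
          have h : ((b - a).toNat : ℤ) = b - a := Int.toNat_of_nonneg (by omega)
          have h' : (((b - a).toNat : ℤ) : ℝ) = ((b - a : ℤ) : ℝ) := by rw [h]
          push_cast at h'
          exact h'
        rw [this]
        ring
      rw [this, ← Finset.sum_add_distrib]
      apply Finset.sum_congr rfl
      intro x _
      rw [hX]
      ring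
    rw [hXs]
    set err : ℝ := ((b : ℝ) - a) * (C * er C A w + C * EE S ![0, -h, j, j - h]) +
      C * (z : ℝ) ^ (A + 4) with herr
    rw [abs_le] at k0 k1 k2
    have hba1 : (b : ℝ) - a ≤ 4 * N := by
      have : b - a ≤ 4 * N := by omega
      exact_mod_cast this
    have hba0 : (0 : ℝ) ≤ (b : ℝ) - a := by
      have : 0 ≤ b - a := by omega
      exact_mod_cast this
    have herr1 : err ≤ 4 * N * (C * er C A w + 4 * C * qq S h j) + C * (er C A w * N) := by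
      rw [herr]
      refine add_le_add (mul_le_mul hba1 ?_ (by positivity) (by positivity)) ?_
      · have := mul_le_mul_of_nonneg_left h5 (by linarith : (0 : ℝ) ≤ C)
        linarith
      · exact mul_le_mul_of_nonneg_left h3 (by linarith)
    have herr2 : 48 * err ≤ ((1000 * C : ℕ) : ℝ) * N * (er (1000 * C) A w + qq S h j) := by
      push_cast
      have b1 : 0 ≤ (C : ℝ) * N * qq S h j := by positivity
      have b2 : (C : ℝ) * N * er C A w ≤ C * N * er (1000 * C) A w :=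
        mul_le_mul_of_nonneg_left h4' (by positivity)
      have b3 : 0 ≤ (C : ℝ) * N * er C A w := by positivity
      nlinarith
    refine le_trans ?_ herr2
    rw [abs_le]
    norm_num at k0 k1 k2
    constructor <;> linarith [k0.1, k0.2, k1.1, k1.2, k2.1, k2.2]


theorem four_sq (a b c d : ℝ) :
    (a + b + c + d) ^ 2 ≤ 4 * (a ^ 2 + b ^ 2 + c ^ 2 + d ^ 2) := by
  nlinarith [sq_nonneg (a - b), sq_nonneg (a - c), sq_nonneg (a - d), sq_nonneg (b - c),
    sq_nonneg (b - d), sq_nonneg (c - d)]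

theorem two_cube {a b : ℝ} (ha : 0 ≤ a) (hb : 0 ≤ b) : (a + b) ^ 3 ≤ 4 * (a ^ 3 + b ^ 3) := by
  nlinarith [mul_nonneg (add_nonneg ha hb) (sq_nonneg (a - b))]

theorem four_cube {a b c d : ℝ} (ha : 0 ≤ a) (hb : 0 ≤ b) (hc : 0 ≤ c) (hd : 0 ≤ d) :
    (a + b + c + d) ^ 3 ≤ 16 * (a ^ 3 + b ^ 3 + c ^ 3 + d ^ 3) := by
  have h1 := two_cube ha hb
  have h2 := two_cube hc hd
  have h3 := two_cube (add_nonneg ha hb) (add_nonneg hc hd)
  rw [show a + b + (c + d) = a + b + c + d by ring] at h3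
  linarith

/-- the sum of the `Ers (9/20)` -/
noncomputable def q2 (S : Finset ℕ) (h j : ℤ) : ℝ :=
  Ers (9 / 20) S h + Ers (9 / 20) S j + Ers (9 / 20) S (j - h) + Ers (9 / 20) S (j + h)

theorem qq_poly : ∃ C : ℝ, 1 ≤ C ∧ ∀ (w z : ℕ) (S : Finset ℕ) (h j : ℤ) (e : ℝ), PSet w z S →
    0 ≤ e → e ≤ 2 → (1 + qq S h j) ^ 2 * (e + qq S h j) ≤ e + C * q2 S h j := by
  obtain ⟨C, hC, H⟩ := ers_pow_le
  refine ⟨37 * C, by linarith, ?_⟩
  intro w z S h j e hS he he2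
  have a0 := Ers_nonneg (9 / 10) S h
  have a1 := Ers_nonneg (9 / 10) S j
  have a2 := Ers_nonneg (9 / 10) S (j - h)
  have a3 := Ers_nonneg (9 / 10) S (j + h)
  have b0 := fun k hk hk' => H w z S h k hS hk hk'
  have b1 := fun k hk hk' => H w z S j k hS hk hk'
  have b2 := fun k hk hk' => H w z S (j - h) k hS hk hk'
  have b3 := fun k hk hk' => H w z S (j + h) k hS hk hk'
  have q1 : qq S h j ≤ C * q2 S h j := by
    have c0 := b0 1 le_rfl (by norm_num)
    have c1 := b1 1 le_rfl (by norm_num)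
    have c2 := b2 1 le_rfl (by norm_num)
    have c3 := b3 1 le_rfl (by norm_num)
    rw [pow_one] at c0 c1 c2 c3
    unfold qq q2
    linarith
  have q2' : qq S h j ^ 2 ≤ 4 * (C * q2 S h j) := by
    have c0 := b0 2 (by norm_num) (by norm_num)
    have c1 := b1 2 (by norm_num) (by norm_num)
    have c2 := b2 2 (by norm_num) (by norm_num)
    have c3 := b3 2 (by norm_num) (by norm_num)
    have := four_sq (Ers (9 / 10) S h) (Ers (9 / 10) S j) (Ers (9 / 10) S (j - h)) (Ers (9 / 10) S (j + h))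
    unfold qq q2
    linarith
  have q3 : qq S h j ^ 3 ≤ 16 * (C * q2 S h j) := by
    have c0 := b0 3 (by norm_num) (by norm_num)
    have c1 := b1 3 (by norm_num) (by norm_num)
    have c2 := b2 3 (by norm_num) (by norm_num)
    have c3 := b3 3 (by norm_num) (by norm_num)
    have := four_cube a0 a1 a2 a3
    unfold qq q2
    linarith
  have hq := qq_nonneg S h j
  have e1 : e * qq S h j ≤ 2 * qq S h j := mul_le_mul_of_nonneg_right he2 hq
  have e2 : e * qq S h j ^ 2 ≤ 2 * qq S h j ^ 2 := mul_le_mul_of_nonneg_right he2 (sq_nonneg _)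
  nlinarith

theorem avgE : ∃ C : ℕ, 3 ≤ C ∧ ∀ (A w z N : ℕ) (S : Finset ℕ), C ≤ A → C ≤ w → 2 ≤ z →
    PSet w z S → z ^ (2 * A + 4) ≤ N → ∀ β : ℤ,
    ∑ x ∈ Finset.Ico (-(4 * N : ℤ)) (4 * N), Ers (9 / 20) S (x + β) ≤ C * (er C A w * N) := by
  obtain ⟨C, hC, H⟩ := ers_avg (9 / 20) (by norm_num) (by norm_num)
  obtain ⟨D, hD⟩ := exists_nat_ge (9 * C)
  have hD3 : (3 : ℝ) ≤ D := by linarith
  have hD3' : 3 ≤ D := by exact_mod_cast hD3
  refine ⟨D, hD3', ?_⟩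
  intro A w z N S hA hw hz hS hN β
  have hw1 : 1 ≤ w := by omega
  have h1 := H w z S hw1 hS 1 β (fun p hp h => by
    have := (hS.prime p hp).one_lt
    have h2 : (p : ℤ) ≤ 1 := Int.le_of_dvd (by norm_num) h
    omega) (-(4 * N : ℤ)) (4 * N) (by omega)
  simp only [one_mul] at h1
  refine h1.trans ?_
  have h3 := pow_le_er (A := A) (w := w) (N := N) (C := D) (by omega) hz hN
  have hz1 : (1 : ℝ) ≤ z := by
    have : (2 : ℝ) ≤ z := by exact_mod_cast hz
    linarith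
  have hz4 : (z : ℝ) ≤ (z : ℝ) ^ (A + 4) := by
    calc (z : ℝ) = (z : ℝ) ^ 1 := (pow_one _).symm
      _ ≤ _ := pow_le_pow_right₀ hz1 (by omega)
  have hwr : (1 : ℝ) ≤ w := by exact_mod_cast hw1
  have h5 : (w : ℝ) ^ (-(9 / 20 : ℝ)) ≤ er D A w := by
    have e1 : (w : ℝ) ^ (-(9 / 20 : ℝ)) ≤ (w : ℝ) ^ (-(1 : ℝ) / D) := by
      apply Real.rpow_le_rpow_of_exponent_le hwr
      rw [neg_div, neg_le_neg_iff, div_le_iff₀ (by linarith)]
      linarith
    have e2 : (0 : ℝ) ≤ (2 : ℝ) ^ (-(A : ℝ) / D) := Real.rpow_nonneg (by norm_num) _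
    unfold er
    linarith
  have hN0 : (0 : ℝ) ≤ N := Nat.cast_nonneg _
  have h6 : ((4 * N : ℤ) : ℝ) - ((-(4 * N : ℤ) : ℤ) : ℝ) = 8 * N := by push_cast; ring
  rw [h6]
  have h7 : 8 * (N : ℝ) * (w : ℝ) ^ (-(9 / 20 : ℝ)) ≤ 8 * N * er D A w :=
    mul_le_mul_of_nonneg_left h5 (by positivity)
  have h8 : 8 * (N : ℝ) * (w : ℝ) ^ (-(9 / 20 : ℝ)) + z ≤ 9 * (er D A w * N) := by linarith
  have h9 : 0 ≤ er D A w * N := mul_nonneg er_pos.le hN0
  calc C * (8 * (N : ℝ) * (w : ℝ) ^ (-(9 / 20 : ℝ)) + z) ≤ C * (9 * (er D A w * N)) :=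
        mul_le_mul_of_nonneg_left h8 (by linarith)
    _ = 9 * C * (er D A w * N) := by ring
    _ ≤ _ := mul_le_mul_of_nonneg_right hD h9

theorem avg (C0 : ℕ) (hC0 : 1 ≤ C0) : ∃ C : ℕ, C0 ≤ C ∧ ∀ (A w z N : ℕ) (S : Finset ℕ),
    C ≤ A → C ≤ w → 2 ≤ z → PSet w z S → z ^ (2 * A + 4) ≤ N →
    ∑ h ∈ Finset.Ico (-(4 * N : ℤ)) (4 * N), ∑ j ∈ Finset.Ico (-(4 * N : ℤ)) (4 * N),
      (1 + qq S h j) ^ 2 * (er C0 A w + qq S h j) ≤ C * (er C A w * N ^ 2) := by
  obtain ⟨C1, hC1, H1⟩ := qq_poly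
  obtain ⟨C2, hC2, H2⟩ := avgE
  obtain ⟨D, hD⟩ := exists_nat_ge (64 + 32 * C1 * C2)
  refine ⟨C0 + C2 + D, by omega, ?_⟩
  set C := C0 + C2 + D with hCdef
  intro A w z N S hA hw hz hS hN
  have hw1 : 1 ≤ w := by omega
  have hN0 : (0 : ℝ) ≤ N := Nat.cast_nonneg _
  have he0 : er C0 A w ≤ er C A w := er_mono hC0 (by omega) hw1
  have he2 : er C2 A w ≤ er C A w := er_mono (by omega) (by omega) hw1
  have hp := er_nonneg C A w
  set J := Finset.Ico (-(4 * N : ℤ)) (4 * N) with hJ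
  have hJc : (J.card : ℝ) = 8 * N := by
    rw [hJ, Int.card_Ico]
    have : ((4 * N - -(4 * N) : ℤ)).toNat = 8 * N := by omega
    rw [this]
    push_cast
    ring
  set X : ℝ := C2 * (er C2 A w * N) with hX
  have hXC : X ≤ C2 * (er C A w * N) :=
    mul_le_mul_of_nonneg_left (mul_le_mul_of_nonneg_right he2 hN0) (Nat.cast_nonneg _)
  have hav : ∀ β : ℤ, ∑ x ∈ J, Ers (9 / 20) S (x + β) ≤ X :=
    fun β => H2 A w z N S (by omega) (by omega) hz hS hN β
  have hav0 : ∑ x ∈ J, Ers (9 / 20) S x ≤ X := by simpa using hav 0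
  have hrow : ∀ h ∈ J, ∑ j ∈ J, (1 + qq S h j) ^ 2 * (er C0 A w + qq S h j) ≤
      8 * N * er C A w + C1 * (8 * N * Ers (9 / 20) S h + 3 * X) := by
    intro h _
    calc _ ≤ ∑ j ∈ J, (er C A w + C1 * q2 S h j) := by
          apply Finset.sum_le_sum
          intro j _
          refine (H1 w z S h j _ hS (er_nonneg _ _ _) (er_le_two hw1)).trans ?_
          linarith
      _ = 8 * N * er C A w + C1 * (8 * N * Ers (9 / 20) S h + (∑ j ∈ J, Ers (9 / 20) S j +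
          ∑ j ∈ J, Ers (9 / 20) S (j + -h) + ∑ j ∈ J, Ers (9 / 20) S (j + h))) := by
          rw [Finset.sum_add_distrib, ← Finset.mul_sum, Finset.sum_const, nsmul_eq_mul, hJc]
          unfold q2
          rw [Finset.sum_add_distrib, Finset.sum_add_distrib, Finset.sum_add_distrib,
            Finset.sum_const, nsmul_eq_mul, hJc]
          simp only [← sub_eq_add_neg]
          ring
      _ ≤ _ := by
          have := hav (-h)
          have := hav h
          have := mul_le_mul_of_nonneg_left (a := C1) (b := (∑ j ∈ J, Ers (9 / 20) S j +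
            ∑ j ∈ J, Ers (9 / 20) S (j + -h) + ∑ j ∈ J, Ers (9 / 20) S (j + h))) (c := 3 * X)
            (by linarith) (by linarith)
          linarith
  calc _ ≤ ∑ h ∈ J, (8 * N * er C A w + C1 * (8 * N * Ers (9 / 20) S h + 3 * X)) :=
        Finset.sum_le_sum hrow
    _ = 64 * N ^ 2 * er C A w + C1 * (8 * N * ∑ h ∈ J, Ers (9 / 20) S h + 24 * N * X) := by
        rw [Finset.sum_add_distrib, Finset.sum_const, nsmul_eq_mul, hJc, ← Finset.mul_sum,
          Finset.sum_add_distrib, Finset.sum_const, nsmul_eq_mul, hJc, ← Finset.mul_sum]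
        ring
    _ ≤ 64 * N ^ 2 * er C A w + C1 * (32 * N * X) := by
        have h1 := mul_le_mul_of_nonneg_left hav0 (by positivity : (0 : ℝ) ≤ 8 * N)
        have := mul_le_mul_of_nonneg_left (a := C1) (b := 8 * N * ∑ h ∈ J, Ers (9 / 20) S h + 24 * N * X)
          (c := 32 * N * X) (by linarith) (by linarith)
        linarith
    _ ≤ 64 * N ^ 2 * er C A w + C1 * (32 * N * (C2 * (er C A w * N))) := by
        gcongr
    _ = (64 + 32 * C1 * C2) * (er C A w * N ^ 2) := by ring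
    _ ≤ _ := by
        apply mul_le_mul_of_nonneg_right _ (by positivity)
        have : (D : ℝ) ≤ C := by
          have : D ≤ C := by omega
          exact_mod_cast this
        linarith


/-- squares of norms of sums -/
theorem normSq_sum {ι : Type*} (s : Finset ι) (f : ι → ℂ) :
    ((‖∑ i ∈ s, f i‖ ^ 2 : ℝ) : ℂ) = ∑ i ∈ s, ∑ j ∈ s, f i * (starRingEnd ℂ) (f j) := by
  rw [← Complex.normSq_eq_norm_sq, Complex.normSq_eq_conj_mul_self, map_sum, mul_comm,
    Finset.sum_mul_sum]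

theorem dual_identity (I J : Finset ℤ) (E : ℤ → ℝ) (D : ℤ → ℂ) :
    ∑ a ∈ J, ∑ a' ∈ J, ‖∑ t ∈ I, (E t : ℂ) * (D (t + a) * (starRingEnd ℂ) (D (t + a')))‖ ^ 2 =
      ∑ t ∈ I, ∑ t' ∈ I, E t * E t' * ‖∑ a ∈ J, D (t + a) * (starRingEnd ℂ) (D (t' + a))‖ ^ 2 := by
  have h : ((∑ a ∈ J, ∑ a' ∈ J, ‖∑ t ∈ I, (E t : ℂ) * (D (t + a) *
      (starRingEnd ℂ) (D (t + a')))‖ ^ 2 : ℝ) : ℂ) = ((∑ t ∈ I, ∑ t' ∈ I, E t * E t' *
      ‖∑ a ∈ J, D (t + a) * (starRingEnd ℂ) (D (t' + a))‖ ^ 2 : ℝ) : ℂ) := by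
    rw [Complex.ofReal_sum]
    simp_rw [Complex.ofReal_sum, Complex.ofReal_mul, normSq_sum]
    -- LHS: sum a, a', t, t'
    have e1 : ∀ a a' t t' : ℤ, (E t : ℂ) * (D (t + a) * (starRingEnd ℂ) (D (t + a'))) *
        (starRingEnd ℂ) ((E t' : ℂ) * (D (t' + a) * (starRingEnd ℂ) (D (t' + a')))) =
        (E t : ℂ) * (E t' : ℂ) * ((D (t + a) * (starRingEnd ℂ) (D (t' + a))) *
        (starRingEnd ℂ) (D (t + a') * (starRingEnd ℂ) (D (t' + a')))) := by
      intro a a' t t'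
      simp only [map_mul, Complex.conj_ofReal, Complex.conj_conj]
      ring
    simp_rw [e1]
    rw [Finset.sum_congr rfl (fun a _ => Finset.sum_comm)]
    rw [Finset.sum_comm]
    apply Finset.sum_congr rfl
    intro t _
    rw [Finset.sum_congr rfl (fun a _ => Finset.sum_comm)]
    rw [Finset.sum_comm]
    apply Finset.sum_congr rfl
    intro t' _
    rw [Finset.mul_sum]
    apply Finset.sum_congr rfl
    intro a _
    rw [Finset.mul_sum]
  exact_mod_cast h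

theorem abstractE (I Y J : Finset ℤ) (E : ℤ → ℝ) (D g : ℤ → ℂ) (hg : ∀ y, ‖g y‖ ≤ 1)
    (hYJ : ∀ y ∈ Y, 2 * y ∈ J) :
    |∑ t ∈ I, E t * ‖∑ y ∈ Y, g y * D (t + 2 * y)‖ ^ 2| ≤ Y.card *
      Real.sqrt (∑ t ∈ I, ∑ t' ∈ I, E t * E t' *
        ‖∑ a ∈ J, D (t + a) * (starRingEnd ℂ) (D (t' + a))‖ ^ 2) := by
  set c : ℤ → ℤ → ℂ := fun a a' => ∑ t ∈ I, (E t : ℂ) * (D (t + a) * (starRingEnd ℂ) (D (t + a')))
    with hc
  have h1 : ((∑ t ∈ I, E t * ‖∑ y ∈ Y, g y * D (t + 2 * y)‖ ^ 2 : ℝ) : ℂ) =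
      ∑ y ∈ Y, ∑ y' ∈ Y, (g y * (starRingEnd ℂ) (g y')) * c (2 * y) (2 * y') := by
    rw [Complex.ofReal_sum]
    simp_rw [Complex.ofReal_mul, normSq_sum, hc, Finset.mul_sum]
    rw [Finset.sum_comm]
    apply Finset.sum_congr rfl
    intro y _
    rw [Finset.sum_comm]
    apply Finset.sum_congr rfl
    intro y' _
    apply Finset.sum_congr rfl
    intro t _
    rw [map_mul]
    ring
  have h2 : |∑ t ∈ I, E t * ‖∑ y ∈ Y, g y * D (t + 2 * y)‖ ^ 2| ≤
      ∑ y ∈ Y, ∑ y' ∈ Y, ‖c (2 * y) (2 * y')‖ := by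
    rw [← Real.norm_eq_abs, ← Complex.norm_real, h1]
    refine (norm_sum_le _ _).trans (Finset.sum_le_sum fun y _ => ?_)
    refine (norm_sum_le _ _).trans (Finset.sum_le_sum fun y' _ => ?_)
    rw [norm_mul, norm_mul, RCLike.norm_conj]
    calc ‖g y‖ * ‖g y'‖ * ‖c (2 * y) (2 * y')‖ ≤ 1 * 1 * ‖c (2 * y) (2 * y')‖ := by
          gcongr
          · exact hg y
          · exact hg y'
      _ = _ := by ring
  refine h2.trans ?_
  have hcard : ((Y.card : ℝ)) = Real.sqrt ((Y.card : ℝ) ^ 2) := (Real.sqrt_sq (Nat.cast_nonneg _)).symm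
  rw [hcard, ← Real.sqrt_mul (sq_nonneg _)]
  apply Real.le_sqrt_of_sq_le
  rw [← Finset.sum_product' (f := fun y y' => ‖c (2 * y) (2 * y')‖)]
  refine (sq_sum_le_card_mul_sum_sq).trans ?_
  rw [Finset.card_product]
  push_cast
  rw [← sq]
  apply mul_le_mul_of_nonneg_left _ (sq_nonneg _)
  rw [Finset.sum_product, ← dual_identity]
  have hinj : Set.InjOn (fun y : ℤ => 2 * y) Y := fun x _ y _ h => by
    simp only at h
    omega
  have e2 : ∀ F : ℤ → ℝ, (∀ a, 0 ≤ F a) → ∑ y ∈ Y, F (2 * y) ≤ ∑ a ∈ J, F a := by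
    intro F hF
    rw [← Finset.sum_image (f := F) (g := fun y : ℤ => 2 * y) hinj]
    apply Finset.sum_le_sum_of_subset_of_nonneg
    · intro a ha
      obtain ⟨y, hy, rfl⟩ := Finset.mem_image.mp ha
      exact hYJ y hy
    · intro a _ _
      exact hF a
  calc _ ≤ ∑ y ∈ Y, ∑ a' ∈ J, ‖c (2 * y) a'‖ ^ 2 :=
        Finset.sum_le_sum fun y _ => e2 (fun a' => ‖c (2 * y) a'‖ ^ 2) (fun _ => sq_nonneg _)
    _ ≤ _ := e2 (fun a => ∑ a' ∈ J, ‖c a a'‖ ^ 2) (fun _ => Finset.sum_nonneg fun _ _ => sq_nonneg _)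

/-- the double sum in terms of autocorrelations -/
theorem corr_sum (N : ℕ) (E : ℤ → ℝ) (D : ℤ → ℂ)
    (hE : ∀ t, t ∉ Finset.Ico (-(2 * N : ℤ)) (2 * N) → E t = 0)
    (hD : ∀ t, t ∉ Finset.Ico (-(2 * N : ℤ)) (2 * N) → D t = 0) :
    ∑ t ∈ Finset.Ico (-(2 * N : ℤ)) (2 * N), ∑ t' ∈ Finset.Ico (-(2 * N : ℤ)) (2 * N), E t * E t' *
        ‖∑ a ∈ Finset.Ico (-(4 * N : ℤ)) (4 * N), D (t + a) * (starRingEnd ℂ) (D (t' + a))‖ ^ 2 ≤
      ∑ j ∈ Finset.Ico (-(4 * N : ℤ)) (4 * N),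
        |∑ t ∈ Finset.Ico (-(2 * N : ℤ)) (2 * N), E t * E (t + j)| *
        (∑ s ∈ Finset.Ico (-(2 * N : ℤ)) (2 * N), ‖D s‖ * ‖D (s + j)‖) ^ 2 := by
  set I := Finset.Ico (-(2 * N : ℤ)) (2 * N) with hI
  set J := Finset.Ico (-(4 * N : ℤ)) (4 * N) with hJ
  set R : ℤ → ℂ := fun j => ∑ s ∈ I, D s * (starRingEnd ℂ) (D (s + j)) with hR
  have h1 : ∀ t ∈ I, ∀ t' ∈ I, ∑ a ∈ J, D (t + a) * (starRingEnd ℂ) (D (t' + a)) = R (t' - t) := by
    intro t ht t' ht'
    rw [hR]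
    simp only
    symm
    have h := sum_shift I J (fun a => D (t + a) * (starRingEnd ℂ) (D (t' + a))) (-t) ?_ ?_
    · rw [← h]
      apply Finset.sum_congr rfl
      intro s _
      rw [show t + (s + -t) = s by ring, show t' + (s + -t) = s + (t' - t) by ring]
    · intro s hs
      rw [hI, Finset.mem_Ico] at hs ht
      rw [hJ, Finset.mem_Ico]
      omega
    · intro a _ ha
      rw [hD (t + a), zero_mul]
      rw [sub_neg_eq_add, add_comm] at ha
      exact ha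
  have h2 : ∑ t ∈ I, ∑ t' ∈ I, E t * E t' *
        ‖∑ a ∈ J, D (t + a) * (starRingEnd ℂ) (D (t' + a))‖ ^ 2 =
      ∑ j ∈ J, (∑ t ∈ I, E t * E (t + j)) * ‖R j‖ ^ 2 := by
    simp_rw [Finset.sum_mul]
    rw [Finset.sum_comm (s := J)]
    apply Finset.sum_congr rfl
    intro t ht
    have h := sum_shift I J (fun j => E t * E (t + j) * ‖R j‖ ^ 2) (-t) ?_ ?_
    · rw [← h]
      apply Finset.sum_congr rfl
      intro t' ht'
      rw [h1 t ht t' ht']
      rw [show t + (t' + -t) = t' by ring, show t' + -t = t' - t by ring]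
    · intro s hs
      rw [hI, Finset.mem_Ico] at hs ht
      rw [hJ, Finset.mem_Ico]
      omega
    · intro a _ ha
      rw [hE (t + a), mul_zero, zero_mul]
      rw [sub_neg_eq_add, add_comm] at ha
      exact ha
  rw [h2]
  apply Finset.sum_le_sum
  intro j _
  apply mul_le_mul (le_abs_self _) _ (sq_nonneg _) (abs_nonneg _)
  apply pow_le_pow_left₀ (norm_nonneg _)
  refine (norm_sum_le _ _).trans (Finset.sum_le_sum fun s _ => ?_)
  rw [norm_mul, RCLike.norm_conj]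


theorem TId (N : ℕ) (f1 f2 G : ℤ → ℂ) (hf2 : SuppIn (-(2 * N)) (2 * N) f2)
    (hG : SuppIn (-N) N G) :
    ((∑ x ∈ Finset.Ico (-(3 * N : ℤ)) (3 * N),
      ‖∑ y ∈ Finset.Ico (-(N : ℤ)) N, G y * f1 (x + y) * f2 (x - y)‖ ^ 2 : ℝ) : ℂ) =
    ∑ h ∈ Finset.Ioo (-(4 * N : ℤ)) (4 * N), ∑ t ∈ Finset.Ico (-(2 * N : ℤ)) (2 * N),
      (f2 t * (starRingEnd ℂ) (f2 (t - h))) * ∑ y ∈ Finset.Ico (-(N : ℤ)) N,
        (G y * (starRingEnd ℂ) (G (y + h))) *
          (f1 (t + 2 * y) * (starRingEnd ℂ) (f1 (t + 2 * y + h))) := by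
  set Y := Finset.Ico (-(N : ℤ)) N with hY
  set I := Finset.Ico (-(2 * N : ℤ)) (2 * N) with hI
  set X := Finset.Ico (-(3 * N : ℤ)) (3 * N) with hX
  set H := Finset.Ioo (-(4 * N : ℤ)) (4 * N) with hH
  rw [Complex.ofReal_sum]
  simp_rw [normSq_sum]
  have h1 : ∀ x ∈ X, ∀ y ∈ Y, ∑ y' ∈ Y, G y * f1 (x + y) * f2 (x - y) *
      (starRingEnd ℂ) (G y' * f1 (x + y') * f2 (x - y')) =
      ∑ h ∈ H, G y * f1 (x + y) * f2 (x - y) *
      (starRingEnd ℂ) (G (y + h) * f1 (x + (y + h)) * f2 (x - (y + h))) := by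
    intro x _ y hy
    have h := sum_shift Y H (fun h => G y * f1 (x + y) * f2 (x - y) *
      (starRingEnd ℂ) (G (y + h) * f1 (x + (y + h)) * f2 (x - (y + h)))) (-y) ?_ ?_
    · rw [← h]
      apply Finset.sum_congr rfl
      intro y' _
      rw [show y + (y' + -y) = y' by ring]
    · intro y' hy'
      rw [hY, Finset.mem_Ico] at hy hy'
      rw [hH, Finset.mem_Ioo]
      omega
    · intro h _ hh
      have : G (y + h) = 0 := by
        apply hG
        rw [sub_neg_eq_add, add_comm] at hh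
        exact hh
      simp only [this, zero_mul, map_zero, mul_zero]
  rw [Finset.sum_congr rfl (fun x hx => Finset.sum_congr rfl (fun y hy => h1 x hx y hy))]
  rw [Finset.sum_congr rfl (fun x _ => Finset.sum_comm)]
  rw [Finset.sum_comm]
  apply Finset.sum_congr rfl
  intro h _
  simp_rw [Finset.mul_sum]
  rw [Finset.sum_comm, Finset.sum_comm (s := I)]
  apply Finset.sum_congr rfl
  intro y hy
  have h2 := sum_shift I X (fun x => G y * f1 (x + y) * f2 (x - y) *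
      (starRingEnd ℂ) (G (y + h) * f1 (x + (y + h)) * f2 (x - (y + h)))) y ?_ ?_
  · rw [← h2]
    apply Finset.sum_congr rfl
    intro t _
    rw [show t + y + y = t + 2 * y by ring, show t + y - y = t by ring,
      show t + y + (y + h) = t + 2 * y + h by ring, show t + y - (y + h) = t - h by ring]
    simp only [map_mul]
    ring
  · intro t ht
    rw [hY, Finset.mem_Ico] at hy
    rw [hI, Finset.mem_Ico] at ht
    rw [hX, Finset.mem_Ico]
    omega
  · intro x _ hx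
    have : f2 (x - y) = 0 := hf2 _ hx
    simp only [this, zero_mul, mul_zero]

theorem Kpars (N : ℕ) (g D : ℤ → ℂ) (m : ℝ) (hg : ∀ y, ‖g y‖ ≤ 1)
    (hD : ∀ t, t ∉ Finset.Ico (-(2 * N : ℤ)) (2 * N) → D t = 0)
    (hm : ∀ θ : ℝ, ‖∑ n ∈ Finset.Ico (-(2 * N : ℤ)) (2 * N), D n * e (θ * n)‖ ≤ m) :
    ∑ t ∈ Finset.Ico (-(2 * N : ℤ)) (2 * N),
      ‖∑ y ∈ Finset.Ico (-(N : ℤ)) N, g y * D (t + 2 * y)‖ ^ 2 ≤ m ^ 2 * (2 * N) := by
  set Y := Finset.Ico (-(N : ℤ)) N with hY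
  set I := Finset.Ico (-(2 * N : ℤ)) (2 * N) with hI
  set P : ℤ → ℂ := fun s => if 2 * (s / 2) = s ∧ s / 2 ∈ Y then g (s / 2) else 0 with hP
  have hP2 : ∀ y ∈ Y, P (2 * y) = g y := by
    intro y hy
    rw [hP]
    simp only
    rw [if_pos]
    · congr 1
      omega
    · constructor
      · omega
      · rw [show 2 * y / 2 = y by omega]
        exact hy
  have hPn : ∀ s, P s ≠ 0 → ∃ y ∈ Y, s = 2 * y := by
    intro s hs
    rw [hP] at hs
    simp only at hs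
    split_ifs at hs with h
    · exact ⟨s / 2, h.2, h.1.symm⟩
    · exact absurd rfl hs
  have h := pars (4 * N + 1) P D ?_ ?_ m ?_
  · set L := Finset.Ioo (-((4 * N + 1 : ℕ) : ℤ)) ((4 * N + 1 : ℕ) : ℤ) with hL
    have hK : ∀ t ∈ I, ∑ y ∈ Y, g y * D (t + 2 * y) = ∑ s ∈ L, P (s + -t) * D s := by
      intro t ht
      apply Finset.sum_of_injOn (fun y => t + 2 * y)
      · intro x _ y _ h
        simp only at h
        omega
      · intro y hy
        simp only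
        rw [Finset.mem_coe] at hy ⊢
        rw [hY, Finset.mem_Ico] at hy
        rw [hI, Finset.mem_Ico] at ht
        rw [hL, Finset.mem_Ioo]
        push_cast
        omega
      · intro s _ hs
        by_contra hne
        have : P (s + -t) ≠ 0 := fun h => hne (by rw [h, zero_mul])
        obtain ⟨y, hy, hy'⟩ := hPn _ this
        exact hs ⟨y, hy, by simp only; omega⟩
      · intro y hy
        rw [show t + 2 * y + -t = 2 * y by ring, hP2 y hy]
    have h1 : ∑ t ∈ I, ‖∑ y ∈ Y, g y * D (t + 2 * y)‖ ^ 2 ≤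
        ∑ t ∈ Finset.Ioo (-(2 * ((4 * N + 1 : ℕ) : ℤ))) (2 * ((4 * N + 1 : ℕ) : ℤ)),
          ‖∑ s ∈ L, P (s + t) * D s‖ ^ 2 := by
      rw [Finset.sum_congr rfl (fun t ht => by rw [hK t ht])]
      rw [← Finset.sum_image (s := I) (g := fun t : ℤ => -t)
        (f := fun t => ‖∑ s ∈ L, P (s + t) * D s‖ ^ 2)]
      · apply Finset.sum_le_sum_of_subset_of_nonneg
        · intro a ha
          obtain ⟨t, ht, rfl⟩ := Finset.mem_image.mp ha
          rw [hI, Finset.mem_Ico] at ht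
          rw [Finset.mem_Ioo]
          push_cast
          omega
        · intro _ _ _
          exact sq_nonneg _
      · intro x _ y _ h
        simpa using h
    refine h1.trans (h.trans ?_)
    apply mul_le_mul_of_nonneg_left _ (sq_nonneg _)
    calc ∑ s ∈ L, ‖P s‖ ^ 2 ≤ ∑ s ∈ Y.image (fun y => 2 * y), ‖P s‖ ^ 2 := by
          rw [← Finset.sum_subset (s₁ := L ∩ Y.image (fun y => 2 * y)) Finset.inter_subset_left]
          · exact Finset.sum_le_sum_of_subset_of_nonneg Finset.inter_subset_right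
              (fun _ _ _ => sq_nonneg _)
          · intro s hs hs'
            by_contra hne
            have : P s ≠ 0 := fun h => hne (by rw [h]; simp)
            obtain ⟨y, hy, hy'⟩ := hPn _ this
            exact hs' (Finset.mem_inter.mpr ⟨hs, Finset.mem_image.mpr ⟨y, hy, hy'.symm⟩⟩)
      _ = ∑ y ∈ Y, ‖P (2 * y)‖ ^ 2 := by
          rw [Finset.sum_image]
          intro x _ y _ h
          simp only at h
          omega
      _ ≤ ∑ y ∈ Y, (1 : ℝ) := by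
          apply Finset.sum_le_sum
          intro y hy
          rw [hP2 y hy]
          exact pow_le_one₀ (norm_nonneg _) (hg y)
      _ = 2 * N := by
          rw [Finset.sum_const, hY, Int.card_Ico, nsmul_eq_mul]
          have : ((N : ℤ) - -(N : ℤ)).toNat = 2 * N := by omega
          rw [this]
          push_cast
          ring
  · intro n hn
    by_contra hne
    obtain ⟨y, hy, hy'⟩ := hPn _ hne
    rw [hY, Finset.mem_Ico] at hy
    apply hn
    rw [Finset.mem_Ioo]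
    push_cast
    omega
  · intro n hn
    apply hD
    intro h
    apply hn
    rw [hI, Finset.mem_Ico] at h
    rw [Finset.mem_Ioo]
    push_cast
    omega
  · intro θ
    have : ∑ s ∈ Finset.Ioo (-((4 * N + 1 : ℕ) : ℤ)) ((4 * N + 1 : ℕ) : ℤ), D s * e (θ * s) =
        ∑ n ∈ I, D n * e (θ * n) := by
      symm
      apply Finset.sum_subset
      · intro n hn
        rw [hI, Finset.mem_Ico] at hn
        rw [Finset.mem_Ioo]
        push_cast
        omega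
      · intro n _ hn
        rw [hD n hn, zero_mul]
    rw [this]
    exact hm θ


theorem rho_avg : ∃ C : ℕ, 1 ≤ C ∧ ∀ (A w z W N : ℕ) (S : Finset ℕ), C ≤ A → C ≤ w → 2 ≤ z →
    PSet w z S → IsW w W → z ^ (2 * A + 4) ≤ N → ∀ (r : ℤ),
    ∑ x ∈ Finset.Ico (-(2 * N : ℤ)) (2 * N), (1 + rho S (r + W * x)) ≤ C * N := by
  obtain ⟨C, hC, H⟩ := corr0 1
  refine ⟨100 * C, by omega, ?_⟩
  intro A w z W N S hA hw hz hS hW hN r
  have h1 := H A w z S (by omega) (by omega) hz hS (fun _ => (W : ℤ)) (fun _ => r)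
    (fun p hp _ => hW.not_dvd hS p hp) (-(2 * N : ℤ)) (2 * N) (by omega)
  have h2 : ∑ i : Fin 1, ∑ j ∈ Finset.univ.filter (fun j : Fin 1 => i ≠ j), Ers (9 / 10) S
      (disc (fun _ => (W : ℤ)) (fun _ => r) i j) = 0 := by
    apply Finset.sum_eq_zero
    intro i _
    apply Finset.sum_eq_zero
    intro j hj
    exact absurd (Subsingleton.elim i j) (Finset.mem_filter.mp hj).2
  rw [h2] at h1
  simp only [Finset.univ_unique, Finset.prod_singleton, mul_zero, add_zero] at h1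
  have h3 := (abs_le.mp h1).2
  have h4 := pow_le_er (A := A) (w := w) (N := N) hC hz hN
  have h5 : er C A w ≤ 2 := er_le_two (by omega)
  have h8 : (0 : ℝ) ≤ N := Nat.cast_nonneg _
  have h9 : (1 : ℝ) ≤ C := by exact_mod_cast hC
  have hz1 : (1 : ℝ) ≤ z := by
    have : (2 : ℝ) ≤ z := by exact_mod_cast hz
    linarith
  have h6 : (z : ℝ) ^ (A + 1) ≤ (z : ℝ) ^ (A + 4) := pow_le_pow_right₀ hz1 (by omega)
  have h7 : (C : ℝ) * (z : ℝ) ^ (A + 1) ≤ C * (2 * N) := by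
    apply mul_le_mul_of_nonneg_left _ (by linarith)
    refine h6.trans (h4.trans ?_)
    exact mul_le_mul_of_nonneg_right h5 h8
  rw [Finset.sum_add_distrib, Finset.sum_const, Int.card_Ico, nsmul_eq_mul]
  have hc : (((2 * N : ℤ) - -(2 * N : ℤ)).toNat : ℝ) = 4 * N := by
    have : ((2 * N : ℤ) - -(2 * N : ℤ)).toNat = 4 * N := by omega
    rw [this]
    push_cast
    ring
  rw [hc]
  have h10 : ∑ x ∈ Finset.Ico (-(2 * N : ℤ)) (2 * N), rho S (r + W * x) =
      ∑ x ∈ Finset.Ico (-(2 * N : ℤ)) (2 * N), rho S (W * x + r) := by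
    apply Finset.sum_congr rfl
    intro x _
    rw [add_comm]
  rw [h10]
  push_cast at h3 ⊢
  have h11 : (4 : ℝ) * N * (C * er C A w) ≤ 4 * N * (C * 2) := by gcongr
  have h12 : (N : ℝ) ≤ C * N := by nlinarith
  linarith

/-- the error term for one `h` -/
theorem err_h (C1 C2 : ℕ) (W N : ℕ) (S : Finset ℕ) (hS : ∀ p ∈ S, p.Prime) (r1 h : ℤ)
    (κ : ℝ)
    (f1 G : ℤ → ℂ) (hM : Maj κ S W r1 f1) (hf1 : SuppIn (-(2 * N)) (2 * N) f1)
    (hGb : ∀ y, ‖G y‖ ≤ 1) (e0 : ℝ) (E : ℤ → ℝ)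
    (hE0 : ∀ t, t ∉ Finset.Ico (-(2 * N : ℤ)) (2 * N) → E t = 0)
    (hD : ∀ j : ℤ, ∑ x ∈ Finset.Ico (-(2 * N : ℤ)) (2 * N), (1 + rho S (r1 + W * x)) *
      (1 + rho S (r1 + W * (x + h))) * (1 + rho S (r1 + W * (x + j))) *
      (1 + rho S (r1 + W * (x + (j + h)))) ≤ C1 * N * (1 + qq S h j))
    (hE : ∀ j : ℤ, |∑ t ∈ Finset.Ico (-(2 * N : ℤ)) (2 * N), E t *
      E (t + j)| ≤ C2 * N * (e0 + qq S h j)) :
    |∑ t ∈ Finset.Ico (-(2 * N : ℤ)) (2 * N), E t *
      ‖∑ y ∈ Finset.Ico (-(N : ℤ)) N, (G y * (starRingEnd ℂ) (G (y + h))) *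
          (f1 (t + 2 * y) * (starRingEnd ℂ) (f1 (t + 2 * y + h)))‖ ^ 2| ≤
      2 * N * (κ ^ 4 * Real.sqrt ((C1 ^ 2 * C2 : ℝ) * N ^ 3 *
        ∑ j ∈ Finset.Ico (-(4 * N : ℤ)) (4 * N), (1 + qq S h j) ^ 2 * (e0 + qq S h j))) := by
  have h8 : (0 : ℝ) ≤ N := Nat.cast_nonneg _
  have hrho : ∀ r n : ℤ, 0 ≤ rho S (r + W * n) := fun r n => rho_nonneg hS _
  have hDD : ∀ j : ℤ, ∑ s ∈ Finset.Ico (-(2 * N : ℤ)) (2 * N),
      ‖f1 s * (starRingEnd ℂ) (f1 (s + h))‖ *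
      ‖f1 (s + j) * (starRingEnd ℂ) (f1 (s + j + h))‖ ≤ κ ^ 4 * (C1 * N * (1 + qq S h j)) := by
    intro j
    refine le_trans ?_ (mul_le_mul_of_nonneg_left (hD j) (by positivity))
    rw [Finset.mul_sum]
    apply Finset.sum_le_sum
    intro s _
    rw [norm_mul, norm_mul, RCLike.norm_conj, RCLike.norm_conj]
    have m1 := hM s
    have m2 := hM (s + h)
    have m3 := hM (s + j)
    have m4 := hM (s + j + h)
    have r1' := hrho r1 s
    have r2' := hrho r1 (s + h)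
    have r3' := hrho r1 (s + j)
    have r4' := hrho r1 (s + j + h)
    rw [show s + (j + h) = s + j + h by ring]
    calc ‖f1 s‖ * ‖f1 (s + h)‖ * (‖f1 (s + j)‖ * ‖f1 (s + j + h)‖)
        ≤ (κ * (1 + rho S (r1 + W * s))) * (κ * (1 + rho S (r1 + W * (s + h)))) *
          ((κ * (1 + rho S (r1 + W * (s + j)))) * (κ * (1 + rho S (r1 + W * (s + j + h))))) := by
          exact mul_le_mul (mul_le_mul m1 m2 (norm_nonneg _) ((norm_nonneg _).trans m1))
            (mul_le_mul m3 m4 (norm_nonneg _) ((norm_nonneg _).trans m3))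
            (mul_nonneg (norm_nonneg _) (norm_nonneg _))
            (mul_nonneg ((norm_nonneg _).trans m1) ((norm_nonneg _).trans m2))
      _ = κ ^ 4 * ((1 + rho S (r1 + W * s)) * (1 + rho S (r1 + W * (s + h))) *
          (1 + rho S (r1 + W * (s + j))) * (1 + rho S (r1 + W * (s + j + h)))) := by
          ring
  have habs := abstractE (Finset.Ico (-(2 * N : ℤ)) (2 * N)) (Finset.Ico (-(N : ℤ)) N)
    (Finset.Ico (-(4 * N : ℤ)) (4 * N)) E
    (fun s => f1 s * (starRingEnd ℂ) (f1 (s + h))) (fun y => G y * (starRingEnd ℂ) (G (y + h)))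
    (by
      intro y
      rw [norm_mul, RCLike.norm_conj]
      exact mul_le_one₀ (hGb y) (norm_nonneg _) (hGb _))
    (by
      intro y hy
      rw [Finset.mem_Ico] at hy ⊢
      omega)
  have hcs := corr_sum N E (fun s => f1 s * (starRingEnd ℂ) (f1 (s + h))) hE0
    (by
      intro t ht
      rw [hf1 t ht, zero_mul])
  have hcard : ((Finset.Ico (-(N : ℤ)) N).card : ℝ) = 2 * N := by
    rw [Int.card_Ico]
    have : ((N : ℤ) - -(N : ℤ)).toNat = 2 * N := by omega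
    rw [this]
    push_cast
    ring
  rw [hcard] at habs
  refine habs.trans ?_
  apply mul_le_mul_of_nonneg_left _ (by positivity)
  have hκ4 : κ ^ 4 = Real.sqrt (κ ^ 8) := by
    rw [show κ ^ 8 = (κ ^ 4) ^ 2 by ring, Real.sqrt_sq (by positivity)]
  rw [hκ4, ← Real.sqrt_mul (by positivity)]
  apply Real.sqrt_le_sqrt
  refine hcs.trans ?_
  rw [Finset.mul_sum, Finset.mul_sum]
  apply Finset.sum_le_sum
  intro j _
  have hEj := hE j
  have h0 : 0 ≤ ∑ s ∈ Finset.Ico (-(2 * N : ℤ)) (2 * N), ‖f1 s * (starRingEnd ℂ) (f1 (s + h))‖ *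
      ‖f1 (s + j) * (starRingEnd ℂ) (f1 (s + j + h))‖ :=
    Finset.sum_nonneg fun _ _ => mul_nonneg (norm_nonneg _) (norm_nonneg _)
  have hb : 0 ≤ C2 * N * (e0 + qq S h j) := (abs_nonneg _).trans hEj
  have hsq := pow_le_pow_left₀ h0 (hDD j) 2
  refine (mul_le_mul hEj hsq (sq_nonneg _) hb).trans (le_of_eq ?_)
  ring


theorem first_factor (C N W : ℕ) (S : Finset ℕ) (hS : ∀ p ∈ S, p.Prime) (r : ℤ)
    (hC : ∑ x ∈ Finset.Ico (-(2 * N : ℤ)) (2 * N), (1 + rho S (r + W * x)) ≤ C * N) :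
    ∑ h ∈ Finset.Ioo (-(4 * N : ℤ)) (4 * N), ∑ t ∈ Finset.Ico (-(2 * N : ℤ)) (2 * N),
      (if t - h ∈ Finset.Ico (-(2 * N : ℤ)) (2 * N) then
        (1 + rho S (r + W * t)) * (1 + rho S (r + W * (t - h))) else 0) ≤ (C * N) ^ 2 := by
  set I := Finset.Ico (-(2 * N : ℤ)) (2 * N) with hI
  have hnn : ∀ n : ℤ, 0 ≤ 1 + rho S (r + W * n) := fun n => by
    have := rho_nonneg hS (r + W * n)
    linarith
  rw [Finset.sum_comm, sq]
  calc _ ≤ ∑ t ∈ I, (1 + rho S (r + W * t)) * ∑ x ∈ I, (1 + rho S (r + W * x)) := by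
        apply Finset.sum_le_sum
        intro t _
        rw [← Finset.sum_filter, Finset.mul_sum]
        rw [← Finset.sum_image (s := (Finset.Ioo (-(4 * N : ℤ)) (4 * N)).filter
          (fun h => t - h ∈ I)) (g := fun h => t - h)
          (f := fun x => (1 + rho S (r + W * t)) * (1 + rho S (r + W * x)))]
        · apply Finset.sum_le_sum_of_subset_of_nonneg
          · intro a ha
            obtain ⟨h, hh, rfl⟩ := Finset.mem_image.mp ha
            exact (Finset.mem_filter.mp hh).2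
          · intro a _ _
            exact mul_nonneg (hnn t) (hnn a)
        · intro x _ y _ h
          simp only at h
          omega
    _ = (∑ x ∈ I, (1 + rho S (r + W * x))) * ∑ x ∈ I, (1 + rho S (r + W * x)) := by
        rw [Finset.sum_mul]
    _ ≤ _ := by
        have h0 : 0 ≤ ∑ x ∈ I, (1 + rho S (r + W * x)) := Finset.sum_nonneg fun x _ => hnn x
        exact mul_le_mul hC hC h0 (h0.trans hC)

end TU2

open TU2 in
/-- Chunk TU2. Let `Γ(x) = ∑_y G(y) f1(x+y) f2(x-y)`, `T = ∑_x |Γ(x)|^2`. Expanding, with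
`s = x+y`, `t = x-y` and `P_h(2y) = G(y) conj G(y+h)` (zero at odd integers),
`T = ∑_h ∑_{s,t} P_h(s-t) D_h(s) D'_h(t)`, `D_h(s) = f1(s) conj f1(s+h)`,
`D'_h(t) = f2(t) conj f2(t-h)`. Let `K_h(t) = ∑_s P_h(s-t) D_h(s)`,
`ν_h(t) = κ^2 (1+ρ(t)) (1+ρ(t-h))` (`ρ(t) = rho S (r2 + W t)`, on the support). Cauchy-Schwarz:
`T^2 ≤ (∑_{h,t} ν_h(t)) (∑_{h,t} ν_h(t) |K_h(t)|^2)`; the first factor is `≤ C κ^2 N^2`; in the
second write `ν_h = 4 κ^2 + κ^2 E_h`; `∑_t |K_h(t)|^2 ≤ m(h)^2 * 2N` (`pars`), and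
`|∑_t E_h(t) |K_h(t)|^2| ≤ 2N (∑_{t,t'} E_h(t) E_h(t') |∑_m D_h(m+t) conj D_h(m+t')|^2)^{1/2}`
(expand `|K_h|^2`, use `|P_h| ≤ 1` and Cauchy-Schwarz over the two arguments of `P_h`, extended to
all integers) `= 2N (∑_j R_{E_h}(j) |R_{D_h}(j)|^2)^{1/2}`, with
`|R_{D_h}(j)| ≤ κ^4 N (C + E(h,j))`, `|R_{E_h}(j)| ≤ N E(h,j)` by `corr0` with 4 forms
(shifts `0, h, j, j+h`). -/
theorem tu2 : ∃ C : ℕ, 1 ≤ C ∧ ∀ (A w z W N : ℕ) (S : Finset ℕ), C ≤ A → C ≤ w → 2 ≤ z →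
    PSet w z S → IsW w W → z ^ (C * A) ≤ N → ∀ (r1 r2 : ℤ) (κ : ℝ) (f1 f2 G : ℤ → ℂ), 1 ≤ κ →
    Maj κ S W r1 f1 → SuppIn (-(2 * N)) (2 * N) f1 → Maj κ S W r2 f2 →
    SuppIn (-(2 * N)) (2 * N) f2 → (∀ y, ‖G y‖ ≤ 1) → SuppIn (-N) N G →
    ∀ m : ℤ → ℝ,
    (∀ (h : ℤ) (θ : ℝ), ‖∑ n ∈ Finset.Ico (-(2 * N : ℤ)) (2 * N),
      f1 n * (starRingEnd ℂ) (f1 (n + h)) * e (θ * n)‖ ≤ m h) →
    (∑ x ∈ Finset.Ico (-(3 * N : ℤ)) (3 * N),
      ‖∑ y ∈ Finset.Ico (-(N : ℤ)) N, G y * f1 (x + y) * f2 (x - y)‖ ^ 2) ^ 2 ≤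
      C * κ ^ 4 * N ^ 3 * ∑ h ∈ Finset.Ioo (-(4 * N : ℤ)) (4 * N), m h ^ 2 +
        C * κ ^ 8 * er C A w * N ^ 6 := by
  obtain ⟨C1, hC1, H1⟩ := corrD
  obtain ⟨C2, hC2, H2⟩ := corrE
  obtain ⟨C3, hC3, H3⟩ := avg C2 hC2
  obtain ⟨C4, hC4, H4⟩ := rho_avg
  obtain ⟨D, hD⟩ := exists_nat_ge (Real.sqrt (8 * ((C1 ^ 2 * C2 : ℝ) * C3)))
  refine ⟨C1 + C2 + 2 * C3 + C4 + 6 + 8 * C4 ^ 2 + 2 * C4 ^ 2 * D, by omega, ?_⟩
  set C := C1 + C2 + 2 * C3 + C4 + 6 + 8 * C4 ^ 2 + 2 * C4 ^ 2 * D with hCdef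
  intro A w z W N S hA hw hz hS hW hN r1 r2 κ f1 f2 G hκ hM1 hf1 hM2 hf2 hGb hG m hm
  have hw1 : 1 ≤ w := by omega
  have hN4 : z ^ (2 * A + 4) ≤ N := by
    refine le_trans (Nat.pow_le_pow_right (by omega) ?_) hN
    have : 6 * A ≤ C * A := Nat.mul_le_mul_right _ (by omega)
    omega
  have hN0 : (0 : ℝ) ≤ N := Nat.cast_nonneg _
  have hκ0 : (0 : ℝ) ≤ κ := by linarith
  set Y := Finset.Ico (-(N : ℤ)) N with hY
  set I := Finset.Ico (-(2 * N : ℤ)) (2 * N) with hI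
  set J := Finset.Ico (-(4 * N : ℤ)) (4 * N) with hJ
  set H := Finset.Ioo (-(4 * N : ℤ)) (4 * N) with hH
  set T : ℝ := ∑ x ∈ Finset.Ico (-(3 * N : ℤ)) (3 * N),
      ‖∑ y ∈ Y, G y * f1 (x + y) * f2 (x - y)‖ ^ 2 with hT
  set K : ℤ → ℤ → ℂ := fun h t => ∑ y ∈ Y, (G y * (starRingEnd ℂ) (G (y + h))) *
          (f1 (t + 2 * y) * (starRingEnd ℂ) (f1 (t + 2 * y + h))) with hK
  set ν : ℤ → ℤ → ℝ := fun h t => if t - h ∈ I then
        (1 + rho S (r2 + W * t)) * (1 + rho S (r2 + W * (t - h))) else 0 with hν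
  have hrho : ∀ r n : ℤ, 0 ≤ rho S (r + W * n) := fun r n => rho_nonneg hS.prime _
  have hν0 : ∀ h t, 0 ≤ ν h t := by
    intro h t
    simp only [hν]
    have := hrho r2 t
    have := hrho r2 (t - h)
    split_ifs <;> positivity
  have hT0 : 0 ≤ T := Finset.sum_nonneg fun _ _ => sq_nonneg _
  -- step 1
  have step1 : T ≤ κ ^ 2 * ∑ h ∈ H, ∑ t ∈ I, ν h t * ‖K h t‖ := by
    have h1 := TId N f1 f2 G hf2 hG
    have h2 : T = ‖((T : ℝ) : ℂ)‖ := by
      rw [Complex.norm_real, Real.norm_eq_abs, abs_of_nonneg hT0]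
    rw [h2, hT, h1, Finset.mul_sum]
    refine (norm_sum_le _ _).trans (Finset.sum_le_sum fun h _ => ?_)
    rw [Finset.mul_sum]
    refine (norm_sum_le _ _).trans (Finset.sum_le_sum fun t _ => ?_)
    rw [norm_mul, ← mul_assoc]
    apply mul_le_mul_of_nonneg_right _ (norm_nonneg _)
    rw [norm_mul, RCLike.norm_conj]
    by_cases hth : t - h ∈ I
    · simp only [hν]
      rw [if_pos hth]
      calc ‖f2 t‖ * ‖f2 (t - h)‖ ≤ (κ * (1 + rho S (r2 + W * t))) *
            (κ * (1 + rho S (r2 + W * (t - h)))) :=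
            mul_le_mul (hM2 t) (hM2 (t - h)) (norm_nonneg _) ((norm_nonneg _).trans (hM2 t))
        _ = _ := by ring
    · rw [hf2 _ hth, norm_zero, mul_zero]
      exact mul_nonneg (sq_nonneg _) (hν0 _ _)
  -- step 2 : Cauchy-Schwarz
  have step2 : (∑ h ∈ H, ∑ t ∈ I, ν h t * ‖K h t‖) ^ 2 ≤
      (∑ h ∈ H, ∑ t ∈ I, ν h t) * ∑ h ∈ H, ∑ t ∈ I, ν h t * ‖K h t‖ ^ 2 := by
    rw [← Finset.sum_product' (f := fun h t => ν h t * ‖K h t‖),
      ← Finset.sum_product' (f := fun h t => ν h t),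
      ← Finset.sum_product' (f := fun h t => ν h t * ‖K h t‖ ^ 2)]
    apply Finset.sum_sq_le_sum_mul_sum_of_sq_le_mul
    · intro i _
      exact hν0 _ _
    · intro i _
      exact mul_nonneg (hν0 _ _) (sq_nonneg _)
    · intro i _
      exact le_of_eq (by ring)
  have hff : ∑ h ∈ H, ∑ t ∈ I, ν h t ≤ (C4 * N) ^ 2 :=
    first_factor C4 N W S hS.prime r2 (H4 A w z W N S (by omega) (by omega) hz hS hW hN4 r2)
  -- step 3 : the second factor
  set Z : ℤ → ℝ := fun h => ∑ j ∈ J, (1 + qq S h j) ^ 2 * (er C2 A w + qq S h j) with hZ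
  have step3 : ∀ h ∈ H, ∑ t ∈ I, ν h t * ‖K h t‖ ^ 2 ≤ 8 * N * m h ^ 2 +
      2 * N * (κ ^ 4 * Real.sqrt ((C1 ^ 2 * C2 : ℝ) * N ^ 3 * Z h)) := by
    intro h _
    have hsplit : ∑ t ∈ I, ν h t * ‖K h t‖ ^ 2 ≤ 4 * ∑ t ∈ I, ‖K h t‖ ^ 2 +
        |∑ t ∈ I, EH S W N r2 h t * ‖K h t‖ ^ 2| := by
      have : ∑ t ∈ I, ν h t * ‖K h t‖ ^ 2 ≤ ∑ t ∈ I, (4 * ‖K h t‖ ^ 2 +
          EH S W N r2 h t * ‖K h t‖ ^ 2) := by
        apply Finset.sum_le_sum
        intro t ht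
        rw [← add_mul]
        apply mul_le_mul_of_nonneg_right _ (sq_nonneg _)
        rw [hI, Finset.mem_Ico] at ht
        simp only [hν]
        unfold EH
        by_cases hth : t - h ∈ I
        · have hth' := hth
          rw [hI, Finset.mem_Ico] at hth'
          rw [if_pos hth, if_pos ⟨ht, hth'⟩]
          linarith
        · have hth' := hth
          rw [hI, Finset.mem_Ico] at hth'
          rw [if_neg hth, if_neg (fun h => hth' h.2)]
          norm_num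
      rw [Finset.sum_add_distrib, ← Finset.mul_sum] at this
      exact this.trans (by gcongr; exact le_abs_self _)
    have hp := Kpars N (fun y => G y * (starRingEnd ℂ) (G (y + h)))
      (fun s => f1 s * (starRingEnd ℂ) (f1 (s + h))) (m h)
      (by
        intro y
        rw [norm_mul, RCLike.norm_conj]
        exact mul_le_one₀ (hGb y) (norm_nonneg _) (hGb _))
      (by
        intro t ht
        rw [hf1 t ht, zero_mul])
      (fun θ => hm h θ)
    have he := err_h C1 C2 W N S hS.prime r1 h κ f1 G hM1 hf1 hGb (er C2 A w)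
      (fun t => EH S W N r2 h t)
      (by
        intro t ht
        rw [Finset.mem_Ico] at ht
        unfold EH
        rw [if_neg (fun h => ht h.1)])
      (fun j => H1 A w z W N S (by omega) (by omega) hz hS hW hN4 r1 h j)
      (fun j => H2 A w z W N S (by omega) (by omega) hz hS hW hN4 r2 h j)
    refine hsplit.trans ?_
    have hp' : ∑ t ∈ I, ‖K h t‖ ^ 2 ≤ m h ^ 2 * (2 * N) := hp
    have he' : |∑ t ∈ I, EH S W N r2 h t * ‖K h t‖ ^ 2| ≤
        2 * N * (κ ^ 4 * Real.sqrt ((C1 ^ 2 * C2 : ℝ) * N ^ 3 * Z h)) := he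
    linarith
  have hZ0 : ∀ h, 0 ≤ Z h := by
    intro h
    apply Finset.sum_nonneg
    intro j _
    have := qq_nonneg S h j
    have := er_nonneg C2 A w
    positivity
  -- step 4 : sum over h of the square roots
  have step4 : ∑ h ∈ H, Real.sqrt ((C1 ^ 2 * C2 : ℝ) * N ^ 3 * Z h) ≤
      D * (er (2 * C3) A w * N ^ 3) := by
    have hcard : (H.card : ℝ) ≤ 8 * N := by
      rw [hH, Int.card_Ioo]
      have : ((4 * N : ℤ) - -(4 * N : ℤ) - 1).toNat ≤ 8 * N := by omega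
      exact_mod_cast this
    have h1 : (∑ h ∈ H, Real.sqrt ((C1 ^ 2 * C2 : ℝ) * N ^ 3 * Z h)) ^ 2 ≤
        8 * ((C1 ^ 2 * C2 : ℝ) * C3) * (er C3 A w * N ^ 6) := by
      refine (sq_sum_le_card_mul_sum_sq).trans ?_
      have e1 : ∑ h ∈ H, Real.sqrt ((C1 ^ 2 * C2 : ℝ) * N ^ 3 * Z h) ^ 2 =
          (C1 ^ 2 * C2 : ℝ) * N ^ 3 * ∑ h ∈ H, Z h := by
        rw [Finset.mul_sum]
        apply Finset.sum_congr rfl
        intro h _
        rw [Real.sq_sqrt]
        have := hZ0 h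
        positivity
      rw [e1]
      have e2 : ∑ h ∈ H, Z h ≤ C3 * (er C3 A w * N ^ 2) := by
        refine le_trans ?_ (H3 A w z N S (by omega) (by omega) hz hS hN4)
        apply Finset.sum_le_sum_of_subset_of_nonneg
        · intro h hh
          rw [hH, Finset.mem_Ioo] at hh
          rw [Finset.mem_Ico]
          omega
        · intro h _ _
          exact hZ0 h
      have e3 : 0 ≤ ∑ h ∈ H, Z h := Finset.sum_nonneg fun h _ => hZ0 h
      calc (H.card : ℝ) * ((C1 ^ 2 * C2 : ℝ) * N ^ 3 * ∑ h ∈ H, Z h)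
          ≤ (8 * N) * ((C1 ^ 2 * C2 : ℝ) * N ^ 3 * (C3 * (er C3 A w * N ^ 2))) := by
            gcongr
        _ = _ := by ring
    have h2 : ∑ h ∈ H, Real.sqrt ((C1 ^ 2 * C2 : ℝ) * N ^ 3 * Z h) ≤
        Real.sqrt (8 * ((C1 ^ 2 * C2 : ℝ) * C3) * (er C3 A w * N ^ 6)) :=
      Real.le_sqrt_of_sq_le h1
    refine h2.trans ?_
    have h3 : Real.sqrt (8 * ((C1 ^ 2 * C2 : ℝ) * C3) * (er C3 A w * N ^ 6)) =
        Real.sqrt (8 * ((C1 ^ 2 * C2 : ℝ) * C3)) * (Real.sqrt (er C3 A w) * N ^ 3) := by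
      rw [Real.sqrt_mul (by positivity), Real.sqrt_mul (er_nonneg _ _ _),
        show (N : ℝ) ^ 6 = (N ^ 3) ^ 2 by ring, Real.sqrt_sq (by positivity)]
    rw [h3]
    have h4 := sqrt_er_le (C := C3) (A := A) (w := w) (by omega) hw1
    gcongr
  -- assembly
  have hB : ∑ h ∈ H, ∑ t ∈ I, ν h t * ‖K h t‖ ^ 2 ≤
      8 * N * ∑ h ∈ H, m h ^ 2 + 2 * N * (κ ^ 4 * (D * (er (2 * C3) A w * N ^ 3))) := by
    calc _ ≤ ∑ h ∈ H, (8 * N * m h ^ 2 +
          2 * N * (κ ^ 4 * Real.sqrt ((C1 ^ 2 * C2 : ℝ) * N ^ 3 * Z h))) := Finset.sum_le_sum step3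
      _ = 8 * N * ∑ h ∈ H, m h ^ 2 +
          2 * N * (κ ^ 4 * ∑ h ∈ H, Real.sqrt ((C1 ^ 2 * C2 : ℝ) * N ^ 3 * Z h)) := by
          rw [Finset.sum_add_distrib, Finset.mul_sum, Finset.mul_sum, Finset.mul_sum]
      _ ≤ _ := by gcongr
  have hB0 : 0 ≤ ∑ h ∈ H, ∑ t ∈ I, ν h t * ‖K h t‖ ^ 2 :=
    Finset.sum_nonneg fun h _ => Finset.sum_nonneg fun t _ => mul_nonneg (hν0 _ _) (sq_nonneg _)
  have hS0 : 0 ≤ ∑ h ∈ H, ∑ t ∈ I, ν h t * ‖K h t‖ :=
    Finset.sum_nonneg fun h _ => Finset.sum_nonneg fun t _ => mul_nonneg (hν0 _ _) (norm_nonneg _)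
  have her : er (2 * C3) A w ≤ er C A w := er_mono (by omega) (by omega) hw1
  have hm2 : 0 ≤ ∑ h ∈ H, m h ^ 2 := Finset.sum_nonneg fun _ _ => sq_nonneg _
  have hCa : (8 * C4 ^ 2 : ℝ) ≤ C := by
    have : 8 * C4 ^ 2 ≤ C := by omega
    exact_mod_cast this
  have hCb : (2 * C4 ^ 2 * D : ℝ) ≤ C := by
    have : 2 * C4 ^ 2 * D ≤ C := by omega
    exact_mod_cast this
  have her0 := er_nonneg (2 * C3) A w
  calc T ^ 2 ≤ (κ ^ 2 * ∑ h ∈ H, ∑ t ∈ I, ν h t * ‖K h t‖) ^ 2 := pow_le_pow_left₀ hT0 step1 2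
    _ = κ ^ 4 * (∑ h ∈ H, ∑ t ∈ I, ν h t * ‖K h t‖) ^ 2 := by ring
    _ ≤ κ ^ 4 * ((∑ h ∈ H, ∑ t ∈ I, ν h t) * ∑ h ∈ H, ∑ t ∈ I, ν h t * ‖K h t‖ ^ 2) := by
        gcongr
    _ ≤ κ ^ 4 * ((C4 * N) ^ 2 * (8 * N * ∑ h ∈ H, m h ^ 2 +
          2 * N * (κ ^ 4 * (D * (er (2 * C3) A w * N ^ 3))))) := by
        gcongr
    _ = (8 * C4 ^ 2) * κ ^ 4 * N ^ 3 * ∑ h ∈ H, m h ^ 2 +
        (2 * C4 ^ 2 * D) * κ ^ 8 * er (2 * C3) A w * N ^ 6 := by ring
    _ ≤ _ := by gcongr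

end Pool.Agent.Lib.H18GB
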