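import Pool.Agent.Lib.H18GB.Tool1

/-!
# Project GB: TU3, generalised von Neumann inequality (helper82)
-/

namespace Pool.Agent.Lib.H18GB

open Finset Pool.Agent.Lib.Sieve

/-! ## the generalised von Neumann inequality -/

theorem sum_reindex {f : ℤ → ℂ} {I J : Finset ℤ} (e : ℤ ≃ ℤ) (hJ : ∀ m, m ∉ J → f m = 0)
    (hI : ∀ m ∈ J, e.symm m ∈ I) : ∑ i ∈ I, f (e i) = ∑ m ∈ J, f m := by
  have h1 : ∑ i ∈ I, f (e i) = ∑ m ∈ I.map e.toEmbedding, f m := by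
    rw [Finset.sum_map]
    rfl
  rw [h1]
  symm
  apply Finset.sum_subset
  · intro m hm
    rw [Finset.mem_map]
    exact ⟨e.symm m, hI m hm, by simp⟩
  · intro m _ hm
    exact hJ m hm

theorem sum_shiftR {A B L : ℤ} (hL : B - A ≤ L) (q : ℤ → ℤ → ℂ)
    (hq : ∀ y y', y' ∉ Finset.Ico A B → q y y' = 0) :
    ∑ y ∈ Finset.Ico A B, ∑ y' ∈ Finset.Ico A B, q y y' =
      ∑ j ∈ Finset.Ico (-L) L, ∑ y ∈ Finset.Ico A B, q y (y + j) := by
  rw [Finset.sum_comm (s := Finset.Ico (-L) L)]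
  apply Finset.sum_congr rfl
  intro y hy
  symm
  apply sum_reindex (f := fun m => q y m) (Equiv.addLeft y) (fun m hm => hq y m hm)
  intro m hm
  rw [Finset.mem_Ico] at hm hy ⊢
  simp only [Equiv.addLeft_symm_apply]
  omega

theorem sum_reflect {f : ℤ → ℂ} {I J : Finset ℤ} (x : ℤ) (hJ : ∀ m, m ∉ J → f m = 0)
    (hI : ∀ m ∈ J, x - m ∈ I) : ∑ i ∈ I, f (x - i) = ∑ m ∈ J, f m := by
  apply sum_reindex (f := f) (Equiv.subLeft x) hJ
  intro m hm
  have := hI m hm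
  simpa [Equiv.subLeft_symm_apply, add_comm, sub_eq_add_neg] using this

theorem normSq_sum (I : Finset ℤ) (v : ℤ → ℂ) : ((‖∑ x ∈ I, v x‖ ^ 2 : ℝ) : ℂ) =
    ∑ x ∈ I, ∑ x' ∈ I, v x * (starRingEnd ℂ) (v x') := by
  have h1 : ((‖∑ x ∈ I, v x‖ ^ 2 : ℝ) : ℂ) = (∑ x ∈ I, v x) * (starRingEnd ℂ) (∑ x ∈ I, v x) := by
    rw [Complex.mul_conj, Complex.normSq_eq_norm_sq]
  rw [h1, map_sum, Finset.sum_mul_sum]

/-- step A -/
theorem gvnA (N : ℕ) (a : ℤ → ℝ) (f1 f2 G : ℤ → ℂ) (hG : ∀ y, ‖G y‖ ≤ 1)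
    (hG' : SuppIn (-N) N G) :
    (∑ x ∈ Finset.Ico (0 : ℤ) N, a x *
      ‖∑ y ∈ Finset.Ico (-(N : ℤ)) N, G y * f1 (x + y) * f2 (x - y)‖ ^ 2) ^ 2 ≤
    8 * (N : ℝ) ^ 2 * ∑ j ∈ Finset.Ico (-(2 * N : ℤ)) (2 * N), ∑ y ∈ Finset.Ico (-(N : ℤ)) N,
      ‖∑ x ∈ Finset.Ico (0 : ℤ) N, (a x : ℂ) * (f1 (x + y) * (starRingEnd ℂ) (f1 (x + y + j))) *
        (f2 (x - y) * (starRingEnd ℂ) (f2 (x - y - j)))‖ ^ 2 := by
  set X := ∑ x ∈ Finset.Ico (0 : ℤ) N, a x *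
      ‖∑ y ∈ Finset.Ico (-(N : ℤ)) N, G y * f1 (x + y) * f2 (x - y)‖ ^ 2 with hX
  set Ψ : ℤ → ℤ → ℂ := fun j y => ∑ x ∈ Finset.Ico (0 : ℤ) N,
    (a x : ℂ) * (f1 (x + y) * (starRingEnd ℂ) (f1 (x + y + j))) *
        (f2 (x - y) * (starRingEnd ℂ) (f2 (x - y - j))) with hΨ
  have h1 : (X : ℂ) = ∑ j ∈ Finset.Ico (-(2 * N : ℤ)) (2 * N), ∑ y ∈ Finset.Ico (-(N : ℤ)) N,
      (G y * (starRingEnd ℂ) (G (y + j))) * Ψ j y := by
    calc (X : ℂ) = ∑ x ∈ Finset.Ico (0 : ℤ) N, (a x : ℂ) *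
          ((‖∑ y ∈ Finset.Ico (-(N : ℤ)) N, G y * f1 (x + y) * f2 (x - y)‖ ^ 2 : ℝ) : ℂ) := by
          rw [hX]
          push_cast
          rfl
      _ = ∑ y ∈ Finset.Ico (-(N : ℤ)) N, ∑ y' ∈ Finset.Ico (-(N : ℤ)) N,
          ∑ x ∈ Finset.Ico (0 : ℤ) N, (a x : ℂ) * ((G y * f1 (x + y) * f2 (x - y)) *
            (starRingEnd ℂ) (G y' * f1 (x + y') * f2 (x - y'))) := by
          simp only [normSq_sum, Finset.mul_sum]
          rw [Finset.sum_comm]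
          apply Finset.sum_congr rfl
          intro y _
          rw [Finset.sum_comm]
      _ = ∑ j ∈ Finset.Ico (-(2 * N : ℤ)) (2 * N), ∑ y ∈ Finset.Ico (-(N : ℤ)) N,
          ∑ x ∈ Finset.Ico (0 : ℤ) N, (a x : ℂ) * ((G y * f1 (x + y) * f2 (x - y)) *
            (starRingEnd ℂ) (G (y + j) * f1 (x + (y + j)) * f2 (x - (y + j)))) := by
          rw [sum_shiftR (L := 2 * N) (by omega)]
          intro y y' hy'
          rw [hG' y' hy']
          simp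
      _ = _ := by
          apply Finset.sum_congr rfl
          intro j _
          apply Finset.sum_congr rfl
          intro y _
          rw [hΨ, Finset.mul_sum]
          apply Finset.sum_congr rfl
          intro x _
          rw [show x + (y + j) = x + y + j by ring, show x - (y + j) = x - y - j by ring]
          simp only [map_mul]
          ring
  have h2 : |X| ≤ ∑ q ∈ Finset.Ico (-(2 * N : ℤ)) (2 * N) ×ˢ Finset.Ico (-(N : ℤ)) N,
      ‖Ψ q.1 q.2‖ := by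
    rw [Finset.sum_product]
    have h3 : |X| = ‖(X : ℂ)‖ := by rw [Complex.norm_real, Real.norm_eq_abs]
    rw [h3, h1]
    refine (norm_sum_le _ _).trans (Finset.sum_le_sum fun j _ => ?_)
    refine (norm_sum_le _ _).trans (Finset.sum_le_sum fun y _ => ?_)
    rw [norm_mul, norm_mul, RCLike.norm_conj]
    have := mul_le_one₀ (hG y) (norm_nonneg (G (y + j))) (hG (y + j))
    exact mul_le_of_le_one_left (norm_nonneg _) this
  have h3 : X ^ 2 ≤ (∑ q ∈ Finset.Ico (-(2 * N : ℤ)) (2 * N) ×ˢ Finset.Ico (-(N : ℤ)) N,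
      ‖Ψ q.1 q.2‖) ^ 2 := by
    rw [← sq_abs X]
    exact pow_le_pow_left₀ (abs_nonneg _) h2 2
  refine h3.trans (sq_sum_le_card_mul_sum_sq.trans (le_of_eq ?_))
  rw [Finset.card_product, Int.card_Ico, Int.card_Ico, Finset.sum_product]
  have e1 : (2 * (N : ℤ) - -(2 * N)).toNat = 4 * N := by omega
  have e2 : ((N : ℤ) - -N).toNat = 2 * N := by omega
  rw [e1, e2]
  push_cast
  ring

/-- step B: fixed `j` -/
theorem gvnB (N : ℕ) (a : ℤ → ℝ) (ha : ∀ x, x ∉ Finset.Ico (0 : ℤ) N → a x = 0) (P Q : ℤ → ℂ)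
    (hQ : SuppIn (-(2 * N)) (2 * N) Q) (M2 : ℤ → ℤ → ℝ)
    (h2 : ∀ k t, ‖Q t‖ * ‖Q (t + k)‖ ≤ M2 k t) :
    ∑ y ∈ Finset.Ico (-(N : ℤ)) N,
      ‖∑ x ∈ Finset.Ico (0 : ℤ) N, (a x : ℂ) * P (x + y) * Q (x - y)‖ ^ 2 ≤
    ∑ k ∈ Finset.Ico (-(N : ℤ)) N, ∑ t ∈ Finset.Ico (-(5 * N : ℤ)) (5 * N), M2 k t *
      ‖∑ x ∈ Finset.Ico (0 : ℤ) N, ((a x * a (x + k) : ℝ) : ℂ) *
        (P (2 * x - t) * (starRingEnd ℂ) (P (2 * x - t + k)))‖ := by
  set Z := ∑ y ∈ Finset.Ico (-(3 * N : ℤ)) (3 * N),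
      ‖∑ x ∈ Finset.Ico (0 : ℤ) N, (a x : ℂ) * P (x + y) * Q (x - y)‖ ^ 2 with hZ
  set Φ : ℤ → ℤ → ℂ := fun k t => ∑ x ∈ Finset.Ico (0 : ℤ) N, ((a x * a (x + k) : ℝ) : ℂ) *
        (P (2 * x - t) * (starRingEnd ℂ) (P (2 * x - t + k))) with hΦ
  have h0 : ∑ y ∈ Finset.Ico (-(N : ℤ)) N,
      ‖∑ x ∈ Finset.Ico (0 : ℤ) N, (a x : ℂ) * P (x + y) * Q (x - y)‖ ^ 2 ≤ Z := by
    apply Finset.sum_le_sum_of_subset_of_nonneg
    · apply Finset.Ico_subset_Ico <;> omega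
    · intro i _ _
      positivity
  have hM : ∀ k t, 0 ≤ M2 k t := fun k t =>
    (mul_nonneg (norm_nonneg _) (norm_nonneg _)).trans (h2 k t)
  have h1 : (Z : ℂ) = ∑ k ∈ Finset.Ico (-(N : ℤ)) N, ∑ t ∈ Finset.Ico (-(2 * N : ℤ)) (2 * N),
      (Q t * (starRingEnd ℂ) (Q (t + k))) * Φ k t := by
    calc (Z : ℂ) = ∑ y ∈ Finset.Ico (-(3 * N : ℤ)) (3 * N),
          ∑ x ∈ Finset.Ico (0 : ℤ) N, ∑ x' ∈ Finset.Ico (0 : ℤ) N,
            ((a x : ℂ) * P (x + y) * Q (x - y)) *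
              (starRingEnd ℂ) ((a x' : ℂ) * P (x' + y) * Q (x' - y)) := by
          rw [hZ]
          push_cast
          apply Finset.sum_congr rfl
          intro y _
          rw [← normSq_sum]
          push_cast
          rfl
      _ = ∑ y ∈ Finset.Ico (-(3 * N : ℤ)) (3 * N), ∑ k ∈ Finset.Ico (-(N : ℤ)) N,
          ∑ x ∈ Finset.Ico (0 : ℤ) N, ((a x : ℂ) * P (x + y) * Q (x - y)) *
              (starRingEnd ℂ) ((a (x + k) : ℂ) * P (x + k + y) * Q (x + k - y)) := by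
          apply Finset.sum_congr rfl
          intro y _
          rw [sum_shiftR (L := N) (by omega)]
          intro x x' hx'
          rw [ha x' hx']
          simp
      _ = ∑ k ∈ Finset.Ico (-(N : ℤ)) N, ∑ x ∈ Finset.Ico (0 : ℤ) N,
          ((a x * a (x + k) : ℝ) : ℂ) * ∑ y ∈ Finset.Ico (-(3 * N : ℤ)) (3 * N),
            (P (2 * x - (x - y)) * (starRingEnd ℂ) (P (2 * x - (x - y) + k))) *
              (Q (x - y) * (starRingEnd ℂ) (Q (x - y + k))) := by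
          rw [Finset.sum_comm]
          apply Finset.sum_congr rfl
          intro k _
          rw [Finset.sum_comm]
          apply Finset.sum_congr rfl
          intro x _
          rw [Finset.mul_sum]
          apply Finset.sum_congr rfl
          intro y _
          rw [show 2 * x - (x - y) = x + y by ring, show x + k + y = x + y + k by ring,
            show x + k - y = x - y + k by ring]
          simp only [map_mul, Complex.conj_ofReal]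
          push_cast
          ring
      _ = ∑ k ∈ Finset.Ico (-(N : ℤ)) N, ∑ x ∈ Finset.Ico (0 : ℤ) N,
          ((a x * a (x + k) : ℝ) : ℂ) * ∑ t ∈ Finset.Ico (-(2 * N : ℤ)) (2 * N),
            (P (2 * x - t) * (starRingEnd ℂ) (P (2 * x - t + k))) *
              (Q t * (starRingEnd ℂ) (Q (t + k))) := by
          apply Finset.sum_congr rfl
          intro k _
          apply Finset.sum_congr rfl
          intro x hx
          rw [Finset.mem_Ico] at hx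
          congr 1
          apply sum_reflect (f := fun t => (P (2 * x - t) * (starRingEnd ℂ) (P (2 * x - t + k))) *
              (Q t * (starRingEnd ℂ) (Q (t + k)))) x
          · intro t ht
            have : Q t = 0 := hQ t (by simpa using ht)
            simp [this]
          · intro t ht
            rw [Finset.mem_Ico] at ht ⊢
            omega
      _ = _ := by
          apply Finset.sum_congr rfl
          intro k _
          simp only [Finset.mul_sum, hΦ]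
          rw [Finset.sum_comm]
          apply Finset.sum_congr rfl
          intro t _
          apply Finset.sum_congr rfl
          intro x _
          ring
  have h3 : Z ≤ ∑ k ∈ Finset.Ico (-(N : ℤ)) N, ∑ t ∈ Finset.Ico (-(2 * N : ℤ)) (2 * N),
      M2 k t * ‖Φ k t‖ := by
    have h4 : Z ≤ ‖(Z : ℂ)‖ := by
      rw [Complex.norm_real, Real.norm_eq_abs]
      exact le_abs_self _
    refine h4.trans ?_
    rw [h1]
    refine (norm_sum_le _ _).trans (Finset.sum_le_sum fun k _ => ?_)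
    refine (norm_sum_le _ _).trans (Finset.sum_le_sum fun t _ => ?_)
    rw [norm_mul, norm_mul, RCLike.norm_conj]
    exact mul_le_mul_of_nonneg_right (h2 k t) (norm_nonneg _)
  refine h0.trans (h3.trans (Finset.sum_le_sum fun k _ => ?_))
  apply Finset.sum_le_sum_of_subset_of_nonneg
  · apply Finset.Ico_subset_Ico <;> omega
  · intro t _ _
    exact mul_nonneg (hM k t) (norm_nonneg _)

/-- step D: fixed `j, k` -/
theorem gvnD (N : ℕ) (c : ℤ → ℝ) (hc : ∀ x, x ∉ Finset.Ico (0 : ℤ) N → c x = 0) (F : ℤ → ℂ)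
    (hF : SuppIn (-(2 * N)) (2 * N) F) (M1 M2 : ℤ → ℝ)
    (h1 : ∀ s, ‖F s‖ ≤ M1 s) :
    ∑ t ∈ Finset.Ico (-(5 * N : ℤ)) (5 * N), M2 t *
      ‖∑ x ∈ Finset.Ico (0 : ℤ) N, (c x : ℂ) * F (2 * x - t)‖ ^ 2 ≤
    ∑ l ∈ Finset.Ico (-(N : ℤ)) N, ∑ s ∈ Finset.Ico (-(2 * N : ℤ)) (2 * N),
      M1 s * M1 (s + 2 * l) *
        |∑ x ∈ Finset.Ico (0 : ℤ) N, c x * c (x + l) * M2 (2 * x - s)| := by
  set Z := ∑ t ∈ Finset.Ico (-(5 * N : ℤ)) (5 * N), M2 t *
      ‖∑ x ∈ Finset.Ico (0 : ℤ) N, (c x : ℂ) * F (2 * x - t)‖ ^ 2 with hZ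
  have key : (Z : ℂ) = ∑ l ∈ Finset.Ico (-(N : ℤ)) N, ∑ s ∈ Finset.Ico (-(2 * N : ℤ)) (2 * N),
      (F s * (starRingEnd ℂ) (F (s + 2 * l))) *
        ((∑ x ∈ Finset.Ico (0 : ℤ) N, c x * c (x + l) * M2 (2 * x - s) : ℝ) : ℂ) := by
    calc (Z : ℂ) = ∑ t ∈ Finset.Ico (-(5 * N : ℤ)) (5 * N), (M2 t : ℂ) *
          ∑ x ∈ Finset.Ico (0 : ℤ) N, ∑ x' ∈ Finset.Ico (0 : ℤ) N,
            ((c x : ℂ) * F (2 * x - t)) * (starRingEnd ℂ) ((c x' : ℂ) * F (2 * x' - t)) := by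
          rw [hZ]
          push_cast
          apply Finset.sum_congr rfl
          intro t _
          rw [← normSq_sum]
          push_cast
          rfl
      _ = ∑ t ∈ Finset.Ico (-(5 * N : ℤ)) (5 * N), (M2 t : ℂ) *
          ∑ l ∈ Finset.Ico (-(N : ℤ)) N, ∑ x ∈ Finset.Ico (0 : ℤ) N,
            ((c x : ℂ) * F (2 * x - t)) *
              (starRingEnd ℂ) ((c (x + l) : ℂ) * F (2 * (x + l) - t)) := by
          apply Finset.sum_congr rfl
          intro t _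
          rw [sum_shiftR (L := N) (by omega)]
          intro x x' hx'
          rw [hc x' hx']
          simp
      _ = ∑ l ∈ Finset.Ico (-(N : ℤ)) N, ∑ x ∈ Finset.Ico (0 : ℤ) N,
          ((c x * c (x + l) : ℝ) : ℂ) * ∑ t ∈ Finset.Ico (-(5 * N : ℤ)) (5 * N),
            (M2 (2 * x - (2 * x - t)) : ℂ) * (F (2 * x - t) *
              (starRingEnd ℂ) (F (2 * x - t + 2 * l))) := by
          simp only [Finset.mul_sum]
          rw [Finset.sum_comm]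
          apply Finset.sum_congr rfl
          intro l _
          rw [Finset.sum_comm]
          apply Finset.sum_congr rfl
          intro x _
          apply Finset.sum_congr rfl
          intro t _
          rw [show 2 * x - (2 * x - t) = t by ring, show 2 * (x + l) - t = 2 * x - t + 2 * l by ring]
          simp only [map_mul, Complex.conj_ofReal]
          push_cast
          ring
      _ = ∑ l ∈ Finset.Ico (-(N : ℤ)) N, ∑ x ∈ Finset.Ico (0 : ℤ) N,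
          ((c x * c (x + l) : ℝ) : ℂ) * ∑ s ∈ Finset.Ico (-(2 * N : ℤ)) (2 * N),
            (M2 (2 * x - s) : ℂ) * (F s * (starRingEnd ℂ) (F (s + 2 * l))) := by
          apply Finset.sum_congr rfl
          intro l _
          apply Finset.sum_congr rfl
          intro x hx
          rw [Finset.mem_Ico] at hx
          congr 1
          apply sum_reflect (f := fun s => (M2 (2 * x - s) : ℂ) *
            (F s * (starRingEnd ℂ) (F (s + 2 * l)))) (2 * x)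
          · intro s hs
            have : F s = 0 := hF s (by simpa using hs)
            simp [this]
          · intro s hs
            rw [Finset.mem_Ico] at hs ⊢
            omega
      _ = _ := by
          apply Finset.sum_congr rfl
          intro l _
          push_cast
          simp only [Finset.mul_sum]
          rw [Finset.sum_comm]
          apply Finset.sum_congr rfl
          intro s _
          apply Finset.sum_congr rfl
          intro x _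
          ring
  have h4 : Z ≤ ‖(Z : ℂ)‖ := by
    rw [Complex.norm_real, Real.norm_eq_abs]
    exact le_abs_self _
  refine h4.trans ?_
  rw [key]
  refine (norm_sum_le _ _).trans (Finset.sum_le_sum fun l _ => ?_)
  refine (norm_sum_le _ _).trans (Finset.sum_le_sum fun s _ => ?_)
  rw [norm_mul, norm_mul, RCLike.norm_conj, Complex.norm_real, Real.norm_eq_abs]
  apply mul_le_mul_of_nonneg_right _ (abs_nonneg _)
  exact mul_le_mul (h1 s) (h1 _) (norm_nonneg _) ((norm_nonneg _).trans (h1 s))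

/-- the generalised von Neumann inequality -/
theorem gvn (N : ℕ) (a : ℤ → ℝ) (ha : ∀ x, x ∉ Finset.Ico (0 : ℤ) N → a x = 0) (f1 f2 G : ℤ → ℂ)
    (hf1 : SuppIn (-(2 * N)) (2 * N) f1) (hf2 : SuppIn (-(2 * N)) (2 * N) f2)
    (hG : ∀ y, ‖G y‖ ≤ 1) (hG' : SuppIn (-N) N G) (M1 M2 : ℤ → ℤ → ℤ → ℝ)
    (h1 : ∀ j k s, ‖f1 s‖ * ‖f1 (s + j)‖ * (‖f1 (s + k)‖ * ‖f1 (s + k + j)‖) ≤ M1 j k s)
    (h2 : ∀ j k t, ‖f2 t‖ * ‖f2 (t - j)‖ * (‖f2 (t + k)‖ * ‖f2 (t + k - j)‖) ≤ M2 j k t) :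
    (∑ x ∈ Finset.Ico (0 : ℤ) N, a x *
      ‖∑ y ∈ Finset.Ico (-(N : ℤ)) N, G y * f1 (x + y) * f2 (x - y)‖ ^ 2) ^ 4 ≤
    64 * (N : ℝ) ^ 4 *
      (∑ j ∈ Finset.Ico (-(2 * N : ℤ)) (2 * N), ∑ k ∈ Finset.Ico (-(N : ℤ)) N,
        ∑ t ∈ Finset.Ico (-(5 * N : ℤ)) (5 * N), M2 j k t) *
      (∑ j ∈ Finset.Ico (-(2 * N : ℤ)) (2 * N), ∑ k ∈ Finset.Ico (-(N : ℤ)) N,
        ∑ l ∈ Finset.Ico (-(N : ℤ)) N, ∑ s ∈ Finset.Ico (-(2 * N : ℤ)) (2 * N),
          M1 j k s * M1 j k (s + 2 * l) *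
          |∑ x ∈ Finset.Ico (0 : ℤ) N, (a x * a (x + k)) * (a (x + l) * a (x + l + k)) *
            M2 j k (2 * x - s)|) := by
  have hA := gvnA N a f1 f2 G hG hG'
  set X := ∑ x ∈ Finset.Ico (0 : ℤ) N, a x *
      ‖∑ y ∈ Finset.Ico (-(N : ℤ)) N, G y * f1 (x + y) * f2 (x - y)‖ ^ 2 with hX
  set J := Finset.Ico (-(2 * N : ℤ)) (2 * N) with hJ
  set K := Finset.Ico (-(N : ℤ)) N with hK
  set T := Finset.Ico (-(5 * N : ℤ)) (5 * N) with hT
  have hM2 : ∀ j k t, 0 ≤ M2 j k t := fun j k t =>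
    (mul_nonneg (mul_nonneg (norm_nonneg _) (norm_nonneg _))
      (mul_nonneg (norm_nonneg _) (norm_nonneg _))).trans (h2 j k t)
  set Φ : ℤ → ℤ → ℤ → ℂ := fun j k t => ∑ x ∈ Finset.Ico (0 : ℤ) N, ((a x * a (x + k) : ℝ) : ℂ) *
        ((f1 (2 * x - t) * (starRingEnd ℂ) (f1 (2 * x - t + j))) *
        (starRingEnd ℂ) (f1 (2 * x - t + k) * (starRingEnd ℂ) (f1 (2 * x - t + k + j)))) with hΦ
  have hB : ∀ j, ∑ y ∈ K, ‖∑ x ∈ Finset.Ico (0 : ℤ) N, (a x : ℂ) *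
      (f1 (x + y) * (starRingEnd ℂ) (f1 (x + y + j))) *
        (f2 (x - y) * (starRingEnd ℂ) (f2 (x - y - j)))‖ ^ 2 ≤
      ∑ k ∈ K, ∑ t ∈ T, M2 j k t * ‖Φ j k t‖ := by
    intro j
    apply gvnB N a ha (fun s => f1 s * (starRingEnd ℂ) (f1 (s + j)))
      (fun t => f2 t * (starRingEnd ℂ) (f2 (t - j)))
    · intro t ht
      simp [hf2 t ht]
    · intro k t
      simp only [norm_mul, RCLike.norm_conj]
      exact h2 j k t
  have hB' : X ^ 2 ≤ 8 * (N : ℝ) ^ 2 *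
      ∑ q ∈ J ×ˢ (K ×ˢ T), M2 q.1 q.2.1 q.2.2 * ‖Φ q.1 q.2.1 q.2.2‖ := by
    refine hA.trans (mul_le_mul_of_nonneg_left ?_ (by positivity))
    rw [Finset.sum_product]
    apply Finset.sum_le_sum
    intro j _
    rw [Finset.sum_product]
    exact hB j
  have hC : (∑ q ∈ J ×ˢ (K ×ˢ T), M2 q.1 q.2.1 q.2.2 * ‖Φ q.1 q.2.1 q.2.2‖) ^ 2 ≤
      (∑ q ∈ J ×ˢ (K ×ˢ T), M2 q.1 q.2.1 q.2.2) *
      ∑ q ∈ J ×ˢ (K ×ˢ T), M2 q.1 q.2.1 q.2.2 * ‖Φ q.1 q.2.1 q.2.2‖ ^ 2 := by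
    apply Finset.sum_sq_le_sum_mul_sum_of_sq_le_mul
    · intro q _
      exact hM2 _ _ _
    · intro q _
      exact mul_nonneg (hM2 _ _ _) (by positivity)
    · intro q _
      exact le_of_eq (by ring)
  have hD : ∑ q ∈ J ×ˢ (K ×ˢ T), M2 q.1 q.2.1 q.2.2 * ‖Φ q.1 q.2.1 q.2.2‖ ^ 2 ≤
      ∑ j ∈ J, ∑ k ∈ K, ∑ l ∈ K, ∑ s ∈ J, M1 j k s * M1 j k (s + 2 * l) *
          |∑ x ∈ Finset.Ico (0 : ℤ) N, (a x * a (x + k)) * (a (x + l) * a (x + l + k)) *
            M2 j k (2 * x - s)| := by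
    rw [Finset.sum_product]
    apply Finset.sum_le_sum
    intro j _
    rw [Finset.sum_product]
    apply Finset.sum_le_sum
    intro k _
    apply gvnD N (fun x => a x * a (x + k)) (fun x hx => by simp [ha x hx])
      (fun s => (f1 s * (starRingEnd ℂ) (f1 (s + j))) *
        (starRingEnd ℂ) (f1 (s + k) * (starRingEnd ℂ) (f1 (s + k + j))))
    · intro s hs
      simp [hf1 s hs]
    · intro s
      simp only [norm_mul, RCLike.norm_conj]
      exact h1 j k s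

  have e1 : ∑ q ∈ J ×ˢ (K ×ˢ T), M2 q.1 q.2.1 q.2.2 =
      ∑ j ∈ J, ∑ k ∈ K, ∑ t ∈ T, M2 j k t := by
    rw [Finset.sum_product]
    apply Finset.sum_congr rfl
    intro j _
    rw [Finset.sum_product]
  rw [e1] at hC
  have hM2s : 0 ≤ ∑ j ∈ J, ∑ k ∈ K, ∑ t ∈ T, M2 j k t :=
    Finset.sum_nonneg fun _ _ => Finset.sum_nonneg fun _ _ => Finset.sum_nonneg fun _ _ =>
      hM2 _ _ _
  calc X ^ 4 = (X ^ 2) ^ 2 := by ring
    _ ≤ (8 * (N : ℝ) ^ 2 *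
      ∑ q ∈ J ×ˢ (K ×ˢ T), M2 q.1 q.2.1 q.2.2 * ‖Φ q.1 q.2.1 q.2.2‖) ^ 2 :=
        pow_le_pow_left₀ (by positivity) hB' 2
    _ = 64 * (N : ℝ) ^ 4 * (∑ q ∈ J ×ˢ (K ×ˢ T), M2 q.1 q.2.1 q.2.2 *
        ‖Φ q.1 q.2.1 q.2.2‖) ^ 2 := by ring
    _ ≤ 64 * (N : ℝ) ^ 4 * ((∑ j ∈ J, ∑ k ∈ K, ∑ t ∈ T, M2 j k t) *
      (∑ q ∈ J ×ˢ (K ×ˢ T), M2 q.1 q.2.1 q.2.2 * ‖Φ q.1 q.2.1 q.2.2‖ ^ 2)) :=
        mul_le_mul_of_nonneg_left hC (by positivity)
    _ ≤ 64 * (N : ℝ) ^ 4 * ((∑ j ∈ J, ∑ k ∈ K, ∑ t ∈ T, M2 j k t) *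
      (∑ j ∈ J, ∑ k ∈ K, ∑ l ∈ K, ∑ s ∈ J, M1 j k s * M1 j k (s + 2 * l) *
          |∑ x ∈ Finset.Ico (0 : ℤ) N, (a x * a (x + k)) * (a (x + l) * a (x + l + k)) *
            M2 j k (2 * x - s)|)) :=
        mul_le_mul_of_nonneg_left (mul_le_mul_of_nonneg_left hD hM2s) (by positivity)
    _ = _ := by ring

end Pool.Agent.Lib.H18GB
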