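import Pool.Agent.Lib.H18GB.TU3Cor
import Pool.Agent.Lib.H18GB.TU3GvN

/-!
# Project GB: TU3

Throughout `S` is a set of primes in `(w, z]`, `IsW w W`, and all intervals have length at least
`z ^ (C A)`; errors are `er C A w = 2^(-A/C) + w^(-1/C)`, and powers `er^(1/2)` etc. are absorbed
by increasing `C`. All sums of products of `rho`'s come from `corr0` / `corr`: the error terms are
`Ers (9/10) S (discriminant)` with discriminants affine in the averaged variables, with coefficient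
`± W^i * (1, 2 or 3)` or a prime `> z`; use `ers_mul`, `ers_pow_le`, `ers_avg`.
The error term `z^(A+k)` is `≤ er * (length)` when `z ^ (C A) ≤ length`.
-/

namespace Pool.Agent.Lib.H18GB

open Finset Pool.Agent.Lib.Sieve

theorem nu_expand (S : Finset ℕ) (W : ℕ) (r j k s : ℤ) : nu S W r j k s =
    (1 + rho S (r + W * s)) * (1 + rho S (r + W * (s + j))) *
      ((1 + rho S (r + W * (s + k))) * (1 + rho S (r + W * (s + k + j)))) := by
  unfold nu sh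
  rw [Fintype.prod_prod_type]
  simp only [Fintype.prod_bool, if_true, Bool.false_eq_true, if_false, add_zero, zero_add]
  rw [show s + (j + k) = s + k + j by ring]
  ring

theorem maj_four {κ : ℝ} {S : Finset ℕ} {W : ℕ} {r : ℤ} {f : ℤ → ℂ} (hS : ∀ p ∈ S, p.Prime)
    (hκ : 0 ≤ κ) (hf : Maj κ S W r f) (j k s : ℤ) :
    ‖f s‖ * ‖f (s + j)‖ * (‖f (s + k)‖ * ‖f (s + k + j)‖) ≤ κ ^ 4 * nu S W r j k s := by
  rw [nu_expand]
  have hr := fun m => rho_nonneg hS (r + W * m)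
  have g1 := hf s
  have g2 := hf (s + j)
  have g3 := hf (s + k)
  have g4 := hf (s + k + j)
  have r1 := hr s
  have r2 := hr (s + j)
  have r3 := hr (s + k)
  have r4 := hr (s + k + j)
  calc ‖f s‖ * ‖f (s + j)‖ * (‖f (s + k)‖ * ‖f (s + k + j)‖) ≤
      (κ * (1 + rho S (r + W * s))) * (κ * (1 + rho S (r + W * (s + j)))) *
      ((κ * (1 + rho S (r + W * (s + k)))) * (κ * (1 + rho S (r + W * (s + k + j))))) := by
        gcongr
    _ = _ := by ring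

theorem maj_four' {κ : ℝ} {S : Finset ℕ} {W : ℕ} {r : ℤ} {f : ℤ → ℂ} (hS : ∀ p ∈ S, p.Prime)
    (hκ : 0 ≤ κ) (hf : Maj κ S W r f) (j k s : ℤ) :
    ‖f s‖ * ‖f (s - j)‖ * (‖f (s + k)‖ * ‖f (s + k - j)‖) ≤ κ ^ 4 * nu S W r (-j) k s := by
  have := maj_four hS hκ hf (-j) k s
  rwa [← sub_eq_add_neg, ← sub_eq_add_neg] at this

/-- the truncated deviation of the pair weight -/
noncomputable def dev (S : Finset ℕ) (W N : ℕ) (ep bb : Bool → ℤ) (x : ℤ) : ℝ :=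
  if 0 ≤ x ∧ x < N then om S W ep bb x - 1 else 0

theorem dev_prod (S : Finset ℕ) (W N : ℕ) (ep bb : Bool → ℤ) (k l : ℤ) (g : ℤ → ℝ) :
    ∑ x ∈ Finset.Ico (0 : ℤ) N, (dev S W N ep bb x * dev S W N ep bb (x + k)) *
      (dev S W N ep bb (x + l) * dev S W N ep bb (x + l + k)) * g x =
    ∑ x ∈ Finset.Ico (max (max 0 (-k)) (max (-l) (-l - k)))
      (min (min (N : ℤ) (N - k)) (min (N - l) (N - l - k))),
      (∏ u : Bool × Bool, (om S W ep bb (x + sh l k u) - 1)) * g x := by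
  have h1 : Finset.Ico (max (max 0 (-k)) (max (-l) (-l - k)))
      (min (min (N : ℤ) (N - k)) (min (N - l) (N - l - k))) =
      (Finset.Ico (0 : ℤ) N).filter (fun x => (0 ≤ x + k ∧ x + k < N) ∧ (0 ≤ x + l ∧ x + l < N) ∧
        (0 ≤ x + l + k ∧ x + l + k < N)) := by
    ext x
    simp only [Finset.mem_filter, Finset.mem_Ico, max_le_iff, lt_min_iff]
    constructor
    · rintro ⟨⟨⟨a1, a2⟩, a3, a4⟩, ⟨b1, b2⟩, b3, b4⟩
      refine ⟨⟨a1, b1⟩, ⟨by omega, by omega⟩, ⟨by omega, by omega⟩, by omega, by omega⟩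
    · rintro ⟨⟨a1, b1⟩, ⟨a2, b2⟩, ⟨a3, b3⟩, a4, b4⟩
      refine ⟨⟨⟨a1, by omega⟩, by omega, by omega⟩, ⟨b1, by omega⟩, by omega, by omega⟩
  rw [h1, Finset.sum_filter]
  apply Finset.sum_congr rfl
  intro x hx
  rw [Finset.mem_Ico] at hx
  have e : (∏ u : Bool × Bool, (om S W ep bb (x + sh l k u) - 1)) =
      (om S W ep bb x - 1) * (om S W ep bb (x + k) - 1) *
        ((om S W ep bb (x + l) - 1) * (om S W ep bb (x + l + k) - 1)) := by
    unfold sh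
    rw [Fintype.prod_prod_type]
    simp only [Fintype.prod_bool, if_true, Bool.false_eq_true, if_false, add_zero, zero_add]
    rw [show x + (l + k) = x + l + k by ring]
    ring
  rw [e]
  unfold dev
  rw [if_pos (show 0 ≤ x ∧ x < N from hx)]
  by_cases c : (0 ≤ x + k ∧ x + k < N) ∧ (0 ≤ x + l ∧ x + l < N) ∧ (0 ≤ x + l + k ∧ x + l + k < N)
  · rw [if_pos c, if_pos c.1, if_pos c.2.1, if_pos c.2.2]
  · rw [if_neg c]
    by_cases c1 : 0 ≤ x + k ∧ x + k < N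
    · by_cases c2 : 0 ≤ x + l ∧ x + l < N
      · by_cases c3 : 0 ≤ x + l + k ∧ x + l + k < N
        · exact absurd ⟨c1, c2, c3⟩ c
        · rw [if_neg c3]
          ring
      · rw [if_neg c2]
        ring
    · rw [if_neg c1]
      ring

/-- the second factor -/
theorem fac2 : ∃ C : ℕ, 2 ≤ C ∧ ∀ (A w z W N : ℕ) (S : Finset ℕ), Stp C A w z W N S →
    ∀ (κ : ℝ) (ep bb : Bool → ℤ), 0 ≤ κ → (∀ c, ep c ≠ 0 ∧ |ep c| ≤ 2) → ∀ r1 r2 : ℤ,
    ∑ j ∈ Finset.Ico (-(2 * N : ℤ)) (2 * N), ∑ k ∈ Finset.Ico (-(N : ℤ)) N,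
        ∑ l ∈ Finset.Ico (-(N : ℤ)) N, ∑ s ∈ Finset.Ico (-(2 * N : ℤ)) (2 * N),
          (κ ^ 4 * nu S W r1 j k s) * (κ ^ 4 * nu S W r1 j k (s + 2 * l)) *
          |∑ x ∈ Finset.Ico (0 : ℤ) N, (dev S W N ep bb x * dev S W N ep bb (x + k)) *
            (dev S W N ep bb (x + l) * dev S W N ep bb (x + l + k)) *
            (κ ^ 4 * nu S W r2 (-j) k (2 * x - s))| ≤
      C * κ ^ 12 * (N : ℝ) ^ 5 * er C A w := by
  obtain ⟨C1, hC1, hc1⟩ := core
  obtain ⟨C2, hC2, hc2⟩ := quad0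
  obtain ⟨C3, hC3, hc3⟩ := quad
  refine ⟨C1 * (C2 + 144 * C3), by nlinarith, fun A w z W N S h κ ep bb hκ hep r1 r2 => ?_⟩
  have l1 : C1 ≤ C1 * (C2 + 144 * C3) := Nat.le_mul_of_pos_right _ (by omega)
  have l2 : C2 + 144 * C3 ≤ C1 * (C2 + 144 * C3) := Nat.le_mul_of_pos_left _ (by omega)
  have h1 := h.mono l1
  have h2 := h.mono (show C2 ≤ C1 * (C2 + 144 * C3) by omega)
  have h3 := h.mono (show C3 ≤ C1 * (C2 + 144 * C3) by omega)
  have hw1 : 1 ≤ w := h1.w_pos (by omega)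
  have hε1 : er C1 A w ≤ er (C1 * (C2 + 144 * C3)) A w := er_mono (by omega) l1 A hw1
  have hε3 : er C3 A w ≤ er (C1 * (C2 + 144 * C3)) A w := er_mono (by omega) (by omega) A hw1
  have e1 := er_nonneg C1 A w
  have e3 := er_nonneg C3 A w
  have hnu : ∀ r j k s, 0 ≤ nu S W r j k s := fun r j k s => nu_nonneg h.hS.prime W r j k s
  -- pointwise bound
  have pt : ∀ j k l s : ℤ, |∑ x ∈ Finset.Ico (0 : ℤ) N,
      (dev S W N ep bb x * dev S W N ep bb (x + k)) *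
            (dev S W N ep bb (x + l) * dev S W N ep bb (x + l + k)) *
            (κ ^ 4 * nu S W r2 (-j) k (2 * x - s))| ≤
      κ ^ 4 * (C1 * N * (er C1 A w + Dt S W ep bb r2 j k l s)) := by
    intro j k l s
    rw [dev_prod]
    have hD := Dt_nonneg S W ep bb r2 j k l s
    set a' := max (max 0 (-k)) (max (-l) (-l - k)) with ha'
    set b' := min (min (N : ℤ) (N - k)) (min (N - l) (N - l - k)) with hb'
    have e2 : ∑ x ∈ Finset.Ico a' b', (∏ u : Bool × Bool, (om S W ep bb (x + sh l k u) - 1)) *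
        (κ ^ 4 * nu S W r2 (-j) k (2 * x - s)) = κ ^ 4 * ∑ x ∈ Finset.Ico a' b',
        (∏ u : Bool × Bool, (om S W ep bb (x + sh l k u) - 1)) * nu S W r2 (-j) k (2 * x - s) := by
      rw [Finset.mul_sum]
      apply Finset.sum_congr rfl
      intro x _
      ring
    rw [e2, abs_mul, abs_of_nonneg (by positivity : 0 ≤ κ ^ 4)]
    apply mul_le_mul_of_nonneg_left _ (by positivity)
    rcases le_or_gt a' b' with hab | hab
    · apply hc1 A w z W N S h1 ep bb hep r2 j k l s a' b' hab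
      have : (0 : ℤ) ≤ a' := (le_max_left _ _).trans (le_max_left _ _)
      have : b' ≤ N := (min_le_left _ _).trans (min_le_left _ _)
      omega
    · rw [Finset.Ico_eq_empty (by omega), Finset.sum_empty, abs_zero]
      positivity
  have e4 : ∑ j ∈ Finset.Ico (-(2 * N : ℤ)) (2 * N), ∑ k ∈ Finset.Ico (-(N : ℤ)) N,
        ∑ l ∈ Finset.Ico (-(N : ℤ)) N, ∑ s ∈ Finset.Ico (-(2 * N : ℤ)) (2 * N),
          (κ ^ 4 * nu S W r1 j k s) * (κ ^ 4 * nu S W r1 j k (s + 2 * l)) *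
          (κ ^ 4 * (C1 * N * (er C1 A w + Dt S W ep bb r2 j k l s))) =
      κ ^ 12 * (C1 * N) * (er C1 A w * Qs S W N r1 (fun _ _ _ _ => 1) +
        Qs S W N r1 (fun j k l s => Dt S W ep bb r2 j k l s)) := by
    unfold Qs
    simp only [Finset.mul_sum, mul_add, ← Finset.sum_add_distrib]
    apply Finset.sum_congr rfl; intro j _
    apply Finset.sum_congr rfl; intro k _
    apply Finset.sum_congr rfl; intro l _
    apply Finset.sum_congr rfl; intro s _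
    ring
  have e5 : Qs S W N r1 (fun j k l s => Dt S W ep bb r2 j k l s) ≤
      144 * ((C3 : ℝ) * (N : ℝ) ^ 4 * er C3 A w) := by
    classical
    have e6 : Qs S W N r1 (fun j k l s => Dt S W ep bb r2 j k l s) =
        ∑ P : (Bool × Bool) ⊕ ((Bool × Bool) × Bool), ∑ Q : (Bool × Bool) ⊕ ((Bool × Bool) × Bool),
          Qs S W N r1 (fun j k l s => if crs P Q then
            Ers (9 / 10) S (disc (al W ep) (be W ep bb r2 j k l s) P Q) else 0) := by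
      unfold Qs Dt
      simp only [Finset.mul_sum]
      have sw : ∀ (I : Finset ℤ) (f : ℤ → (Bool × Bool) ⊕ ((Bool × Bool) × Bool) →
          (Bool × Bool) ⊕ ((Bool × Bool) × Bool) → ℝ),
          ∑ i ∈ I, ∑ P, ∑ Q, f i P Q = ∑ P, ∑ Q, ∑ i ∈ I, f i P Q := by
        intro I f
        rw [Finset.sum_comm]
        apply Finset.sum_congr rfl
        intro P _
        rw [Finset.sum_comm]
      simp only [sw]
    rw [e6]
    calc _ ≤ ∑ P : (Bool × Bool) ⊕ ((Bool × Bool) × Bool),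
          ∑ Q : (Bool × Bool) ⊕ ((Bool × Bool) × Bool), ((C3 : ℝ) * (N : ℝ) ^ 4 * er C3 A w) := by
          apply Finset.sum_le_sum; intro P _
          apply Finset.sum_le_sum; intro Q _
          by_cases hPQ : crs P Q
          · simp only [hPQ, if_true]
            exact hc3 A w z W N S h3 r1 _ (cross_ty h1 hC1 bb hep r2 P Q hPQ)
          · simp only [hPQ, if_false]
            unfold Qs
            simp only [mul_zero, Finset.sum_const_zero]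
            positivity
      _ = _ := by
          simp only [Finset.sum_const, Finset.card_univ, Fintype.card_sum, Fintype.card_prod,
            Fintype.card_bool, nsmul_eq_mul]
          push_cast
          ring
  have e7 := hc2 A w z W N S h2 r1
  calc _ ≤ ∑ j ∈ Finset.Ico (-(2 * N : ℤ)) (2 * N), ∑ k ∈ Finset.Ico (-(N : ℤ)) N,
        ∑ l ∈ Finset.Ico (-(N : ℤ)) N, ∑ s ∈ Finset.Ico (-(2 * N : ℤ)) (2 * N),
          (κ ^ 4 * nu S W r1 j k s) * (κ ^ 4 * nu S W r1 j k (s + 2 * l)) *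
          (κ ^ 4 * (C1 * N * (er C1 A w + Dt S W ep bb r2 j k l s))) := by
        apply Finset.sum_le_sum; intro j _
        apply Finset.sum_le_sum; intro k _
        apply Finset.sum_le_sum; intro l _
        apply Finset.sum_le_sum; intro s _
        apply mul_le_mul_of_nonneg_left (pt j k l s)
        have := hnu r1 j k s
        have := hnu r1 j k (s + 2 * l)
        positivity
    _ = _ := e4
    _ ≤ κ ^ 12 * (C1 * N) * (er C1 A w * ((C2 : ℝ) * (N : ℝ) ^ 4) +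
        144 * ((C3 : ℝ) * (N : ℝ) ^ 4 * er C3 A w)) := by gcongr
    _ ≤ κ ^ 12 * (C1 * N) * (er (C1 * (C2 + 144 * C3)) A w * ((C2 : ℝ) * (N : ℝ) ^ 4) +
        144 * ((C3 : ℝ) * (N : ℝ) ^ 4 * er (C1 * (C2 + 144 * C3)) A w)) := by gcongr
    _ = _ := by
        push_cast
        ring

/-- the first factor -/
theorem fac1 : ∃ C : ℕ, 2 ≤ C ∧ ∀ (A w z W N : ℕ) (S : Finset ℕ), Stp C A w z W N S →
    ∀ (κ : ℝ), 0 ≤ κ → ∀ r2 : ℤ,
    ∑ j ∈ Finset.Ico (-(2 * N : ℤ)) (2 * N), ∑ k ∈ Finset.Ico (-(N : ℤ)) N,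
        ∑ t ∈ Finset.Ico (-(5 * N : ℤ)) (5 * N), κ ^ 4 * nu S W r2 (-j) k t ≤
      C * κ ^ 4 * (N : ℝ) ^ 3 := by
  obtain ⟨C1, hC1, hc1⟩ := nu_sum
  obtain ⟨C2, hC2, hc2⟩ := e0_two
  refine ⟨C1 * C2, by nlinarith, fun A w z W N S h κ hκ r2 => ?_⟩
  have h1 := h.mono (show C1 ≤ C1 * C2 from Nat.le_mul_of_pos_right _ (by omega))
  have h2 := h.mono (show C2 ≤ C1 * C2 from Nat.le_mul_of_pos_left _ (by omega))
  calc _ ≤ ∑ j ∈ Finset.Ico (-(2 * N : ℤ)) (2 * N), ∑ k ∈ Finset.Ico (-(N : ℤ)) N,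
        κ ^ 4 * (C1 * N * (1 + e0 S j k) ^ 2) := by
        apply Finset.sum_le_sum; intro j _
        apply Finset.sum_le_sum; intro k _
        rw [← Finset.mul_sum]
        apply mul_le_mul_of_nonneg_left _ (by positivity)
        refine (hc1 A w z W N S h1 r2 (-j) k (-(5 * N)) (5 * N) (by omega) (by omega)).trans ?_
        rw [e0_neg]
        have := e0_nonneg S j k
        apply mul_le_mul_of_nonneg_left _ (by positivity)
        nlinarith
    _ = κ ^ 4 * (C1 * N) * ∑ j ∈ Finset.Ico (-(2 * N : ℤ)) (2 * N),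
        ∑ k ∈ Finset.Ico (-(N : ℤ)) N, (1 + e0 S j k) ^ 2 := by
        simp only [Finset.mul_sum]
        apply Finset.sum_congr rfl; intro j _
        apply Finset.sum_congr rfl; intro k _
        ring
    _ ≤ κ ^ 4 * (C1 * N) * (C2 * (N : ℝ) ^ 2) :=
        mul_le_mul_of_nonneg_left (hc2 A w z W N S h2) (by positivity)
    _ = _ := by
        push_cast
        ring

/-- Chunk TU3. Here `ω(x) = rho S (a1 x + b1) rho S (a2 x + b2) / SGp S (a1 b2 - a2 b1)`.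
Let `a(x) = (ω(x) - 1) 1_{[0,N)}(x)`, `X = ∑_x a(x) |Γ(x)|^2`, `Γ` as in `tu2`. Expanding, with
`j = y' - y`, `g_j(y) = G(y) conj G(y+j)`:
`X = ∑_j ∑_{x,y} a(x) g_j(y) Δ_j f1(x+y) Δ_{-j} f2(x-y)`. Cauchy-Schwarz over `(j,y)`:
`X^2 ≤ C N^2 Z`, `Z = ∑_{j,k} ∑_{x,y} a(x) a(x+k) Δ_kΔ_j f1(x+y) Δ_kΔ_{-j} f2(x-y)`
`= ∑_{j,k} ∑_{s,t} a_k(s+t) b(s) c(t)`, `s = x+y`, `t = x-y`, `a_k(2x) = a(x) a(x+k)` (0 at odd).
Two more Cauchy-Schwarz (first over `(j,k,t)` with weight `ν2`, then over `(j,k,s,s')` with weight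
`ν1(s) ν1(s')`, `ν_i(t) = κ^4 ∏ (1 + ρ_i)` over the four shifts) give
`Z^4 ≤ C (κ^4 N^3)^2 (∑_{j,k,s,s'} ν1(s) ν1(s'))
        (∑_{j,k,s,s'} ν1(s) ν1(s') |∑_t ν2(t) a_k(s+t) a_k(s'+t)|^2)`.
For fixed `j,k,s,s'` the sum over `t = s mod 2` is a sum of products of `4` single forms and `4`
pairs: `corr` shows that it is `≤ κ^4 N E(j,k,s,s')` (the main terms cancel because of the factors
`ω - 1`), `E` a combination of `er` and `Ers (9/10) S` of affine functions of `j,k,s,s'`. Finally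
`∑ ν1(s) ν1(s') E^2 ≤ κ^8 er N^4`: `E^2` is at most a combination of `er` and of
`Ers (3/4) S (affine)` (`ers_sq_le`), and for each prime `p ∈ S`,
`∑_{j,k,s,s'} ν1(s) ν1(s') 1[p ∣ affine] ≤ C κ^8 N^4 p^(-1/2)` by `corrAP` if the affine function
involves `s` or `s'`, by Cauchy-Schwarz and `corr0 4` if it involves `j, k` only. -/
theorem tu3 : ∃ C : ℕ, 1 ≤ C ∧ ∀ (A w z W N : ℕ) (S : Finset ℕ), C ≤ A → C ≤ w → 2 ≤ z →
    PSet w z S → IsW w W → z ^ (C * A) ≤ N → ∀ (r1 r2 : ℤ) (κ : ℝ) (f1 f2 G : ℤ → ℂ), 1 ≤ κ →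
    Maj κ S W r1 f1 → SuppIn (-(2 * N)) (2 * N) f1 → Maj κ S W r2 f2 →
    SuppIn (-(2 * N)) (2 * N) f2 → (∀ y, ‖G y‖ ≤ 1) → SuppIn (-N) N G →
    ∀ (ε1 ε2 b1 b2 : ℤ), ε1 ≠ 0 → |ε1| ≤ 2 → ε2 ≠ 0 → |ε2| ≤ 2 →
    |∑ x ∈ Finset.Ico (0 : ℤ) N,
      (rho S (ε1 * W * x + b1) * rho S (ε2 * W * x + b2) / SGp S (ε1 * W * b2 - ε2 * W * b1) - 1) *
      ‖∑ y ∈ Finset.Ico (-(N : ℤ)) N, G y * f1 (x + y) * f2 (x - y)‖ ^ 2| ≤
      C * κ ^ 4 * er C A w * N ^ 3 := by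
  obtain ⟨C1, hC1, hc1⟩ := fac1
  obtain ⟨C2, hC2, hc2⟩ := fac2
  refine ⟨64 * C1 * C2, by nlinarith, fun A w z W N S hA hw hz hS hW hN r1 r2 κ f1 f2 G hκ
    hm1 hs1 hm2 hs2 hG hG' ε1 ε2 b1 b2 hε1 hε1' hε2 hε2' => ?_⟩
  have h : Stp (64 * C1 * C2) A w z W N S := ⟨hA, hw, hz, hS, hW, hN⟩
  have l1 : C1 ≤ 64 * C1 * C2 := by nlinarith
  have l2 : C2 ≤ 64 * C1 * C2 := by nlinarith
  have l3 : 2 * (2 * C2) ≤ 64 * C1 * C2 := by nlinarith
  have hw1 : 1 ≤ w := h.w_pos (by nlinarith)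
  have hκ0 : 0 ≤ κ := by linarith
  set ep : Bool → ℤ := fun c => if c then ε2 else ε1 with hep
  set bb : Bool → ℤ := fun c => if c then b2 else b1 with hbb
  have hepc : ∀ c, ep c ≠ 0 ∧ |ep c| ≤ 2 := by
    intro c
    cases c
    · exact ⟨hε1, hε1'⟩
    · exact ⟨hε2, hε2'⟩
  have e1 : ∑ x ∈ Finset.Ico (0 : ℤ) N,
      (rho S (ε1 * W * x + b1) * rho S (ε2 * W * x + b2) / SGp S (ε1 * W * b2 - ε2 * W * b1) - 1) *
      ‖∑ y ∈ Finset.Ico (-(N : ℤ)) N, G y * f1 (x + y) * f2 (x - y)‖ ^ 2 =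
      ∑ x ∈ Finset.Ico (0 : ℤ) N, dev S W N ep bb x *
      ‖∑ y ∈ Finset.Ico (-(N : ℤ)) N, G y * f1 (x + y) * f2 (x - y)‖ ^ 2 := by
    apply Finset.sum_congr rfl
    intro x hx
    rw [Finset.mem_Ico] at hx
    unfold dev om
    rw [if_pos hx]
    simp [hep, hbb]
  have key := gvn N (dev S W N ep bb) (fun x hx => by
      unfold dev
      rw [if_neg]
      rwa [Finset.mem_Ico] at hx) f1 f2 G hs1 hs2 hG hG'
    (fun j k s => κ ^ 4 * nu S W r1 j k s) (fun j k t => κ ^ 4 * nu S W r2 (-j) k t)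
    (fun j k s => maj_four hS.prime hκ0 hm1 j k s)
    (fun j k s => maj_four' hS.prime hκ0 hm2 j k s)
  rw [← e1] at key
  set X := ∑ x ∈ Finset.Ico (0 : ℤ) N,
      (rho S (ε1 * W * x + b1) * rho S (ε2 * W * x + b2) / SGp S (ε1 * W * b2 - ε2 * W * b1) - 1) *
      ‖∑ y ∈ Finset.Ico (-(N : ℤ)) N, G y * f1 (x + y) * f2 (x - y)‖ ^ 2 with hX
  have F1 := hc1 A w z W N S (h.mono l1) κ hκ0 r2
  have F2 := hc2 A w z W N S (h.mono l2) κ ep bb hκ0 hepc r1 r2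
  have hnu : ∀ r j k s, 0 ≤ nu S W r j k s := fun r j k s => nu_nonneg h.hS.prime W r j k s
  have her : er C2 A w ≤ er (64 * C1 * C2) A w ^ 4 := by
    calc er C2 A w ≤ er (2 * C2) A w ^ 2 := er_le_sq (by omega) A w
      _ ≤ (er (2 * (2 * C2)) A w ^ 2) ^ 2 :=
        pow_le_pow_left₀ (er_nonneg _ _ _) (er_le_sq (by omega) A w) 2
      _ = er (2 * (2 * C2)) A w ^ 4 := by ring
      _ ≤ er (64 * C1 * C2) A w ^ 4 :=
        pow_le_pow_left₀ (er_nonneg _ _ _) (er_mono (by omega) l3 A hw1) 4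
  set ε := er (64 * C1 * C2) A w with hε
  have hε0 : 0 ≤ ε := er_nonneg _ _ _
  have e0 := er_nonneg C2 A w
  apply (pow_le_pow_iff_left₀ (abs_nonneg X) (by positivity) four_ne_zero).mp
  have habs : |X| ^ 4 = X ^ 4 := by
    rw [← abs_pow, abs_of_nonneg (by positivity)]
  rw [habs]
  have hCC : (64 : ℝ) * C1 * C2 ≤ ((64 * C1 * C2 : ℕ) : ℝ) ^ 4 := by
    have : (1 : ℝ) ≤ ((64 * C1 * C2 : ℕ) : ℝ) := by
      exact_mod_cast (by nlinarith : 1 ≤ 64 * C1 * C2)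
    calc (64 : ℝ) * C1 * C2 = ((64 * C1 * C2 : ℕ) : ℝ) := by push_cast; ring
      _ = ((64 * C1 * C2 : ℕ) : ℝ) ^ 1 := (pow_one _).symm
      _ ≤ _ := pow_le_pow_right₀ this (by norm_num)
  calc X ^ 4 ≤ _ := key
    _ ≤ 64 * (N : ℝ) ^ 4 * (C1 * κ ^ 4 * (N : ℝ) ^ 3) * (C2 * κ ^ 12 * (N : ℝ) ^ 5 * er C2 A w) := by
      apply mul_le_mul _ F2 _ (by positivity)
      · exact mul_le_mul_of_nonneg_left F1 (by positivity)
      · apply Finset.sum_nonneg; intro j _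
        apply Finset.sum_nonneg; intro k _
        apply Finset.sum_nonneg; intro l _
        apply Finset.sum_nonneg; intro s _
        have := hnu r1 j k s
        have := hnu r1 j k (s + 2 * l)
        positivity
    _ = (64 * C1 * C2) * (κ ^ 16 * (N : ℝ) ^ 12) * er C2 A w := by ring
    _ ≤ ((64 * C1 * C2 : ℕ) : ℝ) ^ 4 * (κ ^ 16 * (N : ℝ) ^ 12) * ε ^ 4 := by gcongr
    _ = _ := by ring

end Pool.Agent.Lib.H18GB
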