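import Pool.Agent.Lib.H18GB.Defs

/-!
# Project GB: RT (`rt s M = ⌊M^(1/s)⌋`)
-/

namespace Pool.Agent.Lib.H18GB

open Finset Pool.Agent.Lib.Sieve

/-- the integer part of `M^(1/s)` -/
noncomputable def rt (s M : ℕ) : ℕ := ⌊(M : ℝ) ^ (1 / (s : ℝ))⌋₊

theorem rt_le_rpow (s M : ℕ) : (rt s M : ℝ) ≤ (M : ℝ) ^ (1 / (s : ℝ)) :=
  Nat.floor_le (Real.rpow_nonneg (Nat.cast_nonneg _) _)

theorem rpow_lt_rt_succ (s M : ℕ) : (M : ℝ) ^ (1 / (s : ℝ)) < (rt s M : ℝ) + 1 :=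
  Nat.lt_floor_add_one _

theorem rpow_inv_pow {s : ℕ} (hs : 1 ≤ s) (M : ℕ) : ((M : ℝ) ^ (1 / (s : ℝ))) ^ s = M := by
  rw [← Real.rpow_natCast, ← Real.rpow_mul (Nat.cast_nonneg _), one_div,
    inv_mul_cancel₀ (by exact_mod_cast (by omega : s ≠ 0)), Real.rpow_one]

/-- Chunk RT -/
theorem rt_pow_le {s : ℕ} (hs : 1 ≤ s) (M : ℕ) : rt s M ^ s ≤ M := by
  have h1 : ((rt s M : ℝ)) ^ s ≤ M := by
    calc ((rt s M : ℝ)) ^ s ≤ ((M : ℝ) ^ (1 / (s : ℝ))) ^ s :=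
          pow_le_pow_left₀ (Nat.cast_nonneg _) (rt_le_rpow s M) s
      _ = M := rpow_inv_pow hs M
  exact_mod_cast h1

/-- Chunk RT -/
theorem lt_rt_succ_pow {s : ℕ} (hs : 1 ≤ s) (M : ℕ) : M < (rt s M + 1) ^ s := by
  have h1 : (M : ℝ) < ((rt s M : ℝ) + 1) ^ s := by
    calc (M : ℝ) = ((M : ℝ) ^ (1 / (s : ℝ))) ^ s := (rpow_inv_pow hs M).symm
      _ < ((rt s M : ℝ) + 1) ^ s :=
          pow_lt_pow_left₀ (rpow_lt_rt_succ s M) (Real.rpow_nonneg (Nat.cast_nonneg _) _)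
            (by omega)
  exact_mod_cast h1

/-- Chunk RT -/
theorem rt_tendsto {s : ℕ} (hs : 1 ≤ s) : Filter.Tendsto (rt s) Filter.atTop Filter.atTop := by
  have h1 : Filter.Tendsto (fun M : ℕ => (M : ℝ) ^ (1 / (s : ℝ))) Filter.atTop Filter.atTop :=
    (tendsto_rpow_atTop (by positivity)).comp tendsto_natCast_atTop_atTop
  exact tendsto_nat_floor_atTop.comp h1

/-- Chunk RT -/
theorem rt_mono_pow {s t : ℕ} (hs : 1 ≤ s) (ht : 1 ≤ t) (M : ℕ) : rt (s * t) M ^ t ≤ rt s M := by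
  apply Nat.le_floor
  push_cast
  calc ((rt (s * t) M : ℝ)) ^ t ≤ ((M : ℝ) ^ (1 / ((s * t : ℕ) : ℝ))) ^ t :=
        pow_le_pow_left₀ (Nat.cast_nonneg _) (rt_le_rpow (s * t) M) t
    _ = (M : ℝ) ^ (1 / (s : ℝ)) := by
        rw [← Real.rpow_natCast, ← Real.rpow_mul (Nat.cast_nonneg _)]
        congr 1
        have h1 : (s : ℝ) ≠ 0 := by exact_mod_cast (by omega : s ≠ 0)
        have h2 : (t : ℝ) ≠ 0 := by exact_mod_cast (by omega : t ≠ 0)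
        push_cast
        field_simp

/-- Chunk RT -/
theorem log_le_rt {s : ℕ} (hs : 1 ≤ s) : ∃ M0 : ℕ, ∀ M ≥ M0,
    Real.log M ≤ 2 * s * Real.log (rt s M) := by
  obtain ⟨M0, hM0⟩ := Filter.eventually_atTop.mp
    ((rt_tendsto hs).eventually (Filter.eventually_ge_atTop 2))
  refine ⟨M0 + 1, fun M hM => ?_⟩
  have h2 : 2 ≤ rt s M := hM0 M (by omega)
  have h2' : (2 : ℝ) ≤ rt s M := by exact_mod_cast h2
  have hMpos : (0 : ℝ) < M := by exact_mod_cast (by omega : 0 < M)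
  have h3 : (M : ℝ) ≤ ((rt s M : ℝ) + 1) ^ s := by exact_mod_cast (lt_rt_succ_pow hs M).le
  have h4 : ((rt s M : ℝ) + 1) ≤ (rt s M : ℝ) ^ 2 := by nlinarith
  have h5 : (M : ℝ) ≤ ((rt s M : ℝ) ^ 2) ^ s :=
    h3.trans (pow_le_pow_left₀ (by positivity) h4 s)
  have h6 := Real.log_le_log hMpos h5
  rw [← pow_mul, Real.log_pow] at h6
  push_cast at h6
  calc Real.log M ≤ 2 * s * Real.log (rt s M) := h6

end Pool.Agent.Lib.H18GB
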