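import Pool.Agent.Lib.H18GB.Corr
import Pool.Agent.Lib.H18GB.Ers
import Pool.Agent.Lib.H18GB.Tools4

/-!
# Project GB: SR

Throughout `S` is a set of primes in `(w, z]`, `IsW w W`, and all intervals have length at least
`z ^ (C A)`; errors are `er C A w = 2^(-A/C) + w^(-1/C)`, and powers `er^(1/2)` etc. are absorbed
by increasing `C`. All sums of products of `rho`'s come from `corr0` / `corr`: the error terms are
`Ers (9/10) S (discriminant)` with discriminants affine in the averaged variables, with coefficient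
`± W^i * (1, 2 or 3)` or a prime `> z`; use `ers_mul`, `ers_pow_le`, `ers_avg`.
The error term `z^(A+k)` is `≤ er * (length)` when `z ^ (C A) ≤ length`.
-/

namespace Pool.Agent.Lib.H18GB

open Finset Pool.Agent.Lib.Sieve

theorem norm_sq_sum_le {ι : Type*} (s : Finset ι) (f : ι → ℂ) :
    ‖∑ i ∈ s, f i‖ ^ 2 ≤ s.card * ∑ i ∈ s, ‖f i‖ ^ 2 := by
  calc ‖∑ i ∈ s, f i‖ ^ 2 ≤ (∑ i ∈ s, ‖f i‖) ^ 2 :=
        pow_le_pow_left₀ (norm_nonneg _) (norm_sum_le _ _) 2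
    _ ≤ s.card * ∑ i ∈ s, ‖f i‖ ^ 2 := sq_sum_le_card_mul_sum_sq

/-- The Cauchy-Schwarz part of `sr`. -/
theorem sr_cs (M : ℕ) (F g : ℤ → ℂ) (hF : ∀ n, n ∉ Finset.Ico (0 : ℤ) M → F n = 0)
    (hg : ∀ n, n ∉ Finset.Ico (0 : ℤ) M → g n = 0) (H : Finset ℤ)
    (hH : H ⊆ Finset.Ioo (-(M : ℤ)) M) (c : ℤ → ℂ) (θ : ℤ → ℝ) (hc : ∀ h, ‖c h‖ ≤ 1) :
    (‖∑ h ∈ H, c h * ∑ n ∈ Finset.Ico (0 : ℤ) M, F n * g (n + h) * e (θ h * n)‖ ^ 2) ^ 2 ≤
      16 * M ^ 4 * ∑ k ∈ Finset.Ioo (-(M : ℤ)) M, ∑ j ∈ Finset.Ioo (-(M : ℤ)) M,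
        ‖∑ n ∈ Finset.Ico (0 : ℤ) M, (F n * (starRingEnd ℂ) (F (n + k))) *
          (starRingEnd ℂ) (F (n + j) * (starRingEnd ℂ) (F (n + j + k)))‖ *
        ‖∑ n ∈ Finset.Ico (0 : ℤ) M, (g n * (starRingEnd ℂ) (g (n + k))) *
          (starRingEnd ℂ) (g (n + j) * (starRingEnd ℂ) (g (n + j + k)))‖ := by
  set K := Finset.Ioo (-(M : ℤ)) M with hK
  set I := Finset.Ico (0 : ℤ) M with hI
  have hMn : (0 : ℝ) ≤ M := by positivity
  have hcardK : (K.card : ℝ) ≤ 2 * M := card_Ioo_le M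
  have hcardH : (H.card : ℝ) ≤ 2 * M :=
    le_trans (by exact_mod_cast Finset.card_le_card hH) hcardK
  -- first Cauchy-Schwarz
  have h1 : ‖∑ h ∈ H, c h * ∑ n ∈ I, F n * g (n + h) * e (θ h * n)‖ ^ 2 ≤
      2 * M * ∑ h ∈ H, ‖∑ n ∈ I, F n * g (n + h) * e (θ h * n)‖ ^ 2 := by
    refine (norm_sq_sum_le _ _).trans ?_
    refine mul_le_mul hcardH ?_ (Finset.sum_nonneg fun _ _ => by positivity) (by positivity)
    apply Finset.sum_le_sum
    intro h _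
    rw [norm_mul]
    apply pow_le_pow_left₀ (by positivity)
    calc ‖c h‖ * ‖∑ n ∈ I, F n * g (n + h) * e (θ h * n)‖ ≤
        1 * ‖∑ n ∈ I, F n * g (n + h) * e (θ h * n)‖ := by gcongr; exact hc h
      _ = _ := one_mul _
  -- opening the square
  set B : ℤ → ℤ → ℂ := fun h k => ∑ n ∈ I, (F n * (starRingEnd ℂ) (F (n + k))) *
    (g (n + h) * (starRingEnd ℂ) (g (n + h + k))) with hB
  have h2 : ∀ h : ℤ, ‖∑ n ∈ I, F n * g (n + h) * e (θ h * n)‖ ^ 2 ≤ ∑ k ∈ K, ‖B h k‖ := by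
    intro h
    have hexp := normsq_expand (L := M) (a := fun n => F n * g (n + h) * e (θ h * n))
      (by intro n hn; simp only [hF n hn]; simp)
    have h3 : ‖(((‖∑ n ∈ I, F n * g (n + h) * e (θ h * n)‖ ^ 2 : ℝ)) : ℂ)‖ =
        ‖∑ n ∈ I, F n * g (n + h) * e (θ h * n)‖ ^ 2 := by
      rw [Complex.norm_real, Real.norm_of_nonneg (by positivity)]
    rw [← h3, hexp]
    refine (norm_sum_le _ _).trans (Finset.sum_le_sum fun k _ => ?_)
    have h4 : ∑ n ∈ I, F n * g (n + h) * e (θ h * n) *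
        (starRingEnd ℂ) (F (n + k) * g (n + k + h) * e (θ h * ((n + k : ℤ) : ℝ))) =
        B h k * e (-(θ h * k)) := by
      rw [hB, Finset.sum_mul]
      apply Finset.sum_congr rfl
      intro n _
      rw [map_mul, map_mul, ← e_neg]
      have : e (θ h * n) * e (-(θ h * ((n + k : ℤ) : ℝ))) = e (-(θ h * k)) := by
        rw [← e_add]
        congr 1
        push_cast
        ring
      rw [← this, add_right_comm n h k]
      ring
    rw [h4, norm_mul, norm_e, mul_one]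
  have h5 : ∑ h ∈ H, ‖∑ n ∈ I, F n * g (n + h) * e (θ h * n)‖ ^ 2 ≤
      ∑ h ∈ K, ∑ k ∈ K, ‖B h k‖ :=
    (Finset.sum_le_sum fun h _ => h2 h).trans
      (Finset.sum_le_sum_of_subset_of_nonneg hH fun _ _ _ =>
        Finset.sum_nonneg fun _ _ => norm_nonneg _)
  -- second Cauchy-Schwarz
  have h6 : (∑ h ∈ K, ∑ k ∈ K, ‖B h k‖) ^ 2 ≤ (2 * M) ^ 2 * ∑ k ∈ K, ∑ h ∈ K, ‖B h k‖ ^ 2 := by
    rw [← Finset.sum_product', Finset.sum_comm, ← Finset.sum_product']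
    have := sq_sum_le_card_mul_sum_sq (s := K ×ˢ K) (f := fun x : ℤ × ℤ => ‖B x.1 x.2‖)
    have hc' : ((K ×ˢ K).card : ℝ) ≤ (2 * M) ^ 2 := by
      rw [Finset.card_product]
      push_cast
      rw [sq]
      exact mul_le_mul hcardK hcardK (by positivity) (by positivity)
    exact this.trans (mul_le_mul_of_nonneg_right hc' (Finset.sum_nonneg fun _ _ => by positivity))
  have h7 : ∀ k : ℤ, ∑ h ∈ K, ‖B h k‖ ^ 2 ≤ ∑ j ∈ K,
      ‖∑ n ∈ I, (F n * (starRingEnd ℂ) (F (n + k))) *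
          (starRingEnd ℂ) (F (n + j) * (starRingEnd ℂ) (F (n + j + k)))‖ *
        ‖∑ n ∈ I, (g n * (starRingEnd ℂ) (g (n + k))) *
          (starRingEnd ℂ) (g (n + j) * (starRingEnd ℂ) (g (n + j + k)))‖ := by
    intro k
    have hcc := cross_corr (L := M) (P := fun n => F n * (starRingEnd ℂ) (F (n + k)))
      (Q := fun n => g n * (starRingEnd ℂ) (g (n + k)))
      (by intro n hn; simp only [hF n hn]; simp) (by intro n hn; simp only [hg n hn]; simp)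
    have h8 : ∑ h ∈ K, ‖B h k‖ ^ 2 = ‖((∑ h ∈ K, ‖B h k‖ ^ 2 : ℝ) : ℂ)‖ := by
      rw [Complex.norm_real, Real.norm_of_nonneg (Finset.sum_nonneg fun _ _ => by positivity)]
    rw [h8]
    have h9 : ((∑ h ∈ K, ‖B h k‖ ^ 2 : ℝ) : ℂ) = _ := hcc
    rw [h9]
    refine (norm_sum_le _ _).trans (Finset.sum_le_sum fun j _ => ?_)
    rw [norm_mul]
  calc (‖∑ h ∈ H, c h * ∑ n ∈ I, F n * g (n + h) * e (θ h * n)‖ ^ 2) ^ 2
      ≤ (2 * M * ∑ h ∈ K, ∑ k ∈ K, ‖B h k‖) ^ 2 := by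
        apply pow_le_pow_left₀ (by positivity)
        exact h1.trans (mul_le_mul_of_nonneg_left h5 (by positivity))
    _ = (2 * M) ^ 2 * (∑ h ∈ K, ∑ k ∈ K, ‖B h k‖) ^ 2 := by ring
    _ ≤ (2 * M) ^ 2 * ((2 * M) ^ 2 * ∑ k ∈ K, ∑ h ∈ K, ‖B h k‖ ^ 2) := by gcongr
    _ = 16 * M ^ 4 * ∑ k ∈ K, ∑ h ∈ K, ‖B h k‖ ^ 2 := by ring
    _ ≤ _ := by
        apply mul_le_mul_of_nonneg_left _ (by positivity)
        exact Finset.sum_le_sum fun k _ => h7 k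

/-- Chunk SR. Write `F = (ρ(r1 + W ·) - 1) 1_{[0,M)}`, `X` the sum. Cauchy-Schwarz over `h ∈ H`:
`|X|^2 ≤ 2M ∑_{h ∈ H} |∑_n F(n) g(n+h) e(θ_h n)|^2
  = 2M ∑_{h ∈ H, |k| < M} e(-θ_h k) ∑_n F(n) F(n+k) g(n+h) conj g(n+k+h)`,
Cauchy-Schwarz over `(h,k)` and extension of the sum to all integers `h`:
`|X|^4 ≤ C M^4 ∑_{k,j} |D_F(k,j)| |D_g(k,j)|`, `D_F(k,j) = ∑_n F(n)F(n+k)F(n+j)F(n+j+k)` (with
conjugates for `g`). By `corr0 4` (expanding), `|D_F(k,j)| ≤ M E(k,j)`,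
`|D_g(k,j)| ≤ κ^4 M (16 + E(k,j))`, `E` = combination of `er` and of `Ers (9/10) S` at `k, j, j+k,
j-k`; average over `(k,j)` using `ers_pow_le`, `ers_avg`. -/
theorem sr : ∃ C : ℕ, 1 ≤ C ∧ ∀ (A w z W M : ℕ) (S : Finset ℕ), C ≤ A → C ≤ w → 2 ≤ z →
    PSet w z S → IsW w W → z ^ (C * A) ≤ M → ∀ (r1 r2 : ℤ) (κ : ℝ) (g : ℤ → ℂ), 1 ≤ κ →
    Maj κ S W r2 g → SuppIn 0 M g → ∀ (H : Finset ℤ), H ⊆ Finset.Ioo (-(M : ℤ)) M →
    ∀ (c : ℤ → ℂ) (θ : ℤ → ℝ), (∀ h, ‖c h‖ ≤ 1) →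
    ‖∑ h ∈ H, c h * ∑ n ∈ Finset.Ico (0 : ℤ) M,
      ((rho S (r1 + W * n) - 1 : ℝ) : ℂ) * g (n + h) * e (θ h * n)‖ ≤ C * κ * er C A w * M ^ 2 := by
  obtain ⟨C1, hC11, hC1⟩ := par_m1
  obtain ⟨C2, hC21, hC2⟩ := par_p1
  obtain ⟨C3, hC31, hC3⟩ := ShE_four_pow
  obtain ⟨C4, hC41, hC4⟩ := QE_avg
  set C5 := 16 * C1 * C2 * (4 + 4 * C3 * C4) + (C1 + C2 + C4) with hC5
  have hb1 : C1 ≤ C5 := by rw [hC5]; exact le_add_left (by omega)
  have hb2 : C2 ≤ C5 := by rw [hC5]; exact le_add_left (by omega)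
  have hb4 : C4 ≤ C5 := by rw [hC5]; exact le_add_left (by omega)
  have hb5 : 1 ≤ C5 := hC11.trans hb1
  refine ⟨2 * (2 * C5), by omega, ?_⟩
  intro A w z W M S hA hw hz hS hW hM r1 r2 κ g hκ hg hgs H hH c θ hc
  have hw1 : 1 ≤ w := by omega
  have hzM : ∀ c, c ≤ 2 * (2 * C5) → z ^ (c * A) ≤ M := fun c hc =>
    (Nat.pow_le_pow_right (by omega) (Nat.mul_le_mul_right A hc)).trans hM
  set F : ℤ → ℂ := fun n => ((rm1 S W r1 M n : ℝ) : ℂ) with hF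
  have hF0 : ∀ n, n ∉ Finset.Ico (0 : ℤ) M → F n = 0 := by
    intro n hn
    simp only [hF, rm1, if_neg hn]
    simp
  have hX : ∑ h ∈ H, c h * ∑ n ∈ Finset.Ico (0 : ℤ) M,
      ((rho S (r1 + W * n) - 1 : ℝ) : ℂ) * g (n + h) * e (θ h * n) =
      ∑ h ∈ H, c h * ∑ n ∈ Finset.Ico (0 : ℤ) M, F n * g (n + h) * e (θ h * n) := by
    apply Finset.sum_congr rfl
    intro h _
    congr 1
    apply Finset.sum_congr rfl
    intro n hn
    simp only [hF, rm1, if_pos hn]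
  rw [hX]
  have hcs := sr_cs M F g hF0 hgs H hH c θ hc
  set X := ‖∑ h ∈ H, c h * ∑ n ∈ Finset.Ico (0 : ℤ) M, F n * g (n + h) * e (θ h * n)‖ with hXdef
  set K := Finset.Ioo (-(M : ℤ)) M with hK
  have hκ0 : 0 ≤ κ := by linarith
  have hMn : (0 : ℝ) ≤ M := by positivity
  have her5 : er C1 A w ≤ er C5 A w := tls_er_mono hC11 hb1 hw1
  have her45 : er C4 A w ≤ er C5 A w := tls_er_mono hC41 hb4 hw1
  have herle : er C1 A w ≤ 2 := tls_er_le_two hw1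
  have hern := er_nonneg C1 A w
  have hern5 := er_nonneg C5 A w
  -- the two correlations
  have hDF : ∀ k j : ℤ, ‖∑ n ∈ Finset.Ico (0 : ℤ) M, (F n * (starRingEnd ℂ) (F (n + k))) *
      (starRingEnd ℂ) (F (n + j) * (starRingEnd ℂ) (F (n + j + k)))‖ ≤
      C1 * M * (er C1 A w + ShE S ![0, k, j, j + k]) := by
    intro k j
    have h := hC1 A w z W M S (by omega) (by omega) hz hS hW (hzM _ (by omega)) r1 k j
    have e1 : ∑ n ∈ Finset.Ico (0 : ℤ) M, (F n * (starRingEnd ℂ) (F (n + k))) *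
        (starRingEnd ℂ) (F (n + j) * (starRingEnd ℂ) (F (n + j + k))) =
        ((∑ x ∈ Finset.Ico (0 : ℤ) M, rm1 S W r1 M x * rm1 S W r1 M (x + k) *
      (rm1 S W r1 M (x + j) * rm1 S W r1 M (x + j + k)) : ℝ) : ℂ) := by
      push_cast
      apply Finset.sum_congr rfl
      intro n _
      simp only [hF, map_mul, Complex.conj_ofReal]
    rw [e1, Complex.norm_real, Real.norm_eq_abs]
    exact h
  have hDG : ∀ k j : ℤ, ‖∑ n ∈ Finset.Ico (0 : ℤ) M, (g n * (starRingEnd ℂ) (g (n + k))) *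
      (starRingEnd ℂ) (g (n + j) * (starRingEnd ℂ) (g (n + j + k)))‖ ≤
      C2 * κ ^ 4 * M * (1 + ShE S ![0, k, j, j + k]) := by
    intro k j
    have h := hC2 A w z W M S (by omega) (by omega) hz hS hW (hzM _ (by omega)) r2 κ g hκ0 hg k j
    refine ((norm_sum_le _ _).trans (le_of_eq ?_)).trans h
    apply Finset.sum_congr rfl
    intro n _
    simp only [norm_mul, RCLike.norm_conj]
  -- product and average
  have hprod : ∀ k j : ℤ, ‖∑ n ∈ Finset.Ico (0 : ℤ) M, (F n * (starRingEnd ℂ) (F (n + k))) *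
      (starRingEnd ℂ) (F (n + j) * (starRingEnd ℂ) (F (n + j + k)))‖ *
      ‖∑ n ∈ Finset.Ico (0 : ℤ) M, (g n * (starRingEnd ℂ) (g (n + k))) *
      (starRingEnd ℂ) (g (n + j) * (starRingEnd ℂ) (g (n + j + k)))‖ ≤
      (C1 * C2 * κ ^ 4 * M ^ 2) * (er C5 A w + 4 * C3 * QE S k j) := by
    intro k j
    obtain ⟨q1, q2⟩ := hC3 w z S hS k j
    have hn := ShE_nonneg S ![0, k, j, j + k]
    have hQ := QE_nonneg S k j
    calc _ ≤ (C1 * M * (er C1 A w + ShE S ![0, k, j, j + k])) *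
          (C2 * κ ^ 4 * M * (1 + ShE S ![0, k, j, j + k])) :=
          mul_le_mul (hDF k j) (hDG k j) (norm_nonneg _) (by positivity)
      _ = (C1 * C2 * κ ^ 4 * M ^ 2) * (er C1 A w + (1 + er C1 A w) * ShE S ![0, k, j, j + k] +
          ShE S ![0, k, j, j + k] ^ 2) := by ring
      _ ≤ (C1 * C2 * κ ^ 4 * M ^ 2) * (er C5 A w + 4 * C3 * QE S k j) := by
          apply mul_le_mul_of_nonneg_left _ (by positivity)
          have : (1 + er C1 A w) * ShE S ![0, k, j, j + k] ≤ 3 * (C3 * QE S k j) :=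
            mul_le_mul (by linarith) q1 hn (by norm_num)
          linarith
  have hcard := card_Ioo_le M
  rw [← hK] at hcard
  have hsum : ∑ k ∈ K, ∑ j ∈ K, ‖∑ n ∈ Finset.Ico (0 : ℤ) M, (F n * (starRingEnd ℂ) (F (n + k))) *
      (starRingEnd ℂ) (F (n + j) * (starRingEnd ℂ) (F (n + j + k)))‖ *
      ‖∑ n ∈ Finset.Ico (0 : ℤ) M, (g n * (starRingEnd ℂ) (g (n + k))) *
      (starRingEnd ℂ) (g (n + j) * (starRingEnd ℂ) (g (n + j + k)))‖ ≤
      (C1 * C2 * κ ^ 4 * M ^ 2) * ((4 + 4 * C3 * C4) * M ^ 2 * er C5 A w) := by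
    calc _ ≤ ∑ k ∈ K, ∑ j ∈ K, (C1 * C2 * κ ^ 4 * M ^ 2) * (er C5 A w + 4 * C3 * QE S k j) :=
          Finset.sum_le_sum fun k _ => Finset.sum_le_sum fun j _ => hprod k j
      _ = (C1 * C2 * κ ^ 4 * M ^ 2) * ((K.card * K.card) * er C5 A w +
          4 * C3 * ∑ k ∈ K, ∑ j ∈ K, QE S k j) := by
          simp only [← Finset.mul_sum, Finset.sum_add_distrib, Finset.sum_const, nsmul_eq_mul]
          ring
      _ ≤ (C1 * C2 * κ ^ 4 * M ^ 2) * (((2 * M) * (2 * M)) * er C5 A w +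
          4 * C3 * (C4 * M ^ 2 * er C5 A w)) := by
          apply mul_le_mul_of_nonneg_left _ (by positivity)
          apply add_le_add
          · exact mul_le_mul_of_nonneg_right
              (mul_le_mul hcard hcard (by positivity) (by positivity)) hern5
          · apply mul_le_mul_of_nonneg_left _ (by positivity)
            exact (hC4 A w z M S (by omega) (by omega) hz hS (hzM _ (by omega))).trans
              (mul_le_mul_of_nonneg_left her45 (by positivity))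
      _ = _ := by ring
  have hC5r : 16 * C1 * C2 * (4 + 4 * C3 * C4) ≤ (C5 : ℝ) := by
    rw [hC5]; push_cast
    have : (0 : ℝ) ≤ C1 + C2 + C4 := by positivity
    linarith
  have hC51 : (1 : ℝ) ≤ C5 := by exact_mod_cast hb5
  have h4 : (X ^ 2) ^ 2 ≤ C5 * (κ ^ 2 * M ^ 4) ^ 2 * er C5 A w := by
    calc (X ^ 2) ^ 2 ≤ 16 * M ^ 4 * ((C1 * C2 * κ ^ 4 * M ^ 2) *
          ((4 + 4 * C3 * C4) * M ^ 2 * er C5 A w)) :=
          hcs.trans (mul_le_mul_of_nonneg_left hsum (by positivity))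
      _ = (16 * C1 * C2 * (4 + 4 * C3 * C4)) * ((κ ^ 2 * M ^ 4) ^ 2 * er C5 A w) := by ring
      _ ≤ C5 * ((κ ^ 2 * M ^ 4) ^ 2 * er C5 A w) :=
          mul_le_mul_of_nonneg_right hC5r (by positivity)
      _ = _ := by ring
  have h2 : X ^ 2 ≤ C5 * (κ ^ 2 * M ^ 4) * er (2 * C5) A w :=
    sq_finish (by positivity) hC51 (by positivity) h4
  have h3 : X ^ 2 ≤ C5 * (κ * M ^ 2) ^ 2 * er (2 * C5) A w := by
    refine h2.trans (le_of_eq ?_)
    ring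
  have h1 : X ≤ C5 * (κ * M ^ 2) * er (2 * (2 * C5)) A w :=
    sq_finish (norm_nonneg _) hC51 (by positivity) h3
  refine h1.trans ?_
  have hfin := er_nonneg (2 * (2 * C5)) A w
  push_cast
  have : 0 ≤ κ * M ^ 2 * er (2 * (2 * C5)) A w := by positivity
  nlinarith

end Pool.Agent.Lib.H18GB
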