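import Pool.Agent.Lib.H18GB.STR
import Pool.Agent.Lib.H18GB.CHR
import Pool.Agent.Lib.H18GB.QC
import Pool.Agent.Lib.H18GB.GC

/-!
# The Type II structural theorem (assembly of STR, CHR, QC, GC)
-/

namespace Pool.Agent.Lib.H18GB

open Finset Pool.Agent.Lib.Sieve

/-- the part `2^(-A/C)` of `er` -/
theorem st_two {K C A a b : ℕ} {ρ : ℝ} (hρ0 : 0 < ρ) (hρ1 : ρ ≤ 1) (hC : 1 ≤ C) (hCK : C ≤ K)
    (ha : a ≤ K) (hb : b ≤ K) (hb0 : 1 ≤ b) (h : K * (2 : ℝ) ^ (-(A : ℝ) / K) ≤ ρ ^ K) :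
    (2 : ℝ) ^ (-(A : ℝ) / C) ≤ ρ ^ a / b := by
  have hCr : (0 : ℝ) < C := by exact_mod_cast hC
  have hKr : (0 : ℝ) < K := by exact_mod_cast (lt_of_lt_of_le hC hCK)
  have hbr : (0 : ℝ) < b := by exact_mod_cast hb0
  have hCK' : (C : ℝ) ≤ K := by exact_mod_cast hCK
  have hbK : (b : ℝ) ≤ K := by exact_mod_cast hb
  have h1 : (2 : ℝ) ^ (-(A : ℝ) / C) ≤ (2 : ℝ) ^ (-(A : ℝ) / K) := by
    apply Real.rpow_le_rpow_of_exponent_le (by norm_num)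
    rw [neg_div, neg_div, neg_le_neg_iff]
    exact div_le_div_of_nonneg_left (Nat.cast_nonneg _) hCr hCK'
  have h2 : (2 : ℝ) ^ (-(A : ℝ) / K) ≤ ρ ^ K / K := by
    rw [le_div_iff₀ hKr]
    linarith
  have h3 : ρ ^ K ≤ ρ ^ a := pow_le_pow_of_le_one hρ0.le hρ1 ha
  have h4 : ρ ^ K / K ≤ ρ ^ a / b := div_le_div₀ (by positivity) h3 hbr hbK
  linarith

/-- the part `w^(-1/C)` of `er` -/
theorem st_w (K : ℕ) (hK : 1 ≤ K) (η : ℝ) (hη : 0 < η) : ∃ w0 : ℕ, ∀ w : ℕ, w0 ≤ w →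
    (w : ℝ) ^ (-(1 : ℝ) / K) ≤ η := by
  have hK' : (0 : ℝ) < K := by exact_mod_cast hK
  have h := (tendsto_rpow_neg_atTop (y := (1 : ℝ) / K) (by positivity)).comp
    (tendsto_natCast_atTop_atTop (R := ℝ))
  have h1 := (h.eventually (Iio_mem_nhds hη))
  obtain ⟨A0, hA0⟩ := Filter.eventually_atTop.mp h1
  refine ⟨A0, fun A hA => ?_⟩
  have h2 := hA0 A hA
  simp only [Function.comp] at h2
  rw [neg_div]
  exact h2.le

open Classical in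
/-- If the Type II sum is a positive proportion of its trivial bound, then a positive proportion of
the pairs of `H` congruent mod `W` have `θ h - θ h'` near `(1/(Q W^2)) ℤ`. -/
theorem st : ∃ K : ℕ, 1 ≤ K ∧ ∀ (δ κ : ℝ) (A : ℕ), 0 < δ → δ ≤ 1 → 1 ≤ κ → K ≤ A →
    K * (2 : ℝ) ^ (-(A : ℝ) / K) ≤ (δ / κ) ^ K →
    ∃ (c : ℝ) (Q T w0 : ℕ), 0 < c ∧ 1 ≤ Q ∧ ∀ (w W : ℕ), w0 ≤ w → IsW w W →
    ∃ y0 : ℕ, ∀ (y B M : ℕ) (r b0 : ℤ) (P : Finset ℕ) (H : Finset ℤ), y0 ≤ y →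
    Cfg w W y B M r b0 P H → y ^ (K * A) ≤ B → T * B ^ 2 ≤ M →
    ∀ (β g c' : ℤ → ℂ) (θ : ℤ → ℝ), BetaOK (sprimes w y) β → Maj κ (sprimes w y) W r g →
    SuppIn 0 M g → (∀ h, ‖c' h‖ ≤ 1) →
    δ * VV (sprimes w y) ^ 2 * M ^ 2 / W ≤
      ‖∑ h ∈ H, c' h * ∑ n ∈ Finset.Ico (0 : ℤ) M, fII W r P β n * g (n + h) * e (θ h * n)‖ →
    c * M ^ 2 / W ≤ (((H ×ˢ H).filter fun q =>
      (W : ℤ) ∣ q.1 - q.2 ∧ Near Q W T M (θ q.1 - θ q.2)).card : ℝ) := by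
  obtain ⟨K1, hK1, hstr⟩ := str
  obtain ⟨K2, hK2, hchr⟩ := chr
  obtain ⟨K3, hK3, hqc⟩ := qc
  set a1 := K1 with ha1
  set b1 := 2 * K1 with hb1
  set a2 := K1 * K2 with ha2
  set b2 := 2 * K2 * K1 ^ K2 with hb2
  set a3 := K1 * K2 * K3 with ha3
  set b3 := 2 * (K3 * K2) * (K1 ^ K2 * K2) ^ K3 with hb3
  have hb1' : 1 ≤ b1 := by omega
  have hb2' : 1 ≤ b2 := by
    have : 0 < K1 ^ K2 := by positivity
    have : 0 < 2 * K2 * K1 ^ K2 := by positivity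
    omega
  have hb3' : 1 ≤ b3 := by
    have : 0 < 2 * (K3 * K2) * (K1 ^ K2 * K2) ^ K3 := by positivity
    omega
  refine ⟨K1 + K2 + K3 + a2 + a3 + b1 + b2 + b3, by omega, ?_⟩
  set K := K1 + K2 + K3 + a2 + a3 + b1 + b2 + b3 with hK
  intro δ κ A hδ0 hδ1 hκ hKA hKer
  have hκ0 : 0 < κ := by linarith
  set ρ := δ / κ with hρ
  have hρ0 : 0 < ρ := by positivity
  have hρ1 : ρ ≤ 1 := by
    rw [hρ, div_le_one hκ0]
    linarith
  have hK1r : (1 : ℝ) ≤ K1 := by exact_mod_cast hK1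
  have hK2r : (1 : ℝ) ≤ K2 := by exact_mod_cast hK2
  have hK3r : (1 : ℝ) ≤ K3 := by exact_mod_cast hK3
  set c0 : ℝ := ρ ^ K1 / K1 with hc0
  have hc00 : 0 < c0 := by positivity
  have hc01 : c0 ≤ 1 := by
    rw [hc0, div_le_one (by linarith)]
    exact (pow_le_one₀ hρ0.le hρ1).trans hK1r
  set C1 : ℝ := K1 * (κ / δ) ^ K1 with hC1
  have hC11 : 1 ≤ C1 := by
    have : 1 ≤ κ / δ := by
      rw [le_div_iff₀ hδ0]
      linarith
    have := one_le_pow₀ this (n := K1)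
    rw [hC1]
    nlinarith
  set δ' : ℝ := c0 ^ K2 / K2 with hδ'
  have hδ'0 : 0 < δ' := by positivity
  have hδ'1 : δ' ≤ 1 := by
    rw [hδ', div_le_one (by linarith)]
    exact (pow_le_one₀ hc00.le hc01).trans hK2r
  obtain ⟨Q, T, w3, hQ, hqc'⟩ := hqc δ' (8 * C1) A hδ'0 hδ'1 (by linarith) (by omega)
  obtain ⟨c', hc', hgc⟩ := gc δ' hδ'0
  -- choice of `w`
  obtain ⟨w4, hw4⟩ := st_w K1 hK1 (ρ ^ K1 / b1) (by positivity)
  obtain ⟨w5, hw5⟩ := st_w K2 hK2 (ρ ^ a2 / b2) (by positivity)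
  obtain ⟨w6, hw6⟩ := st_w K2 hK2 (ρ ^ a3 / b3) (by positivity)
  refine ⟨c', Q, 2 * T, w3 + w4 + w5 + w6 + K, hc', hQ, ?_⟩
  intro w W hw hW
  obtain ⟨y0, hy0⟩ := hqc' w W (by omega) hW
  refine ⟨y0, ?_⟩
  intro y B M r b0 P H hy hcfg hyB hTM β g cc θ hβ hg hgs hcc hbig
  have hW1 : 1 ≤ W := hW.1
  have hy1 : 1 ≤ y := by
    have := hcfg.Wy
    have : 0 < W ^ 4 := by positivity
    omega
  have hpow : ∀ Ki, Ki ≤ K → y ^ (Ki * A) ≤ B := fun Ki hKi =>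
    (Nat.pow_le_pow_right hy1 (Nat.mul_le_mul_right A hKi)).trans hyB
  -- the errors
  have e1 : K1 * er K1 A w ≤ ρ ^ K1 := by
    have h1 := st_two (a := a1) (b := b1) hρ0 hρ1 hK1 (by omega : K1 ≤ K) (by omega) (by omega)
      hb1' hKer
    have h2 := hw4 w (by omega)
    unfold er
    have h3 : (2 : ℝ) ^ (-(A : ℝ) / K1) + (w : ℝ) ^ (-(1 : ℝ) / K1) ≤ ρ ^ K1 / K1 := by
      have : ρ ^ K1 / K1 = ρ ^ K1 / (b1 : ℕ) + ρ ^ K1 / (b1 : ℕ) := by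
        rw [hb1]
        push_cast
        field_simp
        ring
      rw [this]
      exact add_le_add h1 h2
    rw [le_div_iff₀ (by linarith)] at h3
    linarith
  have e2 : K2 * er K2 A w ≤ c0 ^ K2 := by
    have h1 := st_two (a := a2) (b := b2) hρ0 hρ1 hK2 (by omega : K2 ≤ K) (by omega) (by omega)
      hb2' hKer
    have h2 := hw5 w (by omega)
    unfold er
    have h3 : (2 : ℝ) ^ (-(A : ℝ) / K2) + (w : ℝ) ^ (-(1 : ℝ) / K2) ≤ c0 ^ K2 / K2 := by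
      have : c0 ^ K2 / K2 = ρ ^ a2 / (b2 : ℕ) + ρ ^ a2 / (b2 : ℕ) := by
        rw [hb2, hc0, ha2, div_pow, ← pow_mul]
        push_cast
        field_simp
        ring
      rw [this]
      exact add_le_add h1 h2
    rw [le_div_iff₀ (by linarith)] at h3
    linarith
  have e3 : K3 * (K2 * er K2 A w) ≤ δ' ^ K3 := by
    have h1 := st_two (a := a3) (b := b3) hρ0 hρ1 hK2 (by omega : K2 ≤ K) (by omega) (by omega)
      hb3' hKer
    have h2 := hw6 w (by omega)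
    unfold er
    have h3 : (2 : ℝ) ^ (-(A : ℝ) / K2) + (w : ℝ) ^ (-(1 : ℝ) / K2) ≤ δ' ^ K3 / (K3 * K2) := by
      have : δ' ^ K3 / (K3 * K2) = ρ ^ a3 / (b3 : ℕ) + ρ ^ a3 / (b3 : ℕ) := by
        rw [hb3, hδ', hc0, ha3, div_pow, div_pow, div_pow, ← pow_mul, ← pow_mul, ← pow_mul]
        push_cast
        rw [mul_pow, ← pow_mul, ← mul_assoc]
        field_simp
        ring
      rw [this]
      exact add_le_add h1 h2
    rw [le_div_iff₀ (by positivity)] at h3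
    linarith
  -- STR
  have s1 := hstr δ κ A w W y B M r b0 P H hδ0 hδ1 hκ (by omega) (by omega) e1 hcfg
    (hpow K1 (by omega)) β g cc θ hβ hg hgs hcc hbig
  -- CHR
  obtain ⟨κt, s2⟩ := hchr c0 C1 A w W y B M r b0 P H θ hc00 hc01 hC11 (by omega) (by omega) e2 hcfg
    (hpow K2 (by omega)) s1
  -- QC
  have hTM' : T * B ^ 2 ≤ M := by
    have : T * B ^ 2 ≤ 2 * T * B ^ 2 := Nat.mul_le_mul_right _ (by omega)
    omega
  have s3 : (((Tset W M B H).filter fun q =>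
      Typ (sprimes w y) W b0 ((B / W : ℕ) - 1) (B / W + 3) (K2 * er K2 A w) q.2.2 ∧
      c0 ^ K2 / K2 * VV (sprimes w y) ^ 2 * B / W ≤
        (Bset W P q.2.2 (θ q.2.1 - θ (q.2.1 - q.1 * (W * q.2.2))) (-(W * q.2.2 * κt q.1))
          (8 * C1 * B ^ 2 / M)).card)) ⊆
      (Tset W M B H).filter fun q => Near Q W T M (θ q.2.1 - θ (q.2.1 - q.1 * (W * q.2.2))) := by
    intro q hq
    rw [Finset.mem_filter] at hq ⊢
    obtain ⟨hqT, hqTyp, hqB⟩ := hq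
    refine ⟨hqT, ?_⟩
    unfold Tset at hqT
    rw [Finset.mem_filter, Finset.mem_product, Finset.mem_product, Finset.mem_Icc,
      Finset.mem_Icc] at hqT
    obtain ⟨⟨_, _, hq1, hq2⟩, _, hq3, _⟩ := hqT
    exact hy0 y B M r b0 P H hy hcfg (hpow K3 (by omega)) hTM' (K2 * er K2 A w) q.2.2 e3
      (abs_le.mpr ⟨hq1, hq2⟩) hq3 hqTyp _ _ hqB
  have s4 : δ' * M ^ 2 / W ≤ (((Tset W M B H).filter fun q =>
      Near Q W T M (θ q.2.1 - θ (q.2.1 - q.1 * (W * q.2.2)))).card : ℝ) := by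
    refine s2.trans ?_
    exact_mod_cast Finset.card_le_card s3
  -- GC
  have hWB : W ≤ B := by
    have h1 : W ≤ W ^ 4 := Nat.le_self_pow (by norm_num) W
    have h2 := hcfg.Wy
    have h3 : y ≤ y ^ (K * A) := Nat.le_self_pow (by
      have : 0 < K * A := Nat.mul_pos (by omega) (by omega)
      omega) y
    omega
  have hBM : B ^ 2 ≤ M := by
    have := hcfg.BM
    omega
  exact hgc W B M Q T hW1 hWB hBM hQ H θ hcfg.hH s4

end Pool.Agent.Lib.H18GB
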