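import Pool.Agent.Lib.H18GB.STdefs
import Pool.Agent.Lib.H18GB.Vl

/-!
# Chunk STR, part a: abstract Cauchy-Schwarz steps
-/

namespace Pool.Agent.Lib.H18GB

open Finset Pool.Agent.Lib.Sieve

/-- weighted Cauchy-Schwarz -/
theorem str_cs {α : Type*} (s : Finset α) (u v : α → ℝ) (hu : ∀ a ∈ s, 0 ≤ u a) :
    (∑ a ∈ s, u a * v a) ^ 2 ≤ (∑ a ∈ s, u a) * ∑ a ∈ s, u a * v a ^ 2 :=
  Finset.sum_sq_le_sum_mul_sum_of_sq_le_mul s hu
    (fun a ha => mul_nonneg (hu a ha) (sq_nonneg _)) (fun a _ => le_of_eq (by ring))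

/-- the square of the norm of a sum, expanded -/
theorem str_sq {α : Type*} (s : Finset α) (z : α → ℂ) :
    ((‖∑ a ∈ s, z a‖ ^ 2 : ℝ) : ℂ) = ∑ a ∈ s, ∑ b ∈ s, z a * (starRingEnd ℂ) (z b) := by
  rw [← Complex.normSq_eq_norm_sq, Complex.normSq_eq_conj_mul_self, map_sum, Finset.sum_mul_sum,
    Finset.sum_comm]
  refine Finset.sum_congr rfl fun a _ => Finset.sum_congr rfl fun b _ => ?_
  ring

/-- two applications of Cauchy-Schwarz -/
theorem str_abs {α ι : Type*} (I : Finset α) (Q : Finset ι) (rh : α → ℝ) (V : ℝ)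
    (hrh : ∀ a, 0 ≤ rh a) (β : α → ℂ) (hβ : ∀ a, ‖β a‖ ≤ V * rh a) (g : ι → ℂ) (nu : ι → ℝ)
    (hg : ∀ p, ‖g p‖ ≤ nu p) (U : ι → α → ℂ) :
    ‖∑ a ∈ I, β a * ∑ p ∈ Q, g p * U p a‖ ^ 4 ≤
      V ^ 4 * (∑ a ∈ I, rh a) ^ 2 * (∑ p ∈ Q, nu p) ^ 2 *
        ∑ p ∈ Q, ∑ p' ∈ Q, nu p * nu p' *
          ‖∑ a ∈ I, (rh a : ℂ) * (U p a * (starRingEnd ℂ) (U p' a))‖ ^ 2 := by
  have hnu : ∀ p, 0 ≤ nu p := fun p => le_trans (norm_nonneg _) (hg p)
  set Z : α → ℂ := fun a => ∑ p ∈ Q, g p * U p a with hZ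
  set T : ι → ι → ℝ := fun p p' =>
    ‖∑ a ∈ I, (rh a : ℂ) * (U p a * (starRingEnd ℂ) (U p' a))‖ with hT
  -- first step
  have h1 : ‖∑ a ∈ I, β a * Z a‖ ≤ V * ∑ a ∈ I, rh a * ‖Z a‖ := by
    refine le_trans (norm_sum_le _ _) ?_
    rw [Finset.mul_sum]
    refine Finset.sum_le_sum fun a _ => ?_
    rw [norm_mul, ← mul_assoc]
    exact mul_le_mul_of_nonneg_right (hβ a) (norm_nonneg _)
  have h2 : (∑ a ∈ I, rh a * ‖Z a‖) ^ 2 ≤ (∑ a ∈ I, rh a) * ∑ a ∈ I, rh a * ‖Z a‖ ^ 2 :=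
    str_cs I rh (fun a => ‖Z a‖) (fun a _ => hrh a)
  -- second step
  have h3 : ∑ a ∈ I, rh a * ‖Z a‖ ^ 2 ≤ ∑ p ∈ Q, ∑ p' ∈ Q, nu p * nu p' * T p p' := by
    have e1 : ((∑ a ∈ I, rh a * ‖Z a‖ ^ 2 : ℝ) : ℂ) =
        ∑ p ∈ Q, ∑ p' ∈ Q, g p * (starRingEnd ℂ) (g p') *
          ∑ a ∈ I, (rh a : ℂ) * (U p a * (starRingEnd ℂ) (U p' a)) := by
      push_cast
      have : ∀ a ∈ I, (rh a : ℂ) * (‖Z a‖ : ℂ) ^ 2 =
          ∑ p ∈ Q, ∑ p' ∈ Q, g p * (starRingEnd ℂ) (g p') *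
            ((rh a : ℂ) * (U p a * (starRingEnd ℂ) (U p' a))) := by
        intro a _
        have := str_sq Q (fun p => g p * U p a)
        push_cast at this
        rw [hZ]
        simp only
        rw [this, Finset.mul_sum]
        refine Finset.sum_congr rfl fun p _ => ?_
        rw [Finset.mul_sum]
        refine Finset.sum_congr rfl fun p' _ => ?_
        rw [map_mul]
        ring
      rw [Finset.sum_congr rfl this, Finset.sum_comm]
      refine Finset.sum_congr rfl fun p _ => ?_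
      rw [Finset.sum_comm]
      refine Finset.sum_congr rfl fun p' _ => ?_
      rw [Finset.mul_sum]
    have e2 : ∑ a ∈ I, rh a * ‖Z a‖ ^ 2 = ‖((∑ a ∈ I, rh a * ‖Z a‖ ^ 2 : ℝ) : ℂ)‖ := by
      rw [Complex.norm_real, Real.norm_of_nonneg]
      exact Finset.sum_nonneg fun a _ => mul_nonneg (hrh a) (sq_nonneg _)
    rw [e2, e1]
    refine le_trans (norm_sum_le _ _) (Finset.sum_le_sum fun p _ => ?_)
    refine le_trans (norm_sum_le _ _) (Finset.sum_le_sum fun p' _ => ?_)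
    rw [norm_mul, norm_mul, RCLike.norm_conj]
    exact mul_le_mul_of_nonneg_right
      (mul_le_mul (hg p) (hg p') (norm_nonneg _) (hnu p)) (norm_nonneg _)
  have h4 : (∑ p ∈ Q, ∑ p' ∈ Q, nu p * nu p' * T p p') ^ 2 ≤
      (∑ p ∈ Q, nu p) ^ 2 * ∑ p ∈ Q, ∑ p' ∈ Q, nu p * nu p' * T p p' ^ 2 := by
    have := str_cs (Q ×ˢ Q) (fun q => nu q.1 * nu q.2) (fun q => T q.1 q.2)
      (fun q _ => mul_nonneg (hnu _) (hnu _))
    rw [Finset.sum_product, Finset.sum_product, Finset.sum_product] at this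
    rw [sq (∑ p ∈ Q, nu p), Finset.sum_mul_sum]
    exact this
  -- conclusion
  set R := ∑ a ∈ I, rh a with hR
  have hR0 : 0 ≤ R := Finset.sum_nonneg fun a _ => hrh a
  set s1 := ∑ a ∈ I, rh a * ‖Z a‖ with hs1
  have hs10 : 0 ≤ s1 := Finset.sum_nonneg fun a _ => mul_nonneg (hrh a) (norm_nonneg _)
  set s2 := ∑ a ∈ I, rh a * ‖Z a‖ ^ 2 with hs2
  have hs20 : 0 ≤ s2 := Finset.sum_nonneg fun a _ => mul_nonneg (hrh a) (sq_nonneg _)
  calc ‖∑ a ∈ I, β a * Z a‖ ^ 4 ≤ (V * s1) ^ 4 := pow_le_pow_left₀ (norm_nonneg _) h1 4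
    _ = V ^ 4 * (s1 ^ 2) ^ 2 := by ring
    _ ≤ V ^ 4 * (R * s2) ^ 2 := by
        apply mul_le_mul_of_nonneg_left _ (by positivity)
        exact pow_le_pow_left₀ (sq_nonneg _) h2 2
    _ = V ^ 4 * R ^ 2 * s2 ^ 2 := by ring
    _ ≤ V ^ 4 * R ^ 2 * (∑ p ∈ Q, ∑ p' ∈ Q, nu p * nu p' * T p p') ^ 2 := by
        apply mul_le_mul_of_nonneg_left _ (by positivity)
        exact pow_le_pow_left₀ hs20 h3 2
    _ ≤ V ^ 4 * R ^ 2 * ((∑ p ∈ Q, nu p) ^ 2 *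
          ∑ p ∈ Q, ∑ p' ∈ Q, nu p * nu p' * T p p' ^ 2) := by
        apply mul_le_mul_of_nonneg_left h4 (by positivity)
    _ = _ := by ring

open Classical in
/-- van der Corput without loss: the phase disappears -/
theorem str_vdc (u : ℤ) (L : ℕ) (J : Finset ℤ) (hJ : J ⊆ Finset.Ico u (u + L)) (q : ℤ → ℝ)
    (ξ : ℝ) :
    ‖∑ a ∈ J, ((q a : ℝ) : ℂ) * e (ξ * a)‖ ^ 2 ≤
      ∑ k ∈ Finset.Ioo (-(L : ℤ)) L, |∑ a ∈ J.filter (fun a => a + k ∈ J), q a * q (a + k)| := by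
  have e1 : ((‖∑ a ∈ J, ((q a : ℝ) : ℂ) * e (ξ * a)‖ ^ 2 : ℝ) : ℂ) =
      ∑ k ∈ Finset.Ioo (-(L : ℤ)) L, e (-(ξ * k)) *
        ((∑ a ∈ J.filter (fun a => a + k ∈ J), q a * q (a + k) : ℝ) : ℂ) := by
    rw [str_sq, ← Finset.sum_product']
    rw [← Finset.sum_fiberwise_of_maps_to (s := J ×ˢ J) (t := Finset.Ioo (-(L : ℤ)) L)
      (g := fun p => p.2 - p.1)]
    · refine Finset.sum_congr rfl fun k _ => ?_
      push_cast
      rw [Finset.mul_sum]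
      refine Finset.sum_nbij' (fun p => p.1) (fun a => (a, a + k)) ?_ ?_ ?_ ?_ ?_
      · rintro ⟨a, b⟩ h
        simp only [Finset.mem_filter, Finset.mem_product] at h ⊢
        obtain ⟨⟨h1, h2⟩, h3⟩ := h
        refine ⟨h1, ?_⟩
        have : a + k = b := by omega
        rw [this]; exact h2
      · intro a h
        simp only [Finset.mem_filter, Finset.mem_product] at h ⊢
        exact ⟨h, by ring⟩
      · rintro ⟨a, b⟩ h
        simp only [Finset.mem_filter, Finset.mem_product] at h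
        obtain ⟨⟨h1, h2⟩, h3⟩ := h
        simp only [Prod.mk.injEq, true_and]
        omega
      · intro a h
        rfl
      · rintro ⟨a, b⟩ h
        simp only [Finset.mem_filter, Finset.mem_product] at h
        obtain ⟨⟨h1, h2⟩, h3⟩ := h
        have hb : b = a + k := by omega
        simp only
        rw [hb, map_mul, Complex.conj_ofReal, ← e_neg]
        have : e (ξ * a) * e (-(ξ * ((a + k : ℤ) : ℝ))) = e (-(ξ * k)) := by
          rw [← e_add]; congr 1; push_cast; ring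
        rw [← this]
        ring
    · rintro ⟨a, b⟩ h
      simp only [Finset.mem_product] at h
      have h1 := hJ h.1
      have h2 := hJ h.2
      simp only [Finset.mem_Ico, Finset.mem_Ioo] at h1 h2 ⊢
      omega
  have e2 : ‖∑ a ∈ J, ((q a : ℝ) : ℂ) * e (ξ * a)‖ ^ 2 =
      ‖((‖∑ a ∈ J, ((q a : ℝ) : ℂ) * e (ξ * a)‖ ^ 2 : ℝ) : ℂ)‖ := by
    rw [Complex.norm_real, Real.norm_of_nonneg (sq_nonneg _)]
  rw [e2, e1]
  refine le_trans (norm_sum_le _ _) (Finset.sum_le_sum fun k _ => ?_)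
  rw [norm_mul, norm_e, one_mul, Complex.norm_real, Real.norm_eq_abs]

/-- order connected finite sets of integers are intervals -/
theorem str_conn (J : Finset ℤ) (h : ∀ x ∈ J, ∀ z ∈ J, ∀ y, x ≤ y → y ≤ z → y ∈ J) :
    ∃ a b : ℤ, a ≤ b ∧ J = Finset.Ico a b := by
  rcases J.eq_empty_or_nonempty with h0 | h0
  · exact ⟨0, 0, le_rfl, by simp [h0]⟩
  · refine ⟨J.min' h0, J.max' h0 + 1, ?_, ?_⟩
    · have := J.min'_le _ (J.max'_mem h0); omega
    · ext y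
      rw [Finset.mem_Ico]
      constructor
      · intro hy
        have h1 := J.min'_le _ hy
        have h2 := J.le_max' _ hy
        omega
      · rintro ⟨h1, h2⟩
        exact h _ (J.min'_mem h0) _ (J.max'_mem h0) y h1 (by omega)

end Pool.Agent.Lib.H18GB
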