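import Pool.Agent.Lib.H18GB.STRa

/-!
# Chunk STR, part b: parametrisation and changes of variables
-/

namespace Pool.Agent.Lib.H18GB

open Finset Pool.Agent.Lib.Sieve

/-- the parametrisation `n_b(a)` of the `n` with `b ∣ r + W n` -/
def nbf (W : ℕ) (r a0 : ℤ) (b : ℕ) (a : ℤ) : ℤ := (b * a0 - r) / W + b * a

theorem nbf_spec {W : ℕ} {r a0 : ℤ} {b : ℕ} (hd : (W : ℤ) ∣ b * a0 - r) (a : ℤ) :
    r + W * nbf W r a0 b a = b * (a0 + W * a) := by
  unfold nbf
  have := Int.mul_ediv_cancel' hd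
  linear_combination this

theorem nbf_add (W : ℕ) (r a0 : ℤ) (b : ℕ) (a t : ℤ) :
    nbf W r a0 b (a + t) = nbf W r a0 b a + b * t := by
  unfold nbf; ring

theorem nbf_eq (W : ℕ) (r a0 : ℤ) (b : ℕ) (a : ℤ) :
    nbf W r a0 b a = nbf W r a0 b 0 + b * a := by
  unfold nbf; ring

theorem nbf_mono (W : ℕ) (r a0 : ℤ) (b : ℕ) {x y : ℤ} (h : x ≤ y) :
    nbf W r a0 b x ≤ nbf W r a0 b y := by
  have : y = x + (y - x) := by ring
  rw [this, nbf_add]
  have h1 : (0 : ℤ) ≤ b * (y - x) := mul_nonneg (Int.natCast_nonneg _) (by omega)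
  omega

/-- the basic hypotheses on `a0` and one `b` -/
structure Bok (W : ℕ) (r a0 : ℤ) (B : ℕ) (b : ℕ) : Prop where
  d : (W : ℤ) ∣ b * a0 - r
  lo : B ≤ b
  hi : b ≤ 2 * B
  cop : IsCoprime (b : ℤ) (W : ℤ)

theorem nbf_range {W : ℕ} {r a0 : ℤ} {B b M : ℕ} (hW : 0 < W) (hB : 0 < B)
    (hr : |r| < 2 * W) (ha0 : 0 ≤ a0 ∧ a0 < W) (hb : Bok W r a0 B b) {a : ℤ}
    (h : 0 ≤ nbf W r a0 b a ∧ nbf W r a0 b a < M) :
    a ∈ Finset.Ico (-2 : ℤ) ((M / B : ℕ) + 1) := by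
  have hs := nbf_spec hb.d a
  have hW' : (0 : ℤ) < W := by exact_mod_cast hW
  have hB' : (1 : ℤ) ≤ B := by exact_mod_cast hB
  have hbB : (B : ℤ) ≤ b := by exact_mod_cast hb.lo
  obtain ⟨hr1, hr2⟩ := abs_lt.mp hr
  obtain ⟨h0, h1⟩ := h
  set n := nbf W r a0 b a with hn
  rw [Finset.mem_Ico]
  constructor
  · by_contra hc
    have ha : a ≤ -3 := by omega
    have h2 : a0 + W * a ≤ -(2 * W) := by nlinarith
    have h3 : (b : ℤ) * (a0 + W * a) ≤ -(2 * W) := by nlinarith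
    have h4 : (0 : ℤ) ≤ W * n := mul_nonneg hW'.le h0
    linarith
  · rcases le_or_gt a 0 with ha | ha
    · have : (0 : ℤ) ≤ (M / B : ℕ) := Int.natCast_nonneg _
      omega
    · have h5 : (B : ℤ) * (W * a) ≤ b * (a0 + W * a) := by
        have : (0 : ℤ) ≤ W * a := by positivity
        nlinarith [ha0.1]
      have h6 : (W : ℤ) * n ≤ W * (M - 1) := by nlinarith
      have h7 : (B : ℤ) * (W * a) < W * (M + 1) := by nlinarith
      have h8 : (B : ℤ) * a < M + 1 := by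
        have : (W : ℤ) * (B * a) < W * (M + 1) := by linarith [mul_left_comm (B : ℤ) W a]
        exact lt_of_mul_lt_mul_left this hW'.le
      have h9 : a * B ≤ M := by linarith [mul_comm (B : ℤ) a]
      have h10 : a ≤ (M : ℤ) / B := (Int.le_ediv_iff_mul_le (by omega)).mpr h9
      push_cast
      omega

open Classical in
/-- the factor `U` -/
noncomputable def Uf (W : ℕ) (r a0 : ℤ) (M : ℕ) (H : Finset ℤ) (c : ℤ → ℂ) (θ : ℤ → ℝ)
    (p : ℕ × ℤ) (a : ℤ) : ℂ :=
  if (0 ≤ nbf W r a0 p.1 a ∧ nbf W r a0 p.1 a < M) ∧ p.2 - nbf W r a0 p.1 a ∈ H then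
    c (p.2 - nbf W r a0 p.1 a) * e (θ (p.2 - nbf W r a0 p.1 a) * nbf W r a0 p.1 a) else 0

open Classical in
theorem str_X {W : ℕ} {r a0 : ℤ} {B M : ℕ} {P : Finset ℕ} {H : Finset ℤ} (hW : 0 < W)
    (hB : 0 < B) (hr : |r| < 2 * W) (ha0 : 0 ≤ a0 ∧ a0 < W) (hP : ∀ b ∈ P, Bok W r a0 B b)
    (β g c : ℤ → ℂ) (θ : ℤ → ℝ) (hg : SuppIn 0 M g) :
    ∑ h ∈ H, c h * ∑ n ∈ Finset.Ico (0 : ℤ) M, fII W r P β n * g (n + h) * e (θ h * n) =
      ∑ a ∈ Finset.Ico (-2 : ℤ) ((M / B : ℕ) + 1), β (a0 + W * a) *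
        ∑ p ∈ P ×ˢ Finset.Ico (0 : ℤ) M, g p.2 * Uf W r a0 M H c θ p a := by
  have hW' : (0 : ℤ) < W := by exact_mod_cast hW
  have hL : ∑ h ∈ H, c h * ∑ n ∈ Finset.Ico (0 : ℤ) M, fII W r P β n * g (n + h) * e (θ h * n) =
      ∑ b ∈ P, ∑ n ∈ (Finset.Ico (0 : ℤ) M).filter (fun n => (b : ℤ) ∣ r + W * n),
        β ((r + W * n) / b) * ∑ h ∈ H, c h * g (n + h) * e (θ h * n) := by
    have h1 : ∀ b ∈ P, ∑ n ∈ (Finset.Ico (0 : ℤ) M).filter (fun n => (b : ℤ) ∣ r + W * n),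
        β ((r + W * n) / b) * ∑ h ∈ H, c h * g (n + h) * e (θ h * n) =
        ∑ n ∈ Finset.Ico (0 : ℤ) M, (if (b : ℤ) ∣ r + W * n then β ((r + W * n) / b) else 0) *
          ∑ h ∈ H, c h * g (n + h) * e (θ h * n) := by
      intro b _
      rw [Finset.sum_filter]
      refine Finset.sum_congr rfl fun n _ => ?_
      split_ifs <;> simp
    rw [Finset.sum_congr rfl h1, Finset.sum_comm]
    have h2 : ∀ h ∈ H, c h * ∑ n ∈ Finset.Ico (0 : ℤ) M, fII W r P β n * g (n + h) * e (θ h * n) =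
        ∑ n ∈ Finset.Ico (0 : ℤ) M, fII W r P β n * (c h * g (n + h) * e (θ h * n)) := by
      intro h _
      rw [Finset.mul_sum]
      refine Finset.sum_congr rfl fun n _ => ?_
      ring
    rw [Finset.sum_congr rfl h2, Finset.sum_comm]
    refine Finset.sum_congr rfl fun n _ => ?_
    rw [← Finset.mul_sum, ← Finset.sum_mul]
    congr 1
    unfold fII
    rw [Finset.sum_filter]
  rw [hL]
  have hR : ∀ a ∈ Finset.Ico (-2 : ℤ) ((M / B : ℕ) + 1), β (a0 + W * a) *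
        ∑ p ∈ P ×ˢ Finset.Ico (0 : ℤ) M, g p.2 * Uf W r a0 M H c θ p a =
      ∑ b ∈ P, β (a0 + W * a) * ∑ m ∈ Finset.Ico (0 : ℤ) M, g m * Uf W r a0 M H c θ (b, m) a := by
    intro a _
    rw [Finset.sum_product, Finset.mul_sum]
  rw [Finset.sum_congr rfl hR, Finset.sum_comm]
  refine Finset.sum_congr rfl fun b hb => ?_
  have hbk := hP b hb
  have hb0 : (0 : ℤ) < b := by
    have := hbk.lo
    have : 0 < b := by omega
    exact_mod_cast this
  -- the inner sum over `m`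
  have hm : ∀ a, (0 ≤ nbf W r a0 b a ∧ nbf W r a0 b a < M) →
      ∑ m ∈ Finset.Ico (0 : ℤ) M, g m * Uf W r a0 M H c θ (b, m) a =
      ∑ h ∈ H, c h * g (nbf W r a0 b a + h) * e (θ h * nbf W r a0 b a) := by
    intro a ha
    set n := nbf W r a0 b a with hn
    have h1 : ∑ h ∈ H, c h * g (n + h) * e (θ h * n) =
        ∑ h ∈ H.filter (fun h => 0 ≤ n + h ∧ n + h < M), c h * g (n + h) * e (θ h * n) := by
      rw [Finset.sum_filter]
      refine Finset.sum_congr rfl fun h _ => ?_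
      split_ifs with hh
      · rfl
      · rw [hg (n + h) (by rw [Finset.mem_Ico]; exact hh)]; simp
    have h2 : ∑ m ∈ Finset.Ico (0 : ℤ) M, g m * Uf W r a0 M H c θ (b, m) a =
        ∑ m ∈ (Finset.Ico (0 : ℤ) M).filter (fun m => m - n ∈ H),
          g m * (c (m - n) * e (θ (m - n) * n)) := by
      rw [Finset.sum_filter]
      refine Finset.sum_congr rfl fun m _ => ?_
      unfold Uf
      simp only
      rw [← hn]
      by_cases hh : m - n ∈ H
      · rw [if_pos ⟨ha, hh⟩, if_pos hh]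
      · rw [if_neg (fun h => hh h.2), if_neg hh, mul_zero]
    rw [h1, h2]
    refine Finset.sum_nbij' (fun m => m - n) (fun h => n + h) ?_ ?_ ?_ ?_ ?_
    · intro m h
      simp only [Finset.mem_filter, Finset.mem_Ico] at h ⊢
      refine ⟨h.2, ?_⟩
      constructor <;> linarith [h.1.1, h.1.2]
    · intro h hh
      simp only [Finset.mem_filter, Finset.mem_Ico] at hh ⊢
      refine ⟨hh.2, ?_⟩
      have : n + h - n = h := by ring
      rw [this]; exact hh.1
    · intro m _; simp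
    · intro h _; simp
    · intro m _
      have : n + (m - n) = m := by ring
      rw [this]; ring
  have h3 : ∑ a ∈ Finset.Ico (-2 : ℤ) ((M / B : ℕ) + 1),
        β (a0 + W * a) * ∑ m ∈ Finset.Ico (0 : ℤ) M, g m * Uf W r a0 M H c θ (b, m) a =
      ∑ a ∈ (Finset.Ico (-2 : ℤ) ((M / B : ℕ) + 1)).filter
        (fun a => 0 ≤ nbf W r a0 b a ∧ nbf W r a0 b a < M),
        β (a0 + W * a) * ∑ h ∈ H, c h * g (nbf W r a0 b a + h) * e (θ h * nbf W r a0 b a) := by
    rw [Finset.sum_filter]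
    refine Finset.sum_congr rfl fun a _ => ?_
    split_ifs with ha
    · rw [hm a ha]
    · have : ∑ m ∈ Finset.Ico (0 : ℤ) M, g m * Uf W r a0 M H c θ (b, m) a = 0 := by
        refine Finset.sum_eq_zero fun m _ => ?_
        unfold Uf
        rw [if_neg (fun h => ha h.1), mul_zero]
      rw [this, mul_zero]
  rw [h3]
  symm
  refine Finset.sum_nbij' (fun a => nbf W r a0 b a) (fun n => ((r + W * n) / b - a0) / W)
    ?_ ?_ ?_ ?_ ?_
  · intro a ha
    simp only [Finset.mem_filter, Finset.mem_Ico] at ha ⊢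
    exact ⟨ha.2, ⟨a0 + W * a, nbf_spec hbk.d a⟩⟩
  · intro n hn
    simp only [Finset.mem_filter] at hn ⊢
    obtain ⟨hn1, x, hx⟩ := hn
    have hx' : (r + W * n) / b = x := by rw [hx]; exact Int.mul_ediv_cancel_left x hb0.ne'
    rw [hx']
    have hd : (W : ℤ) ∣ x - a0 := by
      have h1 : (W : ℤ) ∣ b * (x - a0) := by
        have : (b : ℤ) * (x - a0) = W * n - (b * a0 - r) := by rw [mul_sub, ← hx]; ring
        rw [this]
        exact dvd_sub (dvd_mul_right _ _) hbk.d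
      exact IsCoprime.dvd_of_dvd_mul_left hbk.cop.symm h1
    obtain ⟨y, hy⟩ := hd
    have hy' : (x - a0) / W = y := by rw [hy]; exact Int.mul_ediv_cancel_left y hW'.ne'
    rw [hy']
    have hnb : nbf W r a0 b y = n := by
      have h1 := nbf_spec hbk.d y
      have h2 : a0 + W * y = x := by linarith
      rw [h2, ← hx] at h1
      have h3 : (W : ℤ) * nbf W r a0 b y = W * n := by linarith
      exact mul_left_cancel₀ hW'.ne' h3
    have hn2 : 0 ≤ nbf W r a0 b y ∧ nbf W r a0 b y < M := by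
      rw [hnb]; exact Finset.mem_Ico.mp hn1
    exact ⟨nbf_range hW hB hr ha0 hbk hn2, hn2⟩
  · intro a ha
    rw [nbf_spec hbk.d a, Int.mul_ediv_cancel_left _ hb0.ne']
    have : a0 + W * a - a0 = W * a := by ring
    rw [this, Int.mul_ediv_cancel_left _ hW'.ne']
  · intro n hn
    simp only [Finset.mem_filter] at hn
    obtain ⟨hn1, x, hx⟩ := hn
    have hx' : (r + W * n) / b = x := by rw [hx]; exact Int.mul_ediv_cancel_left x hb0.ne'
    rw [hx']
    have hd : (W : ℤ) ∣ x - a0 := by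
      have h1 : (W : ℤ) ∣ b * (x - a0) := by
        have : (b : ℤ) * (x - a0) = W * n - (b * a0 - r) := by rw [mul_sub, ← hx]; ring
        rw [this]
        exact dvd_sub (dvd_mul_right _ _) hbk.d
      exact IsCoprime.dvd_of_dvd_mul_left hbk.cop.symm h1
    obtain ⟨y, hy⟩ := hd
    have hy' : (x - a0) / W = y := by rw [hy]; exact Int.mul_ediv_cancel_left y hW'.ne'
    rw [hy']
    have h1 := nbf_spec hbk.d y
    have h2 : a0 + W * y = x := by linarith
    rw [h2, ← hx] at h1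
    have h3 : (W : ℤ) * nbf W r a0 b y = W * n := by linarith
    exact mul_left_cancel₀ hW'.ne' h3
  · intro a ha
    rw [nbf_spec hbk.d a, Int.mul_ediv_cancel_left _ hb0.ne']

end Pool.Agent.Lib.H18GB
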