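import Pool.Agent.Lib.H18GB.STRb

/-!
# Chunk STR, part c: expansion of the square
-/

namespace Pool.Agent.Lib.H18GB

open Finset Pool.Agent.Lib.Sieve

/-- type of the tuples `((b, c), (t, (h1, h2)))` -/
abbrev Tup := (ℕ × ℕ) × (ℤ × (ℤ × ℤ))

open Classical in
/-- the tuples `((b, c), (t, (h1, h2)))` -/
noncomputable def Tf (M B : ℕ) (P : Finset ℕ) (H : Finset ℤ) : Finset Tup :=
  ((P ×ˢ P) ×ˢ (Finset.Icc (-((M / B : ℕ) : ℤ)) ((M / B : ℕ) : ℤ) ×ˢ (H ×ˢ H))).filter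
    fun q => q.2.2.1 - q.2.1 * q.1.1 ∈ H ∧ q.2.2.2 - q.2.1 * q.1.2 ∈ H

/-- the interval `J` -/
noncomputable def Jf (W : ℕ) (r a0 : ℤ) (M B : ℕ) (q : Tup) : Finset ℤ :=
  (Finset.Ico (-2 : ℤ) ((M / B : ℕ) + 1)).filter fun a =>
    ((0 ≤ nbf W r a0 q.1.1 a ∧ nbf W r a0 q.1.1 a < M) ∧
    (0 ≤ nbf W r a0 q.1.1 (a + q.2.1) ∧ nbf W r a0 q.1.1 (a + q.2.1) < M)) ∧
    ((0 ≤ nbf W r a0 q.1.2 a ∧ nbf W r a0 q.1.2 a < M) ∧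
    (0 ≤ nbf W r a0 q.1.2 (a + q.2.1) ∧ nbf W r a0 q.1.2 (a + q.2.1) < M)) ∧
    (0 ≤ q.2.2.1 + nbf W r a0 q.1.1 a ∧ q.2.2.1 + nbf W r a0 q.1.1 a < M) ∧
    (0 ≤ q.2.2.2 + nbf W r a0 q.1.2 a ∧ q.2.2.2 + nbf W r a0 q.1.2 a < M)

theorem Jf_sub (W : ℕ) (r a0 : ℤ) (M B : ℕ) (q : Tup) :
    Jf W r a0 M B q ⊆ Finset.Ico (-2 : ℤ) ((M / B : ℕ) + 1) := Finset.filter_subset _ _

theorem Jf_conn (W : ℕ) (r a0 : ℤ) (M B : ℕ) (q : Tup) :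
    ∀ x ∈ Jf W r a0 M B q, ∀ z ∈ Jf W r a0 M B q, ∀ y, x ≤ y → y ≤ z → y ∈ Jf W r a0 M B q := by
  intro x hx z hz y hxy hyz
  simp only [Jf, Finset.mem_filter, Finset.mem_Ico] at hx hz ⊢
  obtain ⟨hx0, ⟨hx1, hx2⟩, ⟨hx3, hx4⟩, hx5, hx6⟩ := hx
  obtain ⟨hz0, ⟨hz1, hz2⟩, ⟨hz3, hz4⟩, hz5, hz6⟩ := hz
  have m1 := nbf_mono W r a0 q.1.1 hxy
  have m2 := nbf_mono W r a0 q.1.1 hyz
  have m3 := nbf_mono W r a0 q.1.2 hxy
  have m4 := nbf_mono W r a0 q.1.2 hyz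
  have m5 := nbf_mono W r a0 q.1.1 (add_le_add_left hxy q.2.1)
  have m6 := nbf_mono W r a0 q.1.1 (add_le_add_left hyz q.2.1)
  have m7 := nbf_mono W r a0 q.1.2 (add_le_add_left hxy q.2.1)
  have m8 := nbf_mono W r a0 q.1.2 (add_le_add_left hyz q.2.1)
  refine ⟨⟨by omega, by omega⟩, ⟨⟨by omega, by omega⟩, ⟨by omega, by omega⟩⟩,
    ⟨⟨by omega, by omega⟩, ⟨by omega, by omega⟩⟩, ⟨by omega, by omega⟩, ⟨by omega, by omega⟩⟩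

noncomputable def xif (θ : ℤ → ℝ) (q : Tup) : ℝ :=
  q.1.1 * (θ q.2.2.1 - θ (q.2.2.1 - q.2.1 * q.1.1)) -
    q.1.2 * (θ q.2.2.2 - θ (q.2.2.2 - q.2.1 * q.1.2))

noncomputable def omf (S : Finset ℕ) (W : ℕ) (a0 : ℤ) (q : Tup) (a : ℤ) : ℝ :=
  rho S (a0 + W * a) * rho S (a0 + W * (a + q.2.1)) *
    (1 + rho S (q.1.1 * (a0 + W * a) + W * q.2.2.1)) *
    (1 + rho S (q.1.2 * (a0 + W * a) + W * q.2.2.2))

open Classical in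
/-- the change of variables -/
theorem str_cv {W : ℕ} {r a0 : ℤ} {B M : ℕ} {P : Finset ℕ} {H : Finset ℤ} (hW : 0 < W)
    (hB : 0 < B) (hr : |r| < 2 * W) (ha0 : 0 ≤ a0 ∧ a0 < W) (hP : ∀ b ∈ P, Bok W r a0 B b)
    (F : ℕ × ℤ → ℕ × ℤ → ℤ → ℤ → ℂ)
    (hF : ∀ p p' a1 a2, F p p' a1 a2 ≠ 0 →
      ((0 ≤ nbf W r a0 p.1 a1 ∧ nbf W r a0 p.1 a1 < M) ∧ p.2 - nbf W r a0 p.1 a1 ∈ H) ∧
      ((0 ≤ nbf W r a0 p'.1 a1 ∧ nbf W r a0 p'.1 a1 < M) ∧ p'.2 - nbf W r a0 p'.1 a1 ∈ H) ∧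
      ((0 ≤ nbf W r a0 p.1 a2 ∧ nbf W r a0 p.1 a2 < M) ∧ p.2 - nbf W r a0 p.1 a2 ∈ H) ∧
      ((0 ≤ nbf W r a0 p'.1 a2 ∧ nbf W r a0 p'.1 a2 < M) ∧ p'.2 - nbf W r a0 p'.1 a2 ∈ H)) :
    ∑ p ∈ P ×ˢ Finset.Ico (0 : ℤ) M, ∑ p' ∈ P ×ˢ Finset.Ico (0 : ℤ) M,
      ∑ a1 ∈ Finset.Ico (-2 : ℤ) ((M / B : ℕ) + 1), ∑ a2 ∈ Finset.Ico (-2 : ℤ) ((M / B : ℕ) + 1),
        F p p' a1 a2 =
    ∑ q ∈ Tf M B P H, ∑ a ∈ Jf W r a0 M B q,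
      F (q.1.1, q.2.2.1 + nbf W r a0 q.1.1 a) (q.1.2, q.2.2.2 + nbf W r a0 q.1.2 a) a
        (a + q.2.1) := by
  have eL : ∑ p ∈ P ×ˢ Finset.Ico (0 : ℤ) M, ∑ p' ∈ P ×ˢ Finset.Ico (0 : ℤ) M,
      ∑ a1 ∈ Finset.Ico (-2 : ℤ) ((M / B : ℕ) + 1), ∑ a2 ∈ Finset.Ico (-2 : ℤ) ((M / B : ℕ) + 1),
        F p p' a1 a2 =
      ∑ x ∈ ((P ×ˢ Finset.Ico (0 : ℤ) M) ×ˢ (P ×ˢ Finset.Ico (0 : ℤ) M)) ×ˢ
        ((Finset.Ico (-2 : ℤ) ((M / B : ℕ) + 1)) ×ˢ (Finset.Ico (-2 : ℤ) ((M / B : ℕ) + 1))),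
        F x.1.1 x.1.2 x.2.1 x.2.2 := by
    rw [Finset.sum_product ((P ×ˢ Finset.Ico (0 : ℤ) M) ×ˢ (P ×ˢ Finset.Ico (0 : ℤ) M)),
      Finset.sum_product (P ×ˢ Finset.Ico (0 : ℤ) M)]
    refine Finset.sum_congr rfl fun p _ => Finset.sum_congr rfl fun p' _ => ?_
    rw [Finset.sum_product]
  rw [eL, Finset.sum_sigma']
  rw [← Finset.sum_filter_of_ne (p := fun x : (((ℕ × ℤ) × (ℕ × ℤ)) × (ℤ × ℤ)) =>
    ((0 ≤ nbf W r a0 x.1.1.1 x.2.1 ∧ nbf W r a0 x.1.1.1 x.2.1 < M) ∧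
        x.1.1.2 - nbf W r a0 x.1.1.1 x.2.1 ∈ H) ∧
      ((0 ≤ nbf W r a0 x.1.2.1 x.2.1 ∧ nbf W r a0 x.1.2.1 x.2.1 < M) ∧
        x.1.2.2 - nbf W r a0 x.1.2.1 x.2.1 ∈ H) ∧
      ((0 ≤ nbf W r a0 x.1.1.1 x.2.2 ∧ nbf W r a0 x.1.1.1 x.2.2 < M) ∧
        x.1.1.2 - nbf W r a0 x.1.1.1 x.2.2 ∈ H) ∧
      ((0 ≤ nbf W r a0 x.1.2.1 x.2.2 ∧ nbf W r a0 x.1.2.1 x.2.2 < M) ∧
        x.1.2.2 - nbf W r a0 x.1.2.1 x.2.2 ∈ H)) (fun x _ hx => hF _ _ _ _ hx)]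
  refine Finset.sum_nbij'
    (fun x => ⟨((x.1.1.1, x.1.2.1), (x.2.2 - x.2.1,
      (x.1.1.2 - nbf W r a0 x.1.1.1 x.2.1, x.1.2.2 - nbf W r a0 x.1.2.1 x.2.1))), x.2.1⟩)
    (fun y => (((y.1.1.1, y.1.2.2.1 + nbf W r a0 y.1.1.1 y.2),
      (y.1.1.2, y.1.2.2.2 + nbf W r a0 y.1.1.2 y.2)), (y.2, y.2 + y.1.2.1))) ?_ ?_ ?_ ?_ ?_
  · rintro ⟨⟨⟨b, m⟩, ⟨c, m'⟩⟩, ⟨a1, a2⟩⟩ hx
    simp only [Finset.mem_filter, Finset.mem_product, Finset.mem_sigma, Tf, Jf] at hx ⊢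
    obtain ⟨⟨⟨⟨hb, hm⟩, ⟨hc, hm'⟩⟩, ⟨hI1, hI2⟩⟩, ⟨h1, h1H⟩, ⟨h2, h2H⟩, ⟨h3, h3H⟩, ⟨h4, h4H⟩⟩ := hx
    have ea : a1 + (a2 - a1) = a2 := by ring
    rw [Finset.mem_Ico] at hm hm'
    have hab := nbf_add W r a0 b a1 (a2 - a1)
    have hac := nbf_add W r a0 c a1 (a2 - a1)
    rw [ea] at hab hac
    have ht : a2 - a1 ∈ Finset.Icc (-((M / B : ℕ) : ℤ)) ((M / B : ℕ) : ℤ) := by
      have hbB : (B : ℤ) ≤ b := by exact_mod_cast (hP b hb).lo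
      have hB1 : (1 : ℤ) ≤ B := by exact_mod_cast hB
      rw [Finset.mem_Icc]
      push_cast
      constructor
      · have h5 : (a1 - a2) * (B : ℤ) ≤ M := by
          rcases le_or_gt (a1 - a2) 0 with h | h
          · have : (a1 - a2) * (B : ℤ) ≤ 0 := mul_nonpos_of_nonpos_of_nonneg h (by omega)
            have : (0 : ℤ) ≤ M := Int.natCast_nonneg _
            omega
          · have h6 : (a1 - a2) * (B : ℤ) ≤ (a1 - a2) * b := mul_le_mul_of_nonneg_left hbB h.le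
            have h7 : (a1 - a2) * (b : ℤ) = -(b * (a2 - a1)) := by ring
            omega
        have := (Int.le_ediv_iff_mul_le (by omega)).mpr h5
        omega
      · have h5 : (a2 - a1) * (B : ℤ) ≤ M := by
          rcases le_or_gt (a2 - a1) 0 with h | h
          · have : (a2 - a1) * (B : ℤ) ≤ 0 := mul_nonpos_of_nonpos_of_nonneg h (by omega)
            have : (0 : ℤ) ≤ M := Int.natCast_nonneg _
            omega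
          · have h6 : (a2 - a1) * (B : ℤ) ≤ (a2 - a1) * b := mul_le_mul_of_nonneg_left hbB h.le
            have h7 : (a2 - a1) * (b : ℤ) = (b * (a2 - a1)) := by ring
            omega
        exact (Int.le_ediv_iff_mul_le (by omega)).mpr h5
    refine ⟨⟨⟨⟨hb, hc⟩, ht, h1H, h2H⟩, ?_, ?_⟩, hI1, ⟨h1, ?_⟩, ⟨h2, ?_⟩, ?_, ?_⟩
    · have : m - nbf W r a0 b a1 - (a2 - a1) * b = m - nbf W r a0 b a2 := by rw [hab]; ring
      rw [this]; exact h3H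
    · have : m' - nbf W r a0 c a1 - (a2 - a1) * c = m' - nbf W r a0 c a2 := by rw [hac]; ring
      rw [this]; exact h4H
    · rw [ea]; exact h3
    · rw [ea]; exact h4
    · constructor <;> omega
    · constructor <;> omega
  · rintro ⟨⟨⟨b, c⟩, ⟨t, ⟨h1, h2⟩⟩⟩, a⟩ hy
    simp only [Finset.mem_filter, Finset.mem_product, Finset.mem_sigma, Tf, Jf] at hy ⊢
    obtain ⟨⟨⟨⟨hb, hc⟩, ht, h1H, h2H⟩, h3H, h4H⟩, hI1, ⟨g1, g2⟩, ⟨g3, g4⟩, g5, g6⟩ := hy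
    have hab := nbf_add W r a0 b a t
    have hac := nbf_add W r a0 c a t
    have e1 : h1 + nbf W r a0 b a - nbf W r a0 b a = h1 := by ring
    have e2 : h2 + nbf W r a0 c a - nbf W r a0 c a = h2 := by ring
    have e3 : h1 + nbf W r a0 b a - nbf W r a0 b (a + t) = h1 - t * b := by rw [hab]; ring
    have e4 : h2 + nbf W r a0 c a - nbf W r a0 c (a + t) = h2 - t * c := by rw [hac]; ring
    rw [e1, e2, e3, e4]
    exact ⟨⟨⟨⟨hb, Finset.mem_Ico.mpr g5⟩, ⟨hc, Finset.mem_Ico.mpr g6⟩⟩,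
      ⟨hI1, nbf_range hW hB hr ha0 (hP b hb) g2⟩⟩, ⟨g1, h1H⟩, ⟨g3, h2H⟩, ⟨g2, h3H⟩, ⟨g4, h4H⟩⟩
  · rintro ⟨⟨⟨b, m⟩, ⟨c, m'⟩⟩, ⟨a1, a2⟩⟩ hx
    simp
  · rintro ⟨⟨⟨b, c⟩, ⟨t, ⟨h1, h2⟩⟩⟩, a⟩ hy
    simp
  · rintro ⟨⟨⟨b, m⟩, ⟨c, m'⟩⟩, ⟨a1, a2⟩⟩ hx
    simp

open Classical in
theorem str_Y {S : Finset ℕ} {W : ℕ} {r a0 : ℤ} {B M : ℕ} {P : Finset ℕ}
    {H : Finset ℤ} (hW : 0 < W) (hB : 0 < B) (hr : |r| < 2 * W) (ha0 : 0 ≤ a0 ∧ a0 < W)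
    (hP : ∀ b ∈ P, Bok W r a0 B b) (c : ℤ → ℂ) (hc : ∀ h, ‖c h‖ ≤ 1) (θ : ℤ → ℝ) (κ : ℝ) :
    ∑ p ∈ P ×ˢ Finset.Ico (0 : ℤ) M, ∑ p' ∈ P ×ˢ Finset.Ico (0 : ℤ) M,
      (κ * (1 + rho S (r + W * p.2))) * (κ * (1 + rho S (r + W * p'.2))) *
      ‖∑ a ∈ Finset.Ico (-2 : ℤ) ((M / B : ℕ) + 1), (rho S (a0 + W * a) : ℂ) *
        (Uf W r a0 M H c θ p a * (starRingEnd ℂ) (Uf W r a0 M H c θ p' a))‖ ^ 2 ≤
    κ ^ 2 * ∑ q ∈ Tf M B P H,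
      ‖∑ a ∈ Jf W r a0 M B q, ((omf S W a0 q a : ℝ) : ℂ) * e (xif θ q * a)‖ := by
  set I := Finset.Ico (-2 : ℤ) ((M / B : ℕ) + 1) with hI
  set nu : ℤ → ℝ := fun m => κ * (1 + rho S (r + W * m)) with hnu
  set rh : ℤ → ℝ := fun a => rho S (a0 + W * a) with hrh
  set U := Uf W r a0 M H c θ with hU
  set F : ℕ × ℤ → ℕ × ℤ → ℤ → ℤ → ℂ := fun p p' a1 a2 => (nu p.2 : ℂ) * (nu p'.2 : ℂ) *
    (((rh a1 : ℂ) * (U p a1 * (starRingEnd ℂ) (U p' a1))) *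
      (starRingEnd ℂ) ((rh a2 : ℂ) * (U p a2 * (starRingEnd ℂ) (U p' a2)))) with hFd
  have hU0 : ∀ p a, U p a ≠ 0 → (0 ≤ nbf W r a0 p.1 a ∧ nbf W r a0 p.1 a < M) ∧
      p.2 - nbf W r a0 p.1 a ∈ H := by
    intro p a h
    by_contra hc
    apply h
    rw [hU]
    unfold Uf
    rw [if_neg hc]
  have e1 : ((∑ p ∈ P ×ˢ Finset.Ico (0 : ℤ) M, ∑ p' ∈ P ×ˢ Finset.Ico (0 : ℤ) M,
      nu p.2 * nu p'.2 * ‖∑ a ∈ I, (rh a : ℂ) * (U p a * (starRingEnd ℂ) (U p' a))‖ ^ 2 : ℝ) : ℂ) =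
      ∑ q ∈ Tf M B P H, ∑ a ∈ Jf W r a0 M B q,
        F (q.1.1, q.2.2.1 + nbf W r a0 q.1.1 a) (q.1.2, q.2.2.2 + nbf W r a0 q.1.2 a) a
          (a + q.2.1) := by
    rw [← str_cv hW hB hr ha0 hP F]
    · simp only [Complex.ofReal_sum, Complex.ofReal_mul]
      refine Finset.sum_congr rfl fun p _ => Finset.sum_congr rfl fun p' _ => ?_
      rw [str_sq I (fun a => (rh a : ℂ) * (U p a * (starRingEnd ℂ) (U p' a))), Finset.mul_sum]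
      refine Finset.sum_congr rfl fun a1 _ => ?_
      rw [Finset.mul_sum]
    · intro p p' a1 a2 h
      rw [hFd] at h
      simp only [map_mul, Complex.conj_conj] at h
      have h1 : U p a1 ≠ 0 := fun h0 => h (by rw [h0]; simp)
      have h2 : U p' a1 ≠ 0 := fun h0 => h (by rw [h0]; simp)
      have h3 : U p a2 ≠ 0 := fun h0 => h (by rw [h0]; simp)
      have h4 : U p' a2 ≠ 0 := fun h0 => h (by rw [h0]; simp)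
      exact ⟨hU0 _ _ h1, hU0 _ _ h2, hU0 _ _ h3, hU0 _ _ h4⟩
  have e2 : ∑ p ∈ P ×ˢ Finset.Ico (0 : ℤ) M, ∑ p' ∈ P ×ˢ Finset.Ico (0 : ℤ) M,
      nu p.2 * nu p'.2 * ‖∑ a ∈ I, (rh a : ℂ) * (U p a * (starRingEnd ℂ) (U p' a))‖ ^ 2 ≤
      ‖((∑ p ∈ P ×ˢ Finset.Ico (0 : ℤ) M, ∑ p' ∈ P ×ˢ Finset.Ico (0 : ℤ) M,
      nu p.2 * nu p'.2 * ‖∑ a ∈ I, (rh a : ℂ) * (U p a * (starRingEnd ℂ) (U p' a))‖ ^ 2 : ℝ) : ℂ)‖
      := by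
    rw [Complex.norm_real]
    exact le_abs_self _
  refine le_trans e2 ?_
  rw [e1, Finset.mul_sum]
  refine le_trans (norm_sum_le _ _) (Finset.sum_le_sum fun q hq => ?_)
  obtain ⟨⟨b, b'⟩, ⟨t, ⟨h1, h2⟩⟩⟩ := q
  simp only [Tf, Finset.mem_filter, Finset.mem_product] at hq
  obtain ⟨⟨⟨hb, hb'⟩, -, h1H, h2H⟩, h3H, h4H⟩ := hq
  set D : ℂ := c h1 * (starRingEnd ℂ) (c h2) * ((starRingEnd ℂ) (c (h1 - t * b))) *
    c (h2 - t * b') * e (θ h1 * nbf W r a0 b 0 - θ h2 * nbf W r a0 b' 0 -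
      θ (h1 - t * b) * (nbf W r a0 b 0 + b * t : ℤ) +
      θ (h2 - t * b') * (nbf W r a0 b' 0 + b' * t : ℤ)) with hD
  have hDn : ‖D‖ ≤ 1 := by
    rw [hD, norm_mul, norm_e, mul_one, norm_mul, norm_mul, norm_mul, RCLike.norm_conj,
      RCLike.norm_conj]
    exact mul_le_one₀ (mul_le_one₀ (mul_le_one₀ (hc _) (norm_nonneg _) (hc _)) (norm_nonneg _)
      (hc _)) (norm_nonneg _) (hc _)
  have e3 : ∀ a ∈ Jf W r a0 M B ((b, b'), (t, (h1, h2))),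
      F (b, h1 + nbf W r a0 b a) (b', h2 + nbf W r a0 b' a) a (a + t) =
      (κ : ℂ) ^ 2 * D * (((omf S W a0 ((b, b'), (t, (h1, h2))) a : ℝ) : ℂ) *
        e (xif θ ((b, b'), (t, (h1, h2))) * a)) := by
    intro a ha
    simp only [Jf, Finset.mem_filter] at ha
    obtain ⟨-, ⟨g1, g2⟩, ⟨g3, g4⟩, g5, g6⟩ := ha
    have hab := nbf_add W r a0 b a t
    have hac := nbf_add W r a0 b' a t
    have u1 : h1 + nbf W r a0 b a - nbf W r a0 b a = h1 := by ring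
    have u2 : h2 + nbf W r a0 b' a - nbf W r a0 b' a = h2 := by ring
    have u3 : h1 + nbf W r a0 b a - nbf W r a0 b (a + t) = h1 - t * b := by rw [hab]; ring
    have u4 : h2 + nbf W r a0 b' a - nbf W r a0 b' (a + t) = h2 - t * b' := by rw [hac]; ring
    have v1 : U (b, h1 + nbf W r a0 b a) a = c h1 * e (θ h1 * nbf W r a0 b a) := by
      rw [hU]; unfold Uf; simp only [u1]; rw [if_pos ⟨g1, h1H⟩]
    have v2 : U (b', h2 + nbf W r a0 b' a) a = c h2 * e (θ h2 * nbf W r a0 b' a) := by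
      rw [hU]; unfold Uf; simp only [u2]; rw [if_pos ⟨g3, h2H⟩]
    have v3 : U (b, h1 + nbf W r a0 b a) (a + t) =
        c (h1 - t * b) * e (θ (h1 - t * b) * nbf W r a0 b (a + t)) := by
      rw [hU]; unfold Uf; simp only [u3]; rw [if_pos ⟨g2, h3H⟩]
    have v4 : U (b', h2 + nbf W r a0 b' a) (a + t) =
        c (h2 - t * b') * e (θ (h2 - t * b') * nbf W r a0 b' (a + t)) := by
      rw [hU]; unfold Uf; simp only [u4]; rw [if_pos ⟨g4, h4H⟩]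
    have w1 : nu (h1 + nbf W r a0 b a) = κ * (1 + rho S (b * (a0 + W * a) + W * h1)) := by
      rw [hnu]
      have : r + W * (h1 + nbf W r a0 b a) = b * (a0 + W * a) + W * h1 := by
        rw [← nbf_spec (hP b hb).d a]; ring
      simp only
      rw [this]
    have w2 : nu (h2 + nbf W r a0 b' a) = κ * (1 + rho S (b' * (a0 + W * a) + W * h2)) := by
      rw [hnu]
      have : r + W * (h2 + nbf W r a0 b' a) = b' * (a0 + W * a) + W * h2 := by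
        rw [← nbf_spec (hP b' hb').d a]; ring
      simp only
      rw [this]
    have hph : e (θ h1 * nbf W r a0 b a) * (starRingEnd ℂ) (e (θ h2 * nbf W r a0 b' a)) *
        ((starRingEnd ℂ) (e (θ (h1 - t * b) * nbf W r a0 b (a + t))) *
          e (θ (h2 - t * b') * nbf W r a0 b' (a + t))) =
        e (θ h1 * nbf W r a0 b 0 - θ h2 * nbf W r a0 b' 0 -
          θ (h1 - t * b) * (nbf W r a0 b 0 + b * t : ℤ) +
          θ (h2 - t * b') * (nbf W r a0 b' 0 + b' * t : ℤ)) *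
          e (xif θ ((b, b'), (t, (h1, h2))) * a) := by
      rw [← e_neg, ← e_neg, ← e_add, ← e_add, ← e_add, ← e_add]
      congr 1
      rw [hab, hac, nbf_eq W r a0 b a, nbf_eq W r a0 b' a]
      unfold xif
      push_cast
      ring
    rw [hFd]
    simp only
    rw [v1, v2, v3, v4, w1, w2]
    unfold omf
    simp only
    rw [hD]
    simp only [map_mul, Complex.conj_conj, Complex.conj_ofReal]
    push_cast
    calc _ = (κ : ℂ) ^ 2 * (c h1 * (starRingEnd ℂ) (c h2) * ((starRingEnd ℂ) (c (h1 - t * b))) *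
          c (h2 - t * b')) * ((rho S (a0 + W * a) : ℂ) * (rho S (a0 + W * (a + t)) : ℂ) *
          (1 + (rho S (b * (a0 + W * a) + W * h1) : ℂ)) *
          (1 + (rho S (b' * (a0 + W * a) + W * h2) : ℂ))) *
          (e (θ h1 * nbf W r a0 b a) * (starRingEnd ℂ) (e (θ h2 * nbf W r a0 b' a)) *
        ((starRingEnd ℂ) (e (θ (h1 - t * b) * nbf W r a0 b (a + t))) *
          e (θ (h2 - t * b') * nbf W r a0 b' (a + t)))) := by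
            rw [hrh]; ring
      _ = _ := by rw [hph]; push_cast; ring
  simp only
  rw [Finset.sum_congr rfl e3, ← Finset.mul_sum, norm_mul, norm_mul, norm_pow, Complex.norm_real,
    Real.norm_eq_abs, sq_abs]
  have : κ ^ 2 * ‖D‖ ≤ κ ^ 2 := by
    have := mul_le_mul_of_nonneg_left hDn (sq_nonneg κ)
    linarith
  exact mul_le_mul_of_nonneg_right this (norm_nonneg _)

end Pool.Agent.Lib.H18GB
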