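import Pool.Agent.Lib.H18GB.STRc

/-!
# Chunk STR, part d: correlations
-/

namespace Pool.Agent.Lib.H18GB

open Finset Pool.Agent.Lib.Sieve

theorem str_er_mono {C C' A w : ℕ} (h1 : 1 ≤ C) (h : C ≤ C') (hw : 1 ≤ w) :
    er C A w ≤ er C' A w := by
  unfold er
  have hC : (0 : ℝ) < C := by exact_mod_cast h1
  have hCC : (C : ℝ) ≤ C' := by exact_mod_cast h
  apply add_le_add
  · apply Real.rpow_le_rpow_of_exponent_le (by norm_num)
    rw [neg_div, neg_div, neg_le_neg_iff]
    exact div_le_div_of_nonneg_left (Nat.cast_nonneg _) hC hCC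
  · apply Real.rpow_le_rpow_of_exponent_le (by exact_mod_cast hw)
    rw [neg_div, neg_div, neg_le_neg_iff]
    exact div_le_div_of_nonneg_left zero_le_one hC hCC

theorem Ers_nn (t : ℝ) (S : Finset ℕ) (m : ℤ) : 0 ≤ Ers t S m := Ers_nonneg t S m

/-- the error of 8 forms -/
noncomputable def Err (C A w z : ℕ) (S : Finset ℕ) (α β : Fin 8 → ℤ) (l : ℝ) : ℝ :=
  l * (C * er C A w + C * ∑ i, ∑ j ∈ Finset.univ.filter (fun j => i ≠ j),
    Ers (9 / 10) S (disc α β i j)) + C * (z : ℝ) ^ (A + 8)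

theorem str_corr : ∃ C : ℕ, 1 ≤ C ∧ ∀ (A w z : ℕ) (S : Finset ℕ), C ≤ A → C ≤ w → 2 ≤ z →
    PSet w z S → ∀ (α β : Fin 8 → ℤ), (∀ p ∈ S, ∀ i, ¬ (p : ℤ) ∣ α i) →
    ∀ (T : Finset (Fin 8)) (a b : ℤ), a ≤ b →
    |∑ x ∈ Finset.Ico a b, ∏ i ∈ T, rho S (α i * x + β i) - (b - a)| ≤
      Err C A w z S α β (b - a) := by
  choose C0 hC0 using corr0
  set C := ∑ k ∈ Finset.range 9, C0 k with hC
  have hCk : ∀ k, k < 9 → C0 k ≤ C := fun k hk =>
    Finset.single_le_sum (f := C0) (fun _ _ => Nat.zero_le _) (Finset.mem_range.mpr hk)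
  refine ⟨C, le_trans (hC0 0).1 (hCk 0 (by norm_num)), ?_⟩
  intro A w z S hA hw hz hS α β hα T a b hab
  have hw1 : 1 ≤ w := le_trans (le_trans (hC0 0).1 (hCk 0 (by norm_num))) hw
  have hTc : T.card ≤ 8 := by
    have := T.card_le_univ
    simpa using this
  set k := T.card with hk
  have hk9 : k < 9 := by omega
  set f : Fin k ↪o Fin 8 := T.orderEmbOfFin rfl with hf
  have hprod : ∀ F : Fin 8 → ℝ, ∏ i ∈ T, F i = ∏ i : Fin k, F (f i) := by
    intro F
    have h1 : T = Finset.univ.map f.toEmbedding := by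
      ext x
      rw [Finset.mem_map]
      constructor
      · intro hx
        have : x ∈ Set.range f := by
          rw [hf, Finset.range_orderEmbOfFin]; exact hx
        obtain ⟨i, hi⟩ := this
        exact ⟨i, Finset.mem_univ _, hi⟩
      · rintro ⟨i, -, hi⟩
        have : f i ∈ T := Finset.orderEmbOfFin_mem T rfl i
        rw [← hi]
        exact this
    conv_lhs => rw [h1]
    rw [Finset.prod_map]
    rfl
  have hmain := (hC0 k).2 A w z S (le_trans (hCk k hk9) hA) (le_trans (hCk k hk9) hw) hz hS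
    (fun i => α (f i)) (fun i => β (f i)) (fun p hp i => hα p hp (f i)) a b hab
  have hrw : ∑ x ∈ Finset.Ico a b, ∏ i ∈ T, rho S (α i * x + β i) =
      ∑ x ∈ Finset.Ico a b, ∏ i : Fin k, rho S (α (f i) * x + β (f i)) :=
    Finset.sum_congr rfl fun x _ => hprod (fun i => rho S (α i * x + β i))
  rw [hrw]
  refine le_trans hmain ?_
  unfold Err
  have hz1 : (1 : ℝ) ≤ z := by exact_mod_cast (by omega : 1 ≤ z)
  have hCk' : (C0 k : ℝ) ≤ C := by exact_mod_cast hCk k hk9
  have hCp : (0 : ℝ) ≤ C := Nat.cast_nonneg _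
  have hba : (0 : ℝ) ≤ (b : ℝ) - a := by
    have : (a : ℝ) ≤ b := by exact_mod_cast hab
    linarith
  apply add_le_add
  · apply mul_le_mul_of_nonneg_left _ hba
    apply add_le_add
    · apply mul_le_mul hCk' (str_er_mono (hC0 k).1 (hCk k hk9) hw1) (er_nonneg _ _ _) hCp
    · apply mul_le_mul hCk' _ _ hCp
      · -- double sums
        set G : Fin 8 → Fin 8 → ℝ := fun i j => if i ≠ j then Ers (9 / 10) S (disc α β i j) else 0
          with hG
        have hG0 : ∀ i j, 0 ≤ G i j := by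
          intro i j
          rw [hG]
          simp only
          split_ifs
          · exact Ers_nn _ _ _
          · exact le_rfl
        have h1 : ∑ i : Fin k, ∑ j ∈ Finset.univ.filter (fun j => i ≠ j),
            Ers (9 / 10) S (disc (fun i => α (f i)) (fun i => β (f i)) i j) =
            ∑ i : Fin k, ∑ j : Fin k, G (f i) (f j) := by
          refine Finset.sum_congr rfl fun i _ => ?_
          rw [Finset.sum_filter]
          refine Finset.sum_congr rfl fun j _ => ?_
          rw [hG]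
          simp only
          have : (i ≠ j) ↔ (f i ≠ f j) := by rw [not_iff_not]; exact f.injective.eq_iff.symm
          by_cases hij : i ≠ j
          · rw [if_pos hij, if_pos (this.mp hij)]; rfl
          · rw [if_neg hij, if_neg (fun h => hij (this.mpr h))]
        have h2 : ∑ i, ∑ j ∈ Finset.univ.filter (fun j => i ≠ j), Ers (9 / 10) S (disc α β i j) =
            ∑ i, ∑ j, G i j := by
          refine Finset.sum_congr rfl fun i _ => ?_
          rw [Finset.sum_filter]
        rw [h1, h2]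
        have h3 : ∀ F : Fin 8 → ℝ, (∀ i, 0 ≤ F i) → ∑ i : Fin k, F (f i) ≤ ∑ i, F i := by
          intro F hF
          have : ∑ i : Fin k, F (f i) = ∑ x ∈ Finset.univ.map f.toEmbedding, F x := by
            rw [Finset.sum_map]; rfl
          rw [this]
          exact Finset.sum_le_sum_of_subset_of_nonneg (Finset.subset_univ _) fun i _ _ => hF i
        refine le_trans (Finset.sum_le_sum fun i _ => h3 (G (f i)) (hG0 _)) ?_
        exact h3 (fun i => ∑ j, G i j) fun i => Finset.sum_nonneg fun j _ => hG0 i j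
      · exact Finset.sum_nonneg fun i _ => Finset.sum_nonneg fun j _ => Ers_nn _ _ _
  · apply mul_le_mul hCk' _ (by positivity) hCp
    exact pow_le_pow_right₀ hz1 (by omega)

theorem Err_nonneg (C A w z : ℕ) (S : Finset ℕ) (α β : Fin 8 → ℤ) (l : ℝ) (hl : 0 ≤ l) :
    0 ≤ Err C A w z S α β l := by
  unfold Err
  have := er_nonneg C A w
  have h2 : 0 ≤ ∑ i, ∑ j ∈ Finset.univ.filter (fun j => i ≠ j), Ers (9 / 10) S (disc α β i j) :=
    Finset.sum_nonneg fun i _ => Finset.sum_nonneg fun j _ => Ers_nn _ _ _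
  positivity

/-- mixed products -/
theorem str_mix {C A w z : ℕ} {S : Finset ℕ} {α β : Fin 8 → ℤ} {a b : ℤ}
    (h : ∀ T : Finset (Fin 8), |∑ x ∈ Finset.Ico a b, ∏ i ∈ T, rho S (α i * x + β i) - (b - a)| ≤
      Err C A w z S α β (b - a)) (T1 T2 : Finset (Fin 8)) (hd : Disjoint T1 T2) :
    |∑ x ∈ Finset.Ico a b, (∏ i ∈ T1, rho S (α i * x + β i)) *
      (∏ i ∈ T2, (1 + rho S (α i * x + β i))) - 2 ^ T2.card * (b - a)| ≤
      2 ^ T2.card * Err C A w z S α β (b - a) := by
  have e1 : ∑ x ∈ Finset.Ico a b, (∏ i ∈ T1, rho S (α i * x + β i)) *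
      (∏ i ∈ T2, (1 + rho S (α i * x + β i))) =
      ∑ T ∈ T2.powerset, ∑ x ∈ Finset.Ico a b, ∏ i ∈ T1 ∪ T, rho S (α i * x + β i) := by
    rw [Finset.sum_comm]
    refine Finset.sum_congr rfl fun x _ => ?_
    rw [Finset.prod_one_add, Finset.mul_sum]
    refine Finset.sum_congr rfl fun T hT => ?_
    rw [Finset.prod_union]
    exact Finset.disjoint_of_subset_right (Finset.mem_powerset.mp hT) hd
  have e2 : (2 : ℝ) ^ T2.card * (b - a) = ∑ T ∈ T2.powerset, ((b : ℝ) - a) := by
    rw [Finset.sum_const, Finset.card_powerset, nsmul_eq_mul]; push_cast; ring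
  have e3 : (2 : ℝ) ^ T2.card * Err C A w z S α β (b - a) =
      ∑ T ∈ T2.powerset, Err C A w z S α β (b - a) := by
    rw [Finset.sum_const, Finset.card_powerset, nsmul_eq_mul]; push_cast; ring
  rw [e1, e2, e3, ← Finset.sum_sub_distrib]
  exact le_trans (Finset.abs_sum_le_sum_abs _ _) (Finset.sum_le_sum fun T _ => h _)

/-- slopes of the 8 forms -/
def alf (W : ℕ) (q : Tup) : Fin 8 → ℤ :=
  ![W, W, W * q.1.1, W * q.1.2, W, W, W * q.1.1, W * q.1.2]

/-- constants of the 8 forms -/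
def bef (W : ℕ) (a0 : ℤ) (q : Tup) (k : ℤ) : Fin 8 → ℤ :=
  ![a0, a0 + W * q.2.1, q.1.1 * a0 + W * q.2.2.1, q.1.2 * a0 + W * q.2.2.2,
    a0 + W * k, a0 + W * (k + q.2.1), q.1.1 * (a0 + W * k) + W * q.2.2.1,
    q.1.2 * (a0 + W * k) + W * q.2.2.2]

theorem str_qq {C A w z : ℕ} {S : Finset ℕ} {W : ℕ} {a0 : ℤ} {q : Tup} {k a b : ℤ}
    (h : ∀ T : Finset (Fin 8), |∑ x ∈ Finset.Ico a b, ∏ i ∈ T,
      rho S (alf W q i * x + bef W a0 q k i) - (b - a)| ≤
      Err C A w z S (alf W q) (bef W a0 q k) (b - a)) (hab : a ≤ b) :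
    |∑ x ∈ Finset.Ico a b, (omf S W a0 q x - 4) * (omf S W a0 q (x + k) - 4)| ≤
      48 * Err C A w z S (alf W q) (bef W a0 q k) (b - a) := by
  set E := Err C A w z S (alf W q) (bef W a0 q k) (b - a) with hE
  have m1 := str_mix h {0, 1, 4, 5} {2, 3, 6, 7} (by decide)
  have m2 := str_mix h {0, 1} {2, 3} (by decide)
  have m3 := str_mix h {4, 5} {6, 7} (by decide)
  rw [← hE] at m1 m2 m3
  have c1 : ({2, 3, 6, 7} : Finset (Fin 8)).card = 4 := by decide
  have c2 : ({2, 3} : Finset (Fin 8)).card = 2 := by decide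
  have c3 : ({6, 7} : Finset (Fin 8)).card = 2 := by decide
  rw [c1] at m1
  rw [c2] at m2
  rw [c3] at m3
  have f1 : ∀ x, (∏ i ∈ ({0, 1, 4, 5} : Finset (Fin 8)), rho S (alf W q i * x + bef W a0 q k i)) *
      (∏ i ∈ ({2, 3, 6, 7} : Finset (Fin 8)), (1 + rho S (alf W q i * x + bef W a0 q k i))) =
      omf S W a0 q x * omf S W a0 q (x + k) := by
    intro x
    rw [Finset.prod_insert (by decide), Finset.prod_insert (by decide),
      Finset.prod_insert (by decide), Finset.prod_singleton, Finset.prod_insert (by decide),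
      Finset.prod_insert (by decide), Finset.prod_insert (by decide), Finset.prod_singleton]
    have g0 : alf W q 0 * x + bef W a0 q k 0 = a0 + W * x := by simp [alf, bef]; ring
    have g1 : alf W q 1 * x + bef W a0 q k 1 = a0 + W * (x + q.2.1) := by simp [alf, bef]; ring
    have g2 : alf W q 2 * x + bef W a0 q k 2 = q.1.1 * (a0 + W * x) + W * q.2.2.1 := by
      simp [alf, bef]; ring
    have g3 : alf W q 3 * x + bef W a0 q k 3 = q.1.2 * (a0 + W * x) + W * q.2.2.2 := by
      simp [alf, bef]; ring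
    have g4 : alf W q 4 * x + bef W a0 q k 4 = a0 + W * (x + k) := by simp [alf, bef]; ring
    have g5 : alf W q 5 * x + bef W a0 q k 5 = a0 + W * (x + k + q.2.1) := by
      simp [alf, bef]; ring
    have g6 : alf W q 6 * x + bef W a0 q k 6 = q.1.1 * (a0 + W * (x + k)) + W * q.2.2.1 := by
      simp [alf, bef]; ring
    have g7 : alf W q 7 * x + bef W a0 q k 7 = q.1.2 * (a0 + W * (x + k)) + W * q.2.2.2 := by
      simp [alf, bef]; ring
    rw [g0, g1, g2, g3, g4, g5, g6, g7]
    unfold omf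
    ring
  have f2 : ∀ x, (∏ i ∈ ({0, 1} : Finset (Fin 8)), rho S (alf W q i * x + bef W a0 q k i)) *
      (∏ i ∈ ({2, 3} : Finset (Fin 8)), (1 + rho S (alf W q i * x + bef W a0 q k i))) =
      omf S W a0 q x := by
    intro x
    rw [Finset.prod_insert (by decide), Finset.prod_singleton, Finset.prod_insert (by decide),
      Finset.prod_singleton]
    have g0 : alf W q 0 * x + bef W a0 q k 0 = a0 + W * x := by simp [alf, bef]; ring
    have g1 : alf W q 1 * x + bef W a0 q k 1 = a0 + W * (x + q.2.1) := by simp [alf, bef]; ring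
    have g2 : alf W q 2 * x + bef W a0 q k 2 = q.1.1 * (a0 + W * x) + W * q.2.2.1 := by
      simp [alf, bef]; ring
    have g3 : alf W q 3 * x + bef W a0 q k 3 = q.1.2 * (a0 + W * x) + W * q.2.2.2 := by
      simp [alf, bef]; ring
    rw [g0, g1, g2, g3]
    unfold omf
    ring
  have f3 : ∀ x, (∏ i ∈ ({4, 5} : Finset (Fin 8)), rho S (alf W q i * x + bef W a0 q k i)) *
      (∏ i ∈ ({6, 7} : Finset (Fin 8)), (1 + rho S (alf W q i * x + bef W a0 q k i))) =
      omf S W a0 q (x + k) := by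
    intro x
    rw [Finset.prod_insert (by decide), Finset.prod_singleton, Finset.prod_insert (by decide),
      Finset.prod_singleton]
    have g4 : alf W q 4 * x + bef W a0 q k 4 = a0 + W * (x + k) := by simp [alf, bef]; ring
    have g5 : alf W q 5 * x + bef W a0 q k 5 = a0 + W * (x + k + q.2.1) := by
      simp [alf, bef]; ring
    have g6 : alf W q 6 * x + bef W a0 q k 6 = q.1.1 * (a0 + W * (x + k)) + W * q.2.2.1 := by
      simp [alf, bef]; ring
    have g7 : alf W q 7 * x + bef W a0 q k 7 = q.1.2 * (a0 + W * (x + k)) + W * q.2.2.2 := by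
      simp [alf, bef]; ring
    rw [g4, g5, g6, g7]
    unfold omf
    ring
  simp only [f1] at m1
  simp only [f2] at m2
  simp only [f3] at m3
  have key : ∑ x ∈ Finset.Ico a b, (omf S W a0 q x - 4) * (omf S W a0 q (x + k) - 4) =
      (∑ x ∈ Finset.Ico a b, omf S W a0 q x * omf S W a0 q (x + k) - 2 ^ 4 * ((b : ℝ) - a)) -
      4 * (∑ x ∈ Finset.Ico a b, omf S W a0 q x - 2 ^ 2 * ((b : ℝ) - a)) -
      4 * (∑ x ∈ Finset.Ico a b, omf S W a0 q (x + k) - 2 ^ 2 * ((b : ℝ) - a)) := by
    have : ∀ x, (omf S W a0 q x - 4) * (omf S W a0 q (x + k) - 4) =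
        omf S W a0 q x * omf S W a0 q (x + k) - 4 * omf S W a0 q x - 4 * omf S W a0 q (x + k) + 16
        := fun x => by ring
    simp only [this, Finset.sum_add_distrib, Finset.sum_sub_distrib, ← Finset.mul_sum,
      Finset.sum_const, Int.card_Ico, nsmul_eq_mul]
    have hc : (((b - a).toNat : ℕ) : ℝ) = (b : ℝ) - a := by
      have : (((b - a).toNat : ℕ) : ℤ) = b - a := Int.toNat_of_nonneg (by omega)
      exact_mod_cast this
    rw [hc]
    ring
  rw [key]
  rw [abs_le] at m1 m2 m3 ⊢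
  constructor <;> linarith [m1.1, m1.2, m2.1, m2.2, m3.1, m3.2]

end Pool.Agent.Lib.H18GB
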