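import Pool.Agent.Lib.H18GB.STRd

/-!
# Chunk STR, part e: averages of the errors over the shifts
-/

namespace Pool.Agent.Lib.H18GB

open Finset Pool.Agent.Lib.Sieve

/-- coprime to the sieving primes -/
def Cop (S : Finset ℕ) (α : ℤ) : Prop := ∀ p ∈ S, ¬ (p : ℤ) ∣ α

theorem Cop.mul {S : Finset ℕ} (hS : ∀ p ∈ S, p.Prime) {α β : ℤ} (h1 : Cop S α) (h2 : Cop S β) :
    Cop S (α * β) := by
  intro p hp h
  rcases (Nat.prime_iff_prime_int.mp (hS p hp)).dvd_or_dvd h with h | h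
  · exact h1 p hp h
  · exact h2 p hp h

theorem Cop.neg {S : Finset ℕ} {α : ℤ} (h1 : Cop S α) : Cop S (-α) := by
  intro p hp h
  exact h1 p hp ((dvd_neg).mp h)

/-- fourfold sums -/
noncomputable def S4 (A1 A2 A3 A4 : Finset ℤ) (f : ℤ → ℤ → ℤ → ℤ → ℝ) : ℝ :=
  ∑ t ∈ A1, ∑ h1 ∈ A2, ∑ h2 ∈ A3, ∑ k ∈ A4, f t h1 h2 k

theorem S4_le {A1 A2 A3 A4 : Finset ℤ} {f g : ℤ → ℤ → ℤ → ℤ → ℝ}
    (h : ∀ t ∈ A1, ∀ h1 ∈ A2, ∀ h2 ∈ A3, ∀ k ∈ A4, f t h1 h2 k ≤ g t h1 h2 k) :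
    S4 A1 A2 A3 A4 f ≤ S4 A1 A2 A3 A4 g :=
  Finset.sum_le_sum fun t ht => Finset.sum_le_sum fun h1 hh1 => Finset.sum_le_sum fun h2 hh2 =>
    Finset.sum_le_sum fun k hk => h t ht h1 hh1 h2 hh2 k hk

theorem S4_k {A1 A2 A3 A4 : Finset ℤ} {f : ℤ → ℤ → ℤ → ℤ → ℝ} {η : ℝ}
    (h : ∀ t h1 h2, ∑ k ∈ A4, f t h1 h2 k ≤ A4.card * η) :
    S4 A1 A2 A3 A4 f ≤ A1.card * A2.card * A3.card * A4.card * η := by
  unfold S4
  refine le_trans (Finset.sum_le_sum fun t _ => Finset.sum_le_sum fun h1 _ =>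
    Finset.sum_le_sum fun h2 _ => h t h1 h2) ?_
  simp only [Finset.sum_const, nsmul_eq_mul]
  apply le_of_eq
  ring

theorem S4_h2 {A1 A2 A3 A4 : Finset ℤ} {f : ℤ → ℤ → ℤ → ℤ → ℝ} {η : ℝ}
    (h : ∀ t h1 k, ∑ h2 ∈ A3, f t h1 h2 k ≤ A3.card * η) :
    S4 A1 A2 A3 A4 f ≤ A1.card * A2.card * A3.card * A4.card * η := by
  unfold S4
  have e : ∀ t h1, ∑ h2 ∈ A3, ∑ k ∈ A4, f t h1 h2 k = ∑ k ∈ A4, ∑ h2 ∈ A3, f t h1 h2 k :=
    fun t h1 => Finset.sum_comm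
  simp only [e]
  refine le_trans (Finset.sum_le_sum fun t _ => Finset.sum_le_sum fun h1 _ =>
    Finset.sum_le_sum fun k _ => h t h1 k) ?_
  simp only [Finset.sum_const, nsmul_eq_mul]
  apply le_of_eq
  ring

theorem S4_h1 {A1 A2 A3 A4 : Finset ℤ} {f : ℤ → ℤ → ℤ → ℤ → ℝ} {η : ℝ}
    (h : ∀ t h2 k, ∑ h1 ∈ A2, f t h1 h2 k ≤ A2.card * η) :
    S4 A1 A2 A3 A4 f ≤ A1.card * A2.card * A3.card * A4.card * η := by
  unfold S4
  have e : ∀ t, ∑ h1 ∈ A2, ∑ h2 ∈ A3, ∑ k ∈ A4, f t h1 h2 k =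
      ∑ h2 ∈ A3, ∑ k ∈ A4, ∑ h1 ∈ A2, f t h1 h2 k := by
    intro t
    rw [Finset.sum_comm]
    refine Finset.sum_congr rfl fun h2 _ => ?_
    rw [Finset.sum_comm]
  simp only [e]
  refine le_trans (Finset.sum_le_sum fun t _ => Finset.sum_le_sum fun h2 _ =>
    Finset.sum_le_sum fun k _ => h t h2 k) ?_
  simp only [Finset.sum_const, nsmul_eq_mul]
  apply le_of_eq
  ring

theorem S4_t {A1 A2 A3 A4 : Finset ℤ} {f : ℤ → ℤ → ℤ → ℤ → ℝ} {η : ℝ}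
    (h : ∀ h1 h2 k, ∑ t ∈ A1, f t h1 h2 k ≤ A1.card * η) :
    S4 A1 A2 A3 A4 f ≤ A1.card * A2.card * A3.card * A4.card * η := by
  unfold S4
  have e : ∑ t ∈ A1, ∑ h1 ∈ A2, ∑ h2 ∈ A3, ∑ k ∈ A4, f t h1 h2 k =
      ∑ h1 ∈ A2, ∑ h2 ∈ A3, ∑ k ∈ A4, ∑ t ∈ A1, f t h1 h2 k := by
    rw [Finset.sum_comm]
    refine Finset.sum_congr rfl fun h1 _ => ?_
    rw [Finset.sum_comm]
    refine Finset.sum_congr rfl fun h2 _ => ?_
    rw [Finset.sum_comm]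
  rw [e]
  refine le_trans (Finset.sum_le_sum fun h1 _ => Finset.sum_le_sum fun h2 _ =>
    Finset.sum_le_sum fun k _ => h h1 h2 k) ?_
  simp only [Finset.sum_const, nsmul_eq_mul]
  apply le_of_eq
  ring

/-- averages of `Ers` over one variable -/
theorem str_av : ∃ C : ℝ, 1 ≤ C ∧ ∀ (w z : ℕ) (S : Finset ℕ), 1 ≤ w → PSet w z S →
    ∀ α β : ℤ, Cop S α → ∀ a b : ℤ, a ≤ b → (z : ℤ) * w ≤ b - a →
    ∑ h ∈ Finset.Ico a b, Ers (9 / 10) S (α * h + β) ≤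
      (Finset.Ico a b).card * (C * (w : ℝ) ^ (-(9 / 10 : ℝ))) := by
  obtain ⟨C, hC1, hC⟩ := ers_avg (9 / 10) (by norm_num) (by norm_num)
  refine ⟨2 * C, by linarith, ?_⟩
  intro w z S hw hS α β hα a b hab hz
  refine le_trans (hC w z S hw hS α β hα a b hab) ?_
  have hc : ((Finset.Ico a b).card : ℝ) = (b : ℝ) - a := by
    rw [Int.card_Ico]
    have : (((b - a).toNat : ℕ) : ℤ) = b - a := Int.toNat_of_nonneg (by omega)
    exact_mod_cast this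
  rw [hc]
  have hw' : (1 : ℝ) ≤ w := by exact_mod_cast hw
  have hz' : (z : ℝ) * w ≤ (b : ℝ) - a := by exact_mod_cast hz
  have h1 : (w : ℝ)⁻¹ ≤ (w : ℝ) ^ (-(9 / 10 : ℝ)) := by
    rw [← Real.rpow_neg_one]
    exact Real.rpow_le_rpow_of_exponent_le hw' (by norm_num)
  have h2 : (z : ℝ) ≤ ((b : ℝ) - a) * (w : ℝ) ^ (-(9 / 10 : ℝ)) := by
    have h3 : (z : ℝ) = (z * w) * (w : ℝ)⁻¹ := by field_simp
    rw [h3]
    apply mul_le_mul hz' h1 (by positivity)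
    have : (0 : ℝ) ≤ (z : ℝ) * w := by positivity
    linarith
  nlinarith

/-- the constant list of the bounds for one pair of forms -/
theorem str_box {C : ℝ} (hCav : ∀ (w z : ℕ) (S : Finset ℕ), 1 ≤ w → PSet w z S →
    ∀ α β : ℤ, Cop S α → ∀ a b : ℤ, a ≤ b → (z : ℤ) * w ≤ b - a →
    ∑ h ∈ Finset.Ico a b, Ers (9 / 10) S (α * h + β) ≤
      (Finset.Ico a b).card * (C * (w : ℝ) ^ (-(9 / 10 : ℝ))))
    {w z W : ℕ} {S : Finset ℕ} (hw : 1 ≤ w) (hS : PSet w z S) (a0 : ℤ) {b c : ℕ}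
    (hW : Cop S W) (hb : Cop S b) (hc : Cop S c) {x1 y1 x2 y2 x3 y3 : ℤ}
    (h1 : x1 ≤ y1) (g1 : (z : ℤ) * w ≤ y1 - x1) (h2 : x2 ≤ y2) (g2 : (z : ℤ) * w ≤ y2 - x2)
    (h3 : x3 ≤ y3) (g3 : (z : ℤ) * w ≤ y3 - x3) (i j : Fin 8) (hij : i ≠ j) :
    S4 (Finset.Ico x1 y1) (Finset.Ico x2 y2) (Finset.Ico x2 y2) (Finset.Ico x3 y3)
      (fun t h1 h2 k => Ers (9 / 10) S (disc (alf W ((b, c), (t, (h1, h2))))
        (bef W a0 ((b, c), (t, (h1, h2))) k) i j)) ≤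
      (Finset.Ico x1 y1).card * (Finset.Ico x2 y2).card * (Finset.Ico x2 y2).card *
        (Finset.Ico x3 y3).card * (C * (w : ℝ) ^ (-(9 / 10 : ℝ))) := by
  have hSp := hS.prime
  have alt_t : ∀ (α : ℤ) (_ : Cop S α) (F : ℤ → ℤ → ℤ → ℤ → ℤ),
      (∀ t h1 h2 k, F t h1 h2 k = α * t + F 0 h1 h2 k) →
      S4 (Finset.Ico x1 y1) (Finset.Ico x2 y2) (Finset.Ico x2 y2) (Finset.Ico x3 y3)
      (fun t h1 h2 k => Ers (9 / 10) S (F t h1 h2 k)) ≤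
      (Finset.Ico x1 y1).card * (Finset.Ico x2 y2).card * (Finset.Ico x2 y2).card *
        (Finset.Ico x3 y3).card * (C * (w : ℝ) ^ (-(9 / 10 : ℝ))) := by
    intro α hα F hF
    refine S4_t fun h1' h2' k => ?_
    have : ∀ t, Ers (9 / 10) S (F t h1' h2' k) = Ers (9 / 10) S (α * t + F 0 h1' h2' k) :=
      fun t => by rw [← hF]
    simp only [this]
    exact hCav w z S hw hS α _ hα _ _ h1 g1
  have alt_h1 : ∀ (α : ℤ) (_ : Cop S α) (F : ℤ → ℤ → ℤ → ℤ → ℤ),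
      (∀ t h1 h2 k, F t h1 h2 k = α * h1 + F t 0 h2 k) →
      S4 (Finset.Ico x1 y1) (Finset.Ico x2 y2) (Finset.Ico x2 y2) (Finset.Ico x3 y3)
      (fun t h1 h2 k => Ers (9 / 10) S (F t h1 h2 k)) ≤
      (Finset.Ico x1 y1).card * (Finset.Ico x2 y2).card * (Finset.Ico x2 y2).card *
        (Finset.Ico x3 y3).card * (C * (w : ℝ) ^ (-(9 / 10 : ℝ))) := by
    intro α hα F hF
    refine S4_h1 fun t h2' k => ?_
    have : ∀ h1', Ers (9 / 10) S (F t h1' h2' k) = Ers (9 / 10) S (α * h1' + F t 0 h2' k) :=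
      fun h1' => by rw [← hF]
    simp only [this]
    exact hCav w z S hw hS α _ hα _ _ h2 g2
  have alt_h2 : ∀ (α : ℤ) (_ : Cop S α) (F : ℤ → ℤ → ℤ → ℤ → ℤ),
      (∀ t h1 h2 k, F t h1 h2 k = α * h2 + F t h1 0 k) →
      S4 (Finset.Ico x1 y1) (Finset.Ico x2 y2) (Finset.Ico x2 y2) (Finset.Ico x3 y3)
      (fun t h1 h2 k => Ers (9 / 10) S (F t h1 h2 k)) ≤
      (Finset.Ico x1 y1).card * (Finset.Ico x2 y2).card * (Finset.Ico x2 y2).card *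
        (Finset.Ico x3 y3).card * (C * (w : ℝ) ^ (-(9 / 10 : ℝ))) := by
    intro α hα F hF
    refine S4_h2 fun t h1' k => ?_
    have : ∀ h2', Ers (9 / 10) S (F t h1' h2' k) = Ers (9 / 10) S (α * h2' + F t h1' 0 k) :=
      fun h2' => by rw [← hF]
    simp only [this]
    exact hCav w z S hw hS α _ hα _ _ h2 g2
  have alt_k : ∀ (α : ℤ) (_ : Cop S α) (F : ℤ → ℤ → ℤ → ℤ → ℤ),
      (∀ t h1 h2 k, F t h1 h2 k = α * k + F t h1 h2 0) →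
      S4 (Finset.Ico x1 y1) (Finset.Ico x2 y2) (Finset.Ico x2 y2) (Finset.Ico x3 y3)
      (fun t h1 h2 k => Ers (9 / 10) S (F t h1 h2 k)) ≤
      (Finset.Ico x1 y1).card * (Finset.Ico x2 y2).card * (Finset.Ico x2 y2).card *
        (Finset.Ico x3 y3).card * (C * (w : ℝ) ^ (-(9 / 10 : ℝ))) := by
    intro α hα F hF
    refine S4_k fun t h1' h2' => ?_
    have : ∀ k, Ers (9 / 10) S (F t h1' h2' k) = Ers (9 / 10) S (α * k + F t h1' h2' 0) :=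
      fun k => by rw [← hF]
    simp only [this]
    exact hCav w z S hw hS α _ hα _ _ h3 g3
  have p1 : Cop S ((W : ℤ) * W) := hW.mul hSp hW
  have p2 : Cop S ((W : ℤ) * W * b) := p1.mul hSp hb
  have p3 : Cop S ((W : ℤ) * W * (b * b)) := p1.mul hSp (hb.mul hSp hb)
  have p4 : Cop S ((W : ℤ) * W * (c * c)) := p1.mul hSp (hc.mul hSp hc)
  have n1 := p1.neg
  have n2 := p2.neg
  have n3 := p3.neg
  have n4 := p4.neg
  fin_cases i <;> fin_cases j <;>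
    simp only [disc, alf, bef, Fin.zero_eta, Fin.mk_one, Fin.reduceFinMk, Matrix.cons_val_zero,
      Matrix.cons_val_one, Matrix.cons_val, ne_eq, not_true_eq_false] at hij ⊢ <;>
    first
      | exact absurd rfl hij
      | exact absurd hij not_false
      | exact alt_h1 _ p1 _ (by intro t h1 h2 k; ring1)
      | exact alt_h1 _ n1 _ (by intro t h1 h2 k; ring1)
      | exact alt_h2 _ p1 _ (by intro t h1 h2 k; ring1)
      | exact alt_h2 _ n1 _ (by intro t h1 h2 k; ring1)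
      | exact alt_h2 _ p2 _ (by intro t h1 h2 k; ring1)
      | exact alt_h2 _ n2 _ (by intro t h1 h2 k; ring1)
      | exact alt_t _ p1 _ (by intro t h1 h2 k; ring1)
      | exact alt_t _ n1 _ (by intro t h1 h2 k; ring1)
      | exact alt_k _ p1 _ (by intro t h1 h2 k; ring1)
      | exact alt_k _ n1 _ (by intro t h1 h2 k; ring1)
      | exact alt_k _ p3 _ (by intro t h1 h2 k; ring1)
      | exact alt_k _ n3 _ (by intro t h1 h2 k; ring1)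
      | exact alt_k _ p4 _ (by intro t h1 h2 k; ring1)
      | exact alt_k _ n4 _ (by intro t h1 h2 k; ring1)

end Pool.Agent.Lib.H18GB
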