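import Pool.Agent.Lib.H18GB.STRe

/-!
# Chunk STR, part f: the cost of replacing the weights by their mean
-/

namespace Pool.Agent.Lib.H18GB

open Finset Pool.Agent.Lib.Sieve

theorem Err_mono (C A w z : ℕ) (S : Finset ℕ) (α β : Fin 8 → ℤ) {l l' : ℝ} (hl : l ≤ l') :
    Err C A w z S α β l ≤ Err C A w z S α β l' := by
  unfold Err
  have := er_nonneg C A w
  have h2 : 0 ≤ ∑ i, ∑ j ∈ Finset.univ.filter (fun j => i ≠ j), Ers (9 / 10) S (disc α β i j) :=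
    Finset.sum_nonneg fun i _ => Finset.sum_nonneg fun j _ => Ers_nn _ _ _
  have h3 : 0 ≤ (C : ℝ) * er C A w + C * ∑ i, ∑ j ∈ Finset.univ.filter (fun j => i ≠ j),
    Ers (9 / 10) S (disc α β i j) := by positivity
  have := mul_le_mul_of_nonneg_right hl h3
  linarith

theorem S4_add {A1 A2 A3 A4 : Finset ℤ} (f g : ℤ → ℤ → ℤ → ℤ → ℝ) :
    S4 A1 A2 A3 A4 (fun t h1 h2 k => f t h1 h2 k + g t h1 h2 k) =
      S4 A1 A2 A3 A4 f + S4 A1 A2 A3 A4 g := by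
  unfold S4
  simp only [Finset.sum_add_distrib]

theorem S4_const {A1 A2 A3 A4 : Finset ℤ} (x : ℝ) :
    S4 A1 A2 A3 A4 (fun _ _ _ _ => x) = A1.card * A2.card * A3.card * A4.card * x := by
  unfold S4
  simp only [Finset.sum_const, nsmul_eq_mul]
  ring

theorem S4_mul {A1 A2 A3 A4 : Finset ℤ} (x : ℝ) (f : ℤ → ℤ → ℤ → ℤ → ℝ) :
    S4 A1 A2 A3 A4 (fun t h1 h2 k => x * f t h1 h2 k) = x * S4 A1 A2 A3 A4 f := by
  unfold S4
  simp only [Finset.mul_sum]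

theorem S4_sum {ι : Type*} {A1 A2 A3 A4 : Finset ℤ} (s : Finset ι) (f : ι → ℤ → ℤ → ℤ → ℤ → ℝ) :
    S4 A1 A2 A3 A4 (fun t h1 h2 k => ∑ i ∈ s, f i t h1 h2 k) =
      ∑ i ∈ s, S4 A1 A2 A3 A4 (f i) := by
  unfold S4
  have e1 : ∀ t h1 h2, ∑ k ∈ A4, ∑ i ∈ s, f i t h1 h2 k = ∑ i ∈ s, ∑ k ∈ A4, f i t h1 h2 k :=
    fun t h1 h2 => Finset.sum_comm
  simp only [e1]
  have e2 : ∀ t h1, ∑ h2 ∈ A3, ∑ i ∈ s, ∑ k ∈ A4, f i t h1 h2 k =
      ∑ i ∈ s, ∑ h2 ∈ A3, ∑ k ∈ A4, f i t h1 h2 k := fun t h1 => Finset.sum_comm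
  simp only [e2]
  have e3 : ∀ t, ∑ h1 ∈ A2, ∑ i ∈ s, ∑ h2 ∈ A3, ∑ k ∈ A4, f i t h1 h2 k =
      ∑ i ∈ s, ∑ h1 ∈ A2, ∑ h2 ∈ A3, ∑ k ∈ A4, f i t h1 h2 k := fun t => Finset.sum_comm
  simp only [e3]
  rw [Finset.sum_comm]

theorem str_S4Err {C : ℕ} {C' : ℝ} (hCav : ∀ (w z : ℕ) (S : Finset ℕ), 1 ≤ w → PSet w z S →
    ∀ α β : ℤ, Cop S α → ∀ a b : ℤ, a ≤ b → (z : ℤ) * w ≤ b - a →
    ∑ h ∈ Finset.Ico a b, Ers (9 / 10) S (α * h + β) ≤
      (Finset.Ico a b).card * (C' * (w : ℝ) ^ (-(9 / 10 : ℝ))))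
    {A w z W : ℕ} {S : Finset ℕ} (hw : 1 ≤ w) (hS : PSet w z S) (a0 : ℤ) {b c : ℕ}
    (hW : Cop S W) (hb : Cop S b) (hc : Cop S c) {x1 y1 x2 y2 x3 y3 : ℤ}
    (h1 : x1 ≤ y1) (g1 : (z : ℤ) * w ≤ y1 - x1) (h2 : x2 ≤ y2) (g2 : (z : ℤ) * w ≤ y2 - x2)
    (h3 : x3 ≤ y3) (g3 : (z : ℤ) * w ≤ y3 - x3) (hC' : 1 ≤ C') (l : ℝ) (hl : 0 ≤ l) :
    S4 (Finset.Ico x1 y1) (Finset.Ico x2 y2) (Finset.Ico x2 y2) (Finset.Ico x3 y3)
      (fun t h1 h2 k => Err C A w z S (alf W ((b, c), (t, (h1, h2))))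
        (bef W a0 ((b, c), (t, (h1, h2))) k) l) ≤
      (Finset.Ico x1 y1).card * (Finset.Ico x2 y2).card * (Finset.Ico x2 y2).card *
        (Finset.Ico x3 y3).card *
        (l * (C * er C A w + C * (64 * (C' * (w : ℝ) ^ (-(9 / 10 : ℝ))))) +
          C * (z : ℝ) ^ (A + 8)) := by
  unfold Err
  rw [S4_add, S4_const, S4_mul, S4_add, S4_const, S4_mul, S4_sum]
  set N : ℝ := (Finset.Ico x1 y1).card * (Finset.Ico x2 y2).card * (Finset.Ico x2 y2).card *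
        (Finset.Ico x3 y3).card with hN
  set η : ℝ := C' * (w : ℝ) ^ (-(9 / 10 : ℝ)) with hη
  have hN0 : 0 ≤ N := by positivity
  have hη0 : 0 ≤ η := by positivity
  have h5 : ∑ i, S4 (Finset.Ico x1 y1) (Finset.Ico x2 y2) (Finset.Ico x2 y2) (Finset.Ico x3 y3)
      (fun t h1 h2 k => ∑ j ∈ Finset.univ.filter (fun j => i ≠ j),
        Ers (9 / 10) S (disc (alf W ((b, c), (t, (h1, h2))))
        (bef W a0 ((b, c), (t, (h1, h2))) k) i j)) ≤ 64 * (N * η) := by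
    have h6 : ∀ i : Fin 8, S4 (Finset.Ico x1 y1) (Finset.Ico x2 y2) (Finset.Ico x2 y2)
      (Finset.Ico x3 y3) (fun t h1 h2 k => ∑ j ∈ Finset.univ.filter (fun j => i ≠ j),
        Ers (9 / 10) S (disc (alf W ((b, c), (t, (h1, h2))))
        (bef W a0 ((b, c), (t, (h1, h2))) k) i j)) ≤ 8 * (N * η) := by
      intro i
      rw [S4_sum]
      have h7 : ∀ j ∈ Finset.univ.filter (fun j : Fin 8 => i ≠ j),
          S4 (Finset.Ico x1 y1) (Finset.Ico x2 y2) (Finset.Ico x2 y2) (Finset.Ico x3 y3)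
          (fun t h1 h2 k => Ers (9 / 10) S (disc (alf W ((b, c), (t, (h1, h2))))
            (bef W a0 ((b, c), (t, (h1, h2))) k) i j)) ≤ N * η := by
        intro j hj
        exact str_box hCav hw hS a0 hW hb hc h1 g1 h2 g2 h3 g3 i j (Finset.mem_filter.mp hj).2
      refine le_trans (Finset.sum_le_sum h7) ?_
      rw [Finset.sum_const, nsmul_eq_mul]
      apply mul_le_mul_of_nonneg_right _ (by positivity)
      have : (Finset.univ.filter (fun j : Fin 8 => i ≠ j)).card ≤ 8 := by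
        refine le_trans (Finset.card_filter_le _ _) ?_
        simp
      exact_mod_cast this
    refine le_trans (Finset.sum_le_sum fun i _ => h6 i) ?_
    rw [Finset.sum_const, nsmul_eq_mul]
    simp only [Finset.card_univ, Fintype.card_fin]
    apply le_of_eq
    push_cast
    ring
  have hCp : (0 : ℝ) ≤ C := Nat.cast_nonneg _
  have h8 := mul_le_mul_of_nonneg_left h5 (mul_nonneg hl hCp)
  nlinarith [h8]

/-- sums over `Tf` -/
theorem Tf_sum_le {M B : ℕ} {P : Finset ℕ} {H : Finset ℤ} (hH : H ⊆ Finset.Ioo (-(M : ℤ)) M)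
    (f : Tup → ℝ) (hf : ∀ q, 0 ≤ f q) :
    ∑ q ∈ Tf M B P H, f q ≤ ∑ b ∈ P, ∑ c ∈ P,
      ∑ t ∈ Finset.Ico (-((M / B : ℕ) : ℤ)) ((M / B : ℕ) + 1),
      ∑ h1 ∈ Finset.Ico (-(M : ℤ) + 1) M, ∑ h2 ∈ Finset.Ico (-(M : ℤ) + 1) M,
        f ((b, c), (t, (h1, h2))) := by
  have h1 : Tf M B P H ⊆ (P ×ˢ P) ×ˢ (Finset.Ico (-((M / B : ℕ) : ℤ)) ((M / B : ℕ) + 1) ×ˢ
      (Finset.Ico (-(M : ℤ) + 1) M ×ˢ Finset.Ico (-(M : ℤ) + 1) M)) := by
    intro q hq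
    simp only [Tf, Finset.mem_filter, Finset.mem_product, Finset.mem_Icc] at hq
    obtain ⟨⟨⟨hb, hc⟩, ht, hh1, hh2⟩, -⟩ := hq
    have g1 := hH hh1
    have g2 := hH hh2
    simp only [Finset.mem_Ioo] at g1 g2
    simp only [Finset.mem_product, Finset.mem_Ico]
    exact ⟨⟨hb, hc⟩, ⟨by omega, by omega⟩, ⟨by omega, by omega⟩, by omega, by omega⟩
  refine le_trans (Finset.sum_le_sum_of_subset_of_nonneg h1 fun q _ _ => hf q) ?_
  apply le_of_eq
  rw [Finset.sum_product, Finset.sum_product]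
  refine Finset.sum_congr rfl fun b _ => Finset.sum_congr rfl fun c _ => ?_
  rw [Finset.sum_product]
  refine Finset.sum_congr rfl fun t _ => ?_
  rw [Finset.sum_product]

theorem str_Q : ∃ K : ℕ, 1 ≤ K ∧ ∀ (A w z W B M : ℕ) (S : Finset ℕ) (r a0 : ℤ) (P : Finset ℕ)
    (H : Finset ℤ) (θ : ℤ → ℝ), K ≤ A → K ≤ w → w ≤ z → PSet w z S → Cop S W →
    (∀ b ∈ P, Cop S b) → H ⊆ Finset.Ioo (-(M : ℤ)) M → 0 < B → z ^ (A + 10) ≤ M / B →
    ∑ q ∈ Tf M B P H,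
      ‖∑ a ∈ Jf W r a0 M B q, ((omf S W a0 q a - 4 : ℝ) : ℂ) * e (xif θ q * a)‖ ^ 2 ≤
    K * er K A w * (P.card : ℝ) ^ 2 * ((M / B : ℕ) : ℝ) ^ 3 * (M : ℝ) ^ 2 := by
  obtain ⟨C, hC1, hC⟩ := str_corr
  obtain ⟨C', hC1', hC'⟩ := str_av
  set K : ℕ := ⌈1728 * (3 * C + 128 * C * C')⌉₊ + C + 2 with hK
  have hKC : C ≤ K := by omega
  have hK2 : 2 ≤ K := by omega
  refine ⟨K, by omega, ?_⟩
  intro A w z W B M S r a0 P H θ hA hw hwz hS hcW hcP hH hB hzm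
  set m := M / B with hm
  have hw1 : 1 ≤ w := by omega
  have hz2 : 2 ≤ z := by omega
  have hmM : m ≤ M := Nat.div_le_self _ _
  have hzw : z * w ≤ m := by
    calc z * w ≤ z * z := Nat.mul_le_mul_left _ hwz
      _ = z ^ 2 := by ring
      _ ≤ z ^ (A + 10) := Nat.pow_le_pow_right (by omega) (by omega)
      _ ≤ m := hzm
  have hm5 : 5 ≤ m := by
    calc 5 ≤ 2 ^ 10 := by norm_num
      _ ≤ z ^ 10 := Nat.pow_le_pow_left hz2 10
      _ ≤ z ^ (A + 10) := Nat.pow_le_pow_right (by omega) (by omega)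
      _ ≤ m := hzm
  have hzw' : (z : ℤ) * w ≤ m := by exact_mod_cast hzw
  -- one tuple
  have hone : ∀ q ∈ Tf M B P H,
      ‖∑ a ∈ Jf W r a0 M B q, ((omf S W a0 q a - 4 : ℝ) : ℂ) * e (xif θ q * a)‖ ^ 2 ≤
      ∑ k ∈ Finset.Ico (-((m + 3 : ℕ) : ℤ) + 1) ((m + 3 : ℕ) : ℤ),
        48 * Err C A w z S (alf W q) (bef W a0 q k) (m + 3) := by
    intro q hq
    have hJ : Jf W r a0 M B q ⊆ Finset.Ico (-2 : ℤ) (-2 + ((m + 3 : ℕ) : ℤ)) := by
      have := Jf_sub W r a0 M B q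
      refine this.trans (Finset.Ico_subset_Ico le_rfl ?_)
      push_cast
      omega
    have hv := str_vdc (-2) (m + 3) (Jf W r a0 M B q) hJ (fun a => omf S W a0 q a - 4) (xif θ q)
    refine le_trans hv ?_
    have hIoo : Finset.Ioo (-((m + 3 : ℕ) : ℤ)) ((m + 3 : ℕ) : ℤ) =
        Finset.Ico (-((m + 3 : ℕ) : ℤ) + 1) ((m + 3 : ℕ) : ℤ) := by
      ext x; simp only [Finset.mem_Ioo, Finset.mem_Ico]; omega
    rw [hIoo]
    refine Finset.sum_le_sum fun k _ => ?_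
    -- the interval
    have hconn : ∀ x ∈ (Jf W r a0 M B q).filter (fun a => a + k ∈ Jf W r a0 M B q),
        ∀ y ∈ (Jf W r a0 M B q).filter (fun a => a + k ∈ Jf W r a0 M B q), ∀ v, x ≤ v → v ≤ y →
        v ∈ (Jf W r a0 M B q).filter (fun a => a + k ∈ Jf W r a0 M B q) := by
      intro x hx y hy v h1 h2
      rw [Finset.mem_filter] at hx hy ⊢
      exact ⟨Jf_conn W r a0 M B q x hx.1 y hy.1 v h1 h2,
        Jf_conn W r a0 M B q (x + k) hx.2 (y + k) hy.2 (v + k) (by omega) (by omega)⟩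
    obtain ⟨a, b, hab, hJab⟩ := str_conn _ hconn
    rw [hJab]
    have hl : (b : ℝ) - a ≤ m + 3 := by
      have h1 : (Finset.Ico a b).card ≤ (Finset.Ico (-2 : ℤ) (-2 + ((m + 3 : ℕ) : ℤ))).card := by
        rw [← hJab]
        exact Finset.card_le_card ((Finset.filter_subset _ _).trans hJ)
      rw [Int.card_Ico, Int.card_Ico] at h1
      have h2 : b - a ≤ m + 3 := by omega
      exact_mod_cast h2
    have hα : ∀ p ∈ S, ∀ i, ¬ (p : ℤ) ∣ alf W q i := by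
      intro p hp i
      simp only [Tf, Finset.mem_filter, Finset.mem_product] at hq
      obtain ⟨⟨⟨hb, hc⟩, -⟩, -⟩ := hq
      have c1 := hcW p hp
      have c2 := (hcW.mul hS.prime (hcP _ hb)) p hp
      have c3 := (hcW.mul hS.prime (hcP _ hc)) p hp
      fin_cases i <;> simp only [alf, Fin.zero_eta, Fin.mk_one, Fin.reduceFinMk,
        Matrix.cons_val_zero, Matrix.cons_val_one, Matrix.cons_val] <;> assumption
    have hcr := hC A w z S (le_trans hKC hA) (le_trans hKC hw) hz2 hS (alf W q) (bef W a0 q k) hα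
    refine le_trans (str_qq (fun T => hcr T a b hab) hab) ?_
    exact mul_le_mul_of_nonneg_left (Err_mono _ _ _ _ _ _ _ hl) (by norm_num)
  refine le_trans (Finset.sum_le_sum hone) ?_
  have hE0 : ∀ q k, 0 ≤ Err C A w z S (alf W q) (bef W a0 q k) (m + 3) :=
    fun q k => Err_nonneg _ _ _ _ _ _ _ _ (by positivity)
  refine le_trans (Tf_sum_le hH _ fun q => Finset.sum_nonneg fun k _ =>
    mul_nonneg (by norm_num) (hE0 q k)) ?_
  -- sum over the box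
  set N : ℝ := (Finset.Ico (-(m : ℤ)) (m + 1)).card * (Finset.Ico (-(M : ℤ) + 1) M).card *
    (Finset.Ico (-(M : ℤ) + 1) M).card *
    (Finset.Ico (-((m + 3 : ℕ) : ℤ) + 1) ((m + 3 : ℕ) : ℤ)).card with hN
  set X : ℝ := ((m : ℝ) + 3) * (C * er C A w + C * (64 * (C' * (w : ℝ) ^ (-(9 / 10 : ℝ))))) +
          C * (z : ℝ) ^ (A + 8) with hX
  have hbc : ∀ b ∈ P, ∀ c ∈ P, ∑ t ∈ Finset.Ico (-(m : ℤ)) (m + 1),
      ∑ h1 ∈ Finset.Ico (-(M : ℤ) + 1) M, ∑ h2 ∈ Finset.Ico (-(M : ℤ) + 1) M,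
        ∑ k ∈ Finset.Ico (-((m + 3 : ℕ) : ℤ) + 1) ((m + 3 : ℕ) : ℤ),
        48 * Err C A w z S (alf W ((b, c), (t, (h1, h2)))) (bef W a0 ((b, c), (t, (h1, h2))) k)
          (m + 3) ≤ 48 * (N * X) := by
    intro b hb c hc
    have h1 := str_S4Err (C := C) (A := A) hC' hw1 hS a0 hcW (hcP b hb) (hcP c hc)
      (x1 := -(m : ℤ)) (y1 := m + 1) (x2 := -(M : ℤ) + 1) (y2 := M)
      (x3 := -((m + 3 : ℕ) : ℤ) + 1) (y3 := ((m + 3 : ℕ) : ℤ)) (by omega) (by omega) (by omega)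
      (by omega) (by push_cast; omega) (by push_cast; omega) hC1' ((m : ℝ) + 3) (by positivity)
    have h2 := S4_mul (A1 := Finset.Ico (-(m : ℤ)) (m + 1)) (A2 := Finset.Ico (-(M : ℤ) + 1) M)
      (A3 := Finset.Ico (-(M : ℤ) + 1) M)
      (A4 := Finset.Ico (-((m + 3 : ℕ) : ℤ) + 1) ((m + 3 : ℕ) : ℤ)) 48
      (fun t h1 h2 k => Err C A w z S (alf W ((b, c), (t, (h1, h2))))
        (bef W a0 ((b, c), (t, (h1, h2))) k) (m + 3))
    have h3 := mul_le_mul_of_nonneg_left h1 (by norm_num : (0 : ℝ) ≤ 48)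
    rw [← h2] at h3
    exact h3
  refine le_trans (Finset.sum_le_sum fun b hb => Finset.sum_le_sum fun c hc => hbc b hb c hc) ?_
  simp only [Finset.sum_const, nsmul_eq_mul]
  -- numerical bounds
  have hm5' : (5 : ℝ) ≤ m := by exact_mod_cast hm5
  have hM5' : (5 : ℝ) ≤ M := by exact_mod_cast le_trans hm5 hmM
  have hN' : N ≤ 36 * (m : ℝ) ^ 2 * (M : ℝ) ^ 2 := by
    rw [hN]
    simp only [Int.card_Ico]
    have e1 : (((m : ℤ) + 1 - -(m : ℤ)).toNat : ℝ) ≤ 3 * m := by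
      have : ((m : ℤ) + 1 - -(m : ℤ)).toNat ≤ 3 * m := by omega
      exact_mod_cast this
    have e2 : (((M : ℤ) - (-(M : ℤ) + 1)).toNat : ℝ) ≤ 2 * M := by
      have : ((M : ℤ) - (-(M : ℤ) + 1)).toNat ≤ 2 * M := by omega
      exact_mod_cast this
    have e3 : ((((m + 3 : ℕ) : ℤ) - (-((m + 3 : ℕ) : ℤ) + 1)).toNat : ℝ) ≤ 3 * m := by
      have : (((m + 3 : ℕ) : ℤ) - (-((m + 3 : ℕ) : ℤ) + 1)).toNat ≤ 3 * m := by omega
      exact_mod_cast this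
    calc _ ≤ (3 * (m : ℝ)) * (2 * M) * (2 * M) * (3 * m) := by gcongr
      _ = _ := by ring
  have hw' : (1 : ℝ) ≤ w := by exact_mod_cast hw1
  have hz1' : (1 : ℝ) ≤ z := by exact_mod_cast (by omega : 1 ≤ z)
  have hK' : (0 : ℝ) < K := by exact_mod_cast (by omega : 0 < K)
  have q1 : er C A w ≤ er K A w := str_er_mono hC1 hKC hw1
  have q2 : (w : ℝ) ^ (-(9 / 10 : ℝ)) ≤ er K A w := by
    have h1 : (w : ℝ) ^ (-(9 / 10 : ℝ)) ≤ (w : ℝ) ^ (-(1 : ℝ) / K) := by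
      apply Real.rpow_le_rpow_of_exponent_le hw'
      rw [neg_div, neg_le_neg_iff, div_le_iff₀ hK']
      have : (2 : ℝ) ≤ K := by exact_mod_cast hK2
      linarith
    refine le_trans h1 ?_
    unfold er
    have : (0 : ℝ) ≤ (2 : ℝ) ^ (-(A : ℝ) / K) := Real.rpow_nonneg (by norm_num) _
    linarith
  have q3 : (z : ℝ) ^ (A + 8) ≤ m * er K A w := by
    have h1 : (w : ℝ)⁻¹ ≤ er K A w := by
      refine le_trans ?_ q2
      rw [← Real.rpow_neg_one]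
      exact Real.rpow_le_rpow_of_exponent_le hw' (by norm_num)
    have h2 : (z : ℝ) ^ (A + 8) * w ≤ m := by
      have : z ^ (A + 8) * w ≤ m := by
        calc z ^ (A + 8) * w ≤ z ^ (A + 8) * z := Nat.mul_le_mul_left _ hwz
          _ = z ^ (A + 9) := by ring
          _ ≤ z ^ (A + 10) := Nat.pow_le_pow_right (by omega) (by omega)
          _ ≤ m := hzm
      exact_mod_cast this
    calc (z : ℝ) ^ (A + 8) = ((z : ℝ) ^ (A + 8) * w) * (w : ℝ)⁻¹ := by field_simp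
      _ ≤ m * er K A w := by
        apply mul_le_mul h2 h1 (by positivity) (by positivity)
  have her := er_nonneg K A w
  have hC0 : (0 : ℝ) ≤ C := Nat.cast_nonneg _
  have hX' : X ≤ (3 * C + 128 * C * C') * (m * er K A w) := by
    rw [hX]
    have h1 : (m : ℝ) + 3 ≤ 2 * m := by linarith
    have h2 : (C : ℝ) * er C A w + C * (64 * (C' * (w : ℝ) ^ (-(9 / 10 : ℝ)))) ≤
        C * er K A w + C * (64 * (C' * er K A w)) := by gcongr
    have h3 : (0 : ℝ) ≤ C * er K A w + C * (64 * (C' * er K A w)) := by positivity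
    calc ((m : ℝ) + 3) * (C * er C A w + C * (64 * (C' * (w : ℝ) ^ (-(9 / 10 : ℝ))))) +
          C * (z : ℝ) ^ (A + 8) ≤ 2 * m * (C * er K A w + C * (64 * (C' * er K A w))) +
          C * (m * er K A w) := by
            apply add_le_add
            · apply mul_le_mul h1 h2 _ (by positivity)
              have := er_nonneg C A w
              positivity
            · exact mul_le_mul_of_nonneg_left q3 hC0
      _ = _ := by ring
  have hX0 : 0 ≤ (3 * C + 128 * C * C') * (m * er K A w) := by positivity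
  have hKbig : 1728 * (3 * C + 128 * C * C') ≤ (K : ℝ) := by
    have h1 := Nat.le_ceil (1728 * (3 * (C : ℝ) + 128 * C * C'))
    rw [hK]
    push_cast
    have : (0 : ℝ) ≤ C := hC0
    linarith
  have hN0 : 0 ≤ N := by positivity
  calc (P.card : ℝ) * ((P.card : ℝ) * (48 * (N * X))) = (P.card : ℝ) ^ 2 * (48 * (N * X)) := by ring
    _ ≤ (P.card : ℝ) ^ 2 * (48 * ((36 * (m : ℝ) ^ 2 * (M : ℝ) ^ 2) *
        ((3 * C + 128 * C * C') * (m * er K A w)))) := by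
        apply mul_le_mul_of_nonneg_left _ (by positivity)
        apply mul_le_mul_of_nonneg_left _ (by norm_num)
        exact le_trans (mul_le_mul_of_nonneg_left hX' hN0) (mul_le_mul_of_nonneg_right hN' hX0)
    _ = (1728 * (3 * C + 128 * C * C')) * (er K A w * (P.card : ℝ) ^ 2 * (m : ℝ) ^ 3 *
        (M : ℝ) ^ 2) := by ring
    _ ≤ K * (er K A w * (P.card : ℝ) ^ 2 * (m : ℝ) ^ 3 * (M : ℝ) ^ 2) := by
        apply mul_le_mul_of_nonneg_right hKbig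
        positivity
    _ = _ := by ring

end Pool.Agent.Lib.H18GB
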