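import Pool.Agent.Lib.H18GB.Tool1

/-!
# Project GB: TU3, averages (helper82)

Majorants over four shifts, averages of the error functions over the shifts, sums over quadruples.
-/

namespace Pool.Agent.Lib.H18GB

open Finset Pool.Agent.Lib.Sieve

/-! ## the majorant of the four shifts -/

/-- the four shifts -/
def sh (j k : ℤ) (i : Bool × Bool) : ℤ := (if i.1 then j else 0) + (if i.2 then k else 0)

/-- majorant of a product over the four shifts -/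
noncomputable def nu (S : Finset ℕ) (W : ℕ) (r j k s : ℤ) : ℝ :=
  ∏ i : Bool × Bool, (1 + rho S (r + W * (s + sh j k i)))

/-- errors from the four shifts -/
noncomputable def e0 (S : Finset ℕ) (j k : ℤ) : ℝ :=
  Ers (9 / 10) S j + Ers (9 / 10) S k + Ers (9 / 10) S (j + k) + Ers (9 / 10) S (j - k)

theorem e0_nonneg (S : Finset ℕ) (j k : ℤ) : 0 ≤ e0 S j k := by
  unfold e0
  have := Ers_nonneg (9 / 10) S
  have h1 := this j
  have h2 := this k
  have h3 := this (j + k)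
  have h4 := this (j - k)
  linarith

theorem e0_neg (S : Finset ℕ) (j k : ℤ) : e0 S (-j) k = e0 S j k := by
  unfold e0
  rw [ers_neg, show -j + k = -(j - k) by ring, show -j - k = -(j + k) by ring, ers_neg, ers_neg]
  ring

theorem ers_sh (S : Finset ℕ) (j k : ℤ) (i i' : Bool × Bool) (h : i ≠ i') :
    Ers (9 / 10) S (sh j k i' - sh j k i) ≤ e0 S j k := by
  have h0 := Ers_nonneg (9 / 10) S
  have h1 := h0 j
  have h2 := h0 k
  have h3 := h0 (j + k)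
  have h4 := h0 (j - k)
  have n1 := ers_neg (9 / 10) S j
  have n2 := ers_neg (9 / 10) S k
  have n3 := ers_neg (9 / 10) S (j + k)
  have n4 := ers_neg (9 / 10) S (j - k)
  unfold e0
  obtain ⟨i1, i2⟩ := i
  obtain ⟨i1', i2'⟩ := i'
  have key : ∀ m : ℤ, (m = j ∨ m = -j ∨ m = k ∨ m = -k ∨ m = j + k ∨ m = -(j + k) ∨ m = j - k ∨
      m = -(j - k)) → Ers (9 / 10) S m ≤ Ers (9 / 10) S j + Ers (9 / 10) S k +
      Ers (9 / 10) S (j + k) + Ers (9 / 10) S (j - k) := by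
    rintro m (rfl | rfl | rfl | rfl | rfl | rfl | rfl | rfl) <;> linarith
  apply key
  cases i1 <;> cases i2 <;> cases i1' <;> cases i2' <;> simp [sh] at h ⊢

theorem nu_eq (S : Finset ℕ) (W : ℕ) (r j k s : ℤ) : nu S W r j k s =
    ∑ T ∈ (Finset.univ : Finset (Bool × Bool)).powerset,
      ∏ i ∈ T, rho S ((W : ℤ) * s + (r + W * sh j k i)) := by
  unfold nu
  rw [Finset.prod_one_add]
  apply Finset.sum_congr rfl
  intro T _
  apply Finset.prod_congr rfl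
  intro i _
  congr 1
  ring

theorem nu_nonneg {S : Finset ℕ} (hS : ∀ p ∈ S, p.Prime) (W : ℕ) (r j k s : ℤ) :
    0 ≤ nu S W r j k s :=
  Finset.prod_nonneg fun _ _ => by
    have := rho_nonneg hS (r + W * (s + sh j k ‹_›))
    linarith

theorem disc_sum_le {w z : ℕ} {S : Finset ℕ} (hS : PSet w z S) (W : ℕ)
    (hW : ∀ p ∈ S, ¬ (p : ℤ) ∣ (W : ℤ)) (r j k : ℤ)
    (d : ∀ i i' : Bool × Bool, Decidable (i ≠ i')) :
    (∑ i : Bool × Bool, ∑ i' : Bool × Bool, @ite ℝ (i ≠ i') (d i i')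
      (Ers (9 / 10) S (disc (fun _ => (W : ℤ)) (fun i => r + W * sh j k i) i i')) 0) ≤
      16 * e0 S j k := by
  have h0 := e0_nonneg S j k
  calc (∑ i : Bool × Bool, ∑ i' : Bool × Bool, @ite ℝ (i ≠ i') (d i i')
      (Ers (9 / 10) S (disc (fun _ => (W : ℤ)) (fun i => r + W * sh j k i) i i')) 0)
      ≤ ∑ i : Bool × Bool, ∑ i' : Bool × Bool, e0 S j k := by
        apply Finset.sum_le_sum
        intro i _
        apply Finset.sum_le_sum
        intro i' _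
        split_ifs with h
        · have e1 : disc (fun _ => (W : ℤ)) (fun i => r + W * sh j k i) i i' =
              ((W : ℤ) * W) * (sh j k i' - sh j k i) := by
            unfold disc
            ring
          rw [e1, ers_mul hS.prime _ _ _ (unit_mul hS hW hW)]
          exact ers_sh S j k i i' h
        · exact h0
    _ = 16 * e0 S j k := by
        simp only [Finset.sum_const, Finset.card_univ, Fintype.card_prod, Fintype.card_bool,
          nsmul_eq_mul]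
        push_cast
        ring

/-- bound for a sum of products over subfamilies -/
theorem sum_powerset_le {f : Finset (Bool × Bool) → ℝ} {B : ℝ} (h : ∀ T, f T ≤ B) :
    ∑ T ∈ (Finset.univ : Finset (Bool × Bool)).powerset, f T ≤ 16 * B := by
  calc ∑ T ∈ (Finset.univ : Finset (Bool × Bool)).powerset, f T
      ≤ ∑ T ∈ (Finset.univ : Finset (Bool × Bool)).powerset, B := Finset.sum_le_sum fun T _ => h T
    _ = 16 * B := by
      rw [Finset.sum_const, Finset.card_powerset, Finset.card_univ]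
      simp only [Fintype.card_prod, Fintype.card_bool, nsmul_eq_mul]
      push_cast
      ring

theorem nu_sum : ∃ C : ℕ, 1 ≤ C ∧ ∀ (A w z W N : ℕ) (S : Finset ℕ), Stp C A w z W N S →
    ∀ r j k a b : ℤ, a ≤ b → b - a ≤ 10 * N →
    ∑ s ∈ Finset.Ico a b, nu S W r j k s ≤ C * N * (1 + e0 S j k) := by
  obtain ⟨C0, hC0, hc⟩ := corr0_sub (Bool × Bool)
  refine ⟨10000 * C0, by omega, fun A w z W N S h r j k a b hab hN => ?_⟩
  have h0 := e0_nonneg S j k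
  have hC0' : (1 : ℝ) ≤ C0 := by exact_mod_cast hC0
  have hs := h.mono (show C0 ≤ 10000 * C0 by omega)
  have hN' : (b : ℝ) - a ≤ 10 * N := by exact_mod_cast hN
  have hab' : (0 : ℝ) ≤ (b : ℝ) - a := by
    have : (a : ℝ) ≤ b := by exact_mod_cast hab
    linarith
  have hN0 : (0 : ℝ) ≤ N := Nat.cast_nonneg _
  have key : ∀ T : Finset (Bool × Bool),
      ∑ s ∈ Finset.Ico a b, ∏ i ∈ T, rho S ((W : ℤ) * s + (r + W * sh j k i)) ≤
      200 * C0 * N * (1 + e0 S j k) := by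
    intro T
    have h1 := hc A w z S hs.hA hs.hw h.hz h.hS (fun _ => (W : ℤ)) (fun i => r + W * sh j k i)
      (fun p hp _ => h.unitW p hp) T a b hab
    have h2 := disc_sum_le h.hS W h.unitW r j k
    have h3 := (abs_le.mp h1).2
    have her := er_le_two hC0 A (h.w_pos (by omega))
    have her0 := er_nonneg C0 A w
    have hz : (z : ℝ) ^ (A + Fintype.card (Bool × Bool)) ≤ er C0 A w * N :=
      h.zpow hC0 (by simp only [Fintype.card_prod, Fintype.card_bool]; omega)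
    have h4 : (C0 : ℝ) * (z : ℝ) ^ (A + Fintype.card (Bool × Bool)) ≤ C0 * (2 * N) := by
      gcongr
      exact hz.trans (by gcongr)
    have h3' := h3.trans (add_le_add_left (mul_le_mul_of_nonneg_left (add_le_add
      (mul_le_mul_of_nonneg_left her (by linarith)) (mul_le_mul_of_nonneg_left (h2 _)
      (by linarith : (0 : ℝ) ≤ C0))) hab') _)
    have h5 : ((b : ℝ) - a) * (C0 * 2 + C0 * (16 * e0 S j k)) ≤
        (10 * N) * (C0 * 2 + C0 * (16 * e0 S j k)) := by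
      gcongr
    have h6 : (N : ℝ) ≤ C0 * N := le_mul_of_one_le_left hN0 hC0'
    have h7 : 0 ≤ C0 * N * e0 S j k := by positivity
    nlinarith
  calc ∑ s ∈ Finset.Ico a b, nu S W r j k s
      = ∑ T ∈ (Finset.univ : Finset (Bool × Bool)).powerset,
          ∑ s ∈ Finset.Ico a b, ∏ i ∈ T, rho S ((W : ℤ) * s + (r + W * sh j k i)) := by
        simp only [nu_eq]
        rw [Finset.sum_comm]
    _ ≤ 16 * (200 * C0 * N * (1 + e0 S j k)) := sum_powerset_le key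
    _ ≤ _ := by
        push_cast
        have h7 : 0 ≤ C0 * N * e0 S j k := by positivity
        have h8 : 0 ≤ (C0 : ℝ) * N := by positivity
        nlinarith

/-- the residue class -/
theorem exists_class {w z : ℕ} {S : Finset ℕ} (hS : PSet w z S) {α : ℤ}
    (hα : ∀ p ∈ S, ¬ (p : ℤ) ∣ α) (β : ℤ) {p : ℕ} (hp : p ∈ S) :
    ∃ c : ℤ, ∀ s : ℤ, (p : ℤ) ∣ α * s + β ↔ (p : ℤ) ∣ s - c := by
  have h1 := (hS p hp).1
  have h2 : IsCoprime (p : ℤ) α :=
    (Nat.prime_iff_prime_int.mp h1).coprime_iff_not_dvd.mpr (hα p hp)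
  obtain ⟨u, v, huv⟩ := h2
  refine ⟨-(v * β), fun s => ⟨fun h => ?_, fun h => ?_⟩⟩
  · have e1 : s - -(v * β) = u * p * s + v * (α * s + β) := by
      linear_combination (-s) * huv
    rw [e1]
    exact dvd_add (Dvd.intro_left _ (by ring : u * s * (p : ℤ) = u * p * s)) (h.mul_left v)
  · have e1 : α * s + β = α * (s - -(v * β)) + u * p * β := by
      linear_combination (-β) * huv
    rw [e1]
    exact dvd_add (h.mul_left α) (Dvd.intro_left _ (by ring : u * β * (p : ℤ) = u * p * β))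

theorem nu_ers : ∃ C : ℕ, 2 ≤ C ∧ ∀ (A w z W N : ℕ) (S : Finset ℕ), Stp C A w z W N S →
    ∀ r j k a b : ℤ, a ≤ b → b - a ≤ 10 * N → ∀ α β : ℤ, (∀ p ∈ S, ¬ (p : ℤ) ∣ α) →
    ∑ s ∈ Finset.Ico a b, nu S W r j k s * Ers (9 / 10) S (α * s + β) ≤
      C * N * (1 + e0 S j k) * er C A w := by
  obtain ⟨C0, hC0, hc⟩ := corrAP_sub (Bool × Bool)
  refine ⟨100000 * C0, by omega, fun A w z W N S h r j k a b hab hN α β hα => ?_⟩
  have h0 := e0_nonneg S j k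
  have hC0' : (1 : ℝ) ≤ C0 := by exact_mod_cast hC0
  have hs := h.mono (show C0 ≤ 100000 * C0 by omega)
  have hN' : (b : ℝ) - a ≤ 10 * N := by exact_mod_cast hN
  have hab' : (0 : ℝ) ≤ (b : ℝ) - a := by
    have : (a : ℝ) ≤ b := by exact_mod_cast hab
    linarith
  have hN0 : (0 : ℝ) ≤ N := Nat.cast_nonneg _
  have hz1 : (1 : ℝ) ≤ z := by
    have := h.hz
    exact_mod_cast (by omega : 1 ≤ z)
  have hw1 : 1 ≤ w := h.w_pos (by omega)
  set ε := er (100000 * C0) A w with hε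
  have hε0 : 0 ≤ ε := er_nonneg _ _ _
  -- per prime
  have key : ∀ p ∈ S, ∑ s ∈ (Finset.Ico a b).filter (fun s => (p : ℤ) ∣ α * s + β),
      nu S W r j k s ≤ 16 * (C0 * (10 * N / p * (1 + 16 * e0 S j k) + (z : ℝ) ^ (A + 4))) := by
    intro p hp
    have hp0 : (0 : ℝ) < p := by exact_mod_cast (h.hS p hp).1.pos
    obtain ⟨c, hcc⟩ := exists_class h.hS hα β hp
    have e1 : (Finset.Ico a b).filter (fun s => (p : ℤ) ∣ α * s + β) =
        (Finset.Ico a b).filter (fun s => (p : ℤ) ∣ s - c) :=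
      Finset.filter_congr fun s _ => hcc s
    rw [e1]
    simp only [nu_eq]
    rw [Finset.sum_comm]
    apply sum_powerset_le
    intro T
    have h1 := hc A w z S hs.hA hs.hw h.hz h.hS (fun _ => (W : ℤ)) (fun i => r + W * sh j k i)
      (fun p hp _ => h.unitW p hp) T a b hab p hp c
    refine h1.trans ?_
    have h2 := disc_sum_le h.hS W h.unitW r j k
    have h3 : Fintype.card (Bool × Bool) = 4 := by simp
    rw [h3]
    apply mul_le_mul_of_nonneg_left _ (by linarith)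
    apply add_le_add_left
    apply mul_le_mul _ _ _ (by positivity)
    · gcongr
    · exact add_le_add_right (h2 _) _
    · apply add_nonneg zero_le_one
      exact Finset.sum_nonneg fun _ _ => Finset.sum_nonneg fun _ _ => by
        split_ifs
        · exact Ers_nonneg _ _ _
        · exact le_rfl
  have e2 : ∑ s ∈ Finset.Ico a b, nu S W r j k s * Ers (9 / 10) S (α * s + β) =
      ∑ p ∈ S, (p : ℝ) ^ (-(9 / 10 : ℝ)) *
        ∑ s ∈ (Finset.Ico a b).filter (fun s => (p : ℤ) ∣ α * s + β), nu S W r j k s := by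
    unfold Ers
    simp_rw [Finset.mul_sum, Finset.sum_filter]
    rw [Finset.sum_comm]
    apply Finset.sum_congr rfl
    intro p _
    apply Finset.sum_congr rfl
    intro s _
    split_ifs
    · ring
    · simp
  rw [e2]
  have hsub : S ⊆ Finset.Ioc w z := by
    intro p hp
    rw [Finset.mem_Ioc]
    exact (h.hS p hp).2
  have h3 : ∑ p ∈ S, (p : ℝ) ^ (-1 - (9 / 10 : ℝ)) ≤
      ∑ n ∈ Finset.Ioc w z, (n : ℝ) ^ (-1 - (9 / 10 : ℝ)) :=
    Finset.sum_le_sum_of_subset_of_nonneg hsub (fun _ _ _ => Real.rpow_nonneg (Nat.cast_nonneg _) _)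
  have h4 := ers_tail (9 / 10) (by norm_num) w z hw1
  have h5 : (w : ℝ) ^ (-(9 / 10 : ℝ)) ≤ ε := by
    apply er_rpow A hw1
    have : (1 : ℝ) ≤ ((100000 * C0 : ℕ) : ℝ) := by
      push_cast
      linarith
    rw [div_le_iff₀ (by linarith)]
    push_cast
    linarith
  have h6 : ∑ p ∈ S, (p : ℝ) ^ (-1 - (9 / 10 : ℝ)) ≤ 2 * ε := by linarith
  have h7 : (S.card : ℝ) * (z : ℝ) ^ (A + 4) ≤ ε * N := by
    calc (S.card : ℝ) * (z : ℝ) ^ (A + 4) ≤ z * (z : ℝ) ^ (A + 4) := by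
          gcongr
          exact_mod_cast h.hS.card_le
      _ = (z : ℝ) ^ (A + 5) := by ring
      _ ≤ ε * N := h.zpow (by omega) (by omega)
  calc ∑ p ∈ S, (p : ℝ) ^ (-(9 / 10 : ℝ)) *
        ∑ s ∈ (Finset.Ico a b).filter (fun s => (p : ℤ) ∣ α * s + β), nu S W r j k s
      ≤ ∑ p ∈ S, (160 * C0 * N * (1 + 16 * e0 S j k) * (p : ℝ) ^ (-1 - (9 / 10 : ℝ)) +
          16 * C0 * (z : ℝ) ^ (A + 4)) := by
        apply Finset.sum_le_sum
        intro p hp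
        have hp0 : (0 : ℝ) < p := by exact_mod_cast (h.hS p hp).1.pos
        have hp1 : (1 : ℝ) ≤ p := by exact_mod_cast (h.hS p hp).1.one_lt.le
        have g1 : (p : ℝ) ^ (-1 - (9 / 10 : ℝ)) = (p : ℝ) ^ (-(9 / 10 : ℝ)) / p := by
          rw [← Real.rpow_sub_one hp0.ne']
          congr 1
          ring
        have g2 : (p : ℝ) ^ (-(9 / 10 : ℝ)) ≤ 1 :=
          Real.rpow_le_one_of_one_le_of_nonpos hp1 (by norm_num)
        have g3 : 0 ≤ (p : ℝ) ^ (-(9 / 10 : ℝ)) := Real.rpow_nonneg hp0.le _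
        calc _ ≤ (p : ℝ) ^ (-(9 / 10 : ℝ)) *
              (16 * (C0 * (10 * N / p * (1 + 16 * e0 S j k) + (z : ℝ) ^ (A + 4)))) :=
              mul_le_mul_of_nonneg_left (key p hp) g3
          _ = 160 * C0 * N * (1 + 16 * e0 S j k) * ((p : ℝ) ^ (-(9 / 10 : ℝ)) / p) +
              (p : ℝ) ^ (-(9 / 10 : ℝ)) * (16 * C0 * (z : ℝ) ^ (A + 4)) := by ring
          _ ≤ _ := by
            rw [g1]
            have g4 : (p : ℝ) ^ (-(9 / 10 : ℝ)) * (16 * C0 * (z : ℝ) ^ (A + 4)) ≤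
                1 * (16 * C0 * (z : ℝ) ^ (A + 4)) :=
              mul_le_mul_of_nonneg_right g2 (by positivity)
            linarith
    _ = 160 * C0 * N * (1 + 16 * e0 S j k) * ∑ p ∈ S, (p : ℝ) ^ (-1 - (9 / 10 : ℝ)) +
          16 * C0 * (S.card * (z : ℝ) ^ (A + 4)) := by
        rw [Finset.sum_add_distrib, ← Finset.mul_sum, Finset.sum_const, nsmul_eq_mul]
        ring
    _ ≤ 160 * C0 * N * (1 + 16 * e0 S j k) * (2 * ε) + 16 * C0 * (ε * N) := by gcongr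
    _ ≤ _ := by
        push_cast
        have g1 : 0 ≤ C0 * N * ε := by positivity
        have g2 : 0 ≤ C0 * N * ε * e0 S j k := by positivity
        nlinarith


/-! ## averages over the shifts -/

/-- affine with a unit coefficient -/
def AffU (S : Finset ℕ) (c : ℤ → ℤ → ℤ) : Prop :=
  (∃ α : ℤ, (∀ p ∈ S, ¬ (p : ℤ) ∣ α) ∧ ∃ β : ℤ → ℤ, ∀ j k, c j k = α * k + β j) ∨
  (∃ α : ℤ, (∀ p ∈ S, ¬ (p : ℤ) ∣ α) ∧ ∃ β : ℤ → ℤ, ∀ j k, c j k = α * j + β k)

theorem jk_avg (t : ℝ) (ht : 0 < t) (ht1 : t ≤ 1) : ∃ C : ℕ, 2 ≤ C ∧ ∀ (A w z W N : ℕ)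
    (S : Finset ℕ), Stp C A w z W N S → ∀ c : ℤ → ℤ → ℤ, AffU S c →
    ∑ j ∈ Finset.Ico (-(2 * N : ℤ)) (2 * N), ∑ k ∈ Finset.Ico (-(N : ℤ)) N, Ers t S (c j k) ≤
      C * N ^ 2 * er C A w := by
  obtain ⟨C1, hC1, hc⟩ := ers_avg t ht ht1
  refine ⟨⌈30 * C1 + 1 / t⌉₊ + 2, by omega, fun A w z W N S h c hcc => ?_⟩
  set C := ⌈30 * C1 + 1 / t⌉₊ + 2 with hC
  have hCr : 30 * C1 + 1 / t ≤ C := by
    rw [hC]
    push_cast
    have := Nat.le_ceil (30 * C1 + 1 / t)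
    linarith
  have ht' : 0 < 1 / t := by positivity
  have hN0 : (0 : ℝ) ≤ N := Nat.cast_nonneg _
  have hw1 : 1 ≤ w := h.w_pos (by omega)
  set ε := er C A w with hε
  have hε0 : 0 ≤ ε := er_nonneg _ _ _
  have hz : (z : ℝ) ≤ ε * N := by
    have h1 : (z : ℝ) ^ (A + 0) ≤ ε * N := h.zpow (by omega) (by omega)
    have h2 : (z : ℝ) ^ 1 ≤ (z : ℝ) ^ (A + 0) := by
      apply pow_le_pow_right₀
      · have := h.hz
        exact_mod_cast (by omega : 1 ≤ z)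
      · have := h.hA
        omega
    rw [pow_one] at h2
    exact h2.trans h1
  have hwt : (w : ℝ) ^ (-t) ≤ ε := by
    apply er_rpow A hw1
    rw [div_le_iff₀ (by linarith)]
    have : 1 / t * t = 1 := by field_simp
    nlinarith
  rcases hcc with ⟨α, hα, β, hβ⟩ | ⟨α, hα, β, hβ⟩
  · calc ∑ j ∈ Finset.Ico (-(2 * N : ℤ)) (2 * N), ∑ k ∈ Finset.Ico (-(N : ℤ)) N, Ers t S (c j k)
        ≤ ∑ j ∈ Finset.Ico (-(2 * N : ℤ)) (2 * N), C1 * (2 * N * ε + ε * N) := by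
          apply Finset.sum_le_sum
          intro j _
          simp only [hβ]
          refine (hc w z S hw1 h.hS α (β j) hα (-N) N (by omega)).trans ?_
          push_cast
          have : ((N : ℝ) - -N) = 2 * N := by ring
          rw [this]
          gcongr
      _ = 12 * C1 * N ^ 2 * ε := by
          rw [Finset.sum_const, Int.card_Ico, nsmul_eq_mul]
          have e1 : (2 * (N : ℤ) - -(2 * N)).toNat = 4 * N := by omega
          rw [e1]
          push_cast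
          ring
      _ ≤ C * N ^ 2 * ε := by
          gcongr
          linarith
  · rw [Finset.sum_comm]
    calc ∑ k ∈ Finset.Ico (-(N : ℤ)) N, ∑ j ∈ Finset.Ico (-(2 * N : ℤ)) (2 * N), Ers t S (c j k)
        ≤ ∑ k ∈ Finset.Ico (-(N : ℤ)) N, C1 * (4 * N * ε + ε * N) := by
          apply Finset.sum_le_sum
          intro k _
          simp only [hβ]
          refine (hc w z S hw1 h.hS α (β k) hα (-(2 * N)) (2 * N) (by omega)).trans ?_
          push_cast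
          have : ((2 : ℝ) * N - -(2 * N)) = 4 * N := by ring
          rw [this]
          gcongr
      _ = 10 * C1 * N ^ 2 * ε := by
          rw [Finset.sum_const, Int.card_Ico, nsmul_eq_mul]
          have e1 : ((N : ℤ) - -N).toNat = 2 * N := by omega
          rw [e1]
          push_cast
          ring
      _ ≤ C * N ^ 2 * ε := by
          gcongr
          linarith

theorem four_pow (a b c d : ℝ) (ha : 0 ≤ a) (hb : 0 ≤ b) (hc : 0 ≤ c) (hd : 0 ≤ d) :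
    (1 + (a + b + c + d)) ^ 4 ≤ 8 + 512 * (a ^ 4 + b ^ 4 + c ^ 4 + d ^ 4) := by
  have h1 := add_pow_le zero_le_one (by positivity : 0 ≤ a + b + c + d) 4
  have h2 := add_pow_le (by positivity : 0 ≤ a + b) (by positivity : 0 ≤ c + d) 4
  have h3 := add_pow_le ha hb 4
  have h4 := add_pow_le hc hd 4
  norm_num at h1 h2 h3 h4
  rw [← add_assoc] at h2
  linarith

theorem e0_four : ∃ C : ℕ, 2 ≤ C ∧ ∀ (A w z W N : ℕ) (S : Finset ℕ), Stp C A w z W N S →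
    ∑ j ∈ Finset.Ico (-(2 * N : ℤ)) (2 * N), ∑ k ∈ Finset.Ico (-(N : ℤ)) N,
      (1 + e0 S j k) ^ 4 ≤ (C : ℝ) * (N : ℝ) ^ 2 := by
  obtain ⟨C1, hC1, hc1⟩ := ers_pow_le
  obtain ⟨C2, hC2, hc2⟩ := jk_avg (9 / 20) (by norm_num) (by norm_num)
  refine ⟨⌈4096 * C1 * C2⌉₊ + 64 + C2, by omega, fun A w z W N S h => ?_⟩
  have hs := h.mono (show C2 ≤ ⌈4096 * C1 * C2⌉₊ + 64 + C2 by omega)
  have hcc : ∀ c : ℤ → ℤ → ℤ, AffU S c → ∑ j ∈ Finset.Ico (-(2 * N : ℤ)) (2 * N),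
      ∑ k ∈ Finset.Ico (-(N : ℤ)) N, Ers (9 / 10) S (c j k) ^ 4 ≤ C1 * (C2 * N ^ 2 * 2) := by
    intro c hc
    calc ∑ j ∈ Finset.Ico (-(2 * N : ℤ)) (2 * N),
      ∑ k ∈ Finset.Ico (-(N : ℤ)) N, Ers (9 / 10) S (c j k) ^ 4 ≤
        ∑ j ∈ Finset.Ico (-(2 * N : ℤ)) (2 * N),
      ∑ k ∈ Finset.Ico (-(N : ℤ)) N, C1 * Ers (9 / 20) S (c j k) :=
        Finset.sum_le_sum fun j _ => Finset.sum_le_sum fun k _ =>
          hc1 w z S (c j k) 4 h.hS (by norm_num) le_rfl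
      _ = C1 * ∑ j ∈ Finset.Ico (-(2 * N : ℤ)) (2 * N),
      ∑ k ∈ Finset.Ico (-(N : ℤ)) N, Ers (9 / 20) S (c j k) := by
        simp only [Finset.mul_sum]
      _ ≤ C1 * (C2 * N ^ 2 * er C2 A w) := by
        gcongr
        exact hc2 A w z W N S hs c hc
      _ ≤ _ := by
        gcongr
        exact er_le_two (by omega) A (hs.w_pos (by omega))
  have u1 := unit_one h.hS
  have u2 := unit_neg u1
  have g1 := hcc (fun j k => j) (Or.inr ⟨1, u1, fun _ => 0, fun j k => by ring⟩)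
  have g2 := hcc (fun j k => k) (Or.inl ⟨1, u1, fun _ => 0, fun j k => by ring⟩)
  have g3 := hcc (fun j k => j + k) (Or.inl ⟨1, u1, fun j => j, fun j k => by ring⟩)
  have g4 := hcc (fun j k => j - k) (Or.inl ⟨-1, u2, fun j => j, fun j k => by ring⟩)
  have h0 := Ers_nonneg (9 / 10) S
  calc ∑ j ∈ Finset.Ico (-(2 * N : ℤ)) (2 * N), ∑ k ∈ Finset.Ico (-(N : ℤ)) N,
      (1 + e0 S j k) ^ 4 ≤ ∑ j ∈ Finset.Ico (-(2 * N : ℤ)) (2 * N), ∑ k ∈ Finset.Ico (-(N : ℤ)) N,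
      (8 + 512 * (Ers (9 / 10) S j ^ 4 + Ers (9 / 10) S k ^ 4 + Ers (9 / 10) S (j + k) ^ 4 +
        Ers (9 / 10) S (j - k) ^ 4)) :=
        Finset.sum_le_sum fun j _ => Finset.sum_le_sum fun k _ =>
          four_pow _ _ _ _ (h0 _) (h0 _) (h0 _) (h0 _)
    _ = 64 * N ^ 2 + 512 * (∑ j ∈ Finset.Ico (-(2 * N : ℤ)) (2 * N),
          ∑ k ∈ Finset.Ico (-(N : ℤ)) N, Ers (9 / 10) S j ^ 4 +
        ∑ j ∈ Finset.Ico (-(2 * N : ℤ)) (2 * N),
          ∑ k ∈ Finset.Ico (-(N : ℤ)) N, Ers (9 / 10) S k ^ 4 +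
        ∑ j ∈ Finset.Ico (-(2 * N : ℤ)) (2 * N),
          ∑ k ∈ Finset.Ico (-(N : ℤ)) N, Ers (9 / 10) S (j + k) ^ 4 +
        ∑ j ∈ Finset.Ico (-(2 * N : ℤ)) (2 * N),
          ∑ k ∈ Finset.Ico (-(N : ℤ)) N, Ers (9 / 10) S (j - k) ^ 4) := by
        simp only [Finset.sum_add_distrib, ← Finset.mul_sum]
        congr 1
        rw [Finset.sum_const, Finset.sum_const, Int.card_Ico, Int.card_Ico]
        have e1 : (2 * (N : ℤ) - -(2 * N)).toNat = 4 * N := by omega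
        have e2 : ((N : ℤ) - -N).toNat = 2 * N := by omega
        rw [e1, e2]
        simp only [nsmul_eq_mul]
        push_cast
        ring
    _ ≤ 64 * N ^ 2 + 512 * (4 * (C1 * (C2 * N ^ 2 * 2))) := by linarith
    _ ≤ _ := by
        push_cast
        have h5 := Nat.le_ceil (4096 * C1 * C2)
        have h6 : (0 : ℝ) ≤ (N : ℝ) ^ 2 := by positivity
        have h7 : (0 : ℝ) ≤ C2 := Nat.cast_nonneg _
        nlinarith [mul_le_mul_of_nonneg_right h5 h6, mul_nonneg h7 h6]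

/-- bound of a sum over the shifts with weights -/
theorem jk_weighted : ∃ C : ℕ, 2 ≤ C ∧ ∀ (A w z W N : ℕ) (S : Finset ℕ), Stp C A w z W N S →
    ∀ c : ℤ → ℤ → ℤ, AffU S c →
    ∑ j ∈ Finset.Ico (-(2 * N : ℤ)) (2 * N), ∑ k ∈ Finset.Ico (-(N : ℤ)) N,
      Ers (9 / 10) S (c j k) * (1 + e0 S j k) ^ 2 ≤ C * N ^ 2 * er C A w := by
  obtain ⟨C1, hC1, hc1⟩ := ers_sq_le
  obtain ⟨C2, hC2, hc2⟩ := jk_avg (3 / 4) (by norm_num) (by norm_num)
  obtain ⟨C3, hC3, hc3⟩ := e0_four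
  refine ⟨⌈C1⌉₊ * (2 * C2 * C3), ?_, fun A w z W N S h c hcc => ?_⟩
  · have : 1 ≤ ⌈C1⌉₊ := Nat.one_le_ceil_iff.mpr (by linarith)
    nlinarith [Nat.mul_le_mul hC2 hC3]
  have hc1n : 1 ≤ ⌈C1⌉₊ := Nat.one_le_ceil_iff.mpr (by linarith)
  have hle2 : 2 * C2 ≤ ⌈C1⌉₊ * (2 * C2 * C3) := by
    calc 2 * C2 = 1 * (2 * C2 * 1) := by ring
      _ ≤ _ := Nat.mul_le_mul hc1n (Nat.mul_le_mul_left _ (by omega))
  have hle3 : C3 ≤ ⌈C1⌉₊ * (2 * C2 * C3) := by
    calc C3 = 1 * (1 * C3) := by ring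
      _ ≤ _ := Nat.mul_le_mul hc1n (Nat.mul_le_mul_right _ (by omega))
  have hs2 := h.mono (show C2 ≤ ⌈C1⌉₊ * (2 * C2 * C3) by omega)
  have hs3 := h.mono hle3
  have hw1 : 1 ≤ w := hs2.w_pos (by omega)
  have a2 := hc2 A w z W N S hs2 c hcc
  have a3 := hc3 A w z W N S hs3
  rw [← Finset.sum_product'] at a2 a3 ⊢
  have hcs := Finset.sum_mul_sq_le_sq_mul_sq
    (Finset.Ico (-(2 * N : ℤ)) (2 * N) ×ˢ Finset.Ico (-(N : ℤ)) N)
    (fun q => Ers (9 / 10) S (c q.1 q.2)) (fun q => (1 + e0 S q.1 q.2) ^ 2)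
  have b1 : ∑ q ∈ Finset.Ico (-(2 * N : ℤ)) (2 * N) ×ˢ Finset.Ico (-(N : ℤ)) N,
      Ers (9 / 10) S (c q.1 q.2) ^ 2 ≤ C1 * (C2 * N ^ 2 * er C2 A w) := by
    calc _ ≤ ∑ q ∈ Finset.Ico (-(2 * N : ℤ)) (2 * N) ×ˢ Finset.Ico (-(N : ℤ)) N,
          C1 * Ers (3 / 4) S (c q.1 q.2) :=
          Finset.sum_le_sum fun q _ => hc1 w z S _ h.hS
      _ ≤ _ := by
          rw [← Finset.mul_sum]
          gcongr
  have b2 : ∑ q ∈ Finset.Ico (-(2 * N : ℤ)) (2 * N) ×ˢ Finset.Ico (-(N : ℤ)) N,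
      ((1 + e0 S q.1 q.2) ^ 2) ^ 2 ≤ (C3 : ℝ) * (N : ℝ) ^ 2 := by
    refine le_trans (le_of_eq ?_) a3
    apply Finset.sum_congr rfl
    intro q _
    ring
  have her : er C2 A w ≤ er (⌈C1⌉₊ * (2 * C2 * C3)) A w ^ 2 := by
    refine (er_le_sq (by omega) A w).trans ?_
    apply pow_le_pow_left₀ (er_nonneg _ _ _)
    exact er_mono (by omega) hle2 A hw1
  set ε := er (⌈C1⌉₊ * (2 * C2 * C3)) A w with hε
  have hε0 : 0 ≤ ε := er_nonneg _ _ _
  set C := ⌈C1⌉₊ * (2 * C2 * C3) with hCdef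
  have hC1' : (1 : ℝ) ≤ C := by
    have : 1 ≤ C := by
      rw [hCdef]
      exact le_trans (by omega) hle2
    exact_mod_cast this
  have hCC : C1 * C2 * C3 ≤ C := by
    rw [hCdef]
    push_cast
    have h1 := Nat.le_ceil C1
    have h2 : (0 : ℝ) ≤ (C2 : ℝ) * C3 := by positivity
    nlinarith [mul_le_mul_of_nonneg_right h1 h2]
  apply (pow_le_pow_iff_left₀ _ (by positivity) two_ne_zero).mp
  · calc _ ≤ _ := hcs
      _ ≤ (C1 * (C2 * N ^ 2 * er C2 A w)) * (C3 * N ^ 2) :=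
        mul_le_mul b1 b2 (Finset.sum_nonneg fun _ _ => by positivity) (by
          have := er_nonneg C2 A w
          positivity)
      _ ≤ (C1 * (C2 * N ^ 2 * ε ^ 2)) * (C3 * N ^ 2) := by gcongr
      _ = (C1 * C2 * C3) * ((N : ℝ) ^ 2 * ε) ^ 2 := by ring
      _ ≤ C ^ 2 * ((N : ℝ) ^ 2 * ε) ^ 2 := by
        gcongr
        calc C1 * C2 * C3 ≤ (C : ℝ) := hCC
          _ ≤ C ^ 2 := by nlinarith
      _ = _ := by ring
  · exact Finset.sum_nonneg fun _ _ => mul_nonneg (Ers_nonneg _ _ _) (by positivity)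


/-! ## sums over quadruples -/

theorem sum_ls_le (N : ℕ) (g : ℤ → ℤ → ℝ) (hg : ∀ s s', 0 ≤ g s s') :
    ∑ l ∈ Finset.Ico (-(N : ℤ)) N, ∑ s ∈ Finset.Ico (-(2 * N : ℤ)) (2 * N), g s (s + 2 * l) ≤
      ∑ s ∈ Finset.Ico (-(2 * N : ℤ)) (2 * N), ∑ s' ∈ Finset.Ico (-(5 * N : ℤ)) (5 * N),
        g s s' := by
  rw [Finset.sum_comm]
  apply Finset.sum_le_sum
  intro s hs
  have hinj : Function.Injective (fun l : ℤ => s + 2 * l) := fun a b h => by
    simp only at h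
    omega
  have h1 : ∑ l ∈ Finset.Ico (-(N : ℤ)) N, g s (s + 2 * l) =
      ∑ s' ∈ (Finset.Ico (-(N : ℤ)) N).map ⟨fun l : ℤ => s + 2 * l, hinj⟩, g s s' := by
    rw [Finset.sum_map]
    rfl
  rw [h1]
  apply Finset.sum_le_sum_of_subset_of_nonneg
  · intro m hm
    rw [Finset.mem_map] at hm
    obtain ⟨l, hl, rfl⟩ := hm
    rw [Finset.mem_Ico] at hl hs ⊢
    simp only [Function.Embedding.coeFn_mk]
    omega
  · intro m _ _
    exact hg s m

theorem inner : ∃ C : ℕ, 2 ≤ C ∧ ∀ (A w z W N : ℕ) (S : Finset ℕ), Stp C A w z W N S →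
    ∀ r j k : ℤ,
    (∑ l ∈ Finset.Ico (-(N : ℤ)) N, ∑ s ∈ Finset.Ico (-(2 * N : ℤ)) (2 * N),
      nu S W r j k s * nu S W r j k (s + 2 * l) ≤ C * N ^ 2 * (1 + e0 S j k) ^ 2) ∧
    (∀ α β : ℤ, (∀ p ∈ S, ¬ (p : ℤ) ∣ α) →
      ∑ l ∈ Finset.Ico (-(N : ℤ)) N, ∑ s ∈ Finset.Ico (-(2 * N : ℤ)) (2 * N),
      nu S W r j k s * nu S W r j k (s + 2 * l) * Ers (9 / 10) S (α * s + β) ≤
        C * N ^ 2 * (1 + e0 S j k) ^ 2 * er C A w) ∧
    (∀ (α : ℤ) (β : ℤ → ℤ), (∀ p ∈ S, ¬ (p : ℤ) ∣ α) →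
      ∑ l ∈ Finset.Ico (-(N : ℤ)) N, ∑ s ∈ Finset.Ico (-(2 * N : ℤ)) (2 * N),
      nu S W r j k s * nu S W r j k (s + 2 * l) * Ers (9 / 10) S (α * (s + 2 * l) + β s) ≤
        C * N ^ 2 * (1 + e0 S j k) ^ 2 * er C A w) := by
  obtain ⟨C1, hC1, hc1⟩ := nu_sum
  obtain ⟨C2, hC2, hc2⟩ := nu_ers
  refine ⟨C1 * C1 + C1 * C2 + C1 + C2, by omega, fun A w z W N S h r j k => ?_⟩
  have h1 := h.mono (show C1 ≤ C1 * C1 + C1 * C2 + C1 + C2 by omega)
  have h2 := h.mono (show C2 ≤ C1 * C1 + C1 * C2 + C1 + C2 by omega)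
  have hw1 : 1 ≤ w := h1.w_pos hC1
  have hε : er C2 A w ≤ er (C1 * C1 + C1 * C2 + C1 + C2) A w := er_mono (by omega) (by omega) A hw1
  have hε0 := er_nonneg C2 A w
  set C := C1 * C1 + C1 * C2 + C1 + C2 with hC
  have hCa : (C1 : ℝ) * C1 ≤ C := by
    rw [hC]
    push_cast
    have : (0 : ℝ) ≤ C1 * C2 := by positivity
    have : (0 : ℝ) ≤ C1 := by positivity
    have : (0 : ℝ) ≤ C2 := by positivity
    linarith
  have hCb : (C1 : ℝ) * C2 ≤ C := by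
    rw [hC]
    push_cast
    have : (0 : ℝ) ≤ C1 * C1 := by positivity
    have : (0 : ℝ) ≤ C1 := by positivity
    have : (0 : ℝ) ≤ C2 := by positivity
    linarith
  have hnu : ∀ s, 0 ≤ nu S W r j k s := fun s => nu_nonneg h.hS.prime W r j k s
  have he := Ers_nonneg (9 / 10) S
  have h0 := e0_nonneg S j k
  have A1 := hc1 A w z W N S h1 r j k (-(2 * N)) (2 * N) (by omega) (by omega)
  have A2 := hc1 A w z W N S h1 r j k (-(5 * N)) (5 * N) (by omega) (by omega)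
  have A10 : 0 ≤ ∑ s ∈ Finset.Ico (-(2 * N : ℤ)) (2 * N), nu S W r j k s :=
    Finset.sum_nonneg fun s _ => hnu s
  have A20 : 0 ≤ ∑ s ∈ Finset.Ico (-(5 * N : ℤ)) (5 * N), nu S W r j k s :=
    Finset.sum_nonneg fun s _ => hnu s
  refine ⟨?_, ?_, ?_⟩
  · refine (sum_ls_le N (fun s s' => nu S W r j k s * nu S W r j k s')
      (fun s s' => mul_nonneg (hnu s) (hnu s'))).trans ?_
    rw [← Finset.sum_mul_sum]
    calc _ ≤ (C1 * N * (1 + e0 S j k)) * (C1 * N * (1 + e0 S j k)) :=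
          mul_le_mul A1 A2 A20 (by positivity)
      _ = (C1 * C1) * (N ^ 2 * (1 + e0 S j k) ^ 2) := by ring
      _ ≤ C * (N ^ 2 * (1 + e0 S j k) ^ 2) := by gcongr
      _ = _ := by ring
  · intro α β hα
    refine (sum_ls_le N (fun s s' => nu S W r j k s * nu S W r j k s' *
      Ers (9 / 10) S (α * s + β)) (fun s s' => mul_nonneg (mul_nonneg (hnu s) (hnu s'))
        (he _))).trans ?_
    have B := hc2 A w z W N S h2 r j k (-(2 * N)) (2 * N) (by omega) (by omega) α β hα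
    have e1 : ∑ s ∈ Finset.Ico (-(2 * N : ℤ)) (2 * N), ∑ s' ∈ Finset.Ico (-(5 * N : ℤ)) (5 * N),
        nu S W r j k s * nu S W r j k s' * Ers (9 / 10) S (α * s + β) =
        (∑ s ∈ Finset.Ico (-(2 * N : ℤ)) (2 * N), nu S W r j k s * Ers (9 / 10) S (α * s + β)) *
          ∑ s' ∈ Finset.Ico (-(5 * N : ℤ)) (5 * N), nu S W r j k s' := by
      rw [Finset.sum_mul_sum]
      apply Finset.sum_congr rfl
      intro s _
      apply Finset.sum_congr rfl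
      intro s' _
      ring
    rw [e1]
    calc _ ≤ (C2 * N * (1 + e0 S j k) * er C2 A w) * (C1 * N * (1 + e0 S j k)) :=
          mul_le_mul B A2 A20 (by positivity)
      _ = (C1 * C2) * (N ^ 2 * (1 + e0 S j k) ^ 2) * er C2 A w := by ring
      _ ≤ C * (N ^ 2 * (1 + e0 S j k) ^ 2) * er C A w := by gcongr
      _ = _ := by ring
  · intro α β hα
    refine (sum_ls_le N (fun s s' => nu S W r j k s * nu S W r j k s' *
      Ers (9 / 10) S (α * s' + β s)) (fun s s' => mul_nonneg (mul_nonneg (hnu s) (hnu s'))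
        (he _))).trans ?_
    calc ∑ s ∈ Finset.Ico (-(2 * N : ℤ)) (2 * N), ∑ s' ∈ Finset.Ico (-(5 * N : ℤ)) (5 * N),
        nu S W r j k s * nu S W r j k s' * Ers (9 / 10) S (α * s' + β s) =
        ∑ s ∈ Finset.Ico (-(2 * N : ℤ)) (2 * N), nu S W r j k s *
          ∑ s' ∈ Finset.Ico (-(5 * N : ℤ)) (5 * N),
            nu S W r j k s' * Ers (9 / 10) S (α * s' + β s) := by
          apply Finset.sum_congr rfl
          intro s _
          rw [Finset.mul_sum]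
          apply Finset.sum_congr rfl
          intro s' _
          ring
      _ ≤ ∑ s ∈ Finset.Ico (-(2 * N : ℤ)) (2 * N), nu S W r j k s *
          (C2 * N * (1 + e0 S j k) * er C2 A w) := by
          apply Finset.sum_le_sum
          intro s _
          exact mul_le_mul_of_nonneg_left (hc2 A w z W N S h2 r j k (-(5 * N)) (5 * N) (by omega)
            (by omega) α (β s) hα) (hnu s)
      _ = (∑ s ∈ Finset.Ico (-(2 * N : ℤ)) (2 * N), nu S W r j k s) *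
          (C2 * N * (1 + e0 S j k) * er C2 A w) := by rw [Finset.sum_mul]
      _ ≤ (C1 * N * (1 + e0 S j k)) * (C2 * N * (1 + e0 S j k) * er C2 A w) :=
          mul_le_mul_of_nonneg_right A1 (by positivity)
      _ = (C1 * C2) * (N ^ 2 * (1 + e0 S j k) ^ 2) * er C2 A w := by ring
      _ ≤ C * (N ^ 2 * (1 + e0 S j k) ^ 2) * er C A w := by gcongr
      _ = _ := by ring

/-- the three types of error functions -/
def Ty (S : Finset ℕ) (Φ : ℤ → ℤ → ℤ → ℤ → ℝ) : Prop :=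
  (∃ α : ℤ, (∀ p ∈ S, ¬ (p : ℤ) ∣ α) ∧ ∃ β : ℤ → ℤ → ℤ, ∀ j k l s,
    Φ j k l s ≤ Ers (9 / 10) S (α * s + β j k)) ∨
  (∃ α : ℤ, (∀ p ∈ S, ¬ (p : ℤ) ∣ α) ∧ ∃ β : ℤ → ℤ → ℤ → ℤ, ∀ j k l s,
    Φ j k l s ≤ Ers (9 / 10) S (α * (s + 2 * l) + β j k s)) ∨
  (∃ c : ℤ → ℤ → ℤ, AffU S c ∧ ∀ j k l s, Φ j k l s ≤ Ers (9 / 10) S (c j k))

/-- sum over quadruples -/
noncomputable def Qs (S : Finset ℕ) (W N : ℕ) (r : ℤ) (Φ : ℤ → ℤ → ℤ → ℤ → ℝ) : ℝ :=
  ∑ j ∈ Finset.Ico (-(2 * N : ℤ)) (2 * N), ∑ k ∈ Finset.Ico (-(N : ℤ)) N,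
    ∑ l ∈ Finset.Ico (-(N : ℤ)) N, ∑ s ∈ Finset.Ico (-(2 * N : ℤ)) (2 * N),
      nu S W r j k s * nu S W r j k (s + 2 * l) * Φ j k l s

theorem Qs_mono {S : Finset ℕ} (hS : ∀ p ∈ S, p.Prime) (W N : ℕ) (r : ℤ)
    {Φ Ψ : ℤ → ℤ → ℤ → ℤ → ℝ} (h : ∀ j k l s, Φ j k l s ≤ Ψ j k l s) :
    Qs S W N r Φ ≤ Qs S W N r Ψ := by
  unfold Qs
  apply Finset.sum_le_sum; intro j _
  apply Finset.sum_le_sum; intro k _
  apply Finset.sum_le_sum; intro l _
  apply Finset.sum_le_sum; intro s _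
  exact mul_le_mul_of_nonneg_left (h j k l s)
    (mul_nonneg (nu_nonneg hS _ _ _ _ _) (nu_nonneg hS _ _ _ _ _))

theorem e0_two : ∃ C : ℕ, 2 ≤ C ∧ ∀ (A w z W N : ℕ) (S : Finset ℕ), Stp C A w z W N S →
    ∑ j ∈ Finset.Ico (-(2 * N : ℤ)) (2 * N), ∑ k ∈ Finset.Ico (-(N : ℤ)) N,
      (1 + e0 S j k) ^ 2 ≤ (C : ℝ) * (N : ℝ) ^ 2 := by
  obtain ⟨C, hC, hc⟩ := e0_four
  refine ⟨C, hC, fun A w z W N S h => le_trans ?_ (hc A w z W N S h)⟩
  apply Finset.sum_le_sum; intro j _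
  apply Finset.sum_le_sum; intro k _
  have := e0_nonneg S j k
  exact pow_le_pow_right₀ (by linarith) (by norm_num)

theorem quad0 : ∃ C : ℕ, 2 ≤ C ∧ ∀ (A w z W N : ℕ) (S : Finset ℕ), Stp C A w z W N S →
    ∀ r : ℤ, Qs S W N r (fun _ _ _ _ => 1) ≤ (C : ℝ) * (N : ℝ) ^ 4 := by
  obtain ⟨C1, hC1, hc1⟩ := inner
  obtain ⟨C2, hC2, hc2⟩ := e0_two
  refine ⟨C1 * C2, by nlinarith, fun A w z W N S h r => ?_⟩
  have h1 := h.mono (show C1 ≤ C1 * C2 by nlinarith)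
  have h2 := h.mono (show C2 ≤ C1 * C2 by nlinarith)
  unfold Qs
  simp only [mul_one]
  calc _ ≤ ∑ j ∈ Finset.Ico (-(2 * N : ℤ)) (2 * N), ∑ k ∈ Finset.Ico (-(N : ℤ)) N,
        (C1 * N ^ 2 * (1 + e0 S j k) ^ 2 : ℝ) :=
        Finset.sum_le_sum fun j _ => Finset.sum_le_sum fun k _ => (hc1 A w z W N S h1 r j k).1
    _ = (C1 * N ^ 2 : ℝ) * ∑ j ∈ Finset.Ico (-(2 * N : ℤ)) (2 * N),
        ∑ k ∈ Finset.Ico (-(N : ℤ)) N, (1 + e0 S j k) ^ 2 := by
        simp only [Finset.mul_sum]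
    _ ≤ (C1 * N ^ 2 : ℝ) * (C2 * N ^ 2) :=
        mul_le_mul_of_nonneg_left (hc2 A w z W N S h2) (by positivity)
    _ = _ := by push_cast; ring

theorem quad : ∃ C : ℕ, 2 ≤ C ∧ ∀ (A w z W N : ℕ) (S : Finset ℕ), Stp C A w z W N S →
    ∀ (r : ℤ) (Φ : ℤ → ℤ → ℤ → ℤ → ℝ), Ty S Φ →
    Qs S W N r Φ ≤ (C : ℝ) * (N : ℝ) ^ 4 * er C A w := by
  obtain ⟨C1, hC1, hc1⟩ := inner
  obtain ⟨C2, hC2, hc2⟩ := e0_two
  obtain ⟨C3, hC3, hc3⟩ := jk_weighted
  refine ⟨C1 * C2 * C3, by nlinarith [Nat.mul_le_mul hC1 hC2], fun A w z W N S h r Φ hΦ => ?_⟩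
  have l1 : C1 * C2 ≤ C1 * C2 * C3 := Nat.le_mul_of_pos_right _ (by omega)
  have l2 : C1 * C3 ≤ C1 * C2 * C3 := by
    rw [mul_right_comm]
    exact Nat.le_mul_of_pos_right _ (by omega)
  have h1 := h.mono (show C1 ≤ C1 * C2 * C3 by nlinarith)
  have h2 := h.mono (show C2 ≤ C1 * C2 * C3 by nlinarith)
  have h3 := h.mono (show C3 ≤ C1 * C2 * C3 by nlinarith)
  have hw1 : 1 ≤ w := h1.w_pos (by omega)
  have hε1 : er C1 A w ≤ er (C1 * C2 * C3) A w := er_mono (by omega) (by nlinarith) A hw1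
  have hε3 : er C3 A w ≤ er (C1 * C2 * C3) A w := er_mono (by omega) (by nlinarith) A hw1
  have e1 := er_nonneg C1 A w
  have e3 := er_nonneg C3 A w
  set C := C1 * C2 * C3 with hC
  have l1' : (C1 : ℝ) * C2 ≤ C := by exact_mod_cast l1
  have l2' : (C1 : ℝ) * C3 ≤ C := by exact_mod_cast l2
  have fin : ∀ {X : ℝ}, (X ≤ ∑ j ∈ Finset.Ico (-(2 * N : ℤ)) (2 * N),
      ∑ k ∈ Finset.Ico (-(N : ℤ)) N, (C1 * N ^ 2 * (1 + e0 S j k) ^ 2 * er C1 A w : ℝ)) →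
      X ≤ (C : ℝ) * (N : ℝ) ^ 4 * er C A w := by
    intro X hX
    calc X ≤ _ := hX
      _ = (C1 * N ^ 2 * er C1 A w : ℝ) * ∑ j ∈ Finset.Ico (-(2 * N : ℤ)) (2 * N),
          ∑ k ∈ Finset.Ico (-(N : ℤ)) N, (1 + e0 S j k) ^ 2 := by
          simp only [Finset.mul_sum]
          apply Finset.sum_congr rfl; intro j _
          apply Finset.sum_congr rfl; intro k _
          ring
      _ ≤ (C1 * N ^ 2 * er C1 A w : ℝ) * (C2 * N ^ 2) :=
          mul_le_mul_of_nonneg_left (hc2 A w z W N S h2) (by positivity)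
      _ = (C1 * C2) * N ^ 4 * er C1 A w := by ring
      _ ≤ C * N ^ 4 * er C A w := by gcongr
  rcases hΦ with ⟨α, hα, β, hb⟩ | ⟨α, hα, β, hb⟩ | ⟨c, hc, hb⟩
  · refine (Qs_mono h.hS.prime W N r hb).trans (fin ?_)
    unfold Qs
    exact Finset.sum_le_sum fun j _ => Finset.sum_le_sum fun k _ =>
      (hc1 A w z W N S h1 r j k).2.1 α (β j k) hα
  · refine (Qs_mono h.hS.prime W N r hb).trans (fin ?_)
    unfold Qs
    exact Finset.sum_le_sum fun j _ => Finset.sum_le_sum fun k _ =>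
      (hc1 A w z W N S h1 r j k).2.2 α (β j k) hα
  · refine (Qs_mono h.hS.prime W N r hb).trans ?_
    unfold Qs
    simp only [← Finset.sum_mul]
    calc _ ≤ ∑ j ∈ Finset.Ico (-(2 * N : ℤ)) (2 * N), ∑ k ∈ Finset.Ico (-(N : ℤ)) N,
          ((C1 * N ^ 2 * (1 + e0 S j k) ^ 2) * Ers (9 / 10) S (c j k) : ℝ) :=
          Finset.sum_le_sum fun j _ => Finset.sum_le_sum fun k _ =>
            mul_le_mul_of_nonneg_right (hc1 A w z W N S h1 r j k).1 (Ers_nonneg _ _ _)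
      _ = (C1 * N ^ 2 : ℝ) * ∑ j ∈ Finset.Ico (-(2 * N : ℤ)) (2 * N),
          ∑ k ∈ Finset.Ico (-(N : ℤ)) N, Ers (9 / 10) S (c j k) * (1 + e0 S j k) ^ 2 := by
          simp only [Finset.mul_sum]
          apply Finset.sum_congr rfl; intro j _
          apply Finset.sum_congr rfl; intro k _
          ring
      _ ≤ (C1 * N ^ 2 : ℝ) * (C3 * N ^ 2 * er C3 A w) :=
          mul_le_mul_of_nonneg_left (hc3 A w z W N S h3 c hc) (by positivity)
      _ = (C1 * C3) * N ^ 4 * er C3 A w := by ring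
      _ ≤ C * N ^ 4 * er C A w := by gcongr

end Pool.Agent.Lib.H18GB
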