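import Pool.Agent.Lib.H18GB.TU3Avg

/-!
# Project GB: TU3, the correlation (helper82)
-/

namespace Pool.Agent.Lib.H18GB

open Finset Pool.Agent.Lib.Sieve

/-! ## discriminants -/

/-- indicator -/
def bz (b : Bool) : ℤ := if b then 1 else 0

theorem sh_eq (j k : ℤ) (i : Bool × Bool) : sh j k i = bz i.1 * j + bz i.2 * k := by
  unfold sh bz
  split_ifs <;> ring

theorem unit_bz {w z : ℕ} {S : Finset ℕ} (hS : PSet w z S) {b b' : Bool} (h : b ≠ b') :
    ∀ p ∈ S, ¬ (p : ℤ) ∣ bz b' - bz b := by
  have u1 := unit_one hS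
  have u2 := unit_neg u1
  cases b <;> cases b' <;> simp [bz] at h ⊢
  · simpa using u1
  · simpa using u1

theorem disc_swap {ι : Type*} (α β : ι → ℤ) (i j : ι) : disc α β i j = -disc α β j i := by
  unfold disc
  ring

/-- coefficients of the twelve forms -/
def al (W : ℕ) (ep : Bool → ℤ) : (Bool × Bool) ⊕ ((Bool × Bool) × Bool) → ℤ :=
  Sum.elim (fun _ => 2 * W) (fun u => ep u.2 * W)

/-- constant terms of the twelve forms -/
def be (W : ℕ) (ep bb : Bool → ℤ) (r j k l s : ℤ) :
    (Bool × Bool) ⊕ ((Bool × Bool) × Bool) → ℤ :=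
  Sum.elim (fun i => r + W * (sh (-j) k i - s)) (fun u => ep u.2 * W * sh l k u.1 + bb u.2)

theorem cross_ty {C A w z W N : ℕ} {S : Finset ℕ} (h : Stp C A w z W N S) (hC : 2 ≤ C)
    {ep : Bool → ℤ} (bb : Bool → ℤ) (hep : ∀ c, ep c ≠ 0 ∧ |ep c| ≤ 2) (r : ℤ)
    (P Q : (Bool × Bool) ⊕ ((Bool × Bool) × Bool)) (hPQ : crs P Q) :
    Ty S (fun j k l s => Ers (9 / 10) S (disc (al W ep) (be W ep bb r j k l s) P Q)) := by
  have uW := h.unitW
  have u2 : ∀ p ∈ S, ¬ (p : ℤ) ∣ 2 := h.unit_small hC (by norm_num) (by norm_num)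
  have ue : ∀ c, ∀ p ∈ S, ¬ (p : ℤ) ∣ ep c := fun c => h.unit_small hC (hep c).1 (hep c).2
  -- single / pair
  have mixed : ∀ (i : Bool × Bool) (u : (Bool × Bool) × Bool),
      Ty S (fun j k l s => Ers (9 / 10) S
        (disc (al W ep) (be W ep bb r j k l s) (.inl i) (.inr u))) := by
    intro i u
    obtain ⟨⟨u1, u2'⟩, c⟩ := u
    have uu := unit_mul h.hS (unit_mul h.hS (ue c) uW) uW
    cases u1
    · left
      refine ⟨ep c * W * W, uu, fun j k => 2 * W * (ep c * W * (bz u2' * k) + bb c) -
        ep c * W * (r + W * sh (-j) k i), fun j k l s => le_of_eq ?_⟩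
      refine congrArg (Ers (9 / 10) S) ?_
      simp only [disc, al, be, Sum.elim_inl, Sum.elim_inr, sh_eq l k (false, u2')]
      simp only [bz, Bool.false_eq_true, if_false]
      ring
    · right; left
      refine ⟨ep c * W * W, uu, fun j k s => 2 * W * (ep c * W * (bz u2' * k) + bb c) -
        ep c * W * (r + W * sh (-j) k i), fun j k l s => le_of_eq ?_⟩
      refine congrArg (Ers (9 / 10) S) ?_
      simp only [disc, al, be, Sum.elim_inl, Sum.elim_inr, sh_eq l k (true, u2')]
      simp only [bz, if_true]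
      ring
  rcases P with i | u
  · rcases Q with i' | u
    · -- single / single
      have hne : i ≠ i' := fun h1 => hPQ.1 (by rw [h1])
      right; right
      refine ⟨fun j k => 2 * W * W * ((bz i'.1 - bz i.1) * (-j) + (bz i'.2 - bz i.2) * k), ?_,
        fun j k l s => le_of_eq ?_⟩
      · by_cases h2 : i.2 = i'.2
        · have h1 : i.1 ≠ i'.1 := fun h1 => hne (Prod.ext h1 h2)
          right
          refine ⟨2 * W * W * (-(bz i'.1 - bz i.1)), unit_mul h.hS (unit_mul h.hS
            (unit_mul h.hS u2 uW) uW) (unit_neg (unit_bz h.hS h1)),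
            fun k => 2 * W * W * ((bz i'.2 - bz i.2) * k), fun j k => by ring⟩
        · left
          refine ⟨2 * W * W * (bz i'.2 - bz i.2), unit_mul h.hS (unit_mul h.hS
            (unit_mul h.hS u2 uW) uW) (unit_bz h.hS h2),
            fun j => 2 * W * W * ((bz i'.1 - bz i.1) * (-j)), fun j k => by ring⟩
      · refine congrArg (Ers (9 / 10) S) ?_
        simp only [disc, al, be, Sum.elim_inl, sh_eq]
        ring
    · exact mixed i u
  · rcases Q with i' | u'
    · have e1 : (fun j k l s => Ers (9 / 10) S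
          (disc (al W ep) (be W ep bb r j k l s) (.inr u) (.inl i'))) =
          (fun j k l s => Ers (9 / 10) S
          (disc (al W ep) (be W ep bb r j k l s) (.inl i') (.inr u))) := by
        funext j k l s
        rw [disc_swap, ers_neg]
      rw [e1]
      exact mixed i' u
    · -- pair / pair
      obtain ⟨u, c⟩ := u
      obtain ⟨u', c'⟩ := u'
      have hne : u ≠ u' := fun h1 => hPQ.2 ⟨u, c, c', rfl, by rw [h1]⟩
      by_cases h1 : u.1 = u'.1
      · have h2 : u.2 ≠ u'.2 := fun h2 => hne (Prod.ext h1 h2)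
        right; right
        refine ⟨fun j k => ep c * ep c' * W * W * (bz u'.2 - bz u.2) * k +
          W * (ep c * bb c' - ep c' * bb c), ?_, fun j k l s => le_of_eq ?_⟩
        · left
          exact ⟨ep c * ep c' * W * W * (bz u'.2 - bz u.2), unit_mul h.hS (unit_mul h.hS
            (unit_mul h.hS (unit_mul h.hS (ue c) (ue c')) uW) uW) (unit_bz h.hS h2),
            fun _ => W * (ep c * bb c' - ep c' * bb c), fun j k => by ring⟩
        · refine congrArg (Ers (9 / 10) S) ?_
          simp only [disc, al, be, Sum.elim_inr, sh_eq, h1]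
          ring
      · right; left
        refine ⟨ep c * ep c' * W * W * (bz u'.1 - bz u.1), unit_mul h.hS (unit_mul h.hS
            (unit_mul h.hS (unit_mul h.hS (ue c) (ue c')) uW) uW) (unit_bz h.hS h1),
          fun j k s => -(ep c * ep c' * W * W * (bz u'.1 - bz u.1)) * s +
            2 * (ep c * ep c' * W * W * (bz u'.2 - bz u.2) * k +
            W * (ep c * bb c' - ep c' * bb c)), fun j k l s => le_of_eq ?_⟩
        refine (ers_mul h.hS.prime (9 / 10) 2 _ u2).symm.trans ?_
        refine congrArg (Ers (9 / 10) S) ?_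
        simp only [disc, al, be, Sum.elim_inr, sh_eq]
        ring

/-! ## the correlation -/

/-- the pair weight -/
noncomputable def om (S : Finset ℕ) (W : ℕ) (ep bb : Bool → ℤ) (x : ℤ) : ℝ :=
  rho S (ep false * W * x + bb false) * rho S (ep true * W * x + bb true) /
    SGp S (ep false * W * bb true - ep true * W * bb false)

open Classical in
/-- the total error -/
noncomputable def Dt (S : Finset ℕ) (W : ℕ) (ep bb : Bool → ℤ) (r j k l s : ℤ) : ℝ :=
  ∑ P : (Bool × Bool) ⊕ ((Bool × Bool) × Bool), ∑ Q : (Bool × Bool) ⊕ ((Bool × Bool) × Bool),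
    if crs P Q then Ers (9 / 10) S (disc (al W ep) (be W ep bb r j k l s) P Q) else 0

theorem Dt_nonneg (S : Finset ℕ) (W : ℕ) (ep bb : Bool → ℤ) (r j k l s : ℤ) :
    0 ≤ Dt S W ep bb r j k l s :=
  Finset.sum_nonneg fun _ _ => Finset.sum_nonneg fun _ _ => by
    split_ifs
    · exact Ers_nonneg _ _ _
    · exact le_rfl

theorem prod_om_eq (S : Finset ℕ) (W : ℕ) (ep bb : Bool → ℤ) (r j k l s x : ℤ) :
    (∏ u : Bool × Bool, (om S W ep bb (x + sh l k u) - 1)) =
    ∑ U ∈ (Finset.univ : Finset (Bool × Bool)).powerset,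
      (∏ u ∈ U, rho S (al W ep (.inr (u, false)) * x + be W ep bb r j k l s (.inr (u, false))) *
          rho S (al W ep (.inr (u, true)) * x + be W ep bb r j k l s (.inr (u, true))) /
          SGp S (disc (al W ep) (be W ep bb r j k l s) (.inr (u, false)) (.inr (u, true)))) *
      ∏ u ∈ Finset.univ \ U, (-1 : ℝ) := by
  rw [← Finset.prod_add]
  apply Finset.prod_congr rfl
  intro u _
  rw [← sub_eq_add_neg]
  refine congrArg (fun y => y - 1) ?_
  unfold om
  have e1 : ep false * W * (x + sh l k u) + bb false =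
      al W ep (.inr (u, false)) * x + be W ep bb r j k l s (.inr (u, false)) := by
    simp only [al, be, Sum.elim_inr]
    ring
  have e2 : ep true * W * (x + sh l k u) + bb true =
      al W ep (.inr (u, true)) * x + be W ep bb r j k l s (.inr (u, true)) := by
    simp only [al, be, Sum.elim_inr]
    ring
  have e3 : ep false * W * bb true - ep true * W * bb false =
      disc (al W ep) (be W ep bb r j k l s) (.inr (u, false)) (.inr (u, true)) := by
    simp only [disc, al, be, Sum.elim_inr]
    ring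
  rw [e1, e2, e3]

theorem nu_eq2 (S : Finset ℕ) (W : ℕ) (ep bb : Bool → ℤ) (r j k l s x : ℤ) :
    nu S W r (-j) k (2 * x - s) =
    ∑ T ∈ (Finset.univ : Finset (Bool × Bool)).powerset,
      ∏ i ∈ T, rho S (al W ep (.inl i) * x + be W ep bb r j k l s (.inl i)) := by
  unfold nu
  rw [Finset.prod_one_add]
  apply Finset.sum_congr rfl
  intro T _
  apply Finset.prod_congr rfl
  intro i _
  congr 1
  simp only [al, be, Sum.elim_inl]
  ring

theorem core : ∃ C : ℕ, 2 ≤ C ∧ ∀ (A w z W N : ℕ) (S : Finset ℕ), Stp C A w z W N S →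
    ∀ (ep bb : Bool → ℤ), (∀ c, ep c ≠ 0 ∧ |ep c| ≤ 2) → ∀ (r j k l s a b : ℤ), a ≤ b →
    b - a ≤ N →
    |∑ x ∈ Finset.Ico a b, (∏ u : Bool × Bool, (om S W ep bb (x + sh l k u) - 1)) *
      nu S W r (-j) k (2 * x - s)| ≤ C * N * (er C A w + Dt S W ep bb r j k l s) := by
  obtain ⟨C0, hC0, hc⟩ := corr_sub (Bool × Bool) (Bool × Bool)
  refine ⟨1000 * C0, by omega, fun A w z W N S h ep bb hep r j k l s a b hab hN => ?_⟩
  have hs := h.mono (show C0 ≤ 1000 * C0 by omega)
  have hw1 : 1 ≤ w := h.w_pos (by omega)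
  have hC0' : (1 : ℝ) ≤ C0 := by exact_mod_cast hC0
  have hN' : (b : ℝ) - a ≤ N := by exact_mod_cast hN
  have hab' : (0 : ℝ) ≤ (b : ℝ) - a := by
    have : (a : ℝ) ≤ b := by exact_mod_cast hab
    linarith
  have hN0 : (0 : ℝ) ≤ N := Nat.cast_nonneg _
  have u2 : ∀ p ∈ S, ¬ (p : ℤ) ∣ 2 := h.unit_small (by omega) (by norm_num) (by norm_num)
  have ue : ∀ c, ∀ p ∈ S, ¬ (p : ℤ) ∣ ep c :=
    fun c => h.unit_small (by omega) (hep c).1 (hep c).2
  have hα : ∀ p ∈ S, ∀ i, ¬ (p : ℤ) ∣ al W ep i := by
    intro p hp i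
    rcases i with i | u
    · exact unit_mul h.hS u2 h.unitW p hp
    · exact unit_mul h.hS (ue u.2) h.unitW p hp
  have hD := Dt_nonneg S W ep bb r j k l s
  have hε0 := er_nonneg C0 A w
  have hε : er C0 A w ≤ er (1000 * C0) A w := er_mono hC0 (by omega) A hw1
  set D := Dt S W ep bb r j k l s with hDdef
  set Sg : Finset (Bool × Bool) → Finset (Bool × Bool) → ℝ := fun T U =>
    ∑ x ∈ Finset.Ico a b,
      (∏ i ∈ T, rho S (al W ep (.inl i) * x + be W ep bb r j k l s (.inl i))) *
      (∏ u ∈ U, rho S (al W ep (.inr (u, false)) * x + be W ep bb r j k l s (.inr (u, false))) *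
          rho S (al W ep (.inr (u, true)) * x + be W ep bb r j k l s (.inr (u, true))) /
          SGp S (disc (al W ep) (be W ep bb r j k l s) (.inr (u, false)) (.inr (u, true))))
    with hSg
  have key : ∀ T U, |Sg T U - (b - a)| ≤ 2 * C0 * N * (er C0 A w + D) := by
    intro T U
    have h1 := hc A w z S hs.hA hs.hw h.hz h.hS (al W ep) (be W ep bb r j k l s) hα T U a b hab
    have hz : (z : ℝ) ^ (A + Fintype.card (Bool × Bool) + 2 * Fintype.card (Bool × Bool)) ≤
        er C0 A w * N := by
      rw [add_assoc]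
      exact h.zpow hC0 (by simp only [Fintype.card_prod, Fintype.card_bool]; omega)
    refine h1.trans ?_
    calc _ ≤ (N : ℝ) * (C0 * er C0 A w + C0 * D) + C0 * (er C0 A w * N) := by
          apply add_le_add
          · apply mul_le_mul hN' le_rfl _ hN0
            positivity
          · exact mul_le_mul_of_nonneg_left hz (by positivity)
      _ ≤ _ := by
          have : 0 ≤ C0 * N * D := by positivity
          nlinarith
  have e1 : ∑ x ∈ Finset.Ico a b, (∏ u : Bool × Bool, (om S W ep bb (x + sh l k u) - 1)) *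
      nu S W r (-j) k (2 * x - s) = ∑ U ∈ (Finset.univ : Finset (Bool × Bool)).powerset,
        (∏ u ∈ Finset.univ \ U, (-1 : ℝ)) *
        ∑ T ∈ (Finset.univ : Finset (Bool × Bool)).powerset, Sg T U := by
    simp only [prod_om_eq S W ep bb r j k l s, nu_eq2 S W ep bb r j k l s, hSg]
    simp only [Finset.sum_mul_sum]
    rw [Finset.sum_comm]
    apply Finset.sum_congr rfl
    intro U _
    rw [Finset.sum_comm, Finset.mul_sum]
    apply Finset.sum_congr rfl
    intro T _
    rw [Finset.mul_sum]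
    apply Finset.sum_congr rfl
    intro x _
    ring
  have e2 : ∑ U ∈ (Finset.univ : Finset (Bool × Bool)).powerset,
      (∏ u ∈ Finset.univ \ U, (-1 : ℝ)) = 0 := by
    have := Finset.prod_add (fun _ : Bool × Bool => (1 : ℝ)) (fun _ => (-1 : ℝ)) Finset.univ
    simp only [Finset.prod_const_one, one_mul, add_neg_cancel, Finset.prod_const] at this
    simp only [Finset.prod_const]
    rw [← this]
    simp
  have e3 : ∑ U ∈ (Finset.univ : Finset (Bool × Bool)).powerset,
        (∏ u ∈ Finset.univ \ U, (-1 : ℝ)) *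
        ∑ T ∈ (Finset.univ : Finset (Bool × Bool)).powerset, Sg T U =
      ∑ U ∈ (Finset.univ : Finset (Bool × Bool)).powerset,
        (∏ u ∈ Finset.univ \ U, (-1 : ℝ)) *
        ∑ T ∈ (Finset.univ : Finset (Bool × Bool)).powerset, (Sg T U - (b - a)) := by
    have e4 : ∀ U, ∑ T ∈ (Finset.univ : Finset (Bool × Bool)).powerset,
        (Sg T U - ((b : ℝ) - a)) = ∑ T ∈ (Finset.univ : Finset (Bool × Bool)).powerset,
        Sg T U - 16 * ((b : ℝ) - a) := by
      intro U
      rw [Finset.sum_sub_distrib, Finset.sum_const, Finset.card_powerset, Finset.card_univ]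
      simp only [Fintype.card_prod, Fintype.card_bool, nsmul_eq_mul]
      push_cast
      ring
    simp only [e4]
    simp only [mul_sub (∏ u ∈ Finset.univ \ _, (-1 : ℝ)), Finset.sum_sub_distrib]
    rw [← Finset.sum_mul, e2]
    ring
  rw [e1, e3]
  calc |∑ U ∈ (Finset.univ : Finset (Bool × Bool)).powerset,
        (∏ u ∈ Finset.univ \ U, (-1 : ℝ)) *
        ∑ T ∈ (Finset.univ : Finset (Bool × Bool)).powerset, (Sg T U - (b - a))|
      ≤ ∑ U ∈ (Finset.univ : Finset (Bool × Bool)).powerset,
        ∑ T ∈ (Finset.univ : Finset (Bool × Bool)).powerset, |Sg T U - (b - a)| := by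
        refine (Finset.abs_sum_le_sum_abs _ _).trans (Finset.sum_le_sum fun U _ => ?_)
        rw [abs_mul, Finset.abs_prod]
        simp only [abs_neg, abs_one, Finset.prod_const_one, one_mul]
        exact Finset.abs_sum_le_sum_abs _ _
    _ ≤ 16 * (16 * (2 * C0 * N * (er C0 A w + D))) :=
        sum_powerset_le fun U => sum_powerset_le fun T => key T U
    _ = (512 * C0) * N * (er C0 A w + D) := by ring
    _ ≤ _ := by
        push_cast
        gcongr
        norm_num

end Pool.Agent.Lib.H18GB
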