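import Pool.Agent.Lib.H18GB.TY
import Pool.Agent.Lib.H18GB.Ers
import Pool.Agent.Lib.H18GB.Corr

/-!
# Project GB: TY1 (typical vertices reach a positive mass of link ends in two steps)
-/

namespace Pool.Agent.Lib.H18GB

open Finset Pool.Agent.Lib.Sieve Pool.Agent.Lib.GoldbachGraph

namespace TY1A

/-! ### Lower bound for bilinear sums -/

/-- weight of the edge `X - Y` -/
noncomputable def pw (W : ℕ) (X Y : ℤ) : ℝ := lamv W (X + Y) * lamv W (X - Y)

theorem pw_nonneg (W : ℕ) (X Y : ℤ) : 0 ≤ pw W X Y := mul_nonneg (lamv_nonneg' _ _) (lamv_nonneg' _ _)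

theorem ker_pair {W : ℕ} {a b x y : ℤ} :
    ker W (a + b) (a - b) 1 x y + ker W (a + b) (-(a - b)) (-1) x y =
      (pw W (a + W * x) (b + W * y) - 1) +
        (if x = y then pw W (a + W * x) (b + W * y) - 1 else 0) := by
  have h1 : lam W (a + b) (x + y) = lamv W (a + W * x + (b + W * y)) := by
    unfold lam; congr 1; ring
  have h2 : lam W (a - b) (1 * (x - y)) = lamv W (a + W * x - (b + W * y)) := by
    unfold lam; congr 1; ring
  have h3 : lam W (-(a - b)) (-1 * (x - y)) = lamv W (a + W * x - (b + W * y)) := by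
    unfold lam
    rw [← lamv_neg W (a + W * x - (b + W * y))]
    congr 1; ring
  unfold ker
  rw [h1, h2, h3]
  unfold pw
  rcases lt_trichotomy x y with h | h | h
  · rw [if_neg (by omega), if_pos (by omega), if_neg (by omega)]; ring
  · rw [if_pos (by omega), if_pos (by omega), if_pos h]
  · rw [if_pos (by omega), if_neg (by omega), if_neg (by omega)]

theorem pair_lower {W N : ℕ} (hW : 0 < W) (hN : 0 < N) {a b : ℤ} (ha : 0 ≤ a) (ha' : a < W)
    (hb : 0 ≤ b) (hb' : b < W) {F G : ℤ → ℝ} {E LF : ℝ} (hF : ∀ x, 0 ≤ F x)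
    (hFL : ∀ x ∈ Finset.Ico (0 : ℤ) N, F x ≤ LF) (hG : ∀ y, 0 ≤ G y) (hG1 : ∀ y, G y ≤ 1)
    (h1 : |∑ x ∈ Finset.Ico (0 : ℤ) N, ∑ y ∈ Finset.Ico (0 : ℤ) N,
      F x * G y * ker W (a + b) (a - b) 1 x y| ≤ E)
    (h2 : |∑ x ∈ Finset.Ico (0 : ℤ) N, ∑ y ∈ Finset.Ico (0 : ℤ) N,
      F x * G y * ker W (a + b) (-(a - b)) (-1) x y| ≤ E) :
    (∑ x ∈ Finset.Ico (0 : ℤ) N, F x) * (∑ y ∈ Finset.Ico (0 : ℤ) N, G y) - 2 * E -
      N * (LF * LL W N ^ 2) ≤
      ∑ x ∈ Finset.Ico (0 : ℤ) N, ∑ y ∈ Finset.Ico (0 : ℤ) N,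
        F x * G y * pw W (a + W * x) (b + W * y) := by
  have e1 := (abs_le.mp h1).1
  have e2 := (abs_le.mp h2).1
  have e3 := (abs_le.mp h1).2
  have hl := LL_nonneg hW hN
  have hLF : 0 ≤ LF := (hF 0).trans (hFL 0 (by rw [Finset.mem_Ico]; omega))
  have key : (∑ x ∈ Finset.Ico (0 : ℤ) N, ∑ y ∈ Finset.Ico (0 : ℤ) N,
      F x * G y * ker W (a + b) (a - b) 1 x y) + (∑ x ∈ Finset.Ico (0 : ℤ) N,
      ∑ y ∈ Finset.Ico (0 : ℤ) N, F x * G y * ker W (a + b) (-(a - b)) (-1) x y) =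
      (∑ x ∈ Finset.Ico (0 : ℤ) N, ∑ y ∈ Finset.Ico (0 : ℤ) N,
        F x * G y * pw W (a + W * x) (b + W * y)) -
      (∑ x ∈ Finset.Ico (0 : ℤ) N, F x) * (∑ y ∈ Finset.Ico (0 : ℤ) N, G y) +
      ∑ x ∈ Finset.Ico (0 : ℤ) N, F x * G x * (pw W (a + W * x) (b + W * x) - 1) := by
    rw [Finset.sum_mul_sum, ← Finset.sum_add_distrib, ← Finset.sum_sub_distrib,
      ← Finset.sum_add_distrib]
    apply Finset.sum_congr rfl
    intro x hx
    have hd : F x * G x * (pw W (a + W * x) (b + W * x) - 1) =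
        ∑ y ∈ Finset.Ico (0 : ℤ) N, F x * G y *
          (if x = y then pw W (a + W * x) (b + W * y) - 1 else 0) := by
      rw [Finset.sum_eq_single x]
      · rw [if_pos rfl]
      · intro y _ hy
        rw [if_neg (Ne.symm hy), mul_zero]
      · intro h; exact absurd hx h
    rw [hd, ← Finset.sum_add_distrib, ← Finset.sum_sub_distrib, ← Finset.sum_add_distrib]
    apply Finset.sum_congr rfl
    intro y _
    rw [← mul_add, ker_pair]
    ring
  have hdiag : ∑ x ∈ Finset.Ico (0 : ℤ) N, F x * G x * (pw W (a + W * x) (b + W * x) - 1) ≤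
      N * (LF * LL W N ^ 2) := by
    have hx1 : ∀ x ∈ Finset.Ico (0 : ℤ) N,
        F x * G x * (pw W (a + W * x) (b + W * x) - 1) ≤ LF * LL W N ^ 2 := by
      intro x hx
      have hx' := Finset.mem_Ico.mp hx
      have hWz : (1 : ℤ) ≤ W := by exact_mod_cast hW
      have hNz : (1 : ℤ) ≤ N := by exact_mod_cast hN
      have hWx : (W : ℤ) * x ≤ W * (N - 1) := by
        apply mul_le_mul_of_nonneg_left _ (by omega); omega
      have hWx0 : 0 ≤ (W : ℤ) * x := mul_nonneg (by omega) hx'.1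
      have hWN : (W : ℤ) ≤ W * N := by nlinarith
      have c1 : lamv W (a + W * x + (b + W * x)) ≤ LL W N := by
        apply lamv_le hW hN
        rw [abs_le]; constructor <;> nlinarith
      have c2 : lamv W (a + W * x - (b + W * x)) ≤ LL W N := by
        apply lamv_le hW hN
        rw [abs_le]; constructor <;> nlinarith
      have c3 : pw W (a + W * x) (b + W * x) ≤ LL W N ^ 2 := by
        unfold pw
        rw [sq]
        exact mul_le_mul c1 c2 (lamv_nonneg' _ _) hl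
      have c4 : F x * G x ≤ LF := by
        calc F x * G x ≤ F x * 1 := mul_le_mul_of_nonneg_left (hG1 x) (hF x)
          _ ≤ LF := by rw [mul_one]; exact hFL x hx
      have c5 : 0 ≤ F x * G x := mul_nonneg (hF x) (hG x)
      calc F x * G x * (pw W (a + W * x) (b + W * x) - 1)
          ≤ F x * G x * LL W N ^ 2 := by
            apply mul_le_mul_of_nonneg_left _ c5; linarith
        _ ≤ LF * LL W N ^ 2 := mul_le_mul_of_nonneg_right c4 (by positivity)
    refine (Finset.sum_le_sum hx1).trans ?_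
    rw [Finset.sum_const, Int.card_Ico, nsmul_eq_mul]
    simp
  linarith

theorem sum_mul_indZ {N : ℕ} {A : Finset ℕ} (hA : A ⊆ Finset.Ico 1 N) (f : ℤ → ℝ) :
    ∑ x ∈ Finset.Ico (0 : ℤ) N, f x * indZ A x = ∑ n ∈ A, f n := by
  classical
  rw [sum_Ico_int]
  have h1 : ∀ n ∈ Finset.range N, f (n : ℤ) * indZ A (n : ℤ) = if n ∈ A then f n else 0 := by
    intro n _
    rw [indZ_cast]
    split_ifs <;> simp
  rw [Finset.sum_congr rfl h1, Finset.sum_ite_mem]
  congr 1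
  apply Finset.inter_eq_right.mpr
  intro n hn
  have := Finset.mem_Ico.mp (hA hn)
  exact Finset.mem_range.mpr this.2

/-- the lower bound for sets -/
theorem set_lower {W N : ℕ} (hW : 0 < W) (hN : 0 < N) {a b : ℤ} (ha : 0 ≤ a) (ha' : a < W)
    (hb : 0 ≤ b) (hb' : b < W) {f : ℤ → ℝ} {E LF : ℝ} (hf : ∀ x, 0 ≤ f x)
    (hfL : ∀ x ∈ Finset.Ico (0 : ℤ) N, f x ≤ LF) {A B : Finset ℕ} (hA : A ⊆ Finset.Ico 1 N)
    (hB : B ⊆ Finset.Ico 1 N)
    (h1 : |∑ x ∈ Finset.Ico (0 : ℤ) N, ∑ y ∈ Finset.Ico (0 : ℤ) N,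
      (f x * indZ A x) * indZ B y * ker W (a + b) (a - b) 1 x y| ≤ E)
    (h2 : |∑ x ∈ Finset.Ico (0 : ℤ) N, ∑ y ∈ Finset.Ico (0 : ℤ) N,
      (f x * indZ A x) * indZ B y * ker W (a + b) (-(a - b)) (-1) x y| ≤ E) :
    (∑ n ∈ A, f n) * B.card - 2 * E - N * (LF * LL W N ^ 2) ≤
      ∑ n ∈ A, ∑ m ∈ B, f n * pw W (a + W * n) (b + W * m) := by
  have hi1 : ∀ x, indZ A x ≤ 1 := fun x => (le_abs_self _).trans (indZ_abs_le A x)
  have hi2 : ∀ x, indZ B x ≤ 1 := fun x => (le_abs_self _).trans (indZ_abs_le B x)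
  have h := pair_lower hW hN ha ha' hb hb' (F := fun x => f x * indZ A x) (G := indZ B) (E := E)
    (LF := LF) (fun x => mul_nonneg (hf x) (indZ_nonneg A x))
    (fun x hx => (mul_le_of_le_one_right (hf x) (hi1 x)).trans (hfL x hx))
    (indZ_nonneg B) hi2 h1 h2
  rw [sum_mul_indZ hA, sum_indZ hB] at h
  refine h.trans (le_of_eq ?_)
  have e1 : ∀ x : ℤ, ∑ y ∈ Finset.Ico (0 : ℤ) N, (f x * indZ A x) * indZ B y *
      pw W (a + W * x) (b + W * y) =
      (∑ m ∈ B, f x * pw W (a + W * x) (b + W * m)) * indZ A x := by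
    intro x
    have := sum_mul_indZ hB (fun y => f x * indZ A x * pw W (a + W * x) (b + W * y))
    rw [Finset.sum_mul]
    calc _ = ∑ y ∈ Finset.Ico (0 : ℤ) N, f x * indZ A x * pw W (a + W * x) (b + W * y) *
          indZ B y := by
          apply Finset.sum_congr rfl
          intro y _
          ring
      _ = _ := by
          rw [this]
          apply Finset.sum_congr rfl
          intro y _
          ring
  rw [Finset.sum_congr rfl fun x _ => e1 x,
    sum_mul_indZ hA (fun x => ∑ m ∈ B, f x * pw W (a + W * x) (b + W * m))]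


/-! ### Truncation -/

/-- truncated weight of a prime -/
noncomputable def tw (W z : ℕ) (v : ℤ) : ℝ := if (z : ℤ) < |v| then lamv W v else 0

/-- truncated weight of an edge -/
noncomputable def tp (W z : ℕ) (X Y : ℤ) : ℝ := tw W z (X + Y) * tw W z (X - Y)

theorem tw_nonneg (W z : ℕ) (v : ℤ) : 0 ≤ tw W z v := by
  unfold tw
  split_ifs
  · exact lamv_nonneg' _ _
  · exact le_rfl

theorem tw_le (W z : ℕ) (v : ℤ) : tw W z v ≤ lamv W v := by
  unfold tw
  split_ifs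
  · exact le_rfl
  · exact lamv_nonneg' _ _

theorem tp_nonneg (W z : ℕ) (X Y : ℤ) : 0 ≤ tp W z X Y := mul_nonneg (tw_nonneg _ _ _) (tw_nonneg _ _ _)

theorem tp_ne {W z : ℕ} {X Y : ℤ} (h : tp W z X Y ≠ 0) : pw W X Y ≠ 0 := by
  unfold tp at h
  obtain ⟨h1, h2⟩ := mul_ne_zero_iff.mp h
  unfold pw
  have k1 : 0 < tw W z (X + Y) := lt_of_le_of_ne (tw_nonneg _ _ _) (Ne.symm h1)
  have k2 : 0 < tw W z (X - Y) := lt_of_le_of_ne (tw_nonneg _ _ _) (Ne.symm h2)
  exact (mul_pos (k1.trans_le (tw_le _ _ _)) (k2.trans_le (tw_le _ _ _))).ne'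

/-- indicator of `|v| ≤ z` -/
noncomputable def sm (z : ℕ) (v : ℤ) : ℝ := if |v| ≤ (z : ℤ) then 1 else 0

theorem sm_nonneg (z : ℕ) (v : ℤ) : 0 ≤ sm z v := by unfold sm; split_ifs <;> norm_num

theorem lamv_sub_tw {W z : ℕ} {v : ℤ} {L : ℝ} (h : lamv W v ≤ L) :
    lamv W v - tw W z v ≤ L * sm z v ∧ tw W z v ≤ L := by
  have h0 := lamv_nonneg' W v
  unfold tw sm
  by_cases hv : (z : ℤ) < |v|
  · rw [if_pos hv, if_neg (by omega)]
    constructor
    · simp
    · exact h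
  · rw [if_neg hv, if_pos (by omega)]
    constructor
    · simpa using h
    · linarith

theorem pw_sub_tp {W z : ℕ} {X Y : ℤ} {L : ℝ} (h1 : lamv W (X + Y) ≤ L) (h2 : lamv W (X - Y) ≤ L) :
    pw W X Y - tp W z X Y ≤ L ^ 2 * (sm z (X + Y) + sm z (X - Y)) := by
  obtain ⟨a1, a2⟩ := lamv_sub_tw (z := z) h1
  obtain ⟨b1, b2⟩ := lamv_sub_tw (z := z) h2
  have c1 := lamv_nonneg' W (X + Y)
  have c2 := lamv_nonneg' W (X - Y)
  have d1 := tw_nonneg W z (X + Y)
  have d2 := tw_nonneg W z (X - Y)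
  have L0 : 0 ≤ L := c1.trans h1
  have s1 := sm_nonneg z (X + Y)
  have s2 := sm_nonneg z (X - Y)
  unfold pw tp
  have e1 : lamv W (X + Y) * lamv W (X - Y) - tw W z (X + Y) * tw W z (X - Y) =
      (lamv W (X + Y) - tw W z (X + Y)) * lamv W (X - Y) +
      tw W z (X + Y) * (lamv W (X - Y) - tw W z (X - Y)) := by ring
  rw [e1]
  have f1 : (lamv W (X + Y) - tw W z (X + Y)) * lamv W (X - Y) ≤ (L * sm z (X + Y)) * L :=
    mul_le_mul a1 h2 c2 (by positivity)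
  have f2 : tw W z (X + Y) * (lamv W (X - Y) - tw W z (X - Y)) ≤ L * (L * sm z (X - Y)) := by
    apply mul_le_mul a2 b1 _ L0
    linarith [tw_le W z (X - Y)]
  calc _ ≤ (L * sm z (X + Y)) * L + L * (L * sm z (X - Y)) := add_le_add f1 f2
    _ = _ := by ring

theorem sum_sm {N : ℕ} {B : Finset ℕ} (hB : B ⊆ Finset.Ico 1 N) {b c : ℤ} (hc : c ≠ 0) (z : ℕ) :
    ∑ n ∈ B, sm z (b + c * n) ≤ 2 * z + 1 := by
  have h1 : ∑ n ∈ B, sm z (b + c * n) = ((B.filter (fun n : ℕ => |b + c * n| ≤ (z : ℤ))).card : ℝ) := by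
    unfold sm
    rw [Finset.sum_ite, Finset.sum_const, Finset.sum_const_zero, add_zero, nsmul_eq_mul, mul_one]
  rw [h1]
  have h2 : (B.filter (fun n : ℕ => |b + c * n| ≤ (z : ℤ))).card ≤ (bad N b c z).card := by
    apply Finset.card_le_card_of_injOn (fun n : ℕ => (n : ℤ))
    · intro n hn
      rw [Finset.mem_coe, Finset.mem_filter] at hn
      rw [Finset.mem_coe, bad, Finset.mem_filter]
      refine ⟨?_, hn.2⟩
      have := Finset.mem_Ico.mp (hB hn.1)
      rw [Finset.mem_Ico]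
      show (0 : ℤ) ≤ (n : ℤ) ∧ (n : ℤ) < N
      omega
    · intro x _ y _ hxy
      simpa using hxy
  have h3 := h2.trans (card_bad hc z)
  exact_mod_cast h3

/-- sizes of the linear forms -/
theorem size_form {W N : ℕ} (hW : 0 < W) {a b : ℤ} (ha : 0 ≤ a) (ha' : a < W)
    (hb : 0 ≤ b) (hb' : b < W) {x y : ℕ} (hx : x ∈ Finset.Ico 1 N) (hy : y ∈ Finset.Ico 1 N) :
    |(a + W * x) + (b + W * y)| ≤ 5 * W * N ∧ |(a + W * x) - (b + W * y)| ≤ 5 * W * N := by
  rw [Finset.mem_Ico] at hx hy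
  have hWz : (1 : ℤ) ≤ W := by exact_mod_cast hW
  have hx1 : (x : ℤ) ≤ N - 1 := by omega
  have hy1 : (y : ℤ) ≤ N - 1 := by omega
  have e1 : (W : ℤ) * x ≤ W * (N - 1) := mul_le_mul_of_nonneg_left hx1 (by omega)
  have e2 : (W : ℤ) * y ≤ W * (N - 1) := mul_le_mul_of_nonneg_left hy1 (by omega)
  have e3 : 0 ≤ (W : ℤ) * x := by positivity
  have e4 : 0 ≤ (W : ℤ) * y := by positivity
  have e5 : (0 : ℤ) ≤ W * N := by positivity
  constructor
  · rw [abs_le]; constructor <;> nlinarith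
  · rw [abs_le]; constructor <;> nlinarith

theorem trunc_y {W N z : ℕ} (hW : 0 < W) (hN : 0 < N) {a b : ℤ} (ha : 0 ≤ a) (ha' : a < W)
    (hb : 0 ≤ b) (hb' : b < W) {x : ℕ} (hx : x ∈ Finset.Ico 1 N) {B : Finset ℕ}
    (hB : B ⊆ Finset.Ico 1 N) :
    ∑ y ∈ B, pw W (a + W * x) (b + W * y) - LL W N ^ 2 * (4 * z + 2) ≤
      ∑ y ∈ B, tp W z (a + W * x) (b + W * y) := by
  have hWz : (W : ℤ) ≠ 0 := by exact_mod_cast hW.ne'
  have h1 : ∑ y ∈ B, (pw W (a + W * x) (b + W * y) - tp W z (a + W * x) (b + W * y)) ≤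
      ∑ y ∈ B, LL W N ^ 2 * (sm z ((a + W * x + b) + W * y) + sm z ((a + W * x - b) + (-W) * y)) := by
    apply Finset.sum_le_sum
    intro y hy
    obtain ⟨s1, s2⟩ := size_form hW ha ha' hb hb' hx (hB hy)
    have := pw_sub_tp (z := z) (lamv_le hW hN s1) (lamv_le hW hN s2)
    have e1 : a + W * x + (b + W * y) = (a + W * x + b) + W * y := by ring
    have e2 : a + W * x - (b + W * y) = (a + W * x - b) + (-W) * y := by ring
    rw [← e1, ← e2]
    exact this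
  rw [Finset.sum_sub_distrib, ← Finset.mul_sum, Finset.sum_add_distrib] at h1
  have h2 := sum_sm hB (b := a + W * x + b) hWz z
  have h3 := sum_sm hB (b := a + W * x - b) (neg_ne_zero.mpr hWz) z
  have h4 : 0 ≤ LL W N ^ 2 := by positivity
  nlinarith

/-- truncation of the sums with three factors -/
theorem trunc_v {W N z : ℕ} (hW : 0 < W) (hN : 0 < N) {a b e : ℤ} (ha : 0 ≤ a) (ha' : a < W)
    (hb : 0 ≤ b) (hb' : b < W) (he : |e| ≤ 3 * W) {y : ℕ} (hy : y ∈ Finset.Ico 1 N) {A : Finset ℕ}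
    (hA : A ⊆ Finset.Ico 1 N) :
    ∑ v ∈ A, lamv W (e + 2 * W * v) * pw W (a + W * v) (b + W * y) -
      LL W N ^ 3 * (6 * z + 3) ≤
      ∑ v ∈ A, tw W z (e + 2 * W * v) * tp W z (a + W * v) (b + W * y) := by
  have hWz : (W : ℤ) ≠ 0 := by exact_mod_cast hW.ne'
  have hWz1 : (1 : ℤ) ≤ W := by exact_mod_cast hW
  have hLL := LL_nonneg hW hN
  have h1 : ∑ v ∈ A, (lamv W (e + 2 * W * v) * pw W (a + W * v) (b + W * y) -
      tw W z (e + 2 * W * v) * tp W z (a + W * v) (b + W * y)) ≤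
      ∑ v ∈ A, LL W N ^ 3 * (sm z (e + 2 * W * v) + (sm z ((a + b + W * y) + W * v) +
        sm z ((a - b - W * y) + W * v))) := by
    apply Finset.sum_le_sum
    intro v hv
    obtain ⟨s1, s2⟩ := size_form hW ha ha' hb hb' (hA hv) hy
    have s3 : |e + 2 * W * v| ≤ 5 * W * N := by
      have hv' := Finset.mem_Ico.mp (hA hv)
      have hv1 : (v : ℤ) ≤ N - 1 := by omega
      have e1 : (W : ℤ) * v ≤ W * (N - 1) := mul_le_mul_of_nonneg_left hv1 (by omega)
      have e3 : 0 ≤ (W : ℤ) * v := by positivity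
      have e5 : (W : ℤ) * 2 ≤ W * N := mul_le_mul_of_nonneg_left (by omega) (by omega)
      rw [abs_le] at he ⊢
      constructor <;> nlinarith
    have k1 := lamv_le hW hN s1
    have k2 := lamv_le hW hN s2
    have k3 := lamv_le hW hN s3
    have p1 := pw_sub_tp (z := z) k1 k2
    obtain ⟨p2, p3⟩ := lamv_sub_tw (z := z) k3
    have p4 : pw W (a + W * v) (b + W * y) ≤ LL W N ^ 2 := by
      unfold pw
      rw [sq]
      exact mul_le_mul k1 k2 (lamv_nonneg' _ _) hLL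
    have e1 : a + W * v + (b + W * y) = (a + b + W * y) + W * v := by ring
    have e2 : a + W * v - (b + W * y) = (a - b - W * y) + W * v := by ring
    rw [← e1, ← e2]
    have q1 : lamv W (e + 2 * W * v) * pw W (a + W * v) (b + W * y) -
        tw W z (e + 2 * W * v) * tp W z (a + W * v) (b + W * y) =
        (lamv W (e + 2 * W * v) - tw W z (e + 2 * W * v)) * pw W (a + W * v) (b + W * y) +
        tw W z (e + 2 * W * v) * (pw W (a + W * v) (b + W * y) - tp W z (a + W * v) (b + W * y)) := by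
      ring
    rw [q1]
    have t1 := sm_nonneg z (e + 2 * W * v)
    have t2 := sm_nonneg z (a + W * v + (b + W * y))
    have t3 := sm_nonneg z (a + W * v - (b + W * y))
    have r1 : (lamv W (e + 2 * W * v) - tw W z (e + 2 * W * v)) * pw W (a + W * v) (b + W * y) ≤
        (LL W N * sm z (e + 2 * W * v)) * LL W N ^ 2 :=
      mul_le_mul p2 p4 (pw_nonneg _ _ _) (by positivity)
    have r2 : tw W z (e + 2 * W * v) *
        (pw W (a + W * v) (b + W * y) - tp W z (a + W * v) (b + W * y)) ≤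
        LL W N * (LL W N ^ 2 * (sm z (a + W * v + (b + W * y)) + sm z (a + W * v - (b + W * y)))) := by
      refine (mul_le_mul_of_nonneg_left p1 (tw_nonneg _ _ _)).trans ?_
      exact mul_le_mul_of_nonneg_right p3 (by positivity)
    calc _ ≤ _ := add_le_add r1 r2
      _ = _ := by ring
  rw [Finset.sum_sub_distrib, ← Finset.mul_sum, Finset.sum_add_distrib, Finset.sum_add_distrib] at h1
  have h2 := sum_sm hA (b := e) (c := 2 * W) (by positivity) z
  have h3 := sum_sm hA (b := a + b + W * y) hWz z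
  have h5 := sum_sm hA (b := a - b - W * y) hWz z
  have h4 : 0 ≤ LL W N ^ 3 := by positivity
  nlinarith


theorem er_two {C A w : ℕ} (hw : 1 ≤ w) : er C A w ≤ 2 := by
  unfold er
  have hw' : (1 : ℝ) ≤ w := by exact_mod_cast hw
  have h1 : (2 : ℝ) ^ (-(A : ℝ) / C) ≤ 1 :=
    Real.rpow_le_one_of_one_le_of_nonpos (by norm_num) (by
      rw [neg_div]; exact neg_nonpos.2 (by positivity))
  have h2 : (w : ℝ) ^ (-(1 : ℝ) / C) ≤ 1 :=
    Real.rpow_le_one_of_one_le_of_nonpos hw' (by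
      rw [neg_div]; exact neg_nonpos.2 (by positivity))
  linarith

/-! ### Upper bounds: discriminants -/

/-- the sum of the errors of all discriminants -/
noncomputable def QQ (t : ℝ) (S : Finset ℕ) (e Y Y' : ℤ) : ℝ :=
  Ers t S (2 * Y) + Ers t S (2 * Y') + Ers t S (Y - Y') + Ers t S (Y + Y') +
    Ers t S (2 * Y + e) + Ers t S (2 * Y - e) + Ers t S (2 * Y' + e) + Ers t S (2 * Y' - e)

theorem QQ_nonneg (t : ℝ) (S : Finset ℕ) (e Y Y' : ℤ) : 0 ≤ QQ t S e Y Y' := by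
  unfold QQ
  have h1 := Ers_nonneg t S (2 * Y)
  have h2 := Ers_nonneg t S (2 * Y')
  have h3 := Ers_nonneg t S (Y - Y')
  have h4 := Ers_nonneg t S (Y + Y')
  have h5 := Ers_nonneg t S (2 * Y + e)
  have h6 := Ers_nonneg t S (2 * Y - e)
  have h7 := Ers_nonneg t S (2 * Y' + e)
  have h8 := Ers_nonneg t S (2 * Y' - e)
  linarith

/-- a discriminant which is `± W m` -/
theorem ers_W {w W z : ℕ} {S : Finset ℕ} (hW : IsW w W) (hS : PSet w z S) (t : ℝ) {D m : ℤ}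
    (h : D = W * m ∨ D = -(W * m)) : Ers t S D = Ers t S m := by
  rcases h with rfl | rfl
  · exact ers_mul hS.prime t _ _ (hW.not_dvd hS)
  · rw [ers_neg]
    exact ers_mul hS.prime t _ _ (hW.not_dvd hS)

section disc

variable {w W z : ℕ} {S : Finset ℕ}

theorem d1 (hW : IsW w W) (hS : PSet w z S) (t : ℝ) {e Y Y' D : ℤ}
    (h : D = W * (2 * Y) ∨ D = -(W * (2 * Y))) : Ers t S D ≤ QQ t S e Y Y' := by
  rw [ers_W hW hS t h]
  unfold QQ
  have h1 := Ers_nonneg t S (2 * Y)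
  have h2 := Ers_nonneg t S (2 * Y')
  have h3 := Ers_nonneg t S (Y - Y')
  have h4 := Ers_nonneg t S (Y + Y')
  have h5 := Ers_nonneg t S (2 * Y + e)
  have h6 := Ers_nonneg t S (2 * Y - e)
  have h7 := Ers_nonneg t S (2 * Y' + e)
  have h8 := Ers_nonneg t S (2 * Y' - e)
  linarith

theorem d2 (hW : IsW w W) (hS : PSet w z S) (t : ℝ) {e Y Y' D : ℤ}
    (h : D = W * (2 * Y') ∨ D = -(W * (2 * Y'))) : Ers t S D ≤ QQ t S e Y Y' := by
  rw [ers_W hW hS t h]
  unfold QQ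
  have h1 := Ers_nonneg t S (2 * Y)
  have h2 := Ers_nonneg t S (2 * Y')
  have h3 := Ers_nonneg t S (Y - Y')
  have h4 := Ers_nonneg t S (Y + Y')
  have h5 := Ers_nonneg t S (2 * Y + e)
  have h6 := Ers_nonneg t S (2 * Y - e)
  have h7 := Ers_nonneg t S (2 * Y' + e)
  have h8 := Ers_nonneg t S (2 * Y' - e)
  linarith

theorem d3 (hW : IsW w W) (hS : PSet w z S) (t : ℝ) {e Y Y' D : ℤ}
    (h : D = W * (Y - Y') ∨ D = -(W * (Y - Y'))) : Ers t S D ≤ QQ t S e Y Y' := by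
  rw [ers_W hW hS t h]
  unfold QQ
  have h1 := Ers_nonneg t S (2 * Y)
  have h2 := Ers_nonneg t S (2 * Y')
  have h3 := Ers_nonneg t S (Y - Y')
  have h4 := Ers_nonneg t S (Y + Y')
  have h5 := Ers_nonneg t S (2 * Y + e)
  have h6 := Ers_nonneg t S (2 * Y - e)
  have h7 := Ers_nonneg t S (2 * Y' + e)
  have h8 := Ers_nonneg t S (2 * Y' - e)
  linarith

theorem d4 (hW : IsW w W) (hS : PSet w z S) (t : ℝ) {e Y Y' D : ℤ}
    (h : D = W * (Y + Y') ∨ D = -(W * (Y + Y'))) : Ers t S D ≤ QQ t S e Y Y' := by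
  rw [ers_W hW hS t h]
  unfold QQ
  have h1 := Ers_nonneg t S (2 * Y)
  have h2 := Ers_nonneg t S (2 * Y')
  have h3 := Ers_nonneg t S (Y - Y')
  have h4 := Ers_nonneg t S (Y + Y')
  have h5 := Ers_nonneg t S (2 * Y + e)
  have h6 := Ers_nonneg t S (2 * Y - e)
  have h7 := Ers_nonneg t S (2 * Y' + e)
  have h8 := Ers_nonneg t S (2 * Y' - e)
  linarith

theorem d5 (hW : IsW w W) (hS : PSet w z S) (t : ℝ) {e Y Y' D : ℤ}
    (h : D = W * (2 * Y + e) ∨ D = -(W * (2 * Y + e))) : Ers t S D ≤ QQ t S e Y Y' := by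
  rw [ers_W hW hS t h]
  unfold QQ
  have h1 := Ers_nonneg t S (2 * Y)
  have h2 := Ers_nonneg t S (2 * Y')
  have h3 := Ers_nonneg t S (Y - Y')
  have h4 := Ers_nonneg t S (Y + Y')
  have h5 := Ers_nonneg t S (2 * Y + e)
  have h6 := Ers_nonneg t S (2 * Y - e)
  have h7 := Ers_nonneg t S (2 * Y' + e)
  have h8 := Ers_nonneg t S (2 * Y' - e)
  linarith

theorem d6 (hW : IsW w W) (hS : PSet w z S) (t : ℝ) {e Y Y' D : ℤ}
    (h : D = W * (2 * Y - e) ∨ D = -(W * (2 * Y - e))) : Ers t S D ≤ QQ t S e Y Y' := by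
  rw [ers_W hW hS t h]
  unfold QQ
  have h1 := Ers_nonneg t S (2 * Y)
  have h2 := Ers_nonneg t S (2 * Y')
  have h3 := Ers_nonneg t S (Y - Y')
  have h4 := Ers_nonneg t S (Y + Y')
  have h5 := Ers_nonneg t S (2 * Y + e)
  have h6 := Ers_nonneg t S (2 * Y - e)
  have h7 := Ers_nonneg t S (2 * Y' + e)
  have h8 := Ers_nonneg t S (2 * Y' - e)
  linarith

theorem d7 (hW : IsW w W) (hS : PSet w z S) (t : ℝ) {e Y Y' D : ℤ}
    (h : D = W * (2 * Y' + e) ∨ D = -(W * (2 * Y' + e))) : Ers t S D ≤ QQ t S e Y Y' := by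
  rw [ers_W hW hS t h]
  unfold QQ
  have h1 := Ers_nonneg t S (2 * Y)
  have h2 := Ers_nonneg t S (2 * Y')
  have h3 := Ers_nonneg t S (Y - Y')
  have h4 := Ers_nonneg t S (Y + Y')
  have h5 := Ers_nonneg t S (2 * Y + e)
  have h6 := Ers_nonneg t S (2 * Y - e)
  have h7 := Ers_nonneg t S (2 * Y' + e)
  have h8 := Ers_nonneg t S (2 * Y' - e)
  linarith

theorem d8 (hW : IsW w W) (hS : PSet w z S) (t : ℝ) {e Y Y' D : ℤ}
    (h : D = W * (2 * Y' - e) ∨ D = -(W * (2 * Y' - e))) : Ers t S D ≤ QQ t S e Y Y' := by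
  rw [ers_W hW hS t h]
  unfold QQ
  have h1 := Ers_nonneg t S (2 * Y)
  have h2 := Ers_nonneg t S (2 * Y')
  have h3 := Ers_nonneg t S (Y - Y')
  have h4 := Ers_nonneg t S (Y + Y')
  have h5 := Ers_nonneg t S (2 * Y + e)
  have h6 := Ers_nonneg t S (2 * Y - e)
  have h7 := Ers_nonneg t S (2 * Y' + e)
  have h8 := Ers_nonneg t S (2 * Y' - e)
  linarith

end disc

theorem disc_swap {ι : Type*} (α β : ι → ℤ) (i j : ι) : disc α β j i = -disc α β i j := by
  unfold disc; ring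

/-- the errors of a family are bounded by `n^2` times the largest -/
theorem sum_disc_le {n : ℕ} {α β : Fin n → ℤ} {t : ℝ} {S : Finset ℕ} {Q : ℝ} (hQ : 0 ≤ Q)
    (h : ∀ i j : Fin n, i < j → Ers t S (disc α β i j) ≤ Q) :
    ∑ i, ∑ j ∈ Finset.univ.filter (fun j => i ≠ j), Ers t S (disc α β i j) ≤ n * (n * Q) := by
  have h1 : ∀ i j : Fin n, i ≠ j → Ers t S (disc α β i j) ≤ Q := by
    intro i j hij
    rcases lt_or_gt_of_ne hij with hlt | hgt
    · exact h i j hlt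
    · rw [disc_swap α β j i, ers_neg]
      exact h j i hgt
  calc ∑ i, ∑ j ∈ Finset.univ.filter (fun j => i ≠ j), Ers t S (disc α β i j)
      ≤ ∑ _i : Fin n, (n * Q) := by
        apply Finset.sum_le_sum
        intro i _
        calc ∑ j ∈ Finset.univ.filter (fun j => i ≠ j), Ers t S (disc α β i j)
            ≤ ∑ j ∈ Finset.univ.filter (fun j => i ≠ j), Q :=
              Finset.sum_le_sum fun j hj => h1 i j (Finset.mem_filter.mp hj).2
          _ ≤ ∑ _j : Fin n, Q :=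
              Finset.sum_le_sum_of_subset_of_nonneg (Finset.filter_subset _ _) fun _ _ _ => hQ
          _ = n * Q := by simp
    _ = n * (n * Q) := by simp

theorem four : ∃ C : ℕ, 1 ≤ C ∧ ∀ (A w z W N : ℕ) (S : Finset ℕ), C ≤ A → C ≤ w → 2 ≤ z →
    PSet w z S → IsW w W → z ^ (A + 4) ≤ N → ∀ a e Y Y' : ℤ,
    ∑ x ∈ Finset.range N, rho S (a + W * x + Y) * rho S (a + W * x - Y) *
      (rho S (a + W * x + Y') * rho S (a + W * x - Y')) ≤ C * N * (1 + QQ (9 / 10) S e Y Y') := by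
  obtain ⟨C, hC1, hC⟩ := corr0 4
  refine ⟨16 * C + 1, by omega, ?_⟩
  intro A w z W N S hA hw hz hS hW hN a e Y Y'
  have hmain := hC A w z S (by omega) (by omega) hz hS (fun _ => (W : ℤ))
    ![a + Y, a - Y, a + Y', a - Y'] (fun p hp _ => hW.not_dvd hS p hp) 0 N (by positivity)
  set Q := QQ (9 / 10) S e Y Y' with hQ
  have hQ0 : 0 ≤ Q := QQ_nonneg _ _ _ _ _
  have hd := sum_disc_le (n := 4) (α := fun _ => (W : ℤ)) (β := ![a + Y, a - Y, a + Y', a - Y'])
    (t := 9 / 10) (S := S) hQ0 (by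
      intro i j hij
      fin_cases i <;> fin_cases j <;> first
        | exact absurd hij (by decide)
        | (refine d1 hW hS _ (Or.inl ?_); simp [disc]; ring1)
        | (refine d1 hW hS _ (Or.inr ?_); simp [disc]; ring1)
        | (refine d2 hW hS _ (Or.inl ?_); simp [disc]; ring1)
        | (refine d2 hW hS _ (Or.inr ?_); simp [disc]; ring1)
        | (refine d3 hW hS _ (Or.inl ?_); simp [disc]; ring1)
        | (refine d3 hW hS _ (Or.inr ?_); simp [disc]; ring1)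
        | (refine d4 hW hS _ (Or.inl ?_); simp [disc]; ring1)
        | (refine d4 hW hS _ (Or.inr ?_); simp [disc]; ring1))
  have hsum : ∑ x ∈ Finset.Ico (0 : ℤ) N, ∏ i : Fin 4, rho S ((W : ℤ) * x +
      ![a + Y, a - Y, a + Y', a - Y'] i) = ∑ x ∈ Finset.range N, rho S (a + W * x + Y) *
      rho S (a + W * x - Y) * (rho S (a + W * x + Y') * rho S (a + W * x - Y')) := by
    rw [sum_Ico_int]
    apply Finset.sum_congr rfl
    intro x _
    rw [Fin.prod_univ_four]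
    have e1 : (W : ℤ) * x + ![a + Y, a - Y, a + Y', a - Y'] 0 = a + W * x + Y := by simp; ring
    have e2 : (W : ℤ) * x + ![a + Y, a - Y, a + Y', a - Y'] 1 = a + W * x - Y := by simp; ring
    have e3 : (W : ℤ) * x + ![a + Y, a - Y, a + Y', a - Y'] 2 = a + W * x + Y' := by simp; ring
    have e4 : (W : ℤ) * x + ![a + Y, a - Y, a + Y', a - Y'] 3 = a + W * x - Y' := by simp; ring
    rw [e1, e2, e3, e4]
    ring
  rw [hsum] at hmain
  have h1 := (abs_le.mp hmain).2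
  have her : er C A w ≤ 2 := er_two (by omega)
  have hz' : (z : ℝ) ^ (A + 4) ≤ N := by exact_mod_cast hN
  have hCr : (1 : ℝ) ≤ C := by exact_mod_cast hC1
  have hNr : (0 : ℝ) ≤ N := Nat.cast_nonneg N
  have hNC : (0 : ℝ) ≤ N * C := by positivity
  push_cast at h1 hd ⊢
  simp only [sub_zero] at h1
  have t1 : (N : ℝ) * (C * er C A w) ≤ N * (C * 2) := by gcongr
  have t2 : (N : ℝ) * (C * ∑ i, ∑ j ∈ Finset.univ.filter (fun j => i ≠ j), Ers (9 / 10) S
      (disc (fun _ => (W : ℤ)) ![a + Y, a - Y, a + Y', a - Y'] i j)) ≤ N * (C * (4 * (4 * Q))) := by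
    gcongr
  have t3 : (C : ℝ) * (z : ℝ) ^ (A + 4) ≤ C * N := by gcongr
  have t4 : (0 : ℝ) ≤ N * Q := by positivity
  nlinarith


theorem five : ∃ C : ℕ, 1 ≤ C ∧ ∀ (A w z W N : ℕ) (S : Finset ℕ), C ≤ A → C ≤ w → 2 ≤ z →
    PSet w z S → IsW w W → z ^ (A + 5) ≤ N → ∀ a b e Y Y' : ℤ, b = 2 * a + e →
    ∑ x ∈ Finset.range N, rho S (b + 2 * W * x) *
      ((rho S (a + W * x + Y) * rho S (a + W * x - Y)) *
      (rho S (a + W * x + Y') * rho S (a + W * x - Y'))) ≤ C * N * (1 + QQ (9 / 10) S e Y Y') := by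
  obtain ⟨C, hC1, hC⟩ := corr0 5
  refine ⟨25 * C + 1, by omega, ?_⟩
  intro A w z W N S hA hw hz hS hW hN a b e Y Y' hb
  have h2W : ∀ p ∈ S, ¬ (p : ℤ) ∣ 2 * (W : ℤ) := by
    intro p hp h
    have hpp : Prime (p : ℤ) := Nat.prime_iff_prime_int.mp (hS p hp).1
    rcases hpp.dvd_or_dvd h with h | h
    · have h3 : p ∣ 2 := by exact_mod_cast h
      have h4 := Nat.le_of_dvd (by norm_num) h3
      have h5 := (hS p hp).2.1
      omega
    · exact hW.not_dvd hS p hp h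
  have hα : ∀ p ∈ S, ∀ i : Fin 5, ¬ (p : ℤ) ∣ ![2 * (W : ℤ), W, W, W, W] i := by
    intro p hp i
    have h1 := h2W p hp
    have h2 := hW.not_dvd hS p hp
    fin_cases i
    · exact h1
    · exact h2
    · exact h2
    · exact h2
    · exact h2
  have hmain := hC A w z S (by omega) (by omega) hz hS ![2 * (W : ℤ), W, W, W, W]
    ![b, a + Y, a - Y, a + Y', a - Y'] hα 0 N (by positivity)
  set Q := QQ (9 / 10) S e Y Y' with hQ
  have hQ0 : 0 ≤ Q := QQ_nonneg _ _ _ _ _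
  have hd := sum_disc_le (n := 5) (α := ![2 * (W : ℤ), W, W, W, W])
    (β := ![b, a + Y, a - Y, a + Y', a - Y'])
    (t := 9 / 10) (S := S) hQ0 (by
      intro i j hij
      fin_cases i <;> fin_cases j <;> first
        | exact absurd hij (by decide)
        | (refine d1 hW hS _ (Or.inl ?_); simp [disc, hb]; ring1)
        | (refine d1 hW hS _ (Or.inr ?_); simp [disc, hb]; ring1)
        | (refine d2 hW hS _ (Or.inl ?_); simp [disc, hb]; ring1)
        | (refine d2 hW hS _ (Or.inr ?_); simp [disc, hb]; ring1)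
        | (refine d3 hW hS _ (Or.inl ?_); simp [disc, hb]; ring1)
        | (refine d3 hW hS _ (Or.inr ?_); simp [disc, hb]; ring1)
        | (refine d4 hW hS _ (Or.inl ?_); simp [disc, hb]; ring1)
        | (refine d4 hW hS _ (Or.inr ?_); simp [disc, hb]; ring1)
        | (refine d5 hW hS _ (Or.inl ?_); simp [disc, hb]; ring1)
        | (refine d5 hW hS _ (Or.inr ?_); simp [disc, hb]; ring1)
        | (refine d6 hW hS _ (Or.inl ?_); simp [disc, hb]; ring1)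
        | (refine d6 hW hS _ (Or.inr ?_); simp [disc, hb]; ring1)
        | (refine d7 hW hS _ (Or.inl ?_); simp [disc, hb]; ring1)
        | (refine d7 hW hS _ (Or.inr ?_); simp [disc, hb]; ring1)
        | (refine d8 hW hS _ (Or.inl ?_); simp [disc, hb]; ring1)
        | (refine d8 hW hS _ (Or.inr ?_); simp [disc, hb]; ring1))
  have hsum : ∑ x ∈ Finset.Ico (0 : ℤ) N, ∏ i : Fin 5, rho S (![2 * (W : ℤ), W, W, W, W] i * x +
      ![b, a + Y, a - Y, a + Y', a - Y'] i) = ∑ x ∈ Finset.range N, rho S (b + 2 * W * x) *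
      ((rho S (a + W * x + Y) * rho S (a + W * x - Y)) *
      (rho S (a + W * x + Y') * rho S (a + W * x - Y'))) := by
    rw [sum_Ico_int]
    apply Finset.sum_congr rfl
    intro x _
    rw [Fin.prod_univ_five]
    have e0 : ![2 * (W : ℤ), W, W, W, W] 0 * x + ![b, a + Y, a - Y, a + Y', a - Y'] 0 =
        b + 2 * W * x := by simp; ring
    have e1 : ![2 * (W : ℤ), W, W, W, W] 1 * x + ![b, a + Y, a - Y, a + Y', a - Y'] 1 =
        a + W * x + Y := by simp; ring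
    have e2 : ![2 * (W : ℤ), W, W, W, W] 2 * x + ![b, a + Y, a - Y, a + Y', a - Y'] 2 =
        a + W * x - Y := by simp; ring
    have e3 : ![2 * (W : ℤ), W, W, W, W] 3 * x + ![b, a + Y, a - Y, a + Y', a - Y'] 3 =
        a + W * x + Y' := by simp; ring
    have e4 : ![2 * (W : ℤ), W, W, W, W] 4 * x + ![b, a + Y, a - Y, a + Y', a - Y'] 4 =
        a + W * x - Y' := by simp; ring
    rw [e0, e1, e2, e3, e4]
    ring
  rw [hsum] at hmain
  have h1 := (abs_le.mp hmain).2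
  have her : er C A w ≤ 2 := er_two (by omega)
  have hz' : (z : ℝ) ^ (A + 5) ≤ N := by exact_mod_cast hN
  have hCr : (1 : ℝ) ≤ C := by exact_mod_cast hC1
  have hNr : (0 : ℝ) ≤ N := Nat.cast_nonneg N
  have hNC : (0 : ℝ) ≤ N * C := by positivity
  push_cast at h1 hd ⊢
  simp only [sub_zero] at h1
  have t1 : (N : ℝ) * (C * er C A w) ≤ N * (C * 2) := by gcongr
  have t2 : (N : ℝ) * (C * ∑ i, ∑ j ∈ Finset.univ.filter (fun j => i ≠ j), Ers (9 / 10) S
      (disc ![2 * (W : ℤ), W, W, W, W] ![b, a + Y, a - Y, a + Y', a - Y'] i j)) ≤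
      N * (C * (5 * (5 * Q))) := by
    gcongr
  have t3 : (C : ℝ) * (z : ℝ) ^ (A + 5) ≤ C * N := by gcongr
  have t4 : (0 : ℝ) ≤ N * Q := by positivity
  nlinarith

/-! ### Averages of the errors -/

theorem avg1 : ∃ C : ℝ, 1 ≤ C ∧ ∀ (w z N : ℕ) (S : Finset ℕ), 1 ≤ w → PSet w z S → z ≤ N →
    ∀ α β : ℤ, (∀ p ∈ S, ¬ (p : ℤ) ∣ α) →
    ∑ h ∈ Finset.range N, Ers (9 / 20) S (α * h + β) ≤ C * N := by
  obtain ⟨C, hC1, hC⟩ := ers_avg (9 / 20) (by norm_num) (by norm_num)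
  refine ⟨2 * C, by linarith, fun w z N S hw hS hz α β hα => ?_⟩
  have h := hC w z S hw hS α β hα 0 N (by positivity)
  rw [sum_Ico_int] at h
  have hw' : (1 : ℝ) ≤ w := by exact_mod_cast hw
  have h2 : (w : ℝ) ^ (-(9 / 20 : ℝ)) ≤ 1 := Real.rpow_le_one_of_one_le_of_nonpos hw' (by norm_num)
  have hz' : (z : ℝ) ≤ N := by exact_mod_cast hz
  have hN0 : (0 : ℝ) ≤ N := Nat.cast_nonneg N
  refine h.trans ?_
  push_cast
  have : ((N : ℝ) - 0) * (w : ℝ) ^ (-(9 / 20 : ℝ)) ≤ N * 1 := by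
    rw [sub_zero]
    exact mul_le_mul_of_nonneg_left h2 hN0
  calc C * (((N : ℝ) - 0) * (w : ℝ) ^ (-(9 / 20 : ℝ)) + z) ≤ C * (N * 1 + N) := by
        apply mul_le_mul_of_nonneg_left _ (by linarith)
        linarith
    _ = 2 * C * N := by ring

theorem sq_sum8 (a b c d e f g h : ℝ) : (a + b + c + d + e + f + g + h) ^ 2 ≤
    8 * (a ^ 2 + b ^ 2 + c ^ 2 + d ^ 2 + e ^ 2 + f ^ 2 + g ^ 2 + h ^ 2) := by
  have h1 : (a + b + c + d) ^ 2 ≤ 4 * (a ^ 2 + b ^ 2 + c ^ 2 + d ^ 2) := by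
    nlinarith [sq_nonneg (a - b), sq_nonneg (a - c), sq_nonneg (a - d), sq_nonneg (b - c),
      sq_nonneg (b - d), sq_nonneg (c - d)]
  have h2 : (e + f + g + h) ^ 2 ≤ 4 * (e ^ 2 + f ^ 2 + g ^ 2 + h ^ 2) := by
    nlinarith [sq_nonneg (e - f), sq_nonneg (e - g), sq_nonneg (e - h), sq_nonneg (f - g),
      sq_nonneg (f - h), sq_nonneg (g - h)]
  nlinarith [sq_nonneg ((a + b + c + d) - (e + f + g + h))]

theorem QQ_sq : ∃ C : ℝ, 1 ≤ C ∧ ∀ (w z : ℕ) (S : Finset ℕ) (e Y Y' : ℤ), PSet w z S →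
    (1 + QQ (9 / 10) S e Y Y') ^ 2 ≤ 2 + C * QQ (9 / 20) S e Y Y' := by
  obtain ⟨C, hC1, hC⟩ := ers_pow_le
  refine ⟨16 * C, by linarith, fun w z S e Y Y' hS => ?_⟩
  have h1 := hC w z S (2 * Y) 2 hS (by norm_num) (by norm_num)
  have h2 := hC w z S (2 * Y') 2 hS (by norm_num) (by norm_num)
  have h3 := hC w z S (Y - Y') 2 hS (by norm_num) (by norm_num)
  have h4 := hC w z S (Y + Y') 2 hS (by norm_num) (by norm_num)
  have h5 := hC w z S (2 * Y + e) 2 hS (by norm_num) (by norm_num)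
  have h6 := hC w z S (2 * Y - e) 2 hS (by norm_num) (by norm_num)
  have h7 := hC w z S (2 * Y' + e) 2 hS (by norm_num) (by norm_num)
  have h8 := hC w z S (2 * Y' - e) 2 hS (by norm_num) (by norm_num)
  have hq : (1 + QQ (9 / 10) S e Y Y') ^ 2 ≤ 2 + 2 * QQ (9 / 10) S e Y Y' ^ 2 := by
    nlinarith [sq_nonneg (1 - QQ (9 / 10) S e Y Y')]
  have hs : QQ (9 / 10) S e Y Y' ^ 2 ≤ 8 * (Ers (9 / 10) S (2 * Y) ^ 2 + Ers (9 / 10) S (2 * Y') ^ 2 +
      Ers (9 / 10) S (Y - Y') ^ 2 + Ers (9 / 10) S (Y + Y') ^ 2 + Ers (9 / 10) S (2 * Y + e) ^ 2 +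
      Ers (9 / 10) S (2 * Y - e) ^ 2 + Ers (9 / 10) S (2 * Y' + e) ^ 2 +
      Ers (9 / 10) S (2 * Y' - e) ^ 2) := by
    unfold QQ
    exact sq_sum8 _ _ _ _ _ _ _ _
  have hr : 16 * C * QQ (9 / 20) S e Y Y' = 16 * (C * Ers (9 / 20) S (2 * Y) +
      C * Ers (9 / 20) S (2 * Y') + C * Ers (9 / 20) S (Y - Y') + C * Ers (9 / 20) S (Y + Y') +
      C * Ers (9 / 20) S (2 * Y + e) + C * Ers (9 / 20) S (2 * Y - e) +
      C * Ers (9 / 20) S (2 * Y' + e) + C * Ers (9 / 20) S (2 * Y' - e)) := by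
    unfold QQ; ring
  rw [hr]
  linarith

theorem avg2 : ∃ C : ℝ, 1 ≤ C ∧ ∀ (w z W N : ℕ) (S : Finset ℕ), 2 ≤ w → PSet w z S → IsW w W →
    z ≤ N → ∀ y1 e : ℤ, ∑ y ∈ Finset.range N, ∑ y' ∈ Finset.range N,
      (1 + QQ (9 / 10) S e (y1 + W * y) (y1 + W * y')) ^ 2 ≤ C * N ^ 2 := by
  obtain ⟨C1, hC1, h1⟩ := QQ_sq
  obtain ⟨C2, hC2, h2⟩ := avg1
  refine ⟨2 + 8 * C1 * C2, by nlinarith, fun w z W N S hw hS hW hz y1 e => ?_⟩
  have hW1 := hW.not_dvd hS
  have hW2 : ∀ p ∈ S, ¬ (p : ℤ) ∣ 2 * (W : ℤ) := by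
    intro p hp h
    have hpp : Prime (p : ℤ) := Nat.prime_iff_prime_int.mp (hS p hp).1
    rcases hpp.dvd_or_dvd h with h | h
    · have h3 : p ∣ 2 := by exact_mod_cast h
      have h4 := Nat.le_of_dvd (by norm_num) h3
      have h5 := (hS p hp).2.1
      omega
    · exact hW1 p hp h
  have hN0 : (0 : ℝ) ≤ N := Nat.cast_nonneg N
  -- inner sums
  have inner : ∀ f : ℕ → ℝ, (∀ y ∈ Finset.range N, f y ≤ C2 * N) →
      ∑ y ∈ Finset.range N, f y ≤ C2 * N ^ 2 := by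
    intro f hf
    calc ∑ y ∈ Finset.range N, f y ≤ ∑ _y ∈ Finset.range N, C2 * N := Finset.sum_le_sum hf
      _ = C2 * N ^ 2 := by rw [Finset.sum_const, Finset.card_range, nsmul_eq_mul]; ring
  have mk : ∀ (α β : ℤ), (∀ p ∈ S, ¬ (p : ℤ) ∣ α) → ∀ g : ℕ → ℤ, (∀ h : ℕ, g h = α * h + β) →
      ∑ h ∈ Finset.range N, Ers (9 / 20) S (g h) ≤ C2 * N := by
    intro α β hα g hg
    simp only [hg]
    exact h2 w z N S (by omega) hS hz α β hα
  have s1 : ∑ y ∈ Finset.range N, ∑ _y' ∈ Finset.range N, Ers (9 / 20) S (2 * (y1 + W * (y : ℤ))) ≤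
      C2 * N ^ 2 := by
    rw [Finset.sum_comm]
    exact inner _ fun y' _ => mk (2 * W) (2 * y1) hW2 _ fun h => by ring
  have s2 : ∑ _y ∈ Finset.range N, ∑ y' ∈ Finset.range N, Ers (9 / 20) S (2 * (y1 + W * (y' : ℤ))) ≤
      C2 * N ^ 2 :=
    inner _ fun y' _ => mk (2 * W) (2 * y1) hW2 _ fun h => by ring
  have s3 : ∑ y ∈ Finset.range N, ∑ y' ∈ Finset.range N,
      Ers (9 / 20) S ((y1 + W * (y : ℤ)) - (y1 + W * (y' : ℤ))) ≤ C2 * N ^ 2 := by
    rw [Finset.sum_comm]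
    exact inner _ fun y' _ => mk W (-(W * y')) hW1 _ fun h => by ring
  have s4 : ∑ y ∈ Finset.range N, ∑ y' ∈ Finset.range N,
      Ers (9 / 20) S ((y1 + W * (y : ℤ)) + (y1 + W * (y' : ℤ))) ≤ C2 * N ^ 2 :=
    inner _ fun y _ => mk W (2 * y1 + W * y) hW1 _ fun h => by ring
  have s5 : ∑ y ∈ Finset.range N, ∑ _y' ∈ Finset.range N,
      Ers (9 / 20) S (2 * (y1 + W * (y : ℤ)) + e) ≤ C2 * N ^ 2 := by
    rw [Finset.sum_comm]
    exact inner _ fun y' _ => mk (2 * W) (2 * y1 + e) hW2 _ fun h => by ring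
  have s6 : ∑ y ∈ Finset.range N, ∑ _y' ∈ Finset.range N,
      Ers (9 / 20) S (2 * (y1 + W * (y : ℤ)) - e) ≤ C2 * N ^ 2 := by
    rw [Finset.sum_comm]
    exact inner _ fun y' _ => mk (2 * W) (2 * y1 - e) hW2 _ fun h => by ring
  have s7 : ∑ _y ∈ Finset.range N, ∑ y' ∈ Finset.range N,
      Ers (9 / 20) S (2 * (y1 + W * (y' : ℤ)) + e) ≤ C2 * N ^ 2 :=
    inner _ fun y' _ => mk (2 * W) (2 * y1 + e) hW2 _ fun h => by ring
  have s8 : ∑ _y ∈ Finset.range N, ∑ y' ∈ Finset.range N,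
      Ers (9 / 20) S (2 * (y1 + W * (y' : ℤ)) - e) ≤ C2 * N ^ 2 :=
    inner _ fun y' _ => mk (2 * W) (2 * y1 - e) hW2 _ fun h => by ring
  have total : ∑ y ∈ Finset.range N, ∑ y' ∈ Finset.range N,
      QQ (9 / 20) S e (y1 + W * y) (y1 + W * y') ≤ 8 * (C2 * N ^ 2) := by
    unfold QQ
    simp only [Finset.sum_add_distrib]
    linarith
  calc ∑ y ∈ Finset.range N, ∑ y' ∈ Finset.range N,
      (1 + QQ (9 / 10) S e (y1 + W * y) (y1 + W * y')) ^ 2
      ≤ ∑ y ∈ Finset.range N, ∑ y' ∈ Finset.range N,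
        (2 + C1 * QQ (9 / 20) S e (y1 + W * y) (y1 + W * y')) := by
        apply Finset.sum_le_sum; intro y _
        apply Finset.sum_le_sum; intro y' _
        exact h1 w z S e _ _ hS
    _ = 2 * N ^ 2 + C1 * ∑ y ∈ Finset.range N, ∑ y' ∈ Finset.range N,
        QQ (9 / 20) S e (y1 + W * y) (y1 + W * y') := by
        simp only [Finset.sum_add_distrib, ← Finset.mul_sum, Finset.sum_const, Finset.card_range,
          nsmul_eq_mul]
        ring
    _ ≤ 2 * N ^ 2 + C1 * (8 * (C2 * N ^ 2)) := by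
        have := mul_le_mul_of_nonneg_left total (by linarith : (0 : ℝ) ≤ C1)
        linarith
    _ = (2 + 8 * C1 * C2) * N ^ 2 := by ring

/-! ### The second moment -/

theorem second_moment {ι κ υ : Type*} (I : Finset ι) (J : Finset κ) (K : Finset υ) (s : κ → ℝ)
    (a : ι → υ → ℝ) (b : κ → υ → ℝ) :
    ∑ x ∈ I, ∑ v ∈ J, s v * (∑ y ∈ K, a x y * b v y) ^ 2 =
      ∑ y ∈ K, ∑ y' ∈ K, (∑ x ∈ I, a x y * a x y') * (∑ v ∈ J, s v * (b v y * b v y')) := by
  have h1 : ∀ x v, s v * (∑ y ∈ K, a x y * b v y) ^ 2 =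
      ∑ y ∈ K, ∑ y' ∈ K, (a x y * a x y') * (s v * (b v y * b v y')) := by
    intro x v
    rw [sq, Finset.sum_mul_sum, Finset.mul_sum]
    apply Finset.sum_congr rfl; intro y _
    rw [Finset.mul_sum]
    apply Finset.sum_congr rfl; intro y' _
    ring
  simp only [h1]
  have h2 : ∀ y y', (∑ x ∈ I, a x y * a x y') * (∑ v ∈ J, s v * (b v y * b v y')) =
      ∑ x ∈ I, ∑ v ∈ J, (a x y * a x y') * (s v * (b v y * b v y')) := by
    intro y y'
    rw [Finset.sum_mul_sum]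
  simp only [h2]
  calc ∑ x ∈ I, ∑ v ∈ J, ∑ y ∈ K, ∑ y' ∈ K, a x y * a x y' * (s v * (b v y * b v y'))
      = ∑ x ∈ I, ∑ y ∈ K, ∑ v ∈ J, ∑ y' ∈ K, a x y * a x y' * (s v * (b v y * b v y')) := by
        apply Finset.sum_congr rfl; intro x _
        rw [Finset.sum_comm]
    _ = ∑ x ∈ I, ∑ y ∈ K, ∑ y' ∈ K, ∑ v ∈ J, a x y * a x y' * (s v * (b v y * b v y')) := by
        apply Finset.sum_congr rfl; intro x _
        apply Finset.sum_congr rfl; intro y _
        rw [Finset.sum_comm]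
    _ = ∑ y ∈ K, ∑ x ∈ I, ∑ y' ∈ K, ∑ v ∈ J, a x y * a x y' * (s v * (b v y * b v y')) := by
        rw [Finset.sum_comm]
    _ = _ := by
        apply Finset.sum_congr rfl; intro y _
        rw [Finset.sum_comm]


theorem upper : ∃ s : ℕ, 2 ≤ s ∧ ∃ C : ℝ, 1 ≤ C ∧ ∃ w0 : ℕ, ∀ w W : ℕ, w0 ≤ w → IsW w W →
    ∃ N0 : ℕ, ∀ N : ℕ, N0 ≤ N → ∀ a b y1 c e : ℤ, 0 ≤ a → a < W → 0 ≤ b → b < W → 0 ≤ y1 →
    y1 < W → c = 2 * b + e → |c| ≤ 3 * W →
    ∑ x ∈ Finset.Ico 1 N, ∑ v ∈ Finset.Ico 1 N, tw W (rt s N) (c + 2 * W * (v : ℤ)) *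
      (∑ y ∈ Finset.Ico 1 N, tp W (rt s N) (a + W * (x : ℤ)) (y1 + W * (y : ℤ)) *
        tp W (rt s N) (b + W * (v : ℤ)) (y1 + W * (y : ℤ))) ^ 2 ≤ C * N ^ 4 := by
  obtain ⟨C4, hC4, h4⟩ := four
  obtain ⟨C5, hC5, h5⟩ := five
  obtain ⟨C2, hC2, h2⟩ := avg2
  obtain ⟨C0, hC0, hmaj⟩ := majo
  set A := max C4 C5 with hA
  set s := A + 5 with hs
  set K : ℝ := C0 * s with hK
  have hK1 : 1 ≤ K := by
    have : (1 : ℝ) ≤ (s : ℝ) := by exact_mod_cast (by omega : 1 ≤ s)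
    nlinarith
  have hC4r : (1 : ℝ) ≤ C4 := by exact_mod_cast hC4
  have hC5r : (1 : ℝ) ≤ C5 := by exact_mod_cast hC5
  refine ⟨s, by omega, K ^ 9 * C4 * C5 * C2, ?_, max A 2, fun w W hw hW => ?_⟩
  · have h1 : (1 : ℝ) ≤ K ^ 9 := one_le_pow₀ hK1
    have h2 : (1 : ℝ) ≤ K ^ 9 * C4 := by nlinarith
    have h3 : (1 : ℝ) ≤ K ^ 9 * C4 * C5 := by nlinarith
    nlinarith
  obtain ⟨N1, hN1⟩ := hmaj s (by omega) w W hW
  obtain ⟨N2, hN2⟩ := Filter.eventually_atTop.mp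
    ((rt_tendsto (s := s) (by omega)).eventually (Filter.eventually_ge_atTop 2))
  refine ⟨max N1 (max N2 2), fun N hN a b y1 c e ha ha' hb hb' hy1 hy1' hc hc3 => ?_⟩
  have hNN1 : N1 ≤ N := le_trans (le_max_left _ _) hN
  have hNN2 : N2 ≤ N := le_trans (le_trans (le_max_left _ _) (le_max_right _ _)) hN
  have hN3 : 2 ≤ N := le_trans (le_trans (le_max_right _ _) (le_max_right _ _)) hN
  set z := rt s N with hz
  have hz2 : 2 ≤ z := hN2 N hNN2
  set S := sprimes w z with hS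
  have hPS : PSet w z S := pset_sprimes w z
  have hpr := hPS.prime
  have hzs : z ^ (A + 5) ≤ N := rt_pow_le (s := s) (by omega) N
  have hz4 : z ^ (A + 4) ≤ N := (Nat.pow_le_pow_right (by omega) (by omega)).trans hzs
  have hzN : z ≤ N := by
    calc z = z ^ 1 := (pow_one z).symm
      _ ≤ z ^ (A + 5) := Nat.pow_le_pow_right (by omega) (by omega)
      _ ≤ N := hzs
  have hwA : A ≤ w := le_trans (le_max_left _ _) hw
  have hw2 : 2 ≤ w := le_trans (le_max_right _ _) hw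
  have hWz : (1 : ℤ) ≤ W := by exact_mod_cast hW.1
  have htw : ∀ v : ℤ, |v| ≤ 5 * W * N → tw W z v ≤ K * rho S v := by
    intro v hv
    have hr := rho_nonneg hpr v
    unfold tw
    split_ifs with h
    · exact hN1 N hNN1 v hv h
    · positivity
  have htp : ∀ a' : ℤ, 0 ≤ a' → a' < W → ∀ x ∈ Finset.Ico 1 N, ∀ y ∈ Finset.Ico 1 N,
      tp W z (a' + W * (x : ℤ)) (y1 + W * (y : ℤ)) ≤ K ^ 2 *
        (rho S (a' + W * (x : ℤ) + (y1 + W * (y : ℤ))) *
          rho S (a' + W * (x : ℤ) - (y1 + W * (y : ℤ)))) := by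
    intro a' h1 h2 x hx y hy
    obtain ⟨s1, s2⟩ := size_form hW.1 h1 h2 hy1 hy1' hx hy
    have t1 := htw _ s1
    have t2 := htw _ s2
    have r1 := rho_nonneg hpr (a' + W * (x : ℤ) + (y1 + W * (y : ℤ)))
    unfold tp
    calc _ ≤ (K * rho S (a' + W * (x : ℤ) + (y1 + W * (y : ℤ)))) *
          (K * rho S (a' + W * (x : ℤ) - (y1 + W * (y : ℤ)))) :=
          mul_le_mul t1 t2 (tw_nonneg _ _ _) (by positivity)
      _ = _ := by ring
  rw [second_moment]
  have hsub : Finset.Ico 1 N ⊆ Finset.range N := by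
    intro x hx
    rw [Finset.mem_Ico] at hx
    rw [Finset.mem_range]
    exact hx.2
  have rnn : ∀ v : ℤ, 0 ≤ rho S v := rho_nonneg hpr
  have hX : ∀ y ∈ Finset.Ico 1 N, ∀ y' ∈ Finset.Ico 1 N,
      ∑ x ∈ Finset.Ico 1 N, tp W z (a + W * (x : ℤ)) (y1 + W * (y : ℤ)) *
        tp W z (a + W * (x : ℤ)) (y1 + W * (y' : ℤ)) ≤
      K ^ 4 * (C4 * N * (1 + QQ (9 / 10) S e (y1 + W * (y : ℤ)) (y1 + W * (y' : ℤ)))) := by
    intro y hy y' hy'
    calc _ ≤ ∑ x ∈ Finset.Ico 1 N, K ^ 4 * (rho S (a + W * (x : ℤ) + (y1 + W * (y : ℤ))) *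
          rho S (a + W * (x : ℤ) - (y1 + W * (y : ℤ))) *
          (rho S (a + W * (x : ℤ) + (y1 + W * (y' : ℤ))) *
          rho S (a + W * (x : ℤ) - (y1 + W * (y' : ℤ))))) := by
          apply Finset.sum_le_sum
          intro x hx
          have t1 := htp a ha ha' x hx y hy
          have t2 := htp a ha ha' x hx y' hy'
          have u1 := mul_nonneg (rnn (a + W * (x : ℤ) + (y1 + W * (y : ℤ))))
            (rnn (a + W * (x : ℤ) - (y1 + W * (y : ℤ))))
          calc _ ≤ (K ^ 2 * (rho S (a + W * (x : ℤ) + (y1 + W * (y : ℤ))) *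
                rho S (a + W * (x : ℤ) - (y1 + W * (y : ℤ))))) *
                (K ^ 2 * (rho S (a + W * (x : ℤ) + (y1 + W * (y' : ℤ))) *
                rho S (a + W * (x : ℤ) - (y1 + W * (y' : ℤ))))) :=
                mul_le_mul t1 t2 (tp_nonneg _ _ _ _) (by positivity)
            _ = _ := by ring
      _ ≤ ∑ x ∈ Finset.range N, K ^ 4 * (rho S (a + W * (x : ℤ) + (y1 + W * (y : ℤ))) *
          rho S (a + W * (x : ℤ) - (y1 + W * (y : ℤ))) *
          (rho S (a + W * (x : ℤ) + (y1 + W * (y' : ℤ))) *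
          rho S (a + W * (x : ℤ) - (y1 + W * (y' : ℤ))))) := by
          apply Finset.sum_le_sum_of_subset_of_nonneg hsub
          intro x _ _
          have u1 := rnn (a + W * (x : ℤ) + (y1 + W * (y : ℤ)))
          have u2 := rnn (a + W * (x : ℤ) - (y1 + W * (y : ℤ)))
          have u3 := rnn (a + W * (x : ℤ) + (y1 + W * (y' : ℤ)))
          have u4 := rnn (a + W * (x : ℤ) - (y1 + W * (y' : ℤ)))
          positivity
      _ ≤ _ := by
          rw [← Finset.mul_sum]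
          apply mul_le_mul_of_nonneg_left _ (by positivity)
          exact h4 A w z W N S (le_max_left _ _) ((le_max_left _ _).trans hwA) hz2 hPS hW hz4 a e
            (y1 + W * (y : ℤ)) (y1 + W * (y' : ℤ))
  have hV : ∀ y ∈ Finset.Ico 1 N, ∀ y' ∈ Finset.Ico 1 N,
      ∑ v ∈ Finset.Ico 1 N, tw W z (c + 2 * W * (v : ℤ)) *
        (tp W z (b + W * (v : ℤ)) (y1 + W * (y : ℤ)) *
        tp W z (b + W * (v : ℤ)) (y1 + W * (y' : ℤ))) ≤
      K ^ 5 * (C5 * N * (1 + QQ (9 / 10) S e (y1 + W * (y : ℤ)) (y1 + W * (y' : ℤ)))) := by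
    intro y hy y' hy'
    calc _ ≤ ∑ x ∈ Finset.Ico 1 N, K ^ 5 * (rho S (c + 2 * W * (x : ℤ)) *
          ((rho S (b + W * (x : ℤ) + (y1 + W * (y : ℤ))) *
          rho S (b + W * (x : ℤ) - (y1 + W * (y : ℤ)))) *
          (rho S (b + W * (x : ℤ) + (y1 + W * (y' : ℤ))) *
          rho S (b + W * (x : ℤ) - (y1 + W * (y' : ℤ)))))) := by
          apply Finset.sum_le_sum
          intro x hx
          have t1 := htp b hb hb' x hx y hy
          have t2 := htp b hb hb' x hx y' hy'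
          have s3 : |c + 2 * W * (x : ℤ)| ≤ 5 * W * N := by
            have hx' := Finset.mem_Ico.mp hx
            have hv1 : (x : ℤ) ≤ N - 1 := by omega
            have e1 : (W : ℤ) * x ≤ W * (N - 1) := mul_le_mul_of_nonneg_left hv1 (by omega)
            have e3 : 0 ≤ (W : ℤ) * x := by positivity
            have e5 : (W : ℤ) * 2 ≤ W * N := mul_le_mul_of_nonneg_left (by omega) (by omega)
            rw [abs_le] at hc3 ⊢
            constructor <;> nlinarith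
          have t3 := htw _ s3
          have u1 := mul_nonneg (rnn (b + W * (x : ℤ) + (y1 + W * (y : ℤ))))
            (rnn (b + W * (x : ℤ) - (y1 + W * (y : ℤ))))
          have u2 := mul_nonneg (rnn (b + W * (x : ℤ) + (y1 + W * (y' : ℤ))))
            (rnn (b + W * (x : ℤ) - (y1 + W * (y' : ℤ))))
          have u3 := rnn (c + 2 * W * (x : ℤ))
          calc _ ≤ (K * rho S (c + 2 * W * (x : ℤ))) *
                ((K ^ 2 * (rho S (b + W * (x : ℤ) + (y1 + W * (y : ℤ))) *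
                rho S (b + W * (x : ℤ) - (y1 + W * (y : ℤ))))) *
                (K ^ 2 * (rho S (b + W * (x : ℤ) + (y1 + W * (y' : ℤ))) *
                rho S (b + W * (x : ℤ) - (y1 + W * (y' : ℤ)))))) := by
                apply mul_le_mul t3 _ (mul_nonneg (tp_nonneg _ _ _ _) (tp_nonneg _ _ _ _))
                  (by positivity)
                exact mul_le_mul t1 t2 (tp_nonneg _ _ _ _) (by positivity)
            _ = _ := by ring
      _ ≤ ∑ x ∈ Finset.range N, K ^ 5 * (rho S (c + 2 * W * (x : ℤ)) *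
          ((rho S (b + W * (x : ℤ) + (y1 + W * (y : ℤ))) *
          rho S (b + W * (x : ℤ) - (y1 + W * (y : ℤ)))) *
          (rho S (b + W * (x : ℤ) + (y1 + W * (y' : ℤ))) *
          rho S (b + W * (x : ℤ) - (y1 + W * (y' : ℤ)))))) := by
          apply Finset.sum_le_sum_of_subset_of_nonneg hsub
          intro x _ _
          have u0 := rnn (c + 2 * W * (x : ℤ))
          have u1 := rnn (b + W * (x : ℤ) + (y1 + W * (y : ℤ)))
          have u2 := rnn (b + W * (x : ℤ) - (y1 + W * (y : ℤ)))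
          have u3 := rnn (b + W * (x : ℤ) + (y1 + W * (y' : ℤ)))
          have u4 := rnn (b + W * (x : ℤ) - (y1 + W * (y' : ℤ)))
          positivity
      _ ≤ _ := by
          rw [← Finset.mul_sum]
          apply mul_le_mul_of_nonneg_left _ (by positivity)
          exact h5 A w z W N S (le_max_right _ _) ((le_max_right _ _).trans hwA) hz2 hPS hW hzs b c
            e (y1 + W * (y : ℤ)) (y1 + W * (y' : ℤ)) hc
  have hN0 : (0 : ℝ) ≤ N := Nat.cast_nonneg N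
  have hlast := h2 w z W N S hw2 hPS hW hzN y1 e
  calc _ ≤ ∑ y ∈ Finset.Ico 1 N, ∑ y' ∈ Finset.Ico 1 N, (K ^ 9 * C4 * C5 * N ^ 2) *
        (1 + QQ (9 / 10) S e (y1 + W * (y : ℤ)) (y1 + W * (y' : ℤ))) ^ 2 := by
        apply Finset.sum_le_sum; intro y hy
        apply Finset.sum_le_sum; intro y' hy'
        have q0 := QQ_nonneg (9 / 10) S e (y1 + W * (y : ℤ)) (y1 + W * (y' : ℤ))
        calc _ ≤ (K ^ 4 * (C4 * N * (1 + QQ (9 / 10) S e (y1 + W * (y : ℤ)) (y1 + W * (y' : ℤ))))) *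
              (K ^ 5 * (C5 * N * (1 + QQ (9 / 10) S e (y1 + W * (y : ℤ)) (y1 + W * (y' : ℤ))))) := by
              apply mul_le_mul (hX y hy y' hy') (hV y hy y' hy')
              · exact Finset.sum_nonneg fun v _ => mul_nonneg (tw_nonneg _ _ _)
                  (mul_nonneg (tp_nonneg _ _ _ _) (tp_nonneg _ _ _ _))
              · positivity
          _ = _ := by ring
    _ ≤ ∑ y ∈ Finset.range N, ∑ y' ∈ Finset.range N, (K ^ 9 * C4 * C5 * N ^ 2) *
        (1 + QQ (9 / 10) S e (y1 + W * (y : ℤ)) (y1 + W * (y' : ℤ))) ^ 2 := by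
        calc _ ≤ ∑ y ∈ Finset.Ico 1 N, ∑ y' ∈ Finset.range N, (K ^ 9 * C4 * C5 * N ^ 2) *
              (1 + QQ (9 / 10) S e (y1 + W * (y : ℤ)) (y1 + W * (y' : ℤ))) ^ 2 := by
              apply Finset.sum_le_sum; intro y _
              apply Finset.sum_le_sum_of_subset_of_nonneg hsub
              intro _ _ _; positivity
          _ ≤ _ := by
              apply Finset.sum_le_sum_of_subset_of_nonneg hsub
              intro _ _ _
              apply Finset.sum_nonneg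
              intro _ _; positivity
    _ = (K ^ 9 * C4 * C5 * N ^ 2) * ∑ y ∈ Finset.range N, ∑ y' ∈ Finset.range N,
        (1 + QQ (9 / 10) S e (y1 + W * (y : ℤ)) (y1 + W * (y' : ℤ))) ^ 2 := by
        rw [Finset.mul_sum]
        apply Finset.sum_congr rfl; intro y _
        rw [Finset.mul_sum]
    _ ≤ (K ^ 9 * C4 * C5 * N ^ 2) * (C2 * N ^ 2) :=
        mul_le_mul_of_nonneg_left hlast (by positivity)
    _ = _ := by ring

/-! ### Cauchy-Schwarz and the assembly -/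

open Classical in
theorem cs_mass {κ : Type*} (J : Finset κ) (s P : κ → ℝ) (hs : ∀ v ∈ J, 0 ≤ s v) :
    (∑ v ∈ J, s v * P v) ^ 2 ≤ (∑ v ∈ J.filter (fun v => P v ≠ 0), s v) *
      ∑ v ∈ J, s v * P v ^ 2 := by
  have h1 : ∑ v ∈ J, s v * P v = ∑ v ∈ J.filter (fun v => P v ≠ 0), s v * P v := by
    rw [Finset.sum_filter]
    apply Finset.sum_congr rfl
    intro v _
    by_cases h : P v = 0
    · simp [h]
    · simp [h]
  have h2 : ∑ v ∈ J, s v * P v ^ 2 = ∑ v ∈ J.filter (fun v => P v ≠ 0), s v * P v ^ 2 := by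
    rw [Finset.sum_filter]
    apply Finset.sum_congr rfl
    intro v _
    by_cases h : P v = 0
    · simp [h]
    · simp [h]
  rw [h1, h2]
  have h3 := Finset.sum_mul_sq_le_sq_mul_sq (J.filter (fun v => P v ≠ 0))
    (fun v => Real.sqrt (s v)) (fun v => Real.sqrt (s v) * P v)
  have e1 : ∑ v ∈ J.filter (fun v => P v ≠ 0), Real.sqrt (s v) * (Real.sqrt (s v) * P v) =
      ∑ v ∈ J.filter (fun v => P v ≠ 0), s v * P v := by
    apply Finset.sum_congr rfl
    intro v hv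
    rw [← mul_assoc, Real.mul_self_sqrt (hs v (Finset.mem_filter.mp hv).1)]
  have e2 : ∑ v ∈ J.filter (fun v => P v ≠ 0), Real.sqrt (s v) ^ 2 =
      ∑ v ∈ J.filter (fun v => P v ≠ 0), s v := by
    apply Finset.sum_congr rfl
    intro v hv
    rw [Real.sq_sqrt (hs v (Finset.mem_filter.mp hv).1)]
  have e3 : ∑ v ∈ J.filter (fun v => P v ≠ 0), (Real.sqrt (s v) * P v) ^ 2 =
      ∑ v ∈ J.filter (fun v => P v ≠ 0), s v * P v ^ 2 := by
    apply Finset.sum_congr rfl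
    intro v hv
    rw [mul_pow, Real.sq_sqrt (hs v (Finset.mem_filter.mp hv).1)]
  rw [e1, e2, e3] at h3
  exact h3

/-- the logarithms are negligible -/
theorem logs_small (W : ℕ) (hW : 0 < W) (s : ℕ) (hs : 2 ≤ s) (δ : ℝ) (hδ : 0 < δ) :
    ∃ N0 : ℕ, ∀ N : ℕ, N0 ≤ N → 0 < N →
      LL W N ^ 3 * (6 * rt s N + 3) ≤ δ * N ∧ LL W N ^ 2 * (4 * rt s N + 2) ≤ δ * N ∧
      LL W N * LL W N ^ 2 ≤ δ * N ∧ LL W N ^ 2 ≤ δ * N := by
  obtain ⟨N0, hN0⟩ := removed_small W hW (δ / 2) (by positivity)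
  refine ⟨N0, fun N hN hpos => ?_⟩
  have h := hN0 N hN
  have hL := LL_nonneg hW hpos
  have hNr : (1 : ℝ) ≤ N := by exact_mod_cast hpos
  have hz := rt_sq_le hs N
  have hz0 : (0 : ℝ) ≤ rt s N := Nat.cast_nonneg _
  have hsq : 0 ≤ Real.sqrt (N : ℝ) := Real.sqrt_nonneg _
  set l := LL W N with hl
  have h' : (4 * Real.sqrt N + 2) * (l ^ 2 + 1) ^ 2 ≤ δ / 2 * N := by
    have h1 : (4 * Real.sqrt N + 2) * (l ^ 2 + 1) ^ 2 * N ≤ δ / 2 * N * N := by linarith
    exact le_of_mul_le_mul_right h1 (by linarith)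
  have l3 : l ^ 3 ≤ (l ^ 2 + 1) ^ 2 := by nlinarith [sq_nonneg (l ^ 2), sq_nonneg (l - 1), sq_nonneg l, pow_nonneg hL 3, sq_nonneg (l ^ 2 - l)]
  have l2 : l ^ 2 ≤ (l ^ 2 + 1) ^ 2 := by nlinarith [sq_nonneg (l ^ 2), sq_nonneg l]
  have l30 : 0 ≤ l ^ 3 := by positivity
  have l20 : 0 ≤ l ^ 2 := by positivity
  have l40 : 0 ≤ (l ^ 2 + 1) ^ 2 := by positivity
  have k1 : (2 : ℝ) * (l ^ 2 + 1) ^ 2 ≤ (4 * Real.sqrt N + 2) * (l ^ 2 + 1) ^ 2 := by
    apply mul_le_mul_of_nonneg_right _ l40; linarith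
  refine ⟨?_, ?_, ?_, ?_⟩
  · calc l ^ 3 * (6 * rt s N + 3) ≤ (l ^ 2 + 1) ^ 2 * (6 * Real.sqrt N + 3) := by
          apply mul_le_mul l3 _ (by positivity) l40; linarith
      _ = 3 / 2 * ((4 * Real.sqrt N + 2) * (l ^ 2 + 1) ^ 2) := by ring
      _ ≤ 3 / 2 * (δ / 2 * N) := by linarith
      _ ≤ δ * N := by nlinarith
  · calc l ^ 2 * (4 * rt s N + 2) ≤ (l ^ 2 + 1) ^ 2 * (4 * Real.sqrt N + 2) := by
          apply mul_le_mul l2 _ (by positivity) l40; linarith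
      _ = (4 * Real.sqrt N + 2) * (l ^ 2 + 1) ^ 2 := by ring
      _ ≤ δ / 2 * N := h'
      _ ≤ δ * N := by nlinarith
  · have : l * l ^ 2 = l ^ 3 := by ring
    rw [this]
    nlinarith
  · nlinarith

end TY1A

open TY1A in
open Classical in
/-- Chunk TY1. For almost all `x` the link ends at distance `2` from `X = x0 + W x` (through the class
`y1`) have positive mass. Put `a(X, Y) = lamv W (X + Y) * lamv W (X - Y)`,
`P(x, v) = ∑_{y < N} a(X, Y) a(V + d, Y)` (restricted to `|X ± Y|, |V + d ± Y|, 2V+3 > rt s N`, with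
`s` an absolute constant; the restriction removes a negligible part).
Lower bound: `τ(y) = ∑_v sg(v) a(V + d, Y) ≥ N / 4` for all but `ε1 N` of the `y` (`rcn1`), and
`∑_{y good} a(X, Y) ≥ N / 2` for all but `ε1 N` of the `x` (`rcn0`); so `∑_v sg(v) P(x, v) ≥ N^2 / 8`.
Upper bound: `∑_x ∑_v sg(v) P(x,v)^2 ≤ C N^4` with `C` ABSOLUTE (`upper`). So
for all but `(ε/2) N` of the `x`, `∑_v sg P^2 ≤ (2 C / ε) N^3`, and by Cauchy-Schwarz the mass of
`{v : P(x,v) > 0}` is at least `c N`. -/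
theorem ty1 (ε : ℝ) (hε : 0 < ε) : ∃ c : ℝ, 0 < c ∧ ∃ w0 : ℕ, ∀ w W : ℕ, w0 ≤ w → IsW w W →
    ∃ N0 : ℕ, ∀ N : ℕ, N0 ≤ N → ∀ x0 y1 v0 d : ℕ, x0 < W → y1 < W → v0 + 3 < W →
    (d = 0 ∨ d = 3) → IsCoprime (2 * (v0 : ℤ) + 3) W → Comp W x0 y1 → Comp W (v0 + d) y1 →
    (((Finset.Ico 1 N).filter fun x =>
      ∑ v ∈ (Finset.Ico 1 N).filter (fun v => ∃ y ∈ Finset.Ico 1 N,
        hadj (x0 + W * x) (y1 + W * y) ∧ hadj (v0 + d + W * v) (y1 + W * y)), sg W v0 v < c * N).card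
          : ℝ) ≤ ε * N := by
  obtain ⟨s, hs, C, hC, wu, hup⟩ := upper
  obtain ⟨w1, hw1⟩ := rcn1 (1 / 256) (by norm_num)
  obtain ⟨w2, hw2⟩ := rcn0 (ε / 64) (by positivity)
  obtain ⟨w3, hw3⟩ := sg_total
  refine ⟨ε / (256 * C), by positivity, max (max wu w1) (max (max w2 w3) 2), fun w W hw hW => ?_⟩
  have hwu : wu ≤ w := le_trans (le_trans (le_max_left _ _) (le_max_left _ _)) hw
  have hww1 : w1 ≤ w := le_trans (le_trans (le_max_right _ _) (le_max_left _ _)) hw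
  have hww2 : w2 ≤ w :=
    le_trans (le_trans (le_trans (le_max_left _ _) (le_max_left _ _)) (le_max_right _ _)) hw
  have hww3 : w3 ≤ w :=
    le_trans (le_trans (le_trans (le_max_right _ _) (le_max_left _ _)) (le_max_right _ _)) hw
  have h2w : 2 ≤ w := le_trans (le_trans (le_max_right _ _) (le_max_right _ _)) hw
  obtain ⟨Nu, hNu⟩ := hup w W hwu hW
  obtain ⟨N1, hN1⟩ := hw1 w W hww1 hW
  obtain ⟨N2, hN2⟩ := hw2 w W hww2 hW
  obtain ⟨N3, hN3⟩ := hw3 w W hww3 hW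
  obtain ⟨N4, hN4⟩ := logs_small W hW.1 s hs (min (1 / 128) (ε / 32)) (by positivity)
  refine ⟨max (max Nu N1) (max (max N2 N3) (max N4 8)), fun N hN x0 y1 v0 d hx0 hy1 hv0 hd hcop
    hc1 hc2 => ?_⟩
  have hNNu : Nu ≤ N := le_trans (le_trans (le_max_left _ _) (le_max_left _ _)) hN
  have hNN1 : N1 ≤ N := le_trans (le_trans (le_max_right _ _) (le_max_left _ _)) hN
  have hNN2 : N2 ≤ N :=
    le_trans (le_trans (le_trans (le_max_left _ _) (le_max_left _ _)) (le_max_right _ _)) hN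
  have hNN3 : N3 ≤ N :=
    le_trans (le_trans (le_trans (le_max_right _ _) (le_max_left _ _)) (le_max_right _ _)) hN
  have hNN4 : N4 ≤ N :=
    le_trans (le_trans (le_trans (le_max_left _ _) (le_max_right _ _)) (le_max_right _ _)) hN
  have hN8 : 8 ≤ N :=
    le_trans (le_trans (le_trans (le_max_right _ _) (le_max_right _ _)) (le_max_right _ _)) hN
  have hWpos : 0 < W := hW.1
  have hNpos : 0 < N := by omega
  have hNR : (8 : ℝ) ≤ N := by exact_mod_cast hN8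
  have h2W : 2 ∣ W := (hW.2 2 Nat.prime_two).mpr h2w
  have hδ1 : min (1 / 128) (ε / 32) ≤ 1 / 128 := min_le_left _ _
  have hδ2 : min (1 / 128) (ε / 32) ≤ ε / 32 := min_le_right _ _
  obtain ⟨L1, L2, L3, L4⟩ := hN4 N hNN4 hNpos
  have hLL := LL_nonneg hWpos hNpos
  set z := rt s N with hz
  set L := LL W N with hLdef
  have L1' : L ^ 3 * (6 * z + 3) ≤ 1 / 128 * N := L1.trans (by gcongr)
  have L2' : L ^ 2 * (4 * z + 2) ≤ 1 / 128 * N := L2.trans (by gcongr)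
  have L3' : L * L ^ 2 ≤ 1 / 128 * N := L3.trans (by gcongr)
  have L4' : L ^ 2 ≤ ε / 32 * N := L4.trans (by gcongr)
  have hdW : v0 + d < W := by rcases hd with rfl | rfl <;> omega
  -- integers
  set b : ℤ := (v0 : ℤ) + d with hb
  set c : ℤ := ((2 * v0 + 3 : ℕ) : ℤ) with hcdef
  set e : ℤ := 3 - 2 * d with he
  have hWz : (1 : ℤ) ≤ W := by exact_mod_cast hWpos
  have hx0' : (x0 : ℤ) < W := by exact_mod_cast hx0
  have hy1' : (y1 : ℤ) < W := by exact_mod_cast hy1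
  have hv0' : (v0 : ℤ) + 3 < W := by exact_mod_cast hv0
  have hd3 : (d : ℤ) = 0 ∨ (d : ℤ) = 3 := by rcases hd with rfl | rfl <;> simp
  have hb0 : 0 ≤ b := by omega
  have hbW : b < W := by omega
  have hcb : c = 2 * b + e := by rw [hb, he, hcdef]; push_cast; ring
  have hc3 : |c| ≤ 3 * W := by
    rw [hcdef, abs_of_nonneg (Int.natCast_nonneg _)]; push_cast; omega
  have hc4 : |c| ≤ 4 * W := by linarith
  have hy0 : (0 : ℤ) ≤ (y1 : ℤ) := Int.natCast_nonneg _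
  have hx00 : (0 : ℤ) ≤ (x0 : ℤ) := Int.natCast_nonneg _
  set f : ℤ → ℝ := fun x => lamv W (c + 2 * W * x) with hf
  have hf0 : ∀ x, 0 ≤ f x := fun x => lamv_nonneg' _ _
  have hfsg : ∀ v : ℕ, f (v : ℤ) = sg W v0 v := by
    intro v
    rw [sg_eq]
    simp only [hf]
    congr 1
    ring
  have hfL : ∀ x ∈ Finset.Ico (0 : ℤ) N, f x ≤ L := by
    intro x hx
    rw [Finset.mem_Ico] at hx
    have e1 : (W : ℤ) * x ≤ W * (N - 1) := mul_le_mul_of_nonneg_left (by omega) (by omega)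
    have e3 : 0 ≤ (W : ℤ) * x := mul_nonneg (by omega) hx.1
    have e5 : (W : ℤ) * 2 ≤ W * N := mul_le_mul_of_nonneg_left (by omega) (by omega)
    apply lamv_le hWpos hNpos
    rw [abs_le] at hc3 ⊢
    constructor <;> nlinarith
  set T : ℝ := ∑ v ∈ Finset.Ico 1 N, f (v : ℤ) with hT
  have hT2 : (N : ℝ) / 2 ≤ T := by
    have h1 := hN3 N hNN3 v0 hv0 hcop
    refine h1.trans (le_of_eq ?_)
    exact Finset.sum_congr rfl fun v _ => (hfsg v).symm
  -- bounds of the residues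
  have hr1 : |b + (y1 : ℤ)| < 2 * W := by rw [abs_lt]; constructor <;> omega
  have hr2 : |b - (y1 : ℤ)| < 2 * W := by rw [abs_lt]; constructor <;> omega
  have hr2' : |(-(b - (y1 : ℤ)))| < 2 * W := by rw [abs_neg]; exact hr2
  have hq1 : |(x0 : ℤ) + (y1 : ℤ)| < 2 * W := by rw [abs_lt]; constructor <;> omega
  have hq2 : |(x0 : ℤ) - (y1 : ℤ)| < 2 * W := by rw [abs_lt]; constructor <;> omega
  have hq2' : |(-((x0 : ℤ) - (y1 : ℤ)))| < 2 * W := by rw [abs_neg]; exact hq2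
  -- the bad `y`
  set Bad1 : Finset ℕ := (Finset.Ico 1 N).filter (fun y =>
    ∑ v ∈ Finset.Ico 1 N, f (v : ℤ) * pw W (b + W * (v : ℤ)) ((y1 : ℤ) + W * (y : ℤ)) <
      T - N / 8) with hBad1
  have hBad1sub : Bad1 ⊆ Finset.Ico 1 N := Finset.filter_subset _ _
  have hFb : ∀ x : ℤ, |f x * indZ (Finset.Ico 1 N) x| ≤ lamv W (2 * W * x + c) := by
    intro x
    have h1 := indZ_abs_le (Finset.Ico 1 N) x
    rw [abs_mul, abs_of_nonneg (hf0 x)]
    have h2 : f x = lamv W (2 * W * x + c) := by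
      simp only [hf]; congr 1; ring
    rw [← h2]
    exact mul_le_of_le_one_right (hf0 x) h1
  have k1 := hN1 N hNN1 (b + y1) (b - y1) 1 c hr1 hc2.1 hr2 hc2.2 (Or.inl rfl) hc4
    (fun x => f x * indZ (Finset.Ico 1 N) x) (indZ Bad1) hFb (indZ_abs_le Bad1)
  have k2 := hN1 N hNN1 (b + y1) (-(b - y1)) (-1) c hr1 hc2.1 hr2' hc2.2.neg_left (Or.inr rfl) hc4
    (fun x => f x * indZ (Finset.Ico 1 N) x) (indZ Bad1) hFb (indZ_abs_le Bad1)
  have low1 := set_lower hWpos hNpos hb0 hbW hy0 hy1' hf0 hfL (Finset.Subset.refl _) hBad1sub k1 k2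
  have hB1 : (Bad1.card : ℝ) ≤ N / 8 := by
    rw [Finset.sum_comm] at low1
    have h1 : ∑ m ∈ Bad1, ∑ n ∈ Finset.Ico 1 N, f (n : ℤ) *
        pw W (b + W * (n : ℤ)) ((y1 : ℤ) + W * (m : ℤ)) ≤ Bad1.card * (T - N / 8) := by
      rw [← nsmul_eq_mul, ← Finset.sum_const]
      exact Finset.sum_le_sum fun m hm => (Finset.mem_filter.mp hm).2.le
    have h2 : T * Bad1.card - 2 * (1 / 256 * (N : ℝ) ^ 2) - N * (L * L ^ 2) ≤
        Bad1.card * (T - N / 8) := low1.trans h1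
    have h3 : (N : ℝ) * (L * L ^ 2) ≤ N * (1 / 128 * N) :=
      mul_le_mul_of_nonneg_left L3' (by linarith)
    have h4 : (Bad1.card : ℝ) * N ≤ (N / 8) * N := by nlinarith
    exact le_of_mul_le_mul_right h4 (by linarith)
  set Good : Finset ℕ := Finset.Ico 1 N \ Bad1 with hGood
  have hGoodsub : Good ⊆ Finset.Ico 1 N := Finset.sdiff_subset
  have hGoodc : 3 / 4 * (N : ℝ) ≤ Good.card := by
    have h1 : Good.card = (Finset.Ico 1 N).card - Bad1.card := Finset.card_sdiff_of_subset hBad1sub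
    have h2 := Finset.card_le_card hBad1sub
    rw [Nat.card_Ico] at h1 h2
    have h3 : (Good.card : ℝ) = (N : ℝ) - 1 - Bad1.card := by
      rw [h1, Nat.cast_sub h2, Nat.cast_sub (by omega)]
      simp
    rw [h3]
    linarith
  have hτ : ∀ y ∈ Good, (N : ℝ) / 4 ≤ ∑ v ∈ Finset.Ico 1 N, tw W z (c + 2 * W * (v : ℤ)) *
      tp W z (b + W * (v : ℤ)) ((y1 : ℤ) + W * (y : ℤ)) := by
    intro y hy
    rw [hGood, Finset.mem_sdiff] at hy
    have h1 := trunc_v (z := z) hWpos hNpos hb0 hbW hy0 hy1' hc3 hy.1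
      (Finset.Subset.refl (Finset.Ico 1 N))
    have h2 : T - N / 8 ≤ ∑ v ∈ Finset.Ico 1 N, f (v : ℤ) *
        pw W (b + W * (v : ℤ)) ((y1 : ℤ) + W * (y : ℤ)) := by
      by_contra hcon
      rw [not_le] at hcon
      exact hy.2 (Finset.mem_filter.mpr ⟨hy.1, hcon⟩)
    have h3 : L ^ 3 * (6 * (z : ℝ) + 3) ≤ 1 / 128 * N := L1'
    have h4 := h2.trans (le_of_eq rfl)
    simp only [hf] at h2
    linarith
  -- the bad `x`
  set BadX : Finset ℕ := (Finset.Ico 1 N).filter (fun x =>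
    ∑ y ∈ Good, pw W ((x0 : ℤ) + W * (x : ℤ)) ((y1 : ℤ) + W * (y : ℤ)) <
      Good.card - (N : ℝ) / 8) with hBadX
  have hBadXsub : BadX ⊆ Finset.Ico 1 N := Finset.filter_subset _ _
  have hone : ∀ x : ℤ, |(fun x : ℤ => (1 : ℝ) * indZ BadX x) x| ≤ 1 := by
    intro x
    simpa using indZ_abs_le BadX x
  have m1 := hN2 N hNN2 (x0 + y1) (x0 - y1) 1 hq1 hc1.1 hq2 hc1.2 (Or.inl rfl)
    (fun x => 1 * indZ BadX x) (indZ Good) hone (indZ_abs_le Good)
  have m2 := hN2 N hNN2 (x0 + y1) (-(x0 - y1)) (-1) hq1 hc1.1 hq2' hc1.2.neg_left (Or.inr rfl)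
    (fun x => 1 * indZ BadX x) (indZ Good) hone (indZ_abs_le Good)
  have low2 := set_lower (f := fun _ => (1 : ℝ)) (LF := 1) hWpos hNpos hx00 hx0' hy0 hy1'
    (fun _ => zero_le_one) (fun _ _ => le_rfl) hBadXsub hGoodsub m1 m2
  have hBX : (BadX.card : ℝ) ≤ ε / 2 * N := by
    have h1 : ∑ n ∈ BadX, ∑ m ∈ Good, (1 : ℝ) *
        pw W ((x0 : ℤ) + W * (n : ℤ)) ((y1 : ℤ) + W * (m : ℤ)) ≤
        BadX.card * (Good.card - (N : ℝ) / 8) := by
      rw [← nsmul_eq_mul, ← Finset.sum_const]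
      apply Finset.sum_le_sum
      intro n hn
      simp only [one_mul]
      exact (Finset.mem_filter.mp hn).2.le
    have h2 := low2.trans h1
    rw [Finset.sum_const, nsmul_eq_mul, mul_one, one_mul] at h2
    have h3 : (N : ℝ) * L ^ 2 ≤ N * (ε / 32 * N) := mul_le_mul_of_nonneg_left L4' (by linarith)
    have h4 : (BadX.card : ℝ) * N ≤ (ε / 2 * N) * N := by nlinarith
    exact le_of_mul_le_mul_right h4 (by linarith)
  -- the second moment
  set P : ℕ → ℕ → ℝ := fun x v => ∑ y ∈ Finset.Ico 1 N,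
    tp W z ((x0 : ℤ) + W * (x : ℤ)) ((y1 : ℤ) + W * (y : ℤ)) *
    tp W z (b + W * (v : ℤ)) ((y1 : ℤ) + W * (y : ℤ)) with hP
  set g : ℕ → ℝ := fun v => tw W z (c + 2 * W * (v : ℤ)) with hg
  have hg0 : ∀ v, 0 ≤ g v := fun v => tw_nonneg _ _ _
  have hP0 : ∀ x v, 0 ≤ P x v := fun x v => Finset.sum_nonneg fun y _ =>
    mul_nonneg (tp_nonneg _ _ _ _) (tp_nonneg _ _ _ _)
  have hup' : ∑ x ∈ Finset.Ico 1 N, ∑ v ∈ Finset.Ico 1 N, g v * P x v ^ 2 ≤ C * N ^ 4 :=
    hNu N hNNu x0 b y1 c e hx00 hx0' hb0 hbW hy0 hy1' hcb hc3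
  set Bad2 : Finset ℕ := (Finset.Ico 1 N).filter (fun x =>
    2 * C / ε * (N : ℝ) ^ 3 < ∑ v ∈ Finset.Ico 1 N, g v * P x v ^ 2) with hBad2
  have hB2 : (Bad2.card : ℝ) ≤ ε / 2 * N := by
    have h1 : (Bad2.card : ℝ) * (2 * C / ε * (N : ℝ) ^ 3) ≤
        ∑ x ∈ Bad2, ∑ v ∈ Finset.Ico 1 N, g v * P x v ^ 2 := by
      rw [← nsmul_eq_mul, ← Finset.sum_const]
      exact Finset.sum_le_sum fun x hx => (Finset.mem_filter.mp hx).2.le
    have h2 : ∑ x ∈ Bad2, ∑ v ∈ Finset.Ico 1 N, g v * P x v ^ 2 ≤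
        ∑ x ∈ Finset.Ico 1 N, ∑ v ∈ Finset.Ico 1 N, g v * P x v ^ 2 := by
      apply Finset.sum_le_sum_of_subset_of_nonneg (Finset.filter_subset _ _)
      intro x _ _
      exact Finset.sum_nonneg fun v _ => mul_nonneg (hg0 v) (sq_nonneg _)
    have h3 := (h1.trans h2).trans hup'
    have hK : 0 < 2 * C / ε * (N : ℝ) ^ 3 := by positivity
    have h4 : (Bad2.card : ℝ) * (2 * C / ε * (N : ℝ) ^ 3) ≤
        (ε / 2 * N) * (2 * C / ε * (N : ℝ) ^ 3) := by
      refine h3.trans (le_of_eq ?_)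
      field_simp
    exact le_of_mul_le_mul_right h4 hK
  -- the good `x`
  have hgood : ∀ x ∈ Finset.Ico 1 N, x ∉ BadX → x ∉ Bad2 → ε / (256 * C) * N ≤
      ∑ v ∈ (Finset.Ico 1 N).filter (fun v => ∃ y ∈ Finset.Ico 1 N,
        hadj (x0 + W * x) (y1 + W * y) ∧ hadj (v0 + d + W * v) (y1 + W * y)), sg W v0 v := by
    intro x hx hxX hx2
    have h1 : Good.card - (N : ℝ) / 8 ≤
        ∑ y ∈ Good, pw W ((x0 : ℤ) + W * (x : ℤ)) ((y1 : ℤ) + W * (y : ℤ)) := by
      by_contra hcon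
      rw [not_le] at hcon
      exact hxX (Finset.mem_filter.mpr ⟨hx, hcon⟩)
    have h2 : ∑ v ∈ Finset.Ico 1 N, g v * P x v ^ 2 ≤ 2 * C / ε * (N : ℝ) ^ 3 := by
      by_contra hcon
      rw [not_le] at hcon
      exact hx2 (Finset.mem_filter.mpr ⟨hx, hcon⟩)
    have h3 := trunc_y (z := z) hWpos hNpos hx00 hx0' hy0 hy1' hx hGoodsub
    have h4 : (N : ℝ) / 2 ≤
        ∑ y ∈ Good, tp W z ((x0 : ℤ) + W * (x : ℤ)) ((y1 : ℤ) + W * (y : ℤ)) := by
      have h5 : L ^ 2 * (4 * (z : ℝ) + 2) ≤ 1 / 128 * N := L2'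
      linarith
    have h5 : (N : ℝ) ^ 2 / 8 ≤ ∑ v ∈ Finset.Ico 1 N, g v * P x v := by
      have h6 : ∑ v ∈ Finset.Ico 1 N, g v * P x v = ∑ y ∈ Finset.Ico 1 N,
          tp W z ((x0 : ℤ) + W * (x : ℤ)) ((y1 : ℤ) + W * (y : ℤ)) *
          ∑ v ∈ Finset.Ico 1 N, g v * tp W z (b + W * (v : ℤ)) ((y1 : ℤ) + W * (y : ℤ)) := by
        simp only [hP, Finset.mul_sum]
        rw [Finset.sum_comm]
        apply Finset.sum_congr rfl; intro y _
        apply Finset.sum_congr rfl; intro v _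
        ring
      rw [h6]
      calc (N : ℝ) ^ 2 / 8 = (N : ℝ) / 2 * (N / 4) := by ring
        _ ≤ (∑ y ∈ Good, tp W z ((x0 : ℤ) + W * (x : ℤ)) ((y1 : ℤ) + W * (y : ℤ))) * (N / 4) :=
            mul_le_mul_of_nonneg_right h4 (by linarith)
        _ = ∑ y ∈ Good, tp W z ((x0 : ℤ) + W * (x : ℤ)) ((y1 : ℤ) + W * (y : ℤ)) * (N / 4) := by
            rw [Finset.sum_mul]
        _ ≤ ∑ y ∈ Good, tp W z ((x0 : ℤ) + W * (x : ℤ)) ((y1 : ℤ) + W * (y : ℤ)) *
            ∑ v ∈ Finset.Ico 1 N, g v * tp W z (b + W * (v : ℤ)) ((y1 : ℤ) + W * (y : ℤ)) := by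
            apply Finset.sum_le_sum
            intro y hy
            exact mul_le_mul_of_nonneg_left (hτ y hy) (tp_nonneg _ _ _ _)
        _ ≤ _ := by
            apply Finset.sum_le_sum_of_subset_of_nonneg hGoodsub
            intro y _ _
            exact mul_nonneg (tp_nonneg _ _ _ _)
              (Finset.sum_nonneg fun v _ => mul_nonneg (hg0 v) (tp_nonneg _ _ _ _))
    have h6 := cs_mass (Finset.Ico 1 N) g (P x) (fun v _ => hg0 v)
    have h7 : ∑ v ∈ (Finset.Ico 1 N).filter (fun v => P x v ≠ 0), g v ≤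
        ∑ v ∈ (Finset.Ico 1 N).filter (fun v => ∃ y ∈ Finset.Ico 1 N,
        hadj (x0 + W * x) (y1 + W * y) ∧ hadj (v0 + d + W * v) (y1 + W * y)), sg W v0 v := by
      calc _ ≤ ∑ v ∈ (Finset.Ico 1 N).filter (fun v => P x v ≠ 0), sg W v0 v := by
            apply Finset.sum_le_sum
            intro v _
            rw [← hfsg v]
            exact tw_le _ _ _
        _ ≤ _ := by
            apply Finset.sum_le_sum_of_subset_of_nonneg
            · intro v hv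
              obtain ⟨hv1, hv2⟩ := Finset.mem_filter.mp hv
              rw [Finset.mem_filter]
              refine ⟨hv1, ?_⟩
              obtain ⟨y, hy, hne⟩ := Finset.exists_ne_zero_of_sum_ne_zero hv2
              obtain ⟨n1, n2⟩ := mul_ne_zero_iff.mp hne
              have n1' := tp_ne n1
              have n2' := tp_ne n2
              refine ⟨y, hy, ?_, ?_⟩
              · apply hadj_of_lamv h2W hc1
                unfold pw at n1'
                have a1 : ((x0 : ℤ) + y1) + W * (x + y) = (x0 : ℤ) + W * x + (y1 + W * y) := by ring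
                have a2 : ((x0 : ℤ) - y1) + W * (x - y) = (x0 : ℤ) + W * x - (y1 + W * y) := by ring
                rw [a1, a2]
                exact n1'
              · have hc2' : Comp W ((v0 + d : ℕ) : ℤ) y1 := by push_cast; exact hc2
                apply hadj_of_lamv h2W hc2'
                unfold pw at n2'
                have a1 : (((v0 + d : ℕ) : ℤ) + y1) + W * (v + y) = b + W * v + (y1 + W * y) := by
                  rw [hb]; push_cast; ring
                have a2 : (((v0 + d : ℕ) : ℤ) - y1) + W * (v - y) = b + W * v - (y1 + W * y) := by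
                  rw [hb]; push_cast; ring
                rw [a1, a2]
                exact n2'
            · intro v _ _
              exact sg_nonneg _ _ _
    set mass := ∑ v ∈ (Finset.Ico 1 N).filter (fun v => ∃ y ∈ Finset.Ico 1 N,
        hadj (x0 + W * x) (y1 + W * y) ∧ hadj (v0 + d + W * v) (y1 + W * y)), sg W v0 v with hmass
    have hmass0 : 0 ≤ mass := Finset.sum_nonneg fun v _ => sg_nonneg _ _ _
    have h8 : ((N : ℝ) ^ 2 / 8) ^ 2 ≤ mass * (2 * C / ε * (N : ℝ) ^ 3) := by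
      calc ((N : ℝ) ^ 2 / 8) ^ 2 ≤ (∑ v ∈ Finset.Ico 1 N, g v * P x v) ^ 2 :=
            pow_le_pow_left₀ (by positivity) h5 2
        _ ≤ _ := h6
        _ ≤ mass * (2 * C / ε * (N : ℝ) ^ 3) := by
            apply mul_le_mul h7 h2 _ hmass0
            exact Finset.sum_nonneg fun v _ => mul_nonneg (hg0 v) (sq_nonneg _)
    have hK : 0 < 2 * C / ε * (N : ℝ) ^ 3 := by positivity
    have h9 : (ε / (256 * C) * N) * (2 * C / ε * (N : ℝ) ^ 3) ≤
        mass * (2 * C / ε * (N : ℝ) ^ 3) := by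
      refine le_trans ?_ h8
      have : (ε / (256 * C) * N) * (2 * C / ε * (N : ℝ) ^ 3) = (N : ℝ) ^ 4 / 128 := by
        have : C ≠ 0 := by linarith
        field_simp
        norm_num
      rw [this]
      nlinarith [pow_nonneg (show (0 : ℝ) ≤ N by linarith) 4]
    exact le_of_mul_le_mul_right h9 hK
  -- the end
  have hsubset : (Finset.Ico 1 N).filter (fun x =>
      ∑ v ∈ (Finset.Ico 1 N).filter (fun v => ∃ y ∈ Finset.Ico 1 N,
        hadj (x0 + W * x) (y1 + W * y) ∧ hadj (v0 + d + W * v) (y1 + W * y)), sg W v0 v <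
        ε / (256 * C) * N) ⊆ BadX ∪ Bad2 := by
    intro x hx
    obtain ⟨h1, h2⟩ := Finset.mem_filter.mp hx
    by_contra hcon
    rw [Finset.mem_union, not_or] at hcon
    exact absurd (hgood x h1 hcon.1 hcon.2) (not_le.mpr h2)
  have hcard := (Finset.card_le_card hsubset).trans (Finset.card_union_le _ _)
  have hcard' : (((Finset.Ico 1 N).filter (fun x =>
      ∑ v ∈ (Finset.Ico 1 N).filter (fun v => ∃ y ∈ Finset.Ico 1 N,
        hadj (x0 + W * x) (y1 + W * y) ∧ hadj (v0 + d + W * v) (y1 + W * y)), sg W v0 v <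
        ε / (256 * C) * N)).card : ℝ) ≤ BadX.card + Bad2.card := by exact_mod_cast hcard
  linarith

end Pool.Agent.Lib.H18GB
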