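import Pool.Agent.Lib.H18GB.UAux2

/-!
# Project GB: auxiliary lemmas for the assembly of U, third part
-/

namespace Pool.Agent.Lib.H18GB

open Finset Filter Pool.Agent.Lib.Sieve

theorem two_rpow_eq (A K : ℕ) : (2 : ℝ) ^ (-(A : ℝ) / K) = ((2 : ℝ) ^ (-(1 : ℝ) / K)) ^ A := by
  rw [← Real.rpow_natCast, ← Real.rpow_mul (by norm_num)]
  congr 1
  ring

/-- exponentials beat polynomials -/
theorem exp_beats (K k : ℕ) (hK : 1 ≤ K) {a : ℝ} (ha : 0 < a) :
    ∃ A0 : ℕ, ∀ A : ℕ, A0 ≤ A → (A : ℝ) ^ k * (2 : ℝ) ^ (-(A : ℝ) / K) ≤ a := by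
  have hr : |(2 : ℝ) ^ (-(1 : ℝ) / K)| < 1 := by
    rw [abs_of_pos (Real.rpow_pos_of_pos (by norm_num) _)]
    apply Real.rpow_lt_one_of_one_lt_of_neg (by norm_num)
    have : (0 : ℝ) < K := by exact_mod_cast hK
    exact div_neg_of_neg_of_pos (by norm_num) this
  have h := tendsto_pow_const_mul_const_pow_of_abs_lt_one k hr
  have h2 := (h.eventually (gt_mem_nhds ha))
  obtain ⟨A0, hA0⟩ := eventually_atTop.mp h2
  refine ⟨A0, fun A hA => ?_⟩
  rw [two_rpow_eq]
  exact (hA0 A hA).le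

theorem er_le {C A w : ℕ} (hw : 2 ^ A ≤ w) : er C A w ≤ 2 * (2 : ℝ) ^ (-(A : ℝ) / C) := by
  unfold er
  have h1 : (w : ℝ) ^ (-(1 : ℝ) / C) ≤ ((2 : ℝ) ^ A) ^ (-(1 : ℝ) / C) := by
    apply Real.rpow_le_rpow_of_nonpos (by positivity)
    · exact_mod_cast hw
    · exact div_nonpos_of_nonpos_of_nonneg (by norm_num) (Nat.cast_nonneg _)
  have h2 : ((2 : ℝ) ^ A) ^ (-(1 : ℝ) / C) = (2 : ℝ) ^ (-(A : ℝ) / C) := by
    rw [← Real.rpow_natCast, ← Real.rpow_mul (by norm_num)]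
    congr 1
    ring
  rw [h2] at h1
  linarith

theorem fII_split (W : ℕ) (hW : 0 < W) (r : ℤ) (P : Finset ℕ) (β : ℤ → ℂ) (n : ℤ) :
    fII W r P β n = ∑ b0 ∈ Finset.range W, fII W r (P.filter fun b => b % W = b0) β n := by
  unfold fII
  rw [← Finset.sum_fiberwise_of_maps_to (t := Finset.range W) (g := fun b : ℕ => b % W)
    (fun b _ => Finset.mem_range.mpr (Nat.mod_lt _ hW))]
  refine Finset.sum_congr rfl fun b0 _ => ?_
  rw [Finset.filter_filter, Finset.filter_filter]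
  refine Finset.sum_congr ?_ fun _ _ => rfl
  ext b
  simp only [Finset.mem_filter]
  tauto

theorem fII_empty (W : ℕ) (r : ℤ) (β : ℤ → ℂ) (n : ℤ) : fII W r ∅ β n = 0 := by
  simp [fII]

/-- primes larger than `w` fall in classes coprime to `W` -/
theorem filter_mod_empty {w W z j b0 : ℕ} (hW : IsW w W) (hwz : w ≤ z)
    (hb0 : ¬ W.Coprime b0) : (Pj z j).filter (fun b => b % W = b0) = ∅ := by
  rw [Finset.filter_eq_empty_iff]
  intro b hb hmod
  unfold Pj at hb
  rw [Finset.mem_filter, Finset.mem_Ioc] at hb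
  obtain ⟨⟨h1, -⟩, hp⟩ := hb
  apply hb0
  have hcop : Nat.Coprime W b := by
    rw [Nat.coprime_comm, hp.coprime_iff_not_dvd]
    intro hd
    have h2 := (hW.2 b hp).mp hd
    have h3 : z ≤ z * 2 ^ j := Nat.le_mul_of_pos_right _ (by positivity)
    omega
  rw [← hmod]
  unfold Nat.Coprime at *
  rw [← hcop, Nat.gcd_comm W (b % W), Nat.gcd_comm W b]
  conv_rhs => rw [Nat.gcd_comm, Nat.gcd_rec]

/-- the Type II part, bounded by the individual classes -/
theorem typeII_sum_le {w W z J : ℕ} {r : ℤ} {M : ℕ} {H : Finset ℤ} {c : ℤ → ℂ} {θ : ℤ → ℝ}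
    {g : ℤ → ℂ} {b : ℝ} (hW : IsW w W) (hwz : w ≤ z)
    (h : ∀ j < J, ∀ b0 : ℕ, b0 < W → W.Coprime b0 →
      ‖Sfg M H c θ (fII W r ((Pj z j).filter fun b => b % W = b0) (βj z j)) g‖ ≤ b) :
    ‖Sfg M H c θ (fun n => ∑ j ∈ Finset.range J, fII W r (Pj z j) (βj z j) n) g‖ ≤
      J * (Nat.totient W * b) := by
  rw [Sfg_sum]
  refine (norm_sum_le _ _).trans ?_
  have h1 : ∀ j ∈ Finset.range J, ‖Sfg M H c θ (fII W r (Pj z j) (βj z j)) g‖ ≤
      Nat.totient W * b := by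
    intro j hj
    have h2 : Sfg M H c θ (fII W r (Pj z j) (βj z j)) g =
        ∑ b0 ∈ Finset.range W,
          Sfg M H c θ (fII W r ((Pj z j).filter fun b => b % W = b0) (βj z j)) g := by
      rw [← Sfg_sum]
      exact Sfg_congr fun n _ => fII_split W hW.1 r _ _ n
    rw [h2]
    have h3 : ∑ b0 ∈ Finset.range W,
          Sfg M H c θ (fII W r ((Pj z j).filter fun b => b % W = b0) (βj z j)) g =
        ∑ b0 ∈ (Finset.range W).filter (fun b0 => W.Coprime b0),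
          Sfg M H c θ (fII W r ((Pj z j).filter fun b => b % W = b0) (βj z j)) g := by
      symm
      apply Finset.sum_filter_of_ne
      intro b0 _ hne
      by_contra hcop
      apply hne
      rw [filter_mod_empty hW hwz hcop]
      unfold Sfg
      simp [fII_empty]
    rw [h3]
    refine (norm_sum_le _ _).trans ?_
    refine (Finset.sum_le_card_nsmul _ _ b fun b0 hb0 => ?_).trans ?_
    · rw [Finset.mem_filter, Finset.mem_range] at hb0
      exact h j (Finset.mem_range.mp hj) b0 hb0.1 hb0.2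
    · rw [nsmul_eq_mul, ← Nat.totient_eq_card_coprime]
  refine (Finset.sum_le_card_nsmul _ _ _ h1).trans ?_
  rw [nsmul_eq_mul, Finset.card_range]

end Pool.Agent.Lib.H18GB
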