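import Pool.Agent.Lib.H18GB.ST
import Pool.Agent.Lib.H18GB.Piece
import Pool.Agent.Lib.H18GB.Greedy
import Pool.Agent.Lib.H18GB.SR
import Pool.Agent.Lib.H18GB.UAux3

/-!
# Project GB: U
-/

namespace Pool.Agent.Lib.H18GB

open Finset Filter Pool.Agent.Lib.Sieve

/-- the bound for the part of the sum over `H'` (no popular pieces) -/
theorem U_part {M : ℕ} {H : Finset ℤ} {c : ℤ → ℂ} {θ : ℤ → ℝ} {f g : ℤ → ℂ}
    {fr f2 fe : ℤ → ℂ} {κ Λ : ℝ} {b0 br b1 b2 be : ℝ}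
    (hf : ∀ n ∈ Finset.Ico (0 : ℤ) M, f n = κ * fr n + (κ - 1) - Λ * f2 n + fe n)
    (h0 : ‖Sfg M H c θ f (fun n => f n - g n)‖ ≤ b0)
    (hr : |κ| * ‖Sfg M H c θ fr g‖ ≤ br)
    (h1 : |κ - 1| * ‖Sfg M H c θ (fun _ => 1) g‖ ≤ b1)
    (h2 : |Λ| * ‖Sfg M H c θ f2 g‖ ≤ b2)
    (he : ‖Sfg M H c θ fe g‖ ≤ be) :
    ‖Sfg M H c θ f f‖ ≤ b0 + br + b1 + b2 + be := by
  rw [Sfg_sub_right M H c θ f f g]
  have key : Sfg M H c θ f g = κ * Sfg M H c θ fr g + (κ - 1) * Sfg M H c θ (fun _ => 1) g +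
      (-Λ) * Sfg M H c θ f2 g + Sfg M H c θ fe g := by
    rw [← Sfg_const_mul, ← Sfg_const_mul, ← Sfg_const_mul, ← Sfg_add, ← Sfg_add, ← Sfg_add]
    refine Sfg_congr fun n hn => ?_
    rw [hf n hn]
    ring
  rw [key]
  have e1 : ‖(κ : ℂ) * Sfg M H c θ fr g‖ ≤ br := by
    rw [norm_mul, Complex.norm_real, Real.norm_eq_abs]
    exact hr
  have e2 : ‖((κ : ℂ) - 1) * Sfg M H c θ (fun _ => 1) g‖ ≤ b1 := by
    have : ((κ : ℂ) - 1) = ((κ - 1 : ℝ) : ℂ) := by push_cast; rfl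
    rw [this, norm_mul, Complex.norm_real, Real.norm_eq_abs]
    exact h1
  have e3 : ‖(-(Λ : ℂ)) * Sfg M H c θ f2 g‖ ≤ b2 := by
    rw [norm_mul, norm_neg, Complex.norm_real, Real.norm_eq_abs]
    exact h2
  calc _ ≤ ‖(κ : ℂ) * Sfg M H c θ fr g + (κ - 1) * Sfg M H c θ (fun _ => 1) g +
      (-Λ) * Sfg M H c θ f2 g + Sfg M H c θ fe g‖ + ‖Sfg M H c θ f (fun n => f n - g n)‖ :=
        norm_add_le _ _
    _ ≤ (‖(κ : ℂ) * Sfg M H c θ fr g + (κ - 1) * Sfg M H c θ (fun _ => 1) g +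
      (-Λ) * Sfg M H c θ f2 g‖ + ‖Sfg M H c θ fe g‖) + b0 := add_le_add (norm_add_le _ _) h0
    _ ≤ ((‖(κ : ℂ) * Sfg M H c θ fr g + (κ - 1) * Sfg M H c θ (fun _ => 1) g‖ +
      ‖(-(Λ : ℂ)) * Sfg M H c θ f2 g‖) + be) + b0 := by
        gcongr
        exact norm_add_le _ _
    _ ≤ (((‖(κ : ℂ) * Sfg M H c θ fr g‖ + ‖((κ : ℂ) - 1) * Sfg M H c θ (fun _ => 1) g‖) +
      b2) + be) + b0 := by
        gcongr
        exact norm_add_le _ _
    _ ≤ (((br + b1) + b2) + be) + b0 := by gcongr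
    _ = _ := by ring

theorem choose_A {Cd Cm ε : ℝ} (hCd : 1 ≤ Cd) (hCm : 1 ≤ Cm) (hε : 0 < ε) {Cs : ℕ} (hCs : 1 ≤ Cs)
    (s0 : ℕ) : ∃ A : ℕ, Cs ≤ A ∧ s0 ≤ Cs * A ∧ 3 ≤ Cs * A ∧
    Cd * (Cs * A : ℕ) * (Cs * (Cm * (Cs * A : ℕ)) * (2 * (2 : ℝ) ^ (-(A : ℝ) / Cs))) ≤ ε / 20 := by
  have hCs' : (1 : ℝ) ≤ Cs := by exact_mod_cast hCs
  obtain ⟨A0, hA0⟩ := exp_beats Cs 2 hCs (a := ε / (40 * Cd * Cm * Cs ^ 3)) (by positivity)
  refine ⟨max A0 (max Cs (max s0 3)), ?_, ?_, ?_, ?_⟩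
  · exact le_trans (le_max_left _ _) (le_max_right _ _)
  · calc s0 ≤ max A0 (max Cs (max s0 3)) := by omega
      _ ≤ Cs * max A0 (max Cs (max s0 3)) := Nat.le_mul_of_pos_left _ hCs
  · calc 3 ≤ max A0 (max Cs (max s0 3)) := by omega
      _ ≤ Cs * max A0 (max Cs (max s0 3)) := Nat.le_mul_of_pos_left _ hCs
  · set A := max A0 (max Cs (max s0 3)) with hA
    have h := hA0 A (le_max_left _ _)
    have h1 : Cd * ((Cs * A : ℕ) : ℝ) * (Cs * (Cm * ((Cs * A : ℕ) : ℝ)) *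
        (2 * (2 : ℝ) ^ (-(A : ℝ) / Cs))) =
        (2 * Cd * Cm * Cs ^ 3) * ((A : ℝ) ^ 2 * (2 : ℝ) ^ (-(A : ℝ) / Cs)) := by
      push_cast
      ring
    rw [h1]
    calc (2 * Cd * Cm * Cs ^ 3) * ((A : ℝ) ^ 2 * (2 : ℝ) ^ (-(A : ℝ) / Cs))
        ≤ (2 * Cd * Cm * Cs ^ 3) * (ε / (40 * Cd * Cm * Cs ^ 3)) := by gcongr
      _ = ε / 20 := by field_simp; norm_num

theorem choose_A1 {K : ℕ} (hK : 1 ≤ K) {a : ℝ} (ha : 0 < a) : ∃ A : ℕ, K ≤ A ∧ 1 ≤ A ∧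
    K * (2 : ℝ) ^ (-(A : ℝ) / K) ≤ (a / (A : ℝ) ^ 3) ^ K := by
  have hK' : (1 : ℝ) ≤ K := by exact_mod_cast hK
  obtain ⟨A0, hA0⟩ := exp_beats K (3 * K) hK (a := a ^ K / K) (by positivity)
  refine ⟨max A0 K, le_max_right _ _, hK.trans (le_max_right _ _), ?_⟩
  set A := max A0 K with hA
  have hA1 : (1 : ℝ) ≤ A := by exact_mod_cast hK.trans (le_max_right _ _)
  have h := hA0 A (le_max_left _ _)
  rw [div_pow, ← pow_mul, le_div_iff₀ (by positivity)]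
  calc (K : ℝ) * (2 : ℝ) ^ (-(A : ℝ) / K) * (A : ℝ) ^ (3 * K)
      = K * ((A : ℝ) ^ (3 * K) * (2 : ℝ) ^ (-(A : ℝ) / K)) := by ring
    _ ≤ K * (a ^ K / K) := by gcongr
    _ = a ^ K := by field_simp

/-- the greedy relation -/
def Rel (Q W T M : ℕ) (θ : ℤ → ℝ) (h h' : ℤ) : Prop :=
  (W : ℤ) ∣ h - h' ∧ Near Q W T M (θ h - θ h')

open Classical in
/-- a set without popular pieces has few pairs -/
theorem few_pairs {Q W T M : ℕ} {θ : ℤ → ℝ} {H : Finset ℤ} {c : ℝ} (hc : 0 < c) (hW : 1 ≤ W)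
    (hM : 1 ≤ M) (hH : H ⊆ Finset.Ioo (-(M : ℤ)) M)
    (h : ∀ h ∈ H, ((H.filter fun h' => Rel Q W T M θ h' h).card : ℝ) < c / 2 * M / W) :
    ¬ (c * M ^ 2 / W ≤ (((H ×ˢ H).filter fun q =>
      (W : ℤ) ∣ q.1 - q.2 ∧ Near Q W T M (θ q.1 - θ q.2)).card : ℝ)) := by
  have hWr : (0 : ℝ) < W := by exact_mod_cast hW
  have hMr : (0 : ℝ) < M := by exact_mod_cast hM
  have h1 : (((H ×ˢ H).filter fun q =>
      (W : ℤ) ∣ q.1 - q.2 ∧ Near Q W T M (θ q.1 - θ q.2)).card) =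
      ∑ h ∈ H, (H.filter fun h' => Rel Q W T M θ h' h).card := by
    rw [Finset.card_filter, Finset.sum_product_right]
    refine Finset.sum_congr rfl fun x _ => ?_
    rw [Finset.card_filter]
    exact Finset.sum_congr rfl fun y _ => if_congr Iff.rfl rfl rfl
  rw [h1, not_le]
  push_cast
  have hcard : (H.card : ℝ) < 2 * M := by
    have h2 := Finset.card_le_card hH
    rw [Int.card_Ioo] at h2
    have h3 : H.card < 2 * M := by omega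
    exact_mod_cast h3
  rcases H.eq_empty_or_nonempty with rfl | hne
  · simp only [Finset.sum_empty]
    positivity
  calc ∑ x ∈ H, ((H.filter fun h' => Rel Q W T M θ h' x).card : ℝ)
      < ∑ x ∈ H, c / 2 * M / W := Finset.sum_lt_sum_of_nonempty hne h
    _ = H.card * (c / 2 * M / W) := by rw [Finset.sum_const, nsmul_eq_mul]
    _ ≤ (2 * M) * (c / 2 * M / W) := by gcongr
    _ = c * M ^ 2 / W := by ring

/-- the functions `βj` are admissible -/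
theorem betaOK_βj {w y z j : ℕ} (hyz : y ≤ z) : BetaOK (sprimes w y) (βj z j) := by
  intro a
  unfold βj
  constructor
  · split_ifs <;> simp
  · intro hr
    rw [if_neg]
    rintro ⟨-, h⟩
    apply hr
    intro p hp hd
    obtain ⟨h1, h2, h3⟩ := mem_sprimes.mp hp
    refine h p h1 ?_ hd
    have h3 : z ≤ z * 2 ^ (j + 1) := Nat.le_mul_of_pos_right _ (by positivity)
    omega

theorem cfg_of {w W y z j M b0 T : ℕ} {r : ℤ} {H : Finset ℤ} {ε' : ℝ} (hW : IsW w W)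
    (hr : |r| < 2 * W) (hcop : IsCoprime r (W : ℤ)) (hb0 : b0 < W) (hb0c : W.Coprime b0)
    (hWy : 4 * W ^ 4 ≤ y) (hwy : w ≤ y) (hH : H ⊆ Finset.Ioo (-(M : ℤ)) M) (hM : 1 ≤ M)
    (hB : (z * 2 ^ j : ℝ) ≤ (M : ℝ) ^ (1 / 2 - ε')) (hT : (T + 100 : ℝ) ≤ (M : ℝ) ^ (2 * ε')) :
    Cfg w W y (z * 2 ^ j) M r b0 ((Pj z j).filter fun b => b % W = b0) H ∧
      T * (z * 2 ^ j) ^ 2 ≤ M := by
  have hM' : (0 : ℝ) < M := by exact_mod_cast hM
  have key : (T + 100 : ℝ) * (z * 2 ^ j : ℝ) ^ 2 ≤ M := by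
    have h0 : (0 : ℝ) ≤ z * 2 ^ j := by positivity
    have h1 : (z * 2 ^ j : ℝ) ^ 2 ≤ ((M : ℝ) ^ (1 / 2 - ε')) ^ 2 := pow_le_pow_left₀ h0 hB 2
    have h2 : ((M : ℝ) ^ (1 / 2 - ε')) ^ 2 = (M : ℝ) ^ (1 - 2 * ε') := by
      rw [← Real.rpow_natCast, ← Real.rpow_mul hM'.le]
      congr 1
      push_cast
      ring
    rw [h2] at h1
    calc (T + 100 : ℝ) * (z * 2 ^ j : ℝ) ^ 2
        ≤ (M : ℝ) ^ (2 * ε') * (M : ℝ) ^ (1 - 2 * ε') := by gcongr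
      _ = M := by
          rw [← Real.rpow_add hM']
          have : 2 * ε' + (1 - 2 * ε') = 1 := by ring
          rw [this, Real.rpow_one]
  have hnn : (0 : ℝ) ≤ (z * 2 ^ j : ℝ) ^ 2 := by positivity
  have hT0 : (0 : ℝ) ≤ T := Nat.cast_nonneg _
  refine ⟨⟨hW, hr, hcop, ⟨by positivity, by exact_mod_cast hb0⟩, ?_, hWy, hwy, ?_, ?_, hH⟩, ?_⟩
  · exact (Nat.isCoprime_iff_coprime.mpr hb0c).symm
  · have : ((100 * (z * 2 ^ j) ^ 2 : ℕ) : ℝ) ≤ M := by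
      push_cast
      nlinarith
    exact_mod_cast this
  · intro b hb
    rw [Finset.mem_filter] at hb
    obtain ⟨hb, hmod⟩ := hb
    unfold Pj at hb
    rw [Finset.mem_filter, Finset.mem_Ioc] at hb
    obtain ⟨⟨h1, h2⟩, hp⟩ := hb
    refine ⟨hp, h1.le, ?_, ?_⟩
    · rw [pow_succ] at h2
      linarith
    · have h3 : (b : ℤ) % W = (b0 : ℤ) := by exact_mod_cast hmod
      exact (Int.modEq_iff_dvd.mp (by
        show (b0 : ℤ) % W = b % W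
        rw [h3, Int.emod_eq_of_lt (by positivity) (by exact_mod_cast hb0)]))
  · have : ((T * (z * 2 ^ j) ^ 2 : ℕ) : ℝ) ≤ M := by
      push_cast
      nlinarith
    exact_mod_cast this

/-- the bound on `H'` (no popular pieces), all parameters given -/
theorem U_rest {ε1 Cd Ck δ2 κ Λ t er0 bv : ℝ} {s s1 w W M J : ℕ} {r : ℤ}
    {H : Finset ℤ} {cc : ℤ → ℂ} {θ : ℤ → ℝ} {err : ℤ → ℝ}
    (hW : IsW w W) (hM : 1 ≤ M) (hs : 1 ≤ s) (hs1 : 1 ≤ s1) (hCd : 1 ≤ Cd)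
    (hCk : 1 ≤ Ck) (hε1 : 0 < ε1)
    (hcc : ∀ h, ‖cc h‖ ≤ 1) (hH : H ⊆ Finset.Ioo (-(M : ℤ)) M)
    (hδ2 : δ2 = ε1 / (20 * Cd ^ 2 * (Ck * (s * s1 : ℕ)) ^ 2))
    (hwz : w ≤ rt s M)
    (hκ0 : 0 ≤ κ) (hκ : κ ≤ Cd * s) (hJ : (J : ℝ) ≤ Cd * Real.log M) (hΛ0 : 0 ≤ Λ)
    (hΛ : Λ ≤ Cd * (Nat.totient W / W) * Real.log M)
    (herr : ∑ n ∈ Finset.Ico (0 : ℤ) M, |err n| ≤ ε1 / 100 * M)
    (hdec : ∀ n ∈ Finset.Ico (0 : ℤ) M, (uu W r n : ℂ) =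
        κ * ((rho (sprimes w (rt s M)) (r + W * n) - 1 : ℝ) : ℂ) + (κ - 1) -
        Λ * ∑ j ∈ Finset.range J, fII W r (Pj (rt s M) j) (βj (rt s M) j) n + err n)
    (hkap : (Nat.totient W / W : ℝ) * VV (sprimes w (rt (s * s1) M)) * Real.log M ≤
      Ck * (s * s1 : ℕ))
    (hl1 : ∑ n ∈ Finset.Ico (0 : ℤ) M, |uu W r n| ≤ 3 * M)
    (ht : ∑ n ∈ Finset.Ico (0 : ℤ) M, ‖uc W r M n - ug W r M (rt s M) n‖ ≤ t * M)
    (ht1 : 3 * t ≤ ε1 / 100) (ht2 : (Cd * s + 1) * t ≤ ε1 / 40)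
    (hsr : ‖Sfg M H cc θ (fun n => ((rho (sprimes w (rt s M)) (r + W * n) - 1 : ℝ) : ℂ))
      (ug W r M (rt s M))‖ ≤ er0 * M ^ 2) (her0 : Cd * s * er0 ≤ ε1 / 20)
    (hv : ∀ θ : ℝ, ∀ M' : ℤ, 0 ≤ M' → M' ≤ M →
      ‖∑ n ∈ Finset.Ico (0 : ℤ) M', (uu W r n : ℂ) * e (θ * n)‖ ≤ bv * M)
    (hbv : (Cd * s + 1) * (4 * bv) ≤ ε1 / 40)
    (hII : ∀ j < J, ∀ b0 : ℕ, b0 < W → W.Coprime b0 →
      ‖Sfg M H cc θ (fII W r ((Pj (rt s M) j).filter fun b => b % W = b0) (βj (rt s M) j))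
        (ug W r M (rt s M))‖ ≤ δ2 * VV (sprimes w (rt (s * s1) M)) ^ 2 * M ^ 2 / W) :
    ‖Sfg M H cc θ (uc W r M) (uc W r M)‖ ≤ ε1 / 4 * M ^ 2 := by
  set g := ug W r M (rt s M) with hg
  have hgs : SuppIn 0 M g := ug_supp _ _ _ _
  have hMr : (1 : ℝ) ≤ M := by exact_mod_cast hM
  have hsr' : (1 : ℝ) ≤ s := by exact_mod_cast hs
  have hWr : (0 : ℝ) < W := by exact_mod_cast hW.1
  have hcs : (0 : ℝ) ≤ Cd * s + 1 := by positivity
  have hlogM : 0 ≤ Real.log M := Real.log_nonneg hMr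
  have hl1' : ∑ n ∈ Finset.Ico (0 : ℤ) M, ‖uc W r M n‖ ≤ 3 * M := by
    rw [norm_uc_sum]; exact hl1
  have hgl1 : ∑ n ∈ Finset.Ico (0 : ℤ) M, ‖g n‖ ≤ 3 * M :=
    (Finset.sum_le_sum fun n _ => norm_ug_le _ _ _ _ _).trans hl1'
  have hsubs : SuppIn 0 M (fun n => uc W r M n - g n) := by
    intro n hn
    have h1 : uc W r M n = 0 := by
      rw [uc, if_neg]
      rwa [Finset.mem_Ico] at hn
    simp only [h1, hgs n hn, sub_zero]
  have main := U_part (M := M) (H := H) (c := cc) (θ := θ) (f := uc W r M) (g := g)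
    (fr := fun n => ((rho (sprimes w (rt s M)) (r + W * n) - 1 : ℝ) : ℂ))
    (f2 := fun n => ∑ j ∈ Finset.range J, fII W r (Pj (rt s M) j) (βj (rt s M) j) n)
    (fe := fun n => (err n : ℂ)) (κ := κ) (Λ := Λ)
    (b0 := ε1 / 100 * M ^ 2) (br := ε1 / 20 * M ^ 2) (b1 := ε1 / 20 * M ^ 2)
    (b2 := ε1 / 20 * M ^ 2) (be := 3 * ε1 / 100 * M ^ 2) ?_ ?_ ?_ ?_ ?_ ?_
  · refine main.trans ?_
    have : (0 : ℝ) ≤ ε1 * M ^ 2 := by positivity
    nlinarith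
  · intro n hn
    rw [uc, if_pos (Finset.mem_Ico.mp hn)]
    exact hdec n hn
  · refine (Sfg_le_l1 hcc hsubs).trans ?_
    calc (∑ n ∈ Finset.Ico (0 : ℤ) M, ‖uc W r M n‖) *
          ∑ n ∈ Finset.Ico (0 : ℤ) M, ‖uc W r M n - g n‖ ≤ (3 * M) * (t * M) := by
          apply mul_le_mul hl1' ht (Finset.sum_nonneg fun _ _ => norm_nonneg _) (by positivity)
      _ = (3 * t) * M ^ 2 := by ring
      _ ≤ ε1 / 100 * M ^ 2 := by gcongr
  · rw [abs_of_nonneg hκ0]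
    have hpos : 0 ≤ er0 * (M : ℝ) ^ 2 := (norm_nonneg _).trans hsr
    calc κ * ‖Sfg M H cc θ (fun n => ((rho (sprimes w (rt s M)) (r + W * n) - 1 : ℝ) : ℂ)) g‖
        ≤ (Cd * s) * (er0 * M ^ 2) := mul_le_mul hκ hsr (norm_nonneg _) (by positivity)
      _ = (Cd * s * er0) * M ^ 2 := by ring
      _ ≤ ε1 / 20 * M ^ 2 := by gcongr
  · have h1 : |κ - 1| ≤ Cd * s + 1 := by
      rw [abs_le]
      constructor <;> nlinarith
    have h2 : ‖Sfg M H cc θ (fun _ => 1) g‖ ≤ (4 * bv + t) * M ^ 2 := by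
      rw [Sfg_sub_right M H cc θ (fun _ => 1) g (uc W r M)]
      refine (norm_add_le _ _).trans ?_
      have h3 : ‖Sfg M H cc θ (fun _ => 1) (uc W r M)‖ ≤ 4 * bv * M ^ 2 := by
        unfold Sfg
        refine (norm_sum_le _ _).trans ?_
        have h4 : ∀ h ∈ H, ‖cc h * ∑ n ∈ Finset.Ico (0 : ℤ) M,
            (1 : ℂ) * uc W r M (n + h) * e (θ h * n)‖ ≤ 2 * (bv * M) := by
          intro h hh
          rw [norm_mul]
          refine (mul_le_of_le_one_left (norm_nonneg _) (hcc h)).trans ?_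
          simp only [one_mul]
          exact shift_sum_le hv h (hH hh) (θ h)
        refine (Finset.sum_le_card_nsmul _ _ _ h4).trans ?_
        rw [nsmul_eq_mul]
        have hcard : (H.card : ℝ) ≤ 2 * M := by
          have h5 := Finset.card_le_card hH
          rw [Int.card_Ioo] at h5
          have h6 : H.card ≤ 2 * M := by omega
          exact_mod_cast h6
        have hb : 0 ≤ 2 * (bv * M) :=
          mul_nonneg (by norm_num) ((norm_nonneg _).trans (hv 0 0 le_rfl (by positivity)))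
        calc (H.card : ℝ) * (2 * (bv * M)) ≤ (2 * M) * (2 * (bv * M)) := by gcongr
          _ = 4 * bv * M ^ 2 := by ring
      have h5 : ‖Sfg M H cc θ (fun _ => 1) (fun n => g n - uc W r M n)‖ ≤ t * M ^ 2 := by
        have hsup : SuppIn 0 M (fun n => g n - uc W r M n) := by
          intro n hn
          have := hsubs n hn
          simp only at this ⊢
          linear_combination -this
        refine (Sfg_le_l1 hcc hsup).trans ?_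
        have e1 : ∑ n ∈ Finset.Ico (0 : ℤ) M, ‖(1 : ℂ)‖ = M := by simp
        have e2 : ∑ n ∈ Finset.Ico (0 : ℤ) M, ‖g n - uc W r M n‖ ≤ t * M := by
          refine le_trans (le_of_eq ?_) ht
          exact Finset.sum_congr rfl fun n _ => norm_sub_rev _ _
        rw [e1]
        calc (M : ℝ) * ∑ n ∈ Finset.Ico (0 : ℤ) M, ‖g n - uc W r M n‖ ≤ M * (t * M) := by gcongr
          _ = t * M ^ 2 := by ring
      linarith
    calc |κ - 1| * ‖Sfg M H cc θ (fun _ => 1) g‖ ≤ (Cd * s + 1) * ((4 * bv + t) * M ^ 2) :=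
          mul_le_mul h1 h2 (norm_nonneg _) hcs
      _ = ((Cd * s + 1) * (4 * bv) + (Cd * s + 1) * t) * M ^ 2 := by ring
      _ ≤ (ε1 / 40 + ε1 / 40) * M ^ 2 := by gcongr
      _ = ε1 / 20 * M ^ 2 := by ring
  · rw [abs_of_nonneg hΛ0]
    set V := VV (sprimes w (rt (s * s1) M)) with hV
    have hVp : 0 < V := VV_pos (pset_sprimes _ _).prime
    have hδ2p : 0 < δ2 := by
      rw [hδ2]
      have : (0 : ℝ) < ((s * s1 : ℕ) : ℝ) := by exact_mod_cast Nat.mul_pos hs hs1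
      positivity
    have h1 := typeII_sum_le (J := J) hW hwz hII
    have hφ : (0 : ℝ) ≤ Nat.totient W := Nat.cast_nonneg _
    have hb0 : 0 ≤ δ2 * V ^ 2 * (M : ℝ) ^ 2 / W := by positivity
    calc Λ * ‖Sfg M H cc θ (fun n => ∑ j ∈ Finset.range J,
            fII W r (Pj (rt s M) j) (βj (rt s M) j) n) g‖
        ≤ (Cd * (Nat.totient W / W) * Real.log M) *
            (J * (Nat.totient W * (δ2 * V ^ 2 * M ^ 2 / W))) :=
          mul_le_mul hΛ h1 (norm_nonneg _) (by positivity)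
      _ ≤ (Cd * (Nat.totient W / W) * Real.log M) *
            ((Cd * Real.log M) * (Nat.totient W * (δ2 * V ^ 2 * M ^ 2 / W))) := by gcongr
      _ = δ2 * Cd ^ 2 * ((Nat.totient W / W : ℝ) * V * Real.log M) ^ 2 * M ^ 2 := by
          field_simp
      _ ≤ δ2 * Cd ^ 2 * (Ck * (s * s1 : ℕ)) ^ 2 * M ^ 2 := by gcongr
      _ = ε1 / 20 * M ^ 2 := by
          rw [hδ2]
          have : (0 : ℝ) < ((s * s1 : ℕ) : ℝ) := by exact_mod_cast Nat.mul_pos hs hs1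
          field_simp
  · refine (Sfg_le_l1 hcc hgs).trans ?_
    have e1 : ∑ n ∈ Finset.Ico (0 : ℤ) M, ‖(err n : ℂ)‖ ≤ ε1 / 100 * M := by
      refine le_trans (le_of_eq ?_) herr
      exact Finset.sum_congr rfl fun n _ => by rw [Complex.norm_real, Real.norm_eq_abs]
    calc (∑ n ∈ Finset.Ico (0 : ℤ) M, ‖(err n : ℂ)‖) * ∑ n ∈ Finset.Ico (0 : ℤ) M, ‖g n‖
        ≤ (ε1 / 100 * M) * (3 * M) :=
          mul_le_mul e1 hgl1 (Finset.sum_nonneg fun _ _ => norm_nonneg _) (by positivity)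
      _ = 3 * ε1 / 100 * M ^ 2 := by ring

open Classical in
/-- **The main estimate.** -/
theorem U (ε : ℝ) (hε : 0 < ε) : ∃ w0 : ℕ, ∀ w W : ℕ, w0 ≤ w → IsW w W → ∃ M0 : ℕ, ∀ M : ℕ,
    M0 ≤ M → ∀ r : ℤ, |r| < 2 * W → IsCoprime r (W : ℤ) → ∀ θ : ℤ → ℝ,
    ∑ h ∈ Finset.Ioo (-(M : ℤ)) M, ‖∑ n ∈ Finset.Ico (0 : ℤ) M,
      uc W r M n * uc W r M (n + h) * e (θ h * n)‖ ≤ ε * M ^ 2 := by
  set ε1 := min ε 1 with hε1
  have hε1p : 0 < ε1 := lt_min hε one_pos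
  have hε1l : ε1 ≤ 1 := min_le_right _ _
  obtain ⟨Cd, hCd, hdec⟩ := dec
  obtain ⟨Cm, hCm, hmajo⟩ := majo
  obtain ⟨Ck, hCk, hkap⟩ := kap_bound
  obtain ⟨Cs, hCs, hsr⟩ := sr
  obtain ⟨K, hK, hst⟩ := st
  obtain ⟨ε', s0, w0d, hε', hε'4, hdec⟩ := hdec (ε1 / 100) (by positivity) (by linarith)
  obtain ⟨A, hA1, hA2, hA3, hA4⟩ := choose_A hCd hCm hε1p hCs s0
  set s := Cs * A with hs
  have hs1 : 1 ≤ s := by omega
  have hsr1 : (1 : ℝ) ≤ s := by exact_mod_cast hs1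
  have hKr : (1 : ℝ) ≤ K := by exact_mod_cast hK
  have hdec := hdec s hA2
  have ha : 0 < ε1 / (20 * Cd ^ 2 * Ck ^ 2 * Cm * (s * K) ^ 3) := by positivity
  obtain ⟨A', hA'1, hA'2, hA'3⟩ := choose_A1 hK ha
  have hA'r : (1 : ℝ) ≤ A' := by exact_mod_cast hA'2
  set s1 := K * A' with hs1def
  have hs1' : 1 ≤ s1 := Nat.mul_pos hK hA'2
  have hss1 : 1 ≤ s * s1 := Nat.mul_pos hs1 hs1'
  have hssr : (1 : ℝ) ≤ (s * s1 : ℕ) := by exact_mod_cast hss1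
  set κ1 : ℝ := Cm * (s * s1 : ℕ) with hκ1
  set δ2 : ℝ := ε1 / (20 * Cd ^ 2 * (Ck * (s * s1 : ℕ)) ^ 2) with hδ2
  have hκ1' : 1 ≤ κ1 := one_le_mul_of_one_le_of_one_le hCm hssr
  have hδ2p : 0 < δ2 := by positivity
  have hδ2l : δ2 ≤ 1 := by
    rw [hδ2, div_le_one (by positivity)]
    have h1 : (1 : ℝ) ≤ Cd ^ 2 := one_le_pow₀ hCd
    have h2 : (1 : ℝ) ≤ (Ck * (s * s1 : ℕ)) ^ 2 :=
      one_le_pow₀ (one_le_mul_of_one_le_of_one_le hCk hssr)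
    nlinarith
  have hprec : K * (2 : ℝ) ^ (-(A' : ℝ) / K) ≤ (δ2 / κ1) ^ K := by
    have h1 : δ2 / κ1 = ε1 / (20 * Cd ^ 2 * Ck ^ 2 * Cm * (s * K) ^ 3) / (A' : ℝ) ^ 3 := by
      rw [hδ2, hκ1, hs1def]
      push_cast
      field_simp
    rw [h1]
    exact hA'3
  obtain ⟨c, Q, T, w0s, hc, hQ, hst⟩ := hst δ2 κ1 A' hδ2p hδ2l hκ1' hA'1 hprec
  obtain ⟨w0p, hpiece⟩ := piece (ε1 * (c / 2) / 8) (by positivity) Q T hQ
  obtain ⟨w0v, hv1⟩ := v1 (ε1 / (160 * (Cd * s + 1))) (by positivity)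
  refine ⟨max w0d (max w0s (max w0p (max w0v (max Cs (2 ^ A))))), fun w W hw hW => ?_⟩
  simp only [max_le_iff] at hw
  obtain ⟨hw1, hw2, hw3, hw4, hw5, hw6⟩ := hw
  have hW1 : 1 ≤ W := hW.1
  have hWr : (0 : ℝ) < W := by exact_mod_cast hW.1
  obtain ⟨M1, hdec⟩ := hdec w W hw1 hW
  obtain ⟨M2, hmajo1⟩ := hmajo s hs1 w W hW
  obtain ⟨M3, hmajo2⟩ := hmajo (s * s1) hss1 w W hW
  obtain ⟨M4, hkap⟩ := hkap (s * s1) hss1 w W hW
  obtain ⟨y0, hst⟩ := hst w W hw2 hW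
  obtain ⟨M5, hpiece⟩ := hpiece w W hw3 hW
  obtain ⟨M6, hv1⟩ := hv1 w W hw4 hW
  obtain ⟨M7, hl1⟩ := l1lam W hW.1
  set t : ℝ := ε1 / (300 * (Cd * s + 1)) with ht
  have htp : 0 < t := by positivity
  have ev1 : ∀ᶠ M : ℕ in atTop, max y0 (max (4 * W ^ 4) w) ≤ rt (s * s1) M :=
    (rt_tendsto hss1).eventually_ge_atTop _
  have ev2 : ∀ᶠ M : ℕ in atTop, max 2 (max w ⌈6 / t⌉₊) ≤ rt s M :=
    (rt_tendsto hs1).eventually_ge_atTop _
  have ev3 : ∀ᶠ M : ℕ in atTop, (T + 100 : ℝ) ≤ (M : ℝ) ^ (2 * ε') :=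
    ((tendsto_rpow_atTop (by positivity : 0 < 2 * ε')).comp
      tendsto_natCast_atTop_atTop).eventually_ge_atTop _
  obtain ⟨M8, hM8⟩ := eventually_atTop.mp (ev1.and (ev2.and ev3))
  refine ⟨max 2 (max M1 (max M2 (max M3 (max M4 (max M5 (max M6 (max M7 M8))))))),
    fun M hM r hr hcop θ => ?_⟩
  simp only [max_le_iff] at hM
  obtain ⟨hM0, hM1, hM2, hM3, hM4, hM5, hM6, hM7, hM8'⟩ := hM
  obtain ⟨hy, hz, hT⟩ := hM8 M hM8'
  simp only [max_le_iff] at hy hz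
  obtain ⟨hy0, hyW, hyw⟩ := hy
  obtain ⟨hz2, hzw, hzt⟩ := hz
  have hMr : (0 : ℝ) < M := by exact_mod_cast (by omega : 0 < M)
  -- powers
  have hpow : rt (s * s1) M ^ s1 ≤ rt s M := rt_mono_pow hs1 hs1' M
  have hy1 : 1 ≤ rt (s * s1) M := by
    have : 1 ≤ 4 * W ^ 4 := by
      have := Nat.pow_pos (n := 4) hW1
      omega
    omega
  have hyz : rt (s * s1) M ≤ rt s M := by
    calc rt (s * s1) M = rt (s * s1) M ^ 1 := (pow_one _).symm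
      _ ≤ rt (s * s1) M ^ s1 := Nat.pow_le_pow_right hy1 hs1'
      _ ≤ _ := hpow
  have hzM : rt s M ^ s ≤ M := rt_pow_le hs1 M
  -- the coefficients
  set a : ℤ → ℂ := fun h => ∑ n ∈ Finset.Ico (0 : ℤ) M,
      uc W r M n * uc W r M (n + h) * e (θ h * n) with ha'
  set cc : ℤ → ℂ := fun h => if a h = 0 then 0 else (starRingEnd ℂ) (a h) / ‖a h‖ with hcc'
  have hcc : ∀ h, ‖cc h‖ ≤ 1 := by
    intro h
    simp only [hcc']
    split_ifs with h0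
    · simp
    · rw [norm_div, RCLike.norm_conj]
      simp [h0]
  have hcca : ∀ h, cc h * a h = (‖a h‖ : ℂ) := by
    intro h
    simp only [hcc']
    split_ifs with h0
    · simp [h0]
    · have h1 : (‖a h‖ : ℂ) ≠ 0 := by
        rw [Ne, Complex.ofReal_eq_zero, norm_eq_zero]
        exact h0
      rw [div_mul_eq_mul_div, div_eq_iff h1, ← Complex.ofReal_mul, mul_comm, Complex.mul_conj,
        Complex.normSq_eq_norm_sq, sq]
  have hsum : ∀ H : Finset ℤ, ∑ h ∈ H, ‖a h‖ = ‖Sfg M H cc θ (uc W r M) (uc W r M)‖ := by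
    intro H
    have h1 : Sfg M H cc θ (uc W r M) (uc W r M) = ((∑ h ∈ H, ‖a h‖ : ℝ) : ℂ) := by
      unfold Sfg
      push_cast
      exact Finset.sum_congr rfl fun h _ => hcca h
    rw [h1, Complex.norm_real, Real.norm_eq_abs,
      abs_of_nonneg (Finset.sum_nonneg fun _ _ => norm_nonneg _)]
  -- greedy
  obtain ⟨I, Pc, H', hH'sub, hIcard, hPc, hdecomp, hfew⟩ :=
    greedy M W (by omega) hW1 (c / 2) (by positivity) (Rel Q W T M θ)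
      (Finset.Ioo (-(M : ℤ)) M) (Finset.Subset.refl _)
  have htot := hdecomp (fun h => ‖a h‖)
  rw [htot]
  -- pieces
  have hpieces : ∑ i ∈ I, ∑ h ∈ Pc i, ‖a h‖ ≤ ε1 / 4 * M ^ 2 := by
    have h1 : ∀ i ∈ I, ∑ h ∈ Pc i, ‖a h‖ ≤ ε1 * (c / 2) / 8 * M ^ 2 / W := by
      intro i hi
      rw [hsum]
      obtain ⟨h2, h3⟩ := hPc i hi
      exact hpiece M hM5 r hr hcop (Pc i) i (θ i) θ cc h2 hcc fun h hh => h3 h hh
    refine (Finset.sum_le_card_nsmul _ _ _ h1).trans ?_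
    rw [nsmul_eq_mul]
    calc (I.card : ℝ) * (ε1 * (c / 2) / 8 * M ^ 2 / W)
        ≤ (2 * W / (c / 2)) * (ε1 * (c / 2) / 8 * M ^ 2 / W) := by gcongr
      _ = ε1 / 4 * M ^ 2 := by field_simp; norm_num
  -- the rest
  have hrest : ∑ h ∈ H', ‖a h‖ ≤ ε1 / 4 * M ^ 2 := by
    rw [hsum]
    obtain ⟨κ, Λ, J, err, hκ0, hκ, hJ, hΛ0, hΛ, hjs, herr, hdec⟩ := hdec M hM1 r hr hcop
    refine U_rest (ε1 := ε1) (Cd := Cd) (Ck := Ck) (δ2 := δ2) (κ := κ) (Λ := Λ) (t := t)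
      (er0 := Cs * (Cm * s) * er Cs A w) (bv := ε1 / (160 * (Cd * s + 1))) (s := s) (s1 := s1)
      (w := w) (err := err) (J := J) hW (by omega) hs1 hs1' hCd hCk hε1p hcc hH'sub hδ2 hzw hκ0 hκ
      hJ hΛ0 hΛ herr hdec (hkap M hM4) (hl1 M hM7 r hr hcop) ?_ ?_ ?_ ?_ ?_ ?_ ?_ ?_
    · refine (sum_trunc_le hW.1 r M (rt s M)).trans ?_
      set z := rt s M with hz
      have hz1 : (1 : ℝ) ≤ z := by exact_mod_cast (by omega : 1 ≤ z)
      have hz3 : (z : ℝ) ^ 3 ≤ M := by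
        have : z ^ 3 ≤ M := (Nat.pow_le_pow_right (by omega) hA3).trans hzM
        exact_mod_cast this
      have hzt' : 6 / t ≤ z := (Nat.le_ceil _).trans (by exact_mod_cast hzt)
      rw [div_le_iff₀ htp] at hzt'
      calc (2 * (z : ℝ) + 1) * (1 + z) ≤ 6 * z ^ 2 := by nlinarith
        _ ≤ (z * t) * z ^ 2 := by gcongr
        _ = t * z ^ 3 := by ring
        _ ≤ t * M := by gcongr
    · rw [ht]
      have h2 : (1 : ℝ) ≤ Cd * s + 1 := by nlinarith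
      have : ε1 / (300 * (Cd * s + 1)) ≤ ε1 / 300 := by
        apply div_le_div_of_nonneg_left hε1p.le (by norm_num)
        nlinarith
      linarith
    · rw [ht]
      have h2 : (0 : ℝ) < Cd * s + 1 := by positivity
      have : (Cd * s + 1) * (ε1 / (300 * (Cd * s + 1))) = ε1 / 300 := by field_simp
      rw [this]
      linarith
    · have h1 := hsr A w (rt s M) W M (sprimes w (rt s M)) hA1 hw5 hz2 (pset_sprimes _ _) hW hzM
        r r (Cm * s) (ug W r M (rt s M)) (one_le_mul_of_one_le_of_one_le hCm hsr1)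
        (ug_maj (one_le_mul_of_one_le_of_one_le hCm hsr1) hr hM0 le_rfl (hmajo1 M hM2))
        (ug_supp _ _ _ _) H' hH'sub cc θ hcc
      exact h1
    · have h1 := er_le (C := Cs) hw6
      have hA4' : Cd * (s : ℝ) * (Cs * (Cm * s) * (2 * (2 : ℝ) ^ (-(A : ℝ) / Cs))) ≤ ε1 / 20 := hA4
      refine le_trans ?_ hA4'
      gcongr
    · intro θ' M' h1 h2
      exact hv1 M hM6 r hr hcop θ' M' h1 h2
    · have h2 : (0 : ℝ) < Cd * s + 1 := by positivity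
      have : (Cd * s + 1) * (4 * (ε1 / (160 * (Cd * s + 1)))) = ε1 / 40 := by field_simp; norm_num
      rw [this]
    · intro j hj b0 hb0 hb0c
      by_contra hcon
      rw [not_le] at hcon
      obtain ⟨hcfg, hTB⟩ := cfg_of (j := j) (H := H') (T := T) hW hr hcop hb0 hb0c hyW hyw hH'sub
        (by omega) (hjs j hj) hT
      have hB : rt (s * s1) M ^ (K * A') ≤ rt s M * 2 ^ j :=
        hpow.trans (Nat.le_mul_of_pos_right _ (by positivity))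
      have h3 := hst (rt (s * s1) M) (rt s M * 2 ^ j) M r b0 _ H' hy0 hcfg hB hTB
        (βj (rt s M) j) (ug W r M (rt s M)) cc θ (betaOK_βj hyz)
        (ug_maj hκ1' hr hM0 hyz (hmajo2 M hM3)) (ug_supp _ _ _ _) hcc hcon.le
      exact few_pairs hc hW1 (by omega) hH'sub hfew h3
  have hfin : ∑ h ∈ H', ‖a h‖ + ∑ i ∈ I, ∑ h ∈ Pc i, ‖a h‖ ≤ ε1 * M ^ 2 := by
    have : 0 ≤ ε1 * (M : ℝ) ^ 2 := by positivity
    linarith
  refine hfin.trans ?_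
  have : ε1 ≤ ε := min_le_left _ _
  gcongr

end Pool.Agent.Lib.H18GB
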