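import Pool.Agent.Lib.H18GB.STdefs
import Pool.Agent.Lib.H18GB.Pntl

/-!
# Project GB: auxiliary lemmas for the assembly of U
-/

namespace Pool.Agent.Lib.H18GB

open Finset Pool.Agent.Lib.Sieve

/-- the twisted correlation sum -/
noncomputable def Sfg (M : ℕ) (H : Finset ℤ) (c : ℤ → ℂ) (θ : ℤ → ℝ) (f g : ℤ → ℂ) : ℂ :=
  ∑ h ∈ H, c h * ∑ n ∈ Finset.Ico (0 : ℤ) M, f n * g (n + h) * e (θ h * n)

theorem Sfg_congr {M : ℕ} {H : Finset ℤ} {c : ℤ → ℂ} {θ : ℤ → ℝ} {f f' g : ℤ → ℂ}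
    (h : ∀ n ∈ Finset.Ico (0 : ℤ) M, f n = f' n) : Sfg M H c θ f g = Sfg M H c θ f' g := by
  unfold Sfg
  refine Finset.sum_congr rfl fun i _ => ?_
  congr 1
  exact Finset.sum_congr rfl fun n hn => by rw [h n hn]

theorem Sfg_add (M : ℕ) (H : Finset ℤ) (c : ℤ → ℂ) (θ : ℤ → ℝ) (f f' g : ℤ → ℂ) :
    Sfg M H c θ (fun n => f n + f' n) g = Sfg M H c θ f g + Sfg M H c θ f' g := by
  unfold Sfg
  rw [← Finset.sum_add_distrib]
  refine Finset.sum_congr rfl fun i _ => ?_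
  rw [← mul_add, ← Finset.sum_add_distrib]
  congr 1
  exact Finset.sum_congr rfl fun n _ => by ring

theorem Sfg_const_mul (M : ℕ) (H : Finset ℤ) (c : ℤ → ℂ) (θ : ℤ → ℝ) (a : ℂ) (f g : ℤ → ℂ) :
    Sfg M H c θ (fun n => a * f n) g = a * Sfg M H c θ f g := by
  unfold Sfg
  rw [Finset.mul_sum]
  refine Finset.sum_congr rfl fun i _ => ?_
  rw [mul_left_comm]
  congr 1
  rw [Finset.mul_sum]
  exact Finset.sum_congr rfl fun n _ => by ring

theorem Sfg_sum {ι : Type*} (s : Finset ι) (M : ℕ) (H : Finset ℤ) (c : ℤ → ℂ) (θ : ℤ → ℝ)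
    (f : ι → ℤ → ℂ) (g : ℤ → ℂ) :
    Sfg M H c θ (fun n => ∑ i ∈ s, f i n) g = ∑ i ∈ s, Sfg M H c θ (f i) g := by
  unfold Sfg
  rw [Finset.sum_comm]
  refine Finset.sum_congr rfl fun i _ => ?_
  rw [← Finset.mul_sum, Finset.sum_comm]
  congr 1
  refine Finset.sum_congr rfl fun n _ => ?_
  rw [Finset.sum_mul, Finset.sum_mul]

theorem Sfg_sub_right (M : ℕ) (H : Finset ℤ) (c : ℤ → ℂ) (θ : ℤ → ℝ) (f g g' : ℤ → ℂ) :
    Sfg M H c θ f g = Sfg M H c θ f g' + Sfg M H c θ f (fun n => g n - g' n) := by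
  unfold Sfg
  rw [← Finset.sum_add_distrib]
  refine Finset.sum_congr rfl fun i _ => ?_
  rw [← mul_add, ← Finset.sum_add_distrib]
  congr 1
  exact Finset.sum_congr rfl fun n _ => by ring

/-- trivial bound -/
theorem Sfg_le_l1 {M : ℕ} {H : Finset ℤ} {c : ℤ → ℂ} {θ : ℤ → ℝ} {f g : ℤ → ℂ}
    (hc : ∀ h, ‖c h‖ ≤ 1) (hg : SuppIn 0 M g) :
    ‖Sfg M H c θ f g‖ ≤
      (∑ n ∈ Finset.Ico (0 : ℤ) M, ‖f n‖) * ∑ n ∈ Finset.Ico (0 : ℤ) M, ‖g n‖ := by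
  unfold Sfg
  calc ‖∑ h ∈ H, c h * ∑ n ∈ Finset.Ico (0 : ℤ) M, f n * g (n + h) * e (θ h * n)‖
      ≤ ∑ h ∈ H, ∑ n ∈ Finset.Ico (0 : ℤ) M, ‖f n‖ * ‖g (n + h)‖ := by
        refine (norm_sum_le _ _).trans (Finset.sum_le_sum fun h _ => ?_)
        rw [norm_mul]
        refine (mul_le_of_le_one_left (norm_nonneg _) (hc h)).trans ?_
        refine (norm_sum_le _ _).trans (Finset.sum_le_sum fun n _ => ?_)
        rw [norm_mul, norm_mul, norm_e, mul_one]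
    _ = ∑ n ∈ Finset.Ico (0 : ℤ) M, ‖f n‖ * ∑ h ∈ H, ‖g (n + h)‖ := by
        rw [Finset.sum_comm]
        exact Finset.sum_congr rfl fun n _ => by rw [Finset.mul_sum]
    _ ≤ ∑ n ∈ Finset.Ico (0 : ℤ) M, ‖f n‖ * ∑ m ∈ Finset.Ico (0 : ℤ) M, ‖g m‖ := by
        refine Finset.sum_le_sum fun n _ => mul_le_mul_of_nonneg_left ?_ (norm_nonneg _)
        have h1 : ∑ h ∈ H, ‖g (n + h)‖ = ∑ m ∈ H.map (addLeftEmbedding n), ‖g m‖ := by
          rw [Finset.sum_map]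
          rfl
        rw [h1]
        have h2 : ∑ m ∈ H.map (addLeftEmbedding n), ‖g m‖ =
            ∑ m ∈ (H.map (addLeftEmbedding n)).filter (fun m => m ∈ Finset.Ico (0 : ℤ) M), ‖g m‖ := by
          rw [Finset.sum_filter_of_ne]
          intro m _ hm
          by_contra h
          exact hm (by rw [hg m h, norm_zero])
        rw [h2]
        exact Finset.sum_le_sum_of_subset_of_nonneg
          (fun m hm => (Finset.mem_filter.mp hm).2) fun _ _ _ => norm_nonneg _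
    _ = _ := by rw [Finset.sum_mul]

end Pool.Agent.Lib.H18GB
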