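import Pool.Agent.Lib.H18GB.UAux
import Pool.Agent.Lib.H18GB.Majo
import Pool.Agent.Lib.H18GB.Dec

/-!
# Project GB: auxiliary lemmas for the assembly of U, second part
-/

namespace Pool.Agent.Lib.H18GB

open Finset Filter Pool.Agent.Lib.Sieve

theorem rt_le_self {s : ℕ} (hs : 1 ≤ s) (M : ℕ) : rt s M ≤ M := by
  rcases Nat.eq_zero_or_pos (rt s M) with h | h
  · omega
  · calc rt s M = rt s M ^ 1 := (pow_one _).symm
      _ ≤ rt s M ^ s := Nat.pow_le_pow_right h hs
      _ ≤ M := rt_pow_le hs M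

/-- `φ(W)/W * VV * log M ≤ C s` -/
theorem kap_bound : ∃ C : ℝ, 1 ≤ C ∧ ∀ s : ℕ, 1 ≤ s → ∀ w W : ℕ, IsW w W → ∃ M0 : ℕ, ∀ M : ℕ,
    M0 ≤ M → (Nat.totient W / W : ℝ) * VV (sprimes w (rt s M)) * Real.log M ≤ C * s := by
  obtain ⟨C, hC, h⟩ := majo
  refine ⟨C, hC, fun s hs w W hW => ?_⟩
  obtain ⟨M0, hM0⟩ := h s hs w W hW
  refine ⟨max M0 1, fun M hM => ?_⟩
  have hM1 : 1 ≤ M := le_trans (le_max_right _ _) hM
  obtain ⟨p, hp, hMp, hp2⟩ := Nat.exists_prime_lt_and_le_two_mul M (by omega)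
  have hW1 : (1 : ℤ) ≤ W := by exact_mod_cast hW.1
  have hle : |(p : ℤ)| ≤ 5 * W * M := by
    rw [abs_of_nonneg (by positivity)]
    have : (p : ℤ) ≤ 2 * M := by exact_mod_cast hp2
    nlinarith [hM1]
  have hlt : (rt s M : ℤ) < |(p : ℤ)| := by
    rw [abs_of_nonneg (by positivity)]
    exact_mod_cast (rt_le_self hs M).trans_lt hMp
  have key := hM0 M (le_trans (le_max_left _ _) hM) p hle hlt
  have hS := pset_sprimes w (rt s M)
  have hr : Rgh (sprimes w (rt s M)) (p : ℤ) := by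
    intro q hq hd
    obtain ⟨h1, h2, h3⟩ := hS q hq
    have := (Nat.prime_dvd_prime_iff_eq h1 hp).mp (Int.natCast_dvd_natCast.mp hd)
    have := rt_le_self hs M
    omega
  have hV := VV_pos hS.prime
  rw [lamv, if_pos (by simpa using hp), rho, if_pos hr] at key
  simp only [Int.natAbs_natCast] at key
  have hlog : Real.log M ≤ Real.log p :=
    Real.log_le_log (by exact_mod_cast hM1) (by exact_mod_cast hMp.le)
  have h0 : (0 : ℝ) ≤ (Nat.totient W / W : ℝ) := by positivity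
  calc (Nat.totient W / W : ℝ) * VV (sprimes w (rt s M)) * Real.log M
      ≤ (Nat.totient W / W : ℝ) * VV (sprimes w (rt s M)) * Real.log p := by gcongr
    _ = ((Nat.totient W / W : ℝ) * Real.log p) * VV (sprimes w (rt s M)) := by ring
    _ ≤ (C * s * (VV (sprimes w (rt s M)))⁻¹) * VV (sprimes w (rt s M)) := by gcongr
    _ = C * s := by field_simp

/-- truncated `uc` -/
noncomputable def ug (W : ℕ) (r : ℤ) (M z : ℕ) (n : ℤ) : ℂ :=
  if (z : ℤ) < |r + W * n| then uc W r M n else 0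

theorem ug_supp (W : ℕ) (r : ℤ) (M z : ℕ) : SuppIn 0 M (ug W r M z) := by
  intro n hn
  unfold ug uc
  rw [Finset.mem_Ico] at hn
  split_ifs <;> simp_all

theorem norm_ug_le (W : ℕ) (r : ℤ) (M z : ℕ) (n : ℤ) : ‖ug W r M z n‖ ≤ ‖uc W r M n‖ := by
  unfold ug
  split_ifs <;> simp

theorem abs_uu_le_log {W : ℕ} (hW : 0 < W) {r n : ℤ} {z : ℕ} (h : |r + W * n| ≤ z) :
    |uu W r n| ≤ 1 + z := by
  unfold uu lam lamv
  split_ifs with hp
  · have h1 : (r + W * n).natAbs ≤ z := by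
      zify
      exact h
    have h2 : Real.log (r + W * n).natAbs ≤ z := by
      calc Real.log (r + W * n).natAbs ≤ (r + W * n).natAbs - 1 :=
            Real.log_le_sub_one_of_pos (by exact_mod_cast hp.pos)
        _ ≤ z := by
            have : ((r + W * n).natAbs : ℝ) ≤ z := by exact_mod_cast h1
            linarith
    have h3 : 0 ≤ Real.log (r + W * n).natAbs :=
      Real.log_nonneg (by exact_mod_cast hp.one_lt.le)
    have h4 : (Nat.totient W / W : ℝ) ≤ 1 := by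
      rw [div_le_one (by exact_mod_cast hW)]
      exact_mod_cast Nat.totient_le W
    have h5 : (0 : ℝ) ≤ (Nat.totient W / W : ℝ) := by positivity
    rw [abs_le]
    constructor
    · nlinarith [mul_nonneg h5 h3, (Nat.cast_nonneg z : (0 : ℝ) ≤ z)]
    · nlinarith [mul_nonneg h5 h3, (Nat.cast_nonneg z : (0 : ℝ) ≤ z)]
  · simp

theorem card_small_le {W : ℕ} (hW : 0 < W) (r : ℤ) (M z : ℕ) :
    (((Finset.Ico (0 : ℤ) M).filter fun n => |r + W * n| ≤ z).card : ℝ) ≤ 2 * z + 1 := by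
  have hinj : Set.InjOn (fun n : ℤ => r + W * n)
      ((Finset.Ico (0 : ℤ) M).filter fun n => |r + W * n| ≤ z) := by
    intro a _ b _ hab
    have : (W : ℤ) * a = W * b := by simpa using hab
    exact mul_left_cancel₀ (by exact_mod_cast hW.ne') this
  have h1 := Finset.card_image_of_injOn hinj
  rw [← h1]
  have h2 : (((Finset.Ico (0 : ℤ) M).filter fun n => |r + W * n| ≤ z).image
      fun n : ℤ => r + W * n) ⊆ Finset.Icc (-(z : ℤ)) z := by
    intro v hv
    obtain ⟨n, hn, rfl⟩ := Finset.mem_image.mp hv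
    rw [Finset.mem_Icc]
    exact abs_le.mp (Finset.mem_filter.mp hn).2
  have h3 := Finset.card_le_card h2
  rw [Int.card_Icc] at h3
  have h4 : ((z : ℤ) + 1 - -(z : ℤ)).toNat = 2 * z + 1 := by omega
  rw [h4] at h3
  exact_mod_cast h3

theorem sum_trunc_le {W : ℕ} (hW : 0 < W) (r : ℤ) (M z : ℕ) :
    ∑ n ∈ Finset.Ico (0 : ℤ) M, ‖uc W r M n - ug W r M z n‖ ≤ (2 * z + 1) * (1 + z) := by
  have h1 : ∀ n ∈ Finset.Ico (0 : ℤ) M, ‖uc W r M n - ug W r M z n‖ ≤
      if |r + W * n| ≤ z then (1 + z : ℝ) else 0 := by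
    intro n hn
    unfold ug
    split_ifs with h2 h3 h3
    · omega
    · simp
    · rw [sub_zero, uc, if_pos (Finset.mem_Ico.mp hn), Complex.norm_real]
      exact abs_uu_le_log hW h3
    · omega
  refine (Finset.sum_le_sum h1).trans ?_
  rw [← Finset.sum_filter, Finset.sum_const, nsmul_eq_mul]
  exact mul_le_mul_of_nonneg_right (card_small_le hW r M z) (by positivity)

theorem norm_uc_sum (W : ℕ) (r : ℤ) (M : ℕ) :
    ∑ n ∈ Finset.Ico (0 : ℤ) M, ‖uc W r M n‖ = ∑ n ∈ Finset.Ico (0 : ℤ) M, |uu W r n| := by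
  refine Finset.sum_congr rfl fun n hn => ?_
  rw [uc, if_pos (Finset.mem_Ico.mp hn), Complex.norm_real, Real.norm_eq_abs]

/-- majorant of the truncated function -/
theorem ug_maj {W w : ℕ} {r : ℤ} {M z y : ℕ} {κ : ℝ} (hκ : 1 ≤ κ) (hr : |r| < 2 * W)
    (hM : 2 ≤ M) (hyz : y ≤ z)
    (h : ∀ v : ℤ, |v| ≤ 5 * W * M → (y : ℤ) < |v| → lamv W v ≤ κ * rho (sprimes w y) v) :
    Maj κ (sprimes w y) W r (ug W r M z) := by
  intro n
  have h0 := rho_nonneg (pset_sprimes w y).prime (r + W * n)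
  unfold ug uc
  split_ifs with h1 h2
  · rw [Complex.norm_real, Real.norm_eq_abs]
    have hv : |r + W * n| ≤ 5 * W * M := by
      have h3 := abs_add_le r (W * n)
      rw [abs_mul, abs_of_nonneg (by positivity : (0 : ℤ) ≤ W), abs_of_nonneg h2.1] at h3
      have h4 : (W : ℤ) * n ≤ W * M := mul_le_mul_of_nonneg_left h2.2.le (by positivity)
      have h5 : (2 : ℤ) * W ≤ M * W := mul_le_mul_of_nonneg_right (by exact_mod_cast hM) (by positivity)
      nlinarith
    have h6 := h _ hv (lt_of_le_of_lt (by exact_mod_cast hyz) h1)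
    have h7 : 0 ≤ lamv W (r + W * n) := by
      unfold lamv
      split_ifs with hp
      · exact mul_nonneg (by positivity) (Real.log_nonneg (by exact_mod_cast hp.one_lt.le))
      · exact le_rfl
    unfold uu lam
    rw [abs_le]
    constructor <;> nlinarith
  · rw [norm_zero]; nlinarith
  · rw [norm_zero]; nlinarith

/-- interval sums of `uc` from prefix sums of `uu` -/
theorem shift_sum_le {W : ℕ} {r : ℤ} {M : ℕ} {b : ℝ}
    (hv : ∀ θ : ℝ, ∀ M' : ℤ, 0 ≤ M' → M' ≤ M →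
      ‖∑ n ∈ Finset.Ico (0 : ℤ) M', (uu W r n : ℂ) * e (θ * n)‖ ≤ b)
    (h : ℤ) (hh : h ∈ Finset.Ioo (-(M : ℤ)) M) (θ : ℝ) :
    ‖∑ n ∈ Finset.Ico (0 : ℤ) M, uc W r M (n + h) * e (θ * n)‖ ≤ 2 * b := by
  rw [Finset.mem_Ioo] at hh
  have hb : 0 ≤ b := (norm_nonneg _).trans (hv 0 0 le_rfl (by positivity))
  -- reindex
  have h1 : ∑ n ∈ Finset.Ico (0 : ℤ) M, uc W r M (n + h) * e (θ * n) =
      e (-(θ * h)) * ∑ m ∈ Finset.Ico (max 0 h) (min (M : ℤ) (M + h)),
        (uu W r m : ℂ) * e (θ * m) := by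
    have h2 : ∑ n ∈ Finset.Ico (0 : ℤ) M, uc W r M (n + h) * e (θ * n) =
        ∑ m ∈ Finset.Ico (0 + h) (M + h), uc W r M m * e (θ * (m - h)) := by
      rw [← Finset.map_add_right_Ico, Finset.sum_map]
      refine Finset.sum_congr rfl fun n _ => ?_
      simp only [addRightEmbedding_apply]
      congr 2
      push_cast
      ring
    rw [h2, Finset.mul_sum]
    have h3 : Finset.Ico (max 0 h) (min (M : ℤ) (M + h)) ⊆ Finset.Ico (0 + h) (M + h) := by
      intro m hm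
      rw [Finset.mem_Ico] at hm ⊢
      omega
    rw [← Finset.sum_subset h3]
    · refine Finset.sum_congr rfl fun m hm => ?_
      rw [Finset.mem_Ico] at hm
      rw [uc, if_pos (by omega)]
      have : θ * ((m : ℝ) - h) = -(θ * h) + θ * m := by ring
      rw [this, e_add]
      ring
    · intro m hm hm2
      rw [Finset.mem_Ico] at hm hm2
      rw [uc, if_neg (by omega), zero_mul]
  rw [h1, norm_mul, norm_e, one_mul]
  have h4 : ∑ m ∈ Finset.Ico (max 0 h) (min (M : ℤ) (M + h)), (uu W r m : ℂ) * e (θ * m) =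
      ∑ m ∈ Finset.Ico 0 (min (M : ℤ) (M + h)), (uu W r m : ℂ) * e (θ * m) -
      ∑ m ∈ Finset.Ico 0 (max 0 h), (uu W r m : ℂ) * e (θ * m) := by
    rw [eq_sub_iff_add_eq, add_comm, ← Finset.sum_union
      (Finset.Ico_disjoint_Ico_consecutive _ _ _),
      Finset.Ico_union_Ico_eq_Ico (by omega) (by omega)]
  rw [h4]
  refine (norm_sub_le _ _).trans ?_
  have h5 := hv θ (min (M : ℤ) (M + h)) (by omega) (by omega)
  have h6 := hv θ (max 0 h) (by omega) (by omega)
  linarith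

end Pool.Agent.Lib.H18GB
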