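import Pool.Agent.Lib.H18GB.Pntl

/-!
# Project GB: V1MAJ
-/

namespace Pool.Agent.Lib.H18GB

open Finset Pool.Agent.Lib.Sieve

private theorem norm_e_sub_one_le (x : ℝ) : ‖e x - 1‖ ≤ 2 * Real.pi * |x| := by
  have h := Real.norm_exp_I_mul_ofReal_sub_one_le (x := 2 * Real.pi * x)
  have h1 : e x = Complex.exp (Complex.I * ((2 * Real.pi * x : ℝ) : ℂ)) := by
    unfold e
    congr 1
    push_cast
    ring
  rw [h1]
  refine h.trans (le_of_eq ?_)
  rw [Real.norm_eq_abs, abs_mul, abs_of_pos (by positivity)]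

private theorem norm_e_sub_le (x y : ℝ) : ‖e x - e y‖ ≤ 2 * Real.pi * |x - y| := by
  have h : e x - e y = e y * (e (x - y) - 1) := by
    rw [mul_sub, mul_one, ← e_add]
    congr 2
    ring
  rw [h, norm_mul, norm_e, one_mul]
  exact norm_e_sub_one_le _

private theorem abel_id (g : ℕ → ℂ) (β : ℝ) (K : ℕ) :
    ∑ i ∈ Finset.range K, g i * e (β * i) = (∑ i ∈ Finset.range K, g i) * e (β * K) -
      ∑ j ∈ Finset.range K, (∑ i ∈ Finset.range (j + 1), g i) *
        (e (β * ((j + 1 : ℕ) : ℝ)) - e (β * j)) := by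
  induction K with
  | zero => simp
  | succ K ih =>
    rw [Finset.sum_range_succ, ih, Finset.sum_range_succ (n := K)
      (f := fun j => (∑ i ∈ Finset.range (j + 1), g i) *
        (e (β * ((j + 1 : ℕ) : ℝ)) - e (β * j))), Finset.sum_range_succ (n := K) (f := g)]
    ring

private theorem abel_bound (g : ℕ → ℂ) (β B : ℝ) (K : ℕ)
    (h : ∀ j ≤ K, ‖∑ i ∈ Finset.range j, g i‖ ≤ B) :
    ‖∑ i ∈ Finset.range K, g i * e (β * i)‖ ≤ B * (1 + 2 * Real.pi * |β| * K) := by
  have hB : 0 ≤ B := (norm_nonneg _).trans (h 0 (Nat.zero_le _))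
  rw [abel_id]
  refine (norm_sub_le _ _).trans ?_
  rw [norm_mul, norm_e, mul_one, mul_add, mul_one]
  refine add_le_add (h K le_rfl) ?_
  refine (norm_sum_le _ _).trans ?_
  have h1 : ∀ j ∈ Finset.range K, ‖(∑ i ∈ Finset.range (j + 1), g i) *
        (e (β * ((j + 1 : ℕ) : ℝ)) - e (β * j))‖ ≤ B * (2 * Real.pi * |β|) := by
    intro j hj
    rw [norm_mul]
    refine mul_le_mul (h _ (Finset.mem_range.mp hj)) ?_ (norm_nonneg _) hB
    refine (norm_e_sub_le _ _).trans (le_of_eq ?_)
    congr 2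
    push_cast
    ring
  refine (Finset.sum_le_sum h1).trans (le_of_eq ?_)
  rw [Finset.sum_const, Finset.card_range, nsmul_eq_mul]
  ring

private theorem sum_range_mul (f : ℕ → ℂ) (D K : ℕ) :
    ∑ n ∈ Finset.range (D * K), f n =
      ∑ n0 ∈ Finset.range D, ∑ k ∈ Finset.range K, f (n0 + D * k) := by
  induction K with
  | zero => simp
  | succ K ih =>
    rw [mul_add, mul_one, Finset.sum_range_add, ih, ← Finset.sum_add_distrib]
    apply Finset.sum_congr rfl
    intro n0 _
    rw [Finset.sum_range_succ]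
    congr 2
    ring

private theorem totient_ratio (W D : ℕ) (hW : 0 < W) (hD : 0 < D)
    (h : ∀ p : ℕ, p.Prime → p ∣ D → p ∣ W) :
    (Nat.totient (W * D) / (W * D : ℕ) : ℝ) = Nat.totient W / W := by
  have h1 := Nat.totient_eq_mul_prod_factors (W * D)
  have h2 := Nat.totient_eq_mul_prod_factors W
  have h3 : (W * D).primeFactors = W.primeFactors := by
    ext p
    simp only [Nat.mem_primeFactors]
    constructor
    · rintro ⟨hp, hd, _⟩
      refine ⟨hp, ?_, hW.ne'⟩
      rcases hp.dvd_mul.mp hd with h' | h'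
      · exact h'
      · exact h p hp h'
    · rintro ⟨hp, hd, _⟩
      exact ⟨hp, Dvd.dvd.mul_right hd D, (Nat.mul_pos hW hD).ne'⟩
  rw [h3] at h1
  have hW' : (W : ℚ) ≠ 0 := by exact_mod_cast hW.ne'
  have hD' : (D : ℚ) ≠ 0 := by exact_mod_cast hD.ne'
  have h4 : (Nat.totient (W * D) / (W * D : ℕ) : ℚ) = Nat.totient W / W := by
    rw [h1, h2]
    push_cast
    field_simp
  have h5 := congrArg (fun x : ℚ => (x : ℝ)) h4
  simpa using h5

private theorem uu_sub (W D : ℕ) (hW : 0 < W) (hD : 0 < D)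
    (h : ∀ p : ℕ, p.Prime → p ∣ D → p ∣ W) (r n0 k : ℤ) :
    uu W r (n0 + D * k) = uu (W * D) (r + W * n0) k := by
  unfold uu lam lamv
  have e1 : r + W * (n0 + D * k) = r + W * n0 + ((W * D : ℕ) : ℤ) * k := by
    push_cast; ring
  rw [e1, totient_ratio W D hW hD h]

/-- Chunk V1MAJ (major arcs). `q W θ = a + O(Q W / M)`, so `θ = a / (q W) + β0`,
`|β0| ≤ Q / M`. Split `n = n0 + q W n'`, `0 ≤ n0 < q W`: `e(θ n) = e(θ n0) e(β0 q W n')` and
`uu W r n = uu (q W^2) (r + W n0) n'` (since `φ(q W^2)/(q W^2) = φ(W)/W`, the primes of `q` dividing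
`W`); Abel summation and `pntlam` for the modulus `q W^2`. -/
theorem v1maj (W Q : ℕ) (hW : 0 < W) (δ : ℝ) (hδ : 0 < δ) : ∃ M0 : ℕ, ∀ M : ℕ, M0 ≤ M →
    ∀ r : ℤ, |r| < 2 * W → IsCoprime r (W : ℤ) → ∀ q : ℕ, 1 ≤ q → q ≤ Q →
    (∀ p : ℕ, p.Prime → p ∣ q → p ∣ W) → ∀ θ : ℝ, nr (q * (W * θ)) ≤ Q * W / M →
    ∀ M' : ℤ, 0 ≤ M' → M' ≤ M →
    ‖∑ n ∈ Finset.Ico (0 : ℤ) M', (uu W r n : ℂ) * e (θ * n)‖ ≤ δ * M := by
  -- the thresholds
  set δ' : ℝ := δ / ((Q * W + 1) * (1 + 2 * Real.pi * (2 * Q * W))) with hδ'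
  have hden : 0 < ((Q : ℝ) * W + 1) * (1 + 2 * Real.pi * (2 * Q * W)) := by positivity
  have hδ'pos : 0 < δ' := div_pos hδ hden
  have hP : ∀ q : ℕ, ∃ M0 : ℕ, 1 ≤ q → ∀ M : ℕ, M0 ≤ M →
      ∀ r : ℤ, |r| < 2 * ((W * (q * W) : ℕ) : ℤ) → IsCoprime r ((W * (q * W) : ℕ) : ℤ) →
      ∀ M' : ℤ, 0 ≤ M' → M' ≤ M →
      |∑ n ∈ Finset.Ico (0 : ℤ) M', uu (W * (q * W)) r n| ≤ δ' * M := by
    intro q
    by_cases hq : 1 ≤ q
    · obtain ⟨M0, h⟩ := pntlam (W * (q * W)) (by positivity) δ' hδ'pos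
      exact ⟨M0, fun _ => h⟩
    · exact ⟨0, fun h => absurd h hq⟩
  choose F hF using hP
  refine ⟨(∑ q ∈ Finset.range (Q + 1), F q) + Q * W + 1, ?_⟩
  intro M hM r hr hc q hq1 hqQ hqW θ hθ M' hM'0 hM'M
  have hFq : F q ≤ M := by
    have : F q ≤ ∑ q ∈ Finset.range (Q + 1), F q :=
      Finset.single_le_sum (f := F) (fun _ _ => Nat.zero_le _) (Finset.mem_range.mpr (by omega))
    omega
  have hDM : q * W ≤ M := by
    have : q * W ≤ Q * W := Nat.mul_le_mul_right _ hqQ
    omega
  have hM0 : 0 < M := by omega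
  have hMpos : (0 : ℝ) < M := by exact_mod_cast hM0
  obtain ⟨D, hD⟩ : ∃ D, D = q * W := ⟨_, rfl⟩
  have hDpos : 0 < D := by rw [hD]; exact Nat.mul_pos hq1 hW
  have hDW : ∀ p : ℕ, p.Prime → p ∣ D → p ∣ W := by
    intro p hp hpd
    rw [hD] at hpd
    rcases hp.dvd_mul.mp hpd with h | h
    · exact hqW p hp h
    · exact h
  have hDr : (0 : ℝ) < D := by exact_mod_cast hDpos
  -- the frequency
  set a : ℤ := round (q * (W * θ)) with ha
  set β : ℝ := θ - a / D with hβ
  have hβD : |β * D| ≤ Q * W / M := by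
    have h1 : β * D = q * (W * θ) - a := by
      rw [hβ, sub_mul, div_mul_cancel₀ _ hDr.ne', hD]
      push_cast
      ring
    rw [h1]
    exact hθ
  obtain ⟨m, rfl⟩ := Int.eq_ofNat_of_zero_le hM'0
  have hmM : m ≤ M := by exact_mod_cast hM'M
  -- from integers to naturals
  have e1 : ∑ n ∈ Finset.Ico (0 : ℤ) (m : ℕ), (uu W r n : ℂ) * e (θ * n) =
      ∑ n ∈ Finset.range m, (uu W r n : ℂ) * e (θ * n) := by
    rw [← Nat.Ico_zero_eq_range]
    symm
    refine Finset.sum_bij (fun (n : ℕ) _ => (n : ℤ)) ?_ ?_ ?_ ?_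
    · intro n hn
      rw [Finset.mem_Ico] at hn ⊢
      exact ⟨by positivity, by exact_mod_cast hn.2⟩
    · intro x _ y _ hxy
      exact_mod_cast hxy
    · intro z hz
      rw [Finset.mem_Ico] at hz
      obtain ⟨k, rfl⟩ := Int.eq_ofNat_of_zero_le hz.1
      exact ⟨k, Finset.mem_Ico.mpr ⟨Nat.zero_le _, by exact_mod_cast hz.2⟩, rfl⟩
    · intro n _
      push_cast
      rfl
  rw [e1]
  -- truncated sum
  set f : ℕ → ℂ := fun n => if n < m then (uu W r n : ℂ) * e (θ * n) else 0 with hf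
  have e2 : ∑ n ∈ Finset.range m, (uu W r n : ℂ) * e (θ * n) =
      ∑ n ∈ Finset.range (D * M), f n := by
    have hsub : Finset.range m ⊆ Finset.range (D * M) := by
      intro x hx
      rw [Finset.mem_range] at hx ⊢
      have : 1 * M ≤ D * M := Nat.mul_le_mul_right _ hDpos
      omega
    rw [← Finset.sum_subset hsub]
    · apply Finset.sum_congr rfl
      intro n hn
      rw [hf]
      simp only
      rw [if_pos (Finset.mem_range.mp hn)]
    · intro n _ hn
      rw [hf]
      simp only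
      rw [if_neg (fun h => hn (Finset.mem_range.mpr h))]
  rw [e2, sum_range_mul]
  -- one residue class
  have hcls : ∀ n0 ∈ Finset.range D, ‖∑ k ∈ Finset.range M, f (n0 + D * k)‖ ≤
      δ' * M * (1 + 2 * Real.pi * (2 * Q * W)) := by
    intro n0 hn0
    rw [Finset.mem_range] at hn0
    set K : ℕ := (m - n0 + D - 1) / D with hK
    have hiff : ∀ k : ℕ, n0 + D * k < m ↔ k < K := by
      intro k
      rw [hK, Nat.lt_iff_add_one_le (m := k), Nat.le_div_iff_mul_le hDpos]
      have : (k + 1) * D = D * k + D := by ring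
      rw [this]
      constructor
      · intro h; omega
      · intro h; omega
    have hKM : K ≤ M := by
      by_contra hcon
      have h1 := (hiff M).mpr (by omega)
      have h2 : 1 * M ≤ D * M := Nat.mul_le_mul_right _ hDpos
      omega
    have hKD : (K : ℝ) * D ≤ 2 * M := by
      have h1 : K * D ≤ m - n0 + D - 1 := Nat.div_mul_le_self _ _
      have h2 : K * D ≤ 2 * M := by
        have : D ≤ M := by rw [hD]; exact hDM
        omega
      exact_mod_cast h2
    have e3 : ∑ k ∈ Finset.range M, f (n0 + D * k) =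
        e (θ * n0) * ∑ k ∈ Finset.range K,
          ((uu (W * D) (r + W * n0) k : ℝ) : ℂ) * e (β * D * k) := by
      rw [Finset.mul_sum]
      have hsub : Finset.range K ⊆ Finset.range M := Finset.range_subset_range.mpr hKM
      rw [← Finset.sum_subset hsub]
      · apply Finset.sum_congr rfl
        intro k hk
        rw [Finset.mem_range] at hk
        rw [hf]
        simp only
        rw [if_pos ((hiff k).mpr hk)]
        have h1 : uu W r ((n0 + D * k : ℕ) : ℤ) = uu (W * D) (r + W * n0) k := by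
          have := uu_sub W D hW hDpos hDW r n0 k
          rw [← this]
          congr 1
        rw [h1]
        have h2 : e (θ * ((n0 + D * k : ℕ) : ℝ)) = e (θ * n0) * e (β * D * k) := by
          rw [← e_add, ← e_add_int (θ * n0 + β * D * k) (a * k)]
          congr 1
          rw [hβ]
          push_cast
          field_simp
          ring
        rw [h2]
        ring
      · intro k _ hk
        rw [hf]
        simp only
        rw [if_neg (fun h => hk (Finset.mem_range.mpr ((hiff k).mp h)))]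
    rw [e3, norm_mul, norm_e, one_mul]
    refine (abel_bound _ (β * D) (δ' * M) K ?_).trans ?_
    · intro j hj
      have hbound := hF q hq1 M hFq (r + W * n0) (by
        have h1 := abs_lt.mp hr
        have h2 : (n0 : ℤ) + 1 ≤ D := by exact_mod_cast hn0
        have h3 : (W : ℤ) * (n0 + 1) ≤ W * D := mul_le_mul_of_nonneg_left h2 (by positivity)
        have h4 : (W : ℤ) * 1 ≤ W * D :=
          mul_le_mul_of_nonneg_left (by exact_mod_cast hDpos) (by positivity)
        have h5 : (0 : ℤ) ≤ W * n0 := by positivity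
        rw [← hD]
        push_cast
        rw [abs_lt]
        constructor <;> nlinarith) (by
        rw [← hD]
        have h1 : IsCoprime (r + W * n0) (W : ℤ) := IsCoprime.add_mul_left_left hc n0
        push_cast
        refine IsCoprime.mul_right h1 ?_
        rw [Int.isCoprime_iff_gcd_eq_one]
        by_contra hne
        obtain ⟨p, hp, hpd⟩ := Nat.exists_prime_and_dvd hne
        have h2 : (p : ℤ) ∣ r + W * n0 :=
          (Int.natCast_dvd_natCast.mpr hpd).trans (Int.gcd_dvd_left _ _)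
        have h3 : (p : ℤ) ∣ (D : ℤ) :=
          (Int.natCast_dvd_natCast.mpr hpd).trans (Int.gcd_dvd_right _ _)
        have h4 : p ∣ W := hDW p hp (Int.natCast_dvd_natCast.mp h3)
        have h5 : IsUnit (p : ℤ) := h1.isUnit_of_dvd' h2 (Int.natCast_dvd_natCast.mpr h4)
        rw [Int.isUnit_iff] at h5
        have h6 := hp.one_lt
        omega) j (by positivity) (by exact_mod_cast hj.trans hKM)
      rw [← hD] at hbound
      have e4 : ∑ i ∈ Finset.range j, ((uu (W * D) (r + W * n0) i : ℝ) : ℂ) =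
          ((∑ n ∈ Finset.Ico (0 : ℤ) (j : ℕ), uu (W * D) (r + W * n0) n : ℝ) : ℂ) := by
        rw [← Nat.Ico_zero_eq_range]
        push_cast
        refine Finset.sum_bij (fun (n : ℕ) _ => (n : ℤ)) ?_ ?_ ?_ ?_
        · intro n hn
          rw [Finset.mem_Ico] at hn ⊢
          exact ⟨by positivity, by exact_mod_cast hn.2⟩
        · intro x _ y _ hxy
          exact_mod_cast hxy
        · intro z hz
          rw [Finset.mem_Ico] at hz
          obtain ⟨k, rfl⟩ := Int.eq_ofNat_of_zero_le hz.1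
          exact ⟨k, Finset.mem_Ico.mpr ⟨Nat.zero_le _, by exact_mod_cast hz.2⟩, rfl⟩
        · intro n _
          rfl
      rw [e4, Complex.norm_real]
      exact hbound
    · refine mul_le_mul_of_nonneg_left ?_ (by positivity)
      have h1 : |β * D| * K ≤ 2 * Q * W := by
        have h2 : |β * D| * K ≤ Q * W / M * K := mul_le_mul_of_nonneg_right hβD (by positivity)
        have h3 : (K : ℝ) ≤ 2 * M := by
          have h4 : (1 : ℝ) ≤ D := by exact_mod_cast hDpos
          nlinarith [(Nat.cast_nonneg K : (0 : ℝ) ≤ K)]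
        refine h2.trans ?_
        rw [div_mul_eq_mul_div, div_le_iff₀ hMpos]
        have h5 : (0 : ℝ) ≤ Q * W := by positivity
        nlinarith
      have h6 : 2 * Real.pi * |β * D| * K = 2 * Real.pi * (|β * D| * K) := by ring
      rw [h6]
      have : 0 < 2 * Real.pi := by positivity
      nlinarith
  refine (norm_sum_le _ _).trans ((Finset.sum_le_sum hcls).trans ?_)
  rw [Finset.sum_const, Finset.card_range, nsmul_eq_mul]
  have h1 : (D : ℝ) ≤ Q * W + 1 := by
    have : D ≤ Q * W := by rw [hD]; exact Nat.mul_le_mul_right _ hqQ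
    have h2 : (D : ℝ) ≤ ((Q * W : ℕ) : ℝ) := by exact_mod_cast this
    push_cast at h2
    linarith
  have h2 : (D : ℝ) * (δ' * M * (1 + 2 * Real.pi * (2 * Q * W))) ≤
      (Q * W + 1) * (δ' * M * (1 + 2 * Real.pi * (2 * Q * W))) :=
    mul_le_mul_of_nonneg_right h1 (by positivity)
  refine h2.trans (le_of_eq ?_)
  rw [hδ']
  field_simp

end Pool.Agent.Lib.H18GB
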