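import Pool.Agent.Lib.H18GB.V1II
import Pool.Agent.Lib.H18GB.V1Maj
import Pool.Agent.Lib.H18GB.Dec

/-!
# Project GB: V1 (exponential sums over primes, no logarithm lost)
-/

namespace Pool.Agent.Lib.H18GB

open Finset Pool.Agent.Lib.Sieve

theorem v1_primeFactors {w W : ℕ} (hW : IsW w W) : W.primeFactors = primesUpTo w := by
  ext p
  rw [Nat.mem_primeFactors, mem_primesUpTo]
  constructor
  · rintro ⟨h1, h2, -⟩
    exact ⟨h1, (hW.2 p h1).mp h2⟩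
  · rintro ⟨h1, h2⟩
    exact ⟨h1, (hW.2 p h1).mpr h2, hW.1.ne'⟩

theorem v1_totient {w W : ℕ} (hW : IsW w W) :
    (Nat.totient W / W : ℝ) = ∏ p ∈ primesUpTo w, (1 - 1 / (p : ℝ)) := by
  have h := Nat.totient_eq_mul_prod_factors W
  rw [v1_primeFactors hW] at h
  have h' : ((Nat.totient W : ℚ) : ℝ) = ((W * ∏ p ∈ primesUpTo w, (1 - (p : ℚ)⁻¹) : ℚ) : ℝ) := by
    exact_mod_cast congrArg (fun x : ℚ => (x : ℝ)) h
  push_cast at h'
  have hWpos : (0 : ℝ) < W := by exact_mod_cast hW.1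
  rw [h', mul_div_cancel_left₀ _ hWpos.ne']
  refine Finset.prod_congr rfl fun p _ => ?_
  rw [one_div]

theorem v1_prod_split {w y : ℕ} (hwy : w ≤ y) (f : ℕ → ℝ) :
    ∏ p ∈ primesUpTo y, f p = (∏ p ∈ primesUpTo w, f p) * ∏ p ∈ sprimes w y, f p := by
  rw [← Finset.prod_union]
  · congr 1
    ext p
    rw [Finset.mem_union, mem_primesUpTo, mem_primesUpTo, mem_sprimes]
    constructor
    · rintro ⟨h1, h2⟩
      rcases le_or_gt p w with h | h
      · exact Or.inl ⟨h1, h⟩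
      · exact Or.inr ⟨h1, h, h2⟩
    · rintro (⟨h1, h2⟩ | ⟨h1, h2, h3⟩)
      · exact ⟨h1, h2.trans hwy⟩
      · exact ⟨h1, h3⟩
  · rw [Finset.disjoint_left]
    intro p h1 h2
    rw [mem_primesUpTo] at h1
    rw [mem_sprimes] at h2
    omega

/-- `φ(W)/W ∏_{w < p ≤ y} (1 - 1/p) ≤ 1 / log y` -/
theorem phi_mul_VV_le {w W y : ℕ} (hW : IsW w W) (hwy : w ≤ y) (hy : 2 ≤ y) :
    (Nat.totient W / W : ℝ) * VV (sprimes w y) ≤ 1 / Real.log y := by
  rw [v1_totient hW]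
  have h := prod_one_sub_inv_le y hy
  rw [v1_prod_split hwy] at h
  exact h

theorem v1_sum_class (W : ℕ) (hW : 0 < W) (r : ℤ) (P : Finset ℕ) (β : ℤ → ℂ) (n : ℤ)
    (hP : ∀ b ∈ P, Nat.Coprime W b) :
    fII W r P β n = ∑ b0 ∈ (Finset.range W).filter (Nat.Coprime W),
      fII W r (P.filter (fun b => b % W = b0)) β n := by
  unfold fII
  rw [← Finset.sum_fiberwise_of_maps_to (t := (Finset.range W).filter (Nat.Coprime W))
    (g := fun b => b % W)]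
  · refine Finset.sum_congr rfl fun b0 _ => ?_
    congr 1
    ext b
    simp only [Finset.mem_filter]
    tauto
  · intro b hb
    rw [Finset.mem_filter] at hb
    rw [Finset.mem_filter, Finset.mem_range]
    refine ⟨Nat.mod_lt _ hW, ?_⟩
    have := hP b hb.1
    rw [Nat.coprime_iff_gcd_eq_one] at this ⊢
    rw [Nat.gcd_comm, ← Nat.gcd_rec]
    exact this

theorem v1_pow_small (k Ce : ℕ) (hCe : 1 ≤ Ce) (η : ℝ) (hη : 0 < η) : ∃ N : ℕ, ∀ A : ℕ, N ≤ A →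
    (A : ℝ) ^ k * (2 : ℝ) ^ (-(A : ℝ) / Ce) ≤ η := by
  have hr0 : (0 : ℝ) ≤ (2 : ℝ) ^ (-(1 : ℝ) / Ce) := Real.rpow_nonneg (by norm_num) _
  have hCe' : (0 : ℝ) < Ce := by exact_mod_cast hCe
  have hr1 : (2 : ℝ) ^ (-(1 : ℝ) / Ce) < 1 := by
    apply Real.rpow_lt_one_of_one_lt_of_neg (by norm_num)
    rw [neg_div]
    have : 0 < 1 / (Ce : ℝ) := by positivity
    linarith
  have h := tendsto_pow_const_mul_const_pow_of_lt_one k hr0 hr1
  have h2 := (h.eventually (gt_mem_nhds hη))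
  obtain ⟨N, hN⟩ := Filter.eventually_atTop.mp h2
  refine ⟨N, fun A hA => ?_⟩
  have h3 := hN A hA
  have h4 : (2 : ℝ) ^ (-(A : ℝ) / Ce) = ((2 : ℝ) ^ (-(1 : ℝ) / Ce)) ^ A := by
    rw [← Real.rpow_natCast, ← Real.rpow_mul (by norm_num)]
    congr 1
    ring
  rw [h4]
  exact h3.le

theorem v1_w_small (Ce : ℕ) (hCe : 1 ≤ Ce) (η : ℝ) (hη : 0 < η) : ∃ N : ℕ, ∀ w : ℕ, N ≤ w →
    (w : ℝ) ^ (-(1 : ℝ) / Ce) ≤ η := by
  have hCe' : (0 : ℝ) < Ce := by exact_mod_cast hCe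
  have h1 : Filter.Tendsto (fun w : ℕ => (w : ℝ) ^ (-(1 / (Ce : ℝ)))) Filter.atTop (nhds 0) :=
    (tendsto_rpow_neg_atTop (by positivity)).comp tendsto_natCast_atTop_atTop
  have h2 := (h1.eventually (gt_mem_nhds hη))
  obtain ⟨N, hN⟩ := Filter.eventually_atTop.mp h2
  refine ⟨N, fun A hA => ?_⟩
  have h3 := hN A hA
  rw [neg_div]
  exact h3.le

theorem nr_natmul_le (k : ℕ) (x : ℝ) : nr (k * x) ≤ k * nr x := by
  have h := nr_le_abs_sub (k * x) (k * round x)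
  refine h.trans (le_of_eq ?_)
  unfold nr
  push_cast
  rw [← mul_sub, abs_mul, Nat.abs_cast]

theorem v1_norm_sum {ι : Type*} (s : Finset ι) (κ Λ : ℝ) (hκ : 0 ≤ κ) (hΛ : 0 ≤ Λ)
    (J : ℕ) (T : Finset ℕ) (u a b : ι → ℂ) (F : ℕ → ℕ → ι → ℂ) (er : ι → ℝ)
    (hb : ∀ n, ‖b n‖ ≤ 1)
    (hu : ∀ n ∈ s, u n = κ * a n + (κ - 1) - Λ * ∑ j ∈ Finset.range J, ∑ t ∈ T, F j t n + er n)
    (R1 R2 R3 R4 : ℝ) (h1 : ‖∑ n ∈ s, a n * b n‖ ≤ R1) (h2 : ‖∑ n ∈ s, b n‖ ≤ R2)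
    (h3 : ∀ j < J, ∀ t ∈ T, ‖∑ n ∈ s, F j t n * b n‖ ≤ R3) (h4 : ∑ n ∈ s, |er n| ≤ R4) :
    ‖∑ n ∈ s, u n * b n‖ ≤ κ * R1 + (κ + 1) * R2 + Λ * (J * (T.card * R3)) + R4 := by
  have e1 : ∑ n ∈ s, u n * b n = κ * ∑ n ∈ s, a n * b n + (κ - 1) * ∑ n ∈ s, b n -
      Λ * ∑ j ∈ Finset.range J, ∑ t ∈ T, ∑ n ∈ s, F j t n * b n + ∑ n ∈ s, er n * b n := by
    have e2 : ∑ j ∈ Finset.range J, ∑ t ∈ T, ∑ n ∈ s, F j t n * b n =
        ∑ n ∈ s, (∑ j ∈ Finset.range J, ∑ t ∈ T, F j t n) * b n := by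
      rw [Finset.sum_congr rfl fun j _ => Finset.sum_comm, Finset.sum_comm]
      refine Finset.sum_congr rfl fun n _ => ?_
      rw [Finset.sum_mul]
      refine Finset.sum_congr rfl fun j _ => ?_
      rw [Finset.sum_mul]
    rw [e2, Finset.mul_sum, Finset.mul_sum, Finset.mul_sum, ← Finset.sum_add_distrib,
      ← Finset.sum_sub_distrib, ← Finset.sum_add_distrib]
    refine Finset.sum_congr rfl fun n hn => ?_
    rw [hu n hn]
    ring
  have n1 : ‖(κ : ℂ) * ∑ n ∈ s, a n * b n‖ ≤ κ * R1 := by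
    rw [norm_mul, Complex.norm_real, Real.norm_of_nonneg hκ]
    exact mul_le_mul_of_nonneg_left h1 hκ
  have n2 : ‖((κ : ℂ) - 1) * ∑ n ∈ s, b n‖ ≤ (κ + 1) * R2 := by
    rw [norm_mul]
    have : ‖(κ : ℂ) - 1‖ ≤ κ + 1 := by
      refine (norm_sub_le _ _).trans ?_
      rw [Complex.norm_real, Real.norm_of_nonneg hκ, norm_one]
    exact mul_le_mul this h2 (norm_nonneg _) (by linarith)
  have n3 : ‖(Λ : ℂ) * ∑ j ∈ Finset.range J, ∑ t ∈ T, ∑ n ∈ s, F j t n * b n‖ ≤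
      Λ * (J * (T.card * R3)) := by
    rw [norm_mul, Complex.norm_real, Real.norm_of_nonneg hΛ]
    refine mul_le_mul_of_nonneg_left ?_ hΛ
    refine (norm_sum_le _ _).trans ?_
    have : ∀ j ∈ Finset.range J, ‖∑ t ∈ T, ∑ n ∈ s, F j t n * b n‖ ≤ T.card * R3 := by
      intro j hj
      refine (norm_sum_le _ _).trans ?_
      refine (Finset.sum_le_card_nsmul _ _ _ (h3 j (Finset.mem_range.mp hj))).trans ?_
      rw [nsmul_eq_mul]
    refine (Finset.sum_le_card_nsmul _ _ _ this).trans ?_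
    rw [nsmul_eq_mul, Finset.card_range]
  have n4 : ‖∑ n ∈ s, (er n : ℂ) * b n‖ ≤ R4 := by
    refine (norm_sum_le _ _).trans (le_trans (Finset.sum_le_sum fun n _ => ?_) h4)
    rw [norm_mul, Complex.norm_real, Real.norm_eq_abs]
    exact mul_le_of_le_one_right (abs_nonneg _) (hb n)
  rw [e1]
  refine (norm_add_le _ _).trans (add_le_add ?_ n4)
  refine (norm_sub_le _ _).trans (add_le_add ?_ n3)
  exact (norm_add_le _ _).trans (add_le_add n1 n2)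

/-- Chunk V1 (assembly). Use `dec` with `ε/10`; `s` large so that
`κ * (exp1 bound) ≤ C s * er ≤ ε/10`; `y = rt (s * s1) M` with `s1` large (for the hypotheses of
`v1ii` with `δ2 = ε / (C (s s1)^2)`, `A = s1 / (2 K)`); the sum of `κ - 1` is `≤ (κ+1)/(2 nr θ)`
(`geo`), small unless `θ` is near `ℤ` (covered by `v1maj`, `q = 1`); the sum over `j < J` and over the
classes `b0 mod W` (coprime to `W`) of the Type II sums: if each is `≤ δ2 V^2 M / W` then the total is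
`≤ Λ J φ(W) δ2 V^2 M / W ≤ C (log M)^2 (φ(W)/W)^2 V^2 δ2 M ≤ C (s s1)^2 δ2 M` (`VV φ(W)/W ≤ C s s1 /
log M`); otherwise `v1ii` gives `q ≤ Q ≤ w` and `v1maj` applies. -/
theorem v1 (ε : ℝ) (hε : 0 < ε) : ∃ w0 : ℕ, ∀ w W : ℕ, w0 ≤ w → IsW w W → ∃ M0 : ℕ, ∀ M : ℕ,
    M0 ≤ M → ∀ r : ℤ, |r| < 2 * W → IsCoprime r (W : ℤ) → ∀ θ : ℝ, ∀ M' : ℤ, 0 ≤ M' → M' ≤ M →
    ‖∑ n ∈ Finset.Ico (0 : ℤ) M', (uu W r n : ℂ) * e (θ * n)‖ ≤ ε * M := by
  wlog hε1 : ε ≤ 1 generalizing ε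
  · obtain ⟨w0, h⟩ := this 1 one_pos le_rfl
    refine ⟨w0, fun w W hw hW => ?_⟩
    obtain ⟨M0, h⟩ := h w W hw hW
    refine ⟨M0, fun M hM r hr hc θ M' h0 h1 => (h M hM r hr hc θ M' h0 h1).trans ?_⟩
    gcongr
    linarith
  obtain ⟨Cd, hCd, hdec⟩ := dec
  obtain ⟨ε', s0, w1, hε'0, hε'1, hdec⟩ := hdec (ε / 10) (by positivity) (by linarith)
  obtain ⟨Ce, hCe, hexp⟩ := exp1
  obtain ⟨K, hK, hv⟩ := v1ii
  have hCe' : (1 : ℝ) ≤ Ce := by exact_mod_cast hCe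
  have hK' : (1 : ℝ) ≤ K := by exact_mod_cast hK
  -- choice of `A`, `s`
  obtain ⟨N1, hN1⟩ := v1_pow_small 1 Ce hCe (ε / (20 * Cd * Ce * Ce)) (by positivity)
  obtain ⟨A, hAN, hACe, hAs0⟩ : ∃ A : ℕ, N1 ≤ A ∧ Ce ≤ A ∧ s0 ≤ A :=
    ⟨max N1 (max Ce s0), le_max_left _ _, (le_max_left _ _).trans (le_max_right _ _),
      (le_max_right _ _).trans (le_max_right _ _)⟩
  have hA1 : 1 ≤ A := hCe.trans hACe
  have hA1' : (1 : ℝ) ≤ A := by exact_mod_cast hA1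
  obtain ⟨s, hs⟩ : ∃ s : ℕ, s = Ce * A := ⟨_, rfl⟩
  have hs1 : 1 ≤ s := by rw [hs]; exact Nat.mul_pos hCe hA1
  have hs1' : (1 : ℝ) ≤ s := by exact_mod_cast hs1
  have hs0 : s0 ≤ s := by rw [hs]; exact hAs0.trans (Nat.le_mul_of_pos_left _ hCe)
  have hsR : (s : ℝ) = Ce * A := by rw [hs]; push_cast; ring
  obtain ⟨wa, hwa⟩ := v1_w_small Ce hCe (ε / (20 * Cd * s * Ce)) (by positivity)
  have hA2 : Cd * s * (Ce * (2 : ℝ) ^ (-(A : ℝ) / Ce)) ≤ ε / 20 := by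
    have h := hN1 A hAN
    rw [pow_one, le_div_iff₀ (by positivity)] at h
    rw [hsR]
    have : Cd * (Ce * A) * (Ce * (2 : ℝ) ^ (-(A : ℝ) / Ce)) =
      (A * (2 : ℝ) ^ (-(A : ℝ) / Ce) * (20 * Cd * Ce * Ce)) / 20 := by ring
    rw [this]
    linarith
  -- choice of `A'`, `s1`, `δ2`
  obtain ⟨N2, hN2⟩ := v1_pow_small (2 * K) K hK
    ((ε / (40 * Cd ^ 2 * s ^ 2 * K ^ 2)) ^ K / K) (by positivity)
  obtain ⟨A', hAN', hAK'⟩ : ∃ A : ℕ, N2 ≤ A ∧ K ≤ A :=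
    ⟨max N2 K, le_max_left _ _, le_max_right _ _⟩
  have hA1b : 1 ≤ A' := hK.trans hAK'
  have hA1b' : (1 : ℝ) ≤ A' := by exact_mod_cast hA1b
  obtain ⟨s1, hs1d⟩ : ∃ s1 : ℕ, s1 = K * A' := ⟨_, rfl⟩
  have hs1R : (s1 : ℝ) = K * A' := by rw [hs1d]; push_cast; ring
  have hs11 : 1 ≤ s1 := by rw [hs1d]; exact Nat.mul_pos hK hA1b
  have hs11' : (1 : ℝ) ≤ s1 := by exact_mod_cast hs11
  obtain ⟨δ2, hδ2d⟩ : ∃ δ2 : ℝ, δ2 = ε / (40 * Cd ^ 2 * s ^ 2 * s1 ^ 2) := ⟨_, rfl⟩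
  have hδ2 : 0 < δ2 := by rw [hδ2d]; positivity
  have hδ21 : δ2 ≤ 1 := by
    rw [hδ2d, div_le_one (by positivity)]
    have h1 : (1 : ℝ) ≤ Cd ^ 2 := one_le_pow₀ hCd
    have h2 : (1 : ℝ) ≤ (s : ℝ) ^ 2 := one_le_pow₀ hs1'
    have h3 : (1 : ℝ) ≤ (s1 : ℝ) ^ 2 := one_le_pow₀ hs11'
    have h4 : (1 : ℝ) ≤ Cd ^ 2 * s ^ 2 := one_le_mul_of_one_le_of_one_le h1 h2
    have h5 : (1 : ℝ) ≤ Cd ^ 2 * s ^ 2 * s1 ^ 2 := one_le_mul_of_one_le_of_one_le h4 h3
    nlinarith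
  have hcond : K * (2 : ℝ) ^ (-(A' : ℝ) / K) ≤ δ2 ^ K := by
    have h := hN2 A' hAN'
    rw [le_div_iff₀ (by positivity)] at h
    have h2 : δ2 = (ε / (40 * Cd ^ 2 * s ^ 2 * K ^ 2)) / (A' : ℝ) ^ 2 := by
      rw [hδ2d, hs1R]
      field_simp
    rw [h2, div_pow, le_div_iff₀ (by positivity), ← pow_mul]
    calc K * (2 : ℝ) ^ (-(A' : ℝ) / K) * (A' : ℝ) ^ (2 * K)
        = (A' : ℝ) ^ (2 * K) * (2 : ℝ) ^ (-(A' : ℝ) / K) * K := by ring
      _ ≤ _ := h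
  obtain ⟨Q, T, w2, hQ, hv⟩ := hv δ2 A' hδ2 hδ21 hAK' hcond
  obtain ⟨Q', hQ'⟩ := exists_nat_ge ((Cd * s + 1) * 5 / ε)
  obtain ⟨Q2, hQQ2, hQQ2'⟩ : ∃ Q2 : ℕ, Q ≤ Q2 ∧ Q' ≤ Q2 := ⟨max Q Q', le_max_left _ _, le_max_right _ _⟩
  have hQ2R : (Cd * s + 1) * 5 / ε ≤ Q2 := hQ'.trans (by exact_mod_cast hQQ2')
  have hQ21 : 1 ≤ Q2 := hQ.trans hQQ2
  refine ⟨max (max w1 w2) (max (max Ce wa) Q2), fun w W hw hW => ?_⟩
  have hww1 : w1 ≤ w := (le_max_left _ _).trans ((le_max_left _ _).trans hw)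
  have hww2 : w2 ≤ w := (le_max_right _ _).trans ((le_max_left _ _).trans hw)
  have hwCe : Ce ≤ w := (le_max_left _ _).trans ((le_max_left _ _).trans ((le_max_right _ _).trans hw))
  have hwwa : wa ≤ w := (le_max_right _ _).trans ((le_max_left _ _).trans ((le_max_right _ _).trans hw))
  have hwQ : Q2 ≤ w := (le_max_right _ _).trans ((le_max_right _ _).trans hw)
  obtain ⟨M1, hdec⟩ := hdec s hs0 w W hww1 hW
  obtain ⟨M2, hmaj⟩ := v1maj W Q2 hW.1 ε hε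
  obtain ⟨y0, hv⟩ := hv w W hww2 hW
  have hss : 1 ≤ s * s1 := Nat.mul_pos hs1 hs11
  obtain ⟨M3, hlog⟩ := log_le_rt hss
  obtain ⟨M4, hM4⟩ := Filter.eventually_atTop.mp
    ((rt_tendsto hss).eventually (Filter.eventually_ge_atTop (max (max (4 * W ^ 4) w) (max y0 2))))
  obtain ⟨M5, hM5⟩ := Filter.eventually_atTop.mp
    (((tendsto_rpow_atTop (show 0 < 2 * ε' by positivity)).comp
      tendsto_natCast_atTop_atTop).eventually (Filter.eventually_ge_atTop (max (100 : ℝ) T)))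
  obtain ⟨M6, hM6⟩ : ∃ M6 : ℕ, 1 ≤ M6 := ⟨1, le_rfl⟩
  refine ⟨max (max (max M1 M2) (max M3 M4)) (max M5 M6),
    fun M hM r hr hrc θ M' hM'0 hM'M => ?_⟩
  have hMM1 : M1 ≤ M := (le_max_left _ _).trans ((le_max_left _ _).trans ((le_max_left _ _).trans hM))
  have hMM2 : M2 ≤ M := (le_max_right _ _).trans ((le_max_left _ _).trans ((le_max_left _ _).trans hM))
  have hMM3 : M3 ≤ M := (le_max_left _ _).trans ((le_max_right _ _).trans ((le_max_left _ _).trans hM))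
  have hMM4 : M4 ≤ M := (le_max_right _ _).trans ((le_max_right _ _).trans ((le_max_left _ _).trans hM))
  have hMM5 : M5 ≤ M := (le_max_left _ _).trans ((le_max_right _ _).trans hM)
  have hMM6 : 1 ≤ M := hM6.trans ((le_max_right _ _).trans ((le_max_right _ _).trans hM))
  have hMR : (1 : ℝ) ≤ M := by exact_mod_cast hMM6
  have hWR : (0 : ℝ) < W := by exact_mod_cast hW.1
  by_cases hnear : ∃ q : ℕ, 1 ≤ q ∧ q ≤ Q2 ∧ nr (q * (W * θ)) ≤ Q2 * W / M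
  · obtain ⟨q, hq1, hq2, hq3⟩ := hnear
    exact hmaj M hMM2 r hr hrc q hq1 hq2
      (fun p hp hpq => (hW.2 p hp).mpr ((Nat.le_of_dvd hq1 hpq).trans (hq2.trans hwQ))) θ hq3
      M' hM'0 hM'M
  push Not at hnear
  -- the parameter `y`
  obtain ⟨y, hyd⟩ : ∃ y : ℕ, y = rt (s * s1) M := ⟨_, rfl⟩
  have hy4 : max (max (4 * W ^ 4) w) (max y0 2) ≤ y := by rw [hyd]; exact hM4 M hMM4
  have hyW : 4 * W ^ 4 ≤ y := (le_max_left _ _).trans ((le_max_left _ _).trans hy4)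
  have hyw : w ≤ y := (le_max_right _ _).trans ((le_max_left _ _).trans hy4)
  have hyy0 : y0 ≤ y := (le_max_left _ _).trans ((le_max_right _ _).trans hy4)
  have hy2 : 2 ≤ y := (le_max_right _ _).trans ((le_max_right _ _).trans hy4)
  have hylog : Real.log M ≤ 2 * (s * s1) * Real.log y := by
    have := hlog M hMM3
    rw [← hyd] at this
    exact_mod_cast this
  obtain ⟨z, hzd⟩ : ∃ z : ℕ, z = rt s M := ⟨_, rfl⟩
  have hyz1 : y ^ (K * A') ≤ z := by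
    rw [hyd, hzd, ← hs1d]
    exact rt_mono_pow hs1 hs11 M
  have hyz : y ≤ z := by
    refine le_trans ?_ hyz1
    exact Nat.le_self_pow (by positivity) y
  have hz2 : 2 ≤ z := hy2.trans hyz
  have hWz : W < z := by
    have h1 : W ≤ W ^ 4 := Nat.le_self_pow (by norm_num) W
    have h2 : 1 ≤ W ^ 4 := Nat.one_le_pow _ _ hW.1
    omega
  obtain ⟨κ, Λ, J, err, hκ0, hκ, hJ, hΛ0, hΛ, hjB, herr, hdec⟩ := hdec M hMM1 r hr hrc
  rw [← hzd] at hjB hdec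
  -- bound for the rough part
  have hR1 : ‖∑ n ∈ Finset.Ico (0 : ℤ) M', ((rho (sprimes w z) (r + W * n) - 1 : ℝ) : ℂ)
      * e (θ * n)‖ ≤ Ce * er Ce A w * M := by
    refine hexp A w z W M (sprimes w z) hACe hwCe hz2 (pset_sprimes w z) hW ?_ r 0 M' hM'0
      (by simpa using hM'M) θ
    rw [← hs, hzd]
    exact rt_pow_le hs1 M
  have hκR1 : κ * (Ce * er Ce A w * M) ≤ ε / 10 * M := by
    have h1 : κ * (Ce * er Ce A w) ≤ ε / 10 := by
      have h2 : κ * (Ce * er Ce A w) ≤ Cd * s * (Ce * er Ce A w) :=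
        mul_le_mul_of_nonneg_right hκ (mul_nonneg (by positivity) (er_nonneg _ _ _))
      refine h2.trans ?_
      unfold er
      have h3 := hwa w hwwa
      rw [le_div_iff₀ (by positivity)] at h3
      have h4 : Cd * s * (Ce * ((2 : ℝ) ^ (-(A : ℝ) / Ce) + (w : ℝ) ^ (-(1 : ℝ) / Ce))) =
        Cd * s * (Ce * (2 : ℝ) ^ (-(A : ℝ) / Ce)) +
          ((w : ℝ) ^ (-(1 : ℝ) / Ce) * (20 * Cd * s * Ce)) / 20 := by ring
      rw [h4]
      linarith
    calc κ * (Ce * er Ce A w * M) = κ * (Ce * er Ce A w) * M := by ring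
      _ ≤ ε / 10 * M := mul_le_mul_of_nonneg_right h1 (by positivity)
  -- bound for the constant part
  have hnrW : (Q2 : ℝ) / M < nr θ := by
    have h1 := hnear 1 le_rfl hQ21
    have h2 : nr (((1 : ℕ) : ℝ) * (W * θ)) ≤ W * nr θ := by
      rw [Nat.cast_one, one_mul]
      exact nr_natmul_le W θ
    have h3 : (Q2 : ℝ) * W / M < W * nr θ := h1.trans_le h2
    have h4 : (Q2 : ℝ) * W / M = W * (Q2 / M) := by ring
    rw [h4] at h3
    exact lt_of_mul_lt_mul_left h3 hWR.le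
  have hR2 : ‖∑ n ∈ Finset.Ico (0 : ℤ) M', e (θ * n)‖ ≤ ε / (10 * (Cd * s + 1)) * M := by
    have h1 := geo 0 M' hM'0 θ
    have hnr0 : 0 < nr θ := lt_of_le_of_lt (by positivity) hnrW
    have h2 : ‖∑ n ∈ Finset.Ico (0 : ℤ) M', e (θ * n)‖ ≤ 1 / (2 * nr θ) := by
      rw [le_div_iff₀ (by positivity)]
      exact h1
    refine h2.trans ?_
    rw [div_le_iff₀ (by positivity)]
    have h3 : (Cd * s + 1) * 5 / ε / M ≤ nr θ := by
      refine le_trans ?_ hnrW.le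
      gcongr
    rw [div_div, div_le_iff₀ (by positivity)] at h3
    rw [div_mul_eq_mul_div, div_mul_eq_mul_div, le_div_iff₀ (by positivity)]
    linarith
  have hκR2 : (κ + 1) * (ε / (10 * (Cd * s + 1)) * M) ≤ ε / 10 * M := by
    have h1 : κ + 1 ≤ Cd * s + 1 := by linarith
    have h2 : (κ + 1) * (ε / (10 * (Cd * s + 1)) * M) ≤
      (Cd * s + 1) * (ε / (10 * (Cd * s + 1)) * M) :=
      mul_le_mul_of_nonneg_right h1 (by positivity)
    refine h2.trans (le_of_eq ?_)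
    field_simp
  -- Type II
  have hVnn : 0 ≤ VV (sprimes w y) := (VV_pos (pset_sprimes w y).prime).le
  have hR3 : ∀ j < J, ∀ t ∈ (Finset.range W).filter (Nat.Coprime W),
      ‖∑ n ∈ Finset.Ico (0 : ℤ) M', fII W r ((Pj z j).filter (fun b => b % W = t)) (βj z j) n
        * e (θ * n)‖ ≤ δ2 * VV (sprimes w y) ^ 2 * M / W := by
    intro j hj t ht
    by_contra hcon
    push Not at hcon
    rw [Finset.mem_filter, Finset.mem_range] at ht
    have hBj := hjB j hj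
    have hB2 : ((z * 2 ^ j : ℕ) : ℝ) ^ 2 * (M : ℝ) ^ (2 * ε') ≤ M := by
      have h1 : ((z * 2 ^ j : ℕ) : ℝ) ≤ (M : ℝ) ^ (1 / 2 - ε') := by
        push_cast
        exact hBj
      have h2 : ((z * 2 ^ j : ℕ) : ℝ) ^ 2 ≤ ((M : ℝ) ^ (1 / 2 - ε')) ^ 2 := by gcongr
      have h3 : ((M : ℝ) ^ (1 / 2 - ε')) ^ 2 * (M : ℝ) ^ (2 * ε') = M := by
        rw [← Real.rpow_natCast, ← Real.rpow_mul (by positivity), ← Real.rpow_add (by positivity)]
        have : (1 / 2 - ε') * ((2 : ℕ) : ℝ) + 2 * ε' = 1 := by push_cast; ring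
        rw [this, Real.rpow_one]
      exact (mul_le_mul_of_nonneg_right h2 (by positivity)).trans (le_of_eq h3)
    have hM5' : max (100 : ℝ) T ≤ (M : ℝ) ^ (2 * ε') := hM5 M hMM5
    have h100 : 100 * (z * 2 ^ j) ^ 2 ≤ M := by
      have h1 : (100 : ℝ) * ((z * 2 ^ j : ℕ) : ℝ) ^ 2 ≤ M := by
        refine le_trans ?_ hB2
        rw [mul_comm]
        exact mul_le_mul_of_nonneg_left ((le_max_left _ _).trans hM5') (by positivity)
      exact_mod_cast h1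
    have hT : T * (z * 2 ^ j) ^ 2 ≤ M := by
      have h1 : (T : ℝ) * ((z * 2 ^ j : ℕ) : ℝ) ^ 2 ≤ M := by
        refine le_trans ?_ hB2
        rw [mul_comm]
        exact mul_le_mul_of_nonneg_left ((le_max_right _ _).trans hM5') (by positivity)
      exact_mod_cast h1
    have hcfg : Cfg w W y (z * 2 ^ j) M r (t : ℤ) ((Pj z j).filter (fun b => b % W = t)) ∅ := by
      refine ⟨hW, hr, hrc, ⟨by positivity, by exact_mod_cast ht.1⟩, ?_, hyW, hyw, h100, ?_, ?_⟩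
      · exact (Nat.isCoprime_iff_coprime.mpr ht.2).symm
      · intro b hb
        rw [Finset.mem_filter, Pj, Finset.mem_filter, Finset.mem_Ioc] at hb
        refine ⟨hb.1.2, hb.1.1.1.le, hb.1.1.2.trans (le_of_eq (by ring)), ?_⟩
        rw [← hb.2]
        exact_mod_cast Int.dvd_self_sub_emod (x := (b : ℤ)) (m := (W : ℤ))
      · exact Finset.empty_subset _
    have hbeta : BetaOK (sprimes w y) (βj z j) := by
      intro a
      constructor
      · unfold βj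
        split_ifs <;> simp
      · intro hR
        unfold βj
        rw [if_neg]
        rintro ⟨-, h2⟩
        apply hR
        intro p hp
        rw [mem_sprimes] at hp
        refine h2 p hp.1 ?_
        have h3 : z ≤ z * 2 ^ (j + 1) := Nat.le_mul_of_pos_right _ (by positivity)
        omega
    obtain ⟨q, hq1, hq2, hq3⟩ := hv y (z * 2 ^ j) M r (t : ℤ) _ hyy0 hcfg
      (hyz1.trans (Nat.le_mul_of_pos_right _ (by positivity))) hT (βj z j) θ M' hbeta hM'0 hM'M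
      hcon.le
    have h4 := hnear q hq1 (hq2.trans hQQ2)
    have h5 : (Q : ℝ) * W / M ≤ Q2 * W / M := by
      have : (Q : ℝ) ≤ Q2 := by exact_mod_cast hQQ2
      gcongr
    linarith
  have hcard : (((Finset.range W).filter (Nat.Coprime W)).card : ℝ) = Nat.totient W := by
    norm_cast
  have hΛR3 : Λ * (J * ((((Finset.range W).filter (Nat.Coprime W)).card : ℝ) *
      (δ2 * VV (sprimes w y) ^ 2 * M / W))) ≤ ε / 10 * M := by
    rw [hcard]
    have hlogy : 0 < Real.log y := Real.log_pos (by exact_mod_cast (show 1 < y by omega))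
    have hlogM : 0 ≤ Real.log M := Real.log_nonneg hMR
    have hφ : 0 ≤ (Nat.totient W / W : ℝ) := by positivity
    obtain ⟨P, hP⟩ : ∃ P : ℝ, P = (Nat.totient W / W : ℝ) * VV (sprimes w y) := ⟨_, rfl⟩
    have hP0 : 0 ≤ P := by rw [hP]; positivity
    have hP1 : P * Real.log y ≤ 1 := by
      have := phi_mul_VV_le hW hyw hy2
      rwa [← hP, le_div_iff₀ hlogy] at this
    have hPM : Real.log M * P ≤ 2 * (s * s1) := by
      calc Real.log M * P ≤ 2 * (s * s1) * Real.log y * P :=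
            mul_le_mul_of_nonneg_right hylog hP0
        _ = 2 * (s * s1) * (P * Real.log y) := by ring
        _ ≤ 2 * (s * s1) * 1 := by gcongr
        _ = _ := by ring
    have h1 : Λ * J ≤ (Cd * (Nat.totient W / W) * Real.log M) * (Cd * Real.log M) :=
      mul_le_mul hΛ hJ (by positivity) (by positivity)
    have h2 : Λ * (J * ((Nat.totient W : ℝ) * (δ2 * VV (sprimes w y) ^ 2 * M / W))) =
      (Λ * J) * ((Nat.totient W / W : ℝ) * VV (sprimes w y) ^ 2 * (δ2 * M)) := by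
      field_simp
    rw [h2]
    calc (Λ * J) * ((Nat.totient W / W : ℝ) * VV (sprimes w y) ^ 2 * (δ2 * M))
        ≤ ((Cd * (Nat.totient W / W) * Real.log M) * (Cd * Real.log M)) *
          ((Nat.totient W / W : ℝ) * VV (sprimes w y) ^ 2 * (δ2 * M)) :=
          mul_le_mul_of_nonneg_right h1 (by positivity)
      _ = Cd ^ 2 * (Real.log M * P) ^ 2 * (δ2 * M) := by rw [hP]; ring
      _ ≤ Cd ^ 2 * (2 * (s * s1)) ^ 2 * (δ2 * M) := by gcongr
      _ = ε / 10 * M := by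
        rw [hδ2d]
        field_simp
        ring
  have hmain := v1_norm_sum (Finset.Ico (0 : ℤ) M') κ Λ hκ0 hΛ0 J
    ((Finset.range W).filter (Nat.Coprime W)) (fun n => (uu W r n : ℂ))
    (fun n => ((rho (sprimes w z) (r + W * n) - 1 : ℝ) : ℂ)) (fun n => e (θ * n))
    (fun j t n => fII W r ((Pj z j).filter (fun b => b % W = t)) (βj z j) n) err
    (fun n => (norm_e _).le) ?_ _ _ _ (ε / 10 * M) hR1 hR2 hR3 ?_
  · refine hmain.trans ?_
    have : 0 ≤ ε * M := by positivity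
    linarith
  · intro n hn
    have hn' : n ∈ Finset.Ico (0 : ℤ) M := by
      rw [Finset.mem_Ico] at hn ⊢
      omega
    rw [hdec n hn']
    congr 3
    refine Finset.sum_congr rfl fun j _ => ?_
    refine v1_sum_class W hW.1 r (Pj z j) (βj z j) n fun b hb => ?_
    rw [Pj, Finset.mem_filter, Finset.mem_Ioc] at hb
    have h1 : W < b := by
      have h3 : z ≤ z * 2 ^ j := Nat.le_mul_of_pos_right _ (by positivity)
      omega
    exact ((Nat.Prime.coprime_iff_not_dvd hb.2).mpr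
      (fun h => absurd (Nat.le_of_dvd hW.1 h) (by omega))).symm
  · refine le_trans ?_ herr
    exact Finset.sum_le_sum_of_subset_of_nonneg
      (Finset.Ico_subset_Ico_right hM'M) (fun _ _ _ => abs_nonneg _)

end Pool.Agent.Lib.H18GB
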