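import Pool.Agent.Lib.H18GB.STdefs
import Pool.Agent.Lib.H18GB.Vl
import Pool.Agent.Lib.H18GB.Exp1

/-!
# Project GB: V1II
-/

namespace Pool.Agent.Lib.H18GB

open Finset Pool.Agent.Lib.Sieve

namespace V1IIaux

theorem exists_a0 {W : ℕ} {r b0 : ℤ} (hW : 0 < W) (hb : IsCoprime b0 (W : ℤ)) :
    ∃ a0 : ℤ, 0 ≤ a0 ∧ a0 < W ∧ (W : ℤ) ∣ b0 * a0 - r := by
  obtain ⟨x, y, hxy⟩ := hb
  have hW' : (0 : ℤ) < W := by exact_mod_cast hW
  refine ⟨(x * r) % W, Int.emod_nonneg _ hW'.ne', Int.emod_lt_of_pos _ hW', ?_⟩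
  have h1 : (W : ℤ) ∣ x * r - (x * r) % W := Int.dvd_self_sub_emod
  have h2 : b0 * ((x * r) % W) - r = -(b0 * (x * r - (x * r) % W)) - r * y * W := by
    linear_combination r * hxy
  rw [h2]
  exact dvd_sub ((h1.mul_left _).neg_right) (dvd_mul_left _ _)

theorem sum_b {W : ℕ} (hW : 0 < W) {r a0 : ℤ} {b : ℕ} (hb : 0 < b)
    (hbc : IsCoprime (b : ℤ) (W : ℤ)) {κ : ℤ} (hκ : (W : ℤ) * κ = b * a0 - r)
    (β : ℤ → ℂ) (θ : ℝ) (M' : ℤ) :
    ∑ n ∈ (Finset.Ico (0 : ℤ) M').filter (fun n => (b : ℤ) ∣ r + W * n),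
      β ((r + W * n) / b) * e (θ * n) =
    ∑ a ∈ Finset.Ico (-(κ / b)) (-((κ - M') / b)),
      β (a0 + W * a) * e (θ * ((κ + b * a : ℤ) : ℝ)) := by
  have hb' : (0 : ℤ) < b := by exact_mod_cast hb
  have hW' : (0 : ℤ) < W := by exact_mod_cast hW
  symm
  refine Finset.sum_bij (fun a _ => κ + b * a) ?_ ?_ ?_ ?_
  · intro a ha
    rw [Finset.mem_Ico] at ha
    rw [Finset.mem_filter, Finset.mem_Ico]
    refine ⟨⟨?_, ?_⟩, ?_⟩
    · have h1 : -a ≤ κ / b := by linarith [ha.1]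
      rw [Int.le_ediv_iff_mul_le hb'] at h1
      linarith
    · have h1 : (κ - M') / b < -a := by linarith [ha.2]
      rw [Int.ediv_lt_iff_lt_mul hb'] at h1
      linarith
    · refine ⟨a0 + W * a, ?_⟩
      linear_combination hκ
  · intro a _ a' _ h
    have h1 : (b : ℤ) * a = b * a' := by linarith
    exact mul_left_cancel₀ hb'.ne' h1
  · intro n hn
    rw [Finset.mem_filter, Finset.mem_Ico] at hn
    obtain ⟨⟨h1, h2⟩, ⟨c, hc⟩⟩ := hn
    have h3 : (W : ℤ) ∣ b * (c - a0) := ⟨n - κ, by linear_combination (-1 : ℤ) * hc + hκ⟩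
    have h4 : (W : ℤ) ∣ c - a0 := (hbc.symm).dvd_of_dvd_mul_left h3
    obtain ⟨a, ha⟩ := h4
    have h5 : n = κ + b * a := by
      have : (W : ℤ) * n = W * (κ + b * a) := by
        linear_combination hc - hκ + b * ha
      exact mul_left_cancel₀ hW'.ne' this
    refine ⟨a, ?_, h5.symm⟩
    rw [Finset.mem_Ico]
    constructor
    · have h6 : -a * b ≤ κ := by rw [h5] at h1; linarith
      rw [← Int.le_ediv_iff_mul_le hb'] at h6
      linarith
    · have h6 : κ - M' < -a * b := by rw [h5] at h2; linarith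
      rw [← Int.ediv_lt_iff_lt_mul hb'] at h6
      linarith
  · intro a _
    have h1 : (r + W * (κ + b * a)) / (b : ℤ) = a0 + W * a := by
      rw [show r + W * (κ + b * a) = (a0 + W * a) * b by linear_combination hκ]
      exact Int.mul_ediv_cancel _ hb'.ne'
    rw [h1]

theorem mem_J {W B M L b : ℕ} {a0 r κ M' a : ℤ} (hWpos : 0 < W) (hb2 : 2 ≤ b) (hBb : B ≤ b)
    (hB2 : 2 ≤ B) (ha0 : 0 ≤ a0) (ha0' : a0 < W) (hr : |r| < 2 * W) (hM' : M' ≤ M)
    (hML : M < B * (L + 1)) (hκ : (W : ℤ) * κ = b * a0 - r)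
    (ha : a ∈ Finset.Ico (-(κ / b)) (-((κ - M') / b))) : a ∈ Finset.Ico (-1 : ℤ) (L + 2) := by
  rw [Finset.mem_Ico] at ha
  have hb' : (0 : ℤ) < b := by omega
  have h1 : -a ≤ κ / b := by linarith [ha.1]
  rw [Int.le_ediv_iff_mul_le hb'] at h1
  have h2 : (κ - M') / b < -a := by linarith [ha.2]
  rw [Int.ediv_lt_iff_lt_mul hb'] at h2
  have h4 : (b : ℤ) * (a0 + W * a) = r + W * (κ + b * a) := by linear_combination -hκ
  have h5 : (0 : ℤ) ≤ κ + b * a := by linarith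
  have h6 : κ + b * a < M' := by linarith
  obtain ⟨hr1, hr2⟩ := abs_lt.1 hr
  have hW' : (0 : ℤ) < W := by exact_mod_cast hWpos
  have hb4 : (2 : ℤ) ≤ b := by exact_mod_cast hb2
  have hBb' : (B : ℤ) ≤ b := by exact_mod_cast hBb
  have hML' : (M : ℤ) < B * (L + 1) := by exact_mod_cast hML
  have hB2' : (2 : ℤ) ≤ B := by exact_mod_cast hB2
  rw [Finset.mem_Ico]
  constructor
  · by_contra hx
    have hx' : a ≤ -2 := by omega
    have h7 : a0 + W * a < -W := by nlinarith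
    have h8 : (b : ℤ) * (a0 + W * a) ≤ b * (-W) := mul_le_mul_of_nonneg_left h7.le hb'.le
    have h9 : (0 : ℤ) ≤ W * (κ + b * a) := by positivity
    nlinarith
  · by_contra hx
    have hx' : (L : ℤ) + 2 ≤ a := by omega
    have h7 : (W : ℤ) * (L + 2) ≤ a0 + W * a := by nlinarith
    have h8 : (B : ℤ) * (W * (L + 2)) ≤ b * (a0 + W * a) :=
      mul_le_mul hBb' h7 (by positivity) hb'.le
    have h9 : (W : ℤ) * (κ + b * a) ≤ W * M := mul_le_mul_of_nonneg_left (by linarith) hW'.le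
    have h10 : (W : ℤ) * (B * (L + 2)) < W * (M + 2) := by linarith
    have h11 := lt_of_mul_lt_mul_left h10 hW'.le
    linarith

theorem e_sub (x y : ℝ) : e x * (starRingEnd ℂ) (e y) = e (x - y) := by
  rw [← e_neg, ← e_add, sub_eq_add_neg]

theorem cs_step (J : Finset ℤ) (P : Finset ℕ) (I : ℕ → Finset ℤ) (hI : ∀ b ∈ P, I b ⊆ J)
    (g : ℤ → ℝ) (hg : ∀ a, g a * g a = g a) (β : ℤ → ℂ) (hβ : ∀ a, ‖β a‖ ≤ g a) (κ : ℕ → ℤ)
    (θ : ℝ) :
    ‖∑ b ∈ P, ∑ a ∈ I b, β a * e (θ * ((κ b + b * a : ℤ) : ℝ))‖ ^ 2 ≤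
      (∑ a ∈ J, g a) * ∑ b ∈ P, ∑ c ∈ P,
        ‖∑ a ∈ I b ∩ I c, (g a : ℂ) * e (θ * ((b : ℝ) - c) * a)‖ := by
  classical
  have hg0 : ∀ a, 0 ≤ g a := fun a => by rw [← hg a]; exact mul_self_nonneg _
  obtain ⟨X, hX⟩ : ∃ X : ℤ → ℂ, X = fun a => ∑ b ∈ P,
    if a ∈ I b then e (θ * ((κ b + b * a : ℤ) : ℝ)) else 0 := ⟨_, rfl⟩
  have h1 : ∑ b ∈ P, ∑ a ∈ I b, β a * e (θ * ((κ b + b * a : ℤ) : ℝ)) = ∑ a ∈ J, β a * X a := by
    have h2 : ∀ b ∈ P, ∑ a ∈ I b, β a * e (θ * ((κ b + b * a : ℤ) : ℝ)) =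
        ∑ a ∈ J, β a * if a ∈ I b then e (θ * ((κ b + b * a : ℤ) : ℝ)) else 0 := by
      intro b hb
      simp only [mul_ite, mul_zero]
      rw [← Finset.sum_filter]
      refine Finset.sum_congr ?_ fun _ _ => rfl
      ext a
      rw [Finset.mem_filter]
      exact ⟨fun h => ⟨hI b hb h, h⟩, fun h => h.2⟩
    rw [Finset.sum_congr rfl h2, Finset.sum_comm]
    refine Finset.sum_congr rfl fun a _ => ?_
    rw [hX, ← Finset.mul_sum]
  rw [h1]
  have h3 : ‖∑ a ∈ J, β a * X a‖ ≤ ∑ a ∈ J, g a * (g a * ‖X a‖) := by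
    refine (norm_sum_le _ _).trans (Finset.sum_le_sum fun a _ => ?_)
    rw [norm_mul, ← mul_assoc, hg]
    exact mul_le_mul_of_nonneg_right (hβ a) (norm_nonneg _)
  have h4 : ‖∑ a ∈ J, β a * X a‖ ^ 2 ≤ (∑ a ∈ J, g a) * ∑ a ∈ J, g a * ‖X a‖ ^ 2 := by
    calc ‖∑ a ∈ J, β a * X a‖ ^ 2 ≤ (∑ a ∈ J, g a * (g a * ‖X a‖)) ^ 2 :=
          pow_le_pow_left₀ (norm_nonneg _) h3 2
      _ ≤ (∑ a ∈ J, g a ^ 2) * ∑ a ∈ J, (g a * ‖X a‖) ^ 2 :=
          Finset.sum_mul_sq_le_sq_mul_sq _ _ _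
      _ = (∑ a ∈ J, g a) * ∑ a ∈ J, g a * ‖X a‖ ^ 2 := by
          congr 1
          · exact Finset.sum_congr rfl fun a _ => by rw [sq, hg]
          · exact Finset.sum_congr rfl fun a _ => by rw [mul_pow, sq (g a), hg]
  refine h4.trans (mul_le_mul_of_nonneg_left ?_ (Finset.sum_nonneg fun a _ => hg0 a))
  have h5 : ((∑ a ∈ J, g a * ‖X a‖ ^ 2 : ℝ) : ℂ) = ∑ b ∈ P, ∑ c ∈ P,
      e (θ * κ b - θ * κ c) * ∑ a ∈ I b ∩ I c, (g a : ℂ) * e (θ * ((b : ℝ) - c) * a) := by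
    push_cast
    have h6 : ∀ a, (g a : ℂ) * (‖X a‖ : ℂ) ^ 2 = ∑ b ∈ P, ∑ c ∈ P,
        if a ∈ I b ∩ I c then e (θ * κ b - θ * κ c) * ((g a : ℂ) * e (θ * ((b : ℝ) - c) * a))
          else 0 := by
      intro a
      rw [← Complex.mul_conj', hX]
      simp only [map_sum]
      rw [Finset.sum_mul_sum, Finset.mul_sum]
      refine Finset.sum_congr rfl fun b _ => ?_
      rw [Finset.mul_sum]
      refine Finset.sum_congr rfl fun c _ => ?_
      by_cases hb : a ∈ I b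
      · by_cases hc : a ∈ I c
        · rw [if_pos hb, if_pos hc, if_pos (Finset.mem_inter.2 ⟨hb, hc⟩), e_sub]
          have h7 : e (θ * ((κ b + b * a : ℤ) : ℝ) - θ * ((κ c + c * a : ℤ) : ℝ)) =
              e (θ * κ b - θ * κ c) * e (θ * ((b : ℝ) - c) * a) := by
            rw [← e_add]
            congr 1
            push_cast
            ring
          rw [h7]
          ring
        · rw [if_neg hc, if_neg (fun h => hc (Finset.mem_inter.1 h).2)]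
          simp
      · rw [if_neg hb, if_neg (fun h => hb (Finset.mem_inter.1 h).1)]
        simp
    rw [Finset.sum_congr rfl fun a _ => h6 a, Finset.sum_comm]
    refine Finset.sum_congr rfl fun b hb => ?_
    rw [Finset.sum_comm]
    refine Finset.sum_congr rfl fun c _ => ?_
    rw [← Finset.sum_filter, Finset.mul_sum]
    refine Finset.sum_congr ?_ fun _ _ => rfl
    ext a
    rw [Finset.mem_filter]
    exact ⟨fun h => h.2, fun h => ⟨hI b hb (Finset.mem_inter.1 h).1, h⟩⟩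
  have h8 : ∑ a ∈ J, g a * ‖X a‖ ^ 2 = ‖((∑ a ∈ J, g a * ‖X a‖ ^ 2 : ℝ) : ℂ)‖ := by
    rw [Complex.norm_real, Real.norm_of_nonneg]
    exact Finset.sum_nonneg fun a _ => mul_nonneg (hg0 a) (by positivity)
  rw [h8, h5]
  refine (norm_sum_le _ _).trans (Finset.sum_le_sum fun b _ => ?_)
  refine (norm_sum_le _ _).trans (Finset.sum_le_sum fun c _ => ?_)
  rw [norm_mul, norm_e, one_mul]

theorem VV_ge {w y : ℕ} (hy : 1 ≤ y) : 1 / (y : ℝ) ≤ VV (sprimes w y) := by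
  have h1 : ∀ n : ℕ, 1 ≤ n → ∏ m ∈ Finset.Icc 2 n, (1 - 1 / (m : ℝ)) = 1 / n := by
    intro n hn
    induction n, hn using Nat.le_induction with
    | base => simp
    | succ n hn ih =>
      rw [← Finset.insert_Icc_right_eq_Icc_add_one (by omega), Finset.prod_insert (by simp), ih]
      have h0 : (n : ℝ) ≠ 0 := by positivity
      have h2 : ((n : ℝ) + 1) ≠ 0 := by positivity
      push_cast
      field_simp
      ring
  have hsub : sprimes w y ⊆ Finset.Icc 2 y := by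
    intro p hp
    rw [mem_sprimes] at hp
    rw [Finset.mem_Icc]
    exact ⟨hp.1.two_le, hp.2.2⟩
  rw [← h1 y hy, ← Finset.prod_sdiff hsub]
  unfold VV
  refine mul_le_of_le_one_left ?_ ?_
  · exact (VV_pos fun p hp => (mem_sprimes.1 hp).1).le
  · refine Finset.prod_le_one (fun m hm => ?_) fun m hm => ?_
    · rw [Finset.mem_sdiff, Finset.mem_Icc] at hm
      have : (1 : ℝ) ≤ m := by exact_mod_cast (by omega : 1 ≤ m)
      rw [sub_nonneg, div_le_one (by linarith)]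
      exact this
    · have : (0 : ℝ) ≤ 1 / m := by positivity
      linarith

theorem VV_mul_rho {S : Finset ℕ} (hS : ∀ p ∈ S, p.Prime) {v : ℤ} (hv : Rgh S v) :
    VV S * rho S v = 1 := by
  unfold rho
  rw [if_pos hv]
  exact mul_inv_cancel₀ (VV_pos hS).ne'

theorem rgh_P {w W y B M : ℕ} {r b0 : ℤ} {P : Finset ℕ} (h : Cfg w W y B M r b0 P ∅) (hyB : y < B)
    {b : ℕ} (hb : b ∈ P) : Rgh (sprimes w y) b := by
  intro p hp hdvd
  rw [mem_sprimes] at hp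
  obtain ⟨h1, h2, -, -⟩ := h.hP b hb
  have h3 : p ∣ b := by exact_mod_cast hdvd
  have h4 := (Nat.prime_dvd_prime_iff_eq hp.1 h1).1 h3
  omega

theorem sumP_le {w W y B M : ℕ} {r b0 : ℤ} {P : Finset ℕ} (h : Cfg w W y B M r b0 P ∅)
    (hWB : W ≤ B) (f : ℤ → ℝ) (hf : ∀ v, 0 ≤ f v) :
    ∑ b ∈ P, f b ≤ ∑ x ∈ Finset.Ico (0 : ℤ) (2 * (B / W : ℕ) + 2), f (b0 + W * x) := by
  have hW : 0 < W := h.isW.1
  have hW' : (0 : ℤ) < W := by exact_mod_cast hW
  have key : ∀ b ∈ P, (W : ℤ) * (((b : ℤ) - b0) / W) = b - b0 :=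
    fun b hb => Int.mul_ediv_cancel' (h.hP b hb).2.2.2
  have h1 : ∑ b ∈ P, f b = ∑ x ∈ P.image (fun b : ℕ => ((b : ℤ) - b0) / W), f (b0 + W * x) := by
    rw [Finset.sum_image]
    · refine Finset.sum_congr rfl fun b hb => ?_
      rw [key b hb]
      congr 1
      ring
    · intro b hb c hc hbc
      have h2 := key b hb
      have h3 := key c hc
      have hbc' : ((b : ℤ) - b0) / W = ((c : ℤ) - b0) / W := hbc
      rw [hbc', h3] at h2
      have : (b : ℤ) = c := by linarith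
      exact_mod_cast this
  rw [h1]
  refine Finset.sum_le_sum_of_subset_of_nonneg ?_ fun x _ _ => hf _
  intro x hx
  rw [Finset.mem_image] at hx
  obtain ⟨b, hb, rfl⟩ := hx
  have h2 := key b hb
  obtain ⟨-, h3, h4, -⟩ := h.hP b hb
  obtain ⟨h5, h6⟩ := h.hb0
  have h7 : (B : ℤ) ≤ b := by exact_mod_cast h3
  have h8 : (b : ℤ) ≤ 2 * B := by exact_mod_cast h4
  have h9 : (W : ℤ) ≤ B := by exact_mod_cast hWB
  have h10 : B < W * (B / W + 1) := Nat.lt_mul_div_succ B hW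
  have h11 : (B : ℤ) < W * ((B / W : ℕ) + 1) := by exact_mod_cast h10
  rw [Finset.mem_Ico]
  generalize ((b : ℤ) - b0) / W = x at *
  generalize ((B / W : ℕ) : ℤ) = N at *
  constructor
  · by_contra hx
    have : x ≤ -1 := by omega
    nlinarith
  · by_contra hx
    have : 2 * N + 2 ≤ x := by omega
    nlinarith

theorem pairs_le {w W y B M : ℕ} {r b0 : ℤ} {P : Finset ℕ} (h : Cfg w W y B M r b0 P ∅)
    (hWB : W ≤ B) (hyB : y < B) (k : ℤ) :
    ((((P ×ˢ P).filter fun q : ℕ × ℕ => (q.1 : ℤ) - q.2 = W * k).card : ℕ) : ℝ) ≤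
      VV (sprimes w y) ^ 2 * ∑ x ∈ Finset.Ico (0 : ℤ) (2 * (B / W : ℕ) + 2),
        rho (sprimes w y) (b0 + W * x) * rho (sprimes w y) (b0 + W * x + W * k) := by
  set S := sprimes w y with hS
  have hSp : ∀ p ∈ S, p.Prime := fun p hp => (mem_sprimes.1 hp).1
  have hV := VV_pos hSp
  have h0 : ∀ v : ℤ, 0 ≤ VV S ^ 2 * (rho S v * rho S (v + W * k)) := fun v =>
    mul_nonneg (by positivity) (mul_nonneg (rho_nonneg hSp _) (rho_nonneg hSp _))
  rw [Finset.mul_sum]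
  refine le_trans ?_ (sumP_le h hWB (fun v => VV S ^ 2 * (rho S v * rho S (v + W * k))) h0)
  have h1 : ((((P ×ˢ P).filter fun q : ℕ × ℕ => (q.1 : ℤ) - q.2 = W * k).card : ℕ) : ℝ) =
      ∑ q ∈ (P ×ˢ P).filter (fun q : ℕ × ℕ => (q.1 : ℤ) - q.2 = W * k),
        VV S ^ 2 * (rho S (q.2 : ℤ) * rho S ((q.2 : ℤ) + W * k)) := by
    rw [Finset.card_eq_sum_ones]
    push_cast
    refine Finset.sum_congr rfl fun q hq => ?_
    rw [Finset.mem_filter, Finset.mem_product] at hq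
    have h2 := VV_mul_rho hSp (rgh_P h hyB hq.1.1)
    have h3 := VV_mul_rho hSp (rgh_P h hyB hq.1.2)
    rw [show (q.2 : ℤ) + W * k = q.1 by linarith [hq.2]]
    rw [show VV S ^ 2 * (rho S (q.2 : ℤ) * rho S (q.1 : ℤ)) =
      (VV S * rho S (q.2 : ℤ)) * (VV S * rho S (q.1 : ℤ)) by ring, h2, h3, mul_one]
  rw [h1]
  have h4 : ∑ q ∈ (P ×ˢ P).filter (fun q : ℕ × ℕ => (q.1 : ℤ) - q.2 = W * k),
        VV S ^ 2 * (rho S (q.2 : ℤ) * rho S ((q.2 : ℤ) + W * k)) =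
      ∑ c ∈ ((P ×ˢ P).filter (fun q : ℕ × ℕ => (q.1 : ℤ) - q.2 = W * k)).image Prod.snd,
        VV S ^ 2 * (rho S (c : ℤ) * rho S ((c : ℤ) + W * k)) := by
    rw [Finset.sum_image]
    intro q hq q' hq' hqq
    have hq1 := (Finset.mem_filter.1 hq).2
    have hq2 := (Finset.mem_filter.1 hq').2
    refine Prod.ext ?_ hqq
    have h5 : (q.2 : ℤ) = q'.2 := by exact_mod_cast hqq
    have : (q.1 : ℤ) = q'.1 := by linarith
    exact_mod_cast this
  rw [h4]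
  refine Finset.sum_le_sum_of_subset_of_nonneg ?_ fun c _ _ => h0 _
  intro c hc
  rw [Finset.mem_image] at hc
  obtain ⟨q, hq, rfl⟩ := hc
  exact (Finset.mem_product.1 (Finset.mem_filter.1 hq).1).2

theorem arith1 {δ V N L M W F2 P2 Es η X : ℝ} (hδ : 0 < δ) (hV : 0 < V) (hN : 0 < N) (hL : 0 < L)
    (hW : 0 < W) (hNL : N * L * W ≤ M) (hη : η ≤ δ ^ 2 / 1024) (hη0 : 0 ≤ η)
    (hP : P2 ≤ 64 * (V * N) ^ 2) (hF : (δ * V ^ 2 * M / W) ^ 2 ≤ F2)
    (hX : X ≤ V * (Es + P2 * (η * (2 * L)))) (hcs : F2 ≤ V * (4 * L) * X) :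
    δ ^ 2 / 8 * (V * N) ^ 2 * L ≤ Es := by
  have h1 : N * L ≤ M / W := by rw [le_div_iff₀ hW]; exact hNL
  have h2 : δ * V ^ 2 * (N * L) ≤ δ * V ^ 2 * M / W := by
    rw [mul_div_assoc]
    exact mul_le_mul_of_nonneg_left h1 (by positivity)
  have h3 : (δ * V ^ 2 * (N * L)) ^ 2 ≤ V * (4 * L) * X :=
    (pow_le_pow_left₀ (by positivity) h2 2).trans (hF.trans hcs)
  have h4 : V * (4 * L) * X ≤ V * (4 * L) * (V * (Es + P2 * (η * (2 * L)))) :=
    mul_le_mul_of_nonneg_left hX (by positivity)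
  have h5 : P2 * (η * (2 * L)) ≤ 64 * (V * N) ^ 2 * (δ ^ 2 / 1024 * (2 * L)) := by
    calc P2 * (η * (2 * L)) ≤ 64 * (V * N) ^ 2 * (η * (2 * L)) :=
          mul_le_mul_of_nonneg_right hP (by positivity)
      _ ≤ _ := mul_le_mul_of_nonneg_left (mul_le_mul_of_nonneg_right hη (by positivity))
          (by positivity)
  have h6 : V * (4 * L) * (V * (Es + P2 * (η * (2 * L)))) ≤
      V * (4 * L) * (V * (Es + 64 * (V * N) ^ 2 * (δ ^ 2 / 1024 * (2 * L)))) :=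
    mul_le_mul_of_nonneg_left (mul_le_mul_of_nonneg_left (by linarith) hV.le) (by positivity)
  have h7 : (4 * V ^ 2 * L) * (δ ^ 2 / 8 * (V * N) ^ 2 * L) ≤ (4 * V ^ 2 * L) * Es := by
    have h8 := h3.trans (h4.trans h6)
    nlinarith
  exact le_of_mul_le_mul_left h7 (by positivity)

theorem arith2 {δ V N k Er Cc : ℝ} (hδ : 0 < δ) (hV : 0 < V) (hN : 0 < N)
    (hVN : 1024 / δ ^ 2 ≤ V * N) (hEr : 8 * Cc * Er ≤ δ ^ 2 * N / 128)
    (h : δ ^ 2 / 32 * (V * N) ^ 2 ≤ 8 * (V * N) + V ^ 2 * (N * (9 * k + 8 * Cc * Er))) :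
    δ ^ 2 / 576 * N ≤ k := by
  have h1 : 1024 ≤ δ ^ 2 * (V * N) := by
    rw [div_le_iff₀ (by positivity)] at hVN
    linarith
  have h2 : 8 * (V * N) ≤ δ ^ 2 / 128 * (V * N) ^ 2 := by
    have h3 := mul_le_mul_of_nonneg_right h1 (show (0 : ℝ) ≤ V * N by positivity)
    nlinarith
  have h4 : V ^ 2 * (N * (9 * k + 8 * Cc * Er)) ≤ V ^ 2 * (N * (9 * k + δ ^ 2 * N / 128)) :=
    mul_le_mul_of_nonneg_left (mul_le_mul_of_nonneg_left (by linarith) hN.le) (by positivity)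
  have h5 : (V ^ 2 * N) * (δ ^ 2 / 64 * N) ≤ (V ^ 2 * N) * (9 * k) := by nlinarith
  have h6 := le_of_mul_le_mul_left h5 (by positivity)
  linarith

theorem arith3 {δ Qv Qc L N W M B ε0 : ℝ} (hδ : 0 < δ) (hQv : 0 ≤ Qv) (hL : 0 < L) (hN : 0 < N)
    (hW : 0 < W) (hM : 0 < M) (h1 : M ≤ B * (2 * L)) (h2 : B ≤ W * (2 * N))
    (hQ : 2048 * Qv / δ ^ 2 ≤ Qc) (hε : ε0 = 512 / (δ ^ 2 * L)) :
    Qv * ε0 / N ≤ (Qv + Qc) * W / M := by
  have h3 : M ≤ 4 * (L * N * W) := by nlinarith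
  rw [hε, div_le_div_iff₀ hN hM]
  rw [div_le_iff₀ (by positivity)] at hQ
  have h4 : Qv * (512 / (δ ^ 2 * L)) * M ≤ Qv * (512 / (δ ^ 2 * L)) * (4 * (L * N * W)) :=
    mul_le_mul_of_nonneg_left h3 (by positivity)
  refine h4.trans ?_
  have h5 : Qv * (512 / (δ ^ 2 * L)) * (4 * (L * N * W)) = (2048 * Qv / δ ^ 2) * (W * N) := by
    field_simp
    ring
  have h6 : 2048 * Qv / δ ^ 2 ≤ Qc := by
    rw [div_le_iff₀ (by positivity)]
    exact hQ
  rw [h5]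
  have h7 : (2048 * Qv / δ ^ 2) * (W * N) ≤ (Qv + Qc) * (W * N) :=
    mul_le_mul_of_nonneg_right (by linarith) (by positivity)
  linarith

theorem good_pairs {P : Finset ℕ} {E ν : ℕ → ℕ → ℝ} {δ V N L : ℝ} (hδ : 0 < δ) (hL : 0 < L)
    (hE : ∀ b ∈ P, ∀ c ∈ P, E b c ≤ 2 * L) (hE2 : ∀ b ∈ P, ∀ c ∈ P, E b c * (2 * ν b c) ≤ 1)
    (hP : (P.card : ℝ) ≤ 8 * (V * N))
    (hsum : δ ^ 2 / 8 * (V * N) ^ 2 * L ≤ ∑ b ∈ P, ∑ c ∈ P, E b c) :
    δ ^ 2 / 32 * (V * N) ^ 2 ≤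
      ((((P ×ˢ P).filter fun q : ℕ × ℕ => ν q.1 q.2 ≤ 512 / (δ ^ 2 * L)).card : ℕ) : ℝ) := by
  set ε0 := 512 / (δ ^ 2 * L) with hε0
  have hε0p : 0 < ε0 := by positivity
  have h1 : ∀ b ∈ P, ∀ c ∈ P, E b c ≤ (if ν b c ≤ ε0 then 2 * L else 0) + δ ^ 2 * L / 1024 := by
    intro b hb c hc
    split_ifs with hν
    · have := hE b hb c hc
      have : 0 ≤ δ ^ 2 * L / 1024 := by positivity
      linarith
    · rw [not_le] at hν
      rw [zero_add]
      rcases le_or_gt (E b c) 0 with h0 | h0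
      · exact h0.trans (by positivity)
      · have h2 := hE2 b hb c hc
        have h3 : E b c * (2 * ε0) ≤ 1 :=
          le_trans (mul_le_mul_of_nonneg_left (by linarith) h0.le) h2
        have h4 : E b c ≤ 1 / (2 * ε0) := by
          rw [le_div_iff₀ (by positivity)]
          exact h3
        refine h4.trans (le_of_eq ?_)
        rw [hε0]
        field_simp
        norm_num
  have h2 : ∑ b ∈ P, ∑ c ∈ P, E b c ≤
      2 * L * ((((P ×ˢ P).filter fun q : ℕ × ℕ => ν q.1 q.2 ≤ ε0).card : ℕ) : ℝ) +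
        (P.card : ℝ) ^ 2 * (δ ^ 2 * L / 1024) := by
    calc ∑ b ∈ P, ∑ c ∈ P, E b c ≤
        ∑ b ∈ P, ∑ c ∈ P, ((if ν b c ≤ ε0 then 2 * L else 0) + δ ^ 2 * L / 1024) :=
          Finset.sum_le_sum fun b hb => Finset.sum_le_sum fun c hc => h1 b hb c hc
      _ = ∑ q ∈ P ×ˢ P, ((if ν q.1 q.2 ≤ ε0 then 2 * L else 0) + δ ^ 2 * L / 1024) := by
          rw [Finset.sum_product]
      _ = _ := by
          rw [Finset.sum_add_distrib, ← Finset.sum_filter, Finset.sum_const, Finset.sum_const,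
            Finset.card_product, nsmul_eq_mul, nsmul_eq_mul]
          push_cast
          ring
  have h3 : (P.card : ℝ) ^ 2 ≤ 64 * (V * N) ^ 2 := by
    have h4 : (0 : ℝ) ≤ P.card := Nat.cast_nonneg _
    calc (P.card : ℝ) ^ 2 ≤ (8 * (V * N)) ^ 2 := pow_le_pow_left₀ h4 hP 2
      _ = 64 * (V * N) ^ 2 := by ring
  have h5 : (P.card : ℝ) ^ 2 * (δ ^ 2 * L / 1024) ≤ 64 * (V * N) ^ 2 * (δ ^ 2 * L / 1024) :=
    mul_le_mul_of_nonneg_right h3 (by positivity)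
  generalize ((((P ×ˢ P).filter fun q : ℕ × ℕ => ν q.1 q.2 ≤ ε0).card : ℕ) : ℝ) = G at *
  have h6 : L * (δ ^ 2 / 32 * (V * N) ^ 2) ≤ L * G := by nlinarith
  exact le_of_mul_le_mul_left h6 hL

end V1IIaux

/-- Chunk V1II. Notation of `STR` (`ST1.lean`): `n = n_b(a') = κ_b + b a'`. Cauchy-Schwarz over `a'`:
`|∑|^2 ≤ V^2 (6M/B) ∑_{b,c ∈ P} |∑_{a' ∈ J_{b,c}} ρ(a0 + W a') e (θ (b - c) a')|`; replace `ρ` by `1`
(`exp1`, length `M/B`), error `≤ C er V^4 M^2 / W^2`. So `∑_{b,c} min (3M/B, 1/(2 nr (θ(b-c))))` is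
`≥ c δ^2 (V B / W)^2 M / B`, hence `nr (θ (b - c)) ≤ C' B / M` for `≥ δ' (V B / W)^2` pairs. With
`b - c = W k`: each `k` occurs for at most `V^2 (B/W) (3 + C Ers k)` pairs (`corr0 2`), so
`≥ δ'' B / W` values `|k| ≤ B / W` have `nr (k (W θ)) ≤ C' B / M`. Apply `vl` with `K = B / W`. -/
theorem v1ii : ∃ K : ℕ, 1 ≤ K ∧ ∀ (δ : ℝ) (A : ℕ), 0 < δ → δ ≤ 1 → K ≤ A →
    K * (2 : ℝ) ^ (-(A : ℝ) / K) ≤ δ ^ K → ∃ Q T w0 : ℕ, 1 ≤ Q ∧ ∀ (w W : ℕ), w0 ≤ w → IsW w W →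
    ∃ y0 : ℕ, ∀ (y B M : ℕ) (r b0 : ℤ) (P : Finset ℕ), y0 ≤ y →
    Cfg w W y B M r b0 P ∅ → y ^ (K * A) ≤ B → T * B ^ 2 ≤ M →
    ∀ (β : ℤ → ℂ) (θ : ℝ) (M' : ℤ), BetaOK (sprimes w y) β → 0 ≤ M' → M' ≤ M →
    δ * VV (sprimes w y) ^ 2 * M / W ≤
      ‖∑ n ∈ Finset.Ico (0 : ℤ) M', fII W r P β n * e (θ * n)‖ →
    ∃ q : ℕ, 1 ≤ q ∧ q ≤ Q ∧ nr (q * (W * θ)) ≤ Q * W / M := by
  obtain ⟨Ce, hCe1, hexp⟩ := exp1
  obtain ⟨Cc, hCc1, hcorr⟩ := corr0 2
  obtain ⟨Cr, hCr1, hers⟩ := ers_avg (9 / 10) (by norm_num) (by norm_num)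
  refine ⟨2048 * (Ce + Cc) + 5, by omega, fun δ A hδ hδ1 hKA hKδ => ?_⟩
  set K := 2048 * (Ce + Cc) + 5 with hK
  have hA1 : 1 ≤ A := by omega
  have hKpos : (0 : ℝ) < K := by rw [hK]; positivity
  have hAr : (0 : ℝ) ≤ A := Nat.cast_nonneg _
  -- the error with `2 ^ (-A / C)`
  have h2A : ∀ C : ℕ, 1 ≤ C → C ≤ Ce + Cc → (C : ℝ) * (2 : ℝ) ^ (-(A : ℝ) / C) ≤ δ ^ 2 / 2048 := by
    intro C hC1 hC
    have hCp : (0 : ℝ) < C := by exact_mod_cast hC1
    have hCK : (2048 : ℝ) * C ≤ K := by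
      have : 2048 * C ≤ K := by omega
      exact_mod_cast this
    have h1 : (2 : ℝ) ^ (-(A : ℝ) / C) ≤ (2 : ℝ) ^ (-(A : ℝ) / K) := by
      refine Real.rpow_le_rpow_of_exponent_le (by norm_num) ?_
      rw [neg_div, neg_div, neg_le_neg_iff]
      exact div_le_div_of_nonneg_left hAr hCp (by linarith)
    have h2 : δ ^ K ≤ δ ^ 2 := pow_le_pow_of_le_one hδ.le hδ1 (by omega)
    have h3 : (0 : ℝ) < (2 : ℝ) ^ (-(A : ℝ) / K) := Real.rpow_pos_of_pos (by norm_num) _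
    have h4 : 2048 * (C * (2 : ℝ) ^ (-(A : ℝ) / C)) ≤ δ ^ 2 := by
      calc 2048 * (C * (2 : ℝ) ^ (-(A : ℝ) / C)) = (2048 * C) * (2 : ℝ) ^ (-(A : ℝ) / C) := by ring
        _ ≤ K * (2 : ℝ) ^ (-(A : ℝ) / K) :=
            mul_le_mul hCK h1 (Real.rpow_nonneg (by norm_num) _) hKpos.le
        _ ≤ δ ^ 2 := hKδ.trans h2
    linarith
  -- the constant of `vl`
  have hc4 : 0 < δ ^ 2 / 576 := by positivity
  have hδ2 : δ ^ 2 ≤ 1 := pow_le_one₀ hδ.le hδ1
  obtain ⟨Qv, hQv1, hvl⟩ := vl (δ ^ 2 / 576) hc4 (by linarith)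
  -- the threshold for `w`
  have hlim : ∀ (C t : ℝ), 0 < t → ∀ ε : ℝ, 0 < ε → ∀ᶠ w : ℕ in Filter.atTop,
      C * (w : ℝ) ^ (-t) ≤ ε := by
    intro C t ht ε hε
    have h1 : Filter.Tendsto (fun w : ℕ => C * (w : ℝ) ^ (-t)) Filter.atTop (nhds (C * 0)) :=
      ((tendsto_rpow_neg_atTop ht).comp tendsto_natCast_atTop_atTop).const_mul C
    rw [mul_zero] at h1
    exact h1.eventually (ge_mem_nhds hε)
  have hCer : (0 : ℝ) < Ce := by exact_mod_cast hCe1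
  have hCcr : (0 : ℝ) < Cc := by exact_mod_cast hCc1
  have hCrr : (0 : ℝ) < Cr := by linarith
  have hev := ((((hlim Ce (1 / Ce) (by positivity) (δ ^ 2 / 2048) (by positivity)).and
    (hlim Cc (1 / Cc) (by positivity) (1 / 2) (by norm_num))).and
    (hlim (3 * Cr) (9 / 10) (by norm_num) (δ ^ 2 / (2048 * Cc)) (by positivity))).and
    (Filter.eventually_ge_atTop (Ce + Cc)))
  obtain ⟨w0, hw0⟩ := Filter.eventually_atTop.1 hev
  obtain ⟨Qc, hQc⟩ := exists_nat_ge (2048 * Qv / δ ^ 2)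
  refine ⟨Qv + Qc, 1, w0, by omega, fun w W hw hWW => ?_⟩
  obtain ⟨⟨⟨hw1, hw2⟩, hw3⟩, hw4⟩ := hw0 w hw
  obtain ⟨Y, hY⟩ := exists_nat_ge ((1024 + 2048 * Cc * Cr + 512 * Qv) / δ ^ 2)
  refine ⟨2 + Cc + Qv + Y, fun y B M r b0 P hy hcfg hyB _ β θ M' hβ hM0 hM' hF => ?_⟩
  classical
  set S := sprimes w y with hS
  have hSp : ∀ p ∈ S, p.Prime := fun p hp => (mem_sprimes.1 hp).1
  have hPS : PSet w y S := pset_sprimes w y
  have hV := VV_pos hSp
  have hWpos : 0 < W := hcfg.isW.1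
  have hy2 : 2 ≤ y := by omega
  have hyp : 0 < y := by omega
  have hWy : W ≤ y := by
    have h1 := hcfg.Wy
    have h2 : W ≤ W ^ 4 := Nat.le_self_pow (by norm_num) W
    omega
  obtain ⟨N, hN⟩ : ∃ N, N = B / W := ⟨_, rfl⟩
  obtain ⟨L, hL⟩ : ∃ L, L = M / B := ⟨_, rfl⟩
  have hKA : 5 * A + Ce * A ≤ K * A := by
    rw [← add_mul]
    exact Nat.mul_le_mul_right _ (by omega)
  have hCeA : 1 * 1 ≤ Ce * A := Nat.mul_le_mul hCe1 hA1
  have hyN : y ^ (K * A - 1) ≤ N := by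
    rw [hN, Nat.le_div_iff_mul_le hWpos]
    calc y ^ (K * A - 1) * W ≤ y ^ (K * A - 1) * y := Nat.mul_le_mul_left _ hWy
      _ = y ^ (K * A) := by rw [← pow_succ]; congr 1; omega
      _ ≤ B := hyB
  have hpw : ∀ m, m ≤ K * A - 1 → y ^ m ≤ N := fun m hm =>
    (Nat.pow_le_pow_right hyp hm).trans hyN
  have hN1 : y ^ (Ce * A) ≤ N := hpw _ (by omega)
  have hN2 : y ^ (A + 3) ≤ N := hpw _ (by omega)
  have hN3 : y ^ 2 ≤ N := hpw _ (by omega)
  have hN4 : y ≤ N := by simpa using hpw 1 (by omega)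
  have hNB : N * W ≤ B := by rw [hN]; exact Nat.div_mul_le_self B W
  have hNB' : N ≤ B := le_trans (Nat.le_mul_of_pos_right N hWpos) hNB
  have hBN : B < W * (N + 1) := by rw [hN]; exact Nat.lt_mul_div_succ B hWpos
  have hBpos : 0 < B := by omega
  have hL1 : 100 * B ≤ L := by
    rw [hL, Nat.le_div_iff_mul_le hBpos]
    have := hcfg.BM
    nlinarith
  have hLB : L * B ≤ M := by rw [hL]; exact Nat.div_mul_le_self M B
  have hML : M < B * (L + 1) := by rw [hL]; exact Nat.lt_mul_div_succ M hBpos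
  have hyltB : y < B := by nlinarith
  have hWB : W ≤ B := by omega
  have hNr : (0 : ℝ) < N := by exact_mod_cast (by omega : 0 < N)
  have hLr : (0 : ℝ) < L := by exact_mod_cast (by omega : 0 < L)
  have hWr : (0 : ℝ) < W := by exact_mod_cast hWpos
  -- the error
  obtain ⟨η, hη⟩ : ∃ η, η = Ce * er Ce A w := ⟨_, rfl⟩
  have hη0 : 0 ≤ η := by rw [hη]; exact mul_nonneg hCer.le (er_nonneg _ _ _)
  have hηle : η ≤ δ ^ 2 / 1024 := by
    rw [hη, er, mul_add]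
    have h1 := h2A Ce hCe1 (by omega)
    have h2 : (Ce : ℝ) * (w : ℝ) ^ (-(1 : ℝ) / Ce) ≤ δ ^ 2 / 2048 := by
      rw [neg_div]; exact hw1
    linarith
  have hη1 : η ≤ 1 := by linarith
  have hexp' : ∀ (Mx : ℕ) (r' a b' : ℤ) (ξ : ℝ), y ^ (Ce * A) ≤ Mx → a ≤ b' → b' - a ≤ Mx →
      ‖∑ n ∈ Finset.Ico a b', ((rho S (r' + W * n) - 1 : ℝ) : ℂ) * e (ξ * n)‖ ≤ η * Mx := by
    intro Mx r' a b' ξ h1 h2 h3
    have h4 := hexp A w y W Mx S (by omega) (by omega) hy2 hPS hcfg.isW h1 r' a b' h2 h3 ξ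
    rw [hη]
    exact h4
  have hsr : ∀ (Mx : ℕ) (r' a b' : ℤ), y ^ (Ce * A) ≤ Mx → a ≤ b' → b' - a ≤ Mx →
      ∑ x ∈ Finset.Ico a b', rho S (r' + W * x) ≤ ((b' - a : ℤ) : ℝ) + η * Mx := by
    intro Mx r' a b' h1 h2 h3
    have h4 := hexp' Mx r' a b' 0 h1 h2 h3
    have h5 : ∑ n ∈ Finset.Ico a b', ((rho S (r' + W * n) - 1 : ℝ) : ℂ) * e (0 * n) =
        ((∑ n ∈ Finset.Ico a b', (rho S (r' + W * n) - 1) : ℝ) : ℂ) := by
      push_cast
      refine Finset.sum_congr rfl fun n _ => ?_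
      rw [zero_mul, e_zero, mul_one]
    rw [h5, Complex.norm_real, Real.norm_eq_abs] at h4
    have h6 := (abs_le.1 h4).2
    rw [Finset.sum_sub_distrib, Finset.sum_const, Int.card_Ico, nsmul_eq_mul, mul_one] at h6
    have h7 : (((b' - a).toNat : ℕ) : ℝ) = ((b' - a : ℤ) : ℝ) := by
      have := Int.toNat_of_nonneg (sub_nonneg.2 h2)
      exact_mod_cast this
    rw [h7] at h6
    linarith
  -- number of primes
  have hPcard : (P.card : ℝ) ≤ 8 * (VV S * N) := by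
    have h1 : (P.card : ℝ) = ∑ b ∈ P, VV S * rho S (b : ℤ) := by
      rw [Finset.card_eq_sum_ones]
      push_cast
      exact Finset.sum_congr rfl fun b hb => (V1IIaux.VV_mul_rho hSp
        (V1IIaux.rgh_P hcfg hyltB hb)).symm
    have h2 := V1IIaux.sumP_le hcfg hWB (fun v => VV S * rho S v)
      (fun v => mul_nonneg hV.le (rho_nonneg hSp v))
    rw [← h1, ← Finset.mul_sum, ← hN] at h2
    have h3 := hsr (4 * N) b0 0 (2 * N + 2) (by omega) (by omega) (by push_cast; omega)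
    push_cast at h3 h2
    have h4 : (1 : ℝ) ≤ N := by exact_mod_cast (by omega : 1 ≤ N)
    have h5 : η * (4 * N) ≤ 1 * (4 * N) := mul_le_mul_of_nonneg_right hη1 (by positivity)
    calc (P.card : ℝ) ≤ _ := h2
      _ ≤ VV S * (8 * N) := mul_le_mul_of_nonneg_left (by linarith) hV.le
      _ = _ := by ring
  -- reparametrisation
  obtain ⟨a0, ha0, ha0', ha0d⟩ := V1IIaux.exists_a0 (r := r) hWpos hcfg.b0cop
  obtain ⟨κ, hκd⟩ : ∃ κ : ℕ → ℤ, κ = fun b : ℕ => ((b : ℤ) * a0 - r) / (W : ℤ) := ⟨_, rfl⟩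
  have hκ : ∀ b ∈ P, (W : ℤ) * κ b = b * a0 - r := by
    intro b hb
    rw [hκd]
    refine Int.mul_ediv_cancel' ?_
    have h1 := (hcfg.hP b hb).2.2.2
    have h2 : (b : ℤ) * a0 - r = ((b : ℤ) - b0) * a0 + (b0 * a0 - r) := by ring
    rw [h2]
    exact dvd_add (h1.mul_right _) ha0d
  obtain ⟨I, hI⟩ : ∃ I : ℕ → Finset ℤ,
    I = fun b : ℕ => Finset.Ico (-(κ b / b)) (-((κ b - M') / b)) := ⟨_, rfl⟩
  have hFeq : ∑ n ∈ Finset.Ico (0 : ℤ) M', fII W r P β n * e (θ * n) =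
      ∑ b ∈ P, ∑ a ∈ I b, β (a0 + W * a) * e (θ * ((κ b + b * a : ℤ) : ℝ)) := by
    have h1 : ∀ n : ℤ, fII W r P β n * e (θ * n) = ∑ b ∈ P,
        if (b : ℤ) ∣ r + W * n then β ((r + W * n) / b) * e (θ * n) else 0 := by
      intro n
      unfold fII
      rw [Finset.sum_filter, Finset.sum_mul]
      refine Finset.sum_congr rfl fun b _ => ?_
      split_ifs <;> simp
    simp only [h1]
    rw [Finset.sum_comm]
    refine Finset.sum_congr rfl fun b hb => ?_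
    rw [← Finset.sum_filter, hI]
    have hbpos : 0 < b := (hcfg.hP b hb).1.pos
    have hbc : IsCoprime (b : ℤ) (W : ℤ) := by
      obtain ⟨t, ht⟩ := (hcfg.hP b hb).2.2.2
      rw [show (b : ℤ) = b0 + W * t by linarith]
      exact hcfg.b0cop.add_mul_left_left t
    exact V1IIaux.sum_b hWpos hbpos hbc (hκ b hb) β θ M'
  have hIJ : ∀ b ∈ P, I b ⊆ Finset.Ico (-1 : ℤ) (L + 2) := by
    intro b hb a ha
    rw [hI] at ha
    obtain ⟨hb1, hb2, hb3, -⟩ := hcfg.hP b hb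
    exact V1IIaux.mem_J hWpos hb1.two_le hb2 (by omega) ha0 ha0' hcfg.hr hM' hML (hκ b hb) ha
  have hL3 : L + 3 ≤ 2 * L := by omega
  -- Cauchy-Schwarz
  have hcs := V1IIaux.cs_step (Finset.Ico (-1 : ℤ) (L + 2)) P I hIJ
    (fun a => VV S * rho S (a0 + W * a)) (by
      intro a
      by_cases h : Rgh S (a0 + W * a)
      · rw [V1IIaux.VV_mul_rho hSp h, mul_one]
      · have : rho S (a0 + W * a) = 0 := by unfold rho; rw [if_neg h]
        rw [this, mul_zero, mul_zero])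
    (fun a => β (a0 + W * a)) (by
      intro a
      by_cases h : Rgh S (a0 + W * a)
      · rw [V1IIaux.VV_mul_rho hSp h]
        exact (hβ _).1
      · rw [(hβ _).2 h, norm_zero]
        exact mul_nonneg hV.le (rho_nonneg hSp _)) κ θ
  rw [← hFeq] at hcs
  obtain ⟨E, hE⟩ : ∃ E : ℕ → ℕ → ℝ,
    E = fun b c => ‖∑ a ∈ I b ∩ I c, e (θ * ((b : ℝ) - c) * a)‖ := ⟨_, rfl⟩
  have hinter : ∀ b c, I b ∩ I c = Finset.Ico (max (-(κ b / b)) (-(κ c / c)))
      (min (-((κ b - M') / b)) (-((κ c - M') / c))) := by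
    intro b c
    rw [hI]
    exact Finset.Ico_inter_Ico
  have hJsum : ∑ a ∈ Finset.Ico (-1 : ℤ) (L + 2), VV S * rho S (a0 + W * a) ≤
      VV S * (4 * L) := by
    rw [← Finset.mul_sum]
    refine mul_le_mul_of_nonneg_left ?_ hV.le
    have h1 := hsr (2 * L) a0 (-1) (L + 2) (by omega) (by omega) (by push_cast; omega)
    push_cast at h1
    have h2 : η * (2 * L) ≤ 1 * (2 * L) := mul_le_mul_of_nonneg_right hη1 (by positivity)
    have h3 : (3 : ℝ) ≤ L := by exact_mod_cast (by omega : 3 ≤ L)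
    linarith
  have hpair : ∀ b ∈ P, ∀ c ∈ P,
      ‖∑ a ∈ I b ∩ I c, ((VV S * rho S (a0 + W * a) : ℝ) : ℂ) * e (θ * ((b : ℝ) - c) * a)‖ ≤
        VV S * (E b c + η * (2 * L)) := by
    intro b hb c hc
    have h1 : ∑ a ∈ I b ∩ I c, ((VV S * rho S (a0 + W * a) : ℝ) : ℂ) *
        e (θ * ((b : ℝ) - c) * a) = (VV S : ℂ) * (∑ a ∈ I b ∩ I c, e (θ * ((b : ℝ) - c) * a) +
        ∑ a ∈ I b ∩ I c, ((rho S (a0 + W * a) - 1 : ℝ) : ℂ) * e (θ * ((b : ℝ) - c) * a)) := by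
      rw [← Finset.sum_add_distrib, Finset.mul_sum]
      refine Finset.sum_congr rfl fun a _ => ?_
      push_cast
      ring
    rw [h1, norm_mul, Complex.norm_real, Real.norm_of_nonneg hV.le]
    refine mul_le_mul_of_nonneg_left ((norm_add_le _ _).trans ?_) hV.le
    rw [hE]
    refine add_le_add le_rfl ?_
    have h2 : I b ∩ I c ⊆ Finset.Ico (-1 : ℤ) (L + 2) :=
      Finset.inter_subset_left.trans (hIJ b hb)
    rw [hinter] at h2 ⊢
    generalize max (-(κ b / b)) (-(κ c / c)) = u at *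
    generalize min (-((κ b - M') / b)) (-((κ c - M') / c)) = v at *
    rcases lt_or_ge u v with huv | huv
    · have h3 := h2 (Finset.mem_Ico.2 ⟨le_rfl, huv⟩)
      have h4 := h2 (Finset.mem_Ico.2 ⟨by omega, by omega⟩ : v - 1 ∈ Finset.Ico u v)
      rw [Finset.mem_Ico] at h3 h4
      have h5 := hexp' (2 * L) a0 u v (θ * ((b : ℝ) - c)) (by omega) huv.le (by push_cast; omega)
      push_cast at h5 ⊢
      exact h5
    · rw [Finset.Ico_eq_empty (not_lt.2 huv), Finset.sum_empty, norm_zero]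
      positivity
  -- lower bound for the geometric sums
  have hEsum : δ ^ 2 / 8 * (VV S * N) ^ 2 * L ≤ ∑ b ∈ P, ∑ c ∈ P, E b c := by
    have hNLW : (N : ℝ) * L * W ≤ M := by
      have h1 : N * L * W ≤ M := by
        calc N * L * W = L * (N * W) := by ring
          _ ≤ L * B := Nat.mul_le_mul_left _ hNB
          _ ≤ M := hLB
      exact_mod_cast h1
    have hP2 : (P.card : ℝ) ^ 2 ≤ 64 * (VV S * N) ^ 2 := by
      calc (P.card : ℝ) ^ 2 ≤ (8 * (VV S * N)) ^ 2 :=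
            pow_le_pow_left₀ (Nat.cast_nonneg _) hPcard 2
        _ = 64 * (VV S * N) ^ 2 := by ring
    have hF2 : (δ * VV S ^ 2 * M / W) ^ 2 ≤
        ‖∑ n ∈ Finset.Ico (0 : ℤ) M', fII W r P β n * e (θ * n)‖ ^ 2 :=
      pow_le_pow_left₀ (by positivity) hF 2
    have hX : ∑ b ∈ P, ∑ c ∈ P,
        ‖∑ a ∈ I b ∩ I c, ((VV S * rho S (a0 + W * a) : ℝ) : ℂ) * e (θ * ((b : ℝ) - c) * a)‖ ≤
        VV S * (∑ b ∈ P, ∑ c ∈ P, E b c + (P.card : ℝ) ^ 2 * (η * (2 * L))) := by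
      calc _ ≤ ∑ b ∈ P, ∑ c ∈ P, VV S * (E b c + η * (2 * L)) :=
            Finset.sum_le_sum fun b hb => Finset.sum_le_sum fun c hc => hpair b hb c hc
        _ = _ := by
            simp only [← Finset.mul_sum, Finset.sum_add_distrib, Finset.sum_const, nsmul_eq_mul]
            ring
    have hX0 : 0 ≤ ∑ b ∈ P, ∑ c ∈ P,
        ‖∑ a ∈ I b ∩ I c, ((VV S * rho S (a0 + W * a) : ℝ) : ℂ) * e (θ * ((b : ℝ) - c) * a)‖ :=
      Finset.sum_nonneg fun b _ => Finset.sum_nonneg fun c _ => norm_nonneg _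
    refine V1IIaux.arith1 hδ hV hNr hLr hWr hNLW hηle hη0 hP2 hF2 hX ?_
    exact hcs.trans (mul_le_mul_of_nonneg_right hJsum hX0)
  -- good pairs
  have hE1 : ∀ b ∈ P, ∀ c ∈ P, E b c ≤ 2 * L := by
    intro b hb c _
    rw [hE]
    refine (norm_sum_le _ _).trans ?_
    simp only [norm_e, Finset.sum_const, nsmul_eq_mul, mul_one]
    have h1 := Finset.card_le_card (Finset.inter_subset_left.trans (hIJ b hb) :
      I b ∩ I c ⊆ Finset.Ico (-1 : ℤ) (L + 2))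
    rw [Int.card_Ico] at h1
    have h2 : ((L : ℤ) + 2 - -1).toNat = L + 3 := by omega
    rw [h2] at h1
    exact_mod_cast h1.trans hL3
  have hE2 : ∀ b ∈ P, ∀ c ∈ P, E b c * (2 * nr (θ * ((b : ℝ) - c))) ≤ 1 := by
    intro b _ c _
    rw [hE]
    simp only []
    rw [hinter]
    rcases le_or_gt (max (-(κ b / b)) (-(κ c / c))) (min (-((κ b - M') / b)) (-((κ c - M') / c)))
      with h | h
    · exact geo _ _ h _
    · rw [Finset.Ico_eq_empty (not_lt.2 h.le), Finset.sum_empty, norm_zero, zero_mul]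
      exact zero_le_one
  have hG := V1IIaux.good_pairs hδ hLr hE1 hE2 hPcard hEsum
  -- correlations
  have hζ : Cc * er Cc A w ≤ 1 := by
    rw [er, mul_add]
    have h1 := h2A Cc hCc1 (by omega)
    have h2 : (Cc : ℝ) * (w : ℝ) ^ (-(1 : ℝ) / Cc) ≤ 1 / 2 := by
      rw [neg_div]; exact hw2
    linarith
  have hNr1 : (1 : ℝ) ≤ N := by exact_mod_cast (by omega : 1 ≤ N)
  have hcc : ∀ k : ℤ, ∑ x ∈ Finset.Ico (0 : ℤ) (2 * (B / W : ℕ) + 2),
      rho S (b0 + W * x) * rho S (b0 + W * x + W * k) ≤ N * (9 + 8 * Cc * Ers (9 / 10) S k) := by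
    intro k
    have hWS : ∀ p ∈ S, ¬ (p : ℤ) ∣ (W : ℤ) := hcfg.isW.not_dvd hPS
    have h1 := hcorr A w y S (by omega) (by omega) hy2 hPS ![(W : ℤ), W] ![b0, b0 + W * k]
      (by
        intro p hp i
        fin_cases i
        · exact hWS p hp
        · exact hWS p hp) 0 (2 * (B / W : ℕ) + 2) (by omega)
    have h2 : ∀ x : ℤ, ∏ i : Fin 2, rho S ((![(W : ℤ), W] : Fin 2 → ℤ) i * x +
        (![b0, b0 + W * k] : Fin 2 → ℤ) i) = rho S (b0 + W * x) * rho S (b0 + W * x + W * k) := by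
      intro x
      rw [Fin.prod_univ_two]
      simp only [Matrix.cons_val_zero, Matrix.cons_val_one]
      rw [show (W : ℤ) * x + b0 = b0 + W * x by ring,
        show (W : ℤ) * x + (b0 + W * k) = b0 + W * x + W * k by ring]
    simp only [h2] at h1
    have hd : ∀ p ∈ S, ¬ (p : ℤ) ∣ (W : ℤ) * W := by
      intro p hp hdv
      rcases (Nat.prime_iff_prime_int.1 (hSp p hp)).dvd_or_dvd hdv with h | h
      · exact hWS p hp h
      · exact hWS p hp h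
    have h3 : ∑ i : Fin 2, ∑ j ∈ Finset.univ.filter (fun j => i ≠ j),
        Ers (9 / 10) S (disc ![(W : ℤ), W] ![b0, b0 + W * k] i j) = 2 * Ers (9 / 10) S k := by
      rw [Fin.sum_univ_two]
      have e0 : Finset.univ.filter (fun j : Fin 2 => (0 : Fin 2) ≠ j) = {1} := by decide
      have e1 : Finset.univ.filter (fun j : Fin 2 => (1 : Fin 2) ≠ j) = {0} := by decide
      rw [e0, e1, Finset.sum_singleton, Finset.sum_singleton]
      have d0 : disc ![(W : ℤ), W] ![b0, b0 + W * k] (0 : Fin 2) 1 = (W * W) * k := by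
        simp [disc]
        ring
      have d1 : disc ![(W : ℤ), W] ![b0, b0 + W * k] (1 : Fin 2) 0 = -((W * W) * k) := by
        simp [disc]
        ring
      rw [d0, d1, ers_neg, ers_mul hSp _ _ _ hd]
      ring
    rw [h3] at h1
    have h4 := (abs_le.1 h1).2
    have h5 : (Cc : ℝ) * (y : ℝ) ^ (A + 2) ≤ N := by
      have h6 : Cc * y ^ (A + 2) ≤ N := by
        calc Cc * y ^ (A + 2) ≤ y * y ^ (A + 2) := Nat.mul_le_mul_right _ (by omega)
          _ = y ^ (A + 3) := by ring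
          _ ≤ N := hN2
      exact_mod_cast h6
    have h7 : (((2 * (B / W : ℕ) + 2 : ℤ) : ℝ) - ((0 : ℤ) : ℝ)) ≤ 4 * N := by
      rw [← hN]
      push_cast
      linarith
    have h8 : 0 ≤ Ers (9 / 10) S k := Ers_nonneg _ _ _
    have h9 : 0 ≤ Cc * er Cc A w + Cc * (2 * Ers (9 / 10) S k) :=
      add_nonneg (mul_nonneg hCcr.le (er_nonneg _ _ _)) (by positivity)
    have h10 := mul_le_mul_of_nonneg_right h7 h9
    have h11 : 4 * (N : ℝ) * (Cc * er Cc A w + Cc * (2 * Ers (9 / 10) S k)) ≤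
        4 * N * (1 + Cc * (2 * Ers (9 / 10) S k)) :=
      mul_le_mul_of_nonneg_left (by linarith) (by positivity)
    nlinarith
  -- partition
  obtain ⟨ε0, hε0⟩ : ∃ ε0, ε0 = 512 / (δ ^ 2 * L) := ⟨_, rfl⟩
  rw [← hε0] at hG
  obtain ⟨KK, hKK⟩ : ∃ KK : Finset ℤ,
    KK = (Finset.Icc (-(N : ℤ)) N).filter fun k : ℤ => nr (k * (W * θ)) ≤ ε0 := ⟨_, rfl⟩
  have hsub : (P ×ˢ P).filter (fun q : ℕ × ℕ => nr (θ * ((q.1 : ℝ) - q.2)) ≤ ε0) ⊆
      KK.biUnion fun k => (P ×ˢ P).filter fun q : ℕ × ℕ => (q.1 : ℤ) - q.2 = W * k := by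
    intro q hq
    rw [Finset.mem_filter, Finset.mem_product] at hq
    obtain ⟨⟨hq1, hq2⟩, hq3⟩ := hq
    obtain ⟨-, h1, h2, h3⟩ := hcfg.hP _ hq1
    obtain ⟨-, h4, h5, h6⟩ := hcfg.hP _ hq2
    have h7 : (W : ℤ) ∣ (q.1 : ℤ) - q.2 := by
      have := dvd_sub h3 h6
      rwa [sub_sub_sub_cancel_right] at this
    obtain ⟨k, hk⟩ := h7
    rw [Finset.mem_biUnion]
    refine ⟨k, ?_, Finset.mem_filter.2 ⟨Finset.mem_product.2 ⟨hq1, hq2⟩, hk⟩⟩
    rw [hKK, Finset.mem_filter, Finset.mem_Icc]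
    have hW' : (0 : ℤ) < W := by exact_mod_cast hWpos
    have hBN' : (B : ℤ) < W * (N + 1) := by exact_mod_cast hBN
    have g1 : (B : ℤ) ≤ q.1 := by exact_mod_cast h1
    have g2 : (q.1 : ℤ) ≤ 2 * B := by exact_mod_cast h2
    have g3 : (B : ℤ) ≤ q.2 := by exact_mod_cast h4
    have g4 : (q.2 : ℤ) ≤ 2 * B := by exact_mod_cast h5
    refine ⟨⟨?_, ?_⟩, ?_⟩
    · by_contra hx
      have hx' : k ≤ -(N + 1 : ℤ) := by omega
      have : (W : ℤ) * k ≤ W * (-(N + 1)) := mul_le_mul_of_nonneg_left hx' hW'.le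
      linarith
    · by_contra hx
      have hx' : (N + 1 : ℤ) ≤ k := by omega
      have : (W : ℤ) * (N + 1) ≤ W * k := mul_le_mul_of_nonneg_left hx' hW'.le
      linarith
    · have h8 : (k : ℝ) * (W * θ) = θ * ((q.1 : ℝ) - q.2) := by
        have : ((q.1 : ℝ) - q.2) = W * k := by exact_mod_cast hk
        rw [this]
        ring
      rw [h8]
      exact hq3
  have hfib : ∀ k : ℤ,
      ((((P ×ˢ P).filter fun q : ℕ × ℕ => (q.1 : ℤ) - q.2 = W * k).card : ℕ) : ℝ) ≤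
        (if k = 0 then 8 * (VV S * N) else 0) +
          VV S ^ 2 * (N * (9 + 8 * Cc * Ers (9 / 10) S k)) := by
    intro k
    have hpos : 0 ≤ VV S ^ 2 * (N * (9 + 8 * Cc * Ers (9 / 10) S k)) := by
      have := Ers_nonneg (9 / 10) S k
      positivity
    split_ifs with hk
    · refine le_trans ?_ (le_add_of_nonneg_right hpos)
      refine le_trans ?_ hPcard
      have : ((P ×ˢ P).filter fun q : ℕ × ℕ => (q.1 : ℤ) - q.2 = W * k).card ≤ P.card := by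
        refine Finset.card_le_card_of_injOn Prod.fst ?_ ?_
        · intro q hq
          exact (Finset.mem_product.1 (Finset.mem_filter.1 hq).1).1
        · intro q hq q' hq' hqq
          have h1 := (Finset.mem_filter.1 hq).2
          have h2 := (Finset.mem_filter.1 hq').2
          rw [hk, mul_zero] at h1 h2
          refine Prod.ext hqq ?_
          have h3 : (q.1 : ℤ) = q'.1 := by exact_mod_cast hqq
          have : (q.2 : ℤ) = q'.2 := by linarith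
          exact_mod_cast this
      exact_mod_cast this
    · rw [zero_add]
      refine (V1IIaux.pairs_le hcfg hWB hyltB k).trans ?_
      exact mul_le_mul_of_nonneg_left (hcc k) (by positivity)
  have hcount : δ ^ 2 / 32 * (VV S * N) ^ 2 ≤ 8 * (VV S * N) + VV S ^ 2 * (N * (9 * (KK.card : ℝ) +
      8 * Cc * ∑ k ∈ Finset.Icc (-(N : ℤ)) N, Ers (9 / 10) S k)) := by
    refine hG.trans ?_
    have h1 := (Finset.card_le_card hsub).trans Finset.card_biUnion_le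
    have h2 : ((((P ×ˢ P).filter fun q : ℕ × ℕ =>
        nr (θ * ((q.1 : ℝ) - q.2)) ≤ ε0).card : ℕ) : ℝ) ≤
        ∑ k ∈ KK, ((((P ×ˢ P).filter fun q : ℕ × ℕ => (q.1 : ℤ) - q.2 = W * k).card : ℕ) : ℝ) := by
      exact_mod_cast h1
    refine h2.trans ((Finset.sum_le_sum fun k _ => hfib k).trans ?_)
    rw [Finset.sum_add_distrib]
    refine add_le_add ?_ ?_
    · rw [Finset.sum_ite_eq']
      split_ifs
      · exact le_rfl
      · positivity
    · rw [← Finset.mul_sum, ← Finset.mul_sum, Finset.sum_add_distrib, Finset.sum_const,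
        nsmul_eq_mul, ← Finset.mul_sum]
      refine mul_le_mul_of_nonneg_left (mul_le_mul_of_nonneg_left ?_ hNr.le) (by positivity)
      refine add_le_add (le_of_eq (mul_comm _ _)) (mul_le_mul_of_nonneg_left ?_ (by positivity))
      refine Finset.sum_le_sum_of_subset_of_nonneg ?_ fun k _ _ => Ers_nonneg _ _ _
      rw [hKK]
      exact Finset.filter_subset _ _
  -- the thresholds
  have hYy : (1024 + 2048 * Cc * Cr + 512 * Qv) / δ ^ 2 ≤ (y : ℝ) :=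
    hY.trans (by exact_mod_cast (by omega : Y ≤ y))
  rw [div_le_iff₀ (by positivity)] at hYy
  have hQv0 : (0 : ℝ) ≤ Qv := Nat.cast_nonneg _
  have hyr : (0 : ℝ) < y := by exact_mod_cast hyp
  have hCCr : 0 ≤ (Cc : ℝ) * Cr := by positivity
  have hVN : 1024 / δ ^ 2 ≤ VV S * N := by
    have h1 : 1 / (y : ℝ) ≤ VV S := V1IIaux.VV_ge (by omega)
    have h2 : (y : ℝ) ^ 2 ≤ N := by exact_mod_cast hN3
    have h3 : 1 / (y : ℝ) * y ^ 2 ≤ VV S * N := mul_le_mul h1 h2 (by positivity) hV.le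
    have h4 : 1 / (y : ℝ) * y ^ 2 = y := by field_simp
    rw [h4] at h3
    refine le_trans ?_ h3
    rw [div_le_iff₀ (by positivity)]
    nlinarith
  have hErs : 8 * Cc * ∑ k ∈ Finset.Icc (-(N : ℤ)) N, Ers (9 / 10) S k ≤ δ ^ 2 * N / 128 := by
    have h1 := hers w y S (by omega) hPS 1 0 (by
      intro p hp hdv
      have h2 := hSp p hp
      have h3 : p ∣ 1 := by exact_mod_cast hdv
      exact h2.one_lt.ne' (Nat.dvd_one.1 h3)) (-(N : ℤ)) (N + 1) (by omega)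
    have h4 : Finset.Ico (-(N : ℤ)) (N + 1) = Finset.Icc (-(N : ℤ)) N := by
      ext k
      rw [Finset.mem_Ico, Finset.mem_Icc]
      omega
    rw [h4] at h1
    simp only [one_mul, add_zero] at h1
    push_cast at h1
    obtain ⟨ω, hω⟩ : ∃ ω : ℝ, ω = (w : ℝ) ^ (-(9 / 10 : ℝ)) := ⟨_, rfl⟩
    rw [← hω] at h1 hw3
    have hω0 : 0 ≤ ω := by rw [hω]; exact Real.rpow_nonneg (Nat.cast_nonneg _) _
    have h5 : ((N : ℝ) + 1 - -N) * ω + y ≤ 3 * N * ω + y := by nlinarith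
    have h6 := h1.trans (mul_le_mul_of_nonneg_left h5 hCrr.le)
    have h7 : 3 * Cr * ω * (2048 * Cc) ≤ δ ^ 2 := by
      rw [le_div_iff₀ (by positivity)] at hw3
      exact hw3
    have h8 : (y : ℝ) ^ 2 ≤ N := by exact_mod_cast hN3
    have h9 : 2048 * Cc * Cr * y ≤ δ ^ 2 * N := by
      have h10 : 2048 * Cc * Cr ≤ y * δ ^ 2 := by nlinarith
      have h11 := mul_le_mul_of_nonneg_right h10 hyr.le
      have h12 : (y : ℝ) * δ ^ 2 * y = δ ^ 2 * y ^ 2 := by ring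
      rw [h12] at h11
      exact h11.trans (mul_le_mul_of_nonneg_left h8 (by positivity))
    have h13 := mul_le_mul_of_nonneg_left h6 (show (0 : ℝ) ≤ 8 * Cc by positivity)
    have h14 := mul_le_mul_of_nonneg_right h7 hNr.le
    nlinarith
  have hKcard := V1IIaux.arith2 hδ hV hNr hVN hErs hcount
  have hε00 : 0 ≤ ε0 := by rw [hε0]; positivity
  have hLy : (y : ℝ) ≤ L := by exact_mod_cast (by omega : y ≤ L)
  have hQε : Qv * ε0 ≤ 1 := by
    rw [hε0, mul_div_assoc', div_le_one (by positivity)]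
    have h1 : (512 : ℝ) * Qv ≤ y * δ ^ 2 := by nlinarith
    have h2 : (y : ℝ) * δ ^ 2 ≤ L * δ ^ 2 := mul_le_mul_of_nonneg_right hLy (by positivity)
    linarith
  have hvl' := hvl N (by omega) ε0 hε00 hQε (W * θ) (by
    rw [hKK] at hKcard
    convert hKcard)
  obtain ⟨q, hq1, hq2, hq3⟩ := hvl'
  refine ⟨q, hq1, by omega, hq3.trans ?_⟩
  have hMr : (0 : ℝ) < M := by
    have : 0 < M := lt_of_lt_of_le (Nat.mul_pos (by omega) hBpos) hLB
    exact_mod_cast this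
  push_cast
  refine V1IIaux.arith3 hδ hQv0 hLr hNr hWr hMr (B := B) ?_ ?_ hQc hε0
  · have h1 : M ≤ B * (2 * L) := hML.le.trans (Nat.mul_le_mul_left _ (by omega))
    exact_mod_cast h1
  · have h1 : B ≤ W * (2 * N) := hBN.le.trans (Nat.mul_le_mul_left _ (by omega))
    exact_mod_cast h1

end Pool.Agent.Lib.H18GB
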